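import Mathlib

/-!
Project SV, part E: derivations of fraction fields.
-/

namespace Pool.Agent.Lib.MP_3550b5_nt.SV

open PowerSeries

/-- The ring homomorphism `x ↦ x + ε d x`. -/
private noncomputable def cmpfrHom {R : Type*} [CommRing R] [IsDomain R] (d : Derivation ℤ R R) :
    R →+* DualNumber (FractionRing R) where
  toFun x := (algebraMap R (FractionRing R) x, algebraMap R (FractionRing R) (d x))
  map_one' := by
    apply TrivSqZeroExt.ext
    · change algebraMap R (FractionRing R) 1 = _
      rw [map_one, TrivSqZeroExt.fst_one]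
    · change algebraMap R (FractionRing R) (d 1) = _
      rw [Derivation.map_one_eq_zero, map_zero, TrivSqZeroExt.snd_one]
  map_zero' := by
    apply TrivSqZeroExt.ext
    · change algebraMap R (FractionRing R) 0 = _
      rw [map_zero, TrivSqZeroExt.fst_zero]
    · change algebraMap R (FractionRing R) (d 0) = _
      rw [map_zero, map_zero, TrivSqZeroExt.snd_zero]
  map_add' x y := by
    apply TrivSqZeroExt.ext
    · rw [TrivSqZeroExt.fst_add]
      exact map_add _ _ _
    · rw [TrivSqZeroExt.snd_add]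
      change algebraMap R (FractionRing R) (d (x + y)) = _
      rw [map_add, map_add]
      rfl
  map_mul' x y := by
    apply TrivSqZeroExt.ext
    · rw [TrivSqZeroExt.fst_mul]
      exact map_mul _ _ _
    · rw [TrivSqZeroExt.snd_mul]
      change algebraMap R (FractionRing R) (d (x * y)) =
        algebraMap R (FractionRing R) x * algebraMap R (FractionRing R) (d y) +
          algebraMap R (FractionRing R) (d x) * algebraMap R (FractionRing R) y
      rw [Derivation.leibniz, smul_eq_mul, smul_eq_mul, map_add, map_mul, map_mul]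
      ring

theorem exists_fracDer_add {R : Type*} [CommRing R] [IsDomain R] (d : Derivation ℤ R R) :
    ∃ f : FractionRing R →+ FractionRing R, (∀ x y, f (x * y) = x * f y + y * f x) ∧
      ∀ x, f (algebraMap R (FractionRing R) x) = algebraMap R (FractionRing R) (d x) := by
  have hu : ∀ y : nonZeroDivisors R, IsUnit (cmpfrHom d y) := by
    intro y
    rw [TrivSqZeroExt.isUnit_iff_isUnit_fst]
    change IsUnit (algebraMap R (FractionRing R) y)
    rw [isUnit_iff_ne_zero]
    exact IsFractionRing.to_map_ne_zero_of_mem_nonZeroDivisors y.2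
  obtain ⟨L, hL⟩ : ∃ L : FractionRing R →+* DualNumber (FractionRing R),
      ∀ x, L (algebraMap R (FractionRing R) x) = cmpfrHom d x :=
    ⟨IsLocalization.lift hu, fun x => IsLocalization.lift_eq hu x⟩
  have hfst : ∀ x, TrivSqZeroExt.fst (L x) = x := by
    intro x
    have h1 : ((TrivSqZeroExt.fstHom (FractionRing R) (FractionRing R) (FractionRing R)).toRingHom.comp L) =
        RingHom.id _ := by
      apply IsLocalization.ringHom_ext (nonZeroDivisors R)
      ext y
      change TrivSqZeroExt.fst (L (algebraMap R (FractionRing R) y)) =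
        algebraMap R (FractionRing R) y
      rw [hL]
      rfl
    exact congrArg (fun g : FractionRing R →+* FractionRing R => g x) h1
  refine ⟨⟨⟨fun x => TrivSqZeroExt.snd (L x), by rw [map_zero, TrivSqZeroExt.snd_zero]⟩,
    fun x y => by
      change TrivSqZeroExt.snd (L (x + y)) = TrivSqZeroExt.snd (L x) + TrivSqZeroExt.snd (L y)
      rw [map_add, TrivSqZeroExt.snd_add]⟩, fun x y => ?_, fun x => ?_⟩
  · change TrivSqZeroExt.snd (L (x * y)) = x * TrivSqZeroExt.snd (L y) + y * TrivSqZeroExt.snd (L x)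
    rw [map_mul, TrivSqZeroExt.snd_mul, hfst, hfst, mul_comm y]
    rfl
  · change TrivSqZeroExt.snd (L (algebraMap R (FractionRing R) x)) = _
    rw [hL]
    rfl

theorem cmpfr_const {k : Type*} [Field k] [CharZero k] {h : k⟦X⟧} (hd : derivative k h = 0) :
    ∃ c : k, h = C c := by
  refine ⟨constantCoeff h, ?_⟩
  apply PowerSeries.derivative.ext
  · rw [hd]
    exact derivative_C.symm
  · rw [constantCoeff_C]

/-- The constants of the fraction field of `k⟦X⟧`. -/
theorem cmpfr_constants {k : Type*} [Field k] [CharZero k] {g : k} (hg : g ≠ 0)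
    {f : FractionRing k⟦X⟧ →+ FractionRing k⟦X⟧} (hm : ∀ x y, f (x * y) = x * f y + y * f x)
    (ha : ∀ x, f (algebraMap k⟦X⟧ (FractionRing k⟦X⟧) x) =
      algebraMap k⟦X⟧ (FractionRing k⟦X⟧) (C g * derivative k x)) (x : FractionRing k⟦X⟧) :
    f x = 0 ↔ ∃ c : k, x = algebraMap k⟦X⟧ (FractionRing k⟦X⟧) (C c) := by
  have hinj : Function.Injective (algebraMap k⟦X⟧ (FractionRing k⟦X⟧)) :=
    IsFractionRing.injective _ _
  have hC : (C g : k⟦X⟧) ≠ 0 := by
    intro h
    exact hg (PowerSeries.C_injective (h.trans (map_zero _).symm))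
  -- power series
  have hps : ∀ h : k⟦X⟧, f (algebraMap k⟦X⟧ (FractionRing k⟦X⟧) h) = 0 → ∃ c : k, h = C c := by
    intro h hh
    rw [ha, ← map_zero (algebraMap k⟦X⟧ (FractionRing k⟦X⟧))] at hh
    exact cmpfr_const ((mul_eq_zero.1 (hinj hh)).resolve_left hC)
  constructor
  · intro hx
    obtain ⟨a, b, hb, rfl⟩ := IsFractionRing.div_surjective (A := k⟦X⟧) x
    have hb0 : algebraMap k⟦X⟧ (FractionRing k⟦X⟧) b ≠ 0 :=
      IsFractionRing.to_map_ne_zero_of_mem_nonZeroDivisors hb
    rcases ValuationRing.dvd_total b a with ⟨h, rfl⟩ | ⟨h, rfl⟩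
    · have h1 : algebraMap k⟦X⟧ (FractionRing k⟦X⟧) (b * h) / algebraMap k⟦X⟧ (FractionRing k⟦X⟧) b =
          algebraMap k⟦X⟧ (FractionRing k⟦X⟧) h := by
        rw [map_mul, mul_div_cancel_left₀ _ hb0]
      rw [h1] at hx ⊢
      obtain ⟨c, rfl⟩ := hps h hx
      exact ⟨c, rfl⟩
    · rw [map_mul] at hb0
      have ha0 := left_ne_zero_of_mul hb0
      have hh0 := right_ne_zero_of_mul hb0
      have h1 : algebraMap k⟦X⟧ (FractionRing k⟦X⟧) a / algebraMap k⟦X⟧ (FractionRing k⟦X⟧) (a * h) =
          (algebraMap k⟦X⟧ (FractionRing k⟦X⟧) h)⁻¹ := by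
        rw [map_mul, div_mul_cancel_left₀ ha0]
      rw [h1] at hx ⊢
      have h2 : f 1 = 0 := by
        have h3 := ha 1
        rw [map_one, Derivation.map_one_eq_zero, mul_zero, map_zero] at h3
        exact h3
      have h3 := hm (algebraMap k⟦X⟧ (FractionRing k⟦X⟧) h) (algebraMap k⟦X⟧ (FractionRing k⟦X⟧) h)⁻¹
      rw [mul_inv_cancel₀ hh0, h2, hx, mul_zero, zero_add] at h3
      have h4 : f (algebraMap k⟦X⟧ (FractionRing k⟦X⟧) h) = 0 :=
        (mul_eq_zero.1 h3.symm).resolve_left (inv_ne_zero hh0)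
      obtain ⟨c, rfl⟩ := hps h h4
      have hc : c ≠ 0 := by
        rintro rfl
        apply hh0
        rw [map_zero, map_zero]
      refine ⟨c⁻¹, ?_⟩
      refine inv_eq_of_mul_eq_one_left ?_
      rw [← map_mul, ← map_mul, inv_mul_cancel₀ hc, map_one, map_one]
  · rintro ⟨c, rfl⟩
    rw [ha, derivative_C, mul_zero, map_zero]

end Pool.Agent.Lib.MP_3550b5_nt.SV
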