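import Mathlib
import Pool.Agent.Lib.MP_3550b5_nt.Eval

/-!
Project SV, part E: composition of power series, the analytic part.
-/

namespace Pool.Agent.Lib.MP_3550b5_nt.SV

open PowerSeries

variable {p : ℕ} [hp : Fact p.Prime]

private lemma cx_pinv : (0 : ℝ) ≤ (p : ℝ)⁻¹ ∧ (p : ℝ)⁻¹ < 1 := by
  have h1 : (1 : ℝ) < p := by exact_mod_cast hp.out.one_lt
  exact ⟨by positivity, inv_lt_one_of_one_lt₀ h1⟩

private lemma cx_norm {T : ℤ_[p]⟦X⟧} (hT : C (p : ℤ_[p]) ∣ T) (f : ℤ_[p]⟦X⟧) (n k : ℕ) :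
    ‖coeff k (f * T ^ n)‖ ≤ ((p : ℝ)⁻¹) ^ n := by
  obtain ⟨T₁, rfl⟩ := hT
  rw [mul_pow, ← map_pow, mul_left_comm, coeff_C_mul, norm_mul, norm_pow, PadicInt.norm_p]
  exact mul_le_of_le_one_right (by positivity) (PadicInt.norm_le_one _)

private lemma cx_norm' {T : ℤ_[p]⟦X⟧} (hT : C (p : ℤ_[p]) ∣ T) (f g : ℤ_[p]⟦X⟧) (n k : ℕ) :
    ‖coeff k (f * T ^ n * g)‖ ≤ ((p : ℝ)⁻¹) ^ n := by
  rw [mul_right_comm]
  exact cx_norm hT (f * g) n k

private lemma cx_sumn {T : ℤ_[p]⟦X⟧} (hT : C (p : ℤ_[p]) ∣ T) (F : ℕ → ℤ_[p]⟦X⟧) (k : ℕ) :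
    Summable (fun n => ‖coeff k (F n * T ^ n)‖) :=
  Summable.of_nonneg_of_le (fun _ => norm_nonneg _) (fun n => cx_norm hT (F n) n k)
    (summable_geometric_of_lt_one cx_pinv.1 cx_pinv.2)

private lemma cx_sum {T : ℤ_[p]⟦X⟧} (hT : C (p : ℤ_[p]) ∣ T) (F : ℕ → ℤ_[p]⟦X⟧) (k : ℕ) :
    Summable (fun n => coeff k (F n * T ^ n)) := (cx_sumn hT F k).of_norm

/-- The value of `F` at `T`. -/
private noncomputable def cx (T : ℤ_[p]⟦X⟧) (F : ℤ_[p]⟦X⟧⟦X⟧) : ℤ_[p]⟦X⟧ :=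
  PowerSeries.mk fun k => ∑' n, coeff k (coeff n F * T ^ n)

private lemma coeff_cx (T : ℤ_[p]⟦X⟧) (F : ℤ_[p]⟦X⟧⟦X⟧) (k : ℕ) :
    coeff k (cx T F) = ∑' n, coeff k (coeff n F * T ^ n) := by
  rw [cx, coeff_mk]

private lemma coeff_cx_mul {T : ℤ_[p]⟦X⟧} (hT : C (p : ℤ_[p]) ∣ T) (F : ℤ_[p]⟦X⟧⟦X⟧)
    (g : ℤ_[p]⟦X⟧) (k : ℕ) :
    coeff k (cx T F * g) = ∑' n, coeff k (coeff n F * T ^ n * g) := by
  rw [coeff_mul]
  simp only [coeff_cx, coeff_mul k (coeff _ F * T ^ _) g]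
  rw [Summable.tsum_finsetSum (fun q _ => (cx_sum hT _ q.1).mul_right _)]
  refine Finset.sum_congr rfl fun q _ => ?_
  exact ((cx_sum hT _ q.1).tsum_mul_right _).symm

private lemma cx_C {T : ℤ_[p]⟦X⟧} (f : ℤ_[p]⟦X⟧) : cx T (C f) = f := by
  ext k
  rw [coeff_cx, tsum_eq_single 0]
  · rw [coeff_C, if_pos rfl, pow_zero, mul_one]
  · intro n hn
    rw [coeff_C, if_neg hn, zero_mul, map_zero]

private lemma cx_X {T : ℤ_[p]⟦X⟧} : cx T X = T := by
  ext k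
  rw [coeff_cx, tsum_eq_single 1]
  · rw [coeff_X, if_pos rfl, pow_one, one_mul]
  · intro n hn
    rw [coeff_X, if_neg hn, zero_mul, map_zero]

private lemma cx_add {T : ℤ_[p]⟦X⟧} (hT : C (p : ℤ_[p]) ∣ T) (F G : ℤ_[p]⟦X⟧⟦X⟧) :
    cx T (F + G) = cx T F + cx T G := by
  ext k
  rw [map_add, coeff_cx, coeff_cx, coeff_cx, ← (cx_sum hT _ k).tsum_add (cx_sum hT _ k)]
  refine tsum_congr fun n => ?_
  rw [map_add, add_mul, map_add]

private lemma cx_mul {T : ℤ_[p]⟦X⟧} (hT : C (p : ℤ_[p]) ∣ T) (F G : ℤ_[p]⟦X⟧⟦X⟧) :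
    cx T (F * G) = cx T F * cx T G := by
  ext k
  have h1 : ∀ q : ℕ × ℕ, coeff q.1 (cx T F) * coeff q.2 (cx T G) =
      ∑' N, ∑ r ∈ Finset.HasAntidiagonal.antidiagonal N,
        coeff q.1 (coeff r.1 F * T ^ r.1) * coeff q.2 (coeff r.2 G * T ^ r.2) := by
    intro q
    rw [coeff_cx, coeff_cx]
    exact tsum_mul_tsum_eq_tsum_sum_antidiagonal_of_summable_norm (cx_sumn hT _ q.1)
      (cx_sumn hT _ q.2)
  have h2 : ∀ q : ℕ × ℕ, Summable (fun N => ∑ r ∈ Finset.HasAntidiagonal.antidiagonal N,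
        coeff q.1 (coeff r.1 F * T ^ r.1) * coeff q.2 (coeff r.2 G * T ^ r.2)) := by
    intro q
    have h5 := summable_norm_sum_mul_antidiagonal_of_summable_norm
      (cx_sumn hT (fun n => coeff n F) q.1) (cx_sumn hT (fun n => coeff n G) q.2)
    exact h5.of_norm
  have h3 : ∀ N : ℕ, coeff k (coeff N (F * G) * T ^ N) =
      ∑ q ∈ Finset.HasAntidiagonal.antidiagonal k, ∑ r ∈ Finset.HasAntidiagonal.antidiagonal N,
        coeff q.1 (coeff r.1 F * T ^ r.1) * coeff q.2 (coeff r.2 G * T ^ r.2) := by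
    intro N
    have h4 : coeff N (F * G) * T ^ N = ∑ r ∈ Finset.HasAntidiagonal.antidiagonal N,
        (coeff r.1 F * T ^ r.1) * (coeff r.2 G * T ^ r.2) := by
      rw [coeff_mul, Finset.sum_mul]
      refine Finset.sum_congr rfl fun r hr => ?_
      rw [← Finset.HasAntidiagonal.mem_antidiagonal.mp hr, pow_add]
      exact mul_mul_mul_comm _ _ _ _
    rw [h4, map_sum, Finset.sum_comm]
    refine Finset.sum_congr rfl fun r _ => ?_
    exact coeff_mul k _ _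
  calc coeff k (cx T (F * G)) = ∑' N, coeff k (coeff N (F * G) * T ^ N) := coeff_cx _ _ _
    _ = ∑' N, ∑ q ∈ Finset.HasAntidiagonal.antidiagonal k,
        ∑ r ∈ Finset.HasAntidiagonal.antidiagonal N,
        coeff q.1 (coeff r.1 F * T ^ r.1) * coeff q.2 (coeff r.2 G * T ^ r.2) := tsum_congr h3
    _ = ∑ q ∈ Finset.HasAntidiagonal.antidiagonal k,
        ∑' N, ∑ r ∈ Finset.HasAntidiagonal.antidiagonal N,
        coeff q.1 (coeff r.1 F * T ^ r.1) * coeff q.2 (coeff r.2 G * T ^ r.2) :=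
      Summable.tsum_finsetSum (fun q _ => h2 q)
    _ = ∑ q ∈ Finset.HasAntidiagonal.antidiagonal k, coeff q.1 (cx T F) * coeff q.2 (cx T G) :=
      Finset.sum_congr rfl fun q _ => (h1 q).symm
    _ = coeff k (cx T F * cx T G) := (coeff_mul k _ _).symm

private lemma cx_deriv {T : ℤ_[p]⟦X⟧} (hT : C (p : ℤ_[p]) ∣ T) (F G : ℤ_[p]⟦X⟧⟦X⟧)
    (hG : ∀ n, coeff n G = derivative ℤ_[p] (coeff n F)) :
    derivative ℤ_[p] (cx T F) = cx T G + cx T (derivative _ F) * derivative ℤ_[p] T := by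
  ext k
  rw [coeff_derivative, map_add, coeff_cx_mul hT, coeff_cx, coeff_cx]
  -- the terms
  have h1 : ∀ n, coeff (k + 1) (coeff n F * T ^ n) * ((k : ℤ_[p]) + 1) =
      coeff k (coeff n G * T ^ n) +
        coeff k (coeff n F * (derivative ℤ_[p] (T ^ n))) := by
    intro n
    rw [← coeff_derivative, Derivation.leibniz, smul_eq_mul, smul_eq_mul, hG, ← map_add]
    congr 1
    ring
  have h2 : ∀ n, coeff k (coeff n F * (derivative ℤ_[p] (T ^ (n + 1)))) =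
      coeff k (coeff n F * ((n : ℤ_[p]⟦X⟧) + 1) * T ^ n * derivative ℤ_[p] T) := by
    intro n
    rw [Derivation.leibniz_pow, Nat.add_sub_cancel, smul_eq_mul, nsmul_eq_mul, Nat.cast_add,
      Nat.cast_one]
    congr 1
    ring
  have s1 : Summable (fun n => coeff k (coeff n G * T ^ n)) := cx_sum hT _ k
  have s3 : Summable (fun n => coeff k (coeff (n + 1) F * (derivative ℤ_[p] (T ^ (n + 1))))) := by
    have e : ∀ n, coeff k (coeff (n + 1) F * (derivative ℤ_[p] (T ^ (n + 1)))) =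
        coeff k (coeff (n + 1) F * ((n : ℤ_[p]⟦X⟧) + 1) * derivative ℤ_[p] T * T ^ n) := by
      intro n
      rw [Derivation.leibniz_pow, Nat.add_sub_cancel, smul_eq_mul, nsmul_eq_mul, Nat.cast_add,
        Nat.cast_one]
      congr 1
      ring
    simp only [e]
    exact cx_sum hT (fun n => coeff (n + 1) F * ((n : ℤ_[p]⟦X⟧) + 1) * derivative ℤ_[p] T) k
  have s2 : Summable (fun n => coeff k (coeff n F * (derivative ℤ_[p] (T ^ n)))) := by
    rw [← summable_nat_add_iff 1]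
    exact s3
  rw [← (cx_sum hT (fun n => coeff n F) (k + 1)).tsum_mul_right, tsum_congr h1, s1.tsum_add s2]
  congr 1
  rw [s2.tsum_eq_zero_add]
  have h0 : coeff k (coeff 0 F * (derivative ℤ_[p] (T ^ 0))) = 0 := by
    rw [pow_zero, Derivation.map_one_eq_zero, mul_zero, map_zero]
  rw [h0, zero_add]
  refine tsum_congr fun n => ?_
  rw [coeff_derivative, Derivation.leibniz_pow, Nat.add_sub_cancel, smul_eq_mul, nsmul_eq_mul,
    Nat.cast_add, Nat.cast_one]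
  congr 1
  ring

private lemma cx_ev_pow (f : ℤ_[p]⟦X⟧) {t : ℤ_[p]} (ht : ‖t‖ < 1) (n : ℕ) :
    ev (f ^ n) t = ev f t ^ n := by
  induction n with
  | zero => rw [pow_zero, pow_zero, ev_one]
  | succ n ih => rw [pow_succ, pow_succ, ev_mul _ _ ht, ih]

private lemma cx_ev {T : ℤ_[p]⟦X⟧} (hT : C (p : ℤ_[p]) ∣ T) (F : ℤ_[p]⟦X⟧⟦X⟧) (s : ℤ_[p])
    (e : ℤ_[p]⟦X⟧ →+* ℤ_[p]) (hs : ‖s‖ < 1) (he : ∀ f, e f = ev f s) :
    ev (cx T F) s = ev (F.map e) (ev T s) := by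
  have h1 : ev (F.map e) (ev T s) = ∑' n, ∑' k, coeff k (coeff n F * T ^ n) * s ^ k := by
    unfold ev
    refine tsum_congr fun n => ?_
    have h2 := ev_mul (coeff n F) (T ^ n) hs
    rw [cx_ev_pow T hs n] at h2
    rw [coeff_map, he]
    unfold ev at h2 ⊢
    exact h2.symm
  have h3 : ev (cx T F) s = ∑' k, ∑' n, coeff k (coeff n F * T ^ n) * s ^ k := by
    unfold ev
    refine tsum_congr fun k => ?_
    rw [coeff_cx, (cx_sum hT (fun n => coeff n F) k).tsum_mul_right]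
  rw [h1, h3]
  refine Summable.tsum_comm (f := fun n k => coeff k (coeff n F * T ^ n) * s ^ k) ?_
  refine Summable.of_norm ?_
  have hg : Summable (fun x : ℕ × ℕ => ((p : ℝ)⁻¹) ^ x.1 * ‖s‖ ^ x.2) :=
    (summable_geometric_of_lt_one cx_pinv.1 cx_pinv.2).mul_of_nonneg
      (summable_geometric_of_lt_one (norm_nonneg s) hs)
      (fun n => pow_nonneg cx_pinv.1 n) (fun n => pow_nonneg (norm_nonneg s) n)
  refine Summable.of_nonneg_of_le (fun _ => norm_nonneg _) (fun x => ?_) hg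
  rw [Function.uncurry, norm_mul, norm_pow]
  exact mul_le_mul_of_nonneg_right (cx_norm hT _ _ _) (pow_nonneg (norm_nonneg s) _)

/-- Composition, with the coefficientwise derivative given. -/
theorem exists_cmp_core {T : ℤ_[p]⟦X⟧} (hT : C (p : ℤ_[p]) ∣ T) :
    ∃ cmp : ℤ_[p]⟦X⟧⟦X⟧ →+* ℤ_[p]⟦X⟧, (∀ f, cmp (C f) = f) ∧ cmp X = T ∧
      (∀ F G : ℤ_[p]⟦X⟧⟦X⟧, (∀ n, coeff n G = derivative ℤ_[p] (coeff n F)) →
        derivative ℤ_[p] (cmp F) = cmp G + cmp (derivative _ F) * derivative ℤ_[p] T) ∧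
      ∀ (F : ℤ_[p]⟦X⟧⟦X⟧) (s : ℤ_[p]) (e : ℤ_[p]⟦X⟧ →+* ℤ_[p]), ‖s‖ < 1 →
        (∀ f, e f = ev f s) → ev (cmp F) s = ev (F.map e) (ev T s) := by
  refine ⟨{ toFun := cx T
            map_one' := by rw [← map_one (C : ℤ_[p]⟦X⟧ →+* _), cx_C]
            map_mul' := cx_mul hT
            map_zero' := by rw [← map_zero (C : ℤ_[p]⟦X⟧ →+* _), cx_C]
            map_add' := cx_add hT }, fun f => cx_C f, cx_X, ?_, ?_⟩
  · intro F G hG
    exact cx_deriv hT F G hG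
  · intro F s e hs he
    exact cx_ev hT F s e hs he

end Pool.Agent.Lib.MP_3550b5_nt.SV
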