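import Mathlib
import Pool.Agent.Lib.MP_3550b5_nt.Lip

/-!
Project SV, part D: power series in `T` over a differential ring `H`. `T` is `PowerSeries.X`; the
derivation `cD D` of `H⟦X⟧` is `D` on the coefficients; `derivative H` is `d/dT`.
-/

namespace Pool.Agent.Lib.MP_3550b5_nt.SV

open PowerSeries

/-- The data of a sigma function over a ring (`SigmaData` without the parity). -/
structure SD {R : Type*} [CommRing R] (a b c : R) (W V Om S Z : R⟦X⟧) : Prop where
  hW : W = 1 + C a * X ^ 4 * W ^ 2 + C b * X ^ 6 * W ^ 3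
  hV : W * V = 1
  hOm : 2 * W * Om = 2 * W + X * derivative R W
  S0 : constantCoeff S = 1
  S1 : coeff 1 S = 0
  E1 : X * Om * S * Z = S - Om * S + X * derivative R S
  E2 : X ^ 2 * W * derivative R Z = W - Om - C c * X ^ 2 * W * Om

private lemma map_deriv {R R' : Type*} [CommRing R] [CommRing R'] (f : R →+* R') (W : R⟦X⟧) :
    PowerSeries.map f (derivative R W) = derivative R' (PowerSeries.map f W) := by
  ext n
  rw [coeff_map, coeff_derivative, coeff_derivative, coeff_map]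
  simp

lemma SD.map {R R' : Type*} [CommRing R] [CommRing R'] {a b c : R} {W V Om S Z : R⟦X⟧}
    (h : SD a b c W V Om S Z) (f : R →+* R') :
    SD (f a) (f b) (f c) (W.map f) (V.map f) (Om.map f) (S.map f) (Z.map f) where
  hW := by
    have := congrArg (PowerSeries.map f) h.hW
    simpa only [map_add, map_mul, map_pow, map_one, map_C, map_X] using this
  hV := by
    have := congrArg (PowerSeries.map f) h.hV
    simpa only [map_mul, map_one] using this
  hOm := by
    have := congrArg (PowerSeries.map f) h.hOm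
    simpa only [map_add, map_mul, map_X, map_deriv, map_ofNat] using this
  S0 := by
    have := congrArg f h.S0
    rw [← coeff_zero_eq_constantCoeff_apply, coeff_map, coeff_zero_eq_constantCoeff_apply, this,
      map_one]
  S1 := by
    rw [coeff_map, h.S1, map_zero]
  E1 := by
    have := congrArg (PowerSeries.map f) h.E1
    simpa only [map_add, map_sub, map_mul, map_X, map_deriv] using this
  E2 := by
    have := congrArg (PowerSeries.map f) h.E2
    simpa only [map_add, map_sub, map_mul, map_pow, map_X, map_deriv, map_C] using this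

variable {H : Type*} [CommRing H] (D : Derivation ℤ H H)

/-- Coefficientwise application of `D`. -/
noncomputable def cD : Derivation ℤ H⟦X⟧ H⟦X⟧ :=
  Derivation.mk' (AddMonoidHom.toIntLinearMap
    { toFun := fun f => PowerSeries.mk fun n => D (coeff n f)
      map_zero' := by ext n; simp
      map_add' := fun f g => by ext n; simp }) (by
    intro f g
    ext n
    change coeff n (PowerSeries.mk fun n => D (coeff n (f * g))) =
      coeff n (f * (PowerSeries.mk fun n => D (coeff n g)) +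
        g * (PowerSeries.mk fun n => D (coeff n f)))
    rw [coeff_mk, map_add, coeff_mul, coeff_mul, coeff_mul, map_sum,
      ← Finset.Nat.sum_antidiagonal_swap (f := fun p : ℕ × ℕ => coeff p.1 g *
        coeff p.2 (PowerSeries.mk fun n => D (coeff n f))), ← Finset.sum_add_distrib]
    refine Finset.sum_congr rfl fun p _ => ?_
    rw [Derivation.leibniz, coeff_mk, Prod.fst_swap, Prod.snd_swap, coeff_mk, smul_eq_mul,
      smul_eq_mul])

lemma coeff_cD (f : H⟦X⟧) (n : ℕ) : coeff n (cD D f) = D (coeff n f) := by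
  change coeff n (PowerSeries.mk fun n => D (coeff n f)) = _
  rw [coeff_mk]

lemma cD_C (a : H) : cD D (C a) = C (D a) := by
  ext n
  rw [coeff_cD, coeff_C, coeff_C]
  split_ifs
  · rfl
  · exact map_zero D

lemma cD_X : cD D (X : H⟦X⟧) = 0 := by
  ext n
  rw [coeff_cD, coeff_X, map_zero]
  split_ifs
  · exact D.map_one_eq_zero
  · exact map_zero D

/-- The two derivations commute. -/
lemma cD_derivative (f : H⟦X⟧) :
    cD D (derivative H f) = derivative H (cD D f) := by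
  ext n
  rw [coeff_cD, coeff_derivative, coeff_derivative, coeff_cD, Derivation.leibniz]
  have h1 : D ((n : H) + 1) = 0 := by
    rw [map_add, Derivation.map_natCast, Derivation.map_one_eq_zero, add_zero]
  rw [h1, smul_zero, zero_add, smul_eq_mul, mul_comm]

/-- The relations between `a`, `b`, `k1`, `g1` and `1/2`, `1/3`. -/
structure DR (a b k g h2 h3 : H) : Prop where
  two : 2 * h2 = 1
  three : 3 * h3 = 1
  Da : D a = 4 * g * a + 6 * k * b
  Db : D b = 6 * g * b - 4 * h3 * k * a ^ 2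

/-- `T Om0 = k1 V + g1 T^2 - (T^2/2) W V_t + (2/3) k1 a T^4 W`. -/
noncomputable def TT (a k g h2 h3 : H) (W V : H⟦X⟧) : H⟦X⟧ :=
  C k * V + C g * X ^ 2 - C h2 * X ^ 2 * W * cD D V + C (2 * h3 * k * a) * X ^ 4 * W

variable {D} {a b c k g h2 h3 : H} {W V Om : H⟦X⟧}

/-- The derivatives of `W`: with `u = 1 - 2 a T^4 W - 3 b T^6 W^2` (a unit: constant coefficient
`1`), `u W_t = a' T^4 W^2 + b' T^6 W^3`, `u W_T = 4 a T^3 W^2 + 6 b T^5 W^3`, and the same for `V`:
`V_t = -V^2 W_t`, `V_T = -V^2 W_T`. -/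
lemma dW (hW : W = 1 + C a * X ^ 4 * W ^ 2 + C b * X ^ 6 * W ^ 3) (hV : W * V = 1) :
    IsUnit (1 - 2 * C a * X ^ 4 * W - 3 * C b * X ^ 6 * W ^ 2) ∧
    (1 - 2 * C a * X ^ 4 * W - 3 * C b * X ^ 6 * W ^ 2) * cD D W =
      C (D a) * X ^ 4 * W ^ 2 + C (D b) * X ^ 6 * W ^ 3 ∧
    (1 - 2 * C a * X ^ 4 * W - 3 * C b * X ^ 6 * W ^ 2) * derivative H W =
      4 * C a * X ^ 3 * W ^ 2 + 6 * C b * X ^ 5 * W ^ 3 ∧
    cD D V = -(V ^ 2 * cD D W) ∧ derivative H V = -(V ^ 2 * derivative H W) := by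
  have hinv : ∀ E : Derivation ℤ H⟦X⟧ H⟦X⟧, E V = -(V ^ 2 * E W) := by
    intro E
    have h1 : E (W * V) = 0 := by rw [hV, Derivation.map_one_eq_zero]
    rw [Derivation.leibniz, smul_eq_mul, smul_eq_mul] at h1
    linear_combination V * h1 - E V * hV
  refine ⟨?_, ?_, ?_, hinv _, ?_⟩
  · rw [PowerSeries.isUnit_iff_constantCoeff]
    simp
  · have h1 := congrArg (cD D) hW
    simp only [map_add, Derivation.leibniz, Derivation.leibniz_pow, Derivation.map_one_eq_zero,
      cD_C, cD_X, smul_eq_mul, smul_zero, mul_zero, zero_add, add_zero, nsmul_eq_mul] at h1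
    linear_combination h1
  · have h1 := congrArg (derivative H) hW
    simp only [map_add, Derivation.leibniz, Derivation.leibniz_pow, Derivation.map_one_eq_zero,
      derivative_C, derivative_X, smul_eq_mul, smul_zero, mul_zero, zero_add, add_zero,
      nsmul_eq_mul, mul_one] at h1
    linear_combination h1
  · exact hinv ((derivative H).restrictScalars ℤ)

private lemma i1_core {R : Type*} [CommRing R] {T W V Om Wt WT Wtt Omt Vt VT Vtt A B K G H2 H3 DA DB u : R}
    (hu : IsUnit u) (defu : u = 1 - 2 * A * T ^ 4 * W - 3 * B * T ^ 6 * W ^ 2)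
    (h2 : 2 * H2 = 1) (h3 : 3 * H3 = 1) (hDA : DA = 4 * G * A + 6 * K * B)
    (hDB : DB = 6 * G * B - 4 * H3 * K * A ^ 2)
    (hW : W = 1 + A * T ^ 4 * W ^ 2 + B * T ^ 6 * W ^ 3) (hV : W * V = 1)
    (hOm : 2 * W * Om = 2 * W + T * WT)
    (hOmt : 2 * (Wt * Om + W * Omt) = 2 * Wt + T * Wtt)
    (e1 : u * Wt = DA * T ^ 4 * W ^ 2 + DB * T ^ 6 * W ^ 3)
    (e2 : u * WT = 4 * A * T ^ 3 * W ^ 2 + 6 * B * T ^ 5 * W ^ 3)
    (hVt : Vt = -(V ^ 2 * Wt)) (hVT : VT = -(V ^ 2 * WT))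
    (hVtt : Vtt = 2 * V ^ 3 * WT * Wt - V ^ 2 * Wtt) :
    T ^ 2 * Omt - T * (K * VT + G * (2 * T) - H2 * (2 * T * W * Vt + T ^ 2 * WT * Vt + T ^ 2 * W * Vtt) +
      2 * H3 * K * A * (4 * T ^ 3 * W + T ^ 4 * WT)) +
      (K * V + G * T ^ 2 - H2 * T ^ 2 * W * Vt + 2 * H3 * K * A * T ^ 4 * W) = (K * V - G * T ^ 2) * Om := by
  have star : K * T * WT - T ^ 2 * W * Wt - 4 * K * A * T ^ 4 * W ^ 3 -
      4 * H3 * K * A * T ^ 5 * W ^ 2 * WT + G * T ^ 3 * W * WT = 0 := by
    have h : u * (K * T * WT - T ^ 2 * W * Wt - 4 * K * A * T ^ 4 * W ^ 3 -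
      4 * H3 * K * A * T ^ 5 * W ^ 2 * WT + G * T ^ 3 * W * WT) = 0 := by
      linear_combination (K * T - 4 * H3 * K * A * T ^ 5 * W ^ 2 + G * T ^ 3 * W) * e2 - T ^ 2 * W * e1 -
        4 * K * A * T ^ 4 * W ^ 3 * defu - T ^ 6 * W ^ 3 * hDA - T ^ 8 * W ^ 4 * hDB -
        (4 * K * A ^ 2 * T ^ 8 * W ^ 4 + 8 * K * A * B * T ^ 10 * W ^ 5) * h3 - 4 * K * A * T ^ 4 * W ^ 2 * hW
    exact (hu.mul_right_eq_zero).1 h
  have hv1 : W ^ 2 * Vt = -Wt := by
    rw [hVt]; linear_combination (-(Wt * (W * V + 1))) * hV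
  have hv2 : W ^ 2 * VT = -WT := by
    rw [hVT]; linear_combination (-(WT * (W * V + 1))) * hV
  have hv3 : W ^ 3 * Vtt = 2 * WT * Wt - W * Wtt := by
    rw [hVtt]
    linear_combination (2 * WT * Wt * ((W * V) ^ 2 + W * V + 1) - W * Wtt * (W * V + 1)) * hV
  have h : 2 * W ^ 2 * (T ^ 2 * Omt - T * (K * VT + G * (2 * T) -
      H2 * (2 * T * W * Vt + T ^ 2 * WT * Vt + T ^ 2 * W * Vtt) +
      2 * H3 * K * A * (4 * T ^ 3 * W + T ^ 4 * WT)) +
      (K * V + G * T ^ 2 - H2 * T ^ 2 * W * Vt + 2 * H3 * K * A * T ^ 4 * W) - (K * V - G * T ^ 2) * Om) = 0 := by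
    linear_combination star + T ^ 2 * W * hOmt - T ^ 2 * Wt * hOm - 2 * T * K * hv2 +
      (T * (2 * H2) * (2 * T * W + T ^ 2 * WT) - 2 * H2 * T ^ 2 * W) * hv1 + T ^ 3 * (2 * H2) * hv3 +
      (T * (-(2 * T * W * Wt) - T ^ 2 * WT * Wt + 2 * T ^ 2 * WT * Wt - T ^ 2 * W * Wtt) + T ^ 2 * W * Wt) * h2 +
      (2 * K * W - K * (2 * W * Om)) * hV + (-K + G * T ^ 2 * W) * hOm - 4 * K * A * T ^ 4 * W ^ 3 * h3
  have h4 : IsUnit (2 * W ^ 2 : R) :=
    IsUnit.of_mul_eq_one (H2 * V ^ 2) (by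
      linear_combination (W * V) ^ 2 * h2 + (W * V + 1) * hV)
  exact sub_eq_zero.1 ((h4.mul_right_eq_zero).1 h)

/-- (I1): `T^2 Om_t - T TT_T + TT = (k1 V - g1 T^2) Om`. PROOF. `Om = 1 + T W_T V / 2`,
`TT = k1 V + g1 T^2 + (T^2/2) V W_t + (2/3) k1 a T^4 W` (`dW`). In
`T^2 Om_t - T TT_T + TT` the second derivatives `W_Tt` cancel (`cD_derivative`), and what remains is,
after multiplication by `2 W^2`,
`k1 T W_T - T^2 W W_t - 4 k1 a T^4 W^3 - (4/3) k1 a T^5 W^2 W_T + g1 T^3 W W_T = 0`.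
Multiply by `u` and use `dW`, `DR.Da`, `DR.Db`: the `g1`-part cancels, the `k1`-part is
`4 a T^4 W^2 (1 - W + a T^4 W^2 + b T^6 W^3) = 0`. (`W`, `u` are units.) -/
theorem id_I1 (hd : DR D a b k g h2 h3)
    (hW : W = 1 + C a * X ^ 4 * W ^ 2 + C b * X ^ 6 * W ^ 3) (hV : W * V = 1)
    (hOm : 2 * W * Om = 2 * W + X * derivative H W) :
    X ^ 2 * cD D Om - X * derivative H (TT D a k g h2 h3 W V) + TT D a k g h2 h3 W V =
      (C k * V - C g * X ^ 2) * Om := by
  obtain ⟨hu, e1, e2, hVt, hVT⟩ := dW (D := D) hW hV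
  have ct2 : cD D (2 : H⟦X⟧) = 0 := by
    have := (cD D).map_natCast 2
    simpa using this
  have cT2 : derivative H (2 : H⟦X⟧) = 0 := by
    have := (derivative H).map_natCast 2
    simpa using this
  have hOmt : 2 * (cD D W * Om + W * cD D Om) = 2 * cD D W + X * derivative H (cD D W) := by
    have h := congrArg (cD D) hOm
    simp only [Derivation.leibniz, map_add, cD_X, smul_eq_mul, cD_derivative, ct2, mul_zero, add_zero] at h
    linear_combination h
  have hVtT : derivative H (cD D V) = 2 * V ^ 3 * derivative H W * cD D W - V ^ 2 * derivative H (cD D W) := by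
    rw [hVt, map_neg, Derivation.leibniz, Derivation.leibniz_pow, hVT]
    simp only [smul_eq_mul, nsmul_eq_mul]
    push_cast
    ring
  have c2 : C (2 : H) = 2 := map_ofNat C 2
  have c3 : C (3 : H) = 3 := map_ofNat C 3
  have c4 : C (4 : H) = 4 := map_ofNat C 4
  have c6 : C (6 : H) = 6 := map_ofNat C 6
  have hc : C (2 * h3 * k * a) = 2 * C h3 * C k * C a := by
    rw [map_mul, map_mul, map_mul, c2]
  have hDA : C (D a) = 4 * C g * C a + 6 * C k * C b := by
    rw [hd.Da]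
    simp only [map_add, map_mul, c4, c6]
  have hDB : C (D b) = 6 * C g * C b - 4 * C h3 * C k * C a ^ 2 := by
    rw [hd.Db]
    simp only [map_sub, map_mul, map_pow, c4, c6]
  have hh2 : 2 * C h2 = (1 : H⟦X⟧) := by
    rw [← c2, ← map_mul, hd.two, map_one]
  have hh3 : 3 * C h3 = (1 : H⟦X⟧) := by
    rw [← c3, ← map_mul, hd.three, map_one]
  have hTT : derivative H (TT D a k g h2 h3 W V) = C k * derivative H V + C g * (2 * X) -
      C h2 * (2 * X * W * cD D V + X ^ 2 * derivative H W * cD D V + X ^ 2 * W * derivative H (cD D V)) +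
      2 * C h3 * C k * C a * (4 * X ^ 3 * W + X ^ 4 * derivative H W) := by
    unfold TT
    rw [hc]
    simp only [map_add, map_sub, Derivation.leibniz, Derivation.leibniz_pow, derivative_C, derivative_X,
      smul_eq_mul, nsmul_eq_mul, cT2]
    push_cast
    ring
  have key := i1_core (T := (X : H⟦X⟧)) hu rfl hh2 hh3 hDA hDB hW hV hOm hOmt e1 e2 hVt hVT hVtT
  rw [hTT]
  unfold TT
  rw [hc]
  linear_combination key

private theorem i2_alg {A : Type*} [CommRing A] {x v om vt vT vtT a b k g i2 i3 a' b' : A}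
    (h2 : 2 * i2 = 1) (h3 : 3 * i3 = 1)
    (hr : v ^ 2 = v ^ 3 + a * x ^ 4 * v + b * x ^ 6)
    (ht : 2 * v * vt = 3 * v ^ 2 * vt + a' * x ^ 4 * v + a * x ^ 4 * vt + b' * x ^ 6)
    (hT : 2 * v * vT = 3 * v ^ 2 * vT + 4 * a * x ^ 3 * v + a * x ^ 4 * vT + 6 * b * x ^ 5)
    (ha' : a' = 4 * g * a + 6 * k * b) (hb' : b' = 6 * g * b - 4 * i3 * k * a ^ 2)
    (hM : v * om = v - i2 * x * vT) :
    2 * (2 * v - 3 * v ^ 2 - a * x ^ 4) * v *
      (x ^ 2 * (vt - i2 * x * vtT) - x * (2 * k * v * vT + 2 * g * x * v + g * x ^ 2 * vT -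
        i2 * (2 * x * vt + x ^ 2 * vtT) + 8 * i3 * k * a * x ^ 3 - k * vT) +
        3 * (k * v ^ 2 + g * x ^ 2 * v - i2 * x ^ 2 * vt + 2 * i3 * k * a * x ^ 4 - k * v)) =
    2 * (2 * v - 3 * v ^ 2 - a * x ^ 4) * v * ((g * x ^ 2 * v + i3 * k * a * x ^ 4) * om) := by
  linear_combination (x ^ 2 * v) * ht + (-4 * k * x * v ^ 2 - g * x ^ 3 * v + 2 * k * x * v +
    i3 * k * a * x ^ 5) * hT + x ^ 6 * v ^ 2 * ha' + x ^ 8 * v * hb' +
    (2 * v - 3 * v ^ 2 - a * x ^ 4) * (-x ^ 2 * v * vt + vT * (g * x ^ 3 * v + i3 * k * a * x ^ 5)) * h2 +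
    (-2 * k * a * x ^ 4 * v * (2 * v - 3 * v ^ 2 - a * x ^ 4) + 2 * k * a * b * x ^ 10) * h3 -
    (6 * k * (2 * v - 3 * v ^ 2 - a * x ^ 4) + 8 * k * a * x ^ 4) * hr -
    2 * (2 * v - 3 * v ^ 2 - a * x ^ 4) * (g * x ^ 2 * v + i3 * k * a * x ^ 4) * hM

/-- (I2), the identity `(x Om)_t - (x Om0 + k1 y)_T = (g1 x + k1 a/3) Om` with
`x Om = T^-2 V Om`, `x Om0 + k1 y = T^-3 V (TT - k1)`, multiplied by `T^4`. Same method as `id_I1`.
(Checked numerically.) -/
theorem id_I2 (hd : DR D a b k g h2 h3)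
    (hW : W = 1 + C a * X ^ 4 * W ^ 2 + C b * X ^ 6 * W ^ 3) (hV : W * V = 1)
    (hOm : 2 * W * Om = 2 * W + X * derivative H W) :
    X ^ 2 * cD D (V * Om) - X * derivative H (V * (TT D a k g h2 h3 W V - C k)) +
        3 * (V * (TT D a k g h2 h3 W V - C k)) =
      (C g * X ^ 2 * V + C (h3 * k * a) * X ^ 4) * Om := by
  have hWV : V * W = 1 := by rw [mul_comm]; exact hV
  have e1 : W * V ^ 3 = V ^ 2 := by linear_combination V ^ 2 * hV
  have e2 : W ^ 2 * V ^ 3 = V := by linear_combination (V * (W * V + 1)) * hV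
  have e3 : W ^ 3 * V ^ 3 = 1 := by linear_combination ((W * V) ^ 2 + W * V + 1) * hV
  have hr : V ^ 2 = V ^ 3 + C a * X ^ 4 * V + C b * X ^ 6 := by
    linear_combination V ^ 3 * hW - e1 + C a * X ^ 4 * e2 + C b * X ^ 6 * e3
  have c2 : (2 : H⟦X⟧) = C (2 : H) := (map_ofNat C 2).symm
  have c3 : (3 : H⟦X⟧) = C (3 : H) := (map_ofNat C 3).symm
  have c4 : (4 : H⟦X⟧) = C (4 : H) := (map_ofNat C 4).symm
  have c6 : (6 : H⟦X⟧) = C (6 : H) := (map_ofNat C 6).symm
  have i2 : (2 : H⟦X⟧) * C h2 = 1 := by rw [c2, ← map_mul, hd.two, map_one]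
  have i3 : (3 : H⟦X⟧) * C h3 = 1 := by rw [c3, ← map_mul, hd.three, map_one]
  have Dh2 : D h2 = 0 := by
    have h1 : D (2 * h2) = 0 := by rw [hd.two, Derivation.map_one_eq_zero]
    have h3 : D (2 : H) = 0 := by
      rw [← Nat.cast_ofNat]
      exact D.map_natCast 2
    rw [Derivation.leibniz, h3, smul_zero, add_zero, smul_eq_mul] at h1
    linear_combination h2 * h1 - D h2 * hd.two
  -- the equations of the two derivatives of `V`
  have ht : 2 * V * cD D V = 3 * V ^ 2 * cD D V + C (D a) * X ^ 4 * V +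
      C a * X ^ 4 * cD D V + C (D b) * X ^ 6 := by
    have h1 := congrArg (cD D) hr
    simp only [map_add, Derivation.leibniz, Derivation.leibniz_pow, cD_C, cD_X, smul_eq_mul,
      nsmul_eq_mul, smul_zero, mul_zero, add_zero] at h1
    push_cast at h1
    linear_combination h1
  have hT : 2 * V * derivative H V = 3 * V ^ 2 * derivative H V + 4 * C a * X ^ 3 * V +
      C a * X ^ 4 * derivative H V + 6 * C b * X ^ 5 := by
    have h1 := congrArg (derivative H) hr
    simp only [map_add, Derivation.leibniz, Derivation.leibniz_pow, derivative_C, derivative_X,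
      smul_eq_mul, nsmul_eq_mul, smul_zero, mul_zero, add_zero, mul_one] at h1
    push_cast at h1
    linear_combination h1
  have ha' : (C (D a) : H⟦X⟧) = 4 * C g * C a + 6 * C k * C b := by
    rw [hd.Da, c4, c6]
    simp only [map_add, map_mul]
  have hb' : (C (D b) : H⟦X⟧) = 6 * C g * C b - 4 * C h3 * C k * C a ^ 2 := by
    rw [hd.Db, c4, c6]
    simp only [map_sub, map_mul, map_pow]
  have hWT : derivative H W * V ^ 2 = -derivative H V := by
    have h1 := congrArg (derivative H) hV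
    rw [Derivation.leibniz, Derivation.map_one_eq_zero, smul_eq_mul, smul_eq_mul] at h1
    linear_combination V * h1 - derivative H V * hV
  have hM : V * Om = V - C h2 * X * derivative H V := by
    linear_combination (C h2 * V ^ 2) * hOm + (V - V * Om) * (W * V) * i2 + (V - V * Om) * hV +
      C h2 * X * hWT
  have hQ : V * (TT D a k g h2 h3 W V - C k) = C k * V ^ 2 + C g * X ^ 2 * V -
      C h2 * X ^ 2 * cD D V + 2 * C h3 * C k * C a * X ^ 4 - C k * V := by
    have h1 : (C (2 * h3 * k * a) : H⟦X⟧) = 2 * C h3 * C k * C a := by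
      rw [c2]
      simp only [map_mul]
    unfold TT
    rw [h1]
    linear_combination (-(C h2 * X ^ 2 * cD D V) + 2 * C h3 * C k * C a * X ^ 4) * hV
  have hMt : cD D (V * Om) = cD D V - C h2 * X * cD D (derivative H V) := by
    rw [hM, map_sub, Derivation.leibniz, Derivation.leibniz, cD_C, cD_X, Dh2]
    simp only [smul_eq_mul, map_zero, mul_zero, add_zero]
  have hQT : derivative H (V * (TT D a k g h2 h3 W V - C k)) =
      2 * C k * V * derivative H V + 2 * C g * X * V + C g * X ^ 2 * derivative H V -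
        C h2 * (2 * X * cD D V + X ^ 2 * cD D (derivative H V)) +
        8 * C h3 * C k * C a * X ^ 3 - C k * derivative H V := by
    have h1 : derivative H (2 : H⟦X⟧) = 0 := by rw [c2, derivative_C]
    rw [hQ]
    simp only [map_add, map_sub, Derivation.leibniz, Derivation.leibniz_pow, derivative_C,
      derivative_X, smul_eq_mul, nsmul_eq_mul, smul_zero, mul_zero, add_zero, mul_one, h1,
      cD_derivative]
    push_cast
    ring
  have hu : IsUnit (2 * (2 * V - 3 * V ^ 2 - C a * X ^ 4) * V) := by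
    refine IsUnit.mul (IsUnit.mul (IsUnit.of_mul_eq_one _ i2) ?_) (IsUnit.of_mul_eq_one _ hWV)
    have hV0 : constantCoeff V = 1 := by
      have h1 := congrArg constantCoeff hW
      have h2 := congrArg constantCoeff hV
      simp only [map_add, map_mul, map_pow, map_one, constantCoeff_X, ne_eq, OfNat.ofNat_ne_zero,
        not_false_eq_true, zero_pow, mul_zero, zero_mul, add_zero] at h1 h2
      rw [h1, one_mul] at h2
      exact h2
    rw [PowerSeries.isUnit_iff_constantCoeff, c2, c3]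
    simp only [map_sub, map_mul, map_pow, constantCoeff_X, constantCoeff_C, hV0, ne_eq,
      OfNat.ofNat_ne_zero, not_false_eq_true, zero_pow, mul_zero, sub_zero, one_pow, mul_one]
    rw [show (2 : H) - 3 = -1 by norm_num]
    exact isUnit_one.neg
  have hC : (C (h3 * k * a) : H⟦X⟧) = C h3 * C k * C a := by simp only [map_mul]
  apply hu.mul_left_cancel
  rw [hMt, hQT, hQ, hC]
  exact i2_alg i2 i3 hr ht hT ha' hb' hM

/-- Expansion of `V` and `TT` modulo `X ^ 4`. -/
private lemma TT_expand (D : Derivation ℤ H H) (a b k g h2 h3 : H) {W V : H⟦X⟧}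
    (hW : W = 1 + C a * X ^ 4 * W ^ 2 + C b * X ^ 6 * W ^ 3) (hV : W * V = 1) :
    ∃ v t : H⟦X⟧, V = 1 + X ^ 4 * v ∧
      TT (D := D) a k g h2 h3 W V = C k + C g * X ^ 2 + X ^ 4 * t := by
  have hVv : V = 1 + X ^ 4 * (-((C a * W ^ 2 + C b * X ^ 2 * W ^ 3) * V)) := by
    linear_combination hV - V * hW
  generalize -((C a * W ^ 2 + C b * X ^ 2 * W ^ 3) * V) = v at hVv
  have hX : cD D ((X : H⟦X⟧) ^ 4) = 0 := by
    rw [Derivation.leibniz_pow, cD_X, smul_zero, smul_zero]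
  have hD : cD D V = X ^ 4 * cD D v := by
    rw [hVv, map_add, Derivation.map_one_eq_zero, Derivation.leibniz, hX, smul_zero, add_zero,
      zero_add, smul_eq_mul]
  refine ⟨v, C k * v - C h2 * X ^ 2 * W * cD D v + C (2 * h3 * k * a) * W, hVv, ?_⟩
  rw [TT, hD]
  linear_combination C k * hVv

/-- The regular part of the equation of `Z`: `T^3 N = (k1 c + g1) T^2 - (V + c T^2) TT + k1 V` with
`N` divisible by `T`. PROOF. `W = 1 + a T^4 + T^6 (..)`, `V = 1 - a T^4 + T^6 (..)`,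
`T^2 V_t = T^6 (..)`, so `TT = k1 + g1 T^2 - (k1 a/3) T^4 + T^6 (..)` and the right side is
`T^4 (..)`. -/
theorem exists_N (h3' : 3 * h3 = 1) (c : H)
    (hW : W = 1 + C a * X ^ 4 * W ^ 2 + C b * X ^ 6 * W ^ 3) (hV : W * V = 1) :
    ∃ N : H⟦X⟧, X ^ 3 * (X * N) = C (k * c + g) * X ^ 2 -
      (V + C c * X ^ 2) * TT D a k g h2 h3 W V + C k * V := by
  obtain ⟨v, t, hv, ht⟩ := TT_expand D a b k g h2 h3 hW hV
  refine ⟨-t - v * (C k + C g * X ^ 2 + X ^ 4 * t) - C c * C g - C c * X ^ 2 * t + C k * v, ?_⟩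
  rw [ht, hv, map_add, map_mul]
  ring

/-- The same for `S`: `T^2 R = -(k1/2) Y^2 + TT Y - (k1/2) V - g1 T^2`, `Y = 1 + T Z`, `R`
divisible by `T^2` if `Z` is divisible by `T`. PROOF. Expand as in `exists_N`: the right side is
`-(k1/2) T^2 Z^2 + g1 T^3 Z + T^4 (..)`. -/
theorem exists_R (h2' : 2 * h2 = 1) {Z : H⟦X⟧} (hZ : constantCoeff Z = 0)
    (hW : W = 1 + C a * X ^ 4 * W ^ 2 + C b * X ^ 6 * W ^ 3) (hV : W * V = 1) :
    ∃ R : H⟦X⟧, X ^ 2 * (X ^ 2 * R) = -(C (h2 * k) * (1 + X * Z) ^ 2) +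
      TT D a k g h2 h3 W V * (1 + X * Z) - C (h2 * k) * V - C g * X ^ 2 := by
  obtain ⟨v, t, hv, ht⟩ := TT_expand D a b k g h2 h3 hW hV
  obtain ⟨z, rfl⟩ := X_dvd_iff.2 hZ
  have e2 : (2 : H⟦X⟧) * C h2 = 1 := by
    rw [← map_ofNat (C (R := H)) 2, ← map_mul, h2', map_one]
  refine ⟨-(C h2 * C k) * z ^ 2 + C g * z + t * (1 + X ^ 2 * z) - C h2 * C k * v, ?_⟩
  rw [ht, hv, map_mul]
  linear_combination (C k + C k * X ^ 2 * z) * e2

end Pool.Agent.Lib.MP_3550b5_nt.SV
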