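import Mathlib
import Pool.Agent.Lib.MP_3550b5_nt.SV.DT

/-!
Project SV, part D: the algebraic identity behind `def_D1` (no differential equation is solved here).
-/

namespace Pool.Agent.Lib.MP_3550b5_nt.SV

open PowerSeries

variable {H : Type*} [CommRing H] {D : Derivation ℤ H H}
  {a b c k g h2 h3 : H} {W V Om Z : H⟦X⟧}

/-- `e = T^2 Z_T - 1 + V Om + c T^2 Om` satisfies `e_t = (k1 c + g1) e`. -/
theorem def_D1_alg (hd : DR D a b k g h2 h3)
    (hW : W = 1 + C a * X ^ 4 * W ^ 2 + C b * X ^ 6 * W ^ 3) (hV : W * V = 1)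
    (hOm : 2 * W * Om = 2 * W + X * derivative H W)
    (hc : D c = k * c ^ 2 + 2 * g * c - h3 * k * a) {N : H⟦X⟧}
    (hN : X ^ 3 * (X * N) = C (k * c + g) * X ^ 2 -
      (V + C c * X ^ 2) * TT D a k g h2 h3 W V + C k * V)
    (hZ : cD D Z = C (k * c + g) * Z + X * N) :
    cD D (X ^ 2 * derivative H Z - 1 + V * Om + C c * X ^ 2 * Om) =
      C (k * c + g) * (X ^ 2 * derivative H Z - 1 + V * Om + C c * X ^ 2 * Om) := by
  have I1 := id_I1 hd hW hV hOm
  have I2 := id_I2 hd hW hV hOm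
  set T0 := TT D a k g h2 h3 W V with hT0
  -- the derivative of the equation for `N`
  have dX : derivative H (X : H⟦X⟧) = 1 := by
    rw [derivative_X]
  have dN := congrArg (derivative H) hN
  have dZ := cD_derivative (D := D) Z
  rw [hZ] at dZ
  simp only [map_add, map_sub, Derivation.leibniz, Derivation.leibniz_pow, dX, derivative_C,
    smul_eq_mul, nsmul_eq_mul, map_mul, Nat.cast_ofNat, mul_one, mul_zero, add_zero] at dN dZ I2
  have hX : ∀ f f' : H⟦X⟧, X ^ 2 * f = X ^ 2 * f' → f = f' := by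
    intro f f' h
    ext n
    have h1 := congrArg (coeff (n + 2)) h
    rwa [coeff_X_pow_mul, coeff_X_pow_mul] at h1
  refine hX _ _ ?_
  have e1 : cD D (C c : H⟦X⟧) = C (D c) := cD_C D c
  have e2 : cD D (X : H⟦X⟧) = 0 := cD_X D
  simp only [map_add, map_sub, Derivation.leibniz, Derivation.leibniz_pow, e1, e2, hc,
    smul_eq_mul, nsmul_eq_mul, map_mul, map_pow, Nat.cast_ofNat, mul_zero, zero_add,
    add_zero, Derivation.map_one_eq_zero, map_ofNat]
  simp only [map_add, map_mul] at hN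
  linear_combination X ^ 4 * dZ + I2 + C c * X ^ 2 * I1 + X * dN - 3 * hN

end Pool.Agent.Lib.MP_3550b5_nt.SV
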