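import Mathlib
import Pool.Agent.Lib.MP_3550b5_nt.SV.DT

/-!
Project SV, part D: the algebraic part of (D2).
-/

namespace Pool.Agent.Lib.MP_3550b5_nt.SV

open PowerSeries

variable {H : Type*} [CommRing H] {D : Derivation ℤ H H}
  {a b c k g h2 h3 : H} {W V Om Z N R S : H⟦X⟧}

/-- `T d(T^2 R)/dT = (Om Y)_t`, `Y = 1 + T Z`. -/
lemma DDefTwo_R (hd : DR D a b k g h2 h3)
    (hW : W = 1 + C a * X ^ 4 * W ^ 2 + C b * X ^ 6 * W ^ 3) (hV : W * V = 1)
    (hOm : 2 * W * Om = 2 * W + X * derivative H W)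
    (hN : X ^ 3 * (X * N) = C (k * c + g) * X ^ 2 -
      (V + C c * X ^ 2) * TT D a k g h2 h3 W V + C k * V)
    (hZ : cD D Z = C (k * c + g) * Z + X * N)
    (E2 : X ^ 2 * W * derivative H Z = W - Om - C c * X ^ 2 * W * Om)
    (hR : X ^ 2 * (X ^ 2 * R) = -(C (h2 * k) * (1 + X * Z) ^ 2) +
      TT D a k g h2 h3 W V * (1 + X * Z) - C (h2 * k) * V - C g * X ^ 2) :
    X * derivative H (X ^ 2 * R) = cD D (Om * (1 + X * Z)) := by
  obtain ⟨-, -, -, -, hdV⟩ := dW (D := D) (a := a) (b := b) hW hV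
  have hI := id_I1 hd hW hV hOm
  obtain ⟨P, hP⟩ : ∃ P, P = TT D a k g h2 h3 W V := ⟨_, rfl⟩
  rw [← hP] at hN hR hI
  obtain ⟨Q, hQ⟩ : ∃ Q, Q = X ^ 2 * R := ⟨_, rfl⟩
  rw [← hQ] at hR ⊢
  obtain ⟨Y, hY⟩ : ∃ Y, Y = 1 + X * Z := ⟨_, rfl⟩
  rw [← hY] at hR ⊢
  -- the derivatives of `Y`
  have hYd : derivative H Y = Z + X * derivative H Z := by
    rw [hY, map_add, Derivation.map_one_eq_zero, zero_add, Derivation.leibniz, derivative_X,
      smul_eq_mul, smul_eq_mul, mul_one, add_comm]
  have hYt : cD D Y = X * cD D Z := by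
    rw [hY, map_add, Derivation.map_one_eq_zero, zero_add, Derivation.leibniz, cD_X, smul_zero,
      add_zero, smul_eq_mul]
  have h2H : (2 : H⟦X⟧) * C h2 = 1 := by
    have e1 := congrArg (fun t => (C t : H⟦X⟧)) hd.two
    simpa only [map_mul, map_ofNat, map_one] using e1
  have h2k : 2 * C (h2 * k) = (C k : H⟦X⟧) := by
    rw [map_mul, ← mul_assoc, h2H, one_mul]
  -- `T dY/dT = Y - (V + c T^2) Om`
  have e1 : X * derivative H Y = Y - (V + C c * X ^ 2) * Om := by
    rw [hYd, hY]
    linear_combination V * E2 - (X ^ 2 * derivative H Z - 1 + C c * X ^ 2 * Om) * hV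
  -- `T dV/dT = 2 V - 2 V Om`
  have e2 : X * derivative H V = 2 * V - 2 * V * Om := by
    rw [hdV]
    linear_combination V ^ 2 * hOm - (2 * V * Om - 2 * V) * hV
  -- the derivative of `hR`
  have e3 : 2 * X * Q + X ^ 2 * derivative H Q = -(C k * Y * derivative H Y) +
      derivative H P * Y + P * derivative H Y - C (h2 * k) * derivative H V - 2 * C g * X := by
    have e := congrArg (derivative H) hR
    rw [map_sub, map_sub, map_add, map_neg, Derivation.leibniz, Derivation.leibniz,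
      Derivation.leibniz, Derivation.leibniz, Derivation.leibniz, Derivation.leibniz_pow,
      Derivation.leibniz_pow, derivative_X, derivative_C, derivative_C] at e
    simp only [smul_eq_mul, nsmul_eq_mul, Nat.cast_ofNat, mul_one, mul_zero, add_zero,
      Nat.add_one_sub_one, pow_one] at e
    linear_combination e - Y * derivative H Y * h2k
  -- `T^2 Y_t`
  have e4 : X ^ 2 * cD D Y = C (k * c + g) * X ^ 2 * Y - (V + C c * X ^ 2) * P + C k * V := by
    rw [hYt, hZ, hY]
    linear_combination hN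
  have hk : (C (k * c + g) : H⟦X⟧) = C k * C c + C g := by rw [map_add, map_mul]
  have e5 : cD D (Om * Y) = Om * cD D Y + Y * cD D Om := by
    rw [Derivation.leibniz, smul_eq_mul, smul_eq_mul]
  refine X_pow_mul_cancel (k := 2) ?_
  rw [e5]
  rw [hk] at e4
  linear_combination X * e3 + (-(C k * Y) + P) * e1 - Y * hI - C (h2 * k) * e2 - Om * e4 -
    2 * hR + (Y ^ 2 + V * Om) * h2k

/-- The equation of `U = S - Om S + T S_T - T Om S Z`. -/
lemma DDefTwo_U (hRR : X * derivative H (X ^ 2 * R) = cD D (Om * (1 + X * Z)))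
    (hS : cD D S = S * (X ^ 2 * R)) :
    cD D (S - Om * S + X * derivative H S - X * Om * S * Z) =
      (S - Om * S + X * derivative H S - X * Om * S * Z) * (X ^ 2 * R) := by
  have e0 : S - Om * S + X * derivative H S - X * Om * S * Z =
      S + X * derivative H S - Om * (1 + X * Z) * S := by ring
  rw [e0, map_sub, map_add, Derivation.leibniz (cD D) X, cD_X, smul_zero, add_zero, cD_derivative,
    hS, Derivation.leibniz (cD D) (Om * (1 + X * Z)), ← hRR, hS, Derivation.leibniz (derivative H) S]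
  simp only [smul_eq_mul]
  ring

end Pool.Agent.Lib.MP_3550b5_nt.SV
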