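import Mathlib
import Pool.Agent.Lib.MP_3550b5_nt.SV.DT
import Pool.Agent.Lib.MP_3550b5_nt.SV.DDefTwo
import Pool.Agent.Lib.MP_3550b5_nt.SV.DDefA

/-!
Project SV, part D: deformation of the sigma function over a ring in which ordinary differential
equations can be solved.
-/

namespace Pool.Agent.Lib.MP_3550b5_nt.SV

open PowerSeries

/-- Differential equations can be solved in `H`, with a prescribed initial value in `A`. -/
structure DefRing {H A : Type*} [CommRing H] [CommRing A] (D : Derivation ℤ H H) (ε : H →+* A) :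
    Prop where
  ode : ∀ (α β : H) (f0 : A), ∃ f : H, D f = α * f + β ∧ ε f = f0
  ric : ∀ (α β γ : H) (f0 : A), ∃ f : H, D f = α * f ^ 2 + β * f + γ ∧ ε f = f0
  uniq : ∀ α f : H, D f = α * f → ε f = 0 → f = 0

variable {H A : Type*} [CommRing H] [CommRing A] {D : Derivation ℤ H H} {ε : H →+* A}

/-- A power series which satisfies a homogeneous equation and vanishes initially is `0`
(coefficientwise `DefRing.uniq`). -/
lemma DefRing.uniq_T (hr : DefRing D ε) {α : H} {f : H⟦X⟧} (h : cD D f = C α * f)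
    (h0 : f.map ε = 0) : f = 0 := by
  ext n
  rw [map_zero]
  refine hr.uniq α _ ?_ ?_
  · rw [← coeff_cD, h, coeff_C_mul]
  · rw [← coeff_map, h0, map_zero]

/-- Linear equation for a power series in `T` with scalar coefficient (coefficientwise). -/
lemma DefRing.ode_T (hr : DefRing D ε) (α : H) (N : H⟦X⟧) (Z0 : A⟦X⟧) :
    ∃ Z : H⟦X⟧, cD D Z = C α * Z + N ∧ Z.map ε = Z0 := by
  have h := fun n : ℕ => hr.ode α (coeff n N) (coeff n Z0)
  choose z hz1 hz2 using h
  refine ⟨PowerSeries.mk z, ?_, ?_⟩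
  · ext n
    rw [coeff_cD, map_add, coeff_C_mul, coeff_mk]
    exact hz1 n
  · ext n
    rw [coeff_map, coeff_mk]
    exact hz2 n

/-- A sequence given by recursion on all smaller values. -/
private noncomputable def recSeq {B : Type*} (F : (n : ℕ) → (Fin n → B) → B) : ℕ → B
  | n => F n (fun i => recSeq F i.1)
decreasing_by exact i.2

private lemma exists_recSeq {B : Type*} (P : (n : ℕ) → (Fin n → B) → B → Prop)
    (hP : ∀ n f, ∃ y, P n f y) : ∃ s : ℕ → B, ∀ n, P n (fun i => s i.1) (s n) := by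
  choose F hF using hP
  refine ⟨recSeq F, fun n => ?_⟩
  have h := hF n (fun i => recSeq F i.1)
  have e : recSeq F n = F n (fun i => recSeq F i.1) := by
    rw [recSeq]
  rw [e]
  exact h

/-- `S_t = S R`. PROOF. Recursion on the coefficients: `s_n` solves
`D s_n = r_0 s_n + ∑_(i < n) s_i r_(n-i)`, `ε s_n` given. (Strong recursion; for instance show by
induction on `n` that there is a polynomial or a truncated solution, or use `Nat.strongRec` with
`Classical.choose`.) -/
lemma DefRing.prod_T (hr : DefRing D ε) (R : H⟦X⟧) (S0 : A⟦X⟧) :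
    ∃ S : H⟦X⟧, cD D S = S * R ∧ S.map ε = S0 := by
  obtain ⟨s, hs⟩ := exists_recSeq (B := H) (fun n f y =>
    D y = coeff 0 R * y + ∑ i : Fin n, f i * coeff (n - i.1) R ∧ ε y = coeff n S0)
    (fun n f => hr.ode (coeff 0 R) (∑ i : Fin n, f i * coeff (n - i.1) R) (coeff n S0))
  refine ⟨PowerSeries.mk s, ?_, ?_⟩
  · ext n
    rw [coeff_cD, coeff_mk, (hs n).1, coeff_mul,
      Finset.Nat.sum_antidiagonal_eq_sum_range_succ
        (fun i j => coeff i (PowerSeries.mk s) * coeff j R) n,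
      Finset.sum_range_succ, Finset.sum_range, Nat.sub_self]
    simp only [coeff_mk]
    ring
  · ext n
    rw [coeff_map, coeff_mk]
    exact (hs n).2

private lemma exists_lim {R : Type*} [CommRing R] (F : ℕ → R⟦X⟧)
    (h : ∀ n, X ^ n ∣ F (n + 1) - F n) : ∃ W : R⟦X⟧, ∀ n, X ^ n ∣ W - F n := by
  refine ⟨PowerSeries.mk fun n => coeff n (F (n + 1)), fun n => ?_⟩
  rw [X_pow_dvd_iff]
  intro m hm
  rw [map_sub, coeff_mk]
  have key : ∀ k, coeff m (F (m + 1 + k)) = coeff m (F (m + 1)) := by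
    intro k
    induction k with
    | zero => rfl
    | succ k ih =>
      have h1 := (X_pow_dvd_iff.1 (h (m + 1 + k))) m (by omega)
      rw [map_sub, sub_eq_zero] at h1
      rw [← ih, ← h1]
      rfl
  have e : n = m + 1 + (n - (m + 1)) := by omega
  rw [e, key, sub_self]

private lemma phi_dvd {R : Type*} [CommRing R] (a b : R) (F G : R⟦X⟧) :
    X * (F - G) ∣ (1 + C a * X ^ 4 * F ^ 2 + C b * X ^ 6 * F ^ 3) -
      (1 + C a * X ^ 4 * G ^ 2 + C b * X ^ 6 * G ^ 3) :=
  ⟨C a * X ^ 3 * (F + G) + C b * X ^ 5 * (F ^ 2 + F * G + G ^ 2), by ring⟩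

private lemma exists_W {R : Type*} [CommRing R] (a b : R) :
    ∃ W : R⟦X⟧, W = 1 + C a * X ^ 4 * W ^ 2 + C b * X ^ 6 * W ^ 3 := by
  let Φ : R⟦X⟧ → R⟦X⟧ := fun F => 1 + C a * X ^ 4 * F ^ 2 + C b * X ^ 6 * F ^ 3
  let F : ℕ → R⟦X⟧ := fun n => Φ^[n] 1
  have hF : ∀ n, F (n + 1) = Φ (F n) := fun n => Function.iterate_succ_apply' Φ n 1
  have hd : ∀ A B : R⟦X⟧, X * (A - B) ∣ Φ A - Φ B := fun A B => phi_dvd a b A B
  have h1 : ∀ n, X ^ n ∣ F (n + 1) - F n := by
    intro n
    induction n with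
    | zero => simp
    | succ n ih =>
      have e : F (n + 1 + 1) - F (n + 1) = Φ (F (n + 1)) - Φ (F n) := by
        rw [hF (n + 1), hF n]
      rw [e, pow_succ, mul_comm]
      exact (mul_dvd_mul_left X ih).trans (hd (F (n + 1)) (F n))
  obtain ⟨W, hW⟩ := exists_lim F h1
  refine ⟨W, ?_⟩
  have h2 : ∀ n, X ^ n ∣ W - Φ W := by
    intro n
    have e : W - Φ W = (W - F (n + 1)) - (Φ W - Φ (F n)) := by
      rw [hF n]
      ring
    rw [e]
    refine dvd_sub ?_ ?_
    · exact (pow_dvd_pow X (Nat.le_succ n)).trans (hW (n + 1))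
    · exact ((hW n).trans (Dvd.intro_left X rfl)).trans (hd W (F n))
  have h3 : W - Φ W = 0 := by
    ext n
    rw [map_zero]
    exact X_pow_dvd_iff.1 (h2 (n + 1)) n (Nat.lt_succ_self n)
  exact sub_eq_zero.1 h3

/-- `W`, `V`, `Om` exist over every ring with `1/2`. PROOF. `W`: recursion (or: the fixed point
equation `W = 1 + T^4 (..)`), `V = W⁻¹` (constant coefficient `1`), `Om = 1 + h2 T W_T V`. -/
lemma exists_WVO {h2 : H} (h2' : 2 * h2 = 1) (a b : H) : ∃ W V Om : H⟦X⟧,
    W = 1 + C a * X ^ 4 * W ^ 2 + C b * X ^ 6 * W ^ 3 ∧ W * V = 1 ∧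
      2 * W * Om = 2 * W + X * derivative H W := by
  obtain ⟨W, hW⟩ := exists_W a b
  have hc : constantCoeff W = ((1 : Hˣ) : H) := by
    have h := congrArg constantCoeff hW
    simpa using h
  have hV : W * invOfUnit W 1 = 1 := mul_invOfUnit W 1 hc
  refine ⟨W, invOfUnit W 1, 1 + C h2 * X * derivative H W * invOfUnit W 1, hW, hV, ?_⟩
  have h2c : (2 : H⟦X⟧) * C h2 = 1 := by
    have : (2 : H⟦X⟧) = C (2 : H) := (map_ofNat C 2).symm
    rw [this, ← map_mul, h2', map_one]
  linear_combination (X * derivative H W * (W * invOfUnit W 1)) * h2c + (X * derivative H W) * hV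

variable {a b c k g h2 h3 : H} {W V Om Z : H⟦X⟧}

/-- (D1) PROOF. Put `e = T^2 Z_T - 1 + V Om + c T^2 Om`. Claim `e_t = (k1 c + g1) e`. With
`N' = T N`: `(Z_T)_t = (k1 c + g1) Z_T + N'_T`, and from
`T^3 N' = (k1 c + g1) T^2 - (V + c T^2) TT + k1 V` by `d/dT`:
`T^4 N'_T = 2 (k1c+g1) T^2 - T (V_T + 2 c T) TT - T (V + c T^2) TT_T + k1 T V_T - 3 T^3 N'`. In
short (`x = V/T^2`, `y = -V/T^3`): `N'_T = -(k1c+g1)/T^2 - ((x + c) Om0 + k1 y)_T`, so
`T^-2 e_t = h Z_T - h T^-2 + [(x Om)_t - (x Om0 + k1 y)_T] + c [Om_t - (Om0)_T] + c' Om` and by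
(I1), (I2), Riccati `= h T^-2 e`, `h = k1 c + g1`. In Lean: multiply by `T^2` (and cancel it:
`X` is a nonzero divisor, `X_pow_mul_cancel`-like lemmas or coefficients),
`linear_combination` of `id_I1`, `id_I2`, the derivative of `hN`, `hZ`, `hc`. Initially `e = 0` by
`E2`: `W e = T^2 W Z_T - W + Om + c T^2 W Om`. `uniq_T`. -/
theorem def_D1 (hr : DefRing D ε) (hd : DR D a b k g h2 h3)
    (hW : W = 1 + C a * X ^ 4 * W ^ 2 + C b * X ^ 6 * W ^ 3) (hV : W * V = 1)
    (hOm : 2 * W * Om = 2 * W + X * derivative H W)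
    (hc : D c = k * c ^ 2 + 2 * g * c - h3 * k * a) {N : H⟦X⟧}
    (hN : X ^ 3 * (X * N) = C (k * c + g) * X ^ 2 -
      (V + C c * X ^ 2) * TT D a k g h2 h3 W V + C k * V)
    (hZ : cD D Z = C (k * c + g) * Z + X * N)
    (h0 : (X ^ 2 * W * derivative H Z).map ε = (W - Om - C c * X ^ 2 * W * Om).map ε) :
    X ^ 2 * W * derivative H Z = W - Om - C c * X ^ 2 * W * Om := by
  have h1 := def_D1_alg hd hW hV hOm hc hN hZ
  have hWe : W * (X ^ 2 * derivative H Z - 1 + V * Om + C c * X ^ 2 * Om) =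
      X ^ 2 * W * derivative H Z - (W - Om - C c * X ^ 2 * W * Om) := by
    linear_combination Om * hV
  have h2 : (X ^ 2 * derivative H Z - 1 + V * Om + C c * X ^ 2 * Om).map ε = 0 := by
    have h3 : (W * (X ^ 2 * derivative H Z - 1 + V * Om + C c * X ^ 2 * Om)).map ε = 0 := by
      rw [hWe, map_sub, h0, sub_self]
    rw [map_mul] at h3
    have h4 : W.map ε * V.map ε = 1 := by rw [← map_mul, hV, map_one]
    linear_combination V.map ε * h3 -
      (X ^ 2 * derivative H Z - 1 + V * Om + C c * X ^ 2 * Om).map ε * h4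
  have h5 := hr.uniq_T h1 h2
  rw [h5, mul_zero] at hWe
  exact (sub_eq_zero.1 hWe.symm)

/-- (D2) PROOF. Put `Y = 1 + T Z`, `R' = T^2 R`. First `T R'_T = (Om Y)_t`: from
`T^2 R' = -(k1/2) Y^2 + TT Y - (k1/2) V - g1 T^2` by `T d/dT`:
`T^3 R'_T = -k1 Y (T Y_T) + T TT_T Y + TT (T Y_T) - (k1/2) T V_T - 2 g1 T^2 - 2 T^2 R'`, where
`T Y_T = Y - (V + c T^2) Om` (this is `E2`) and `T TT_T = T^2 Om_t + TT - (k1 V - g1 T^2) Om`
(`id_I1`); on the other side `T^2 (Om Y)_t = T^2 Om_t Y + Om (T^2 Y_t)`,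
`T^2 Y_t = h T^2 Y - (V + c T^2) TT + k1 V` (from `hZ`, `hN`), and `V Om = V - T V_T / 2`.
Now `S = 1 + T^2 (..)` is a unit (constant coefficient: `D s_0 = 0`, `ε s_0 = 1`, so `s_0 = 1` by
`uniq`). `q = T S_T S^-1 - Om Y + 1` satisfies `q_t = T (S_t / S)_T - (Om Y)_t = T R'_T - (Om Y)_t
= 0` and `q = 0` initially (`E1`), so `q = 0` (`uniq_T`, `α = 0`), which is the claim
`T Om S Z = S - Om S + T S_T`. -/
theorem def_D2 (hr : DefRing D ε) (hd : DR D a b k g h2 h3)
    (hW : W = 1 + C a * X ^ 4 * W ^ 2 + C b * X ^ 6 * W ^ 3) (hV : W * V = 1)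
    (hOm : 2 * W * Om = 2 * W + X * derivative H W) {N R S : H⟦X⟧}
    (hN : X ^ 3 * (X * N) = C (k * c + g) * X ^ 2 -
      (V + C c * X ^ 2) * TT D a k g h2 h3 W V + C k * V)
    (hZ : cD D Z = C (k * c + g) * Z + X * N)
    (E2 : X ^ 2 * W * derivative H Z = W - Om - C c * X ^ 2 * W * Om)
    (hR : X ^ 2 * (X ^ 2 * R) = -(C (h2 * k) * (1 + X * Z) ^ 2) +
      TT D a k g h2 h3 W V * (1 + X * Z) - C (h2 * k) * V - C g * X ^ 2)
    (hS : cD D S = S * (X ^ 2 * R)) (hS0 : ε (constantCoeff S) = 1)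
    (h0 : (X * Om * S * Z).map ε = (S - Om * S + X * derivative H S).map ε) :
    X * Om * S * Z = S - Om * S + X * derivative H S := by
  have hU := DDefTwo_U (DDefTwo_R hd hW hV hOm hN hZ E2 hR) hS
  obtain ⟨U, hUd⟩ : ∃ U, U = S - Om * S + X * derivative H S - X * Om * S * Z := ⟨_, rfl⟩
  rw [← hUd] at hU
  have hU0 : U.map ε = 0 := by
    rw [hUd, map_sub, h0, sub_self]
  have hz : ∀ n, coeff n U = 0 := by
    intro n
    induction n using Nat.strong_induction_on with
    | _ n ih =>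
      refine hr.uniq 0 _ ?_ ?_
      · rw [zero_mul, ← coeff_cD, hU, show U * (X ^ 2 * R) = X ^ 2 * (U * R) by ring,
          coeff_X_pow_mul']
        split_ifs with h2n
        · rw [coeff_mul]
          refine Finset.sum_eq_zero fun p hp => ?_
          have hp' := Finset.HasAntidiagonal.mem_antidiagonal.1 hp
          rw [ih p.1 (by omega), zero_mul]
        · rfl
      · have e1 := congrArg (coeff n) hU0
        rwa [coeff_map, map_zero] at e1
  have hU1 : U = 0 := by
    ext n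
    rw [hz n, map_zero]
  rw [hUd] at hU1
  exact (sub_eq_zero.1 hU1).symm

/-- THE DEFORMATION THEOREM. PROOF. `c` by `ric`; `W, V, Om` by `exists_WVO` (their images under `ε`
are `W0, V0, Om0` by uniqueness: `W_unique` in Lip.lean, `V` is the inverse, `2 W0` is cancelled as
a unit times `2`, `ε h2`); `N` by `exists_N`; `Z` by `ode_T` with initial value `Z0`;
`constantCoeff Z = 0` by `uniq` (`D z_0 = (k1c+g1) z_0`, and `coeff 0 Z0 = coeff 1 S0 = 0` from
`E1` in degree `1`); `R` by `exists_R`; `S` by `prod_T`; `S0`, `S1`: `D s_0 = 0`, `D s_1 = 0` since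
`T^2 ∣ S R'`, so `s_0 = 1`, `s_1 = 0` by `uniq`. `E2`: `def_D1`, `E1`: `def_D2`. -/
theorem deform (hr : DefRing D ε) (hd : DR D a b k g h2 h3) {c0 : A} {W0 V0 Om0 S0 Z0 : A⟦X⟧}
    (h : SD (ε a) (ε b) c0 W0 V0 Om0 S0 Z0) :
    ∃ (c : H) (W V Om S Z N R : H⟦X⟧), SD a b c W V Om S Z ∧ ε c = c0 ∧
      D c = k * c ^ 2 + 2 * g * c - h3 * k * a ∧
      X ^ 3 * (X * N) = C (k * c + g) * X ^ 2 -
        (V + C c * X ^ 2) * TT D a k g h2 h3 W V + C k * V ∧
      cD D Z = C (k * c + g) * Z + X * N ∧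
      X ^ 2 * (X ^ 2 * R) = -(C (h2 * k) * (1 + X * Z) ^ 2) +
        TT D a k g h2 h3 W V * (1 + X * Z) - C (h2 * k) * V - C g * X ^ 2 ∧
      cD D S = S * (X ^ 2 * R) := by
  classical
  obtain ⟨c, hc, hc0⟩ := hr.ric k (2 * g) (-(h3 * k * a)) c0
  rw [← sub_eq_add_neg] at hc
  obtain ⟨W, V, Om, hW, hV, hOm⟩ := exists_WVO hd.two a b
  -- the images
  have eW : W.map ε = W0 := by
    refine W_unique ?_ h.hW
    have e1 := congrArg (PowerSeries.map ε) hW
    simpa only [map_add, map_mul, map_one, map_pow, PowerSeries.map_C, PowerSeries.map_X] using e1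
  have eV : V.map ε = V0 := by
    have e1 := congrArg (PowerSeries.map ε) hV
    rw [map_mul, map_one, eW] at e1
    have e2 := h.hV
    linear_combination V0 * e1 - (V.map ε) * e2
  have h2ε : (2 : A⟦X⟧) * C (ε h2) = 1 := by
    have e1 := congrArg (fun t => (C (ε t) : A⟦X⟧)) hd.two
    simpa only [map_mul, map_ofNat, map_one] using e1
  have eOm : Om.map ε = Om0 := by
    have e1 := congrArg (PowerSeries.map ε) hOm
    rw [map_add, map_mul, map_mul, map_mul, map_ofNat, PowerSeries.map_X, map_derivative', eW] at e1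
    have e2 := h.hOm
    have e3 := h.hV
    have e4 : 2 * W0 * (Om.map ε - Om0) = 0 := by linear_combination e1 - e2
    have e5 : Om.map ε - Om0 = 0 := by
      linear_combination C (ε h2) * V0 * e4 - (Om.map ε - Om0) * h2ε * (W0 * V0) -
        (Om.map ε - Om0) * e3
    exact sub_eq_zero.1 e5
  obtain ⟨N, hN⟩ := exists_N (D := D) (k := k) (g := g) hd.three c hW hV
  obtain ⟨Z, hZ, hZ0⟩ := hr.ode_T (k * c + g) (X * N) Z0
  -- the constant coefficient of `Z0`
  have hz : constantCoeff Z0 = 0 := by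
    obtain ⟨U, hU⟩ : ∃ U : A⟦X⟧, U = C (ε a) * W0 ^ 2 + C (ε b) * X ^ 2 * W0 ^ 3 := ⟨_, rfl⟩
    have e1 : W0 = 1 + X ^ 4 * U := by
      rw [hU]
      linear_combination h.hW
    have e2 : derivative A W0 = X ^ 3 * (4 * U + X * derivative A U) := by
      conv_lhs => rw [e1]
      rw [map_add, Derivation.map_one_eq_zero, zero_add, Derivation.leibniz, Derivation.leibniz_pow,
        derivative_X, smul_eq_mul, smul_eq_mul, smul_eq_mul, nsmul_eq_mul]
      push_cast
      ring
    have e3 : Om0 = 1 + X ^ 4 * (C (ε h2) * V0 * (4 * U + X * derivative A U)) := by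
      have e4 := h.hOm
      rw [e2] at e4
      have e5 := h.hV
      linear_combination C (ε h2) * V0 * e4 - (Om0 - 1) * (W0 * V0) * h2ε - (Om0 - 1) * e5
    have e4 := congrArg (coeff 1) h.E1
    have e5 : X * Om0 * S0 * Z0 = X * (Om0 * S0 * Z0) := by ring
    have e6 : S0 - Om0 * S0 + X * derivative A S0 =
        X * (derivative A S0 - X ^ 3 * (C (ε h2) * V0 * (4 * U + X * derivative A U)) * S0) := by
      conv_lhs => rw [e3]
      ring
    rw [e5, e6, coeff_succ_X_mul, coeff_succ_X_mul, map_sub, coeff_derivative] at e4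
    have e7 : constantCoeff Om0 = 1 := by
      rw [e3]
      simp
    have e8 : coeff 0 (Om0 * S0 * Z0) = constantCoeff Z0 := by
      rw [coeff_zero_eq_constantCoeff, map_mul, map_mul, e7, h.S0, one_mul, one_mul]
    have e9 : coeff 0 (X ^ 3 * (C (ε h2) * V0 * (4 * U + X * derivative A U)) * S0) = 0 := by
      rw [coeff_zero_eq_constantCoeff]
      simp
    rw [e8, e9, zero_add, h.S1, zero_mul, sub_zero] at e4
    exact e4
  have hZc : constantCoeff Z = 0 := by
    refine hr.uniq (k * c + g) _ ?_ ?_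
    · have e1 := congrArg (coeff 0) hZ
      rw [coeff_cD, map_add, coeff_zero_X_mul, add_zero, coeff_C_mul] at e1
      rw [← coeff_zero_eq_constantCoeff_apply]
      exact e1
    · have e1 := congrArg (coeff 0) hZ0
      rw [coeff_map, coeff_zero_eq_constantCoeff_apply, coeff_zero_eq_constantCoeff_apply, hz] at e1
      exact e1
  obtain ⟨R, hR⟩ := exists_R (D := D) (k := k) (g := g) (a := a) (h3 := h3) hd.two hZc hW hV
  obtain ⟨S, hS, hS0⟩ := hr.prod_T (X ^ 2 * R) S0
  have hs0 : constantCoeff S = 1 := by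
    have e0 : constantCoeff S - 1 = 0 := by
      refine hr.uniq 0 _ ?_ ?_
      · have e1 := congrArg (coeff 0) hS
        rw [coeff_cD, coeff_zero_eq_constantCoeff_apply, coeff_zero_eq_constantCoeff_apply] at e1
        rw [map_sub, Derivation.map_one_eq_zero, e1]
        simp
      · have e1 := congrArg (coeff 0) hS0
        rw [coeff_map, coeff_zero_eq_constantCoeff_apply, coeff_zero_eq_constantCoeff_apply, h.S0] at e1
        rw [map_sub, e1, map_one, sub_self]
    exact sub_eq_zero.1 e0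
  have hs1 : coeff 1 S = 0 := by
    refine hr.uniq 0 _ ?_ ?_
    · have e1 := congrArg (coeff 1) hS
      rw [coeff_cD] at e1
      rw [e1, zero_mul, show S * (X ^ 2 * R) = X * (X * (S * R)) by ring, coeff_succ_X_mul]
      simp
    · have e1 := congrArg (coeff 1) hS0
      rw [coeff_map, h.S1] at e1
      exact e1
  have hE2 : X ^ 2 * W * derivative H Z = W - Om - C c * X ^ 2 * W * Om := by
    refine def_D1 hr hd hW hV hOm hc hN hZ ?_
    simp only [map_mul, map_sub, map_pow, PowerSeries.map_X, PowerSeries.map_C, map_derivative', eW,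
      eOm, hZ0, hc0]
    exact h.E2
  have hE1 : X * Om * S * Z = S - Om * S + X * derivative H S := by
    refine def_D2 hr hd hW hV hOm hN hZ hE2 hR hS ?_ ?_
    · rw [hs0, map_one]
    · simp only [map_mul, map_sub, map_add, PowerSeries.map_X, map_derivative', eOm, hZ0, hS0]
      exact h.E1
  exact ⟨c, W, V, Om, S, Z, N, R, ⟨hW, hV, hOm, hs0, hs1, hE1, hE2⟩, hc0, hc, hN, hZ, hR, hS⟩

end Pool.Agent.Lib.MP_3550b5_nt.SV
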