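import Mathlib

/-!
Project SV, part D: differential equations `f' = α f^2 + β f + γ` in a subring of `K⟦X⟧` which is closed under
integration and under `X`-adic limits (Picard iteration).
-/

namespace Pool.Agent.Lib.MP_3550b5_nt.SV

open PowerSeries

variable {K : Type*} [Field K]

/-- The integral with constant coefficient `0`. -/
noncomputable def hzInt (h : K⟦X⟧) : K⟦X⟧ :=
  PowerSeries.mk fun n => if n = 0 then 0 else coeff (n - 1) h / (n : K)

lemma coeff_hzInt_zero (h : K⟦X⟧) : coeff 0 (hzInt h) = 0 := by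
  rw [hzInt, coeff_mk, if_pos rfl]

lemma coeff_hzInt_succ (h : K⟦X⟧) (n : ℕ) :
    coeff (n + 1) (hzInt h) = coeff n h / ((n : K) + 1) := by
  rw [hzInt, coeff_mk, if_neg (Nat.succ_ne_zero n), Nat.add_sub_cancel]
  push_cast
  rfl

private lemma hzInt_sub (h h' : K⟦X⟧) : hzInt h - hzInt h' = hzInt (h - h') := by
  ext n
  rw [map_sub]
  rcases n with _ | n
  · rw [coeff_hzInt_zero, coeff_hzInt_zero, coeff_hzInt_zero, sub_zero]
  · rw [coeff_hzInt_succ, coeff_hzInt_succ, coeff_hzInt_succ, map_sub, sub_div]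

private lemma hzInt_dvd {h : K⟦X⟧} {n : ℕ} (hh : X ^ n ∣ h) : X ^ (n + 1) ∣ hzInt h := by
  rw [X_pow_dvd_iff] at hh ⊢
  intro m hm
  rcases m with _ | m
  · exact coeff_hzInt_zero h
  · rw [coeff_hzInt_succ, hh m (by omega), zero_div]

private lemma hzInt_der [CharZero K] (h : K⟦X⟧) : derivative K (hzInt h) = h := by
  ext n
  have hn : (n : K) + 1 ≠ 0 := Nat.cast_add_one_ne_zero n
  rw [coeff_derivative, coeff_hzInt_succ, div_mul_cancel₀ _ hn]

private lemma hz_exists_lim {R : Type*} [CommRing R] (F : ℕ → R⟦X⟧)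
    (h : ∀ n, X ^ n ∣ F (n + 1) - F n) : ∃ W : R⟦X⟧, ∀ n, X ^ n ∣ W - F n := by
  refine ⟨PowerSeries.mk fun n => coeff n (F (n + 1)), fun n => ?_⟩
  rw [X_pow_dvd_iff]
  intro m hm
  rw [map_sub, coeff_mk]
  have key : ∀ k, coeff m (F (m + 1 + k)) = coeff m (F (m + 1)) := by
    intro k
    induction k with
    | zero => rfl
    | succ k ih =>
      have h1 := (X_pow_dvd_iff.1 (h (m + 1 + k))) m (by omega)
      rw [map_sub, sub_eq_zero] at h1
      rw [← ih, ← h1]
      rfl
  have e : n = m + 1 + (n - (m + 1)) := by omega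
  rw [e, key, sub_self]

/-- Existence for the equation `f' = α f^2 + β f + γ`. -/
theorem hz_ric [CharZero K] (R : Subring K⟦X⟧) (hint : ∀ h ∈ R, hzInt h ∈ R)
    (hlim : ∀ W : K⟦X⟧, (∀ n : ℕ, ∃ g ∈ R, X ^ n ∣ W - g) → W ∈ R) {α β γ : K⟦X⟧}
    (hα : α ∈ R) (hβ : β ∈ R) (hγ : γ ∈ R) {f0 : K} (hf0 : (C f0 : K⟦X⟧) ∈ R) :
    ∃ f ∈ R, derivative K f = α * f ^ 2 + β * f + γ ∧ constantCoeff f = f0 := by
  let P : K⟦X⟧ → K⟦X⟧ := fun f => α * f ^ 2 + β * f + γ
  let Φ : K⟦X⟧ → K⟦X⟧ := fun f => C f0 + hzInt (P f)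
  let F : ℕ → K⟦X⟧ := fun n => Φ^[n] 0
  have hF : ∀ n, F (n + 1) = Φ (F n) := fun n => Function.iterate_succ_apply' Φ n 0
  have hPR : ∀ f ∈ R, P f ∈ R := fun f hf =>
    R.add_mem (R.add_mem (R.mul_mem hα (R.pow_mem hf 2)) (R.mul_mem hβ hf)) hγ
  have hFR : ∀ n, F n ∈ R := by
    intro n
    induction n with
    | zero => exact R.zero_mem
    | succ n ih =>
      rw [hF]
      exact R.add_mem hf0 (hint _ (hPR _ ih))
  have hd : ∀ (f g : K⟦X⟧) (n : ℕ), X ^ n ∣ f - g → X ^ (n + 1) ∣ Φ f - Φ g := by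
    intro f g n hfg
    have e : Φ f - Φ g = hzInt (P f - P g) := by
      rw [← hzInt_sub]
      show C f0 + hzInt (P f) - (C f0 + hzInt (P g)) = _
      ring
    rw [e]
    refine hzInt_dvd ?_
    have e2 : P f - P g = (f - g) * (α * (f + g) + β) := by
      show α * f ^ 2 + β * f + γ - (α * g ^ 2 + β * g + γ) = _
      ring
    rw [e2]
    exact hfg.mul_right _
  have h1 : ∀ n, X ^ n ∣ F (n + 1) - F n := by
    intro n
    induction n with
    | zero => rw [pow_zero]; exact one_dvd _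
    | succ n ih =>
      have e : F (n + 1 + 1) - F (n + 1) = Φ (F (n + 1)) - Φ (F n) := by
        rw [hF (n + 1), hF n]
      rw [e]
      exact hd _ _ n ih
  obtain ⟨W, hW⟩ := hz_exists_lim F h1
  have h2 : ∀ n, X ^ n ∣ W - Φ W := by
    intro n
    have e : W - Φ W = (W - F (n + 1)) - (Φ W - Φ (F n)) := by
      rw [hF n]
      ring
    rw [e]
    exact dvd_sub ((pow_dvd_pow X (Nat.le_succ n)).trans (hW (n + 1)))
      ((pow_dvd_pow X (Nat.le_succ n)).trans (hd W (F n) n (hW n)))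
  have h3 : W = Φ W := by
    rw [← sub_eq_zero]
    ext n
    rw [map_zero]
    exact X_pow_dvd_iff.1 (h2 (n + 1)) n (Nat.lt_succ_self n)
  refine ⟨W, hlim W fun n => ⟨F n, hFR n, hW n⟩, ?_, ?_⟩
  · have h4 : derivative K W = derivative K (C f0 + hzInt (P W)) := by
      conv_lhs => rw [h3]
    rw [h4, map_add, hzInt_der, derivative_C, zero_add]
  · have h4 : constantCoeff W = constantCoeff (C f0 + hzInt (P W)) := by
      conv_lhs => rw [h3]
    rw [h4, map_add, ← coeff_zero_eq_constantCoeff_apply, ← coeff_zero_eq_constantCoeff_apply,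
      coeff_hzInt_zero, add_zero, coeff_zero_C]

/-- Uniqueness for the equation `f' = α f`. -/
theorem hz_uniq [CharZero K] {α f : K⟦X⟧} (h : derivative K f = α * f)
    (h0 : constantCoeff f = 0) : f = 0 := by
  ext n
  rw [map_zero]
  induction n using Nat.strong_induction_on with
  | _ n ih =>
    rcases n with _ | n
    · rw [coeff_zero_eq_constantCoeff_apply]
      exact h0
    · have h1 := congrArg (coeff n) h
      rw [coeff_derivative, coeff_mul] at h1
      have h2 : ∑ q ∈ Finset.HasAntidiagonal.antidiagonal n, coeff q.1 α * coeff q.2 f = 0 := by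
        refine Finset.sum_eq_zero fun q hq => ?_
        have h3 := Finset.HasAntidiagonal.mem_antidiagonal.1 hq
        rw [ih q.2 (by omega), mul_zero]
      rw [h2] at h1
      exact (mul_eq_zero.1 h1).resolve_right (Nat.cast_add_one_ne_zero n)

end Pool.Agent.Lib.MP_3550b5_nt.SV
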