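import Mathlib
import Pool.Agent.Lib.MP_3550b5_nt.Eval
import Pool.Agent.Lib.MP_3550b5_nt.SV.DDef
import Pool.Agent.Lib.MP_3550b5_nt.SV.HzX

/-!
Project SV, part D: the ring of Hurwitz series over the `p`-adic integers, realised in
`ℚ_[p]⟦X⟧`: `f = ∑ f_n X^n` with `n! f_n` integral.
-/

namespace Pool.Agent.Lib.MP_3550b5_nt.SV

open PowerSeries

section HzAux

variable {p : ℕ} [hp : Fact p.Prime]

private lemma hz_le_iff {x : ℚ_[p]} : ‖x‖ ≤ 1 ↔ x ∈ PadicInt.subring p := Iff.rfl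

/-- The binomial formula for the products of two coefficients. -/
private lemma hz_term (n : ℕ) (q : ℕ × ℕ) (hq : q ∈ Finset.HasAntidiagonal.antidiagonal n) (x y : ℚ_[p]) :
    (n.factorial : ℚ_[p]) * (x * y) = (n.choose q.2 : ℚ_[p]) *
      (((q.1.factorial : ℚ_[p]) * x) * ((q.2.factorial : ℚ_[p]) * y)) := by
  rw [Finset.HasAntidiagonal.mem_antidiagonal] at hq
  subst hq
  have h := congrArg (Nat.cast : ℕ → ℚ_[p]) (Nat.add_choose_mul_factorial_mul_factorial q.1 q.2)
  push_cast at h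
  rw [← h]
  ring

private lemma hz_mul {f g : ℚ_[p]⟦X⟧} (hf : ∀ n, ‖(n.factorial : ℚ_[p]) * coeff n f‖ ≤ 1)
    (hg : ∀ n, ‖(n.factorial : ℚ_[p]) * coeff n g‖ ≤ 1) (n : ℕ) :
    ‖(n.factorial : ℚ_[p]) * coeff n (f * g)‖ ≤ 1 := by
  rw [hz_le_iff, coeff_mul, Finset.mul_sum]
  refine Subring.sum_mem _ fun q hq => ?_
  rw [hz_term n q hq]
  exact Subring.mul_mem _ (natCast_mem _ _) (Subring.mul_mem _ (hf q.1) (hg q.2))

private lemma hz_inv {f : ℚ_[p]⟦X⟧} (hf : ∀ n, ‖(n.factorial : ℚ_[p]) * coeff n f‖ ≤ 1)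
    (h0 : ‖(constantCoeff f)⁻¹‖ ≤ 1) (n : ℕ) :
    ‖(n.factorial : ℚ_[p]) * coeff n f⁻¹‖ ≤ 1 := by
  induction n using Nat.strong_induction_on with
  | _ n ih =>
    rw [hz_le_iff, PowerSeries.coeff_inv]
    split_ifs with hn
    · subst hn
      simpa using h0
    · rw [mul_left_comm, Finset.mul_sum]
      refine Subring.mul_mem _ (Subring.neg_mem _ h0) (Subring.sum_mem _ fun q hq => ?_)
      split_ifs with hlt
      · rw [hz_term n q hq]
        exact Subring.mul_mem _ (natCast_mem _ _) (Subring.mul_mem _ (hf q.1) (ih q.2 hlt))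
      · rw [mul_zero]
        exact Subring.zero_mem _

end HzAux

variable (p : ℕ) [hp : Fact p.Prime]

/-- Hurwitz series. -/
noncomputable def Hz : Subring ℚ_[p]⟦X⟧ where
  carrier := {f | ∀ n, ‖(n.factorial : ℚ_[p]) * coeff n f‖ ≤ 1}
  mul_mem' := by
    intro f g hf hg
    exact hz_mul hf hg
  one_mem' := by
    intro n
    rw [coeff_one]
    split_ifs with hn
    · subst hn
      simp
    · simp
  add_mem' := by
    intro f g hf hg n
    rw [hz_le_iff, map_add, mul_add]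
    exact Subring.add_mem _ (hf n) (hg n)
  zero_mem' := by
    intro n
    simp
  neg_mem' := by
    intro f hf n
    rw [map_neg, mul_neg, norm_neg]
    exact hf n

lemma mem_Hz {f : ℚ_[p]⟦X⟧} :
    f ∈ Hz p ↔ ∀ n, ‖(n.factorial : ℚ_[p]) * coeff n f‖ ≤ 1 := Iff.rfl

/-- `d/dX` on Hurwitz series: `n! (n+1) f_(n+1) = (n+1)! f_(n+1)`. -/
noncomputable def dH : Derivation ℤ (Hz p) (Hz p) :=
  Derivation.mk' (AddMonoidHom.toIntLinearMap
    { toFun := fun f => ⟨derivative ℚ_[p] (f : ℚ_[p]⟦X⟧), by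
        intro n
        have h := f.2 (n + 1)
        rw [coeff_derivative]
        rw [Nat.factorial_succ] at h
        push_cast at h
        have e : (n.factorial : ℚ_[p]) * (coeff (n + 1) (f : ℚ_[p]⟦X⟧) * ((n : ℚ_[p]) + 1)) =
            ((n : ℚ_[p]) + 1) * (n.factorial : ℚ_[p]) * coeff (n + 1) (f : ℚ_[p]⟦X⟧) := by ring
        rw [e]
        exact h⟩
      map_zero' := by apply Subtype.ext; simp
      map_add' := fun f g => by apply Subtype.ext; simp }) (by
    intro f g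
    apply Subtype.ext
    simp [Derivation.leibniz])

lemma dH_coe (f : Hz p) : ((dH p f : Hz p) : ℚ_[p]⟦X⟧) = derivative ℚ_[p] (f : ℚ_[p]⟦X⟧) := rfl

/-- The constant coefficient. -/
noncomputable def εH : Hz p →+* ℤ_[p] where
  toFun f := ⟨constantCoeff (f : ℚ_[p]⟦X⟧), by
    have := f.2 0
    simpa using this⟩
  map_one' := by apply Subtype.ext; simp
  map_mul' f g := by apply Subtype.ext; simp
  map_zero' := by apply Subtype.ext; simp
  map_add' f g := by apply Subtype.ext; simp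

lemma εH_coe (f : Hz p) : ((εH p f : ℤ_[p]) : ℚ_[p]) = constantCoeff (f : ℚ_[p]⟦X⟧) := rfl

/-- PROOF. Uniqueness: if `D f = α f` and `f_0 = 0`, then by induction `f_n = 0`
(`(n+1) f_(n+1) = ∑ α_i f_(n-i)`). Existence (both equations have the form `D f = P(f)`, `P` a
polynomial over `Hz`): with `F_n = n! f_n`, `F_0 = f0`, `F_(n+1) = n! coeff n P(f)`, which depends on
`F_0, ..., F_n` only: define approximations `f^(0) = f0`, `f^(m+1) = f0 + ∫ P(f^(m))`, where
`∫ h = ∑ h_n X^(n+1)/(n+1)` maps `Hz` into `Hz`; `f^(m+1) = f^(m)` modulo `X^(m+1)` by induction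
(`P(f) - P(f')` is divisible by `f - f'`); `f_n = coeff n (f^(n))`. -/
theorem defRing_Hz : DefRing (dH p) (εH p) := by
  have hint : ∀ h ∈ Hz p, hzInt h ∈ Hz p := by
    intro h hh n
    rcases n with _ | n
    · rw [coeff_hzInt_zero, mul_zero, norm_zero]
      exact zero_le_one
    · have h1 : ((n + 1).factorial : ℚ_[p]) * coeff (n + 1) (hzInt h) =
          (n.factorial : ℚ_[p]) * coeff n h := by
        have hn : (n : ℚ_[p]) + 1 ≠ 0 := Nat.cast_add_one_ne_zero n
        rw [coeff_hzInt_succ, Nat.factorial_succ]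
        push_cast
        field_simp
      rw [h1]
      exact hh n
  have hlim : ∀ W : ℚ_[p]⟦X⟧, (∀ n : ℕ, ∃ g ∈ Hz p, X ^ n ∣ W - g) → W ∈ Hz p := by
    intro W hW n
    obtain ⟨g, hg, hd⟩ := hW (n + 1)
    have h1 := X_pow_dvd_iff.1 hd n (Nat.lt_succ_self n)
    rw [map_sub, sub_eq_zero] at h1
    rw [h1]
    exact hg n
  have hC : ∀ x : ℤ_[p], (C (x : ℚ_[p]) : ℚ_[p]⟦X⟧) ∈ Hz p := by
    intro x n
    rw [coeff_C]
    split_ifs with h
    · rw [h, Nat.factorial_zero, Nat.cast_one, one_mul]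
      exact x.2
    · rw [mul_zero, norm_zero]
      exact zero_le_one
  have key : ∀ (α β γ : Hz p) (f0 : ℤ_[p]), ∃ f : Hz p,
      dH p f = α * f ^ 2 + β * f + γ ∧ εH p f = f0 := by
    intro α β γ f0
    obtain ⟨f, hf, h1, h2⟩ := hz_ric (Hz p) hint hlim α.2 β.2 γ.2 (hC f0)
    exact ⟨⟨f, hf⟩, Subtype.ext h1, Subtype.ext h2⟩
  refine ⟨fun α β f0 => ?_, key, fun α f h h0 => ?_⟩
  · obtain ⟨f, h1, h2⟩ := key 0 α β f0
    exact ⟨f, by rw [h1]; ring, h2⟩
  · have h1 : derivative ℚ_[p] (f : ℚ_[p]⟦X⟧) = (α : ℚ_[p]⟦X⟧) * (f : ℚ_[p]⟦X⟧) :=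
      congrArg Subtype.val h
    have h2 : constantCoeff (f : ℚ_[p]⟦X⟧) = 0 := congrArg Subtype.val h0
    exact Subtype.ext (hz_uniq h1 h2)

/-- PROOF. The inverse `u` in `ℚ_[p]⟦X⟧`: `n! f_0 u_n = - ∑_(i ≥ 1) C(n,i) (i! f_i) ((n-i)! u_(n-i))`
is integral by strong induction, `f_0` a unit. -/
lemma Hz_isUnit {f : Hz p} (hf : IsUnit (εH p f)) : IsUnit f := by
  have h1 : ‖constantCoeff (f : ℚ_[p]⟦X⟧)‖ = 1 := by
    rw [← εH_coe, ← PadicInt.norm_def]
    exact PadicInt.isUnit_iff.1 hf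
  have h0 : constantCoeff (f : ℚ_[p]⟦X⟧) ≠ 0 := by
    intro h
    rw [h, norm_zero] at h1
    exact zero_ne_one h1
  refine IsUnit.of_mul_eq_one (⟨(f : ℚ_[p]⟦X⟧)⁻¹, hz_inv f.2 ?_⟩ : Hz p) (Subtype.ext ?_)
  · rw [norm_inv, h1, inv_one]
  · exact PowerSeries.mul_inv_cancel _ h0

/-- Constants and polynomials: the Taylor expansion at `t0`. PROOF. `Polynomial.taylorAlgHom` (or
`eval₂RingHom` with `X ↦ C t0 + X`), the coefficients are integral. -/
theorem exists_tay (t0 : ℤ_[p]) : ∃ tay : Polynomial ℤ_[p] →+* Hz p,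
    (∀ x : ℤ_[p], ((tay (Polynomial.C x) : Hz p) : ℚ_[p]⟦X⟧) = C (x : ℚ_[p])) ∧
    ((tay Polynomial.X : Hz p) : ℚ_[p]⟦X⟧) = C (t0 : ℚ_[p]) + X ∧
    (∀ f, dH p (tay f) = tay (Polynomial.derivative f)) ∧ ∀ f, εH p (tay f) = f.eval t0 := by
  have hC : ∀ x : ℤ_[p], (C : ℚ_[p] →+* ℚ_[p]⟦X⟧).comp PadicInt.Coe.ringHom x ∈ Hz p := by
    intro x n
    change ‖(n.factorial : ℚ_[p]) * coeff n (C (x : ℚ_[p]))‖ ≤ 1
    rw [coeff_C]
    split_ifs with h
    · subst h
      rw [Nat.factorial_zero, Nat.cast_one, one_mul]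
      exact x.2
    · rw [mul_zero, norm_zero]
      exact zero_le_one
  have hX : C (t0 : ℚ_[p]) + X ∈ Hz p := by
    intro n
    rw [map_add, coeff_C, coeff_X]
    rcases Nat.lt_trichotomy n 1 with h | h | h
    · obtain rfl : n = 0 := by omega
      simpa using t0.2
    · subst h
      simp
    · rw [if_neg (by omega), if_neg (by omega)]
      simp
  let cH : ℤ_[p] →+* Hz p :=
    ((C : ℚ_[p] →+* ℚ_[p]⟦X⟧).comp PadicInt.Coe.ringHom).codRestrict (Hz p) hC
  let xH : Hz p := ⟨C (t0 : ℚ_[p]) + X, hX⟩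
  let tay : Polynomial ℤ_[p] →+* Hz p := Polynomial.eval₂RingHom cH xH
  have e1 : ∀ x : ℤ_[p], tay (Polynomial.C x) = cH x := fun x => Polynomial.eval₂_C _ _
  have e2 : tay Polynomial.X = xH := Polynomial.eval₂_X _ _
  have dC : ∀ x : ℤ_[p], dH p (cH x) = 0 := by
    intro x
    apply Subtype.ext
    rw [dH_coe]
    change derivative ℚ_[p] (C (x : ℚ_[p])) = 0
    ext n
    rw [coeff_derivative, coeff_C, if_neg (Nat.succ_ne_zero n), zero_mul, map_zero]
  have dX : dH p xH = 1 := by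
    apply Subtype.ext
    rw [dH_coe]
    change derivative ℚ_[p] (C (t0 : ℚ_[p]) + X) = 1
    ext n
    rw [coeff_derivative, map_add, coeff_C, if_neg (Nat.succ_ne_zero n), coeff_X, coeff_one,
      zero_add]
    by_cases h : n = 0
    · subst h
      simp
    · rw [if_neg h, if_neg (by omega), zero_mul]
  refine ⟨tay, fun x => by rw [e1]; rfl, by rw [e2], ?_, ?_⟩
  · intro f
    induction f using Polynomial.induction_on' with
    | add f g hf hg => rw [map_add, map_add, hf, hg, map_add, map_add]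
    | monomial n a =>
      rw [← Polynomial.C_mul_X_pow_eq_monomial, map_mul, map_pow, e1, e2, Derivation.leibniz,
        Derivation.leibniz_pow, dC, dX, Polynomial.derivative_C_mul_X_pow, map_mul, map_pow, e1,
        e2, map_mul, map_natCast]
      simp only [smul_eq_mul, mul_one, mul_zero, add_zero, nsmul_eq_mul]
      ring
  · intro f
    have h : (εH p).comp tay = Polynomial.evalRingHom t0 := by
      apply Polynomial.ringHom_ext
      · intro x
        rw [RingHom.comp_apply, e1, Polynomial.coe_evalRingHom, Polynomial.eval_C]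
        apply Subtype.ext
        rw [εH_coe]
        change constantCoeff (C (x : ℚ_[p])) = x
        simp
      · rw [RingHom.comp_apply, e2, Polynomial.coe_evalRingHom, Polynomial.eval_X]
        apply Subtype.ext
        rw [εH_coe]
        change (constantCoeff (C (t0 : ℚ_[p]) + X : ℚ_[p]⟦X⟧) : ℚ_[p]) = t0
        simp
    exact congrArg (fun F : Polynomial ℤ_[p] →+* ℤ_[p] => F f) h

/-- Rescaling: `f(g s)` has integral coefficients if `p ∣ g`, `p ≥ 3`: `g^n / n!` is integral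
(`v_p(n!) ≤ n/(p-1) ≤ n`; Mathlib: `sub_one_mul_padicValNat_factorial`, or Legendre). -/
theorem exists_rs (hp3 : 3 ≤ p) {g : ℤ_[p]} (hg : ‖g‖ < 1) : ∃ rs : Hz p →+* ℤ_[p]⟦X⟧,
    (∀ f n, ((coeff n (rs f) : ℤ_[p]) : ℚ_[p]) = coeff n (f : ℚ_[p]⟦X⟧) * (g : ℚ_[p]) ^ n) ∧
    ∀ f, derivative ℤ_[p] (rs f) = C g * rs (dH p f) := by
  have hp1 : (1 : ℝ) < p := by exact_mod_cast hp.out.one_lt
  have hp0 : (0 : ℝ) < p := by linarith
  -- the bound
  have hb : ∀ (f : Hz p) (n : ℕ), ‖coeff n (f : ℚ_[p]⟦X⟧) * (g : ℚ_[p]) ^ n‖ ≤ 1 := by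
    intro f n
    have hn0 : (n.factorial : ℚ_[p]) ≠ 0 := by exact_mod_cast n.factorial_ne_zero
    have h1 : coeff n (f : ℚ_[p]⟦X⟧) * (g : ℚ_[p]) ^ n =
        ((n.factorial : ℚ_[p]) * coeff n (f : ℚ_[p]⟦X⟧)) *
          ((g : ℚ_[p]) ^ n * (n.factorial : ℚ_[p])⁻¹) := by
      field_simp
    have h2 : ‖(g : ℚ_[p])‖ ≤ (p : ℝ)⁻¹ := by
      have h3 := (PadicInt.norm_lt_pow_iff_norm_le_pow_sub_one g 0).1 (by simpa using hg)
      have h4 : (p : ℝ) ^ ((0 : ℤ) - 1) = (p : ℝ)⁻¹ := by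
        rw [zero_sub, zpow_neg_one]
      rw [h4] at h3
      exact h3
    have h5 : ‖(n.factorial : ℚ_[p])‖⁻¹ ≤ (p : ℝ) ^ n := by
      have h6 : padicValNat p n.factorial ≤ n := by
        have h7 := sub_one_mul_padicValNat_factorial (p := p) n
        have h8 : padicValNat p n.factorial ≤ (p - 1) * padicValNat p n.factorial :=
          Nat.le_mul_of_pos_left _ (by omega)
        omega
      rw [Padic.norm_eq_zpow_neg_valuation hn0, Padic.valuation_natCast, zpow_neg, inv_inv,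
        zpow_natCast]
      exact pow_le_pow_right₀ hp1.le h6
    have h9 := f.2 n
    rw [h1]
    refine (norm_mul _ _).le.trans ?_
    have h11 : ‖(g : ℚ_[p]) ^ n * (n.factorial : ℚ_[p])⁻¹‖ =
        ‖(g : ℚ_[p])‖ ^ n * ‖(n.factorial : ℚ_[p])‖⁻¹ := by
      rw [norm_mul, norm_pow, norm_inv]
    have h10 : ‖(g : ℚ_[p])‖ ^ n * ‖(n.factorial : ℚ_[p])‖⁻¹ ≤ 1 := by
      calc ‖(g : ℚ_[p])‖ ^ n * ‖(n.factorial : ℚ_[p])‖⁻¹ ≤ ((p : ℝ)⁻¹) ^ n * (p : ℝ) ^ n := by
            gcongr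
        _ = 1 := by rw [← mul_pow, inv_mul_cancel₀ hp0.ne', one_pow]
    rw [← h11] at h10
    exact mul_le_one₀ h9 (norm_nonneg _) h10
  let F : Hz p → ℤ_[p]⟦X⟧ := fun f => PowerSeries.mk fun n =>
    ⟨coeff n (f : ℚ_[p]⟦X⟧) * (g : ℚ_[p]) ^ n, hb f n⟩
  have hF : ∀ f n, ((coeff n (F f) : ℤ_[p]) : ℚ_[p]) =
      coeff n (f : ℚ_[p]⟦X⟧) * (g : ℚ_[p]) ^ n := by
    intro f n
    simp only [F, coeff_mk]
  have hF' : ∀ f, PowerSeries.map (PadicInt.Coe.ringHom (p := p)) (F f) =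
      rescale (g : ℚ_[p]) (f : ℚ_[p]⟦X⟧) := by
    intro f
    ext n
    rw [coeff_map, coeff_rescale, PadicInt.Coe.ringHom_apply, hF, mul_comm]
  have hinj : Function.Injective (PowerSeries.map (PadicInt.Coe.ringHom (p := p))) :=
    PowerSeries.map_injective _ Subtype.val_injective
  refine ⟨{ toFun := F
            map_one' := hinj (by rw [hF']; simp)
            map_mul' := fun a b => hinj (by rw [hF', map_mul, hF', hF', Subring.coe_mul, map_mul])
            map_zero' := hinj (by rw [hF']; simp)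
            map_add' := fun a b => hinj (by
              rw [hF', map_add, hF', hF', Subring.coe_add, map_add]) }, hF, ?_⟩
  intro f
  change derivative ℤ_[p] (F f) = C g * F (dH p f)
  ext n
  apply Subtype.ext
  have h1 := hF f (n + 1)
  have h2 := hF (dH p f) n
  rw [dH_coe, coeff_derivative] at h2
  rw [coeff_derivative, coeff_C_mul]
  push_cast
  rw [h1, h2]
  ring

/-- Evaluation at a point of the open disc as a ring homomorphism. -/
theorem exists_evR {s : ℤ_[p]} (hs : ‖s‖ < 1) : ∃ e : ℤ_[p]⟦X⟧ →+* ℤ_[p], ∀ f, e f = ev f s :=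
  ⟨{ toFun := fun f => ev f s
     map_one' := ev_one s
     map_mul' := fun f g => ev_mul f g hs
     map_zero' := by simp [ev]
     map_add' := fun f g => ev_add f g hs }, fun _ => rfl⟩

/-- The value of a polynomial: `ev (rs (tay f)) s = f(t0 + g s)`. PROOF. Both sides are ring
homomorphisms in `f` (`exists_evR`) which agree on constants and on `X`. -/
lemma ev_rs_tay {t0 g s : ℤ_[p]} (hs : ‖s‖ < 1) {tay : Polynomial ℤ_[p] →+* Hz p}
    {rs : Hz p →+* ℤ_[p]⟦X⟧}
    (h1 : ∀ x : ℤ_[p], ((tay (Polynomial.C x) : Hz p) : ℚ_[p]⟦X⟧) = C (x : ℚ_[p]))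
    (h2 : ((tay Polynomial.X : Hz p) : ℚ_[p]⟦X⟧) = C (t0 : ℚ_[p]) + X)
    (h3 : ∀ f n, ((coeff n (rs f) : ℤ_[p]) : ℚ_[p]) =
      coeff n (f : ℚ_[p]⟦X⟧) * (g : ℚ_[p]) ^ n) (f : Polynomial ℤ_[p]) :
    ev (rs (tay f)) s = f.eval (t0 + g * s) := by
  obtain ⟨e, he⟩ := exists_evR p hs
  have h : (e.comp rs).comp tay = Polynomial.evalRingHom (t0 + g * s) := by
    apply Polynomial.ringHom_ext
    · intro x
      rw [RingHom.comp_apply, RingHom.comp_apply, he, Polynomial.coe_evalRingHom,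
        Polynomial.eval_C]
      unfold ev
      rw [tsum_eq_single 0]
      · rw [pow_zero, mul_one]
        apply Subtype.ext
        have h4 := h3 (tay (Polynomial.C x)) 0
        rw [h1, coeff_C, if_pos rfl, pow_zero, mul_one] at h4
        exact h4
      · intro n hn
        have h4 := h3 (tay (Polynomial.C x)) n
        rw [h1, coeff_C, if_neg hn, zero_mul] at h4
        have h5 : coeff n (rs (tay (Polynomial.C x))) = 0 := Subtype.ext h4
        rw [h5, zero_mul]
    · rw [RingHom.comp_apply, RingHom.comp_apply, he, Polynomial.coe_evalRingHom,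
        Polynomial.eval_X]
      have h5 : rs (tay Polynomial.X) = C t0 + C g * X := by
        ext n
        apply Subtype.ext
        have h4 := h3 (tay Polynomial.X) n
        rw [h2] at h4
        refine h4.trans ?_
        rw [map_add, map_add, coeff_C, coeff_C, coeff_C_mul, coeff_X, coeff_X]
        rcases Nat.lt_trichotomy n 1 with h | h | h
        · obtain rfl : n = 0 := by omega
          simp
        · subst h
          simp
        · have hn0 : n ≠ 0 := by omega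
          have hn1 : n ≠ 1 := by omega
          simp [hn0, hn1]
      have hC : ∀ x : ℤ_[p], ev (C x) s = x := by
        intro x
        unfold ev
        rw [tsum_eq_single 0]
        · simp
        · intro n hn
          rw [coeff_C, if_neg hn, zero_mul]
      rw [h5, ev_add _ _ hs, ev_mul _ _ hs, hC, hC, ev_X]
  rw [← he]
  exact congrArg (fun F : Polynomial ℤ_[p] →+* ℤ_[p] => F f) h

end Pool.Agent.Lib.MP_3550b5_nt.SV
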