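import Mathlib
import Pool.Agent.Lib.MP_3550b5_nt.LogHom

/-!
Project SV, part E: the logarithm of a power series congruent to a constant modulo `p`.
-/

namespace Pool.Agent.Lib.MP_3550b5_nt.SV

open PowerSeries

variable {p : ℕ} [hp : Fact p.Prime]

/-- The series `∑ a_n f_n`, coefficientwise. -/
private noncomputable def ser (a : ℕ → ℤ_[p]) (f : ℕ → ℤ_[p]⟦X⟧) : ℤ_[p]⟦X⟧ :=
  PowerSeries.mk fun k => ∑' n, a n * coeff k (f n)

private lemma ser_summable {a : ℕ → ℤ_[p]} (ha : Summable fun n => ‖a n‖) (x : ℕ → ℤ_[p]) :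
    Summable fun n => a n * x n := by
  refine Summable.of_norm_bounded ha fun n => ?_
  rw [norm_mul]
  exact mul_le_of_le_one_right (norm_nonneg _) (PadicInt.norm_le_one _)

private lemma ser_derivative {a : ℕ → ℤ_[p]} (ha : Summable fun n => ‖a n‖)
    (f : ℕ → ℤ_[p]⟦X⟧) :
    derivative ℤ_[p] (ser a f) = ser a fun n => derivative ℤ_[p] (f n) := by
  ext k
  unfold ser
  rw [coeff_derivative, coeff_mk, coeff_mk, ← (ser_summable ha _).tsum_mul_right]
  refine tsum_congr fun n => ?_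
  rw [coeff_derivative, mul_assoc]

private lemma ser_mul {a : ℕ → ℤ_[p]} (ha : Summable fun n => ‖a n‖)
    (f : ℕ → ℤ_[p]⟦X⟧) (g : ℤ_[p]⟦X⟧) : ser a f * g = ser a fun n => f n * g := by
  ext k
  unfold ser
  rw [coeff_mul, coeff_mk]
  have h1 : ∀ x : ℕ × ℕ, coeff x.1 (PowerSeries.mk fun k => ∑' n, a n * coeff k (f n)) *
      coeff x.2 g = ∑' n, a n * (coeff x.1 (f n) * coeff x.2 g) := by
    intro x
    rw [coeff_mk, ← (ser_summable ha _).tsum_mul_right]
    refine tsum_congr fun n => ?_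
    rw [mul_assoc]
  rw [Finset.sum_congr rfl fun x _ => h1 x, ← Summable.tsum_finsetSum fun x _ => ser_summable ha _]
  refine tsum_congr fun n => ?_
  rw [coeff_mul, Finset.mul_sum]

private lemma ser_ev {a : ℕ → ℤ_[p]} (ha : Summable fun n => ‖a n‖) (f : ℕ → ℤ_[p]⟦X⟧)
    {s : ℤ_[p]} (hs : ‖s‖ < 1) : ev (ser a f) s = ∑' n, a n * ev (f n) s := by
  unfold ev ser
  have h1 : Summable fun x : ℕ × ℕ => ‖a x.1‖ * ‖s‖ ^ x.2 :=
    ha.mul_of_nonneg (summable_geometric_of_lt_one (norm_nonneg _) hs) (fun _ => norm_nonneg _)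
      fun _ => pow_nonneg (norm_nonneg _) _
  have h2 : Summable (Function.uncurry fun n k : ℕ => a n * (coeff k (f n) * s ^ k)) := by
    refine Summable.of_norm_bounded h1 ?_
    rintro ⟨n, k⟩
    change ‖a n * (coeff k (f n) * s ^ k)‖ ≤ ‖a n‖ * ‖s‖ ^ k
    rw [norm_mul, norm_mul, norm_pow]
    exact mul_le_mul_of_nonneg_left (mul_le_of_le_one_left (pow_nonneg (norm_nonneg _) _)
      (PadicInt.norm_le_one _)) (norm_nonneg _)
  have h3 : ∀ k, coeff k (PowerSeries.mk fun k => ∑' n, a n * coeff k (f n)) * s ^ k =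
      ∑' n, a n * (coeff k (f n) * s ^ k) := by
    intro k
    rw [coeff_mk, ← (ser_summable ha _).tsum_mul_right]
    refine tsum_congr fun n => ?_
    rw [mul_assoc]
  rw [tsum_congr h3, h2.tsum_comm]
  refine tsum_congr fun n => ?_
  rw [(ev_summable (f n) hs).tsum_mul_left]

/-- `p^(n+1) / (n+1)` as a `p`-adic integer. -/
private lemma exists_cn (n : ℕ) : ∃ c : ℤ_[p], ((c : ℤ_[p]) : ℚ_[p]) * ((n : ℚ_[p]) + 1) =
    (p : ℚ_[p]) ^ (n + 1) ∧ ‖c‖ ≤ ((n : ℝ) + 1) * ((p : ℝ)⁻¹) ^ (n + 1) := by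
  have hp1 : (1 : ℝ) < p := by exact_mod_cast hp.out.one_lt
  have hp0 : (0 : ℝ) < p := by linarith
  have hn0 : ((n : ℚ_[p]) + 1) ≠ 0 := by exact_mod_cast Nat.succ_ne_zero n
  have h1 : ‖(p : ℚ_[p]) ^ (n + 1) / ((n : ℚ_[p]) + 1)‖ ≤
      ((n : ℝ) + 1) * ((p : ℝ)⁻¹) ^ (n + 1) := by
    rw [norm_div, norm_pow, Padic.norm_p, div_eq_mul_inv, mul_comm]
    exact mul_le_mul_of_nonneg_right (inv_norm_succ_le n) (by positivity)
  have h2 : ((n : ℝ) + 1) * ((p : ℝ)⁻¹) ^ (n + 1) ≤ 1 := by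
    rw [inv_pow, ← div_eq_mul_inv, div_le_one (by positivity)]
    have h3 : n + 1 < p ^ (n + 1) := Nat.lt_pow_self hp.out.one_lt
    exact_mod_cast h3.le
  refine ⟨⟨_, h1.trans h2⟩, ?_, h1⟩
  rw [div_mul_cancel₀ _ hn0]

private lemma dvd_coeff {u : ℤ_[p]⟦X⟧} (hu : IsUnit (constantCoeff u))
    (hu1 : ∀ n, 1 ≤ n → (p : ℤ_[p]) ∣ coeff n u) (n : ℕ) :
    (p : ℤ_[p]) ∣ coeff n (u ^ (p - 1) - 1) := by
  have hφp : PadicInt.toZMod (p := p) (p : ℤ_[p]) = 0 := by
    rw [map_natCast, ZMod.natCast_self]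
  have h1 : PowerSeries.map (PadicInt.toZMod (p := p)) u =
      C (PadicInt.toZMod (p := p) (constantCoeff u)) := by
    ext k
    rw [coeff_map, coeff_C]
    split_ifs with hk
    · rw [hk, coeff_zero_eq_constantCoeff_apply]
    · obtain ⟨c, hc⟩ := hu1 k (Nat.one_le_iff_ne_zero.2 hk)
      rw [hc, map_mul, hφp, zero_mul]
  have h2 : PowerSeries.map (PadicInt.toZMod (p := p)) (u ^ (p - 1) - 1) = 0 := by
    rw [map_sub, map_pow, map_one, h1, ← map_pow, ZMod.pow_card_sub_one_eq_one, map_one, sub_self]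
    exact (hu.map (PadicInt.toZMod (p := p))).ne_zero
  have h3 : PadicInt.toZMod (coeff n (u ^ (p - 1) - 1)) = 0 := by
    rw [← coeff_map, h2, map_zero]
  have h4 : coeff n (u ^ (p - 1) - 1) ∈ (Ideal.span {(p : ℤ_[p])} : Ideal ℤ_[p]) := by
    rw [← PadicInt.maximalIdeal_eq_span_p, ← PadicInt.ker_toZMod]
    exact h3
  exact Ideal.mem_span_singleton.1 h4

/-- Logarithm of a power series whose coefficients of positive degree are divisible by `p`. -/
theorem exists_loguX (hp3 : 3 ≤ p) {u : ℤ_[p]⟦X⟧} (hu : IsUnit (constantCoeff u))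
    (hu1 : ∀ n, 1 ≤ n → (p : ℤ_[p]) ∣ coeff n u) :
    ∃ L : ℤ_[p]⟦X⟧, derivative ℤ_[p] L * u = derivative ℤ_[p] u ∧
      ∀ s : ℤ_[p], ‖s‖ < 1 → ((ev L s : ℤ_[p]) : ℚ_[p]) = ulog (ev u s) := by
  have hp1 : (1 : ℝ) < p := by exact_mod_cast hp.out.one_lt
  have hp0 : (0 : ℝ) < p := by linarith
  -- `z = p z₁`
  choose d hd using dvd_coeff hu hu1
  obtain ⟨z₁, hz₁⟩ : ∃ z₁ : ℤ_[p]⟦X⟧, u ^ (p - 1) - 1 = C (p : ℤ_[p]) * z₁ := by
    refine ⟨PowerSeries.mk d, ?_⟩
    ext n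
    rw [hd, coeff_C_mul, coeff_mk]
  choose c hc1 hc2 using fun n => exists_cn (p := p) n
  -- the inverse of `p - 1`
  obtain ⟨v, hv⟩ : ∃ v : ℤ_[p], v * ((p : ℤ_[p]) - 1) = 1 := by
    have h1 : ‖((p : ℤ_[p]) - 1)‖ = 1 := by
      have h2 := norm_p_sub_one (p := p) hp3
      rw [← PadicInt.padic_norm_e_of_padicInt]
      push_cast
      exact h2
    obtain ⟨w, hw⟩ := (PadicInt.isUnit_iff.2 h1)
    exact ⟨↑w⁻¹, by rw [← hw, Units.inv_mul]⟩
  obtain ⟨a, ha⟩ : ∃ a : ℕ → ℤ_[p], ∀ n, a n = v * ((-1) ^ n * c n) := ⟨_, fun _ => rfl⟩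
  have hr : Summable fun n : ℕ => ((n : ℝ) + 1) * ((p : ℝ)⁻¹) ^ (n + 1) := by
    have hpi : (p : ℝ)⁻¹ < 1 := inv_lt_one_of_one_lt₀ hp1
    have hpi0 : (0 : ℝ) ≤ (p : ℝ)⁻¹ := by positivity
    have e1 := summable_pow_mul_geometric_of_norm_lt_one (R := ℝ) 1 (r := (p : ℝ)⁻¹) (by
      rw [Real.norm_eq_abs, abs_of_nonneg hpi0]; exact hpi)
    have e2 := (summable_nat_add_iff 1).2 e1
    refine e2.congr fun k => ?_
    push_cast
    ring
  have has : Summable fun n => ‖a n‖ := by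
    refine Summable.of_nonneg_of_le (fun _ => norm_nonneg _) (fun n => ?_) hr
    rw [ha, norm_mul, norm_mul, norm_pow, norm_neg, norm_one, one_pow, one_mul]
    exact (mul_le_of_le_one_left (norm_nonneg _) (PadicInt.norm_le_one _)).trans (hc2 n)
  obtain ⟨L, hL⟩ : ∃ L, L = ser a fun n => z₁ ^ (n + 1) := ⟨_, rfl⟩
  have hev : ∀ (f : ℤ_[p]⟦X⟧) (s : ℤ_[p]), ‖s‖ < 1 → ∀ n : ℕ, ev (f ^ n) s = ev f s ^ n := by
    intro f s hs n
    induction n with
    | zero => rw [pow_zero, pow_zero, ev_one]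
    | succ n ih => rw [pow_succ, pow_succ, ev_mul _ _ hs, ih]
  refine ⟨L, ?_, fun s hs => ?_⟩
  · -- the derivative
    obtain ⟨b, hb⟩ : ∃ b : ℕ → ℤ_[p], ∀ n, b n = (-1) ^ n * (p : ℤ_[p]) ^ (n + 1) :=
      ⟨_, fun _ => rfl⟩
    have hcn : ∀ n : ℕ, c n * ((n : ℤ_[p]) + 1) = (p : ℤ_[p]) ^ (n + 1) := by
      intro n
      apply Subtype.coe_injective
      push_cast
      exact hc1 n
    have hab : ∀ n : ℕ, a n * ((n : ℤ_[p]) + 1) = v * b n := by
      intro n
      rw [ha, hb, ← hcn]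
      ring
    have h1 : C ((p : ℤ_[p]) - 1) * derivative ℤ_[p] L * u ^ (p - 1) =
        C (p : ℤ_[p]) * derivative ℤ_[p] z₁ := by
      have h2 : u ^ (p - 1) = 1 + C (p : ℤ_[p]) * z₁ := by
        rw [← hz₁]
        ring
      rw [hL, ser_derivative has, mul_comm (C ((p : ℤ_[p]) - 1)), mul_assoc, ser_mul has, h2]
      ext k
      unfold ser
      rw [coeff_mk, coeff_C_mul]
      obtain ⟨y, hy⟩ : ∃ y : ℕ → ℤ_[p], ∀ n, y n = coeff k (z₁ ^ n * derivative ℤ_[p] z₁) :=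
        ⟨_, fun _ => rfl⟩
      have h3 : ∀ n, a n * coeff k (derivative ℤ_[p] (z₁ ^ (n + 1)) *
          (C ((p : ℤ_[p]) - 1) * (1 + C (p : ℤ_[p]) * z₁))) =
          b n * y n - b (n + 1) * y (n + 1) := by
        intro n
        have e1 : derivative ℤ_[p] (z₁ ^ (n + 1)) *
            (C ((p : ℤ_[p]) - 1) * (1 + C (p : ℤ_[p]) * z₁)) =
            C (((n : ℤ_[p]) + 1) * ((p : ℤ_[p]) - 1)) * (z₁ ^ n * derivative ℤ_[p] z₁) +
            C (((n : ℤ_[p]) + 1) * ((p : ℤ_[p]) - 1) * p) *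
              (z₁ ^ (n + 1) * derivative ℤ_[p] z₁) := by
          rw [Derivation.leibniz_pow, Nat.add_sub_cancel, smul_eq_mul, nsmul_eq_mul]
          simp only [map_mul, map_add, map_sub, map_one, map_natCast]
          push_cast
          ring
        rw [e1, map_add, coeff_C_mul, coeff_C_mul, ← hy, ← hy]
        have e2 : b (n + 1) = -(p * b n) := by
          rw [hb, hb]
          ring
        have e3 : a n * (((n : ℤ_[p]) + 1) * ((p : ℤ_[p]) - 1)) = b n := by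
          rw [← mul_assoc, hab, mul_right_comm, hv, one_mul]
        rw [e2]
        linear_combination (y n + p * y (n + 1)) * e3
      rw [tsum_congr h3]
      have hbs : Summable fun n => b n * y n := by
        refine ser_summable ?_ y
        have hpi : (p : ℝ)⁻¹ < 1 := inv_lt_one_of_one_lt₀ hp1
        have hpi0 : (0 : ℝ) ≤ (p : ℝ)⁻¹ := by positivity
        refine (((summable_nat_add_iff 1).2 (summable_geometric_of_lt_one hpi0 hpi))).congr
          fun n => ?_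
        rw [hb, norm_mul, norm_pow, norm_neg, norm_one, one_pow, one_mul, norm_pow,
          PadicInt.norm_p]
      rw [hbs.tsum_sub ((summable_nat_add_iff 1).2 hbs), hbs.tsum_eq_zero_add,
        add_sub_cancel_right, hb, hy]
      simp
    have h4 : C (p : ℤ_[p]) * derivative ℤ_[p] z₁ =
        C ((p : ℤ_[p]) - 1) * (u ^ (p - 2) * derivative ℤ_[p] u) := by
      have e1 := congrArg (derivative ℤ_[p]) hz₁
      rw [map_sub, Derivation.map_one_eq_zero, sub_zero, Derivation.leibniz_pow,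
        Derivation.leibniz, smul_eq_mul, smul_eq_mul, smul_eq_mul, nsmul_eq_mul,
        derivative_C, mul_zero, add_zero, Nat.sub_sub] at e1
      rw [← e1, Nat.cast_sub (by omega)]
      simp only [map_sub, map_natCast, map_one]
      push_cast
      ring
    have hu0 : u ≠ 0 := by
      rintro rfl
      rw [map_zero] at hu
      exact not_isUnit_zero hu
    have hC0 : (C ((p : ℤ_[p]) - 1) : ℤ_[p]⟦X⟧) ≠ 0 := by
      intro h
      have e1 : ((p : ℤ_[p]) - 1) = 0 := by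
        rw [← map_zero (C (R := ℤ_[p]))] at h
        exact C_injective h
      rw [e1, mul_zero] at hv
      exact zero_ne_one hv
    have h5 : u ^ (p - 1) = u ^ (p - 2) * u := by
      rw [← pow_succ]
      congr 1
      omega
    rw [h4, h5] at h1
    have h6 : (C ((p : ℤ_[p]) - 1) * u ^ (p - 2)) * (derivative ℤ_[p] L * u) =
        (C ((p : ℤ_[p]) - 1) * u ^ (p - 2)) * derivative ℤ_[p] u := by
      linear_combination h1
    exact mul_left_cancel₀ (mul_ne_zero hC0 (pow_ne_zero _ hu0)) h6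
  · -- the value
    have h1 : ev u s ^ (p - 1) - 1 = p * ev z₁ s := by
      have e1 : ev (u ^ (p - 1) - 1) s = ev (C (p : ℤ_[p]) * z₁) s := by rw [hz₁]
      rw [ev_sub _ _ hs, hev u s hs, ev_one, ev_mul _ _ hs] at e1
      rw [e1]
      congr 1
      unfold ev
      rw [tsum_eq_single 0]
      · simp
      · intro n hn
        rw [coeff_C, if_neg hn, zero_mul]
    rw [hL, ser_ev has _ hs]
    unfold ulog logOneAdd
    rw [h1]
    have h2 : Summable fun n => a n * ev (z₁ ^ (n + 1)) s := ser_summable has _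
    have h3 := h2.hasSum.map (PadicInt.Coe.ringHom (p := p)) continuous_subtype_val
    have h4 := h3.tsum_eq
    simp only [Function.comp_def] at h4
    rw [show ((∑' n, a n * ev (z₁ ^ (n + 1)) s : ℤ_[p]) : ℚ_[p]) =
      PadicInt.Coe.ringHom (∑' n, a n * ev (z₁ ^ (n + 1)) s) from rfl, ← h4]
    have hvq : ((v : ℤ_[p]) : ℚ_[p]) * ((p : ℚ_[p]) - 1) = 1 := by
      have := congrArg (fun x : ℤ_[p] => (x : ℚ_[p])) hv
      push_cast at this
      exact this
    have hpq : ((p : ℚ_[p]) - 1) ≠ 0 := right_ne_zero_of_mul_eq_one hvq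
    rw [← tsum_div_const]
    refine tsum_congr fun n => ?_
    have hn0 : ((n : ℚ_[p]) + 1) ≠ 0 := by exact_mod_cast Nat.succ_ne_zero n
    have h5 : PadicInt.Coe.ringHom (a n * ev (z₁ ^ (n + 1)) s) =
        (v : ℚ_[p]) * ((-1) ^ n * (c n : ℚ_[p])) * ((ev z₁ s : ℤ_[p]) : ℚ_[p]) ^ (n + 1) := by
      rw [ha, hev z₁ s hs]
      change (((v * ((-1) ^ n * c n)) * ev z₁ s ^ (n + 1) : ℤ_[p]) : ℚ_[p]) = _
      push_cast
      ring
    rw [h5, eq_div_iff hpq, eq_div_iff hn0]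
    push_cast
    rw [mul_pow, ← hc1 n]
    linear_combination ((-1) ^ n * (c n : ℚ_[p]) * ((ev z₁ s : ℤ_[p]) : ℚ_[p]) ^ (n + 1) *
      ((n : ℚ_[p]) + 1)) * hvq

end Pool.Agent.Lib.MP_3550b5_nt.SV
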