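import Mathlib
import Pool.Agent.Lib.MP_3550b5_nt.SV.Hz
import Pool.Agent.Lib.MP_3550b5_nt.LogHom
import Pool.Agent.Lib.MP_3550b5_nt.SV.CmpFr
import Pool.Agent.Lib.MP_3550b5_nt.SV.CmpX
import Pool.Agent.Lib.MP_3550b5_nt.SV.LoguX

/-!
Project SV, part E: substitution of a power series `T(s)` divisible by `p` into a power series in
`T` over `ℤ_[p]⟦s⟧`; logarithms.
-/

namespace Pool.Agent.Lib.MP_3550b5_nt.SV

open PowerSeries

variable {p : ℕ} [hp : Fact p.Prime]

/-- A derivation over the integers from an additive map with the product rule (this fixes the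
instance `Ring.toIntAlgebra`, which is not the one found for power series rings). -/
noncomputable def mkDer {R : Type*} [CommRing R] (f : R →+ R)
    (h : ∀ x y, f (x * y) = x * f y + y * f x) : Derivation ℤ R R :=
  Derivation.mk' f.toIntLinearMap h

/-- Derivations of a ring, with the instance `Ring.toIntAlgebra`. -/
abbrev Dr (R : Type*) [CommRing R] : Type _ := Derivation ℤ R R

/-- `d/ds` as a derivation over the integers. -/
noncomputable def ds (p : ℕ) [Fact p.Prime] :=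
  mkDer (R := ℤ_[p]⟦X⟧) (derivative ℤ_[p]).toLinearMap.toAddMonoidHom (by
    intro x y
    change derivative ℤ_[p] (x * y) = x * derivative ℤ_[p] y + y * derivative ℤ_[p] x
    rw [Derivation.leibniz, smul_eq_mul, smul_eq_mul])

lemma ds_apply (f : ℤ_[p]⟦X⟧) : ds p f = derivative ℤ_[p] f := rfl

/-- COMPOSITION. PROOF. `T = C p * T₁`, so the coefficients of `F_n T^n` are divisible by `p^n`:
define `cmp F = ∑ F_n T^n` coefficientwise, `coeff k (cmp F) = ∑' n, coeff k (coeff n F * T^n)`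
(summable: norms `≤ p^-n`). Ring homomorphism: `coeff k` of a product is a finite sum of products of
such series; `tsum_mul_tsum_eq_tsum_sum_antidiagonal`. Derivative: termwise,
`(F_n T^n)' = F_n' T^n + n F_n T^(n-1) T'`. Evaluation: `∑_k ∑_n = ∑_n ∑_k` (both sums absolutely
convergent: norm of `coeff k (F_n T^n) s^k` `≤ p^-n ‖s‖^k`), `ev (F_n T^n) s = ev F_n s (ev T s)^n`
(`ev_mul`). -/
theorem exists_cmp {T : ℤ_[p]⟦X⟧} (hT : C (p : ℤ_[p]) ∣ T) :
    ∃ cmp : ℤ_[p]⟦X⟧⟦X⟧ →+* ℤ_[p]⟦X⟧, (∀ f, cmp (C f) = f) ∧ cmp X = T ∧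
      (∀ F, derivative ℤ_[p] (cmp F) =
        cmp (cD (ds p) F) + cmp (derivative _ F) * derivative ℤ_[p] T) ∧
      ∀ (F : ℤ_[p]⟦X⟧⟦X⟧) (s : ℤ_[p]) (e : ℤ_[p]⟦X⟧ →+* ℤ_[p]), ‖s‖ < 1 →
        (∀ f, e f = ev f s) → ev (cmp F) s = ev (F.map e) (ev T s) := by
  obtain ⟨cmp, c1, c2, c3, c4⟩ := exists_cmp_core hT
  refine ⟨cmp, c1, c2, fun F => ?_, c4⟩
  refine c3 F (cD (ds p) F) fun n => ?_
  rw [coeff_cD]
  exact ds_apply _

/-- The chain rule for series coming from Hurwitz series, `t = t0 + g s`. PROOF.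
`cD (ds p) (F.map rs) = C (C g) * (cD (dH p) F).map rs` coefficientwise. -/
lemma cmp_rs {T : ℤ_[p]⟦X⟧} {cmp : ℤ_[p]⟦X⟧⟦X⟧ →+* ℤ_[p]⟦X⟧} (h1 : ∀ f, cmp (C f) = f)
    (h2 : ∀ F, derivative ℤ_[p] (cmp F) =
      cmp (cD (ds p) F) + cmp (derivative _ F) * derivative ℤ_[p] T)
    {rs : Hz p →+* ℤ_[p]⟦X⟧} {g : ℤ_[p]}
    (hrs : ∀ f, derivative ℤ_[p] (rs f) = C g * rs (dH p f)) (F : (Hz p)⟦X⟧) :
    derivative ℤ_[p] (cmp (F.map rs)) = C g * cmp ((cD (dH p) F).map rs) +
      cmp ((derivative _ F).map rs) * derivative ℤ_[p] T := by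
  have e1 : cD (ds p) (F.map rs) = C (C g) * (cD (dH p) F).map rs := by
    ext1 n
    rw [coeff_cD, coeff_map, coeff_C_mul, coeff_map, coeff_cD]
    exact hrs _
  have e2 : derivative _ (F.map rs) = (derivative _ F).map rs := by
    ext1 n
    rw [coeff_map, coeff_derivative, coeff_derivative, coeff_map, map_mul, map_add, map_natCast,
      map_one]
  rw [h2, e1, e2, map_mul, h1]

/-- A power series whose coefficients of positive degree are divisible by `p` and with unit constant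
coefficient has a logarithm on the open disc. PROOF. `u^(p-1) = 1 + z` with `z` divisible by `p`
(modulo `p`, `u` is a constant, and `u0^(p-1) = 1`). `coeff k L = (p-1)⁻¹ ∑' n,
(-1)^n coeff k (z^(n+1)) / (n+1)`: the terms are divisible by `p^(n+1)/(n+1)`, which is integral and
tends to `0`. Derivative: termwise, `∑ (-1)^n z^n z' = z'/(1+z)`, and `z'/(1+z) = (p-1) u'/u`.
Evaluation: exchange the sums; `ulog (ev u s) = logOneAdd (ev z s) / (p - 1)`. -/
theorem exists_logu (hp3 : 3 ≤ p) {u : ℤ_[p]⟦X⟧} (hu : IsUnit (constantCoeff u))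
    (hu1 : ∀ n, 1 ≤ n → (p : ℤ_[p]) ∣ coeff n u) :
    ∃ L : ℤ_[p]⟦X⟧, derivative ℤ_[p] L * u = derivative ℤ_[p] u ∧
      ∀ s : ℤ_[p], ‖s‖ < 1 → ((ev L s : ℤ_[p]) : ℚ_[p]) = ulog (ev u s) := by
  exact exists_loguX hp3 hu hu1

/-- The fraction field of `ℚ_[p]⟦X⟧`. -/
abbrev EE (p : ℕ) [Fact p.Prime] : Type := FractionRing ℚ_[p]⟦X⟧

/-- The embedding of `ℤ_[p]⟦X⟧`. -/
noncomputable def jE (p : ℕ) [Fact p.Prime] : ℤ_[p]⟦X⟧ →+* EE p :=
  (algebraMap ℚ_[p]⟦X⟧ (EE p)).comp (PowerSeries.map (PadicInt.Coe.ringHom (p := p)))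

lemma jE_inj : Function.Injective (jE p) := by
  have h : Function.Injective (algebraMap ℚ_[p]⟦X⟧ (EE p)) := IsFractionRing.injective _ _
  have h2 : Function.Injective (PowerSeries.map (PadicInt.Coe.ringHom (p := p))) :=
    PowerSeries.map_injective (PadicInt.Coe.ringHom (p := p)) Subtype.coe_injective
  exact h.comp h2

instance : CharZero (EE p) := by
  have h : Function.Injective (algebraMap ℚ_[p]⟦X⟧ (EE p)) := IsFractionRing.injective _ _
  have h2 : Function.Injective (PowerSeries.C (R := ℚ_[p])) := PowerSeries.C_injective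
  exact charZero_of_injective_ringHom
    (f := (algebraMap ℚ_[p]⟦X⟧ (EE p)).comp (PowerSeries.C (R := ℚ_[p]))) (h.comp h2)

/-- Constants of the field `EE p`. -/
noncomputable def cE (p : ℕ) [Fact p.Prime] : ℚ_[p] →+* EE p :=
  (algebraMap ℚ_[p]⟦X⟧ (EE p)).comp (PowerSeries.C (R := ℚ_[p]))

/-- A derivation of a domain extends to the fraction field. PROOF. Define
`D (f / g) = (g D f - f D g) / g^2` (for instance with chosen representatives, independence:
`f g' = f' g` implies equality), and check Leibniz and additivity. -/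
theorem exists_fracDer {R : Type*} [CommRing R] [IsDomain R] (d : Derivation ℤ R R) :
    ∃ D : Dr (FractionRing R),
      ∀ x, D (algebraMap R (FractionRing R) x) = algebraMap R (FractionRing R) (d x) := by
  obtain ⟨f, h1, h2⟩ := exists_fracDer_add d
  exact ⟨mkDer f h1, h2⟩

/-- The derivation `g⁻¹ d/ds` and its constants. PROOF of the constants: let `D (f/g) = 0`,
`f, g ≠ 0`, i.e. `f' g = f g'` in `ℚ_[p]⟦X⟧`. `ℚ_[p]⟦X⟧` is a discrete valuation ring, so (after
inverting, if necessary) `f = h g` with `h` a power series; `h' g = 0`, so `h' = 0`, `h` constant. -/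
theorem exists_DE {g : ℚ_[p]} (hg : g ≠ 0) : ∃ D : Dr (EE p),
    (∀ f : ℚ_[p]⟦X⟧, D (algebraMap _ _ f) =
      algebraMap _ _ (C g⁻¹ * derivative ℚ_[p] f)) ∧
    ∀ x, D x = 0 ↔ ∃ c : ℚ_[p], x = cE p c := by
  obtain ⟨d, hd⟩ : ∃ d : Dr ℚ_[p]⟦X⟧, ∀ x, d x = C g⁻¹ * derivative ℚ_[p] x := by
    refine ⟨mkDer (R := ℚ_[p]⟦X⟧) ((AddMonoidHom.mulLeft (C g⁻¹)).comp
      (derivative ℚ_[p]).toLinearMap.toAddMonoidHom) ?_, fun x => rfl⟩
    intro x y
    change C g⁻¹ * derivative ℚ_[p] (x * y) =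
      x * (C g⁻¹ * derivative ℚ_[p] y) + y * (C g⁻¹ * derivative ℚ_[p] x)
    rw [Derivation.leibniz, smul_eq_mul, smul_eq_mul]
    ring
  obtain ⟨f, h1, h2⟩ := exists_fracDer_add d
  refine ⟨mkDer f h1, fun x => ?_, fun x => ?_⟩
  · change f (algebraMap _ _ x) = _
    rw [h2, hd]
  · exact cmpfr_constants (inv_ne_zero hg) h1 (fun y => by rw [h2, hd]) x

end Pool.Agent.Lib.MP_3550b5_nt.SV
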