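import Mathlib
import Pool.Agent.Lib.MP_3550b5_nt.G.UFD

/-!
Project SV (`p`-adic Silverman specialization): basic definitions. A derivation `D` of a field `F`
is a `Derivation ℤ F F`. For a curve `y^2 = x^3 + a x + b` over `F` we use

* `k1 = 3 (3 b a' - 2 a b') / (2 (4 a^3 + 27 b^2))`, `g1 = (4 a^3 + 27 b^2)' / (12 (4 a^3 + 27 b^2))`,
* `om` (the parameter `Om` of a point) and `tau`.
-/

namespace Pool.Agent.Lib.MP_3550b5_nt.SV

open Polynomial

section Field

variable {F : Type*} [Field F] (D : Derivation ℤ F F)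

/-- `4 a^3 + 27 b^2`. -/
def dl (a b : F) : F := 4 * a ^ 3 + 27 * b ^ 2

/-- `3 b a' - 2 a b'`. -/
def wr (a b : F) : F := 3 * b * D a - 2 * a * D b

/-- `k1`. -/
def k1 (a b : F) : F := 3 * wr D a b / (2 * dl a b)

/-- `g1`. -/
def g1 (a b : F) : F := D (dl a b) / (12 * dl a b)

/-- `Om` of the point `(x, y)`. -/
def om (a b x y : F) : F :=
  (D x - 2 * k1 D a b * x ^ 2 - 2 * g1 D a b * x - 4 * k1 D a b * a / 3) / (2 * y)

/-- `tau` of the point `(x, y)`. -/
def tau (a b x y : F) : F :=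
  g1 D a b * (om D a b x y / k1 D a b) - x * om D a b x y - k1 D a b * y -
    D (om D a b x y / k1 D a b)

/-- The system (Sys) for `(z, ze)`. -/
def Sys (a b x y z ze : F) : Prop :=
  D z = -g1 D a b * z - k1 D a b * ze + om D a b x y ∧
  D ze = g1 D a b * ze - k1 D a b * a / 3 * z - x * om D a b x y - k1 D a b * y

/-- The quantity `E` attached to a solution of (Sys). -/
def Ee (a b x y z ze : F) : F :=
  -(k1 D a b * ze ^ 2 / 2) + om D a b x y * ze - k1 D a b * x / 2 - g1 D a b -
    k1 D a b * a / 6 * z ^ 2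

/-- The Riccati polynomial `k1 X^2 + 2 g1 X - k1 a / 3`. -/
noncomputable def ric (a b : F) : F[X] :=
  C (k1 D a b) * X ^ 2 + C (2 * g1 D a b) * X - C (k1 D a b * a / 3)

end Field

section Ring

variable {R : Type*} [CommRing R] (D : Derivation ℤ R R)

/-- Coefficientwise application of `D`. -/
noncomputable def cw (Q : R[X]) : R[X] := Q.sum fun n a => monomial n (D a)

/-- The derivation of `R[X]` which extends `D` and maps `X` to `P`. -/
noncomputable def dx (P Q : R[X]) : R[X] := cw D Q + P * derivative Q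

/-- `P` has no Darboux polynomial: no monic polynomial `Q` of positive degree divides `dx D P Q`. -/
def NoDbx (P : R[X]) : Prop := ∀ Q : R[X], Q.Monic → 1 ≤ Q.natDegree → ¬ Q ∣ dx D P Q

lemma coeff_cw (Q : R[X]) (n : ℕ) : (cw D Q).coeff n = D (Q.coeff n) := by
  unfold cw
  rw [Polynomial.sum, finsetSum_coeff]
  simp only [coeff_monomial]
  rw [Finset.sum_ite_eq']
  split_ifs with h
  · rfl
  · rw [notMem_support_iff.1 h, map_zero]

lemma cw_add (P Q : R[X]) : cw D (P + Q) = cw D P + cw D Q := by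
  ext n
  simp [coeff_cw]

lemma cw_C (a : R) : cw D (C a) = C (D a) := by
  ext n
  rw [coeff_cw, coeff_C, coeff_C]
  split_ifs
  · rfl
  · exact map_zero D

lemma cw_X : cw D X = 0 := by
  ext n
  rw [coeff_cw, coeff_X, coeff_zero]
  split_ifs
  · exact D.map_one_eq_zero
  · exact map_zero D

lemma cw_mul (P Q : R[X]) : cw D (P * Q) = cw D P * Q + P * cw D Q := by
  ext n
  rw [coeff_cw, coeff_mul, map_sum, coeff_add, coeff_mul, coeff_mul, ← Finset.sum_add_distrib]
  refine Finset.sum_congr rfl fun x _ => ?_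
  rw [coeff_cw, coeff_cw, Derivation.leibniz, smul_eq_mul, smul_eq_mul]
  ring

lemma dx_add (P Q₁ Q₂ : R[X]) : dx D P (Q₁ + Q₂) = dx D P Q₁ + dx D P Q₂ := by
  unfold dx
  rw [cw_add, derivative_add]
  ring

lemma dx_mul (P Q₁ Q₂ : R[X]) : dx D P (Q₁ * Q₂) = dx D P Q₁ * Q₂ + Q₁ * dx D P Q₂ := by
  unfold dx
  rw [cw_mul, derivative_mul]
  ring

lemma dx_C (P : R[X]) (a : R) : dx D P (C a) = C (D a) := by
  unfold dx
  rw [cw_C, derivative_C, mul_zero, add_zero]

lemma dx_X (P : R[X]) : dx D P X = P := by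
  unfold dx
  rw [cw_X, derivative_X, mul_one, zero_add]

/-- The derivative of the value of a polynomial. -/
lemma D_eval₂ {S : Type*} [CommRing S] (D' : Derivation ℤ S S) (f : R →+* S)
    (hf : ∀ x, D' (f x) = f (D x)) {w : S} {P : R[X]} (hw : D' w = eval₂ f w P) (Q : R[X]) :
    D' (eval₂ f w Q) = eval₂ f w (dx D P Q) := by
  induction Q using Polynomial.induction_on' with
  | add p q hp hq => rw [eval₂_add, map_add, hp, hq, dx_add, eval₂_add]
  | monomial n a =>
    rw [← C_mul_X_pow_eq_monomial]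
    induction n with
    | zero => rw [pow_zero, mul_one, eval₂_C, dx_C, eval₂_C, hf]
    | succ n ih =>
      rw [pow_succ, ← mul_assoc, eval₂_mul, Derivation.leibniz, ih, eval₂_X, hw,
        dx_mul D P (C a * X ^ n) X, dx_X, eval₂_add, smul_eq_mul, smul_eq_mul]
      simp only [eval₂_mul, eval₂_X]
      ring

end Ring

end Pool.Agent.Lib.MP_3550b5_nt.SV
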