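import Mathlib
import Pool.Agent.Lib.MP_3550b5_nt.SV.Base

/-!
Project SV, part R: the local setting. `V` is a discrete valuation (`G.DVal`: `V.v : F → ℤ`,
`V.D k x` means `x = 0 ∨ k ≤ V.v x`), `δ` a derivation with `δ O ⊆ m` and `δ π = π`. READ
`G/Val.lean` FIRST (many lemmas on `V.D`).
-/

namespace Pool.Agent.Lib.MP_3550b5_nt.SV

open G

variable {F : Type*} [Field F]

/-- The local setting. -/
structure LD (V : DVal F) (δ : Derivation ℤ F F) : Prop where
  int : ∀ x, V.D 0 x → V.D 1 (δ x)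
  unif : ∃ π : F, π ≠ 0 ∧ V.v π = 1 ∧ δ π = π
  nat : ∀ n : ℤ, n ≠ 0 → ¬ V.D 1 (n : F)

variable {V : DVal F} {δ : Derivation ℤ F F} [CharZero F]

private lemma loc_v_int (h : LD V δ) {n : ℤ} (hn : n ≠ 0) : V.v (n : F) = 0 := by
  have hn0 : (n : F) ≠ 0 := Int.cast_ne_zero.2 hn
  have h1 := (DVal.D_iff hn0).1 (DVal.D_int (V := V) n)
  have h2 := (DVal.not_D_iff hn0).1 (h.nat n hn)
  omega

omit [CharZero F] in
private lemma loc_v_zpow {x : F} (hx : x ≠ 0) (n : ℤ) : V.v (x ^ n) = n * V.v x := by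
  obtain ⟨m, rfl | rfl⟩ := n.eq_nat_or_neg
  · rw [zpow_natCast, DVal.v_pow hx]
  · rw [zpow_neg, zpow_natCast, DVal.v_inv (pow_ne_zero m hx), DVal.v_pow hx]
    ring

/-- an element of `O` whose residue is a nonzero rational is a unit -/
private lemma loc_not_D_rat (h : LD V δ) {q : ℚ} (hq : q ≠ 0) : ¬ V.D 1 (q : F) := by
  have hq0 : (q : F) ≠ 0 := Rat.cast_ne_zero.2 hq
  have hv : V.v (q : F) = 0 := by
    have hnum := loc_v_int h (Rat.num_ne_zero.2 hq)
    have hden0 : (q.den : ℤ) ≠ 0 := by exact_mod_cast q.den_ne_zero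
    have hden := loc_v_int h hden0
    have e : (q : F) = (q.num : F) / ((q.den : ℤ) : F) := by
      rw [Rat.cast_def, Int.cast_natCast]
    rw [e, DVal.v_div (Int.cast_ne_zero.2 (Rat.num_ne_zero.2 hq)) (Int.cast_ne_zero.2 hden0),
      hnum, hden, sub_zero]
  rw [DVal.not_D_iff hq0, hv]
  exact zero_lt_one

/-- Nonzero rationals are units. PROOF. `q = num / den`; nonzero integers have valuation `0`
(`D_int`, `LD.nat`, `DVal.not_D_iff`, `DVal.D_iff`); `DVal.v_div`. -/
lemma LD.v_rat (h : LD V δ) {q : ℚ} (hq : q ≠ 0) : V.v (q : F) = 0 := by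
  have hq0 : (q : F) ≠ 0 := Rat.cast_ne_zero.2 hq
  have hnum := loc_v_int h (Rat.num_ne_zero.2 hq)
  have hden0 : (q.den : ℤ) ≠ 0 := by exact_mod_cast q.den_ne_zero
  have hden := loc_v_int h hden0
  have e : (q : F) = (q.num : F) / ((q.den : ℤ) : F) := by
    rw [Rat.cast_def, Int.cast_natCast]
  rw [e, DVal.v_div (Int.cast_ne_zero.2 (Rat.num_ne_zero.2 hq)) (Int.cast_ne_zero.2 hden0),
    hnum, hden, sub_zero]

lemma LD.D_rat (h : LD V δ) (q : ℚ) : V.D 0 (q : F) := by
  by_cases hq : q = 0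
  · rw [hq, Rat.cast_zero]
    exact DVal.D_zero 0
  · exact Or.inr (h.v_rat hq).ge

lemma LD.rat_eq_zero (h : LD V δ) {q : ℚ} (hq : V.D 1 (q : F)) : q = 0 := by
  by_contra hq0
  exact loc_not_D_rat h hq0 hq

/-- `δ q = 0` for rational `q`. (`δ n = 0` for integers, then `q * den = num`.) -/
lemma D_ratCast (δ : Derivation ℤ F F) (q : ℚ) : δ (q : F) = 0 := by
  have hden0 : (q.den : F) ≠ 0 := Nat.cast_ne_zero.2 q.den_ne_zero
  have e : (q : F) * (q.den : F) = (q.num : F) := by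
    rw [Rat.cast_def, div_mul_cancel₀ _ hden0]
  have h1 := congrArg δ e
  rw [Derivation.leibniz, δ.map_natCast, δ.map_intCast, smul_zero, zero_add, smul_eq_mul] at h1
  exact (mul_eq_zero.1 h1).resolve_left hden0

/-- LOGARITHMIC DERIVATIVE: `δ f / f = v(f)` modulo `m`. PROOF. `π` from `unif`, `n = V.v f`,
`u = f * π ^ (-n)` has `V.v u = 0` (zpow; `v_inv`, `v_pow`). `δ u / u ∈ m` by `int`. From
`f = u * π ^ n` and `δ π = π` (so `δ (π ^ n) = n π ^ n`, `n : ℤ`): `δ f / f = δ u / u + n`. -/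
theorem LD.log (h : LD V δ) {f : F} (hf : f ≠ 0) : V.D 1 (δ f / f - ((V.v f : ℤ) : F)) := by
  obtain ⟨π, hπ0, hπ1, hπ⟩ := h.unif
  obtain ⟨n, hn⟩ : ∃ n : ℤ, n = V.v f := ⟨_, rfl⟩
  obtain ⟨u, hu⟩ : ∃ u : F, u = f * π ^ (-n) := ⟨_, rfl⟩
  have hp0 : π ^ n ≠ 0 := zpow_ne_zero n hπ0
  have hpn0 : π ^ (-n) ≠ 0 := zpow_ne_zero (-n) hπ0
  have hu0 : u ≠ 0 := by
    rw [hu]
    exact mul_ne_zero hf hpn0
  have hvu : V.v u = 0 := by
    rw [hu, V.map_mul hf hpn0, loc_v_zpow hπ0, hπ1, ← hn]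
    ring
  have hfu : f = u * π ^ n := by
    rw [hu, mul_assoc, ← zpow_add₀ hπ0, neg_add_cancel, zpow_zero, mul_one]
  have hδp : δ (π ^ n) = (n : F) * π ^ n := by
    rw [Derivation.leibniz_zpow, hπ, smul_eq_mul, zsmul_eq_mul]
    have h1 : π ^ (n - 1) * π = π ^ n := by
      rw [← zpow_add_one₀ hπ0, sub_add_cancel]
    rw [h1]
  have hδu : V.D 1 (δ u) := h.int u (Or.inr hvu.ge)
  have e : δ f / f - (((V.v f : ℤ)) : F) = δ u * u⁻¹ := by
    rw [← hn]
    have h1 : δ f = u * ((n : F) * π ^ n) + π ^ n * δ u := by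
      conv_lhs => rw [hfu]
      rw [Derivation.leibniz, hδp, smul_eq_mul, smul_eq_mul]
    rw [h1]
    conv_lhs => rw [hfu]
    field_simp
    ring
  rw [e]
  refine DVal.D_mul' (j := 1) (k := 0) hδu (Or.inr ?_) (by norm_num)
  rw [DVal.v_inv hu0, hvu, neg_zero]

/-- `δ` does not lower the valuation. (From `LD.log`: `δ f = f * (δ f / f)`, `δ f / f ∈ O`.) -/
lemma LD.D_map (h : LD V δ) {k : ℤ} {f : F} (hf : V.D k f) : V.D k (δ f) := by
  by_cases hf0 : f = 0
  · rw [hf0, map_zero]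
    exact DVal.D_zero k
  · have h1 := h.log hf0
    have h2 : V.D 0 (δ f / f) := by
      have h3 := DVal.D_add (DVal.D_mono (by norm_num : (0 : ℤ) ≤ 1) h1)
        (DVal.D_int (V := V) (V.v f))
      rwa [sub_add_cancel] at h3
    have h4 : δ f = f * (δ f / f) := by
      field_simp
    rw [h4]
    exact DVal.D_mul' hf h2 (by omega)

/-- If `V.v f ≠ 0` then `δ f` has the same valuation as `f`. -/
lemma LD.v_map (h : LD V δ) {f : F} (hf : f ≠ 0) (hv : V.v f ≠ 0) :
    δ f ≠ 0 ∧ V.v (δ f) = V.v f := by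
  have h1 := h.log hf
  have h2 : V.D 0 (δ f / f) := by
    have h3 := DVal.D_add (DVal.D_mono (by norm_num : (0 : ℤ) ≤ 1) h1)
      (DVal.D_int (V := V) (V.v f))
    rwa [sub_add_cancel] at h3
  have h3 : ¬ V.D 1 (δ f / f) := by
    have h4 := DVal.not_D_add h1 (h.nat (V.v f) hv)
    rwa [sub_add_cancel] at h4
  have h4 : δ f / f ≠ 0 := DVal.ne_zero_of_not_D h3
  have h5 : δ f ≠ 0 := fun h => h4 (by rw [h, zero_div])
  refine ⟨h5, ?_⟩
  rw [DVal.D_iff h4] at h2
  rw [DVal.not_D_iff h4] at h3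
  rw [DVal.v_div h5 hf] at h2 h3
  omega

/-- If `g = q mod m` with a rational number `q` which is not an integer, then `z` has the valuation
of `δ z - g z`. PROOF. `z ≠ 0`, `n = V.v z`: `δ z - g z = z (δ z / z - n + (n - q) + (q - g))`, and
the bracket is a unit: `n - q` is a nonzero rational (`v_rat`) and the rest is in `m`. -/
lemma LD.no_int (h : LD V δ) {g z : F} {q : ℚ} (hg : V.D 1 (g - (q : F)))
    (hq : ∀ n : ℤ, (n : ℚ) ≠ q) {k : ℤ} (hz : V.D k (δ z - g * z)) : V.D k z := by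
  by_cases hz0 : z = 0
  · rw [hz0]
    exact DVal.D_zero k
  have h1 := h.log hz0
  obtain ⟨n, hn⟩ : ∃ n : ℤ, n = V.v z := ⟨_, rfl⟩
  rw [← hn] at h1
  have hne : (n : ℚ) - q ≠ 0 := sub_ne_zero.2 (hq n)
  have h2 := loc_not_D_rat h hne
  have h3 : V.D 1 ((δ z / z - (n : F)) + -(g - (q : F))) := DVal.D_add h1 (DVal.D_neg hg)
  have h4 := DVal.not_D_add h3 h2
  have h5 : (δ z / z - (n : F)) + -(g - (q : F)) + (((n : ℚ) - q : ℚ) : F) = δ z / z - g := by
    push_cast
    ring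
  rw [h5] at h4
  refine DVal.D_of_mul (j := 1) h4 ?_
  have h6 : (δ z / z - g) * z = δ z - g * z := by
    field_simp
  rw [h6, add_sub_cancel_left]
  exact hz

/-- A `2 × 2` linear system over `O` with no negative integer exponent: the solutions are integral.
PROOF. Suppose not; let `m ≥ 1` be such that `V.D (-m) u1`, `V.D (-m) u2` and not both of them are in
`D (-m + 1)` (take `-m` the minimum of the valuations of the nonzero ones among `u1, u2`; use
`LD.v_map`/`LD.log`). By `LD.log`, `δ u + m u ∈ D (-m + 1)` for `u = u1, u2` (if `V.v u = -m`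
exactly: `δ u + m u = u (δ u / u + m)`; otherwise `u ∈ D (-m+1)` and `LD.D_map`). Hence
`(α + m) u1 + β u2 ∈ D (-m + 1)` and `γ u1 + (ε + m) u2 ∈ D (-m + 1)` (as `A, B ∈ O`, `-m + 1 ≤ 0`).
By Cramer's rule `((α + m)(ε + m) - β γ) u1 ∈ D (-m + 1)`, the same for `u2`, and the determinant is
a unit by `hdet`. So `u1, u2 ∈ D (-m + 1)`: contradiction. -/
theorem LD.sys_int (h : LD V δ) {α β γ ε A B u1 u2 : F} (hα : V.D 0 α) (hβ : V.D 0 β)
    (hγ : V.D 0 γ) (hε : V.D 0 ε) (hA : V.D 0 A) (hB : V.D 0 B)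
    (hdet : ∀ m : ℕ, 1 ≤ m →
      ¬ V.D 1 ((m : F) ^ 2 + (α + ε) * m + (α * ε - β * γ)))
    (h1 : δ u1 = α * u1 + β * u2 + A) (h2 : δ u2 = γ * u1 + ε * u2 + B) :
    V.D 0 u1 ∧ V.D 0 u2 := by
  -- the induction
  have key : ∀ m : ℕ, V.D (-(m : ℤ)) u1 → V.D (-(m : ℤ)) u2 → V.D 0 u1 ∧ V.D 0 u2 := by
    intro m
    induction m with
    | zero =>
      intro a b
      rw [Nat.cast_zero, neg_zero] at a b
      exact ⟨a, b⟩
    | succ m ih =>
      intro a b
      obtain ⟨M, hM⟩ : ∃ M : ℤ, M = ((m + 1 : ℕ) : ℤ) := ⟨_, rfl⟩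
      have hM1 : 1 ≤ M := by
        rw [hM]
        push_cast
        omega
      rw [← hM] at a b
      have hMF : ((m + 1 : ℕ) : F) = (M : F) := by
        rw [hM, Int.cast_natCast]
      -- `δ u + M u`
      have hu : ∀ u : F, V.D (-M) u → V.D (-M + 1) (δ u + (M : F) * u) := by
        intro u hu
        by_cases hu0 : u = 0
        · rw [hu0, map_zero, mul_zero, add_zero]
          exact DVal.D_zero _
        by_cases hv : V.v u = -M
        · have h3 := h.log hu0
          rw [hv] at h3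
          have h4 : δ u + (M : F) * u = u * (δ u / u - ((-M : ℤ) : F)) := by
            push_cast
            field_simp
            ring
          rw [h4]
          exact DVal.D_mul' hu h3 le_rfl
        · have h3 := (DVal.D_iff hu0).1 hu
          have h4 : V.D (-M + 1) u := Or.inr (by omega)
          exact DVal.D_add (h.D_map h4) (DVal.D_mul' (DVal.D_int (V := V) M) h4 (by omega))
      have hA' : V.D (-M + 1) A := DVal.D_mono (by omega) hA
      have hB' : V.D (-M + 1) B := DVal.D_mono (by omega) hB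
      have e1 : V.D (-M + 1) ((α + (M : F)) * u1 + β * u2) := by
        have h3 := DVal.D_sub (hu u1 a) hA'
        rw [h1] at h3
        have h4 : α * u1 + β * u2 + A + (M : F) * u1 - A = (α + (M : F)) * u1 + β * u2 := by ring
        rwa [h4] at h3
      have e2 : V.D (-M + 1) (γ * u1 + (ε + (M : F)) * u2) := by
        have h3 := DVal.D_sub (hu u2 b) hB'
        rw [h2] at h3
        have h4 : γ * u1 + ε * u2 + B + (M : F) * u2 - B = γ * u1 + (ε + (M : F)) * u2 := by ring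
        rwa [h4] at h3
      have hMD : V.D 0 (M : F) := DVal.D_int M
      have hdt := hdet (m + 1) (by omega)
      rw [hMF] at hdt
      have f1 : V.D (-M + 1) (((M : F) ^ 2 + (α + ε) * (M : F) + (α * ε - β * γ)) * u1) := by
        have h3 := DVal.D_sub (DVal.D_mul' (l := -M + 1) (DVal.D_add hε hMD) e1 (by omega))
          (DVal.D_mul' (l := -M + 1) hβ e2 (by omega))
        have h4 : (ε + (M : F)) * ((α + (M : F)) * u1 + β * u2) -
            β * (γ * u1 + (ε + (M : F)) * u2) =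
            ((M : F) ^ 2 + (α + ε) * (M : F) + (α * ε - β * γ)) * u1 := by ring
        rwa [h4] at h3
      have f2 : V.D (-M + 1) (((M : F) ^ 2 + (α + ε) * (M : F) + (α * ε - β * γ)) * u2) := by
        have h3 := DVal.D_sub (DVal.D_mul' (l := -M + 1) (DVal.D_add hα hMD) e2 (by omega))
          (DVal.D_mul' (l := -M + 1) hγ e1 (by omega))
        have h4 : (α + (M : F)) * (γ * u1 + (ε + (M : F)) * u2) -
            γ * ((α + (M : F)) * u1 + β * u2) =
            ((M : F) ^ 2 + (α + ε) * (M : F) + (α * ε - β * γ)) * u2 := by ring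
        rwa [h4] at h3
      have g1 : V.D (-M + 1) u1 := DVal.D_of_mul (j := 1) hdt (by rwa [add_sub_cancel_left])
      have g2 : V.D (-M + 1) u2 := DVal.D_of_mul (j := 1) hdt (by rwa [add_sub_cancel_left])
      have hMm : -M + 1 = -(m : ℤ) := by
        rw [hM]
        push_cast
        ring
      rw [hMm] at g1 g2
      exact ih g1 g2
  have hex : ∀ u : F, ∀ m : ℕ, (V.v u).natAbs ≤ m → V.D (-(m : ℤ)) u := fun u m hm =>
    Or.inr (by omega)
  exact key (max (V.v u1).natAbs (V.v u2).natAbs) (hex u1 _ (le_max_left _ _))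
    (hex u2 _ (le_max_right _ _))

end Pool.Agent.Lib.MP_3550b5_nt.SV
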