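import Mathlib
import Pool.Agent.Lib.MP_3550b5_nt.SV.Loc

/-!
Project SV, part R: the local exponents of the Riccati equation.
-/

namespace Pool.Agent.Lib.MP_3550b5_nt.SV

open G Polynomial

variable {F : Type*} [Field F] [CharZero F] {V : DVal F} {δ : Derivation ℤ F F}

omit [CharZero F] in
private lemma nm_num (D : Derivation ℤ F F) (n : ℕ) [n.AtLeastTwo] :
    D (OfNat.ofNat n : F) = 0 := by
  rw [← Nat.cast_ofNat]
  exact D.map_natCast n

omit [CharZero F] in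
private lemma nm_mul (D : Derivation ℤ F F) (n : ℕ) [n.AtLeastTwo] (x : F) :
    D ((OfNat.ofNat n : F) * x) = (OfNat.ofNat n : F) * D x := by
  rw [Derivation.leibniz, nm_num, smul_zero, add_zero, smul_eq_mul]

omit [CharZero F] in
private lemma nm_dl (D : Derivation ℤ F F) (a b : F) :
    D (dl a b) = 12 * a ^ 2 * D a + 54 * b * D b := by
  unfold dl
  rw [map_add, nm_mul, nm_mul, Derivation.leibniz_pow, Derivation.leibniz_pow]
  simp only [smul_eq_mul, nsmul_eq_mul]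
  push_cast
  ring

omit [CharZero F] in
private lemma nm_div (D : Derivation ℤ F F) {x y : F} (hy : y ≠ 0) :
    D (x / y) = (y * D x - x * D y) / y ^ 2 := by
  rw [Derivation.leibniz_div]
  simp only [smul_eq_mul]
  field_simp

omit [CharZero F] in
private lemma nm_v {x y : F} (hx : x ≠ 0) (hy : V.D (V.v x + 1) y) :
    x + y ≠ 0 ∧ V.v (x + y) = V.v x := by
  have h1 : ¬ V.D (V.v x + 1) (y + x) := DVal.not_D_add hy (DVal.exists_exact hx).2
  rw [add_comm y x] at h1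
  have h0 := DVal.ne_zero_of_not_D h1
  have h2 : V.D (V.v x) (x + y) := DVal.D_add (DVal.exists_exact hx).1 (DVal.D_mono (by omega) hy)
  rw [DVal.not_D_iff h0] at h1
  rw [DVal.D_iff h0] at h2
  exact ⟨h0, by omega⟩

/-- `a' = 4 g1 a + 6 k1 b`. (`field_simp; ring` after unfolding; `D dl = 12 a^2 a' + 54 b b'`.) -/
lemma D_a (D : Derivation ℤ F F) {a b : F} (hΔ : dl a b ≠ 0) :
    D a = 4 * g1 D a b * a + 6 * k1 D a b * b := by
  unfold g1 k1
  rw [nm_dl]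
  unfold wr
  field_simp
  unfold dl
  ring

/-- `b' = 6 g1 b - (4/3) k1 a^2`. -/
lemma D_b (D : Derivation ℤ F F) {a b : F} (hΔ : dl a b ≠ 0) :
    D b = 6 * g1 D a b * b - 4 / 3 * k1 D a b * a ^ 2 := by
  unfold g1 k1
  rw [nm_dl]
  unfold wr
  field_simp
  unfold dl
  ring

/-- `k1 ≠ 0` implies `a ≠ 0`, `b ≠ 0`. -/
lemma ne_of_k1 (D : Derivation ℤ F F) {a b : F} (hk : k1 D a b ≠ 0) :
    dl a b ≠ 0 ∧ wr D a b ≠ 0 ∧ a ≠ 0 ∧ b ≠ 0 := by
  have h1 : dl a b ≠ 0 := by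
    intro h
    apply hk
    unfold k1
    rw [h, mul_zero, div_zero]
  have h2 : wr D a b ≠ 0 := by
    intro h
    apply hk
    unfold k1
    rw [h, mul_zero, zero_div]
  refine ⟨h1, h2, ?_, ?_⟩
  · rintro rfl
    apply h2
    unfold wr
    rw [map_zero, mul_zero, mul_zero, zero_mul, sub_zero]
  · rintro rfl
    apply h2
    unfold wr
    rw [map_zero, mul_zero, mul_zero, zero_mul, sub_zero]

/-- With `J = a^3 / dl`: `J' / J = 27 b W / (a dl)`, so `W / dl = a (J'/J) / (27 b)`. -/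
lemma wr_eq (D : Derivation ℤ F F) {a b : F} (hk : k1 D a b ≠ 0) :
    wr D a b / dl a b = a * (D (a ^ 3 / dl a b) / (a ^ 3 / dl a b)) / (27 * b) ∧
      D (a ^ 3 / dl a b) ≠ 0 := by
  obtain ⟨h1, h2, ha, hb⟩ := ne_of_k1 D hk
  have h3 : D (a ^ 3 / dl a b) = 27 * a ^ 2 * b * wr D a b / dl a b ^ 2 := by
    rw [nm_div D h1, nm_dl, Derivation.leibniz_pow]
    simp only [smul_eq_mul, nsmul_eq_mul]
    congr 1
    unfold wr dl
    push_cast
    ring
  rw [h3]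
  constructor
  · field_simp
  · have h27 : (27 : F) ≠ 0 := by norm_num
    exact div_ne_zero (mul_ne_zero (mul_ne_zero (mul_ne_zero h27 (pow_ne_zero 2 ha)) hb) h2)
      (pow_ne_zero 2 h1)

/-- The derivation `h D`: `k1`, `g1`, `om` are multiplied by `h`. -/
lemma k1_smul (D : Derivation ℤ F F) (h a b : F) : k1 (h • D) a b = h * k1 D a b := by
  unfold k1 wr
  simp only [Derivation.smul_apply, smul_eq_mul]
  ring

lemma g1_smul (D : Derivation ℤ F F) (h a b : F) : g1 (h • D) a b = h * g1 D a b := by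
  unfold g1
  simp only [Derivation.smul_apply, smul_eq_mul]
  ring

lemma om_smul (D : Derivation ℤ F F) (h a b x y : F) :
    om (h • D) a b x y = h * om D a b x y := by
  unfold om
  rw [k1_smul, g1_smul]
  simp only [Derivation.smul_apply, smul_eq_mul]
  ring

/-- LEMMA R2. Notation `k = k1`, `g = g1`, `J = a^3/dl`, `1 - 4 J = 27 b^2 / dl`,
`nu = 2 g + δ k / k = δ W / W - (5/6) δ dl / dl` and `mu = k^2 a / 3 = (1/36) (J/(1-4J)) (δJ/J)^2`
(from `wr_eq` and `a^3 / b^2 = 27 J / (1-4J)`). By `LD.log`, `nu = v(W) - (5/6) v(dl)` mod `m` and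
`v(W) = v(dl) + v(a) - v(b) + v(δ J / J)`.
(i) `v(J) = -n < 0`: `v(1-4J) = -n`, `J/(1-4J) = -1/4` mod `m` and `δ J / J = -n` mod `m`, so
`mu = - n^2/144`; `3 v(a) = 2 v(b) = v(dl) - n`, `v(δ J/J) = 0`, so `nu = n/6`. Take
`r1 = r2 = n/12`.
(ii) `v(J) = k > 0`: `v(1-4J) = 0`, `mu ∈ m`; `3 v(a) = v(dl) + k`, `2 v(b) = v(dl)`, `nu = k/3`.
`r1 = 0`, `r2 = k/3`.
(iii) `v(J) = 0`, `v(1-4J) = k > 0`: `δ J = -δ(1-4J)/4` has valuation `k` (`LD.v_map`), so
`v(mu) = -k + 2k > 0`; `3 v(a) = v(dl)`, `2 v(b) = v(dl) + k`, `v(δJ/J) = k`: `nu = k/2`.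
(iv) `v(J) = v(1-4J) = 0`: `l = v(δ J) ≥ 1` (`δ J ≠ 0`, `LD.int`), `v(mu) = 2 l`, `nu = l`. -/
theorem LD.nu_mu (h : LD V δ) {a b : F} (hk : k1 δ a b ≠ 0) :
    ∃ r1 r2 : ℚ, 0 ≤ r1 ∧ 0 ≤ r2 ∧
      V.D 1 (2 * g1 δ a b + δ (k1 δ a b) / k1 δ a b - ((r1 + r2 : ℚ) : F)) ∧
      V.D 1 (k1 δ a b ^ 2 * a / 3 + ((r1 * r2 : ℚ) : F)) ∧
      (V.v (a ^ 3 / dl a b) < 0 → 0 < r1 ∧ 0 < r2) := by
  obtain ⟨hd, hW, ha, hb⟩ := ne_of_k1 δ hk
  obtain ⟨hw, hJ'⟩ := wr_eq δ hk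
  have hJ0 : a ^ 3 / dl a b ≠ 0 := div_ne_zero (pow_ne_zero 3 ha) hd
  have hvn : ∀ (n : ℕ), n ≠ 0 → V.v (n : F) = 0 := fun n hn => by
    have := h.v_rat (q := (n : ℚ)) (Nat.cast_ne_zero.2 hn)
    rwa [Rat.cast_natCast] at this
  have h4 : V.v (4 : F) = 0 := by simpa using hvn 4 (by norm_num)
  have h27 : V.v (27 : F) = 0 := by simpa using hvn 27 (by norm_num)
  have h36 : V.v (36 : F) = 0 := by simpa using hvn 36 (by norm_num)
  have h40 : (4 : F) ≠ 0 := by norm_num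
  have h270 : (27 : F) ≠ 0 := by norm_num
  have h360 : (36 : F) ≠ 0 := by norm_num
  have hE : 27 * b ^ 2 / dl a b = 1 + -(4 * (a ^ 3 / dl a b)) := by
    rw [eq_comm, eq_div_iff hd]
    unfold dl at hd ⊢
    field_simp
    ring
  have hE0 : 27 * b ^ 2 / dl a b ≠ 0 := div_ne_zero (mul_ne_zero h270 (pow_ne_zero 2 hb)) hd
  -- the valuations
  have vJ : V.v (a ^ 3 / dl a b) = 3 * V.v a - V.v (dl a b) := by
    rw [DVal.v_div (pow_ne_zero 3 ha) hd, DVal.v_pow ha]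
    norm_num
  have vE : V.v (27 * b ^ 2 / dl a b) = 2 * V.v b - V.v (dl a b) := by
    rw [DVal.v_div (mul_ne_zero h270 (pow_ne_zero 2 hb)) hd,
      V.map_mul h270 (pow_ne_zero 2 hb), DVal.v_pow hb, h27]
    norm_num
  have hWe : wr δ a b = dl a b * (a * (δ (a ^ 3 / dl a b) / (a ^ 3 / dl a b)) / (27 * b)) := by
    rw [← hw]
    field_simp
  have hq0 : δ (a ^ 3 / dl a b) / (a ^ 3 / dl a b) ≠ 0 := div_ne_zero hJ' hJ0
  have vW : V.v (wr δ a b) = V.v (dl a b) + V.v a + V.v (δ (a ^ 3 / dl a b)) -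
      V.v (a ^ 3 / dl a b) - V.v b := by
    rw [hWe, V.map_mul hd (div_ne_zero (mul_ne_zero ha hq0) (mul_ne_zero h270 hb)),
      DVal.v_div (mul_ne_zero ha hq0) (mul_ne_zero h270 hb), V.map_mul ha hq0,
      DVal.v_div hJ' hJ0, V.map_mul h270 hb, h27]
    ring
  -- nu
  have hnu : V.D 1 (2 * g1 δ a b + δ (k1 δ a b) / k1 δ a b -
      (((V.v (wr δ a b) : ℚ) - 5 / 6 * (V.v (dl a b) : ℚ) : ℚ) : F)) := by
    have e1 := h.log hW
    have e2 := DVal.D_mul (h.D_rat (5 / 6)) (h.log hd)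
    have e3 := DVal.D_sub e1 e2
    have e4 : δ (k1 δ a b) / k1 δ a b = δ (wr δ a b) / wr δ a b - δ (dl a b) / dl a b := by
      unfold k1
      rw [nm_div δ (mul_ne_zero two_ne_zero hd), nm_mul, nm_mul]
      field_simp
    have e5 : 2 * g1 δ a b + δ (k1 δ a b) / k1 δ a b -
        (((V.v (wr δ a b) : ℚ) - 5 / 6 * (V.v (dl a b) : ℚ) : ℚ) : F) =
        δ (wr δ a b) / wr δ a b - ((V.v (wr δ a b) : ℤ) : F) -
          ((5 / 6 : ℚ) : F) * (δ (dl a b) / dl a b - ((V.v (dl a b) : ℤ) : F)) := by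
      rw [e4]
      unfold g1
      push_cast
      field_simp
      ring
    rw [e5]
    exact e3
  -- mu
  have hmu : k1 δ a b ^ 2 * a / 3 = 1 / 36 * ((a ^ 3 / dl a b) / (27 * b ^ 2 / dl a b)) *
      (δ (a ^ 3 / dl a b) / (a ^ 3 / dl a b)) ^ 2 := by
    have e1 : k1 δ a b = 3 / 2 * (wr δ a b / dl a b) := by
      unfold k1
      field_simp
    rw [e1, hw]
    field_simp
    ring
  have hlogJ := h.log hJ0
  have h36D : V.D 0 (1 / 36 : F) := by
    refine Or.inr ?_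
    rw [DVal.v_div one_ne_zero h360, DVal.v_one, h36]
    norm_num
  have vmu : V.v (k1 δ a b ^ 2 * a / 3) = V.v (a ^ 3 / dl a b) - V.v (27 * b ^ 2 / dl a b) +
      2 * (V.v (δ (a ^ 3 / dl a b)) - V.v (a ^ 3 / dl a b)) := by
    rw [hmu, V.map_mul (mul_ne_zero (div_ne_zero one_ne_zero h360) (div_ne_zero hJ0 hE0))
      (pow_ne_zero 2 hq0), V.map_mul (div_ne_zero one_ne_zero h360) (div_ne_zero hJ0 hE0),
      DVal.v_pow hq0, DVal.v_div hJ' hJ0, DVal.v_div hJ0 hE0, DVal.v_div one_ne_zero h360,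
      DVal.v_one, h36]
    push_cast
    ring
  have h4J : V.v (-(4 * (a ^ 3 / dl a b))) = V.v (a ^ 3 / dl a b) := by
    rw [DVal.v_neg, V.map_mul h40 hJ0, h4, zero_add]
  have h4J0 : -(4 * (a ^ 3 / dl a b)) ≠ 0 := neg_ne_zero.2 (mul_ne_zero h40 hJ0)
  rcases lt_trichotomy (V.v (a ^ 3 / dl a b)) 0 with hj | hj | hj
  · -- (i)
    have vE1 : V.v (27 * b ^ 2 / dl a b) = V.v (a ^ 3 / dl a b) := by
      rw [hE, add_comm, (nm_v h4J0 (Or.inr (by rw [h4J, DVal.v_one]; omega))).2, h4J]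
    have vd := (h.v_map hJ0 hj.ne).2
    have hn : (0 : ℚ) < -((V.v (a ^ 3 / dl a b) : ℤ) : ℚ) / 12 := by
      have : ((V.v (a ^ 3 / dl a b) : ℤ) : ℚ) < 0 := by exact_mod_cast hj
      linarith
    refine ⟨-((V.v (a ^ 3 / dl a b) : ℤ) : ℚ) / 12, -((V.v (a ^ 3 / dl a b) : ℤ) : ℚ) / 12,
      hn.le, hn.le, ?_, ?_, fun _ => ⟨hn, hn⟩⟩
    · have e1 : (-((V.v (a ^ 3 / dl a b) : ℤ) : ℚ) / 12 + -((V.v (a ^ 3 / dl a b) : ℤ) : ℚ) / 12) =
          (V.v (wr δ a b) : ℚ) - 5 / 6 * (V.v (dl a b) : ℚ) := by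
        have c1 : (3 : ℚ) * V.v a - V.v (dl a b) = V.v (a ^ 3 / dl a b) := by
          exact_mod_cast vJ.symm
        have c2 : (2 : ℚ) * V.v b - V.v (dl a b) = V.v (a ^ 3 / dl a b) := by
          rw [← vE1]; exact_mod_cast vE.symm
        have c3 : (V.v (wr δ a b) : ℚ) = V.v (dl a b) + V.v a + V.v (a ^ 3 / dl a b) -
            V.v (a ^ 3 / dl a b) - V.v b := by
          rw [vd] at vW
          exact_mod_cast vW
        rw [c3]
        linarith
      rw [e1]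
      exact hnu
    · -- mu
      have f1 : V.D 1 ((a ^ 3 / dl a b) / (27 * b ^ 2 / dl a b) + 1 / 4) := by
        have : (a ^ 3 / dl a b) / (27 * b ^ 2 / dl a b) + 1 / 4 =
            1 / (4 * (27 * b ^ 2 / dl a b)) := by
          have hE' := hE
          rw [div_add_div _ _ hE0 h40, div_eq_div_iff (mul_ne_zero hE0 h40)
            (mul_ne_zero h40 hE0)]
          rw [hE]
          ring
        rw [this]
        refine Or.inr ?_
        rw [DVal.v_div one_ne_zero (mul_ne_zero h40 hE0), DVal.v_one, V.map_mul h40 hE0, h4, vE1]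
        omega
      have f2 : V.D 0 (δ (a ^ 3 / dl a b) / (a ^ 3 / dl a b)) := by
        refine Or.inr ?_
        rw [DVal.v_div hJ' hJ0, vd, sub_self]
      have f3 : V.D 0 ((V.v (a ^ 3 / dl a b) : ℤ) : F) := DVal.D_int _
      have f4 : V.D 1 ((δ (a ^ 3 / dl a b) / (a ^ 3 / dl a b)) ^ 2 -
          ((V.v (a ^ 3 / dl a b) : ℤ) : F) ^ 2) := by
        rw [sq_sub_sq, mul_comm]
        exact DVal.D_mul' hlogJ (DVal.D_add f2 f3) (by norm_num)
      have f5 : V.D 1 (1 / 36 * (((a ^ 3 / dl a b) / (27 * b ^ 2 / dl a b) + 1 / 4) *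
          (δ (a ^ 3 / dl a b) / (a ^ 3 / dl a b)) ^ 2 - 1 / 4 *
          ((δ (a ^ 3 / dl a b) / (a ^ 3 / dl a b)) ^ 2 -
          ((V.v (a ^ 3 / dl a b) : ℤ) : F) ^ 2))) := by
        have h14 : V.D 0 (1 / 4 : F) := by
          refine Or.inr ?_
          rw [DVal.v_div one_ne_zero h40, DVal.v_one, h4]
          norm_num
        have g1 : V.D 0 ((δ (a ^ 3 / dl a b) / (a ^ 3 / dl a b)) ^ 2) :=
          DVal.D_pow' f2 2 (by norm_num)
        have g2 := DVal.D_mul' (l := 1) f1 g1 (by norm_num)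
        have g3 := DVal.D_mul' (l := 1) h14 f4 (by norm_num)
        exact DVal.D_mul' h36D (DVal.D_sub g2 g3) (by norm_num)
      rw [hmu]
      have f6 : 1 / 36 * ((a ^ 3 / dl a b) / (27 * b ^ 2 / dl a b)) *
          (δ (a ^ 3 / dl a b) / (a ^ 3 / dl a b)) ^ 2 +
          ((-((V.v (a ^ 3 / dl a b) : ℤ) : ℚ) / 12 * (-((V.v (a ^ 3 / dl a b) : ℤ) : ℚ) / 12) : ℚ) : F)
          = 1 / 36 * (((a ^ 3 / dl a b) / (27 * b ^ 2 / dl a b) + 1 / 4) *
          (δ (a ^ 3 / dl a b) / (a ^ 3 / dl a b)) ^ 2 - 1 / 4 *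
          ((δ (a ^ 3 / dl a b) / (a ^ 3 / dl a b)) ^ 2 -
          ((V.v (a ^ 3 / dl a b) : ℤ) : F) ^ 2)) := by
        push_cast
        ring
      rw [f6]
      exact f5
  · -- (iii), (iv)
    have hE1 : V.D 0 (27 * b ^ 2 / dl a b) := by
      rw [hE]
      exact DVal.D_add DVal.D_one (Or.inr (by rw [h4J, hj]))
    rw [DVal.D_iff hE0] at hE1
    have hdj : 0 < V.v (δ (a ^ 3 / dl a b)) := by
      have := h.int _ (Or.inr hj.ge : V.D 0 (a ^ 3 / dl a b))
      rw [DVal.D_iff hJ'] at this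
      omega
    rcases hE1.lt_or_eq with hk1 | hk0
    · -- (iii)
      have hδE : δ (27 * b ^ 2 / dl a b) = -(4 * δ (a ^ 3 / dl a b)) := by
        rw [hE, map_add, map_neg, nm_mul, Derivation.map_one_eq_zero, zero_add]
      have vd : V.v (δ (a ^ 3 / dl a b)) = V.v (27 * b ^ 2 / dl a b) := by
        rw [← (h.v_map hE0 hk1.ne').2, hδE, DVal.v_neg, V.map_mul h40 hJ', h4, zero_add]
      have hn : (0 : ℚ) ≤ ((V.v (27 * b ^ 2 / dl a b) : ℤ) : ℚ) / 2 := by
        have : (0 : ℚ) < ((V.v (27 * b ^ 2 / dl a b) : ℤ) : ℚ) := by exact_mod_cast hk1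
        linarith
      refine ⟨0, ((V.v (27 * b ^ 2 / dl a b) : ℤ) : ℚ) / 2, le_rfl, hn, ?_, ?_, fun hlt => ?_⟩
      · have e1 : (0 + ((V.v (27 * b ^ 2 / dl a b) : ℤ) : ℚ) / 2) =
            (V.v (wr δ a b) : ℚ) - 5 / 6 * (V.v (dl a b) : ℚ) := by
          have c1 : (3 : ℚ) * V.v a - V.v (dl a b) = 0 := by
            rw [hj] at vJ
            exact_mod_cast vJ.symm
          have c2 : (2 : ℚ) * V.v b - V.v (dl a b) = V.v (27 * b ^ 2 / dl a b) := by
            exact_mod_cast vE.symm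
          have c3 : (V.v (wr δ a b) : ℚ) = V.v (dl a b) + V.v a + V.v (27 * b ^ 2 / dl a b) -
              0 - V.v b := by
            rw [vd, hj] at vW
            exact_mod_cast vW
          rw [c3]
          linarith
        rw [e1]
        exact hnu
      · rw [zero_mul, Rat.cast_zero, add_zero]
        refine Or.inr ?_
        rw [vmu, vd, hj]
        omega
      · exact absurd hlt (by rw [hj]; exact lt_irrefl _)
    · -- (iv)
      have hn : (0 : ℚ) ≤ ((V.v (δ (a ^ 3 / dl a b)) : ℤ) : ℚ) := by exact_mod_cast hdj.le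
      refine ⟨0, ((V.v (δ (a ^ 3 / dl a b)) : ℤ) : ℚ), le_rfl, hn, ?_, ?_, fun hlt => ?_⟩
      · have e1 : (0 + ((V.v (δ (a ^ 3 / dl a b)) : ℤ) : ℚ)) =
            (V.v (wr δ a b) : ℚ) - 5 / 6 * (V.v (dl a b) : ℚ) := by
          have c1 : (3 : ℚ) * V.v a - V.v (dl a b) = 0 := by
            rw [hj] at vJ
            exact_mod_cast vJ.symm
          have c2 : (2 : ℚ) * V.v b - V.v (dl a b) = 0 := by
            rw [← hk0] at vE
            exact_mod_cast vE.symm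
          have c3 : (V.v (wr δ a b) : ℚ) = V.v (dl a b) + V.v a + V.v (δ (a ^ 3 / dl a b)) -
              0 - V.v b := by
            rw [hj] at vW
            exact_mod_cast vW
          rw [c3]
          linarith
        rw [e1]
        exact hnu
      · rw [zero_mul, Rat.cast_zero, add_zero]
        refine Or.inr ?_
        rw [vmu, hj, ← hk0]
        omega
      · exact absurd hlt (by rw [hj]; exact lt_irrefl _)
  · -- (ii)
    have vE1 : V.v (27 * b ^ 2 / dl a b) = 0 := by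
      rw [hE, (nm_v one_ne_zero (Or.inr (by rw [h4J, DVal.v_one]; omega))).2, DVal.v_one]
    have vd := (h.v_map hJ0 hj.ne').2
    have hn : (0 : ℚ) ≤ ((V.v (a ^ 3 / dl a b) : ℤ) : ℚ) / 3 := by
      have : (0 : ℚ) < ((V.v (a ^ 3 / dl a b) : ℤ) : ℚ) := by exact_mod_cast hj
      linarith
    refine ⟨0, ((V.v (a ^ 3 / dl a b) : ℤ) : ℚ) / 3, le_rfl, hn, ?_, ?_, fun hlt => ?_⟩
    · have e1 : (0 + ((V.v (a ^ 3 / dl a b) : ℤ) : ℚ) / 3) =
          (V.v (wr δ a b) : ℚ) - 5 / 6 * (V.v (dl a b) : ℚ) := by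
        have c1 : (3 : ℚ) * V.v a - V.v (dl a b) = V.v (a ^ 3 / dl a b) := by
          exact_mod_cast vJ.symm
        have c2 : (2 : ℚ) * V.v b - V.v (dl a b) = 0 := by
          rw [vE1] at vE
          exact_mod_cast vE.symm
        have c3 : (V.v (wr δ a b) : ℚ) = V.v (dl a b) + V.v a + V.v (a ^ 3 / dl a b) -
            V.v (a ^ 3 / dl a b) - V.v b := by
          rw [vd] at vW
          exact_mod_cast vW
        rw [c3]
        linarith
      rw [e1]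
      exact hnu
    · rw [zero_mul, Rat.cast_zero, add_zero]
      refine Or.inr ?_
      rw [vmu, vd, vE1]
      omega
    · exact absurd hlt (not_lt.2 hj.le)

end Pool.Agent.Lib.MP_3550b5_nt.SV
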