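import Mathlib
import Pool.Agent.Lib.MP_3550b5_nt.SV.NuMu

/-!
Project SV, part M: the reduction types. `k1`, `g1` are taken for the local derivation `δ`.
-/

namespace Pool.Agent.Lib.MP_3550b5_nt.SV

open G

variable {F : Type*} [Field F] [CharZero F] {V : DVal F} {δ : Derivation ℤ F F} {a b : F}

/-- A minimal integral local curve `y^2 = x^3 + a x + b` with nonconstant `j`. -/
structure LC (V : DVal F) (δ : Derivation ℤ F F) (a b : F) : Prop where
  ld : LD V δ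
  ha : V.D 0 a
  hb : V.D 0 b
  hmin : ¬ (V.D 4 a ∧ V.D 6 b)
  hk : k1 δ a b ≠ 0

omit [CharZero F] in
private lemma D1_mul {x y : F} (hx : V.D 0 x) (hy : V.D 1 y) : V.D 1 (x * y) :=
  DVal.D_mul' hx hy (by norm_num)

omit [CharZero F] in
private lemma D0_mul {x y : F} (hx : V.D 0 x) (hy : V.D 0 y) : V.D 0 (x * y) :=
  DVal.D_mul' hx hy (by norm_num)

omit [CharZero F] in
private lemma D0_inv {x : F} (hx : ¬ V.D 1 x) : V.D 0 x⁻¹ := by
  have h0 := DVal.ne_zero_of_not_D hx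
  rw [DVal.not_D_iff h0] at hx
  rw [DVal.D_iff (inv_ne_zero h0), DVal.v_inv h0]
  omega

omit [CharZero F] in
private lemma nD1_mul {x y : F} (hx : ¬ V.D 1 x) (hy : ¬ V.D 1 y) : ¬ V.D 1 (x * y) := by
  have := DVal.not_D_mul hx hy
  simpa using this

omit [CharZero F] in
private lemma nD1_inv {x : F} (h0 : x ≠ 0) (hx : V.D 0 x) : ¬ V.D 1 x⁻¹ := by
  rw [DVal.D_iff h0] at hx
  rw [DVal.not_D_iff (inv_ne_zero h0), DVal.v_inv h0]
  omega

/-- `g1 = v(dl)/12` modulo `m` (`LD.log`). -/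
lemma LC.g1_eq (h : LC V δ a b) :
    V.D 1 (g1 δ a b - (((V.v (dl a b) : ℚ) / 12 : ℚ) : F)) := by
  obtain ⟨hd, -, -, -⟩ := ne_of_k1 δ h.hk
  have e : g1 δ a b - (((V.v (dl a b) : ℚ) / 12 : ℚ) : F)
      = ((1 / 12 : ℚ) : F) * (δ (dl a b) / dl a b - ((V.v (dl a b) : ℤ) : F)) := by
    unfold g1
    push_cast
    field_simp
  rw [e]
  exact D1_mul (h.ld.D_rat _) (h.ld.log hd)

omit [CharZero F] in
private lemma LC.dl_int (h : LC V δ a b) : V.D 0 (dl a b) := by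
  unfold dl
  exact DVal.D_add (D0_mul (DVal.D_ofNat 4) (DVal.D_pow' h.ha 3 (by norm_num)))
    (D0_mul (DVal.D_ofNat 27) (DVal.D_pow' h.hb 2 (by norm_num)))

/-- GOOD REDUCTION. `W = 3 b δa - 2 a δb ∈ m`, `δ dl ∈ m`, `dl` a unit. -/
theorem LC.good (h : LC V δ a b) (hv : V.v (dl a b) = 0) :
    V.D 1 (k1 δ a b) ∧ V.D 1 (g1 δ a b) := by
  obtain ⟨hd, -, -, -⟩ := ne_of_k1 δ h.hk
  have hinv : V.D 0 (dl a b)⁻¹ := by
    rw [DVal.D_iff (inv_ne_zero hd), DVal.v_inv hd, hv]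
    norm_num
  have hw : V.D 1 (wr δ a b) := by
    unfold wr
    exact DVal.D_sub (D1_mul (D0_mul (DVal.D_ofNat 3) h.hb) (h.ld.int _ h.ha))
      (D1_mul (D0_mul (DVal.D_ofNat 2) h.ha) (h.ld.int _ h.hb))
  constructor
  · have e : k1 δ a b = (((3 / 2 : ℚ) : F) * (dl a b)⁻¹) * wr δ a b := by
      unfold k1
      push_cast
      field_simp
    rw [e]
    exact D1_mul (D0_mul (h.ld.D_rat _) hinv) hw
  · have := h.g1_eq
    rw [hv] at this
    simpa using this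

/-- MULTIPLICATIVE REDUCTION. `a`, `b` are units (`a ∈ m` and `dl ∈ m` imply `b ∈ m`).
`n = v(dl) > 0` (`dl ∈ O`), `J = a^3/dl` has valuation `-n`, `k1 = a (δJ/J) / (18 b)` (`wr_eq`) is a
unit, `= - n a / (18 b)` mod `m`, `g1 = n/12` mod `m`. So `s = g1/k1 = - (3/2) b/a` mod `m`;
`a + 3 s^2 = dl / (4 a^2)` and `b - 2 s^3 = b dl / (4 a^3)` mod `m`, in `m`. Last:
`g1^2 + k1^2 a/3 = k1^2 (a + 3 s^2)/3`. -/
theorem LC.mult (h : LC V δ a b) (hs : ¬ (V.D 1 a ∧ V.D 1 b)) (hv : V.v (dl a b) ≠ 0) :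
    V.D 0 (k1 δ a b) ∧ ¬ V.D 1 (k1 δ a b) ∧ V.D 0 (g1 δ a b) ∧
      V.D 0 (g1 δ a b / k1 δ a b) ∧ V.D 1 (a + 3 * (g1 δ a b / k1 δ a b) ^ 2) ∧
      V.D 1 (b - 2 * (g1 δ a b / k1 δ a b) ^ 3) ∧
      V.D 1 (g1 δ a b ^ 2 + k1 δ a b ^ 2 * a / 3) := by
  obtain ⟨hd, -, ha0, hb0⟩ := ne_of_k1 δ h.hk
  have hvd : 0 ≤ V.v (dl a b) := (DVal.D_iff hd).1 h.dl_int
  have hdm : V.D 1 (dl a b) := (DVal.D_iff hd).2 (by omega)
  -- `a` and `b` are units
  have key1 : V.D 1 a → V.D 1 b := by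
    intro h1
    have e : b ^ 2 = ((1 / 27 : ℚ) : F) * (dl a b - 4 * a ^ 3) := by
      unfold dl
      push_cast
      ring
    have : V.D 1 (b ^ 2) := by
      rw [e]
      exact D1_mul (h.ld.D_rat _) (DVal.D_sub hdm
        (D1_mul (DVal.D_ofNat 4) (DVal.D_pow' h1 3 (by norm_num))))
    exact DVal.D_sq (by simpa using this)
  have key2 : V.D 1 b → V.D 1 a := by
    intro h1
    have e : a ^ 3 = ((1 / 4 : ℚ) : F) * (dl a b - 27 * b ^ 2) := by
      unfold dl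
      push_cast
      ring
    have h3 : V.D 1 (a ^ 3) := by
      rw [e]
      exact D1_mul (h.ld.D_rat _) (DVal.D_sub hdm
        (D1_mul (DVal.D_ofNat 27) (DVal.D_pow' h1 2 (by norm_num))))
    rw [DVal.D_iff (pow_ne_zero 3 ha0), DVal.v_pow ha0] at h3
    push_cast at h3
    rw [DVal.D_iff ha0]
    omega
  have hna : ¬ V.D 1 a := fun h1 => hs ⟨h1, key1 h1⟩
  have hnb : ¬ V.D 1 b := fun h1 => hs ⟨key2 h1, h1⟩
  have hva : V.v a = 0 := by
    have h1 := (DVal.D_iff ha0).1 h.ha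
    have h2 := (DVal.not_D_iff ha0).1 hna
    omega
  -- the logarithmic derivative of `J`
  set n : ℤ := V.v (dl a b) with hn
  set J : F := a ^ 3 / dl a b with hJ
  have hJ0 : J ≠ 0 := div_ne_zero (pow_ne_zero 3 ha0) hd
  have hvJ : V.v J = -n := by
    rw [hJ, DVal.v_div (pow_ne_zero 3 ha0) hd, DVal.v_pow ha0, hva, hn]
    push_cast
    ring
  set L : F := δ J / J with hL
  have hLn : V.D 1 (L + (n : F)) := by
    have := h.ld.log hJ0
    rw [hvJ, Int.cast_neg, sub_neg_eq_add] at this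
    exact this
  have hnn : ¬ V.D 1 (n : F) := h.ld.nat n hv
  have hL0 : V.D 0 L := by
    have := DVal.D_sub (DVal.D_mono (by norm_num) hLn) (DVal.D_int (V := V) n)
    simpa using this
  have hL1 : ¬ V.D 1 L := by
    intro h1
    apply hnn
    have := DVal.D_sub hLn h1
    simpa using this
  have hk : k1 δ a b = ((1 / 18 : ℚ) : F) * (a * L * b⁻¹) := by
    have e : k1 δ a b = ((3 / 2 : ℚ) : F) * (wr δ a b / dl a b) := by
      unfold k1
      push_cast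
      field_simp
    have hw : wr δ a b / dl a b = a * L / (27 * b) := (wr_eq δ h.hk).1
    rw [e, hw]
    push_cast
    field_simp
    ring
  have h18 : ¬ V.D 1 (((1 / 18 : ℚ) : F)) := by
    intro h1
    have := h.ld.rat_eq_zero h1
    norm_num at this
  have hk0 : V.D 0 (k1 δ a b) := by
    rw [hk]
    exact D0_mul (h.ld.D_rat _) (D0_mul (D0_mul h.ha hL0) (D0_inv hnb))
  have hk1 : ¬ V.D 1 (k1 δ a b) := by
    rw [hk]
    exact nD1_mul h18 (nD1_mul (nD1_mul hna hL1) (nD1_inv hb0 h.hb))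
  have hg := h.g1_eq
  have hg0 : V.D 0 (g1 δ a b) := by
    have := DVal.D_add (DVal.D_mono (by norm_num : (0 : ℤ) ≤ 1) hg)
      (h.ld.D_rat (((V.v (dl a b) : ℚ) / 12 : ℚ)))
    simpa using this
  have hs0 : V.D 0 (g1 δ a b / k1 δ a b) := by
    rw [div_eq_mul_inv]
    exact D0_mul hg0 (D0_inv hk1)
  set g := g1 δ a b with hgdef
  set k := k1 δ a b with hkdef
  have hkne : k ≠ 0 := h.hk
  set s := g / k with hsdef
  set s0 : F := -(((3 / 2 : ℚ) : F) * (b * a⁻¹)) with hs0def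
  have hs00 : V.D 0 s0 := DVal.D_neg (D0_mul (h.ld.D_rat _) (D0_mul h.hb (D0_inv hna)))
  have he : V.D 1 (s - s0) := by
    have e : s - s0 = k⁻¹ * ((g - (((n : ℚ) / 12 : ℚ) : F)) +
        ((1 / 12 : ℚ) : F) * (L + (n : F))) := by
      have e2 : s - s0 = k⁻¹ * (g + ((3 / 2 : ℚ) : F) * (b * a⁻¹) * k) := by
        rw [hsdef, hs0def]
        field_simp
        ring
      rw [e2]
      congr 1
      rw [hk]
      push_cast
      field_simp
      ring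
    rw [e]
    exact D1_mul (D0_inv hk1) (DVal.D_add hg (D1_mul (h.ld.D_rat _) hLn))
  have hA : V.D 1 (a + 3 * s ^ 2) := by
    have e : a + 3 * s ^ 2 = ((1 / 4 : ℚ) : F) * (a⁻¹ ^ 2) * dl a b
        + 3 * (s + s0) * (s - s0) := by
      have e3 : a + 3 * s0 ^ 2 = ((1 / 4 : ℚ) : F) * (a⁻¹ ^ 2) * dl a b := by
        rw [hs0def]
        unfold dl
        push_cast
        field_simp
        ring
      rw [← e3]
      ring
    rw [e]
    exact DVal.D_add (D1_mul (D0_mul (h.ld.D_rat _)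
        (DVal.D_pow' (D0_inv hna) 2 (by norm_num))) hdm)
      (D1_mul (D0_mul (DVal.D_ofNat 3) (DVal.D_add hs0 hs00)) he)
  have hB : V.D 1 (b - 2 * s ^ 3) := by
    have e : b - 2 * s ^ 3 = ((1 / 4 : ℚ) : F) * (b * a⁻¹ ^ 3) * dl a b
        - 2 * (s ^ 2 + s * s0 + s0 ^ 2) * (s - s0) := by
      have e3 : b - 2 * s0 ^ 3 = ((1 / 4 : ℚ) : F) * (b * a⁻¹ ^ 3) * dl a b := by
        rw [hs0def]
        unfold dl
        push_cast
        field_simp
        ring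
      rw [← e3]
      ring
    rw [e]
    exact DVal.D_sub (D1_mul (D0_mul (h.ld.D_rat _)
        (D0_mul h.hb (DVal.D_pow' (D0_inv hna) 3 (by norm_num)))) hdm)
      (D1_mul (D0_mul (DVal.D_ofNat 2) (DVal.D_add (DVal.D_add
        (DVal.D_pow' hs0 2 (by norm_num)) (D0_mul hs0 hs00))
        (DVal.D_pow' hs00 2 (by norm_num)))) he)
  refine ⟨hk0, hk1, hg0, hs0, hA, hB, ?_⟩
  have e : g ^ 2 + k ^ 2 * a / 3 = ((1 / 3 : ℚ) : F) * k ^ 2 * (a + 3 * s ^ 2) := by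
    rw [hsdef]
    push_cast
    field_simp
    ring
  rw [e]
  exact D1_mul (D0_mul (h.ld.D_rat _) (DVal.D_pow' hk0 2 (by norm_num))) hA

/-- The valuations in the additive case. -/
private lemma LC.add_val (h : LC V δ a b) (ha1 : V.D 1 a) (hb1 : V.D 1 b) :
    V.v (k1 δ a b) + V.v a ≥ 1 ∧ V.v (k1 δ a b) + V.v b ≥ 1 ∧ -1 ≤ V.v (k1 δ a b) ∧
      ((1 ≤ 2 * V.v (k1 δ a b) + V.v a ∧ 0 < V.v (dl a b) ∧ V.v (dl a b) < 12) ∨
        (V.v (k1 δ a b) = -1 ∧ ∃ n : ℕ, 1 ≤ n ∧ V.v (dl a b) = 6 + n ∧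
          V.v (a ^ 3 / dl a b) = -n ∧ V.v (1 - 4 * (a ^ 3 / dl a b)) = -n ∧
          V.v (δ (a ^ 3 / dl a b) / (a ^ 3 / dl a b)) = 0)) := by
  obtain ⟨hΔ, hwr, ha0, hb0⟩ := ne_of_k1 δ h.hk
  obtain ⟨hweq, hδJ⟩ := wr_eq δ h.hk
  have h27 : V.v (27 : F) = 0 := by
    have h1 := h.ld.v_rat (q := 27) (by norm_num)
    rwa [Rat.cast_ofNat] at h1
  have h18 : V.v (18 : F) = 0 := by
    have h1 := h.ld.v_rat (q := 18) (by norm_num)
    rwa [Rat.cast_ofNat] at h1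
  have h4 : V.v (4 : F) = 0 := by
    have h1 := h.ld.v_rat (q := 4) (by norm_num)
    rwa [Rat.cast_ofNat] at h1
  have h27' : (27 : F) ≠ 0 := by norm_num
  have h18' : (18 : F) ≠ 0 := by norm_num
  have h4' : (4 : F) ≠ 0 := by norm_num
  obtain ⟨J, hJ⟩ : ∃ J, J = a ^ 3 / dl a b := ⟨_, rfl⟩
  rw [← hJ] at hweq hδJ ⊢
  have hJ0 : J ≠ 0 := by
    rw [hJ]
    exact div_ne_zero (pow_ne_zero 3 ha0) hΔ
  have hJv : V.v J = 3 * V.v a - V.v (dl a b) := by
    rw [hJ, DVal.v_div (pow_ne_zero 3 ha0) hΔ, DVal.v_pow ha0]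
    push_cast
    ring
  obtain ⟨M, hM⟩ : ∃ M, M = 27 * b ^ 2 / dl a b := ⟨_, rfl⟩
  have hM0 : M ≠ 0 := by
    rw [hM]
    exact div_ne_zero (mul_ne_zero h27' (pow_ne_zero 2 hb0)) hΔ
  have hMv : V.v M = 2 * V.v b - V.v (dl a b) := by
    rw [hM, DVal.v_div (mul_ne_zero h27' (pow_ne_zero 2 hb0)) hΔ,
      V.map_mul h27' (pow_ne_zero 2 hb0), DVal.v_pow hb0, h27]
    push_cast
    ring
  have hMJ : 1 - 4 * J = M := by
    rw [hM, hJ, eq_div_iff hΔ, sub_mul, one_mul, mul_assoc, div_mul_cancel₀ _ hΔ]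
    unfold dl
    ring
  rw [hMJ]
  have h4J : V.v (4 * J) = V.v J := by
    rw [V.map_mul h4' hJ0, h4, zero_add]
  have h4J0 : 4 * J ≠ 0 := mul_ne_zero h4' hJ0
  have m1 : min (V.v J) (V.v M) ≤ 0 := by
    have e : 4 * J + M = 1 := by
      rw [← hMJ]
      ring
    have h1 := V.map_add h4J0 hM0 (by rw [e]; exact one_ne_zero)
    rwa [e, DVal.v_one, h4J] at h1
  have m2 : min 0 (V.v J) ≤ V.v M := by
    have e : 1 + -(4 * J) = M := by
      rw [← hMJ]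
      ring
    have h1 := V.map_add one_ne_zero (neg_ne_zero.2 h4J0) (by rw [e]; exact hM0)
    rwa [e, DVal.v_one, DVal.v_neg, h4J] at h1
  have m3 : min 0 (V.v M) ≤ V.v J := by
    have e : 1 + -M = 4 * J := by
      rw [← hMJ]
      ring
    have h1 := V.map_add one_ne_zero (neg_ne_zero.2 hM0) (by rw [e]; exact h4J0)
    rwa [e, DVal.v_one, DVal.v_neg, h4J] at h1
  have hx0 : δ J / J ≠ 0 := div_ne_zero hδJ hJ0
  have hxv : V.v (δ J / J) = V.v (δ J) - V.v J := DVal.v_div hδJ hJ0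
  have hk : k1 δ a b = a * (δ J / J) / (18 * b) := by
    have e : k1 δ a b = 3 / 2 * (wr δ a b / dl a b) := by
      unfold k1
      field_simp
    rw [e, hweq]
    field_simp
    ring
  have hkv : V.v (k1 δ a b) = V.v a + V.v (δ J / J) - V.v b := by
    rw [hk, DVal.v_div (mul_ne_zero ha0 hx0) (mul_ne_zero h18' hb0), V.map_mul ha0 hx0,
      V.map_mul h18' hb0, h18]
    ring
  have hA : 1 ≤ V.v a := (DVal.D_iff ha0).1 ha1
  have hB : 1 ≤ V.v b := (DVal.D_iff hb0).1 hb1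
  have hmin : ¬ (4 ≤ V.v a ∧ 6 ≤ V.v b) := fun hh =>
    h.hmin ⟨(DVal.D_iff ha0).2 hh.1, (DVal.D_iff hb0).2 hh.2⟩
  have hvJ : V.v J ≠ 0 → V.v (δ J / J) = 0 := by
    intro h1
    rw [hxv, (h.ld.v_map hJ0 h1).2, sub_self]
  have hvM : V.v J = 0 → V.v M ≠ 0 → V.v (δ J / J) = V.v M := by
    intro h1 h2
    have h3 := (h.ld.v_map hM0 h2).2
    have h5 : δ M = -(4 * δ J) := by
      rw [← hMJ, map_sub, Derivation.map_one_eq_zero, Derivation.leibniz, smul_eq_mul, smul_eq_mul]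
      have h6 : δ (4 : F) = 0 := by
        have := D_ratCast δ 4
        rwa [Rat.cast_ofNat] at this
      rw [h6]
      ring
    rw [h5, DVal.v_neg, V.map_mul h4' hδJ, h4, zero_add] at h3
    rw [hxv, h3, h1, sub_zero]
  have hvO : V.v J = 0 → 1 ≤ V.v (δ J / J) := by
    intro h1
    have h2 := (DVal.D_iff hδJ).1 (h.ld.int J ((DVal.D_iff hJ0).2 (by rw [h1])))
    rw [hxv, h1]
    omega
  rcases lt_trichotomy (V.v J) 0 with h1 | h1 | h1
  · have h2 := hvJ (by omega)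
    have h3 : V.v M = V.v J := by omega
    have h5 : V.v a = 2 ∧ V.v b = 3 := by omega
    refine ⟨by omega, by omega, by omega, Or.inr ⟨by omega, (-V.v J).toNat, by omega, by omega,
      by omega, by omega, h2⟩⟩
  · have h2 := hvO h1
    by_cases h3 : V.v M = 0
    · have h5 : V.v a = 2 ∧ V.v b = 3 := by omega
      exact ⟨by omega, by omega, by omega, Or.inl ⟨by omega, by omega, by omega⟩⟩
    · have h5 := hvM h1 h3
      exact ⟨by omega, by omega, by omega, Or.inl ⟨by omega, by omega, by omega⟩⟩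
  · have h2 := hvJ (by omega)
    have h3 : V.v M = 0 := by omega
    exact ⟨by omega, by omega, by omega, Or.inl ⟨by omega, by omega, by omega⟩⟩

/-- ADDITIVE REDUCTION. PROOF. All of `a, b, dl, J, δJ` are nonzero (`ne_of_k1`, `wr_eq`).
`v(k1) = v(a) - v(b) + v(δJ/J)`, `J = a^3/dl`, `1 - 4J = 27 b^2/dl`, `v(g1)`: `LC.g1_eq`.
(1) `v(J) = k > 0`: `v(dl) = 2 v(b) = 3 v(a) - k`, `v(δJ/J) = 0`. `v(b) ≥ 6` would give `v(a) > 4`,
against `hmin`; so `v(b) ≤ 5`, `0 < v(dl) = 2 v(b) ≤ 10`. `v(k1 a) = 2 v(a) - v(b) ≥ 1`,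
`v(k1 b) = v(a)`, `v(k1) = v(a) - v(b) ≥ -1` (as `3 v(a) > 2 v(b)`, `1 ≤ v(b) ≤ 5`: omega),
`v(k1^2 a) = 3 v(a) - 2 v(b) = k`.
(2) `v(J) = 0`, `v(1-4J) = k > 0`: `v(dl) = 3 v(a)`, `2 v(b) = 3 v(a) + k`, `v(a) ≤ 3` (else
`v(b) ≥ 7`), `v(δJ/J) = v(δ(1-4J)) = k`, `v(k1) = v(a) - v(b) + k = v(b) - 2 v(a) ≥ -1`,
`v(k1 a) = v(b) - v(a) ≥ 1`, `v(k1 b) = v(a) + k`, `v(k1^2 a) = k`.
(3) `v(J) = v(1-4J) = 0`: `3 v(a) = 2 v(b) = v(dl)`, so `(v(a), v(b)) = (2, 3)` by minimality,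
`l = v(δJ) ≥ 1`, `v(k1) = l - 1`, `v(dl) = 6`.
(4) `v(J) = -n < 0`: `3 v(a) = 2 v(b) = v(dl) - n`, so again `(2, 3)`, `v(dl) = 6 + n`,
`v(k1) = -1` (`v(δJ/J) = 0`), and `k1^2 a/3 = -n^2/144` mod `m` as in `LD.nu_mu`
(`k1^2 a / 3 = (1/36) (J/(1-4J)) (δJ/J)^2`). -/
theorem LC.additive (h : LC V δ a b) (ha1 : V.D 1 a) (hb1 : V.D 1 b) :
    V.D 1 (k1 δ a b * a) ∧ V.D 1 (k1 δ a b * b) ∧ V.D (-1) (k1 δ a b) ∧ V.D 0 (g1 δ a b) ∧
      ((V.D 1 (k1 δ a b ^ 2 * a) ∧ ∃ q : ℚ, 0 < q ∧ q < 1 ∧ V.D 1 (g1 δ a b - (q : F))) ∨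
        (V.v (k1 δ a b) = -1 ∧ ∃ n : ℕ, 1 ≤ n ∧
          V.D 1 (k1 δ a b ^ 2 * a / 3 + (((n : ℚ) ^ 2 / 144 : ℚ) : F)) ∧
          V.D 1 (g1 δ a b - (((6 + n : ℚ) / 12 : ℚ) : F)))) := by
  obtain ⟨hΔ, hwr, ha0, hb0⟩ := ne_of_k1 δ h.hk
  obtain ⟨v1, v2, v3, v4⟩ := h.add_val ha1 hb1
  have hq := h.g1_eq
  refine ⟨?_, ?_, (DVal.D_iff h.hk).2 v3, ?_, ?_⟩
  · rw [DVal.D_iff (mul_ne_zero h.hk ha0), V.map_mul h.hk ha0]
    omega
  · rw [DVal.D_iff (mul_ne_zero h.hk hb0), V.map_mul h.hk hb0]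
    omega
  · have h1 := DVal.D_add (DVal.D_mono (by norm_num : (0 : ℤ) ≤ 1) hq)
      (h.ld.D_rat ((V.v (dl a b) : ℚ) / 12))
    rwa [sub_add_cancel] at h1
  · rcases v4 with ⟨w1, w2, w3⟩ | ⟨w1, n, hn, w2, w3, w4, w5⟩
    · left
      refine ⟨?_, (V.v (dl a b) : ℚ) / 12, ?_, ?_, hq⟩
      · rw [DVal.D_iff (mul_ne_zero (pow_ne_zero 2 h.hk) ha0),
          V.map_mul (pow_ne_zero 2 h.hk) ha0, DVal.v_pow h.hk]
        push_cast
        omega
      · have : (0 : ℚ) < (V.v (dl a b) : ℚ) := by exact_mod_cast w2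
        positivity
      · rw [div_lt_one (by norm_num)]
        exact_mod_cast w3
    · right
      refine ⟨w1, n, hn, ?_, ?_⟩
      · obtain ⟨hweq, hδJ⟩ := wr_eq δ h.hk
        obtain ⟨J, hJ⟩ : ∃ J, J = a ^ 3 / dl a b := ⟨_, rfl⟩
        rw [← hJ] at hweq hδJ w3 w4 w5
        have hJ0 : J ≠ 0 := by
          rw [hJ]
          exact div_ne_zero (pow_ne_zero 3 ha0) hΔ
        obtain ⟨x, hx⟩ : ∃ x, x = δ J / J := ⟨_, rfl⟩
        have hlog := h.ld.log hJ0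
        rw [← hx] at hweq w5 hlog
        have hx0 : x ≠ 0 := by
          rw [hx]
          exact div_ne_zero hδJ hJ0
        have hM0 : 1 - 4 * J ≠ 0 := by
          intro h0
          have e : 27 * b ^ 2 = (1 - 4 * J) * dl a b := by
            rw [hJ, sub_mul, one_mul, mul_assoc, div_mul_cancel₀ _ hΔ]
            unfold dl
            ring
          rw [h0, zero_mul] at e
          exact mul_ne_zero (by norm_num) (pow_ne_zero 2 hb0) e
        have hMb : 27 * b ^ 2 = (1 - 4 * J) * dl a b := by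
          rw [hJ, sub_mul, one_mul, mul_assoc, div_mul_cancel₀ _ hΔ]
          unfold dl
          ring
        have hJa : a ^ 3 = J * dl a b := by
          rw [hJ, div_mul_cancel₀ _ hΔ]
        have hk : k1 δ a b = a * x / (18 * b) := by
          have e : k1 δ a b = 3 / 2 * (wr δ a b / dl a b) := by
            unfold k1
            field_simp
          rw [e, hweq]
          field_simp
          ring
        have hmu : k1 δ a b ^ 2 * a / 3 = J / (1 - 4 * J) * x ^ 2 / 36 := by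
          have e1 : k1 δ a b ^ 2 * a / 3 = a ^ 3 * x ^ 2 / (36 * (27 * b ^ 2)) := by
            rw [hk]
            field_simp
            ring
          rw [e1, hMb, hJa]
          field_simp
        have hx1 : V.D 1 (x + n) := by
          rw [w3] at hlog
          push_cast at hlog
          rwa [sub_neg_eq_add] at hlog
        have hxO : V.D 0 x := (DVal.D_iff hx0).2 (by rw [w5])
        have hx2 : V.D 1 (x ^ 2 - n ^ 2) := by
          have e : x ^ 2 - (n : F) ^ 2 = (x + n) * (x - n) := by ring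
          rw [e]
          exact DVal.D_mul' hx1 (DVal.D_sub hxO (DVal.D_nat n)) (by norm_num)
        have hJM : V.D 1 (J / (1 - 4 * J) + 1 / 4) := by
          have e : J / (1 - 4 * J) + 1 / 4 = (((1 / 4 : ℚ) : ℚ) : F) * (1 - 4 * J)⁻¹ := by
            have e2 : J = (1 - (1 - 4 * J)) / 4 := by ring
            generalize 1 - 4 * J = M at hM0 e2 ⊢
            rw [e2]
            push_cast
            field_simp
            ring
          rw [e]
          have h1 : V.D 1 (1 - 4 * J)⁻¹ := by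
            rw [DVal.D_iff (inv_ne_zero hM0), DVal.v_inv hM0]
            omega
          exact DVal.D_mul' (h.ld.D_rat _) h1 (by norm_num)
        have e : k1 δ a b ^ 2 * a / 3 + (((n : ℚ) ^ 2 / 144 : ℚ) : F) =
            (((1 / 36 : ℚ) : ℚ) : F) * ((J / (1 - 4 * J) + 1 / 4) * x ^ 2) -
              (((1 / 144 : ℚ) : ℚ) : F) * (x ^ 2 - (n : F) ^ 2) := by
          rw [hmu]
          push_cast
          ring
        rw [e]
        refine DVal.D_sub (DVal.D_mul' (h.ld.D_rat _) (DVal.D_mul' hJM (DVal.D_pow' hxO 2 (l := 0)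
          (by norm_num)) (by norm_num : (1 : ℤ) ≤ 1 + 0)) (by norm_num)) ?_
        exact DVal.D_mul' (h.ld.D_rat _) hx2 (by norm_num)
      · rw [w2] at hq
        push_cast at hq ⊢
        exact hq

end Pool.Agent.Lib.MP_3550b5_nt.SV
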