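import Mathlib
import Pool.Agent.Lib.MP_3550b5_nt.SV.LC

/-!
Project SV, part M, CASE A: `x`, `y` not zero, change of variable `ze1 = ze + y / x`.
-/

namespace Pool.Agent.Lib.MP_3550b5_nt.SV

open G

variable {F : Type*} [Field F] [CharZero F]

/-- `A = om + k1 y / x`. -/
def AA (δ : Derivation ℤ F F) (a b x y : F) : F := om δ a b x y + k1 δ a b * y / x

/-- `B`. -/
def BB (δ : Derivation ℤ F F) (a b x y : F) : F :=
  -(g1 δ a b * (a * x + b) / (x * y)) - k1 δ a b * (a * x / 3 + b) / y -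
    (a * x + 2 * b) * δ x / (2 * x ^ 2 * y) + (x * δ a + δ b) / (2 * x * y)

/-- `A = δx/(2y) - g1 x/y + k1 (a x/3 + b)/(x y)` (uses the equation of the curve). -/
lemma AA_eq (δ : Derivation ℤ F F) {a b x y : F} (hx : x ≠ 0) (hy : y ≠ 0)
    (h : y ^ 2 = x ^ 3 + a * x + b) :
    AA δ a b x y = δ x / (2 * y) - g1 δ a b * x / y + k1 δ a b * (a * x / 3 + b) / (x * y) := by
  have h1 : AA δ a b x y - (δ x / (2 * y) - g1 δ a b * x / y +
      k1 δ a b * (a * x / 3 + b) / (x * y)) =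
      k1 δ a b / (x * y) * (y ^ 2 - (x ^ 3 + a * x + b)) := by
    unfold AA om
    field_simp
    ring
  rw [h, sub_self, mul_zero] at h1
  exact sub_eq_zero.1 h1

/-- The system for `(z, ze1)`. PROOF. `2 y δy = (3x^2+a) δx + x δa + δb` (apply `δ` to the
equation), `δ(y/x) = δy/x - y δx/x^2`, then `field_simp` and `linear_combination`. By hand:
`B = -g1 y/x - x om - k1 y + δ(y/x)`. -/
lemma sys_A (δ : Derivation ℤ F F) {a b x y z ze : F} (hx : x ≠ 0) (hy : y ≠ 0)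
    (h : y ^ 2 = x ^ 3 + a * x + b) (hS : Sys δ a b x y z ze) :
    δ z = -g1 δ a b * z + -k1 δ a b * (ze + y / x) + AA δ a b x y ∧
    δ (ze + y / x) = -(k1 δ a b * a / 3) * z + g1 δ a b * (ze + y / x) + BB δ a b x y := by
  obtain ⟨h1, h2⟩ := hS
  have h3 : 2 * y * δ y = (3 * x ^ 2 + a) * δ x + x * δ a + δ b := by
    have h4 := congrArg δ h
    rw [map_add, map_add, Derivation.leibniz_pow, Derivation.leibniz_pow, Derivation.leibniz] at h4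
    simp only [smul_eq_mul, nsmul_eq_mul, Nat.cast_ofNat, Nat.add_one_sub_one, pow_one] at h4
    linear_combination h4
  have h5 : δ y = ((3 * x ^ 2 + a) * δ x + x * δ a + δ b) / (2 * y) := by
    rw [← h3]
    field_simp
  have h6 : δ (y / x) = δ y / x - y * δ x / x ^ 2 := by
    rw [Derivation.leibniz_div]
    simp only [smul_eq_mul]
    field_simp
  have h7 : BB δ a b x y - (-(g1 δ a b * y / x) - x * om δ a b x y - k1 δ a b * y + δ (y / x)) =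
      (g1 δ a b / (x * y) + k1 δ a b / y + δ x / (x ^ 2 * y)) * (y ^ 2 - (x ^ 3 + a * x + b)) := by
    rw [h6, h5]
    unfold BB om
    field_simp
    ring
  rw [h, sub_self, mul_zero] at h7
  have h8 := sub_eq_zero.1 h7
  constructor
  · rw [h1]
    unfold AA
    ring
  · rw [map_add, h2, h8]
    ring

/-- `E` in terms of `ze1`. -/
lemma Ee_A (δ : Derivation ℤ F F) {a b x y z ze : F} (hx : x ≠ 0) (hy : y ≠ 0)
    (h : y ^ 2 = x ^ 3 + a * x + b) :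
    Ee δ a b x y z ze = -(k1 δ a b * (ze + y / x) ^ 2 / 2) + AA δ a b x y * (ze + y / x) -
      AA δ a b x y * y / x + k1 δ a b * (a * x + b) / (2 * x ^ 2) - g1 δ a b -
      k1 δ a b * a / 6 * z ^ 2 := by
  have h1 : Ee δ a b x y z ze - (-(k1 δ a b * (ze + y / x) ^ 2 / 2) +
      AA δ a b x y * (ze + y / x) - AA δ a b x y * y / x +
      k1 δ a b * (a * x + b) / (2 * x ^ 2) - g1 δ a b - k1 δ a b * a / 6 * z ^ 2) =
      k1 δ a b / (2 * x ^ 2) * (y ^ 2 - (x ^ 3 + a * x + b)) := by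
    unfold Ee AA
    field_simp
    ring
  rw [h, sub_self, mul_zero] at h1
  exact sub_eq_zero.1 h1

variable {V : DVal F} {δ : Derivation ℤ F F} {a b : F}

/-- A pole of `x`. PROOF. `v(y^2) = 3 v(x)` since the other terms have larger valuation. -/
lemma LC.v_pole (h : LC V δ a b) {x y : F} (hxy : y ^ 2 = x ^ 3 + a * x + b)
    (hx : ¬ V.D 0 x) :
    ∃ n : ℕ, 1 ≤ n ∧ x ≠ 0 ∧ y ≠ 0 ∧ V.v x = -2 * n ∧ V.v y = -3 * n := by
  have hx0 : x ≠ 0 := DVal.ne_zero_of_not_D hx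
  have hvx := (DVal.not_D_iff hx0).1 hx
  have hax : V.D (V.v x) (a * x + b) :=
    DVal.D_add (DVal.D_mul' h.ha (Or.inr le_rfl) (by omega)) (DVal.D_mono (by omega) h.hb)
  have hx3 : x ^ 3 ≠ 0 := pow_ne_zero 3 hx0
  have hv3 : V.v (x ^ 3) = 3 * V.v x := DVal.v_pow hx0 3
  have h1 : ¬ V.D (3 * V.v x + 1) (x ^ 3) := by
    rw [DVal.not_D_iff hx3, hv3]
    omega
  have h2 := DVal.not_D_add (DVal.D_mono (j := 3 * V.v x + 1) (by omega) hax) h1
  have h3 : a * x + b + x ^ 3 = y ^ 2 := by rw [hxy]; ring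
  rw [h3] at h2
  have hy2 : y ^ 2 ≠ 0 := DVal.ne_zero_of_not_D h2
  have hy0 : y ≠ 0 := fun h => hy2 (by rw [h]; ring)
  have hv2 : V.v (y ^ 2) = 2 * V.v y := DVal.v_pow hy0 2
  have h4 : V.D (3 * V.v x) (y ^ 2) := by
    rw [← h3]
    exact DVal.D_add (DVal.D_mono (by omega) hax) (Or.inr hv3.ge)
  rw [DVal.D_iff hy2, hv2] at h4
  rw [DVal.not_D_iff hy2, hv2] at h2
  refine ⟨(V.v x - V.v y).toNat, ?_, hx0, hy0, ?_, ?_⟩
  · omega
  · omega
  · omega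

/-- Additive reduction, nonsingular point with integral `x`: `x`, `y` are units. -/
lemma LC.v_unit (h : LC V δ a b) (ha1 : V.D 1 a) (hb1 : V.D 1 b) {x y : F}
    (hxy : y ^ 2 = x ^ 3 + a * x + b) (hx : V.D 0 x) (hns : ¬ V.Sing a x y) :
    x ≠ 0 ∧ y ≠ 0 ∧ V.v x = 0 ∧ V.v y = 0 := by
  have hx1 : ¬ V.D 1 x := by
    intro hx1
    apply hns
    have h1 : V.D 1 (y ^ 2) := by
      rw [hxy]
      exact DVal.D_add (DVal.D_add (DVal.D_pow' hx1 3 (by norm_num))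
        (DVal.D_mul' ha1 hx1 (by norm_num))) hb1
    have h2 : V.D 1 y := DVal.D_sq (k := 1) (by norm_num; exact h1)
    have h3 : V.D 1 (3 * x ^ 2 + a) :=
      DVal.D_add (DVal.D_mul' (DVal.D_ofNat 3) (DVal.D_pow' (l := 1) hx1 2 (by norm_num))
        (by norm_num)) ha1
    exact ⟨hx, h2, h3⟩
  have hx0 : x ≠ 0 := DVal.ne_zero_of_not_D hx1
  have hvx := (DVal.not_D_iff hx0).1 hx1
  have hvx' := (DVal.D_iff hx0).1 hx
  have hv3 : V.v (x ^ 3) = 3 * V.v x := DVal.v_pow hx0 3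
  have hx3 : x ^ 3 ≠ 0 := pow_ne_zero 3 hx0
  have hax : V.D 1 (a * x + b) := DVal.D_add (DVal.D_mul' ha1 hx (by norm_num)) hb1
  have h1 : ¬ V.D 1 (x ^ 3) := by
    rw [DVal.not_D_iff hx3, hv3]
    omega
  have h2 := DVal.not_D_add hax h1
  have h3 : a * x + b + x ^ 3 = y ^ 2 := by rw [hxy]; ring
  rw [h3] at h2
  have hy2 : y ^ 2 ≠ 0 := DVal.ne_zero_of_not_D h2
  have hy0 : y ≠ 0 := fun h => hy2 (by rw [h]; ring)
  have hv2 : V.v (y ^ 2) = 2 * V.v y := DVal.v_pow hy0 2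
  have h4 : V.D 0 (y ^ 2) := by
    rw [← h3]
    exact DVal.D_add (DVal.D_mono (by norm_num) hax) (Or.inr (by rw [hv3]; omega))
  rw [DVal.D_iff hy2, hv2] at h4
  rw [DVal.not_D_iff hy2, hv2] at h2
  exact ⟨hx0, hy0, by omega, by omega⟩

/-- THE ESTIMATES. Either `n ≥ 1` and `k1, g1` integral (semistable case), or additive reduction
(`a, b, k1 a, k1 b ∈ m`, `g1` integral). Every estimate is a sum of valuations; `δ` does not lower
valuations (`LD.D_map`), `δ O ⊆ m`. `A`: `AA_eq`. `-A y/x = -δx/(2x) + g1 - k1 (a x/3 + b)/x^2` and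
`δx/x = -2n` mod `m` (`LD.log`). -/
theorem LC.est_A (h : LC V δ a b) {x y : F} {n : ℕ} (hxy : y ^ 2 = x ^ 3 + a * x + b)
    (hx0 : x ≠ 0) (hy0 : y ≠ 0) (hx : V.v x = -2 * n) (hy : V.v y = -3 * n)
    (hg : V.D 0 (g1 δ a b))
    (hc : (1 ≤ n ∧ V.D 0 (k1 δ a b)) ∨
      (V.D 1 a ∧ V.D 1 b ∧ V.D 1 (k1 δ a b * a) ∧ V.D 1 (k1 δ a b * b))) :
    V.D 0 (AA δ a b x y) ∧ (1 ≤ n → V.D 1 (AA δ a b x y)) ∧ V.D 1 (BB δ a b x y) ∧
      V.D 1 (-(AA δ a b x y * y / x) - (n : F) - g1 δ a b) ∧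
      V.D 1 (k1 δ a b * (a * x + b) / (2 * x ^ 2)) := by
  obtain ⟨e, he0, he1, ha, hb, hka, hkb⟩ : ∃ e : ℤ, 0 ≤ e ∧ 1 ≤ e + n ∧ V.D e a ∧ V.D e b ∧
      V.D e (k1 δ a b * a) ∧ V.D e (k1 δ a b * b) := by
    rcases hc with ⟨hn, hk⟩ | ⟨h1, h2, h3, h4⟩
    · exact ⟨0, le_rfl, by omega, h.ha, h.hb, DVal.D_mul' hk h.ha (by norm_num),
        DVal.D_mul' hk h.hb (by norm_num)⟩
    · exact ⟨1, by norm_num, by omega, h1, h2, h3, h4⟩
  have h2 : V.D 0 ((1 / 2 : F)) := by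
    have := h.ld.D_rat (1 / 2)
    push_cast at this
    exact this
  have h3 : V.D 0 ((1 / 3 : F)) := by
    have := h.ld.D_rat (1 / 3)
    push_cast at this
    exact this
  have hxD : V.D (-2 * n) x := Or.inr hx.ge
  have hdx : V.D (-2 * n) (δ x) := h.ld.D_map hxD
  have hxi : V.D (2 * n) x⁻¹ := Or.inr (by rw [DVal.v_inv hx0, hx]; linarith)
  have hyi : V.D (3 * n) y⁻¹ := Or.inr (by rw [DVal.v_inv hy0, hy]; linarith)
  have hda : V.D 1 (δ a) := h.ld.int a h.ha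
  have hdb : V.D 1 (δ b) := h.ld.int b h.hb
  obtain ⟨K, hK⟩ : ∃ K : F, K = k1 δ a b := ⟨_, rfl⟩
  obtain ⟨g, hg'⟩ : ∃ g : F, g = g1 δ a b := ⟨_, rfl⟩
  have eA : AA δ a b x y = 1 / 2 * δ x * y⁻¹ - g * x * y⁻¹ + 1 / 3 * (K * a) * y⁻¹ +
      (K * b) * x⁻¹ * y⁻¹ := by
    rw [AA_eq δ hx0 hy0 hxy, ← hK, ← hg']
    field_simp
    ring
  have eB : BB δ a b x y = -(g * a * y⁻¹) - g * b * x⁻¹ * y⁻¹ - 1 / 3 * (K * a) * x * y⁻¹ -
      (K * b) * y⁻¹ - 1 / 2 * a * δ x * x⁻¹ * y⁻¹ - b * δ x * x⁻¹ * x⁻¹ * y⁻¹ +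
      1 / 2 * δ a * y⁻¹ + 1 / 2 * δ b * x⁻¹ * y⁻¹ := by
    unfold BB
    rw [← hK, ← hg']
    field_simp
    ring
  have hlog : V.D 1 (δ x / x + 2 * (n : F)) := by
    have h4 := h.ld.log hx0
    rw [hx] at h4
    have h5 : δ x / x - (((-2 * n : ℤ)) : F) = δ x / x + 2 * (n : F) := by
      push_cast
      ring
    rwa [h5] at h4
  rw [← hK] at hka hkb
  rw [← hg'] at hg
  have m1 : V.D (n : ℤ) (AA δ a b x y) := by
    rw [eA]
    refine DVal.D_add (DVal.D_add (DVal.D_sub ?_ ?_) ?_) ?_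
    · exact DVal.D_mul' (DVal.D_mul h2 hdx) hyi (by linarith)
    · exact DVal.D_mul' (DVal.D_mul hg hxD) hyi (by linarith)
    · exact DVal.D_mul' (DVal.D_mul h3 hka) hyi (by linarith)
    · exact DVal.D_mul' (DVal.D_mul hkb hxi) hyi (by linarith)
  have c5 : V.D 1 (1 / 3 * (K * a) * x⁻¹ + (K * b) * x⁻¹ * x⁻¹) := by
    refine DVal.D_add ?_ ?_
    · exact DVal.D_mul' (DVal.D_mul h3 hka) hxi (by linarith)
    · exact DVal.D_mul' (DVal.D_mul hkb hxi) hxi (by linarith)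
  refine ⟨DVal.D_mono (by omega) m1, fun hn => DVal.D_mono (by omega) m1, ?_, ?_, ?_⟩
  · rw [eB]
    refine DVal.D_add (DVal.D_add (DVal.D_sub (DVal.D_sub (DVal.D_sub (DVal.D_sub (DVal.D_sub
      (DVal.D_neg ?_) ?_) ?_) ?_) ?_) ?_) ?_) ?_
    · exact DVal.D_mul' (DVal.D_mul hg ha) hyi (by linarith)
    · exact DVal.D_mul' (DVal.D_mul (DVal.D_mul hg hb) hxi) hyi (by linarith)
    · exact DVal.D_mul' (DVal.D_mul (DVal.D_mul h3 hka) hxD) hyi (by linarith)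
    · exact DVal.D_mul' hkb hyi (by linarith)
    · exact DVal.D_mul' (DVal.D_mul (DVal.D_mul (DVal.D_mul h2 ha) hdx) hxi) hyi (by linarith)
    · exact DVal.D_mul' (DVal.D_mul (DVal.D_mul (DVal.D_mul hb hdx) hxi) hxi) hyi (by linarith)
    · exact DVal.D_mul' (DVal.D_mul h2 hda) hyi (by linarith)
    · exact DVal.D_mul' (DVal.D_mul (DVal.D_mul h2 hdb) hxi) hyi (by linarith)
  · have e4 : -(AA δ a b x y * y / x) - (n : F) - g1 δ a b =
        -(1 / 2 * (δ x / x + 2 * (n : F))) - (1 / 3 * (K * a) * x⁻¹ + (K * b) * x⁻¹ * x⁻¹) := by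
      rw [eA, ← hg']
      field_simp
      ring
    rw [e4]
    exact DVal.D_sub (DVal.D_neg (DVal.D_mul' h2 hlog (by norm_num))) c5
  · have e5 : k1 δ a b * (a * x + b) / (2 * x ^ 2) =
        1 / 2 * (K * a) * x⁻¹ + 1 / 2 * (K * b) * x⁻¹ * x⁻¹ := by
      rw [← hK]
      field_simp
    rw [e5]
    refine DVal.D_add ?_ ?_
    · exact DVal.D_mul' (DVal.D_mul h2 hka) hxi (by linarith)
    · exact DVal.D_mul' (DVal.D_mul (DVal.D_mul h2 hkb) hxi) hxi (by linarith)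

/-- The rest of `E`. -/
def Rest (δ : Derivation ℤ F F) (a b x y z ze1 : F) : F :=
  -(k1 δ a b * ze1 ^ 2 / 2) + AA δ a b x y * ze1 - k1 δ a b * a / 6 * z ^ 2

/-- `E = n + Rest` modulo `m` (from `Ee_A`, `est_A`). -/
lemma LC.Ee_eq (h : LC V δ a b) {x y z ze : F} {n : ℕ} (hxy : y ^ 2 = x ^ 3 + a * x + b)
    (hx0 : x ≠ 0) (hy0 : y ≠ 0) (hx : V.v x = -2 * n) (hy : V.v y = -3 * n)
    (hg : V.D 0 (g1 δ a b))
    (hc : (1 ≤ n ∧ V.D 0 (k1 δ a b)) ∨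
      (V.D 1 a ∧ V.D 1 b ∧ V.D 1 (k1 δ a b * a) ∧ V.D 1 (k1 δ a b * b))) :
    V.D 1 (Ee δ a b x y z ze - (n : F) - Rest δ a b x y z (ze + y / x)) := by
  obtain ⟨-, -, -, h4, h5⟩ := h.est_A hxy hx0 hy0 hx hy hg hc
  have e : Ee δ a b x y z ze - (n : F) - Rest δ a b x y z (ze + y / x) =
      (-(AA δ a b x y * y / x) - (n : F) - g1 δ a b) +
        k1 δ a b * (a * x + b) / (2 * x ^ 2) := by
    rw [Ee_A δ hx0 hy0 hxy]
    unfold Rest
    ring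
  rw [e]
  exact DVal.D_add h4 h5

end Pool.Agent.Lib.MP_3550b5_nt.SV
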