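import Mathlib
import Pool.Agent.Lib.MP_3550b5_nt.SV.MA

/-!
Project SV, part M: the formula `om_mul` and CASE B (semistable reduction, `x` integral). The
statements are those of `om_mul` and `LC.case_B` of `MB.lean`.
-/

namespace Pool.Agent.Lib.MP_3550b5_nt.SV

open G

variable {F : Type*} [Field F] [CharZero F] {V : DVal F} {δ : Derivation ℤ F F} {a b : F}

/-- The formula `om_mul`. -/
lemma om_mul_aux (D : Derivation ℤ F F) {a b x y : F} (hΔ : dl a b ≠ 0) (hy : y ≠ 0)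
    (h : y ^ 2 = x ^ 3 + a * x + b) :
    om D a b x y * (3 * x ^ 2 + a) = D y - 3 * (k1 D a b * x + g1 D a b) * y := by
  have e1 : 2 * y * D y = (3 * x ^ 2 + a) * D x + x * D a + D b := by
    have := congrArg D h
    simp only [map_add, Derivation.leibniz, Derivation.leibniz_pow, smul_eq_mul, nsmul_eq_mul] at this
    push_cast at this
    norm_num at this
    linear_combination this
  have ha := D_a D (a := a) (b := b) hΔ
  have hb := D_b D (a := a) (b := b) hΔ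
  rw [ha, hb] at e1
  have h2 : (2 * y : F) ≠ 0 := mul_ne_zero two_ne_zero hy
  have e2 : om D a b x y * (2 * y) =
      D x - 2 * k1 D a b * x ^ 2 - 2 * g1 D a b * x - 4 * k1 D a b * a / 3 := by
    rw [om, div_mul_cancel₀ _ h2]
  apply mul_right_cancel₀ h2
  linear_combination (3 * x ^ 2 + a) * e2 - e1 + 6 * (k1 D a b * x + g1 D a b) * h

private lemma cb_div (h : LD V δ) {k : ℤ} {x : F} (hx : V.D k x) (n : ℕ) [n.AtLeastTwo] :
    V.D k (x / (OfNat.ofNat n : F)) := by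
  have h1 : V.D 0 (((1 / (n : ℚ) : ℚ)) : F) := h.D_rat _
  have h0 : (OfNat.ofNat n : F) = (n : F) := (Nat.cast_ofNat (R := F) (n := n)).symm
  have h2 : x / (OfNat.ofNat n : F) = (((1 / (n : ℚ) : ℚ)) : F) * x := by
    rw [h0]
    push_cast
    rw [one_div, div_eq_mul_inv, mul_comm]
  rw [h2]
  exact DVal.D_mul' h1 hx (by omega)

private lemma cb_m {k : ℤ} {x y : F} (hx : V.D 0 x) (hy : V.D k y) : V.D k (x * y) :=
  DVal.D_mul' hx hy (by omega)

private lemma cb_n {k : ℤ} {x y : F} (hx : V.D k x) (hy : V.D 0 y) : V.D k (x * y) :=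
  DVal.D_mul' hx hy (by omega)

private lemma cb_p {x : F} (hx : V.D 0 x) (n : ℕ) : V.D 0 (x ^ n) :=
  DVal.D_pow' hx n (by simp)

/-- Cancel a unit. -/
private lemma cb_c {k : ℤ} {x y : F} (hx : ¬ V.D 1 x) (hy : V.D k (x * y)) : V.D k y := by
  have hy' : V.D (1 + k - 1) (x * y) := by
    rw [show (1 + k - 1 : ℤ) = k by ring]
    exact hy
  exact DVal.D_of_mul hx hy'

/-- The product of two units. -/
private lemma cb_u {x y : F} (hx : ¬ V.D 1 x) (hy : ¬ V.D 1 y) : ¬ V.D 1 (x * y) :=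
  fun h => hy (cb_c hx h)

private lemma cb_2 (h : LD V δ) : ¬ V.D 1 (2 : F) := by
  have := h.nat 2 (by norm_num)
  push_cast at this
  exact this

/-- The parameter `om` is integral, and in `m` if `y` is. -/
private lemma cb_om (h : LC V δ a b) {x y : F}
    (hxy : y ^ 2 = x ^ 3 + a * x + b) (hy : y ≠ 0) (hx : V.D 0 x) (hns : ¬ V.Sing a x y)
    {j : ℤ} (hj0 : 0 ≤ j) (hj1 : j ≤ 1)
    (hk : V.D j (k1 δ a b)) (hg : V.D j (g1 δ a b)) :
    V.D j (om δ a b x y) ∧ (V.D 1 y → V.D 1 (om δ a b x y)) := by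
  have hd : dl a b ≠ 0 := (ne_of_k1 δ h.hk).1
  have hmul := om_mul_aux δ (a := a) (b := b) hd hy hxy
  have hk0 : V.D 0 (k1 δ a b) := DVal.D_mono hj0 hk
  have hg0 : V.D 0 (g1 δ a b) := DVal.D_mono hj0 hg
  have key : V.D 1 y → V.D 1 (om δ a b x y) := by
    intro hy1
    have hu : ¬ V.D 1 (3 * x ^ 2 + a) := fun h3 => hns ⟨hx, hy1, h3⟩
    have h1 : V.D 1 (om δ a b x y * (3 * x ^ 2 + a)) := by
      rw [hmul]
      refine DVal.D_sub (h.ld.D_map hy1) (cb_m ?_ hy1)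
      exact cb_m (DVal.D_ofNat 3) (DVal.D_add (cb_m hk0 hx) hg0)
    rw [mul_comm] at h1
    exact cb_c hu h1
  refine ⟨?_, key⟩
  by_cases hy1 : V.D 1 y
  · exact DVal.D_mono hj1 (key hy1)
  · have hu : ¬ V.D 1 (2 * y) := cb_u (cb_2 h.ld) hy1
    apply cb_c hu
    have e2 : 2 * y * om δ a b x y =
        δ x - 2 * k1 δ a b * x ^ 2 - 2 * g1 δ a b * x - 4 * k1 δ a b * a / 3 := by
      rw [om, mul_div_cancel₀ _ (mul_ne_zero two_ne_zero hy)]
    rw [e2]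
    refine DVal.D_sub (DVal.D_sub (DVal.D_sub (DVal.D_mono hj1 (h.ld.int _ hx)) ?_) ?_) ?_
    · exact cb_n (cb_m (DVal.D_ofNat 2) hk) (cb_p hx 2)
    · exact cb_n (cb_m (DVal.D_ofNat 2) hg) hx
    · exact cb_div h.ld (cb_n (cb_m (DVal.D_ofNat 4) hk) h.ha) 3

/-- The solutions of the system are integral. -/
private lemma cb_int (h : LC V δ a b) {x y z ze : F} (hx : V.D 0 x) (hy0 : V.D 0 y)
    (hk : V.D 0 (k1 δ a b)) (hg : V.D 0 (g1 δ a b)) (ho : V.D 0 (om δ a b x y))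
    (hdet : V.D 1 (g1 δ a b ^ 2 + k1 δ a b ^ 2 * a / 3))
    (hS : Sys δ a b x y z ze) : V.D 0 z ∧ V.D 0 ze := by
  obtain ⟨h1, h2⟩ := hS
  refine h.ld.sys_int (α := -g1 δ a b) (β := -k1 δ a b) (γ := -(k1 δ a b * a / 3))
    (ε := g1 δ a b) (A := om δ a b x y) (B := -x * om δ a b x y - k1 δ a b * y)
    (DVal.D_neg hg) (DVal.D_neg hk) (DVal.D_neg (cb_div h.ld (cb_n hk h.ha) 3)) hg ho
    (DVal.D_sub (cb_m (DVal.D_neg hx) ho) (cb_n hk hy0)) ?_ ?_ ?_
  · intro m hm hh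
    have hm0 : ((m : ℤ) ^ 2) ≠ 0 := by positivity
    apply h.ld.nat _ hm0
    have e : (((m : ℤ) ^ 2 : ℤ) : F) = ((m : F) ^ 2 + (-g1 δ a b + g1 δ a b) * m +
        (-g1 δ a b * g1 δ a b - -k1 δ a b * -(k1 δ a b * a / 3))) +
          (g1 δ a b ^ 2 + k1 δ a b ^ 2 * a / 3) := by
      push_cast
      ring
    rw [e]
    exact DVal.D_add hh hdet
  · rw [h1]; ring
  · rw [h2]; ring

/-- Multiplicative reduction: `O^2 = x + 2 s`. -/
private lemma cb_sq (h : LC V δ a b) {x y s : F}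
    (hxy : y ^ 2 = x ^ 3 + a * x + b) (hy : y ≠ 0) (hx : V.D 0 x) (hns : ¬ V.Sing a x y)
    (hy0 : V.D 0 y) (hk : V.D 0 (k1 δ a b)) (hku : ¬ V.D 1 (k1 δ a b))
    (hg : V.D 0 (g1 δ a b)) (hs0 : V.D 0 s) (hsg : g1 δ a b = s * k1 δ a b)
    (ha : V.D 1 (a + 3 * s ^ 2)) (hb : V.D 1 (b - 2 * s ^ 3)) {O : F}
    (hO : om δ a b x y = k1 δ a b * O) : V.D 1 (O ^ 2 - x - 2 * s) := by
  obtain ⟨ho0, ho1⟩ := cb_om h hxy hy hx hns le_rfl zero_le_one hk hg
  have hO0 : V.D 0 O := by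
    rw [hO] at ho0
    exact cb_c hku ho0
  -- the equation of the curve
  have hcurve : V.D 1 (y ^ 2 - (x - s) ^ 2 * (x + 2 * s)) := by
    have e : y ^ 2 - (x - s) ^ 2 * (x + 2 * s) = (a + 3 * s ^ 2) * x + (b - 2 * s ^ 3) := by
      rw [hxy]; ring
    rw [e]
    exact DVal.D_add (cb_n ha hx) hb
  by_cases hy1 : V.D 1 y
  · have hO1 : V.D 1 O := by
      have := ho1 hy1
      rw [hO] at this
      exact cb_c hku this
    have hu : ¬ V.D 1 (x - s) := by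
      intro hxs
      apply hns
      refine ⟨hx, hy1, ?_⟩
      have e : 3 * x ^ 2 + a = 3 * (x + s) * (x - s) + (a + 3 * s ^ 2) := by ring
      rw [e]
      exact DVal.D_add (cb_m (cb_m (DVal.D_ofNat 3) (DVal.D_add hx hs0)) hxs) ha
    have h1 : V.D 1 ((x - s) * ((x - s) * (x + 2 * s))) := by
      have e : (x - s) * ((x - s) * (x + 2 * s)) =
          y * y - (y ^ 2 - (x - s) ^ 2 * (x + 2 * s)) := by ring
      rw [e]
      exact DVal.D_sub (cb_m hy0 hy1) hcurve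
    have h2 : V.D 1 (x + 2 * s) := cb_c hu (cb_c hu h1)
    have e : O ^ 2 - x - 2 * s = O * O - (x + 2 * s) := by ring
    rw [e]
    exact DVal.D_sub (cb_m hO0 hO1) h2
  · -- `y O = - (x - s) (x + 2 s)`
    have h1 : V.D 1 (y * O + (x - s) * (x + 2 * s)) := by
      apply cb_c (cb_u (cb_2 h.ld) hku)
      have e2 : 2 * y * om δ a b x y =
          δ x - 2 * k1 δ a b * x ^ 2 - 2 * g1 δ a b * x - 4 * k1 δ a b * a / 3 := by
        rw [om, mul_div_cancel₀ _ (mul_ne_zero two_ne_zero hy)]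
      rw [hO, hsg] at e2
      have e : 2 * k1 δ a b * (y * O + (x - s) * (x + 2 * s)) =
          δ x - 4 * k1 δ a b * (a + 3 * s ^ 2) / 3 := by
        linear_combination e2
      rw [e]
      exact DVal.D_sub (h.ld.int _ hx)
        (cb_div h.ld (cb_m (cb_m (DVal.D_ofNat 4) hk) ha) 3)
    apply cb_c hy1
    apply cb_c hy1
    have e : y * (y * (O ^ 2 - x - 2 * s)) =
        (y * O - (x - s) * (x + 2 * s)) * (y * O + (x - s) * (x + 2 * s)) -
          (x + 2 * s) * (y ^ 2 - (x - s) ^ 2 * (x + 2 * s)) := by ring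
    rw [e]
    have hxs : V.D 0 (x + 2 * s) := DVal.D_add hx (cb_m (DVal.D_ofNat 2) hs0)
    refine DVal.D_sub (cb_m ?_ h1) (cb_m hxs hcurve)
    exact DVal.D_sub (cb_m hy0 hO0) (cb_m (DVal.D_sub hx hs0) hxs)

/-- CASE B. -/
theorem LC.case_B_aux (h : LC V δ a b) (hs : ¬ (V.D 1 a ∧ V.D 1 b)) {x y z ze : F}
    (hxy : y ^ 2 = x ^ 3 + a * x + b) (hy : y ≠ 0) (hx : V.D 0 x) (hns : ¬ V.Sing a x y)
    (hS : Sys δ a b x y z ze) : V.D 1 (Ee δ a b x y z ze) := by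
  have hy0 : V.D 0 y := by
    apply DVal.D_sq
    rw [hxy]
    refine DVal.D_mono (by norm_num) (DVal.D_add (DVal.D_add (cb_p hx 3) (cb_m h.ha hx)) h.hb)
  by_cases hv : V.v (dl a b) = 0
  · obtain ⟨hk, hg⟩ := h.good hv
    have hk0 : V.D 0 (k1 δ a b) := DVal.D_mono (by norm_num) hk
    have hg0 : V.D 0 (g1 δ a b) := DVal.D_mono (by norm_num) hg
    obtain ⟨ho, -⟩ := cb_om h hxy hy hx hns zero_le_one le_rfl hk hg
    have hdet : V.D 1 (g1 δ a b ^ 2 + k1 δ a b ^ 2 * a / 3) := by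
      have e : g1 δ a b ^ 2 + k1 δ a b ^ 2 * a / 3 =
          g1 δ a b * g1 δ a b + k1 δ a b * (k1 δ a b * a) / 3 := by ring
      rw [e]
      exact DVal.D_add (cb_m hg0 hg) (cb_div h.ld (cb_n hk (cb_m hk0 h.ha)) 3)
    obtain ⟨hz, hze⟩ := cb_int h hx hy0 hk0 hg0 (DVal.D_mono (by norm_num) ho) hdet hS
    unfold Ee
    refine DVal.D_sub (DVal.D_sub (DVal.D_sub (DVal.D_add (DVal.D_neg ?_) ?_) ?_) hg) ?_
    · exact cb_div h.ld (cb_n hk (cb_p hze 2)) 2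
    · exact cb_n ho hze
    · exact cb_div h.ld (cb_n hk hx) 2
    · exact cb_n (cb_div h.ld (cb_n hk h.ha) 6) (cb_p hz 2)
  · obtain ⟨hk, hku, hg, hs0, ha, hb, hdet⟩ := h.mult hs hv
    obtain ⟨s, hsd⟩ : ∃ s, s = g1 δ a b / k1 δ a b := ⟨_, rfl⟩
    rw [← hsd] at hs0 ha hb
    have hk0 : k1 δ a b ≠ 0 := h.hk
    have hsg : g1 δ a b = s * k1 δ a b := by rw [hsd, div_mul_cancel₀ _ hk0]
    obtain ⟨O, hOd⟩ : ∃ O, O = om δ a b x y / k1 δ a b := ⟨_, rfl⟩
    have hO : om δ a b x y = k1 δ a b * O := by rw [hOd, mul_div_cancel₀ _ hk0]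
    obtain ⟨ho, -⟩ := cb_om h hxy hy hx hns le_rfl zero_le_one hk hg
    have hO0 : V.D 0 O := by
      rw [hO] at ho
      exact cb_c hku ho
    obtain ⟨hz, hze⟩ := cb_int h hx hy0 hk hg ho hdet hS
    have hsq := cb_sq h hxy hy hx hns hy0 hk hku hg hs0 hsg ha hb hO
    -- first equation
    have he : V.D 1 (ze - (O - s * z)) := by
      apply cb_c hku
      have e : k1 δ a b * (ze - (O - s * z)) = -δ z := by
        rw [hS.1, hsg, hO]; ring
      rw [e]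
      exact DVal.D_neg (h.ld.int _ hz)
    obtain ⟨e, hed⟩ : ∃ e, e = ze - (O - s * z) := ⟨_, rfl⟩
    rw [← hed] at he
    have hze' : ze = O - s * z + e := by rw [hed]; ring
    have he0 : V.D 0 e := DVal.D_mono (by norm_num) he
    have key : Ee δ a b x y z ze = k1 δ a b * (O ^ 2 - x - 2 * s) / 2 +
        k1 δ a b * (s * z) * e - k1 δ a b * e * e / 2 -
        k1 δ a b * z ^ 2 * (a + 3 * s ^ 2) / 6 := by
      unfold Ee
      rw [hO, hsg, hze']
      ring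
    rw [key]
    refine DVal.D_sub (DVal.D_sub (DVal.D_add ?_ ?_) ?_) ?_
    · exact cb_div h.ld (cb_m hk hsq) 2
    · exact cb_m (cb_m hk (cb_m hs0 hz)) he
    · exact cb_div h.ld (cb_m (cb_m hk he0) he) 2
    · exact cb_div h.ld (cb_m (cb_m hk (cb_p hz 2)) ha) 6

end Pool.Agent.Lib.MP_3550b5_nt.SV
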