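import Mathlib
import Pool.Agent.Lib.MP_3550b5_nt.SV.MA
import Pool.Agent.Lib.MP_3550b5_nt.SV.MBB

/-!
Project SV, part M: the local theorem M1.
-/

namespace Pool.Agent.Lib.MP_3550b5_nt.SV

open G

variable {F : Type*} [Field F] [CharZero F] {V : DVal F} {δ : Derivation ℤ F F} {a b : F}

/-- Semistable reduction, pole of `x`. Here `z`, `w` (`= ze1`) satisfy the system of `sys_A` with
`A, B ∈ m`. PROOF. `LD.sys_int` with the matrix `((-g1, -k1), (-k1 a/3, g1))`: trace `0`,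
determinant `-(g1^2 + k1^2 a/3) ∈ m`, so `m^2 + .. ` is a unit for `m ≥ 1`. So `z, w ∈ O`, and the
first equation modulo `m` gives `g1 z + k1 w ∈ m`. If `k1 ∈ m` (good reduction) `Rest ∈ m` clearly.
Multiplicative: `w = -s z` mod `m`, `s = g1/k1`, and `Rest = -(z^2/(2 k1)) (g1^2 + k1^2 a/3)` mod
`m`. -/
theorem LC.rest_semi (h : LC V δ a b) (hs : ¬ (V.D 1 a ∧ V.D 1 b)) {A B z w : F}
    (hA : V.D 1 A) (hB : V.D 1 B)
    (h1 : δ z = -g1 δ a b * z + -k1 δ a b * w + A)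
    (h2 : δ w = -(k1 δ a b * a / 3) * z + g1 δ a b * w + B) :
    V.D 1 (-(k1 δ a b * w ^ 2 / 2) + A * w - k1 δ a b * a / 6 * z ^ 2) := by
  have ld := h.ld
  have hdiv : ∀ {j : ℤ} {x : F} (n : ℕ), V.D j x → V.D j (x / (n : F)) := by
    intro j x n hx
    have e : x / (n : F) = x * (((1 / n : ℚ)) : F) := by
      push_cast
      ring
    rw [e]
    exact DVal.D_mul' hx (ld.D_rat _) (by omega)
  have hm : ∀ {j : ℤ} {x y : F}, V.D j x → V.D 0 y → V.D j (x * y) := fun hx hy =>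
    DVal.D_mul' hx hy (by omega)
  have hm' : ∀ {j : ℤ} {x y : F}, V.D 0 x → V.D j y → V.D j (x * y) := fun hx hy =>
    DVal.D_mul' hx hy (by omega)
  have hsq : ∀ {x : F}, V.D 0 x → V.D 0 (x ^ 2) := fun hx => DVal.D_pow' hx 2 (by omega)
  have ha := h.ha
  have hcase : (V.D 1 (k1 δ a b) ∧ V.D 1 (g1 δ a b)) ∨ (V.D 0 (k1 δ a b) ∧
      ¬ V.D 1 (k1 δ a b) ∧ V.D 0 (g1 δ a b) ∧ V.D 1 (g1 δ a b ^ 2 + k1 δ a b ^ 2 * a / 3)) := by
    by_cases hv : V.v (dl a b) = 0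
    · exact Or.inl (h.good hv)
    · obtain ⟨e1, e2, e3, -, -, -, e7⟩ := h.mult hs hv
      exact Or.inr ⟨e1, e2, e3, e7⟩
  generalize k1 δ a b = k at *
  generalize g1 δ a b = g at *
  have hfin : V.D 0 k ∧ V.D 0 g ∧ V.D 1 (g ^ 2 + k ^ 2 * a / 3) := by
    rcases hcase with ⟨e1, e2⟩ | ⟨e1, -, e3, e4⟩
    · refine ⟨DVal.D_mono (by omega) e1, DVal.D_mono (by omega) e2, DVal.D_add ?_ ?_⟩
      · exact DVal.D_pow' e2 2 (by omega)
      · have h9 := hdiv 3 (hm (DVal.D_pow' e1 2 (by omega) : V.D 1 (k ^ 2)) ha)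
        exact_mod_cast h9
    · exact ⟨e1, e3, e4⟩
  obtain ⟨k0, g0, hN⟩ := hfin
  have hka : V.D 0 (k * a / 3) := by
    have h9 := hdiv 3 (hm k0 ha)
    exact_mod_cast h9
  have hdet : ∀ m : ℕ, 1 ≤ m → ¬ V.D 1 ((m : F) ^ 2 + (-g + g) * m + (-g * g - -k * -(k * a / 3))) := by
    intro m h1m
    have e : ((m : F) ^ 2 + (-g + g) * m + (-g * g - -k * -(k * a / 3))) =
        -(g ^ 2 + k ^ 2 * a / 3) + (((m : ℤ) ^ 2 : ℤ) : F) := by
      push_cast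
      ring
    rw [e]
    refine DVal.not_D_add (DVal.D_neg hN) (ld.nat _ ?_)
    have : (m : ℤ) ≠ 0 := by omega
    exact pow_ne_zero 2 this
  obtain ⟨z0, w0⟩ := ld.sys_int (DVal.D_neg g0) (DVal.D_neg k0) (DVal.D_neg hka) g0
    (DVal.D_mono (by omega) hA) (DVal.D_mono (by omega) hB) hdet h1 h2
  have hAw : V.D 1 (A * w) := hm hA w0
  have hz2 := hsq z0
  have hw2 := hsq w0
  rcases hcase with ⟨e1, e2⟩ | ⟨e1, e2, e3, e4⟩
  · have t1 : V.D 1 (k * w ^ 2 / 2) := by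
      have h9 := hdiv 2 (hm e1 hw2)
      exact_mod_cast h9
    have t2 : V.D 1 (k * a / 6 * z ^ 2) := by
      have h9 := hdiv 6 (hm e1 ha)
      exact hm (by exact_mod_cast h9) hz2
    exact DVal.D_sub (DVal.D_add (DVal.D_neg t1) hAw) t2
  · have hr : V.D 1 (A - δ z) := DVal.D_sub hA (ld.int z z0)
    have hr' : A - δ z = g * z + k * w := by
      rw [h1]
      ring
    set r : F := A - δ z with hrd
    have hkey : V.D (1 + 1 - 1) (k * (-(k * w ^ 2) - k * a / 3 * z ^ 2)) := by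
      have e : k * (-(k * w ^ 2) - k * a / 3 * z ^ 2) =
          -(r * r) + 2 * (r * (g * z)) - (g ^ 2 + k ^ 2 * a / 3) * z ^ 2 := by
        rw [hr']
        ring
      rw [e]
      refine DVal.D_sub (DVal.D_add (DVal.D_neg (hm hr (DVal.D_mono (by omega) hr))) ?_) (hm hN hz2)
      exact hm' (DVal.D_ofNat 2) (hm hr (hm g0 z0))
    have hY := DVal.D_of_mul e2 hkey
    have h9 := hdiv 2 hY
    have e : -(k * w ^ 2 / 2) + A * w - k * a / 6 * z ^ 2 =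
        (-(k * w ^ 2) - k * a / 3 * z ^ 2) / ((2 : ℕ) : F) + A * w := by
      push_cast
      ring
    rw [e]
    exact DVal.D_add h9 hAw

/-- Additive potentially good reduction. PROOF. `g1 = q` mod `m` with `0 < q < 1`.
`δ w - g1 w = B - (k1 a/3) z` and `δ z + g1 z = A - k1 w` (`LD.no_int` with `q` and `-q`). Suppose
`z` is not integral, `v(z) < 0`. Then `k1 w` is not integral and (`no_int` with `k = v(k1 w)`)
`v(z) ≥ v(k1) + v(w)`; `v(k1) ≥ -1` gives `v(w) < 1`; `no_int` for `w`: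
`v(w) ≥ min(1, v(k1 a) + v(z))`, so `v(w) ≥ v(k1 a) + v(z)` and `v(z) ≥ v(k1^2 a) + v(z)`,
contradiction to `k1^2 a ∈ m`. So `z ∈ O`, then `w ∈ m` (`no_int`), and the three terms are in
`m`. -/
theorem LC.rest_pg (h : LC V δ a b) {A B z w : F} {q : ℚ} (hq0 : 0 < q) (hq1 : q < 1)
    (hg : V.D 1 (g1 δ a b - (q : F))) (hk : V.D (-1) (k1 δ a b))
    (hka : V.D 1 (k1 δ a b * a)) (hkka : V.D 1 (k1 δ a b ^ 2 * a))
    (hA : V.D 0 A) (hB : V.D 1 B)
    (h1 : δ z = -g1 δ a b * z + -k1 δ a b * w + A)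
    (h2 : δ w = -(k1 δ a b * a / 3) * z + g1 δ a b * w + B) :
    V.D 1 (-(k1 δ a b * w ^ 2 / 2) + A * w - k1 δ a b * a / 6 * z ^ 2) := by
  have hk0 : k1 δ a b ≠ 0 := h.hk
  have hnq : ∀ n : ℤ, (n : ℚ) ≠ q := by
    rintro n rfl
    have e1 : (0 : ℤ) < n := by exact_mod_cast hq0
    have e2 : n < (1 : ℤ) := by exact_mod_cast hq1
    omega
  have hnq' : ∀ n : ℤ, (n : ℚ) ≠ -q := by
    intro n hn
    apply hnq (-n)
    push_cast
    rw [hn, neg_neg]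
  have hg' : V.D 1 (-g1 δ a b - ((-q : ℚ) : F)) := by
    have e : -g1 δ a b - ((-q : ℚ) : F) = -(g1 δ a b - (q : F)) := by
      push_cast
      ring
    rw [e]
    exact DVal.D_neg hg
  have e1 : δ z - -g1 δ a b * z = A - k1 δ a b * w := by
    rw [h1]
    ring
  have e2 : δ w - g1 δ a b * w = B - k1 δ a b * a * (((1 / 3 : ℚ) : F) * z) := by
    rw [h2]
    push_cast
    ring
  have h3 : V.D 0 (((1 / 3 : ℚ) : F)) := h.ld.D_rat _
  have hz : V.D 0 z := by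
    by_contra hz
    have hz0 := DVal.ne_zero_of_not_D hz
    obtain ⟨N, hN⟩ : ∃ N, N = V.v z := ⟨_, rfl⟩
    have hN0 : N < 0 := by
      rw [hN]
      exact (DVal.not_D_iff hz0).1 hz
    have hzN : V.D N z := Or.inr hN.le
    have hκ : -1 ≤ V.v (k1 δ a b) := (DVal.D_iff hk0).1 hk
    have hkw : V.D (1 + N) (k1 δ a b * w) := by
      by_cases hka0 : k1 δ a b * a = 0
      · have hw : V.D 1 w := by
          refine h.ld.no_int hg hnq ?_
          rw [e2, hka0, zero_mul, sub_zero]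
          exact hB
        exact DVal.D_mul' hk hw (by omega)
      · have hc : V.D (V.v (k1 δ a b * a)) (k1 δ a b * a) := Or.inr le_rfl
        have ha0 : a ≠ 0 := right_ne_zero_of_mul hka0
        have hs : 1 ≤ V.v (k1 δ a b) + V.v (k1 δ a b * a) := by
          have e3 : k1 δ a b ^ 2 * a = k1 δ a b * (k1 δ a b * a) := by ring
          rw [e3] at hkka
          have e4 := (DVal.D_iff (mul_ne_zero hk0 hka0)).1 hkka
          rwa [V.map_mul hk0 hka0] at e4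
        have hw : V.D (min 1 (V.v (k1 δ a b * a) + N)) w := by
          refine h.ld.no_int hg hnq ?_
          rw [e2]
          exact DVal.D_sub (DVal.D_mono (min_le_left _ _) hB)
            (DVal.D_mul' hc (DVal.D_mul' (l := N) h3 hzN (by omega)) (min_le_right _ _))
        have hkD : V.D (V.v (k1 δ a b)) (k1 δ a b) := Or.inr le_rfl
        exact DVal.D_mul' hkD hw (by omega)
    have hzN' : V.D (1 + N) z := by
      refine h.ld.no_int hg' hnq' ?_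
      rw [e1]
      exact DVal.D_sub (DVal.D_mono (by omega) hA) hkw
    have h5 := (DVal.D_iff hz0).1 hzN'
    omega
  have hw : V.D 1 w := by
    refine h.ld.no_int hg hnq ?_
    rw [e2]
    exact DVal.D_sub hB (DVal.D_mul' hka (DVal.D_mul' (l := 0) h3 hz (by norm_num)) (by norm_num))
  have e3 : -(k1 δ a b * w ^ 2 / 2) + A * w - k1 δ a b * a / 6 * z ^ 2 =
      k1 δ a b * (w * w) * ((-1 / 2 : ℚ) : F) + A * w -
        (k1 δ a b * a) * (z ^ 2 * ((1 / 6 : ℚ) : F)) := by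
    push_cast
    ring
  rw [e3]
  refine DVal.D_sub (DVal.D_add ?_ ?_) ?_
  · exact DVal.D_mul' (DVal.D_mul' (l := 1) hk (DVal.D_mul' (l := 2) hw hw (by norm_num))
      (by norm_num)) (h.ld.D_rat _) (by norm_num)
  · exact DVal.D_mul' hA hw (by norm_num)
  · exact DVal.D_mul' hka (DVal.D_mul' (l := 0) (DVal.D_pow hz 2) (h.ld.D_rat _) (by norm_num))
      (by norm_num)

/-- Additive potentially multiplicative reduction. PROOF. `u = k1 w` satisfies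
`δ u = -(k1^2 a/3) z + (g1 + δk1/k1) u + k1 B`, `δ z = -g1 z - u + A`, all coefficients integral,
`δ k1/k1 = -1` mod `m` (`LD.log`), `g1 = (6+n)/12`, `k1^2 a/3 = -n^2/144` mod `m`: trace `-1`,
determinant `1/4` modulo `m`, `m^2 - m + 1/4 = (m - 1/2)^2 ≠ 0`: `LD.sys_int`. So `z, u ∈ O`,
`w = u/k1 ∈ m`, `k1 w^2 = u w`. -/
theorem LC.rest_In (h : LC V δ a b) {A B z w : F} {n : ℕ} (hn : 1 ≤ n)
    (hk : V.v (k1 δ a b) = -1)
    (hka : V.D 1 (k1 δ a b * a))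
    (hkka : V.D 1 (k1 δ a b ^ 2 * a / 3 + (((n : ℚ) ^ 2 / 144 : ℚ) : F)))
    (hg : V.D 1 (g1 δ a b - (((6 + n : ℚ) / 12 : ℚ) : F)))
    (hA : V.D 0 A) (hB : V.D 1 B)
    (h1 : δ z = -g1 δ a b * z + -k1 δ a b * w + A)
    (h2 : δ w = -(k1 δ a b * a / 3) * z + g1 δ a b * w + B) :
    V.D 1 (-(k1 δ a b * w ^ 2 / 2) + A * w - k1 δ a b * a / 6 * z ^ 2) := by
  have hκ : k1 δ a b ≠ 0 := h.hk
  have hL : V.D 1 (δ (k1 δ a b) / k1 δ a b + 1) := by
    have h3 := h.ld.log hκ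
    rw [hk] at h3
    have h4 : δ (k1 δ a b) / k1 δ a b + 1 = δ (k1 δ a b) / k1 δ a b - ((-1 : ℤ) : F) := by
      push_cast
      ring
    rw [h4]
    exact h3
  have hr : V.D 0 ((((6 + n : ℚ) / 12 : ℚ) : F)) := h.ld.D_rat _
  have hg0 : V.D 0 (g1 δ a b) := by
    have h3 := DVal.D_add (DVal.D_mono zero_le_one hg) hr
    rwa [sub_add_cancel] at h3
  have hL0 : V.D 0 (δ (k1 δ a b) / k1 δ a b) := by
    have h3 := DVal.D_sub (DVal.D_mono zero_le_one hL) (DVal.D_one (V := V))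
    rwa [add_sub_cancel_right] at h3
  have hγ0 : V.D 0 (k1 δ a b ^ 2 * a / 3) := by
    have h3 := DVal.D_sub (DVal.D_mono zero_le_one hkka) (h.ld.D_rat ((n : ℚ) ^ 2 / 144))
    rwa [add_sub_cancel_right] at h3
  have hκD : V.D (-1) (k1 δ a b) := Or.inr hk.ge
  have e1 : δ z = -g1 δ a b * z + -1 * (k1 δ a b * w) + A := by
    rw [h1]
    ring
  have e2 : δ (k1 δ a b * w) = -(k1 δ a b ^ 2 * a / 3) * z +
      (g1 δ a b + δ (k1 δ a b) / k1 δ a b) * (k1 δ a b * w) + k1 δ a b * B := by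
    rw [Derivation.leibniz, smul_eq_mul, smul_eq_mul, h2]
    field_simp
    ring
  obtain ⟨hz, hu⟩ := h.ld.sys_int (DVal.D_neg hg0) (DVal.D_neg DVal.D_one) (DVal.D_neg hγ0)
    (DVal.D_add hg0 hL0) hA (DVal.D_mul' hκD hB (by norm_num)) (by
      intro m hm hD
      have key : (((m : ℚ) ^ 2 - m + 1 / 4 : ℚ) : F) =
          ((m : F) ^ 2 + (-g1 δ a b + (g1 δ a b + δ (k1 δ a b) / k1 δ a b)) * m +
            (-g1 δ a b * (g1 δ a b + δ (k1 δ a b) / k1 δ a b) -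
              -1 * -(k1 δ a b ^ 2 * a / 3))) -
          (δ (k1 δ a b) / k1 δ a b + 1) * m +
          (g1 δ a b - (((6 + n : ℚ) / 12 : ℚ) : F)) * (g1 δ a b + (((6 + n : ℚ) / 12 : ℚ) : F)) +
          (g1 δ a b - (((6 + n : ℚ) / 12 : ℚ) : F)) * (δ (k1 δ a b) / k1 δ a b) +
          (δ (k1 δ a b) / k1 δ a b + 1) * (((6 + n : ℚ) / 12 : ℚ) : F) +
          (k1 δ a b ^ 2 * a / 3 + (((n : ℚ) ^ 2 / 144 : ℚ) : F)) := by
        push_cast
        ring
      have h5 : V.D 1 ((((m : ℚ) ^ 2 - m + 1 / 4 : ℚ)) : F) := by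
        rw [key]
        refine DVal.D_add (DVal.D_add (DVal.D_add (DVal.D_add (DVal.D_sub hD ?_) ?_) ?_) ?_) hkka
        · exact DVal.D_mul' hL (DVal.D_nat m) (by norm_num)
        · exact DVal.D_mul' hg (DVal.D_add hg0 hr) (by norm_num)
        · exact DVal.D_mul' hg hL0 (by norm_num)
        · exact DVal.D_mul' hL hr (by norm_num)
      have h6 := h.ld.rat_eq_zero h5
      have h7 : (1 : ℚ) ≤ m := by exact_mod_cast hm
      nlinarith)
    e1 e2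
  have hκ' : V.D 1 ((k1 δ a b)⁻¹) := by
    right
    rw [DVal.v_inv hκ, hk]
    norm_num
  have hw : V.D 1 w := by
    have h3 := DVal.D_mul' (l := 1) hκ' hu (by norm_num)
    rwa [inv_mul_cancel_left₀ hκ] at h3
  have e3 : -(k1 δ a b * w ^ 2 / 2) + A * w - k1 δ a b * a / 6 * z ^ 2 =
      (k1 δ a b * w) * w * ((-1 / 2 : ℚ) : F) + A * w -
        (k1 δ a b * a) * (z ^ 2 * ((1 / 6 : ℚ) : F)) := by
    push_cast
    ring
  rw [e3]
  refine DVal.D_sub (DVal.D_add ?_ ?_) ?_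
  · exact DVal.D_mul' (DVal.D_mul hu hw) (h.ld.D_rat _) (by norm_num)
  · exact DVal.D_mul' hA hw (by norm_num)
  · exact DVal.D_mul' hka (DVal.D_mul' (l := 0) (DVal.D_pow hz 2) (h.ld.D_rat _) (by norm_num))
      (by norm_num)

/-- `om (3 x^2 + a) = δ y - 3 (k1 x + g1) y` on the curve. PROOF.
`2 y δy = (3x^2+a) δx + x δa + δb`, `D_a`, `D_b`, and
`(3x^2+a)(2k1x^2+2g1x+(4/3)k1a) + x(4 g1 a + 6 k1 b) + 6 g1 b - (4/3) k1 a^2
= 6 (k1 x + g1)(x^3 + a x + b)`. -/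
lemma om_mul (D : Derivation ℤ F F) {a b x y : F} (hΔ : dl a b ≠ 0) (hy : y ≠ 0)
    (h : y ^ 2 = x ^ 3 + a * x + b) :
    om D a b x y * (3 * x ^ 2 + a) = D y - 3 * (k1 D a b * x + g1 D a b) * y :=
  om_mul_aux D hΔ hy h

/-- CASE B: semistable reduction, `x` integral. PROOF. `y ∈ O`. `om ∈ O`: if `y` is a unit clear
from the definition (`δ x ∈ m`), otherwise `3x^2 + a` is a unit (not `Sing`) and `om_mul` gives
`om ∈ m`. `z, ze ∈ O` by `LD.sys_int` (as in `rest_semi`).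
GOOD: `k1, g1 ∈ m`, so also `om ∈ m`, every term of `E` is in `m`.
MULTIPLICATIVE: `s = g1/k1`, `a = -3s^2`, `b = 2s^3` mod `m`, `y^2 = (x-s)^2 (x+2s)` mod `m`.
`x - s ∉ m` (otherwise `y ∈ m` and `3x^2+a ∈ m`). First equation mod `m`: `ze = O - s z`,
`O = om/k1`; `E = k1 (O^2/2 - x/2 - s)` mod `m` (put `ze = O - s z`, `a = -3 s^2`). If `y` is a
unit, `O = -(x-s)(x+2s)/y` mod `m`, `O^2 = x + 2s` mod `m`, so `E ∈ m`. If `y ∈ m`: `x = -2s` mod `m`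
and `om ∈ m`, `E = k1 (-x/2 - s) ∈ m`. -/
theorem LC.case_B (h : LC V δ a b) (hs : ¬ (V.D 1 a ∧ V.D 1 b)) {x y z ze : F}
    (hxy : y ^ 2 = x ^ 3 + a * x + b) (hy : y ≠ 0) (hx : V.D 0 x) (hns : ¬ V.Sing a x y)
    (hS : Sys δ a b x y z ze) : V.D 1 (Ee δ a b x y z ze) :=
  h.case_B_aux hs hxy hy hx hns hS

/-- THE LOCAL THEOREM M1. PROOF. Semistable: if `x` is integral `case_B` (`n = 0`), otherwise
`v_pole`, `sys_A`, `est_A`, `rest_semi`, `Ee_eq` (`k1`, `g1` are integral by `LC.good`, `LC.mult`).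
Additive: `LC.additive`; `v_pole` or `v_unit` (`n = 0`), `est_A`, `sys_A`, `rest_pg` or `rest_In`,
`Ee_eq`. -/
theorem LC.main (h : LC V δ a b) {x y z ze : F} (hxy : y ^ 2 = x ^ 3 + a * x + b) (hy : y ≠ 0)
    (hns : ¬ V.Sing a x y) (hS : Sys δ a b x y z ze) :
    ∃ n : ℕ, V.D 1 (Ee δ a b x y z ze - (n : F)) := by
  have fin : ∀ n : ℕ, x ≠ 0 → V.v x = -2 * n → V.v y = -3 * n → V.D 0 (g1 δ a b) →
      ((1 ≤ n ∧ V.D 0 (k1 δ a b)) ∨
        (V.D 1 a ∧ V.D 1 b ∧ V.D 1 (k1 δ a b * a) ∧ V.D 1 (k1 δ a b * b))) →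
      (∀ A B z w : F, V.D 0 A → (1 ≤ n → V.D 1 A) → V.D 1 B →
        δ z = -g1 δ a b * z + -k1 δ a b * w + A →
        δ w = -(k1 δ a b * a / 3) * z + g1 δ a b * w + B →
        V.D 1 (-(k1 δ a b * w ^ 2 / 2) + A * w - k1 δ a b * a / 6 * z ^ 2)) →
      ∃ n : ℕ, V.D 1 (Ee δ a b x y z ze - (n : F)) := by
    intro n hx0 hvx hvy hg hc hr
    obtain ⟨hA0, hA1, hB1, -, -⟩ := h.est_A hxy hx0 hy hvx hvy hg hc
    obtain ⟨s1, s2⟩ := sys_A δ hx0 hy hxy hS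
    have e1 : V.D 1 (Rest δ a b x y z (ze + y / x)) := hr _ _ z (ze + y / x) hA0 hA1 hB1 s1 s2
    have e2 := h.Ee_eq (z := z) (ze := ze) hxy hx0 hy hvx hvy hg hc
    have e3 := V.D_add e2 e1
    rw [sub_add_cancel] at e3
    exact ⟨n, e3⟩
  by_cases hs : V.D 1 a ∧ V.D 1 b
  · obtain ⟨ha1, hb1⟩ := hs
    obtain ⟨hka, hkb, hk, hg, hor⟩ := h.additive ha1 hb1
    have hn : ∃ n : ℕ, x ≠ 0 ∧ V.v x = -2 * n ∧ V.v y = -3 * n := by
      by_cases hx : V.D 0 x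
      · obtain ⟨hx0, -, hvx, hvy⟩ := h.v_unit ha1 hb1 hxy hx hns
        exact ⟨0, hx0, by rw [hvx]; rfl, by rw [hvy]; rfl⟩
      · obtain ⟨n, -, hx0, -, hvx, hvy⟩ := h.v_pole hxy hx
        exact ⟨n, hx0, hvx, hvy⟩
    obtain ⟨n, hx0, hvx, hvy⟩ := hn
    refine fin n hx0 hvx hvy hg (Or.inr ⟨ha1, hb1, hka, hkb⟩) ?_
    intro A B z w hA _ hB h1 h2
    rcases hor with ⟨hkka, q, hq0, hq1, hgq⟩ | ⟨hvk, m, hm, hkka, hgm⟩
    · exact h.rest_pg hq0 hq1 hgq hk hka hkka hA hB h1 h2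
    · exact h.rest_In hm hvk hka hkka hgm hA hB h1 h2
  · by_cases hx : V.D 0 x
    · refine ⟨0, ?_⟩
      rw [Nat.cast_zero, sub_zero]
      exact h.case_B hs hxy hy hx hns hS
    · obtain ⟨n, hn, hx0, -, hvx, hvy⟩ := h.v_pole hxy hx
      have hkg : V.D 0 (k1 δ a b) ∧ V.D 0 (g1 δ a b) := by
        by_cases hv : V.v (dl a b) = 0
        · obtain ⟨hk, hg⟩ := h.good hv
          exact ⟨V.D_mono (by norm_num) hk, V.D_mono (by norm_num) hg⟩
        · obtain ⟨hk, -, hg, -⟩ := h.mult hs hv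
          exact ⟨hk, hg⟩
      refine fin n hx0 hvx hvy hkg.2 (Or.inl ⟨hn, hkg.1⟩) ?_
      intro A B z w _ hA hB h1 h2
      exact h.rest_semi hs (hA hn) hB h1 h2

end Pool.Agent.Lib.MP_3550b5_nt.SV
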