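import Mathlib
import Pool.Agent.Lib.MP_3550b5_nt.SV.MB

/-!
Project SV, part M: the chord case of the additivity of `om` and `tau`.
-/

namespace Pool.Agent.Lib.MP_3550b5_nt.SV

open G

variable {F : Type*} [Field F] [CharZero F] (D : Derivation ℤ F F)

lemma addX_xy {a b x y : F} (hΔ : dl a b ≠ 0) (hy : y ≠ 0) (h : y ^ 2 = x ^ 3 + a * x + b) :
    D x = 2 * y * om D a b x y + 2 * k1 D a b * x ^ 2 + 2 * g1 D a b * x +
        4 / 3 * k1 D a b * a ∧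
      D y = (3 * x ^ 2 + a) * om D a b x y + 3 * (k1 D a b * x + g1 D a b) * y := by
  constructor
  · have h1 : 2 * y * om D a b x y =
        D x - 2 * k1 D a b * x ^ 2 - 2 * g1 D a b * x - 4 * k1 D a b * a / 3 := by
      unfold om
      exact mul_div_cancel₀ _ (mul_ne_zero two_ne_zero hy)
    rw [h1]
    ring
  · have h1 := om_mul D hΔ hy h
    linear_combination -h1

omit [CharZero F] in
private lemma addX_a {a b x1 y1 x2 y2 l : F}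
    (h1 : y1 ^ 2 = x1 ^ 3 + a * x1 + b) (h2 : y2 ^ 2 = x2 ^ 3 + a * x2 + b) (hx : x1 ≠ x2)
    (hl : l * (x1 - x2) = y1 - y2) : a = l * (y1 + y2) - (x1 ^ 2 + x1 * x2 + x2 ^ 2) := by
  apply mul_left_cancel₀ (sub_ne_zero.2 hx)
  linear_combination h2 - h1 - (y1 + y2) * hl

private lemma addX_alg {a x1 x2 y1 y2 l o1 o2 k g dx1 dx2 dy1 dy2 e : F} (hx : x1 ≠ x2)
    (ha : a = l * (y1 + y2) - (x1 ^ 2 + x1 * x2 + x2 ^ 2)) (hl : l * (x1 - x2) = y1 - y2)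
    (he : l * (dx1 - dx2) + (x1 - x2) * e = dy1 - dy2)
    (ex1 : dx1 = 2 * y1 * o1 + 2 * k * x1 ^ 2 + 2 * g * x1 + 4 / 3 * k * a)
    (ex2 : dx2 = 2 * y2 * o2 + 2 * k * x2 ^ 2 + 2 * g * x2 + 4 / 3 * k * a)
    (ey1 : dy1 = (3 * x1 ^ 2 + a) * o1 + 3 * (k * x1 + g) * y1)
    (ey2 : dy2 = (3 * x2 ^ 2 + a) * o2 + 3 * (k * x2 + g) * y2) :
    e = o1 * (2 * x1 + x2 - l ^ 2) + o2 * (x1 + 2 * x2 - l ^ 2) +
      k * (l * x1 - 2 * l * x2 + 3 * y2) + g * l := by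
  have hy : y1 = y2 + l * (x1 - x2) := by linear_combination -hl
  subst ex1 ex2 ey1 ey2 ha hy
  apply mul_left_cancel₀ (sub_ne_zero.2 hx)
  linear_combination he

/-- The derivative of the slope. -/
lemma addX_slope {a b x1 y1 x2 y2 l : F} (hΔ : dl a b ≠ 0)
    (h1 : y1 ^ 2 = x1 ^ 3 + a * x1 + b) (h2 : y2 ^ 2 = x2 ^ 3 + a * x2 + b) (hx : x1 ≠ x2)
    (hl : l * (x1 - x2) = y1 - y2) (n1 : y1 ≠ 0) (n2 : y2 ≠ 0) :
    D l = om D a b x1 y1 * (2 * x1 + x2 - l ^ 2) + om D a b x2 y2 * (x1 + 2 * x2 - l ^ 2) +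
      k1 D a b * (l * x1 - 2 * l * x2 + 3 * y2) + g1 D a b * l := by
  have he : l * (D x1 - D x2) + (x1 - x2) * D l = D y1 - D y2 := by
    have h3 := congrArg D hl
    rwa [Derivation.leibniz, map_sub, map_sub, smul_eq_mul, smul_eq_mul] at h3
  exact addX_alg hx (addX_a h1 h2 hx hl) hl he (addX_xy D hΔ n1 h1).1 (addX_xy D hΔ n2 h2).1
    (addX_xy D hΔ n1 h1).2 (addX_xy D hΔ n2 h2).2

private lemma addX_x3 {a x1 x2 y1 y2 l o1 o2 k g dx1 dx2 e x3 y3 dx3 : F}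
    (ha : a = l * (y1 + y2) - (x1 ^ 2 + x1 * x2 + x2 ^ 2)) (hl : l * (x1 - x2) = y1 - y2)
    (hx3 : x3 = l ^ 2 - x1 - x2) (hy3 : y3 = -y1 - l * (x3 - x1))
    (hd : dx3 = 2 * l * e - dx1 - dx2)
    (ex1 : dx1 = 2 * y1 * o1 + 2 * k * x1 ^ 2 + 2 * g * x1 + 4 / 3 * k * a)
    (ex2 : dx2 = 2 * y2 * o2 + 2 * k * x2 ^ 2 + 2 * g * x2 + 4 / 3 * k * a)
    (he : e = o1 * (2 * x1 + x2 - l ^ 2) + o2 * (x1 + 2 * x2 - l ^ 2) +
      k * (l * x1 - 2 * l * x2 + 3 * y2) + g * l) :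
    dx3 - 2 * k * x3 ^ 2 - 2 * g * x3 - 4 * k * a / 3 = 2 * y3 * (o1 + o2 + k * l) := by
  have hy : y1 = y2 + l * (x1 - x2) := by linear_combination -hl
  subst hd he ex1 ex2 hy3 hx3 ha hy
  ring

theorem addX_om {a b x1 y1 x2 y2 l x3 y3 : F} (hΔ : dl a b ≠ 0)
    (h1 : y1 ^ 2 = x1 ^ 3 + a * x1 + b) (h2 : y2 ^ 2 = x2 ^ 3 + a * x2 + b) (hx : x1 ≠ x2)
    (hl : l * (x1 - x2) = y1 - y2) (hx3 : x3 = l ^ 2 - x1 - x2) (hy3 : y3 = -y1 - l * (x3 - x1))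
    (n1 : y1 ≠ 0) (n2 : y2 ≠ 0) (n3 : y3 ≠ 0) :
    om D a b x3 y3 = om D a b x1 y1 + om D a b x2 y2 + k1 D a b * l := by
  have hd : D x3 = 2 * l * D l - D x1 - D x2 := by
    rw [hx3, map_sub, map_sub, Derivation.leibniz_pow]
    simp only [nsmul_eq_mul, smul_eq_mul]
    push_cast
    ring
  have key := addX_x3 (addX_a h1 h2 hx hl) hl hx3 hy3 hd (addX_xy D hΔ n1 h1).1
    (addX_xy D hΔ n2 h2).1 (addX_slope D hΔ h1 h2 hx hl n1 n2)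
  have h5 : om D a b x3 y3 = (D x3 - 2 * k1 D a b * x3 ^ 2 - 2 * g1 D a b * x3 -
      4 * k1 D a b * a / 3) / (2 * y3) := rfl
  rw [h5, key, mul_div_cancel_left₀ _ (mul_ne_zero two_ne_zero n3)]

theorem addX_tau {a b x1 y1 x2 y2 l x3 y3 : F} (hk : k1 D a b ≠ 0)
    (h1 : y1 ^ 2 = x1 ^ 3 + a * x1 + b) (h2 : y2 ^ 2 = x2 ^ 3 + a * x2 + b) (hx : x1 ≠ x2)
    (hl : l * (x1 - x2) = y1 - y2) (hx3 : x3 = l ^ 2 - x1 - x2) (hy3 : y3 = -y1 - l * (x3 - x1))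
    (n1 : y1 ≠ 0) (n2 : y2 ≠ 0) (n3 : y3 ≠ 0) :
    tau D a b x3 y3 = tau D a b x1 y1 + tau D a b x2 y2 := by
  have hΔ := (ne_of_k1 D hk).1
  have e1 := addX_om D hΔ h1 h2 hx hl hx3 hy3 n1 n2 n3
  have e2 : om D a b x3 y3 / k1 D a b =
      om D a b x1 y1 / k1 D a b + om D a b x2 y2 / k1 D a b + l := by
    rw [e1, add_div, add_div, mul_div_cancel_left₀ _ hk]
  have e3 := addX_slope D hΔ h1 h2 hx hl n1 n2
  unfold tau
  rw [e2, e1, map_add, map_add, e3, hy3, hx3]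
  linear_combination (-2 * k1 D a b) * hl

end Pool.Agent.Lib.MP_3550b5_nt.SV
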