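import Mathlib
import Pool.Agent.Lib.MP_3550b5_nt.SV.MB
import Pool.Agent.Lib.MP_3550b5_nt.SV.AddX
import Pool.Agent.Lib.MP_3550b5_nt.G.Coord

/-!
Project SV, part M: additivity of `om` (up to `k1` times the slope) and of `tau`.
All four identities have been checked numerically.
-/

namespace Pool.Agent.Lib.MP_3550b5_nt.SV

open G WeierstrassCurve.Affine

variable {F : Type*} [Field F] [CharZero F] (D : Derivation ℤ F F)

/-- `D x` and `D y` in terms of `om` (definition of `om`, and `om_mul`). -/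
lemma D_xy {a b x y : F} (hΔ : dl a b ≠ 0) (hy : y ≠ 0) (h : y ^ 2 = x ^ 3 + a * x + b) :
    D x = 2 * y * om D a b x y + 2 * k1 D a b * x ^ 2 + 2 * g1 D a b * x +
        4 / 3 * k1 D a b * a ∧
      D y = (3 * x ^ 2 + a) * om D a b x y + 3 * (k1 D a b * x + g1 D a b) * y :=
  addX_xy D hΔ hy h

/-- CHORD. PROOF. By `D_xy` for `(x1,y1)`, `(x2,y2)`, with `o1 = om .. x1 y1`, `o2`, `k = k1`,
`g = g1`: `D l = ((D y1 - D y2) - l (D x1 - D x2)) / (x1 - x2)`, `D x3 = 2 l D l - D x1 - D x2`. The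
claim is `D x3 = 2 y3 (o1 + o2 + k l) + 2 k x3^2 + 2 g x3 + (4/3) k a`. Put
`l = (y1-y2)/(x1-x2)`, `a = ((y1^2-y2^2)-(x1^3-x2^3))/(x1-x2)`, `x3 = ..`, `y3 = ..`: an identity of
rational functions in `x1, y1, x2, y2, o1, o2, k, g` (linear in `o1, o2, k, g`): `field_simp; ring`,
separately for the coefficients of `o1`, `o2`, `k`, `g` if too large. -/
theorem om_add {a b x1 y1 x2 y2 l x3 y3 : F} (hΔ : dl a b ≠ 0)
    (h1 : y1 ^ 2 = x1 ^ 3 + a * x1 + b) (h2 : y2 ^ 2 = x2 ^ 3 + a * x2 + b) (hx : x1 ≠ x2)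
    (hl : l * (x1 - x2) = y1 - y2) (hx3 : x3 = l ^ 2 - x1 - x2) (hy3 : y3 = -y1 - l * (x3 - x1))
    (n1 : y1 ≠ 0) (n2 : y2 ≠ 0) (n3 : y3 ≠ 0) :
    om D a b x3 y3 = om D a b x1 y1 + om D a b x2 y2 + k1 D a b * l :=
  addX_om D hΔ h1 h2 hx hl hx3 hy3 n1 n2 n3

/-- CHORD. PROOF. `om_add`, so
`tau3 - tau1 - tau2 = g l - x3 o3 + x1 o1 + x2 o2 - k (y3 - y1 - y2) - D l` with
`o3 = o1 + o2 + k l` and `D l` as in `om_add`; again an identity of rational functions. -/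
theorem tau_add {a b x1 y1 x2 y2 l x3 y3 : F} (hk : k1 D a b ≠ 0)
    (h1 : y1 ^ 2 = x1 ^ 3 + a * x1 + b) (h2 : y2 ^ 2 = x2 ^ 3 + a * x2 + b) (hx : x1 ≠ x2)
    (hl : l * (x1 - x2) = y1 - y2) (hx3 : x3 = l ^ 2 - x1 - x2) (hy3 : y3 = -y1 - l * (x3 - x1))
    (n1 : y1 ≠ 0) (n2 : y2 ≠ 0) (n3 : y3 ≠ 0) :
    tau D a b x3 y3 = tau D a b x1 y1 + tau D a b x2 y2 :=
  addX_tau D hk h1 h2 hx hl hx3 hy3 n1 n2 n3

private lemma dbl_Dl {a x1 y1 l : F} (hl : 2 * y1 * l = 3 * x1 ^ 2 + a) :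
    2 * y1 * D l = 6 * x1 * D x1 + D a - 2 * l * D y1 := by
  have h2 : D (2 : F) = 0 := by exact_mod_cast D.map_natCast 2
  have h3 : D (3 : F) = 0 := by exact_mod_cast D.map_natCast 3
  have h := congrArg D hl
  rw [map_add, D.leibniz, D.leibniz, D.leibniz, pow_two, D.leibniz, h2, h3] at h
  simp only [smul_eq_mul, mul_zero, add_zero] at h
  linear_combination h

private lemma dbl_Dx {x1 l x3 : F} (hx3 : x3 = l ^ 2 - 2 * x1) :
    D x3 = 2 * l * D l - 2 * D x1 := by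
  have h2 : D (2 : F) = 0 := by exact_mod_cast D.map_natCast 2
  rw [hx3, map_sub, D.leibniz, pow_two, D.leibniz, h2]
  simp only [smul_eq_mul, mul_zero, add_zero]
  ring

private lemma dbl_alg1 {x1 y1 l o k g a b x3 y3 dx dy da dL dx3 : F}
    (h1 : y1 ^ 2 = x1 ^ 3 + a * x1 + b) (hl : 2 * y1 * l = 3 * x1 ^ 2 + a)
    (hx3 : x3 = l ^ 2 - 2 * x1) (hy3 : y3 = -y1 - l * (x3 - x1))
    (hdx : dx = 2 * y1 * o + 2 * k * x1 ^ 2 + 2 * g * x1 + 4 / 3 * k * a)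
    (hdy : dy = (3 * x1 ^ 2 + a) * o + 3 * (k * x1 + g) * y1)
    (hda : da = 4 * g * a + 6 * k * b) (hdL : 2 * y1 * dL = 6 * x1 * dx + da - 2 * l * dy)
    (hdx3 : dx3 = 2 * l * dL - 2 * dx) :
    y1 * (dx3 - 2 * k * x3 ^ 2 - 2 * g * x3 - 4 * k * a / 3) = y1 * ((2 * o + k * l) * (2 * y3)) := by
  have ea : a = 2 * y1 * l - 3 * x1 ^ 2 := by linear_combination -hl
  have eb : b = y1 ^ 2 - x1 ^ 3 - a * x1 := by linear_combination -h1
  have e1 : y1 * dx3 = l * (6 * x1 * dx + da - 2 * l * dy) - 2 * y1 * dx := by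
    rw [hdx3, ← hdL]
    ring
  have e2 : y1 * (dx3 - 2 * k * x3 ^ 2 - 2 * g * x3 - 4 * k * a / 3) =
      l * (6 * x1 * dx + da - 2 * l * dy) - 2 * y1 * dx -
        y1 * (2 * k * x3 ^ 2 + 2 * g * x3 + 4 * k * a / 3) := by
    rw [← e1]
    ring
  rw [e2, hdx, hdy, hda, eb, hy3, hx3, ea]
  ring

private lemma dbl_alg2 {x1 y1 l o k g a b x3 y3 dx dy da dL : F}
    (h1 : y1 ^ 2 = x1 ^ 3 + a * x1 + b) (hl : 2 * y1 * l = 3 * x1 ^ 2 + a)
    (hx3 : x3 = l ^ 2 - 2 * x1) (hy3 : y3 = -y1 - l * (x3 - x1))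
    (hdx : dx = 2 * y1 * o + 2 * k * x1 ^ 2 + 2 * g * x1 + 4 / 3 * k * a)
    (hdy : dy = (3 * x1 ^ 2 + a) * o + 3 * (k * x1 + g) * y1)
    (hda : da = 4 * g * a + 6 * k * b) (hdL : 2 * y1 * dL = 6 * x1 * dx + da - 2 * l * dy) :
    2 * y1 * dL = 2 * y1 * (g * l - x3 * (2 * o + k * l) - k * y3 + 2 * x1 * o + 2 * k * y1) := by
  have ea : a = 2 * y1 * l - 3 * x1 ^ 2 := by linear_combination -hl
  have eb : b = y1 ^ 2 - x1 ^ 3 - a * x1 := by linear_combination -h1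
  rw [hdL, hdx, hdy, hda, eb, hy3, hx3, ea]
  ring

/-- TANGENT. PROOF. `D l` from `2 y1 l = 3 x1^2 + a`, `D a = 4 g a + 6 k b` (`D_a`),
`b = y1^2 - x1^3 - a x1`, `l = (3 x1^2 + a)/(2 y1)`. -/
theorem om_dbl {a b x1 y1 l x3 y3 : F} (hΔ : dl a b ≠ 0)
    (h1 : y1 ^ 2 = x1 ^ 3 + a * x1 + b) (hl : 2 * y1 * l = 3 * x1 ^ 2 + a)
    (hx3 : x3 = l ^ 2 - 2 * x1) (hy3 : y3 = -y1 - l * (x3 - x1))
    (n1 : y1 ≠ 0) (n3 : y3 ≠ 0) :
    om D a b x3 y3 = 2 * om D a b x1 y1 + k1 D a b * l := by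
  obtain ⟨hx, hy⟩ := D_xy D hΔ n1 h1
  have e : om D a b x3 y3 = (D x3 - 2 * k1 D a b * x3 ^ 2 - 2 * g1 D a b * x3 -
    4 * k1 D a b * a / 3) / (2 * y3) := rfl
  rw [e, div_eq_iff (mul_ne_zero two_ne_zero n3)]
  exact mul_left_cancel₀ n1 (dbl_alg1 h1 hl hx3 hy3 hx hy (D_a D hΔ) (dbl_Dl D hl) (dbl_Dx D hx3))

theorem tau_dbl {a b x1 y1 l x3 y3 : F} (hk : k1 D a b ≠ 0)
    (h1 : y1 ^ 2 = x1 ^ 3 + a * x1 + b) (hl : 2 * y1 * l = 3 * x1 ^ 2 + a)
    (hx3 : x3 = l ^ 2 - 2 * x1) (hy3 : y3 = -y1 - l * (x3 - x1))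
    (n1 : y1 ≠ 0) (n3 : y3 ≠ 0) :
    tau D a b x3 y3 = 2 * tau D a b x1 y1 := by
  have hΔ : dl a b ≠ 0 := (ne_of_k1 D hk).1
  obtain ⟨hx, hy⟩ := D_xy D hΔ n1 h1
  have h2 : D (2 : F) = 0 := by exact_mod_cast D.map_natCast 2
  have e := om_dbl D hΔ h1 hl hx3 hy3 n1 n3
  have hL : D l = g1 D a b * l - x3 * (2 * om D a b x1 y1 + k1 D a b * l) - k1 D a b * y3 +
      2 * x1 * om D a b x1 y1 + 2 * k1 D a b * y1 :=
    mul_left_cancel₀ (mul_ne_zero two_ne_zero n1)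
      (dbl_alg2 h1 hl hx3 hy3 hx hy (D_a D hΔ) (dbl_Dl D hl))
  have e1 : om D a b x3 y3 / k1 D a b = 2 * (om D a b x1 y1 / k1 D a b) + l := by
    rw [e, add_div, mul_div_assoc, mul_div_cancel_left₀ _ hk]
  have e2 : D (om D a b x3 y3 / k1 D a b) = 2 * D (om D a b x1 y1 / k1 D a b) + D l := by
    rw [e1, map_add, D.leibniz, h2, smul_zero, add_zero, smul_eq_mul]
  have e3 : tau D a b x3 y3 = g1 D a b * (om D a b x3 y3 / k1 D a b) - x3 * om D a b x3 y3 -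
    k1 D a b * y3 - D (om D a b x3 y3 / k1 D a b) := rfl
  have e4 : tau D a b x1 y1 = g1 D a b * (om D a b x1 y1 / k1 D a b) - x1 * om D a b x1 y1 -
    k1 D a b * y1 - D (om D a b x1 y1 / k1 D a b) := rfl
  rw [e3, e4, e2, e1, e, hL]
  ring

lemma om_neg {a b x y : F} : om D a b x (-y) = -om D a b x y := by
  unfold om
  rw [mul_neg, div_neg]

lemma tau_neg {a b x y : F} : tau D a b x (-y) = -tau D a b x y := by
  unfold tau
  rw [om_neg, neg_div, map_neg]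
  ring

/-- `tau` of a point. -/
def tauP {a b : F} : (scurve a b).Point → F
  | 0 => 0
  | .some x y _ => tau D a b x y

lemma tauP_some {a b x y : F} (h : (scurve a b).Nonsingular x y) :
    tauP D (.some x y h) = tau D a b x y := rfl

lemma tauP_zero {a b : F} : tauP D (0 : (scurve a b).Point) = 0 := rfl

/-- ADDITIVITY on points without `2`-torsion. PROOF. `P = 0` or `Q = 0` clear. `P + Q = 0`:
`neg_coord`, `tau_neg`. Otherwise `P = (x1,y1)`, `Q = (x2,y2)`, and `y1, y2 ≠ 0`, also the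
`y`-coordinate of `P + Q` (`dbl_eq_zero`: `y = 0` would give `P + P = 0`). `x1 ≠ x2`: `add_coord`,
`tau_add`. `x1 = x2`: `eq_or_neg_of_x`, so `P = Q`: `dbl_coord`, `tau_dbl`. -/
theorem tauP_add [DecidableEq F] {a b : F} (hk : k1 D a b ≠ 0) {P Q : (scurve a b).Point}
    (hP : P + P = 0 → P = 0) (hQ : Q + Q = 0 → Q = 0)
    (hPQ : (P + Q) + (P + Q) = 0 → P + Q = 0) :
    tauP D (P + Q) = tauP D P + tauP D Q := by
  have key : ∀ {x y : F} (h : (scurve a b).Nonsingular x y),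
      ((Point.some x y h + Point.some x y h : (scurve a b).Point) = 0 →
        (Point.some x y h : (scurve a b).Point) = 0) → y ≠ 0 := by
    intro x y h hh hy
    exact Point.some_ne_zero h (hh (dbl_eq_zero h (by rw [hy, mul_zero])))
  rcases P with _ | @⟨x1, y1, h1⟩
  · change tauP D ((0 : (scurve a b).Point) + Q) = tauP D (0 : (scurve a b).Point) + tauP D Q
    rw [zero_add, tauP_zero, zero_add]
  rcases Q with _ | @⟨x2, y2, h2⟩
  · change tauP D (Point.some x1 y1 h1 + (0 : (scurve a b).Point)) =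
      tauP D (Point.some x1 y1 h1) + tauP D (0 : (scurve a b).Point)
    rw [add_zero, tauP_zero, add_zero]
  have n1 : y1 ≠ 0 := key h1 hP
  have n2 : y2 ≠ 0 := key h2 hQ
  by_cases hx : x1 = x2
  · rcases eq_or_neg_of_x h1 h2 hx with e | e
    · rw [← e] at hPQ ⊢
      obtain ⟨l, x3, y3, h3, e1, e2, e3, e4⟩ := dbl_coord h1 (mul_ne_zero two_ne_zero n1)
      rw [e4] at hPQ ⊢
      have n3 : y3 ≠ 0 := key h3 hPQ
      rw [tauP_some, tauP_some, ← two_mul]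
      exact tau_dbl D hk (nonsing_iff.1 h1).1 e1 e2 e3 n1 n3
    · obtain ⟨h, e'⟩ := neg_coord h2
      rw [e, neg_add_cancel, tauP_zero, e', tauP_some, tauP_some, tau_neg, neg_add_cancel]
  · obtain ⟨l, x3, y3, h3, e1, e2, e3, e4⟩ := add_coord h1 h2 hx
    rw [e4] at hPQ ⊢
    have n3 : y3 ≠ 0 := key h3 hPQ
    rw [tauP_some, tauP_some, tauP_some]
    exact tau_add D hk (nonsing_iff.1 h1).1 (nonsing_iff.1 h2).1 hx e1 e2 e3 n1 n2 n3

/-- PROOF. `κ ↦ tauP (∑ κ i • P i)` is additive by `tauP_add` (`R + R = 0` for `R = ∑ κ i • P i`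
gives `2 κ = 0` by linear independence, `κ = 0`, `R = 0`), so it is
`∑ κ i * tauP (P i)` (`AddMonoidHom` on `Fin r → ℤ`, e.g. `Pi` basis, or `Finset` sums). -/
theorem tauP_sum [DecidableEq F] {a b : F} (hk : k1 D a b ≠ 0) {r : ℕ}
    (P : Fin r → (scurve a b).Point) (hP : LinearIndependent ℤ P) (κ : Fin r → ℤ) :
    tauP D (∑ i, κ i • P i) = ∑ i, (κ i : F) * tauP D (P i) := by
  classical
  have hlin := Fintype.linearIndependent_iff.1 hP
  have hno : ∀ κ : Fin r → ℤ, (∑ i, κ i • P i) + ∑ i, κ i • P i = 0 → ∑ i, κ i • P i = 0 := by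
    intro κ h
    have h1 : ∑ i, (κ i + κ i) • P i = 0 := by
      rw [← h, ← Finset.sum_add_distrib]
      exact Finset.sum_congr rfl fun i _ => add_smul _ _ _
    have h2 := hlin (fun i => κ i + κ i) h1
    refine Finset.sum_eq_zero fun i _ => ?_
    have h3 : κ i = 0 := by
      have h4 : κ i + κ i = 0 := h2 i
      omega
    rw [h3, zero_smul]
  have hS : ∀ κ κ' : Fin r → ℤ, ∑ i, (κ + κ') i • P i = ∑ i, κ i • P i + ∑ i, κ' i • P i := by
    intro κ κ'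
    rw [← Finset.sum_add_distrib]
    exact Finset.sum_congr rfl fun i _ => add_smul _ _ _
  let f : (Fin r → ℤ) →+ F :=
    { toFun := fun κ => tauP D (∑ i, κ i • P i)
      map_zero' := by
        have h1 : ∑ i, (0 : Fin r → ℤ) i • P i = 0 :=
          Finset.sum_eq_zero fun i _ => zero_smul _ _
        rw [h1, tauP_zero]
      map_add' := fun κ κ' => by
        have h1 := hno (κ + κ')
        rw [hS] at h1 ⊢
        exact tauP_add D hk (hno κ) (hno κ') h1 }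
  have hf : ∀ i, f (Pi.single i 1) = tauP D (P i) := by
    intro i
    have h1 : ∑ j, (Pi.single i 1 : Fin r → ℤ) j • P j = P i := by
      rw [Finset.sum_eq_single i]
      · rw [Pi.single_eq_same, one_smul]
      · intro j _ hj
        rw [Pi.single_eq_of_ne hj, zero_smul]
      · intro h
        exact absurd (Finset.mem_univ i) h
    exact congrArg (tauP D) h1
  have hκ : κ = ∑ i, κ i • (Pi.single i 1 : Fin r → ℤ) := by
    funext j
    rw [Finset.sum_apply, Finset.sum_eq_single j]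
    · rw [Pi.smul_apply, Pi.single_eq_same, smul_eq_mul, mul_one]
    · intro i _ hi
      rw [Pi.smul_apply, Pi.single_eq_of_ne (Ne.symm hi), smul_zero]
    · intro h
      exact absurd (Finset.mem_univ j) h
  have h1 : f κ = ∑ i, κ i • f (Pi.single i 1) := by
    conv_lhs => rw [hκ]
    rw [map_sum]
    exact Finset.sum_congr rfl fun i _ => map_zsmul f _ _
  calc tauP D (∑ i, κ i • P i) = f κ := rfl
    _ = ∑ i, κ i • f (Pi.single i 1) := h1
    _ = ∑ i, (κ i : F) * tauP D (P i) :=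
        Finset.sum_congr rfl fun i _ => by rw [hf, zsmul_eq_mul]

end Pool.Agent.Lib.MP_3550b5_nt.SV
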