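import Mathlib
import Pool.Agent.Lib.MP_3550b5_nt.SV.Loc

/-!
Project SV, part R: the places of `F = K(t)`. `K` is a field of characteristic `0`,
`φ : K[X] →+* F` makes `F` the fraction field (`G.IsFrac φ`), `D` is the derivation with
`D (φ X) = 1`, `D (φ (C c)) = 0`.
-/

namespace Pool.Agent.Lib.MP_3550b5_nt.SV

open G Polynomial

variable {K F : Type*} [Field K] [CharZero K] [Field F] [CharZero F]

/-- `F = K(t)` with `D = d/dt`. -/
structure RF1 (φ : K[X] →+* F) (D : Derivation ℤ F F) : Prop where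
  frac : IsFrac φ
  map_X : D (φ X) = 1
  map_C : ∀ c : K, D (φ (C c)) = 0

variable {φ : K[X] →+* F} {D : Derivation ℤ F F}

lemma RF1.ne (h : RF1 φ D) {f : K[X]} (hf : f ≠ 0) : φ f ≠ 0 := by
  intro h0
  exact hf (h.frac.inj (by rw [h0, map_zero]))

/-- `D (φ f) = φ f'`. PROOF. `Polynomial.induction_on'` (or `D_eval₂` with the coefficient ring). -/
lemma RF1.D_map (h : RF1 φ D) (f : K[X]) : D (φ f) = φ (derivative f) := by
  induction f using Polynomial.induction_on' with
  | add p q hp hq => rw [map_add, map_add, hp, hq, derivative_add, map_add]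
  | monomial n c =>
    rw [← C_mul_X_pow_eq_monomial, map_mul, map_pow, Derivation.leibniz, Derivation.leibniz_pow,
      h.map_C, h.map_X]
    simp only [smul_eq_mul, mul_one, mul_zero, add_zero, nsmul_eq_mul]
    rw [derivative_C_mul_X_pow]
    simp only [map_mul, map_pow, C_mul, map_natCast]
    ring

/-- A prime polynomial does not divide its derivative, which is not zero. -/
lemma prime_not_dvd_derivative {π : K[X]} (hπ : Prime π) :
    derivative π ≠ 0 ∧ ¬ π ∣ derivative π := by
  have hd : 0 < π.natDegree := hπ.irreducible.natDegree_pos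
  have h1 : derivative π ≠ 0 := by
    intro h0
    have := natDegree_eq_zero_of_derivative_eq_zero h0
    omega
  refine ⟨h1, fun hdvd => ?_⟩
  have h2 := natDegree_le_of_dvd hdvd h1
  have h3 := natDegree_derivative_lt (p := π) (by omega)
  omega

/-- Every `x` which is integral at `π` is `φ f / φ g` with `π ∤ g`. PROOF. `x = φ f / φ g` with
`f`, `g` coprime (divide by the gcd, `EuclideanDomain`); if `π ∣ g` then `π ∤ f`, so `V.v x < 0`
(`primeVal_D`). -/
lemma RF1.exists_of_int (h : RF1 φ D) {π : K[X]} (hπ : Prime π) {x : F}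
    (hx : (primeVal h.frac hπ).D 0 x) : ∃ f g : K[X], ¬ π ∣ g ∧ x = φ f / φ g := by
  obtain ⟨f, g, hg, hxe⟩ := h.frac.surj x
  have hfin : FiniteMultiplicity π g := FiniteMultiplicity.of_prime_left hπ hg
  obtain ⟨g', hg', hndvd⟩ := hfin.exists_eq_pow_mul_and_not_dvd
  generalize multiplicity π g = m at hg'
  have h1 : (primeVal h.frac hπ).D (m : ℤ) (φ g) := (primeVal_D h.frac hπ m g).2 ⟨g', hg'⟩
  have h2 : φ f = x * φ g := by
    rw [hxe, div_mul_cancel₀ _ (h.ne hg)]
  have h3 : (primeVal h.frac hπ).D (m : ℤ) (φ f) := by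
    rw [h2]
    have h4 := DVal.D_mul hx h1
    rwa [zero_add] at h4
  obtain ⟨f', hf'⟩ := (primeVal_D h.frac hπ m f).1 h3
  refine ⟨f', g', hndvd, ?_⟩
  have hπm : φ (π ^ m) ≠ 0 := h.ne (pow_ne_zero m hπ.ne_zero)
  rw [hxe, hf', hg', map_mul, map_mul, mul_div_mul_left _ _ hπm]

private lemma plcFin_div (h : RF1 φ D) {π : K[X]} (hπ : Prime π) {N W : K[X]} {k : ℕ}
    (hN : π ^ k ∣ N) (hW : ¬ π ∣ W) : (primeVal h.frac hπ).D (k : ℤ) (φ N / φ W) := by
  by_cases hN0 : N = 0
  · rw [hN0, map_zero, zero_div]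
    exact DVal.D_zero _
  have hW0 : W ≠ 0 := fun h0 => hW (by rw [h0]; exact dvd_zero _)
  have h1 : ¬ (primeVal h.frac hπ).D ((1 : ℕ) : ℤ) (φ W) := fun h1 =>
    hW (by simpa using (primeVal_D h.frac hπ 1 W).1 h1)
  rw [DVal.not_D_iff (h.ne hW0)] at h1
  have h2 := (primeVal_D h.frac hπ k N).2 hN
  rw [DVal.D_iff (h.ne hN0)] at h2
  rw [DVal.D_iff (div_ne_zero (h.ne hN0) (h.ne hW0)), DVal.v_div (h.ne hN0) (h.ne hW0)]
  push_cast at h1
  omega

/-- THE FINITE PLACES. PROOF of `int`: `x = φ f / φ g` with `π ∤ g`;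
`D x = φ (f' g - f g') / φ g ^ 2` is integral, and `φ π / φ π'` has valuation `1`. `unif`: `φ π`.
`nat`: a nonzero constant is not divisible by `π`. -/
theorem RF1.ld_prime (h : RF1 φ D) {π : K[X]} (hπ : Prime π) :
    LD (primeVal h.frac hπ) ((φ π / φ (derivative π)) • D) := by
  obtain ⟨hd0, hnd⟩ := prime_not_dvd_derivative hπ
  have hap : ∀ x, ((φ π / φ (derivative π)) • D) x = φ π / φ (derivative π) * D x := fun x => rfl
  refine ⟨?_, ?_, ?_⟩
  · intro x hx
    rw [hap]
    obtain ⟨f, g, hg, rfl⟩ := h.exists_of_int hπ hx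
    have hg0 : g ≠ 0 := fun h0 => hg (by rw [h0]; exact dvd_zero _)
    have hg' := h.ne hg0
    have hd' := h.ne hd0
    have h1 : φ π / φ (derivative π) * D (φ f / φ g) =
        φ (π * (derivative f * g - f * derivative g)) / φ (derivative π * g ^ 2) := by
      rw [Derivation.leibniz_div, h.D_map, h.D_map]
      simp only [smul_eq_mul, map_mul, map_sub, map_pow]
      field_simp
    rw [h1]
    have h2 : ¬ π ∣ derivative π * g ^ 2 := by
      intro h3
      rcases hπ.dvd_or_dvd h3 with h4 | h4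
      · exact hnd h4
      · exact hg (hπ.dvd_of_dvd_pow h4)
    have h3 : π ^ 1 ∣ π * (derivative f * g - f * derivative g) := by
      rw [pow_one]
      exact dvd_mul_right _ _
    have h4 := plcFin_div h hπ h3 h2
    simpa using h4
  · refine ⟨φ π, h.ne hπ.ne_zero, ?_, ?_⟩
    · have h1 := (primeVal_D h.frac hπ 1 π).2 (by rw [pow_one])
      have h2 : ¬ (primeVal h.frac hπ).D ((2 : ℕ) : ℤ) (φ π) := by
        intro h3
        have h4 := (primeVal_D h.frac hπ 2 π).1 h3
        obtain ⟨c, hc⟩ := h4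
        have h5 : π * (π * c - 1) = 0 := by
          linear_combination -hc
        rcases mul_eq_zero.1 h5 with h6 | h6
        · exact hπ.ne_zero h6
        · exact hπ.not_isUnit (isUnit_iff_exists_inv.2 ⟨c, by linear_combination h6⟩)
      rw [DVal.D_iff (h.ne hπ.ne_zero)] at h1
      rw [DVal.not_D_iff (h.ne hπ.ne_zero)] at h2
      push_cast at h1 h2
      omega
    · rw [hap, h.D_map, div_mul_cancel₀ _ (h.ne hd0)]
  · intro n hn h1
    have h2 : (n : F) = φ (n : K[X]) := (map_intCast φ n).symm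
    rw [h2] at h1
    have h3 : π ^ 1 ∣ (n : K[X]) := (primeVal_D h.frac hπ 1 (n : K[X])).1 (by simpa using h1)
    rw [pow_one] at h3
    have hn' : (n : K) ≠ 0 := Int.cast_ne_zero.mpr hn
    have h4 : IsUnit (n : K[X]) := by
      have h5 : (n : K[X]) = C (n : K) := by simp
      rw [h5]
      exact isUnit_C.2 (isUnit_iff_ne_zero.2 hn')
    exact hπ.not_isUnit (isUnit_of_dvd_unit h3 h4)

/-- THE VALUATION AT INFINITY. PROOF. `v x = natDegree g - natDegree f` for `x = φ f / φ g`
(independent of the choice; see `G.exists_dval` for the pattern; `natDegree_mul`). -/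
theorem exists_infVal (hφ : IsFrac φ) :
    ∃ V : DVal F, ∀ f g : K[X], f ≠ 0 → g ≠ 0 →
      V.v (φ f / φ g) = (g.natDegree : ℤ) - f.natDegree := by
  classical
  have hmul : ∀ {f g : K[X]}, f ≠ 0 → g ≠ 0 →
      (f * g).natDegree = f.natDegree + g.natDegree := fun hf hg => natDegree_mul hf hg
  have h0 : ∀ {f : K[X]}, φ f = 0 ↔ f = 0 := fun {f} =>
    ⟨fun h => hφ.inj (by rw [h, map_zero]), fun h => by rw [h, map_zero]⟩
  choose A B hB hAB using hφ.surj
  have hφB : ∀ x, φ (B x) ≠ 0 := fun x h => hB x (h0.1 h)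
  have hA : ∀ {x : F}, x ≠ 0 → A x ≠ 0 := fun {x} hx h => hx (by rw [hAB x, h, map_zero, zero_div])
  have key : ∀ {x : F} {f g : K[X]}, x ≠ 0 → g ≠ 0 → x = φ f / φ g →
      ((B x).natDegree : ℤ) - (A x).natDegree = (g.natDegree : ℤ) - f.natDegree := by
    intro x f g hx hg e
    have hf : f ≠ 0 := fun h => hx (by rw [e, h, map_zero, zero_div])
    have hg' : φ g ≠ 0 := fun h => hg (h0.1 h)
    have e1 : φ (A x) / φ (B x) = φ f / φ g := by rw [← hAB x, e]
    rw [div_eq_div_iff (hφB x) hg', ← map_mul, ← map_mul] at e1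
    have e2 : A x * g = f * B x := hφ.inj e1
    have e3 := congrArg natDegree e2
    rw [hmul (hA hx) hg, hmul hf (hB x)] at e3
    omega
  refine ⟨⟨fun x => ((B x).natDegree : ℤ) - (A x).natDegree, ?_, ?_⟩, ?_⟩
  · intro x y hx hy
    have e : x * y = φ (A x * A y) / φ (B x * B y) := by
      conv_lhs => rw [hAB x, hAB y]
      rw [map_mul, map_mul, div_mul_div_comm]
    have := key (mul_ne_zero hx hy) (mul_ne_zero (hB x) (hB y)) e
    rw [this, hmul (hA hx) (hA hy), hmul (hB x) (hB y)]
    push_cast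
    ring
  · intro x y hx hy hxy
    have e : x + y = φ (A x * B y + B x * A y) / φ (B x * B y) := by
      conv_lhs => rw [hAB x, hAB y]
      rw [map_add, map_mul, map_mul, map_mul, div_add_div _ _ (hφB x) (hφB y)]
    have h1 := key hxy (mul_ne_zero (hB x) (hB y)) e
    rw [h1, hmul (hB x) (hB y)]
    have h2 := natDegree_add_le (A x * B y) (B x * A y)
    rw [hmul (hA hx) (hB y), hmul (hB x) (hA hy)] at h2
    omega
  · intro f g hf hg
    have hx : φ f / φ g ≠ 0 := div_ne_zero (fun h => hf (h0.1 h)) (fun h => hg (h0.1 h))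
    exact key hx hg rfl

/-- The valuation at infinity. -/
noncomputable def infVal (hφ : IsFrac φ) : DVal F := Classical.choose (exists_infVal hφ)

lemma infVal_v (hφ : IsFrac φ) {f g : K[X]} (hf : f ≠ 0) (hg : g ≠ 0) :
    (infVal hφ).v (φ f / φ g) = (g.natDegree : ℤ) - f.natDegree :=
  Classical.choose_spec (exists_infVal hφ) f g hf hg

private lemma plcInf_D_map (h : RF1 φ D) (f : K[X]) : D (φ f) = φ (derivative f) := by
  induction f using Polynomial.induction_on' with
  | add p q hp hq => rw [map_add, map_add, hp, hq, derivative_add, map_add]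
  | monomial n c =>
    rw [← C_mul_X_pow_eq_monomial, map_mul, map_pow, Derivation.leibniz, Derivation.leibniz_pow,
      h.map_C, h.map_X]
    simp only [smul_eq_mul, mul_one, mul_zero, add_zero, nsmul_eq_mul]
    rw [derivative_C_mul_X_pow]
    simp only [map_mul, map_pow, C_mul, map_natCast]
    ring

private lemma plcInf_aux (h : RF1 φ D) {f g : K[X]} (hg : g ≠ 0)
    (hfg : f = 0 ∨ f.natDegree < g.natDegree) :
    (infVal h.frac).D 1 (-φ X * D (φ f / φ g)) := by
  rcases hfg with rfl | hlt
  · rw [map_zero, zero_div, map_zero, mul_zero]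
    exact DVal.D_zero _
  have hg' := h.ne hg
  have h1 : -φ X * D (φ f / φ g) =
      φ (X * (f * derivative g - derivative f * g)) / φ (g ^ 2) := by
    rw [Derivation.leibniz_div, plcInf_D_map h, plcInf_D_map h]
    simp only [smul_eq_mul, map_mul, map_sub, map_pow]
    field_simp
    ring
  rw [h1]
  set N := X * (f * derivative g - derivative f * g) with hN
  by_cases hN0 : N = 0
  · rw [hN0, map_zero, zero_div]
    exact DVal.D_zero _
  have hg2 : g ^ 2 ≠ 0 := pow_ne_zero 2 hg
  rw [DVal.D_iff (div_ne_zero (h.ne hN0) (h.ne hg2)), infVal_v h.frac hN0 hg2, natDegree_pow]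
  have hb : N.natDegree ≤ f.natDegree + g.natDegree := by
    have e1 : N = f * (X * derivative g) - (X * derivative f) * g := by rw [hN]; ring
    have e2 : ∀ p : K[X], (X * derivative p).natDegree ≤ p.natDegree := by
      intro p
      by_cases hp : derivative p = 0
      · rw [hp, mul_zero, natDegree_zero]
        exact Nat.zero_le _
      · have hp1 : p.natDegree ≠ 0 := by
          intro h0
          exact hp (by rw [eq_C_of_natDegree_eq_zero h0, derivative_C])
        have h2 := natDegree_derivative_lt hp1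
        rw [natDegree_X_mul hp]
        omega
    rw [e1]
    refine le_trans (natDegree_sub_le _ _) (max_le ?_ ?_)
    · exact le_trans natDegree_mul_le (Nat.add_le_add_left (e2 g) _)
    · exact le_trans natDegree_mul_le (Nat.add_le_add_right (e2 f) _)
  push_cast
  omega

/-- THE PLACE AT INFINITY, `δ = -t d/dt`. PROOF of `int`: `x = φ f / φ g` with
`natDegree f ≤ natDegree g`, `-t D x = -t (f' g - f g') / g^2`: if `natDegree f < natDegree g` the
degree of the numerator is `≤ natDegree f + natDegree g < 2 natDegree g`; if they are equal, the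
leading coefficients of `t f' g` and `t f g'` cancel (both are `n lc(f) lc(g)`). `unif`: `(φ X)⁻¹`.
`nat`: constants have valuation `0`. -/
theorem RF1.ld_inf (h : RF1 φ D) :
    LD (infVal h.frac) ((-φ X) • D) := by
  have hap : ∀ x, ((-φ X) • D) x = -φ X * D x := fun x => rfl
  refine ⟨?_, ?_, ?_⟩
  · intro x hx
    rw [hap]
    obtain ⟨f, g, hg, rfl⟩ := h.frac.surj x
    by_cases hf : f = 0
    · subst hf
      rw [map_zero, zero_div, map_zero, mul_zero]
      exact DVal.D_zero _
    have hfg : φ f / φ g ≠ 0 := div_ne_zero (h.ne hf) (h.ne hg)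
    rw [DVal.D_iff hfg, infVal_v h.frac hf hg] at hx
    have hdeg : f.natDegree ≤ g.natDegree := by omega
    rcases hdeg.lt_or_eq with hlt | heq
    · exact plcInf_aux h hg (Or.inr hlt)
    · have hc : φ f / φ g = φ (C (f.leadingCoeff / g.leadingCoeff)) +
          φ (f - C (f.leadingCoeff / g.leadingCoeff) * g) / φ g := by
        have hg' := h.ne hg
        rw [map_sub, map_mul]
        field_simp
        ring
      have hD : D (φ f / φ g) =
          D (φ (f - C (f.leadingCoeff / g.leadingCoeff) * g) / φ g) := by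
        rw [hc, map_add, h.map_C, zero_add]
      rw [hD]
      apply plcInf_aux h hg
      by_cases h1 : f - C (f.leadingCoeff / g.leadingCoeff) * g = 0
      · exact Or.inl h1
      right
      have hlc : g.leadingCoeff ≠ 0 := leadingCoeff_ne_zero.mpr hg
      have hlf : f.leadingCoeff ≠ 0 := leadingCoeff_ne_zero.mpr hf
      have hcc : f.leadingCoeff / g.leadingCoeff ≠ 0 := div_ne_zero hlf hlc
      have h2 : degree (f - C (f.leadingCoeff / g.leadingCoeff) * g) < degree f := by
        apply degree_sub_lt _ hf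
        · rw [leadingCoeff_mul, leadingCoeff_C, div_mul_cancel₀ _ hlc]
        · rw [degree_C_mul hcc, degree_eq_natDegree hf, degree_eq_natDegree hg, heq]
      have h3 := natDegree_lt_natDegree h1 h2
      omega
  · refine ⟨(φ X)⁻¹, inv_ne_zero (h.ne X_ne_zero), ?_, ?_⟩
    · have h1 := infVal_v h.frac (f := (1 : K[X])) (g := X) one_ne_zero X_ne_zero
      rw [map_one, one_div] at h1
      rw [h1]
      simp
    · rw [hap]
      have hX := h.ne (X_ne_zero (R := K))
      have h1 : D ((φ X)⁻¹) = -(φ X)⁻¹ ^ 2 * D (φ X) := by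
        rw [Derivation.leibniz_inv]
        simp
      rw [h1, h.map_X]
      field_simp
  · intro n hn
    have hn' : (n : K) ≠ 0 := Int.cast_ne_zero.mpr hn
    have hnF : (n : F) ≠ 0 := Int.cast_ne_zero.mpr hn
    have h1 : (n : F) = φ (C (n : K)) / φ 1 := by
      rw [map_one, div_one]
      simp
    rw [DVal.not_D_iff hnF, h1, infVal_v h.frac (C_ne_zero.mpr hn') one_ne_zero]
    simp

/-- An element which is integral at all finite places is a polynomial. -/
lemma RF1.poly_of_int (h : RF1 φ D) {x : F}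
    (hx : ∀ (π : K[X]) (hπ : Prime π), (primeVal h.frac hπ).D 0 x) : ∃ f : K[X], x = φ f := by
  obtain ⟨f, g, hg, rfl⟩ := h.frac.surj x
  revert f
  induction g using UniqueFactorizationMonoid.induction_on_prime with
  | h₁ => exact absurd rfl hg
  | h₂ g hu =>
    intro f _
    obtain ⟨u, hu⟩ := isUnit_iff_exists_inv.1 hu
    refine ⟨f * u, ?_⟩
    rw [div_eq_iff (h.ne hg), ← map_mul, mul_assoc, mul_comm u g, hu, mul_one]
  | h₃ a p ha hp ih =>
    intro f hx
    have h1 := hx p hp
    have hpa : φ (p * a) ≠ 0 := h.ne hg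
    have h2 : (primeVal h.frac hp).D ((1 : ℕ) : ℤ) (φ (p * a)) :=
      (primeVal_D h.frac hp 1 (p * a)).2 (by rw [pow_one]; exact dvd_mul_right _ _)
    have h3 : (primeVal h.frac hp).D ((1 : ℕ) : ℤ) (φ f) := by
      have h4 := DVal.D_mul h1 h2
      rwa [div_mul_cancel₀ _ hpa, zero_add] at h4
    obtain ⟨f', hf'⟩ := (primeVal_D h.frac hp 1 f).1 h3
    rw [pow_one] at hf'
    have h5 : φ f / φ (p * a) = φ f' / φ a := by
      rw [hf', map_mul, map_mul, mul_div_mul_left _ _ (h.ne hp.ne_zero)]
    rw [h5] at hx ⊢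
    exact ih ha f' hx

/-- An element with nonzero derivative has a pole somewhere. PROOF. Otherwise `x = φ f`
(`poly_of_int`) with `natDegree f ≤ 0` (`infVal_v` with `g = 1`), a constant, so `D x = 0`. -/
lemma RF1.exists_pole (h : RF1 φ D) {x : F} (hx : D x ≠ 0) :
    (∃ (π : K[X]) (hπ : Prime π), (primeVal h.frac hπ).v x < 0) ∨ (infVal h.frac).v x < 0 := by
  by_contra hcon
  push Not at hcon
  obtain ⟨h1, h2⟩ := hcon
  obtain ⟨f, rfl⟩ := h.poly_of_int fun π hπ => Or.inr (h1 π hπ)
  have hf : f ≠ 0 := by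
    rintro rfl
    exact hx (by rw [map_zero, map_zero])
  have h3 := infVal_v h.frac (f := f) (g := 1) hf one_ne_zero
  rw [map_one, div_one] at h3
  rw [h3] at h2
  have h4 : f.natDegree = 0 := by
    rw [natDegree_one] at h2
    omega
  apply hx
  rw [eq_C_of_natDegree_eq_zero h4, h.map_C]

end Pool.Agent.Lib.MP_3550b5_nt.SV
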