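import Mathlib
import Pool.Agent.Lib.MP_3550b5_nt.SV.Plc

/-!
Project SV, part M: the poles of a solution of a linear system over `K(t)`.
-/

namespace Pool.Agent.Lib.MP_3550b5_nt.SV

open G Polynomial

variable {K F : Type*} [Field K] [CharZero K] [Field F] [CharZero F] {φ : K[X] →+* F}
  {D : Derivation ℤ F F}

private lemma dp_zero (h : RF1 φ D) {π : K[X]} (hπ : Prime π) (f : K[X]) :
    (primeVal h.frac hπ).D 0 (φ f) := by
  have h1 := (primeVal_D h.frac hπ 0 f).2 (by rw [pow_zero]; exact one_dvd f)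
  exact_mod_cast h1

/-- A polynomial which is not divisible by `π` is a unit at `π`. -/
private lemma dp_unit (h : RF1 φ D) {π : K[X]} (hπ : Prime π) {f : K[X]} (hf : ¬ π ∣ f) :
    (primeVal h.frac hπ).v (φ f) = 0 := by
  have hf0 : φ f ≠ 0 := h.ne fun h0 => hf (h0 ▸ dvd_zero π)
  have h1 := dp_zero h hπ f
  have h2 : ¬ (primeVal h.frac hπ).D ((1 : ℕ) : ℤ) (φ f) := fun h3 => hf (by
    have := (primeVal_D h.frac hπ 1 f).1 h3
    rwa [pow_one] at this)
  rw [DVal.D_iff hf0] at h1 h2
  push_cast at h2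
  omega

/-- `π / π'` is in the maximal ideal. -/
private lemma dp_ratio (h : RF1 φ D) {π : K[X]} (hπ : Prime π) :
    (primeVal h.frac hπ).D 1 (φ π / φ (derivative π)) := by
  obtain ⟨h1, h2⟩ := prime_not_dvd_derivative hπ
  have h3 := h.ne h1
  have h4 := h.ne hπ.ne_zero
  have h5 : (primeVal h.frac hπ).D ((1 : ℕ) : ℤ) (φ π) :=
    (primeVal_D h.frac hπ 1 π).2 (by rw [pow_one])
  rw [DVal.D_iff h4] at h5
  rw [DVal.D_iff (div_ne_zero h4 h3), DVal.v_div h4 h3, dp_unit h hπ h2]
  push_cast at h5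
  omega

/-- If `q x` is a polynomial and `π ∤ q` then `x` is integral at `π`. -/
private lemma dp_int (h : RF1 φ D) {π : K[X]} (hπ : Prime π) {q : K[X]} (hq : ¬ π ∣ q) {x : F}
    (hx : ∃ f, φ q * x = φ f) : (primeVal h.frac hπ).D 0 x := by
  obtain ⟨f, hf⟩ := hx
  have hq0 : φ q ≠ 0 := h.ne fun h0 => hq (h0 ▸ dvd_zero π)
  by_cases hx0 : x = 0
  · rw [hx0]
    exact DVal.D_zero 0
  · have h1 := dp_zero h hπ f
    rw [← hf, DVal.D_iff (mul_ne_zero hq0 hx0), (primeVal h.frac hπ).map_mul hq0 hx0,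
      dp_unit h hπ hq, zero_add] at h1
    rwa [DVal.D_iff hx0]

/-- If `x` is integral at all primes not dividing `q ≠ 0` then `q^N x` is a polynomial for some
`N`. PROOF. `x = φ f / φ g`, `f`, `g` coprime, `g ≠ 0`. Every prime divisor of `g` divides `q`
(otherwise `V.v x < 0`), so `g ∣ q^N` (induction on the factorization of `g`, or
`N` = number of prime factors of `g`). -/
lemma RF1.poly_of_int_away (h : RF1 φ D) {q : K[X]} (hq : q ≠ 0) {x : F}
    (hx : ∀ (π : K[X]) (hπ : Prime π), ¬ π ∣ q → (primeVal h.frac hπ).D 0 x) :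
    ∃ (N : ℕ) (f : K[X]), φ q ^ N * x = φ f := by
  obtain ⟨f, g, hg, rfl⟩ := h.frac.surj x
  refine ⟨g.natDegree, h.poly_of_int fun π hπ => ?_⟩
  rw [← map_pow]
  by_cases hπq : π ∣ q
  · by_cases hf : f = 0
    · rw [hf, map_zero, zero_div, mul_zero]
      exact DVal.D_zero 0
    · have hf0 := h.ne hf
      have hg0 := h.ne hg
      have h1 : (primeVal h.frac hπ).D (g.natDegree : ℤ) (φ (q ^ g.natDegree)) :=
        (primeVal_D h.frac hπ _ _).2 (pow_dvd_pow_of_dvd hπq _)
      have h2 : (primeVal h.frac hπ).v (φ g) ≤ g.natDegree := by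
        by_contra hcon
        have h3 : (primeVal h.frac hπ).D ((g.natDegree + 1 : ℕ) : ℤ) (φ g) := by
          rw [DVal.D_iff hg0]
          push_cast
          omega
        have h4 := (primeVal_D h.frac hπ _ _).1 h3
        have h5 := Polynomial.natDegree_le_of_dvd h4 hg
        rw [natDegree_pow] at h5
        have h6 : 1 ≤ π.natDegree := hπ.irreducible.natDegree_pos
        nlinarith
      have h3 := dp_zero h hπ f
      have h4 : (primeVal h.frac hπ).D (-(g.natDegree : ℤ)) (φ f / φ g) := by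
        rw [DVal.D_iff hf0] at h3
        rw [DVal.D_iff (div_ne_zero hf0 hg0), DVal.v_div hf0 hg0]
        omega
      exact DVal.D_mul' h1 h4 (by omega)
  · exact DVal.D_mul' (dp_zero h hπ _) (hx π hπ hπq) (by norm_num)

/-- POLES of a solution of a linear system. `G, H, A, T` are such that `q G`, ... are polynomials.
PROOF. Let `π` be a prime with `π ∤ q`: `G, H, A, T` are integral at `π`, and with
`δ = (φ π / φ π') • D` (`ld_prime`) the system has coefficients in the maximal ideal: `LD.sys_int`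
(the determinant is `m ^ 2` modulo the maximal ideal). Then `poly_of_int_away` (take the
sum of the two exponents). -/
theorem RF1.poles (h : RF1 φ D) {q : K[X]} (hq : q ≠ 0) {G H A T z Ph : F}
    (hG : ∃ f, φ q * G = φ f) (hH : ∃ f, φ q * H = φ f) (hA : ∃ f, φ q * A = φ f)
    (hT : ∃ f, φ q * T = φ f)
    (h1 : D z = -G * z - H * Ph) (h2 : D Ph = G * Ph - A * z + T) :
    ∃ (N : ℕ) (f g : K[X]), φ q ^ N * z = φ f ∧ φ q ^ N * Ph = φ g := by
  have key : ∀ (π : K[X]) (hπ : Prime π), ¬ π ∣ q →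
      (primeVal h.frac hπ).D 0 z ∧ (primeVal h.frac hπ).D 0 Ph := by
    intro π hπ hπq
    have hL := h.ld_prime hπ
    have hr := dp_ratio h hπ
    have iG := DVal.D_mul' hr (dp_int h hπ hπq hG) (show (1 : ℤ) ≤ 1 + 0 by norm_num)
    have iH := DVal.D_mul' hr (dp_int h hπ hπq hH) (show (1 : ℤ) ≤ 1 + 0 by norm_num)
    have iA := DVal.D_mul' hr (dp_int h hπ hπq hA) (show (1 : ℤ) ≤ 1 + 0 by norm_num)
    have iT := DVal.D_mul' hr (dp_int h hπ hπq hT) (show (1 : ℤ) ≤ 1 + 0 by norm_num)
    have m0 : ∀ {x : F}, (primeVal h.frac hπ).D 1 x → (primeVal h.frac hπ).D 0 x :=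
      fun hx => DVal.D_mono (by norm_num) hx
    refine hL.sys_int (α := -(φ π / φ (derivative π) * G)) (β := -(φ π / φ (derivative π) * H))
      (γ := -(φ π / φ (derivative π) * A)) (ε := φ π / φ (derivative π) * G) (A := 0)
      (B := φ π / φ (derivative π) * T) (m0 (DVal.D_neg iG)) (m0 (DVal.D_neg iH))
      (m0 (DVal.D_neg iA)) (m0 iG) (DVal.D_zero 0) (m0 iT) ?_ ?_ ?_
    · intro m hm hcon
      have e1 : ((m : F) ^ 2 + (-(φ π / φ (derivative π) * G) + φ π / φ (derivative π) * G) * m +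
          (-(φ π / φ (derivative π) * G) * (φ π / φ (derivative π) * G) -
            -(φ π / φ (derivative π) * H) * -(φ π / φ (derivative π) * A))) =
          (((m : ℤ) ^ 2 : ℤ) : F) - (φ π / φ (derivative π) * G * (φ π / φ (derivative π) * G) +
            φ π / φ (derivative π) * H * (φ π / φ (derivative π) * A)) := by
        push_cast
        ring
      rw [e1] at hcon
      have h3 : (primeVal h.frac hπ).D 1 (φ π / φ (derivative π) * G * (φ π / φ (derivative π) * G) +
            φ π / φ (derivative π) * H * (φ π / φ (derivative π) * A)) :=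
        DVal.D_add (DVal.D_mul' iG iG (by norm_num)) (DVal.D_mul' iH iA (by norm_num))
      have h4 := DVal.D_add hcon h3
      rw [sub_add_cancel] at h4
      exact hL.nat _ (pow_ne_zero 2 (by omega)) h4
    · rw [Derivation.smul_apply, smul_eq_mul, h1]
      ring
    · rw [Derivation.smul_apply, smul_eq_mul, h2]
      ring
  obtain ⟨N1, f, hf⟩ := h.poly_of_int_away hq fun π hπ hπq => (key π hπ hπq).1
  obtain ⟨N2, g, hg⟩ := h.poly_of_int_away hq fun π hπ hπq => (key π hπ hπq).2
  refine ⟨N1 + N2, q ^ N2 * f, q ^ N1 * g, ?_, ?_⟩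
  · rw [map_mul, map_pow, ← hf, pow_add]
    ring
  · rw [map_mul, map_pow, ← hg, pow_add]
    ring

end Pool.Agent.Lib.MP_3550b5_nt.SV
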