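import Mathlib
import Pool.Agent.Lib.MP_3550b5_nt.SV.Plc

/-!
Project SV, part M: auxiliary lemmas for the descent of linear systems from `K(t)` to `ℚ(t)`
(used in `Desc.lean`).
-/

namespace Pool.Agent.Lib.MP_3550b5_nt.SV

open G Polynomial

lemma descX_functional {K : Type*} [Field K] [CharZero K] {κ : K} (hκ : κ ≠ 0) :
    ∃ ψ : K →ₗ[ℚ] ℚ, ψ κ ≠ 0 := by
  by_contra hcon
  push Not at hcon
  exact hκ ((Module.forall_dual_apply_eq_zero_iff ℚ κ).1 hcon)

/-- Coefficientwise application of an additive map. -/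
noncomputable def descXmap {K L : Type*} [Field K] [Field L] (ψ : K →+ L) (f : K[X]) : L[X] :=
  f.sum fun n a => monomial n (ψ a)

lemma descXmap_coeff {K L : Type*} [Field K] [Field L] (ψ : K →+ L) (f : K[X]) (n : ℕ) :
    (descXmap ψ f).coeff n = ψ (f.coeff n) := by
  unfold descXmap
  rw [Polynomial.sum, finsetSum_coeff]
  simp only [coeff_monomial]
  rw [Finset.sum_ite_eq']
  split_ifs with h
  · rfl
  · rw [notMem_support_iff.1 h, map_zero]

lemma descX_poly_functional {K : Type*} [Field K] [CharZero K] (ψ : K →ₗ[ℚ] ℚ) :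
    ∃ Ψ : K[X] →+ ℚ[X],
    (∀ (f : ℚ[X]) (g : K[X]), Ψ (f.map (algebraMap ℚ K) * g) = f * Ψ g) ∧
    (∀ g, Ψ (derivative g) = derivative (Ψ g)) ∧ ∀ c : K, Ψ (C c) = C (ψ c) := by
  refine ⟨⟨⟨fun f => descXmap ψ.toAddMonoidHom f, ?_⟩, ?_⟩, ?_, ?_, ?_⟩
  · ext n
    rw [descXmap_coeff, coeff_zero, coeff_zero, map_zero]
  · intro f g
    ext n
    simp only [descXmap_coeff, coeff_add, map_add]
  · intro f g
    change descXmap ψ.toAddMonoidHom (f.map (algebraMap ℚ K) * g) =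
      f * descXmap ψ.toAddMonoidHom g
    ext n
    rw [descXmap_coeff, coeff_mul, coeff_mul, map_sum]
    refine Finset.sum_congr rfl fun x _ => ?_
    rw [descXmap_coeff, coeff_map]
    change ψ _ = _ * ψ _
    rw [← Algebra.smul_def, map_smul, smul_eq_mul]
  · intro g
    change descXmap ψ.toAddMonoidHom (derivative g) = derivative (descXmap ψ.toAddMonoidHom g)
    ext n
    rw [descXmap_coeff, coeff_derivative, coeff_derivative, descXmap_coeff]
    change ψ _ = ψ _ * _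
    have e : g.coeff (n + 1) * ((n : K) + 1) = ((n : ℚ) + 1) • g.coeff (n + 1) := by
      rw [Algebra.smul_def, map_add, map_natCast, map_one]
      ring
    rw [e, map_smul, smul_eq_mul]
    ring
  · intro c
    change descXmap ψ.toAddMonoidHom (C c) = C (ψ c)
    ext n
    rw [descXmap_coeff, coeff_C, coeff_C]
    split_ifs
    · rfl
    · exact map_zero _

/-- A common denominator. -/
lemma descX_denom {K F : Type*} [Field K] [Field F] {φ : K[X] →+* F} (hφ : IsFrac φ) {r : ℕ}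
    (x : Fin r → F) : ∃ q : K[X], q ≠ 0 ∧ ∀ i, ∃ f, φ q * x i = φ f := by
  classical
  have h0 : ∀ {f : K[X]}, f ≠ 0 → φ f ≠ 0 := fun {f} hf h =>
    hf (hφ.inj (by rw [h, map_zero]))
  choose A B hB hAB using hφ.surj
  refine ⟨∏ i, B (x i), Finset.prod_ne_zero_iff.2 fun i _ => hB _, fun i =>
    ⟨(∏ j ∈ Finset.univ.erase i, B (x j)) * A (x i), ?_⟩⟩
  rw [← Finset.mul_prod_erase Finset.univ (fun j => B (x j)) (Finset.mem_univ i), map_mul, map_mul]
  have e : φ (B (x i)) * x i = φ (A (x i)) := by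
    conv_lhs => rw [hAB (x i)]
    have := h0 (hB (x i))
    rw [← hAB (x i)]
    nth_rewrite 2 [hAB (x i)]
    rw [mul_div_cancel₀ _ this]
  calc φ (B (x i)) * φ (∏ j ∈ Finset.univ.erase i, B (x j)) * x i
      = φ (∏ j ∈ Finset.univ.erase i, B (x j)) * (φ (B (x i)) * x i) := by ring
    _ = _ := by rw [e]

/-- The derivative of a fraction with denominator `q^N`, denominators cleared. -/
lemma descX_D {K F : Type*} [Field K] [CharZero K] [Field F] [CharZero F] {φ : K[X] →+* F}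
    {D : Derivation ℤ F F} (h : RF1 φ D) {q f : K[X]} {Z : F} {N : ℕ}
    (hZ : φ q ^ N * Z = φ f) :
    φ q ^ (N + 1) * D Z = φ (q * derivative f - N * (derivative q * f)) := by
  have h1 := congrArg D hZ
  rw [Derivation.leibniz, Derivation.leibniz_pow, h.D_map, h.D_map, smul_eq_mul, smul_eq_mul,
    smul_eq_mul, nsmul_eq_mul] at h1
  have h2 : φ q * ((N : F) * (φ q ^ (N - 1) * φ (derivative q))) =
      N * (φ q ^ N * φ (derivative q)) := by
    rcases N with _ | N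
    · simp
    · rw [Nat.add_sub_cancel]
      ring
  rw [map_sub, map_mul, map_mul, map_mul, map_natCast, ← h1, ← hZ]
  linear_combination -Z * h2

/-- The equations of the system for the numerators. -/
lemma descX_eqs {K F : Type*} [Field K] [CharZero K] [Field F] [CharZero F] {φ : K[X] →+* F}
    {D : Derivation ℤ F F} (h : RF1 φ D) {q G' H' A' T' : K[X]} {G H A T z Ph : F}
    (hG : φ q * G = φ G') (hH : φ q * H = φ H') (hA : φ q * A = φ A') (hT : φ q * T = φ T')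
    {N : ℕ} {f g : K[X]} (hf : φ q ^ N * z = φ f) (hg : φ q ^ N * Ph = φ g)
    (h1 : D z = -G * z - H * Ph) (h2 : D Ph = G * Ph - A * z + T) :
    q * derivative f - N * (derivative q * f) = -(G' * f) - H' * g ∧
    q * derivative g - N * (derivative q * g) = G' * g - A' * f + q ^ N * T' := by
  constructor
  · apply h.frac.inj
    rw [← descX_D h hf, h1, map_sub, map_neg, map_mul, map_mul, ← hG, ← hH, ← hf, ← hg]
    ring
  · apply h.frac.inj
    rw [← descX_D h hg, h2, map_add, map_sub, map_mul, map_mul, map_mul, map_pow, ← hG, ← hA, ← hT,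
      ← hf, ← hg]
    ring

/-- Conversely: the system from the equations for the numerators. -/
lemma descX_back {K F : Type*} [Field K] [CharZero K] [Field F] [CharZero F] {φ : K[X] →+* F}
    {D : Derivation ℤ F F} (h : RF1 φ D) {q G' H' A' T' : K[X]} {G H A T z Ph : F} (hq : q ≠ 0)
    (hG : φ q * G = φ G') (hH : φ q * H = φ H') (hA : φ q * A = φ A') (hT : φ q * T = φ T')
    {N : ℕ} {f g : K[X]} (hf : φ q ^ N * z = φ f) (hg : φ q ^ N * Ph = φ g)
    (h1 : q * derivative f - N * (derivative q * f) = -(G' * f) - H' * g)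
    (h2 : q * derivative g - N * (derivative q * g) = G' * g - A' * f + q ^ N * T') :
    D z = -G * z - H * Ph ∧ D Ph = G * Ph - A * z + T := by
  have hq' : φ q ^ (N + 1) ≠ 0 := pow_ne_zero _ (h.ne hq)
  constructor
  · apply mul_left_cancel₀ hq'
    rw [descX_D h hf, h1, map_sub, map_neg, map_mul, map_mul, ← hG, ← hH, ← hf, ← hg]
    ring
  · apply mul_left_cancel₀ hq'
    rw [descX_D h hg, h2, map_add, map_sub, map_mul, map_mul, map_mul, map_pow, ← hG, ← hA, ← hT,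
      ← hf, ← hg]
    ring

/-- A common denominator of finitely many rational numbers. -/
lemma descX_clear {r : ℕ} (c : Fin r → ℚ) : ∃ m : ℤ, m ≠ 0 ∧ ∃ k : Fin r → ℤ,
    ∀ i, (k i : ℚ) = m * c i := by
  obtain ⟨b, hb⟩ := IsLocalization.exist_integer_multiples_of_finite (nonZeroDivisors ℤ) c
  choose k hk using hb
  refine ⟨b, nonZeroDivisors.coe_ne_zero b, k, fun i => ?_⟩
  have := hk i
  rw [eq_intCast] at this
  rw [this, Algebra.smul_def, eq_intCast]

/-- THE DESCENT, when the poles are known. -/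
lemma descX_main {K F F₀ : Type*} [Field K] [CharZero K] [Field F] [CharZero F] [Field F₀]
    [CharZero F₀] {φ : K[X] →+* F} {D : Derivation ℤ F F} {φ₀ : ℚ[X] →+* F₀}
    {D₀ : Derivation ℤ F₀ F₀} (h0 : RF1 φ₀ D₀) (h : RF1 φ D) (ι : F₀ →+* F)
    (hι : ∀ f, ι (φ₀ f) = φ (f.map (algebraMap ℚ K))) {r : ℕ} {G H A : F₀} {T : Fin r → F₀}
    {q₀ G' H' A' : ℚ[X]} {T' : Fin r → ℚ[X]} (hq : q₀ ≠ 0) (hG : φ₀ q₀ * G = φ₀ G')
    (hH : φ₀ q₀ * H = φ₀ H') (hA : φ₀ q₀ * A = φ₀ A') (hT : ∀ i, φ₀ q₀ * T i = φ₀ (T' i))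
    (κ : Fin r → K) (hκ : κ ≠ 0) {z Ph : F} {N : ℕ} {f g : K[X]}
    (hf : φ (q₀.map (algebraMap ℚ K)) ^ N * z = φ f)
    (hg : φ (q₀.map (algebraMap ℚ K)) ^ N * Ph = φ g)
    (h1 : D z = -ι G * z - ι H * Ph)
    (h2 : D Ph = ι G * Ph - ι A * z + ∑ i, φ (C (κ i)) * ι (T i)) :
    ∃ (κ' : Fin r → ℤ) (z' Ph' : F₀), κ' ≠ 0 ∧ D₀ z' = -G * z' - H * Ph' ∧
      D₀ Ph' = G * Ph' - A * z' + ∑ i, (κ' i : F₀) * T i := by
  classical
  have hup : ∀ {x : F₀} {u : ℚ[X]}, φ₀ q₀ * x = φ₀ u →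
      φ (q₀.map (algebraMap ℚ K)) * ι x = φ (u.map (algebraMap ℚ K)) := by
    intro x u hx
    rw [← hι, ← hι, ← map_mul, hx]
  have hTT : φ (q₀.map (algebraMap ℚ K)) * (∑ i, φ (C (κ i)) * ι (T i)) =
      φ (∑ i, (T' i).map (algebraMap ℚ K) * C (κ i)) := by
    rw [Finset.mul_sum, map_sum]
    refine Finset.sum_congr rfl fun i _ => ?_
    rw [map_mul, ← hup (hT i)]
    ring
  obtain ⟨e1, e2⟩ := descX_eqs h (hup hG) (hup hH) (hup hA) hTT hf hg h1 h2
  obtain ⟨i₀, hi₀⟩ : ∃ i, κ i ≠ 0 := Function.ne_iff.1 hκ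
  obtain ⟨ψ, hψ⟩ := descX_functional hi₀
  obtain ⟨Ψ, hΨm, hΨd, hΨC⟩ := descX_poly_functional ψ
  have hΨN : ∀ u : K[X], Ψ (N * u) = N * Ψ u := by
    intro u
    rw [← nsmul_eq_mul, map_nsmul, nsmul_eq_mul]
  have hd : derivative (q₀.map (algebraMap ℚ K)) = (derivative q₀).map (algebraMap ℚ K) :=
    derivative_map q₀ (algebraMap ℚ K)
  have e1' := congrArg Ψ e1
  have e2' := congrArg Ψ e2
  rw [map_sub, hΨm, hΨN, hd, hΨm, hΨd, map_sub, map_neg, hΨm, hΨm] at e1'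
  rw [map_sub, hΨm, hΨN, hd, hΨm, hΨd, map_add, map_sub, hΨm, hΨm, ← Polynomial.map_pow, hΨm,
    map_sum] at e2'
  have e3 : ∑ i, Ψ ((T' i).map (algebraMap ℚ K) * C (κ i)) = ∑ i, T' i * C (ψ (κ i)) :=
    Finset.sum_congr rfl fun i _ => by rw [hΨm, hΨC]
  rw [e3] at e2'
  have hq' : φ₀ q₀ ^ N ≠ 0 := pow_ne_zero _ (h0.ne hq)
  have hT2 : φ₀ q₀ * (∑ i, φ₀ (C (ψ (κ i))) * T i) = φ₀ (∑ i, T' i * C (ψ (κ i))) := by
    rw [Finset.mul_sum, map_sum]
    refine Finset.sum_congr rfl fun i _ => ?_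
    rw [map_mul, ← hT i]
    ring
  obtain ⟨s1, s2⟩ := descX_back h0 (z := φ₀ (Ψ f) / φ₀ q₀ ^ N) (Ph := φ₀ (Ψ g) / φ₀ q₀ ^ N)
    hq hG hH hA hT2 (mul_div_cancel₀ _ hq') (mul_div_cancel₀ _ hq') e1' e2'
  obtain ⟨m, hm, k, hk⟩ := descX_clear fun i => ψ (κ i)
  have hDm : ∀ u : F₀, D₀ ((m : F₀) * u) = m * D₀ u := by
    intro u
    rw [Derivation.leibniz, Derivation.map_intCast, smul_zero, add_zero, smul_eq_mul]
  refine ⟨k, m * (φ₀ (Ψ f) / φ₀ q₀ ^ N), m * (φ₀ (Ψ g) / φ₀ q₀ ^ N), ?_, ?_, ?_⟩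
  · intro hk0
    have h3 := hk i₀
    rw [hk0, Pi.zero_apply, Int.cast_zero] at h3
    exact mul_ne_zero (Int.cast_ne_zero.2 hm) hψ h3.symm
  · rw [hDm, s1]
    ring
  · rw [hDm, s2]
    have e4 : (m : F₀) * ∑ i, φ₀ (C (ψ (κ i))) * T i = ∑ i, (k i : F₀) * T i := by
      rw [Finset.mul_sum]
      refine Finset.sum_congr rfl fun i _ => ?_
      have e5 : (k i : F₀) = m * φ₀ (C (ψ (κ i))) := by
        have e6 := congrArg (fun c : ℚ => φ₀ (C c)) (hk i)
        simp only [map_mul, map_intCast] at e6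
        exact e6
      rw [e5]
      ring
    rw [← e4]
    ring

end Pool.Agent.Lib.MP_3550b5_nt.SV
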