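import Mathlib
import Pool.Agent.Lib.MP_3550b5_nt.SV.Loc

/-!
Project SV, part R: the residue map, and the polynomials with a logarithmic derivative of the form
`(M X + la) / ((X + r1) (X + r2))`. Proofs: see the docstrings.
-/

namespace Pool.Agent.Lib.MP_3550b5_nt.SV

open G Polynomial

universe u

/-- The residue map to an algebraically closed field: `O = {x | V.D 0 x}` is a subring, the ideal
`{x | V.D 1 x}` is maximal (`x ∈ O` is a unit iff `V.v x = 0`). Compose `O → O ⧸ I` with the
embedding in the algebraic closure. Characteristic `0`: `LD.nat`. -/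
theorem LD.exists_resA {F : Type u} [Field F] [CharZero F] {V : DVal F} {δ : Derivation ℤ F F}
    (h : LD V δ) : ∃ (k : Type u) (_ : Field k) (_ : CharZero k)
    (_ : IsAlgClosed k) (O : Subring F) (ρ : O →+* k), (∀ x, x ∈ O ↔ V.D 0 x) ∧
      ∀ x : O, ρ x = 0 ↔ V.D 1 (x : F) := by
  let O : Subring F :=
    { carrier := {x | V.D 0 x}
      mul_mem' := fun {a b} ha hb => DVal.D_mul' ha hb (by norm_num)
      one_mem' := DVal.D_one
      add_mem' := fun {a b} ha hb => DVal.D_add ha hb
      zero_mem' := DVal.D_zero 0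
      neg_mem' := fun {a} ha => DVal.D_neg ha }
  have hO : ∀ x, x ∈ O ↔ V.D 0 x := fun x => Iff.rfl
  let I : Ideal O :=
    { carrier := {x | V.D 1 (x : F)}
      add_mem' := fun {a b} ha hb => DVal.D_add ha hb
      zero_mem' := DVal.D_zero 1
      smul_mem' := fun c x hx => DVal.D_mul' ((hO _).1 c.2) hx (by norm_num) }
  have hI : ∀ x : O, x ∈ I ↔ V.D 1 (x : F) := fun x => Iff.rfl
  have hmax : I.IsMaximal := by
    rw [Ideal.isMaximal_iff]
    refine ⟨?_, ?_⟩
    · rw [hI]
      intro h1
      exact h.nat 1 one_ne_zero (by simpa using h1)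
    · intro J x hIJ hx hxJ
      rw [hI] at hx
      have hx0 : (x : F) ≠ 0 := DVal.ne_zero_of_not_D hx
      rw [DVal.not_D_iff hx0] at hx
      have hx1 := (hO _).1 x.2
      rw [DVal.D_iff hx0] at hx1
      have hinv : (x : F)⁻¹ ∈ O := by
        rw [hO, DVal.D_iff (inv_ne_zero hx0), DVal.v_inv hx0]
        omega
      have h2 : (1 : O) = ⟨(x : F)⁻¹, hinv⟩ * x := by
        ext
        simp [hx0]
      rw [h2]
      exact J.mul_mem_left _ hxJ
  let _ : Field (O ⧸ I) := Ideal.Quotient.field I
  have hcz : CharZero (O ⧸ I) := by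
    refine ⟨?_⟩
    intro m n hmn
    by_contra hne
    have h1 : ((m : O) - (n : O)) ∈ I := by
      rw [← Ideal.Quotient.eq_zero_iff_mem, map_sub, map_natCast, map_natCast, hmn, sub_self]
    rw [hI] at h1
    refine h.nat ((m : ℤ) - n) (sub_ne_zero.2 (by exact_mod_cast hne)) ?_
    push_cast
    push_cast at h1
    exact h1
  refine ⟨AlgebraicClosure (O ⧸ I), inferInstance,
    charZero_of_injective_algebraMap (algebraMap (O ⧸ I) (AlgebraicClosure (O ⧸ I))).injective,
    inferInstance, O, (algebraMap (O ⧸ I) (AlgebraicClosure (O ⧸ I))).comp (Ideal.Quotient.mk I),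
    hO, ?_⟩
  intro x
  rw [RingHom.comp_apply, map_eq_zero_iff _
    (algebraMap (O ⧸ I) (AlgebraicClosure (O ⧸ I))).injective, Ideal.Quotient.eq_zero_iff_mem, hI]

private theorem root_log {k : Type*} [Field k] [CharZero k] {r1 r2 la M e : k}
    {Q : k[X]} (hQ : Q ≠ 0) (he : Q.IsRoot e)
    (h : (X + C r1) * (X + C r2) * derivative Q = Q * (C M * X + C la)) :
    e = -r1 ∨ e = -r2 := by
  obtain ⟨Q1, hQ1, hnd⟩ := exists_eq_pow_rootMultiplicity_mul_and_not_dvd Q hQ e
  have hpos : 0 < rootMultiplicity e Q := (rootMultiplicity_pos hQ).2 he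
  obtain ⟨n, hn⟩ : ∃ n, rootMultiplicity e Q = n + 1 := ⟨_, (Nat.succ_pred_eq_of_pos hpos).symm⟩
  rw [hn] at hQ1
  have hd : derivative Q = (X - C e) ^ n * ((C ((n : k) + 1)) * Q1 + (X - C e) * derivative Q1) := by
    rw [hQ1, derivative_mul, derivative_X_sub_C_pow, Nat.add_sub_cancel]
    push_cast
    rw [map_add, map_natCast, map_one]
    ring
  have h2 : (X + C r1) * (X + C r2) * ((C ((n : k) + 1)) * Q1 + (X - C e) * derivative Q1) =
      (X - C e) * Q1 * (C M * X + C la) := by
    refine mul_left_cancel₀ (pow_ne_zero n (X_sub_C_ne_zero e)) ?_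
    calc (X - C e) ^ n * ((X + C r1) * (X + C r2) *
          ((C ((n : k) + 1)) * Q1 + (X - C e) * derivative Q1))
        = (X + C r1) * (X + C r2) * derivative Q := by rw [hd]; ring
      _ = Q * (C M * X + C la) := h
      _ = (X - C e) ^ n * ((X - C e) * Q1 * (C M * X + C la)) := by rw [hQ1]; ring
  have h3 := congrArg (eval e) h2
  simp only [eval_mul, eval_add, eval_X, eval_C, eval_sub, sub_self, zero_mul, add_zero] at h3
  have hQe : eval e Q1 ≠ 0 := fun h0 => hnd (dvd_iff_isRoot.2 h0)
  have hn0 : (n : k) + 1 ≠ 0 := by exact_mod_cast Nat.succ_ne_zero n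
  rcases mul_eq_zero.1 h3 with h4 | h4
  · rcases mul_eq_zero.1 h4 with h5 | h5
    · exact Or.inl (eq_neg_of_add_eq_zero_left h5)
    · exact Or.inr (eq_neg_of_add_eq_zero_left h5)
  · exact absurd h4 (mul_ne_zero hn0 hQe)

/-- Over an algebraically closed field of characteristic `0`: induction on the degree. If
`natDegree Q ≥ 1` take a root `e`; then `e = -r_i` (`root_log`), `Q = (X + C r_i) Q1`, and
`(X + C r1)(X + C r2) Q1' = (C (M-1) X + C la') Q1` for `la' = la - r_j`. -/
theorem monic_eq_of_logA {k : Type*} [Field k] [CharZero k] [IsAlgClosed k] {r1 r2 la : k}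
    {Q : k[X]} (hQ : Q.Monic)
    (h : (X + C r1) * (X + C r2) * derivative Q = Q * (C (Q.natDegree : k) * X + C la)) :
    ∃ m1 m2 : ℕ, m1 + m2 = Q.natDegree ∧ Q = (X + C r1) ^ m1 * (X + C r2) ^ m2 := by
  have key : ∀ (n : ℕ) (Q : k[X]) (la : k), Q.Monic → Q.natDegree = n →
      (X + C r1) * (X + C r2) * derivative Q = Q * (C (n : k) * X + C la) →
      ∃ m1 m2 : ℕ, m1 + m2 = n ∧ Q = (X + C r1) ^ m1 * (X + C r2) ^ m2 := by
    intro n
    induction n with
    | zero =>
      intro Q la hQ hn _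
      refine ⟨0, 0, rfl, ?_⟩
      rw [hQ.natDegree_eq_zero.1 hn]
      simp
    | succ n ih =>
      intro Q la hQ hn h
      have hdeg : Q.degree ≠ 0 := by
        rw [degree_eq_natDegree hQ.ne_zero, hn]
        exact_mod_cast Nat.succ_ne_zero n
      obtain ⟨e, he⟩ := IsAlgClosed.exists_root Q hdeg
      have step : ∀ s t : k, (X + C s) * (X + C t) * derivative Q =
          Q * (C ((n + 1 : ℕ) : k) * X + C la) → e = -s →
          ∃ Q2 : k[X], Q = (X + C s) * Q2 ∧ Q2.Monic ∧ Q2.natDegree = n ∧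
            (X + C s) * (X + C t) * derivative Q2 = Q2 * (C (n : k) * X + C (la - t)) := by
        intro s t hst hes
        obtain ⟨Q2, hQ2⟩ := dvd_iff_isRoot.2 he
        rw [hes, C_neg, sub_neg_eq_add] at hQ2
        have hm : Q2.Monic := by
          rw [hQ2] at hQ
          exact (monic_X_add_C s).of_mul_monic_left hQ
        refine ⟨Q2, hQ2, hm, ?_, ?_⟩
        · have h1 := congrArg natDegree hQ2
          rw [(monic_X_add_C s).natDegree_mul hm, natDegree_X_add_C, hn] at h1
          omega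
        · refine mul_left_cancel₀ (monic_X_add_C s).ne_zero ?_
          rw [hQ2, derivative_mul, derivative_X_add_C] at hst
          push_cast at hst
          rw [C_sub]
          rw [map_add, map_natCast, map_one] at hst
          rw [map_natCast]
          linear_combination hst
      rcases root_log hQ.ne_zero he h with h1 | h1
      · obtain ⟨Q2, e1, e2, e3, e4⟩ := step r1 r2 h h1
        obtain ⟨m1, m2, h5, h6⟩ := ih Q2 (la - r2) e2 e3 e4
        refine ⟨m1 + 1, m2, by omega, ?_⟩
        rw [e1, h6]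
        ring
      · obtain ⟨Q2, e1, e2, e3, e4⟩ := step r2 r1 (by rw [mul_comm (X + C r2)]; exact h) h1
        rw [mul_comm (X + C r2)] at e4
        obtain ⟨m1, m2, h5, h6⟩ := ih Q2 (la - r1) e2 e3 e4
        refine ⟨m1, m2 + 1, by omega, ?_⟩
        rw [e1, h6]
        ring
  exact key _ Q la hQ rfl h

end Pool.Agent.Lib.MP_3550b5_nt.SV
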