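import Mathlib
import Pool.Agent.Lib.MP_3550b5_nt.SV.Loc

/-!
Project SV, part R: integrality of the Darboux polynomials of a Riccati equation (the proof of
`LD.dbx_int`).
-/

namespace Pool.Agent.Lib.MP_3550b5_nt.SV

open G Polynomial

universe u

variable {F : Type u} [Field F]

private lemma ex_add {V : DVal F} {x y : F} {k : ℤ} (hx : x ≠ 0) (hv : V.v x = k)
    (hy : V.D (k + 1) y) : x + y ≠ 0 ∧ V.v (x + y) = k := by
  have h1 : V.D k (x + y) := DVal.D_add (Or.inr hv.ge) (DVal.D_mono (by omega) hy)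
  have h2 : ¬ V.D (k + 1) (x + y) := by
    rw [add_comm x y]
    exact DVal.not_D_add hy ((DVal.not_D_iff hx).2 (by omega))
  have h3 := DVal.ne_zero_of_not_D h2
  refine ⟨h3, ?_⟩
  have h4 := (DVal.D_iff h3).1 h1
  have h5 := (DVal.not_D_iff h3).1 h2
  omega

private lemma split_mul (nu mu : F) (Q : F[X]) : (X ^ 2 + C nu * X - C mu) * Q =
    X * (X * Q) + C nu * (X * Q) - C mu * Q := by
  ring

private lemma dx_coeff_zero (δ : Derivation ℤ F F) (nu mu : F) (Q : F[X]) :
    (dx δ (X ^ 2 + C nu * X - C mu) Q).coeff 0 = δ (Q.coeff 0) - mu * Q.coeff 1 := by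
  unfold dx
  rw [coeff_add, coeff_cw, split_mul, coeff_sub, coeff_add, coeff_C_mul, coeff_C_mul,
    coeff_X_mul_zero, coeff_X_mul_zero, coeff_derivative]
  push_cast
  ring

private lemma dx_coeff_succ (δ : Derivation ℤ F F) (nu mu : F) (Q : F[X]) (i : ℕ) :
    (dx δ (X ^ 2 + C nu * X - C mu) Q).coeff (i + 1) = δ (Q.coeff (i + 1)) + i * Q.coeff i +
      nu * ((i + 1) * Q.coeff (i + 1)) - mu * ((i + 2) * Q.coeff (i + 2)) := by
  have h : (X * derivative Q).coeff i = i * Q.coeff i := by
    cases i with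
    | zero => rw [coeff_X_mul_zero, Nat.cast_zero, zero_mul]
    | succ i =>
      rw [coeff_X_mul, coeff_derivative]
      push_cast
      ring
  unfold dx
  rw [coeff_add, coeff_cw, split_mul, coeff_sub, coeff_add, coeff_C_mul, coeff_C_mul,
    coeff_X_mul, coeff_X_mul, h, coeff_derivative, coeff_derivative]
  push_cast
  ring

private lemma quot_form (δ : Derivation ℤ F F) {nu mu : F} {Q : F[X]} (hQ : Q.Monic)
    (hdvd : Q ∣ dx δ (X ^ 2 + C nu * X - C mu) Q) : ∃ la : F,
      dx δ (X ^ 2 + C nu * X - C mu) Q = Q * (C (Q.natDegree : F) * X + C la) := by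
  obtain ⟨R, hR⟩ := hdvd
  have hz : ∀ n, Q.natDegree < n → Q.coeff n = 0 := fun n hn => coeff_eq_zero_of_natDegree_lt hn
  have h1 : (dx δ (X ^ 2 + C nu * X - C mu) Q).natDegree ≤ Q.natDegree + 1 := by
    rw [natDegree_le_iff_coeff_eq_zero]
    intro n hn
    obtain ⟨i, rfl⟩ : ∃ i, n = i + 1 := ⟨n - 1, by omega⟩
    rw [dx_coeff_succ, hz (i + 1) (by omega), hz i (by omega), hz (i + 2) (by omega), map_zero]
    ring
  have h2 : R.natDegree ≤ 1 := by
    rcases eq_or_ne R 0 with h0 | h0
    · rw [h0, natDegree_zero]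
      exact Nat.zero_le 1
    · rw [hR, hQ.natDegree_mul' h0] at h1
      omega
  have h3 := eq_X_add_C_of_natDegree_le_one h2
  have hmul : ∀ (r s : F) (i : ℕ), (Q * (C r * X + C s)).coeff (i + 1) =
      r * Q.coeff i + s * Q.coeff (i + 1) := by
    intro r s i
    have e : Q * (C r * X + C s) = C r * (X * Q) + C s * Q := by ring
    rw [e, coeff_add, coeff_C_mul, coeff_C_mul, coeff_X_mul]
  have h4 : (Q.natDegree : F) = R.coeff 1 := by
    have e1 : (dx δ (X ^ 2 + C nu * X - C mu) Q).coeff (Q.natDegree + 1) =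
        (Q * R).coeff (Q.natDegree + 1) := by rw [hR]
    rw [h3, hmul, dx_coeff_succ, hz (Q.natDegree + 1) (by omega), hz (Q.natDegree + 2) (by omega),
      map_zero, hQ.coeff_natDegree] at e1
    linear_combination e1
  refine ⟨R.coeff 0, ?_⟩
  rw [h4, ← h3]
  exact hR

variable [CharZero F] {V : DVal F} {δ : Derivation ℤ F F}

private lemma v_nat (h : LD V δ) {n : ℕ} (hn : n ≠ 0) : V.v (n : F) = 0 := by
  have h1 : ¬ V.D 1 ((n : ℤ) : F) := h.nat n (by exact_mod_cast hn)
  rw [Int.cast_natCast] at h1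
  have h2 : (n : F) ≠ 0 := Nat.cast_ne_zero.2 hn
  have h3 := (DVal.not_D_iff h2).1 h1
  have h4 := (DVal.D_iff (V := V) h2).1 (DVal.D_nat n)
  omega

omit [CharZero F] in
private lemma D_cancel (h : LD V δ) {n : ℕ} (hn : n ≠ 0) {k : ℤ} {x : F}
    (hx : V.D k ((n : F) * x)) : V.D k x := by
  have h1 : ¬ V.D 1 ((n : ℤ) : F) := h.nat n (by exact_mod_cast hn)
  rw [Int.cast_natCast] at h1
  refine DVal.D_of_mul h1 ?_
  have e : 1 + k - 1 = k := by ring
  rwa [e]

/-- The proof of `LD.dbx_int`. -/
theorem LD.dbx_int_aux (h : LD V δ) {nu mu : F} (hnu : V.D 0 nu) (hmu : V.D 0 mu) {Q : F[X]}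
    (hQ : Q.Monic) (hd : 1 ≤ Q.natDegree) (hdvd : Q ∣ dx δ (X ^ 2 + C nu * X - C mu) Q) :
    (∀ i, V.D 0 (Q.coeff i)) ∧ ∃ la : F, V.D 0 la ∧
      dx δ (X ^ 2 + C nu * X - C mu) Q = Q * (C (Q.natDegree : F) * X + C la) := by
  obtain ⟨la, hla⟩ := quot_form δ hQ hdvd
  obtain ⟨M, hM⟩ : ∃ M, M = Q.natDegree := ⟨_, rfl⟩
  rw [← hM] at hla hd
  have hz : ∀ n, M < n → Q.coeff n = 0 := fun n hn =>
    coeff_eq_zero_of_natDegree_lt (by omega)
  have hM1 : Q.coeff M = 1 := by rw [hM]; exact hQ.coeff_natDegree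
  have hmul : ∀ (r s : F) (i : ℕ), (Q * (C r * X + C s)).coeff (i + 1) =
      r * Q.coeff i + s * Q.coeff (i + 1) := by
    intro r s i
    have e : Q * (C r * X + C s) = C r * (X * Q) + C s * Q := by ring
    rw [e, coeff_add, coeff_C_mul, coeff_C_mul, coeff_X_mul]
  have rec0 : δ (Q.coeff 0) - mu * Q.coeff 1 = la * Q.coeff 0 := by
    have e1 : (dx δ (X ^ 2 + C nu * X - C mu) Q).coeff 0 =
        (Q * (C (M : F) * X + C la)).coeff 0 := by rw [hla]
    have e : Q * (C (M : F) * X + C la) = C (M : F) * (X * Q) + C la * Q := by ring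
    rwa [dx_coeff_zero, e, coeff_add, coeff_C_mul, coeff_C_mul, coeff_X_mul_zero, mul_zero,
      zero_add] at e1
  have rec1 : ∀ i, ((M : F) - i) * Q.coeff i = δ (Q.coeff (i + 1)) +
      nu * ((i + 1) * Q.coeff (i + 1)) - mu * ((i + 2) * Q.coeff (i + 2)) -
        la * Q.coeff (i + 1) := by
    intro i
    have e1 : (dx δ (X ^ 2 + C nu * X - C mu) Q).coeff (i + 1) =
        (Q * (C (M : F) * X + C la)).coeff (i + 1) := by rw [hla]
    rw [dx_coeff_succ, hmul] at e1
    linear_combination -e1
  obtain ⟨N, hN⟩ : ∃ N, M = N + 1 := ⟨M - 1, by omega⟩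
  have hlas : la = nu * M - Q.coeff N := by
    have e1 := rec1 N
    rw [hz (N + 2) (by omega), ← hN, hM1, hN, Derivation.map_one_eq_zero] at e1
    rw [hN]
    push_cast at e1 ⊢
    linear_combination e1
  -- the coefficient of `X ^ (M - 1)` is integral
  have hs : V.D 0 (Q.coeff N) := by
    by_contra hs
    have hs0 := DVal.ne_zero_of_not_D hs
    have hsv := (DVal.not_D_iff hs0).1 hs
    obtain ⟨s, hs'⟩ : ∃ s, s = Q.coeff N := ⟨_, rfl⟩
    rw [← hs'] at hlas hs0 hsv
    obtain ⟨m, hm⟩ : ∃ m : ℤ, m = V.v s := ⟨_, rfl⟩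
    rw [← hm] at hsv
    have key : ∀ j, j ≤ M → Q.coeff (M - j) ≠ 0 ∧ V.v (Q.coeff (M - j)) = j * m := by
      intro j
      induction j using Nat.strong_induction_on with
      | _ j ih =>
        intro hj
        rcases j with _ | j
        · rw [Nat.sub_zero, hM1, DVal.v_one]
          exact ⟨one_ne_zero, by push_cast; ring⟩
        · obtain ⟨i, hi⟩ : ∃ i, M = i + (j + 1) := ⟨M - (j + 1), by omega⟩
          obtain ⟨h1, h2⟩ := ih j (by omega) (by omega)
          have e0 : M - (j + 1) = i := by omega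
          have e1 : M - j = i + 1 := by omega
          rw [e0]
          rw [e1] at h1 h2
          have h3 : V.D (j * m) (Q.coeff (i + 1)) := Or.inr h2.ge
          have h4 : V.D (j * m) (Q.coeff (i + 2)) := by
            rcases j with _ | j
            · rw [hz (i + 2) (by omega)]
              exact DVal.D_zero _
            · have h5 := (ih j (by omega) (by omega)).2
              have e2 : M - j = i + 2 := by omega
              rw [e2] at h5
              refine Or.inr ?_
              rw [h5]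
              push_cast
              linarith
          have h5 := rec1 i
          have e3 : (M : F) - i = ((j + 1 : ℕ) : F) := by
            rw [hi]
            push_cast
            ring
          rw [e3] at h5
          have h6 : ((j + 1 : ℕ) : F) * Q.coeff i = s * Q.coeff (i + 1) +
              (δ (Q.coeff (i + 1)) + nu * (((i + 1 : ℕ) : F) * Q.coeff (i + 1)) -
                mu * (((i + 2 : ℕ) : F) * Q.coeff (i + 2)) -
                  nu * ((M : F) * Q.coeff (i + 1))) := by
            rw [h5, hlas]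
            push_cast
            ring
          have hj0 : ∀ k : ℕ, V.D (j * m) ((k : F) * Q.coeff (i + 1)) := fun k =>
            DVal.D_mul' (DVal.D_nat k) h3 (by omega)
          have h7 : V.D (j * m) (δ (Q.coeff (i + 1)) + nu * (((i + 1 : ℕ) : F) * Q.coeff (i + 1)) -
                mu * (((i + 2 : ℕ) : F) * Q.coeff (i + 2)) -
                  nu * ((M : F) * Q.coeff (i + 1))) := by
            refine DVal.D_sub (DVal.D_sub (DVal.D_add (h.D_map h3)
              (DVal.D_mul' hnu (hj0 _) (by omega))) (DVal.D_mul' hmu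
                (DVal.D_mul' (DVal.D_nat _) h4 (le_refl _)) (by omega)))
                  (DVal.D_mul' hnu (hj0 _) (by omega))
          have h8 : V.v (s * Q.coeff (i + 1)) = (j + 1) * m := by
            rw [V.map_mul hs0 h1, h2, ← hm]
            ring
          have h9 := ex_add (mul_ne_zero hs0 h1) h8 (DVal.D_mono (by linarith) h7)
          rw [← h6] at h9
          have h10 : Q.coeff i ≠ 0 := right_ne_zero_of_mul h9.1
          refine ⟨h10, ?_⟩
          have h11 := h9.2
          rw [V.map_mul (left_ne_zero_of_mul h9.1) h10, v_nat h (Nat.succ_ne_zero j), zero_add]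
            at h11
          rw [h11]
          push_cast
          ring
    obtain ⟨h1, h2⟩ := key M (le_refl M)
    rw [Nat.sub_self] at h1 h2
    have h3 : V.D (M * m) (Q.coeff 1) := by
      have h4 := (key N (by omega)).2
      have e2 : M - N = 1 := by omega
      rw [e2] at h4
      refine Or.inr ?_
      rw [h4, hN]
      push_cast
      linarith
    have h4 : s * Q.coeff 0 = -(δ (Q.coeff 0)) + mu * Q.coeff 1 + nu * ((M : F) * Q.coeff 0) := by
      rw [hlas] at rec0
      linear_combination rec0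
    have h5 : V.D (M * m) (Q.coeff 0) := Or.inr h2.ge
    have h6 : V.D (M * m) (s * Q.coeff 0) := by
      rw [h4]
      refine DVal.D_add (DVal.D_add (DVal.D_neg (h.D_map h5)) (DVal.D_mul' hmu h3 (by omega)))
        (DVal.D_mul' hnu (DVal.D_mul' (DVal.D_nat _) h5 (le_refl _)) (by omega))
    rw [DVal.D_iff (mul_ne_zero hs0 h1), V.map_mul hs0 h1, h2, ← hm] at h6
    linarith
  have hlaD : V.D 0 la := by
    rw [hlas]
    exact DVal.D_sub (DVal.D_mul' hnu (DVal.D_nat _) (le_refl _)) hs
  have hall : ∀ j, j ≤ M → V.D 0 (Q.coeff (M - j)) := by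
    intro j
    induction j using Nat.strong_induction_on with
    | _ j ih =>
      intro hj
      rcases j with _ | j
      · rw [Nat.sub_zero, hM1]
        exact DVal.D_one
      · obtain ⟨i, hi⟩ : ∃ i, M = i + (j + 1) := ⟨M - (j + 1), by omega⟩
        have h3 := ih j (by omega) (by omega)
        have e0 : M - (j + 1) = i := by omega
        have e1 : M - j = i + 1 := by omega
        rw [e0]
        rw [e1] at h3
        have h4 : V.D 0 (Q.coeff (i + 2)) := by
          rcases j with _ | j
          · rw [hz (i + 2) (by omega)]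
            exact DVal.D_zero _
          · have h5 := ih j (by omega) (by omega)
            have e2 : M - j = i + 2 := by omega
            rwa [e2] at h5
        have h5 := rec1 i
        have e3 : (M : F) - i = ((j + 1 : ℕ) : F) := by
          rw [hi]
          push_cast
          ring
        have e4 : ((i : F) + 1) = ((i + 1 : ℕ) : F) := by push_cast; ring
        have e5 : ((i : F) + 2) = ((i + 2 : ℕ) : F) := by push_cast; ring
        rw [e3, e4, e5] at h5
        refine D_cancel h (Nat.succ_ne_zero j) ?_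
        rw [h5]
        refine DVal.D_sub (DVal.D_sub (DVal.D_add (h.D_map h3) (DVal.D_mul' hnu
          (DVal.D_mul' (DVal.D_nat _) h3 (le_refl _)) (by omega))) (DVal.D_mul' hmu
            (DVal.D_mul' (DVal.D_nat _) h4 (le_refl _)) (by omega)))
              (DVal.D_mul' hlaD h3 (by omega))
  refine ⟨fun i => ?_, la, hlaD, ?_⟩
  · rcases Nat.lt_or_ge M i with hi | hi
    · rw [hz i hi]
      exact DVal.D_zero _
    · have h1 := hall (M - i) (by omega)
      rwa [Nat.sub_sub_self hi] at h1
  · rw [← hM]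
    exact hla

end Pool.Agent.Lib.MP_3550b5_nt.SV
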