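import Mathlib
import Pool.Agent.Lib.MP_3550b5_nt.SV.Loc
import Pool.Agent.Lib.MP_3550b5_nt.SV.ResA
import Pool.Agent.Lib.MP_3550b5_nt.SV.ResD

/-!
Project SV, part R: Darboux polynomials of a Riccati equation, locally.
-/

namespace Pool.Agent.Lib.MP_3550b5_nt.SV

open G Polynomial

universe u

variable {F : Type u} [Field F] [CharZero F] {V : DVal F} {δ : Derivation ℤ F F}

/-- The coefficients of a Darboux polynomial of `X^2 + nu X - mu` (`nu`, `mu` integral) are
integral, and so is the constant coefficient of the quotient. PROOF. `M = Q.natDegree`. Compare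
degrees: `dx δ P Q = cw δ Q + (X^2 + nu X - mu) Q'` has degree `≤ M + 1` and coefficient `M` at
`X^(M+1)`, `Q` is monic, so the quotient `R` (`dx = Q * R`) has degree `1` and is `C M * X + C la`
(`M ≠ 0` in `F`). Put `c j = coeff Q (M - j)` for `j ≤ M` (`c 0 = 1`) and `c (M+1) = 0`. The
coefficient of `X^(M+1-j)`, `1 ≤ j ≤ M+1`, gives
`-j c_j = la c_(j-1) - δ c_(j-1) - nu (M-j+1) c_(j-1) + mu (M-j+2) c_(j-2)` (the last term is absent
for `j = 1`); `j = 1`: `la = nu M - c_1`. Hence `j c_j = c_1 c_(j-1) + t_j` with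
`t_j = δ c_(j-1) - nu (j - 1) c_(j-1) - mu (M-j+2) c_(j-2)`, up to the sign of the multiple of
`nu c_(j-1)`, which is irrelevant. If `V.v c_1 = -m < 0` then by induction `V.v (c_j) = - j m`
(so `c_j ≠ 0`) for all `j ≤ M + 1`: `v(c_1 c_(j-1)) = -j m`, and `t_j ∈ D (-(j-1) m)` (`LD.D_map`).
For `j = M + 1` a contradiction. So `c_1 ∈ O`, and by induction all `c_j ∈ O` (`j` is a unit),
`la = nu M - c_1 ∈ O`. -/
theorem LD.dbx_int (h : LD V δ) {nu mu : F} (hnu : V.D 0 nu) (hmu : V.D 0 mu) {Q : F[X]}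
    (hQ : Q.Monic) (hd : 1 ≤ Q.natDegree) (hdvd : Q ∣ dx δ (X ^ 2 + C nu * X - C mu) Q) :
    (∀ i, V.D 0 (Q.coeff i)) ∧ ∃ la : F, V.D 0 la ∧
      dx δ (X ^ 2 + C nu * X - C mu) Q = Q * (C (Q.natDegree : F) * X + C la) :=
  h.dbx_int_aux hnu hmu hQ hd hdvd

/-- The residue map to an algebraically closed field. PROOF. `O = {x | V.D 0 x}` is a valuation
subring of `F` (`x ∈ O` or `x⁻¹ ∈ O`), its maximal ideal is `{x | V.D 1 x}` (`x ∈ O` is a unit iff
`V.v x = 0`). Compose `O → ResidueField → AlgebraicClosure`. Characteristic `0`: `LD.nat`. (One may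
also take the quotient of the ring `O` by the ideal `{x | V.D 1 x}`, which is maximal.) -/
theorem LD.exists_res (h : LD V δ) : ∃ (k : Type u) (_ : Field k) (_ : CharZero k)
    (_ : IsAlgClosed k) (O : Subring F) (ρ : O →+* k), (∀ x, x ∈ O ↔ V.D 0 x) ∧
      ∀ x : O, ρ x = 0 ↔ V.D 1 (x : F) :=
  h.exists_resA

/-- Over an algebraically closed field of characteristic `0`. PROOF. A root `e` of `Q` with
multiplicity `n ≥ 1`: if `(X + C r1)(X + C r2)` does not vanish at `e`, the left side is divisible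
exactly by `(X - e)^(n-1)` (`Q = (X-e)^n Q1`, `Q' = n (X-e)^(n-1) Q1 + (X-e)^n Q1'`, characteristic
`0`), the right side by `(X - e)^n`: contradiction. So all roots are `-r1` or `-r2`, and `Q` is the
product of `X - e` over its roots (`IsAlgClosed.splits`, `Polynomial.Splits.eq_prod_roots..`): count
(if `r1 = r2` take `m2 = 0`), `Multiset.count`. Induction on the degree is also possible: if
`natDegree Q ≥ 1` take a root `e`, `e = -r_i`, `Q = (X + C r_i) Q1`, then
`(X + C r1)(X + C r2) Q1' = (C (M-1) X + C la') Q1` for a suitable `la'`. -/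
theorem monic_eq_of_log {k : Type*} [Field k] [CharZero k] [IsAlgClosed k] {r1 r2 la : k}
    {Q : k[X]} (hQ : Q.Monic)
    (h : (X + C r1) * (X + C r2) * derivative Q = Q * (C (Q.natDegree : k) * X + C la)) :
    ∃ m1 m2 : ℕ, m1 + m2 = Q.natDegree ∧ Q = (X + C r1) ^ m1 * (X + C r2) ^ m2 :=
  monic_eq_of_logA hQ h

/-- LEMMA R1. PROOF. By `dbx_int` (`nu`, `mu` are integral: rationals are) `Q` has coefficients in
`O`; `exists_res` gives `ρ`; let `Q0` be the image of `Q` in `k[X]` (lift `Q` to `O[X]`, e.g.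
`Polynomial.toSubring` or `∑ i, monomial i (ρ ⟨Q.coeff i, _⟩)`). `Q0` is monic of degree `M`, and
`δ` of the coefficients vanish under `ρ`, `ρ nu = r1 + r2`, `ρ mu = - r1 r2` (rationals map to
rationals), so `(X + r1)(X + r2) Q0' = Q0 (M X + ρ la)`. By `monic_eq_of_log`,
`Q0 = (X + r1)^m1 (X + r2)^m2`, whose coefficient of `X^(M-1)` is `m1 r1 + m2 r2`
(`nextCoeff`, or `Monic.nextCoeff_mul`, `Monic.nextCoeff_pow`). -/
theorem LD.dbx_coeff (h : LD V δ) {nu mu : F} {r1 r2 : ℚ}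
    (hnu : V.D 1 (nu - ((r1 + r2 : ℚ) : F))) (hmu : V.D 1 (mu + ((r1 * r2 : ℚ) : F))) {Q : F[X]}
    (hQ : Q.Monic) (hd : 1 ≤ Q.natDegree) (hdvd : Q ∣ dx δ (X ^ 2 + C nu * X - C mu) Q) :
    ∃ m1 m2 : ℕ, m1 + m2 = Q.natDegree ∧
      V.D 1 (Q.coeff (Q.natDegree - 1) - ((m1 * r1 + m2 * r2 : ℚ) : F)) := by
  have hnu0 : V.D 0 nu := by
    have h1 := DVal.D_add (DVal.D_mono (by norm_num : (0 : ℤ) ≤ 1) hnu) (h.D_rat (r1 + r2))
    rwa [sub_add_cancel] at h1
  have hmu0 : V.D 0 mu := by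
    have h1 := DVal.D_sub (DVal.D_mono (by norm_num : (0 : ℤ) ≤ 1) hmu) (h.D_rat (r1 * r2))
    rwa [add_sub_cancel_right] at h1
  obtain ⟨hc, la, hla, hdx⟩ := h.dbx_int hnu0 hmu0 hQ hd hdvd
  obtain ⟨k, _, _, _, O, ρ, hO, hρ⟩ := h.exists_res
  have hinj : Function.Injective O.subtype := Subtype.coe_injective
  have lift : ∀ R : F[X], (∀ i, V.D 0 (R.coeff i)) → ∃ R1 : O[X], R1.map O.subtype = R := by
    intro R hR
    have h1 : R ∈ Polynomial.lifts O.subtype := by
      rw [Polynomial.lifts_iff_coeff_lifts]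
      exact fun n => ⟨⟨R.coeff n, (hO _).2 (hR n)⟩, rfl⟩
    rwa [Polynomial.mem_lifts] at h1
  obtain ⟨Q1, hQ1⟩ := lift Q hc
  obtain ⟨W1, hW1⟩ := lift (cw δ Q) (fun i => by
    rw [coeff_cw]
    exact DVal.D_mono (by norm_num) (h.int _ (hc i)))
  have hQ1m : Q1.Monic := Polynomial.monic_of_injective hinj (by rw [hQ1]; exact hQ)
  have hQ1d : Q1.natDegree = Q.natDegree := by
    rw [← hQ1, Polynomial.natDegree_map_eq_of_injective hinj]
  have key : W1 + (X ^ 2 + C (⟨nu, (hO _).2 hnu0⟩ : O) * X - C (⟨mu, (hO _).2 hmu0⟩ : O)) *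
      derivative Q1 = Q1 * (C (Q.natDegree : O) * X + C (⟨la, (hO _).2 hla⟩ : O)) := by
    apply Polynomial.map_injective O.subtype hinj
    simp only [Polynomial.map_add, Polynomial.map_mul, Polynomial.map_sub, Polynomial.map_pow,
      Polynomial.map_X, Polynomial.map_C, map_natCast O.subtype]
    rw [hW1, ← Polynomial.derivative_map, hQ1]
    exact hdx
  have hq : ∀ (q : ℚ) (hq : (q : F) ∈ O), ρ ⟨(q : F), hq⟩ = (q : k) := by
    intro q hq
    have h1 : (⟨(q : F), hq⟩ : O) * (q.den : O) = (q.num : O) := by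
      apply Subtype.ext
      push_cast
      have h2 : ((q.den : ℚ) : F) ≠ 0 := by
        exact_mod_cast (Nat.cast_ne_zero (R := F)).2 q.den_nz
      have h3 : q * (q.den : ℚ) = (q.num : ℚ) := Rat.mul_den_eq_num q
      exact_mod_cast congrArg (fun t : ℚ => (t : F)) h3
    have h4 := congrArg ρ h1
    rw [map_mul, map_natCast, map_intCast] at h4
    have h5 : (q.den : k) ≠ 0 := Nat.cast_ne_zero.2 q.den_nz
    have h6 : (q : k) * (q.den : k) = (q.num : k) := by
      have h3 : q * (q.den : ℚ) = (q.num : ℚ) := Rat.mul_den_eq_num q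
      exact_mod_cast congrArg (fun t : ℚ => (t : k)) h3
    exact mul_right_cancel₀ h5 (h4.trans h6.symm)
  have hW0 : W1.map ρ = 0 := by
    ext n
    rw [Polynomial.coeff_map, Polynomial.coeff_zero, hρ]
    have h1 : ((W1.coeff n : O) : F) = δ (Q.coeff n) := by
      rw [← coeff_cw, ← hW1, Polynomial.coeff_map]
      rfl
    rw [h1]
    exact h.int _ (hc n)
  have hnu1 : ρ ⟨nu, (hO _).2 hnu0⟩ = ((r1 + r2 : ℚ) : k) := by
    rw [← hq (r1 + r2) ((hO _).2 (h.D_rat _)), ← sub_eq_zero, ← map_sub, hρ]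
    exact hnu
  have hmu1 : ρ ⟨mu, (hO _).2 hmu0⟩ = -((r1 * r2 : ℚ) : k) := by
    rw [← hq (r1 * r2) ((hO _).2 (h.D_rat _)), eq_neg_iff_add_eq_zero, ← map_add, hρ]
    exact hmu
  have key2 := congrArg (Polynomial.map ρ) key
  simp only [Polynomial.map_add, Polynomial.map_mul, Polynomial.map_sub, Polynomial.map_pow,
      Polynomial.map_X, Polynomial.map_C, map_natCast ρ, hW0, hnu1, hmu1, zero_add] at key2
  rw [← Polynomial.derivative_map] at key2
  have hQ0m : (Q1.map ρ).Monic := hQ1m.map ρ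
  have hQ0d : (Q1.map ρ).natDegree = Q.natDegree := by
    rw [hQ1m.natDegree_map, hQ1d]
  obtain ⟨m1, m2, hm, hQ0⟩ := monic_eq_of_log (r1 := (r1 : k)) (r2 := (r2 : k))
    (la := ρ ⟨la, (hO _).2 hla⟩) hQ0m (by
      rw [hQ0d, ← key2]
      congr 1
      push_cast
      simp only [map_add, map_mul, map_neg]
      ring)
  refine ⟨m1, m2, by rw [hm, hQ0d], ?_⟩
  have hnext : (Q1.map ρ).nextCoeff = (m1 : k) * r1 + m2 * r2 := by
    rw [hQ0, Polynomial.Monic.nextCoeff_mul ((monic_X_add_C _).pow _) ((monic_X_add_C _).pow _),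
      Polynomial.Monic.nextCoeff_pow (monic_X_add_C _), Polynomial.Monic.nextCoeff_pow (monic_X_add_C _),
      nextCoeff_X_add_C, nextCoeff_X_add_C, nsmul_eq_mul, nsmul_eq_mul]
  have hcoef : (Q1.map ρ).nextCoeff = ρ (Q1.coeff (Q.natDegree - 1)) := by
    rw [Polynomial.nextCoeff_of_natDegree_pos (by rw [hQ0d]; omega), hQ0d, Polynomial.coeff_map]
  have hfin : ρ (Q1.coeff (Q.natDegree - 1) -
      ⟨((m1 * r1 + m2 * r2 : ℚ) : F), (hO _).2 (h.D_rat _)⟩) = 0 := by
    rw [map_sub, hq, ← hcoef, hnext]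
    push_cast
    ring
  rw [hρ] at hfin
  have hco : ((Q1.coeff (Q.natDegree - 1) : O) : F) = Q.coeff (Q.natDegree - 1) := by
    conv_rhs => rw [← hQ1, Polynomial.coeff_map]
    rw [hQ1]
    rfl
  have h9 : ((Q1.coeff (Q.natDegree - 1) -
      ⟨((m1 * r1 + m2 * r2 : ℚ) : F), (hO _).2 (h.D_rat _)⟩ : O) : F) =
      Q.coeff (Q.natDegree - 1) - ((m1 * r1 + m2 * r2 : ℚ) : F) := by
    rw [← hco]
    rfl
  rw [← h9]
  exact hfin

end Pool.Agent.Lib.MP_3550b5_nt.SV
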