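import Mathlib
import Pool.Agent.Lib.MP_3550b5_nt.SV.Plc
import Pool.Agent.Lib.MP_3550b5_nt.SV.NuMu
import Pool.Agent.Lib.MP_3550b5_nt.SV.Res

/-!
Project SV, part R: sum of residues, and THEOREM R.
-/

namespace Pool.Agent.Lib.MP_3550b5_nt.SV

open G Polynomial

variable {K F : Type*} [Field K] [CharZero K] [Field F] [CharZero F] {φ : K[X] →+* F}
  {D : Derivation ℤ F F}

private lemma rs_sum {K' : Type*} [Field K'] {V : DVal K'} {ι : Type*} {k : ℤ} (s : Finset ι)
    {f : ι → K'} (hf : ∀ i ∈ s, V.D k (f i)) : V.D k (∑ i ∈ s, f i) := by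
  classical
  induction s using Finset.induction_on with
  | empty =>
    rw [Finset.sum_empty]
    exact DVal.D_zero k
  | insert i s hi ih =>
    rw [Finset.sum_insert hi]
    exact DVal.D_add (hf i (Finset.mem_insert_self i s))
      (ih fun j hj => hf j (Finset.mem_insert_of_mem hj))

/-- A polynomial which is not divisible by `π` is a unit at `π`. -/
private lemma rs_unit (h : RF1 φ D) {π : K[X]} (hπ : Prime π) {f : K[X]} (hf : ¬ π ∣ f) :
    (primeVal h.frac hπ).v (φ f) = 0 := by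
  have hf0 : φ f ≠ 0 := h.ne fun h0 => hf (h0 ▸ dvd_zero π)
  have h1 : (primeVal h.frac hπ).D ((0 : ℕ) : ℤ) (φ f) :=
    (primeVal_D h.frac hπ 0 f).2 (by rw [pow_zero]; exact one_dvd f)
  have h2 : ¬ (primeVal h.frac hπ).D ((1 : ℕ) : ℤ) (φ f) := fun h3 => hf (by
    have := (primeVal_D h.frac hπ 1 f).1 h3
    rwa [pow_one] at this)
  rw [DVal.D_iff hf0] at h1 h2
  push_cast at h1 h2
  omega

private lemma rs_pi (h : RF1 φ D) {π : K[X]} (hπ : Prime π) :
    (primeVal h.frac hπ).v (φ π) = 1 := by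
  have hf0 : φ π ≠ 0 := h.ne hπ.ne_zero
  have h1 : (primeVal h.frac hπ).D ((1 : ℕ) : ℤ) (φ π) :=
    (primeVal_D h.frac hπ 1 π).2 (by rw [pow_one])
  have h2 : ¬ (primeVal h.frac hπ).D ((2 : ℕ) : ℤ) (φ π) := fun h3 => by
    have h4 := (primeVal_D h.frac hπ 2 π).1 h3
    have h5 : π ∣ 1 := by
      rw [pow_two] at h4
      have h6 : π * π ∣ π * 1 := by rwa [mul_one]
      exact (mul_dvd_mul_iff_left hπ.ne_zero).1 h6
    exact hπ.not_isUnit (isUnit_of_dvd_one h5)
  rw [DVal.D_iff hf0] at h1 h2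
  push_cast at h1 h2
  omega

private lemma rs_ratio (h : RF1 φ D) {π : K[X]} (hπ : Prime π) :
    φ π / φ (derivative π) ≠ 0 ∧ (primeVal h.frac hπ).v (φ π / φ (derivative π)) = 1 := by
  obtain ⟨h1, h2⟩ := prime_not_dvd_derivative hπ
  have h3 := h.ne h1
  have h4 := h.ne hπ.ne_zero
  refine ⟨div_ne_zero h4 h3, ?_⟩
  rw [DVal.v_div h4 h3, rs_unit h hπ h2, rs_pi h hπ]
  rfl

/-- Integrality at the monic primes suffices. -/
private lemma rs_monic (h : RF1 φ D) {x : F}
    (hx : ∀ (π : K[X]) (hπ : Prime π), π.Monic → (primeVal h.frac hπ).D 0 x) : ∃ f : K[X], x = φ f := by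
  classical
  refine h.poly_of_int fun π hπ => ?_
  have ha : Associated π (normalize π) := (normalize_associated π).symm
  have hπ' : Prime (normalize π) := ha.prime hπ
  have hm : (normalize π).Monic := Polynomial.monic_normalize hπ.ne_zero
  obtain ⟨f, g, hg, rfl⟩ := h.exists_of_int hπ' (hx _ hπ' hm)
  have hg' : ¬ π ∣ g := fun h1 => hg (ha.symm.dvd.trans h1)
  have hg0 : φ g ≠ 0 := h.ne fun h0 => hg (h0 ▸ dvd_zero _)
  by_cases hf : f = 0
  · rw [hf, map_zero, zero_div]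
    exact DVal.D_zero 0
  · have hf0 := h.ne hf
    have h1 : (primeVal h.frac hπ).D ((0 : ℕ) : ℤ) (φ f) :=
      (primeVal_D h.frac hπ 0 f).2 (by rw [pow_zero]; exact one_dvd f)
    rw [DVal.D_iff hf0] at h1
    rw [DVal.D_iff (div_ne_zero hf0 hg0), DVal.v_div hf0 hg0, rs_unit h hπ hg']
    push_cast at h1
    omega

/-- THE SUM OF THE RESIDUES. `q π` is the residue of `S dt` at the prime `π`, `q0` that at infinity
(of `δ = -t d/dt`). PROOF. `S = φ f / φ g`, `f`, `g` coprime. If `π ∤ g` then `q π = 0`: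
`(π / π') S ∈ m` so `q π ∈ m` and `LD.rat_eq_zero`. Let `Π` be the finite set of the monic prime
divisors of `g` (`UniqueFactorizationMonoid.normalizedFactors g`, or the image under `normalize` of
`factors`), `T = S - ∑ π ∈ Π, q π * (φ π' / φ π)`. At every prime `π` (`primeVal` of associated
primes have the same `D 0`, or treat `π` and its monic associate: `q` is only used for monic
primes): `(φ π / φ π') T ∈ m`: for `π ∈ Π` the term `π` contributes `q π`, the others are integral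
multiples of `π / π'`. So `T` is integral at `π` (`v(π/π') = 1`). `RF1.poly_of_int`: `T = φ P`. At
infinity `- t π' / π = - natDegree π` mod `m` (`LD.log` for `ld_inf`, `V.v (φ π) = -natDegree π`),
so `- t T = q0 + ∑ q π natDegree π` mod `m`; hence `t T = φ (X * P)` is integral at infinity, so
`P = 0` (degree), `T = 0`, and the rational number `q0 + ∑ q π natDegree π ∈ m` is `0`. All terms are
`≥ 0` and `natDegree π ≥ 1`. -/
theorem RF1.residues (h : RF1 φ D) {S : F} {q : K[X] → ℚ} {q0 : ℚ}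
    (hq : ∀ (π : K[X]) (hπ : Prime π), π.Monic →
      (primeVal h.frac hπ).D 1 (φ π / φ (derivative π) * S - (q π : F)))
    (hq0 : (infVal h.frac).D 1 (-φ X * S - (q0 : F))) (h0 : 0 ≤ q0)
    (h1 : ∀ π : K[X], Prime π → π.Monic → 0 ≤ q π) :
    q0 = 0 ∧ ∀ π : K[X], Prime π → π.Monic → q π = 0 := by
  classical
  obtain ⟨f, g, hg0, hS⟩ := h.frac.surj S
  have hLD : ∀ (π : K[X]) (hπ : Prime π), LD (primeVal h.frac hπ) ((φ π / φ (derivative π)) • D) :=
    fun π hπ => h.ld_prime hπ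
  set Ps : Finset K[X] := (UniqueFactorizationMonoid.normalizedFactors g).toFinset with hPs
  have hmem : ∀ ρ ∈ Ps, Prime ρ ∧ ρ.Monic := by
    intro ρ hρ
    rw [hPs, Multiset.mem_toFinset] at hρ
    have h2 := UniqueFactorizationMonoid.prime_of_normalized_factor ρ hρ
    refine ⟨h2, ?_⟩
    have h3 := UniqueFactorizationMonoid.normalize_normalized_factor ρ hρ
    rw [← h3]
    exact Polynomial.monic_normalize h2.ne_zero
  have hnd : ∀ π : K[X], Prime π → π.Monic → π ∉ Ps → ¬ π ∣ g := by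
    intro π hπ hm hn hd
    apply hn
    rw [hPs, Multiset.mem_toFinset]
    obtain ⟨ρ, hρ, ha⟩ := UniqueFactorizationMonoid.exists_mem_normalizedFactors_of_dvd hg0 hπ.irreducible hd
    have h2 := hmem ρ (by rw [hPs, Multiset.mem_toFinset]; exact hρ)
    have h3 : π = ρ := Polynomial.eq_of_monic_of_associated hm h2.2 ha
    rwa [h3]
  have hq1 : ∀ (π : K[X]) (hπ : Prime π), π.Monic → π ∉ Ps → q π = 0 := by
    intro π hπ hm hn
    apply (hLD π hπ).rat_eq_zero
    have h2 := hq π hπ hm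
    have h3 : (primeVal h.frac hπ).D 1 (φ π / φ (derivative π) * S) := by
      obtain ⟨r1, r2⟩ := rs_ratio h hπ
      rw [hS]
      by_cases hf : f = 0
      · rw [hf, map_zero, zero_div, mul_zero]
        exact DVal.D_zero 1
      · have hf0 := h.ne hf
        have hg1 := h.ne hg0
        have h4 : (primeVal h.frac hπ).D ((0 : ℕ) : ℤ) (φ f) :=
          (primeVal_D h.frac hπ 0 f).2 (by rw [pow_zero]; exact one_dvd f)
        rw [DVal.D_iff hf0] at h4
        push_cast at h4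
        rw [DVal.D_iff (mul_ne_zero r1 (div_ne_zero hf0 hg1)),
          (primeVal h.frac hπ).map_mul r1 (div_ne_zero hf0 hg1), r2, DVal.v_div hf0 hg1,
          rs_unit h hπ (hnd π hπ hm hn)]
        omega
    have h4 := DVal.D_sub h3 h2
    rwa [sub_sub_cancel] at h4
  -- the difference
  set T : F := S - ∑ ρ ∈ Ps, (q ρ : F) * (φ (derivative ρ) / φ ρ) with hT
  have hTint : ∀ (π : K[X]) (hπ : Prime π), π.Monic → (primeVal h.frac hπ).D 0 T := by
    intro π hπ hm
    obtain ⟨r1, r2⟩ := rs_ratio h hπ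
    have hterm : ∀ ρ ∈ Ps, ρ ≠ π → (primeVal h.frac hπ).D 1
        (φ π / φ (derivative π) * ((q ρ : F) * (φ (derivative ρ) / φ ρ))) := by
      intro ρ hρ hne
      obtain ⟨p1, p2⟩ := hmem ρ hρ
      have h3 : ¬ π ∣ ρ := by
        intro hd
        have h4 := (hπ.dvd_prime_iff_associated p1).1 hd
        exact hne (Polynomial.eq_of_monic_of_associated hm p2 h4).symm
      have h5 : (primeVal h.frac hπ).D 0 (φ (derivative ρ) / φ ρ) := by
        obtain ⟨s1, s2⟩ := rs_ratio h p1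
        have h6 := (prime_not_dvd_derivative p1).1
        have h7 : (primeVal h.frac hπ).D ((0 : ℕ) : ℤ) (φ (derivative ρ)) :=
          (primeVal_D h.frac hπ 0 _).2 (by rw [pow_zero]; exact one_dvd _)
        rw [DVal.D_iff (h.ne h6)] at h7
        push_cast at h7
        rw [DVal.D_iff (div_ne_zero (h.ne h6) (h.ne p1.ne_zero)),
          DVal.v_div (h.ne h6) (h.ne p1.ne_zero), rs_unit h hπ h3]
        omega
      have h8 : (primeVal h.frac hπ).D 1 (φ π / φ (derivative π)) := by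
        rw [DVal.D_iff r1, r2]
      exact DVal.D_mul' h8 (DVal.D_mul' ((hLD π hπ).D_rat (q ρ)) h5 (l := 0) (by norm_num)) (by norm_num)
    have hkey : (primeVal h.frac hπ).D 1 (φ π / φ (derivative π) * T) := by
      by_cases hin : π ∈ Ps
      · have e1 : φ π / φ (derivative π) * T = (φ π / φ (derivative π) * S - (q π : F)) -
            ∑ ρ ∈ Ps.erase π, φ π / φ (derivative π) * ((q ρ : F) * (φ (derivative ρ) / φ ρ)) := by
          rw [hT, ← Finset.add_sum_erase Ps _ hin, ← Finset.mul_sum]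
          have h3 := h.ne (prime_not_dvd_derivative hπ).1
          have h4 := h.ne hπ.ne_zero
          have e2 : φ π / φ (derivative π) * ((q π : F) * (φ (derivative π) / φ π)) = (q π : F) := by
            field_simp
          rw [mul_sub, mul_add, e2]
          ring
        rw [e1]
        refine DVal.D_sub (hq π hπ hm) (rs_sum _ fun ρ hρ => ?_)
        exact hterm ρ (Finset.mem_of_mem_erase hρ) (Finset.ne_of_mem_erase hρ)
      · have e1 : φ π / φ (derivative π) * T = (φ π / φ (derivative π) * S - (q π : F)) -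
            ∑ ρ ∈ Ps, φ π / φ (derivative π) * ((q ρ : F) * (φ (derivative ρ) / φ ρ)) := by
          rw [hT, ← Finset.mul_sum, hq1 π hπ hm hin, Rat.cast_zero, sub_zero, mul_sub]
        rw [e1]
        refine DVal.D_sub (hq π hπ hm) (rs_sum _ fun ρ hρ => ?_)
        exact hterm ρ hρ fun h' => hin (h' ▸ hρ)
    have h9 : ¬ (primeVal h.frac hπ).D 2 (φ π / φ (derivative π)) := by
      rw [DVal.D_iff r1, r2]
      norm_num
    exact DVal.D_of_mul h9 hkey
  obtain ⟨P, hP⟩ := rs_monic h hTint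
  -- infinity
  set Q : ℚ := q0 + ∑ ρ ∈ Ps, q ρ * (ρ.natDegree : ℚ) with hQ
  have hLDi := h.ld_inf
  have hlog : ∀ ρ ∈ Ps, (infVal h.frac).D 1
      ((q ρ : F) * (φ X * (φ (derivative ρ) / φ ρ) - (ρ.natDegree : F))) := by
    intro ρ hρ
    obtain ⟨p1, p2⟩ := hmem ρ hρ
    have h3 := hLDi.log (h.ne p1.ne_zero)
    have h4 : (infVal h.frac).v (φ ρ) = -(ρ.natDegree : ℤ) := by
      have h5 := infVal_v h.frac p1.ne_zero (one_ne_zero (α := K[X]))
      rw [map_one, div_one, natDegree_one] at h5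
      rw [h5]
      push_cast
      ring
    have h6 : ((-φ X) • D) (φ ρ) = -φ X * φ (derivative ρ) := by
      rw [Derivation.smul_apply, smul_eq_mul, h.D_map]
    rw [h4, h6] at h3
    have h7 : -φ X * φ (derivative ρ) / φ ρ - ((-(ρ.natDegree : ℤ) : ℤ) : F) =
        -(φ X * (φ (derivative ρ) / φ ρ) - (ρ.natDegree : F)) := by
      push_cast
      ring
    rw [h7] at h3
    exact DVal.D_mul' (hLDi.D_rat (q ρ)) (DVal.D_neg_iff.1 h3) (by norm_num)
  have hinf : (infVal h.frac).D 1 (-φ X * T - (Q : F)) := by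
    have e1 : -φ X * T - (Q : F) = (-φ X * S - (q0 : F)) +
        ∑ ρ ∈ Ps, (q ρ : F) * (φ X * (φ (derivative ρ) / φ ρ) - (ρ.natDegree : F)) := by
      rw [hT, hQ]
      push_cast
      have e2 : ∑ ρ ∈ Ps, (q ρ : F) * (φ X * (φ (derivative ρ) / φ ρ) - (ρ.natDegree : F)) =
          φ X * ∑ ρ ∈ Ps, (q ρ : F) * (φ (derivative ρ) / φ ρ) - ∑ ρ ∈ Ps, (q ρ : F) * (ρ.natDegree : F) := by
        rw [Finset.mul_sum, ← Finset.sum_sub_distrib]
        exact Finset.sum_congr rfl fun ρ _ => by ring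
      rw [e2]
      ring
    rw [e1]
    exact DVal.D_add hq0 (rs_sum _ hlog)
  have hP0 : P = 0 := by
    by_contra hne
    have hXP : (X * P : K[X]) ≠ 0 := mul_ne_zero X_ne_zero hne
    have h3 : (infVal h.frac).D 0 (φ (X * P)) := by
      have h4 := DVal.D_add (DVal.D_mono (by norm_num : (0 : ℤ) ≤ 1) hinf) (hLDi.D_rat Q)
      rw [sub_add_cancel, hP, neg_mul, ← map_mul] at h4
      exact DVal.D_neg_iff.1 h4
    rw [DVal.D_iff (h.ne hXP)] at h3
    have h5 := infVal_v h.frac hXP (one_ne_zero (α := K[X]))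
    rw [map_one, div_one, natDegree_one, natDegree_mul X_ne_zero hne, natDegree_X] at h5
    rw [h5] at h3
    push_cast at h3
    omega
  have hQ0 : Q = 0 := by
    apply hLDi.rat_eq_zero
    rw [hP, hP0, map_zero, mul_zero, zero_sub] at hinf
    exact DVal.D_neg_iff.1 hinf
  have hnn : ∀ ρ ∈ Ps, 0 ≤ q ρ * (ρ.natDegree : ℚ) := fun ρ hρ =>
    mul_nonneg (h1 ρ (hmem ρ hρ).1 (hmem ρ hρ).2) (Nat.cast_nonneg _)
  have hs := Finset.sum_nonneg hnn
  have hsum0 : ∑ ρ ∈ Ps, q ρ * (ρ.natDegree : ℚ) = 0 := by linarith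
  refine ⟨by linarith, fun π hπ hm => ?_⟩
  by_cases hin : π ∈ Ps
  · have h3 := (Finset.sum_eq_zero_iff_of_nonneg hnn).1 hsum0 π hin
    have h4 : (π.natDegree : ℚ) ≠ 0 := by
      have h5 : 0 < π.natDegree := hπ.irreducible.natDegree_pos
      exact_mod_cast h5.ne'
    exact (mul_eq_zero.1 h3).resolve_right h4
  · exact hq1 π hπ hm hin

/-- The substitution `X ↦ X / k`. -/
private noncomputable def sc (k : F) (P : F[X]) : F[X] := P.comp (C k⁻¹ * X)

private lemma sc_dx {a b h : F} (hh : h ≠ 0) (hk : k1 D a b ≠ 0) (P : F[X]) :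
    dx (h • D) (X ^ 2 +
        C (2 * g1 (h • D) a b + (h • D) (k1 (h • D) a b) / k1 (h • D) a b) * X -
          C (k1 (h • D) a b ^ 2 * a / 3)) (sc (k1 (h • D) a b) P) =
      C h * sc (k1 (h • D) a b) (dx D (ric D a b) P) := by
  rw [k1_smul, g1_smul]
  have hkk : h * k1 D a b ≠ 0 := mul_ne_zero hh hk
  set k : F := h * k1 D a b with hkdef
  set P1 : F[X] := X ^ 2 + C (2 * (h * g1 D a b) + (h • D) k / k) * X - C (k ^ 2 * a / 3) with hP1
  have hX : dx (h • D) P1 (C k⁻¹ * X) = C h * (ric D a b).comp (C k⁻¹ * X) := by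
    have e1 : (h • D) k⁻¹ = -((h • D) k / k ^ 2) := by
      rw [Derivation.leibniz_inv, smul_eq_mul]
      field_simp
    rw [dx_mul, dx_C, dx_X, e1, ric, sub_comp, add_comp, mul_comp, mul_comp, C_comp, C_comp,
      C_comp, pow_comp, X_comp, hP1]
    have e2 : C k⁻¹ * C (k ^ 2 * a / 3) = C h * C (k1 D a b * a / 3) := by
      rw [← C_mul, ← C_mul]
      congr 1
      rw [hkdef] at hkk ⊢
      field_simp
    have e3 : C k⁻¹ * C (2 * (h * g1 D a b) + (h • D) k / k) + C (-((h • D) k / k ^ 2)) =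
        C h * C (2 * g1 D a b) * C k⁻¹ := by
      rw [← C_mul, ← C_mul, ← C_mul, ← C_add]
      congr 1
      field_simp
      ring
    have e4 : (C k⁻¹ : F[X]) = C h * C (k1 D a b) * C k⁻¹ ^ 2 := by
      rw [← C_mul, ← hkdef, ← C_pow, ← C_mul]
      congr 1
      field_simp
    linear_combination (X : F[X]) * e3 - e2 + (X : F[X]) ^ 2 * e4
  unfold sc
  induction P using Polynomial.induction_on' with
  | add p q hp hq => rw [add_comp, dx_add, dx_add, add_comp, hp, hq, mul_add]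
  | monomial n c =>
    rw [← C_mul_X_pow_eq_monomial]
    induction n with
    | zero =>
      rw [pow_zero, mul_one, C_comp, dx_C, dx_C, C_comp, ← C_mul]
      rfl
    | succ n ih =>
      rw [pow_succ, ← mul_assoc, mul_comp, X_comp, dx_mul, ih, hX, dx_mul D _ (C c * X ^ n) X, dx_X,
        add_comp, mul_comp, mul_comp, mul_comp (C c * X ^ n) (ric D a b), mul_comp, X_comp]
      ring

private lemma scaleRoots_eq_sc {k : F} (hk : k ≠ 0) (Q : F[X]) :
    Q.scaleRoots k = C (k ^ Q.natDegree) * sc k Q := by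
  ext i
  rw [coeff_scaleRoots, coeff_C_mul, sc, comp_C_mul_X_coeff]
  rcases le_or_gt i Q.natDegree with hi | hi
  · have h1 : k ^ Q.natDegree = k ^ (Q.natDegree - i) * k ^ i := by
      rw [← pow_add]
      congr 1
      omega
    rw [h1, inv_pow]
    field_simp
  · rw [coeff_eq_zero_of_natDegree_lt hi]
    ring

/-- A Darboux polynomial after the substitution `eps = k c` and the change `δ = h D`. If
`Q ∣ dx D (ric D a b) Q` and `δ = h • D`, `k = k1 δ a b = h k1`, then
`Q1 = scaleRoots Q k` (coefficients `Q.coeff i * k ^ (M - i)`, monic of the same degree) satisfies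
`Q1 ∣ dx δ (X^2 + nu X - mu) Q1` with `nu = 2 g1 δ + δ k / k`, `mu = k^2 a / 3`. PROOF. With
`k ≠ 0`: `Q1 = C (k^M) * Q.comp (C k⁻¹ * X)` (check coefficients). Put `θ P = P.comp (C k⁻¹ * X)`, a
ring automorphism of `F[X]`. Then
`dx δ (X^2 + nu X - mu) (θ P) = θ (dx δ (C h * ric D a b) P)` for all `P` (both sides are
derivations along the ring map `θ`: check on `C c` and on `X`: the left side is
`δ(k⁻¹) X + k⁻¹ (X^2 + nu X - mu)`, the right side `h (k1 (X/k)^2 + 2 g1 (X/k) - k1 a/3)`; equal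
because `k = h k1`, `k1_smul`, `g1_smul`), and `dx δ (C h * ric) = C h * dx D ric`. So
`θ Q ∣ dx .. (θ Q)`, and multiplication by the constant `k^M` preserves this (`dx_mul`, `dx_C`). -/
theorem dbx_scale {a b h : F} (hh : h ≠ 0) (hk : k1 D a b ≠ 0) {Q : F[X]} (hQ : Q.Monic)
    (hdvd : Q ∣ dx D (ric D a b) Q) :
    ∃ Q1 : F[X], Q1.Monic ∧ Q1.natDegree = Q.natDegree ∧
      (1 ≤ Q.natDegree →
        Q1.coeff (Q.natDegree - 1) = h * k1 D a b * Q.coeff (Q.natDegree - 1)) ∧
      Q1 ∣ dx (h • D) (X ^ 2 +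
        C (2 * g1 (h • D) a b + (h • D) (k1 (h • D) a b) / k1 (h • D) a b) * X -
          C (k1 (h • D) a b ^ 2 * a / 3)) Q1 := by
  have hk' : k1 (h • D) a b ≠ 0 := by
    rw [k1_smul]
    exact mul_ne_zero hh hk
  refine ⟨Q.scaleRoots (k1 (h • D) a b), (monic_scaleRoots_iff _).2 hQ, natDegree_scaleRoots _ _,
    fun h1 => ?_, ?_⟩
  · rw [coeff_scaleRoots, Nat.sub_sub_self h1, pow_one, k1_smul]
    ring
  · obtain ⟨R, hR⟩ := hdvd
    rw [scaleRoots_eq_sc hk', dx_mul, dx_C, sc_dx hh hk, hR]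
    have hu : IsUnit (C (k1 (h • D) a b ^ Q.natDegree) : F[X]) :=
      isUnit_C.2 (isUnit_iff_ne_zero.2 (pow_ne_zero _ hk'))
    rw [hu.mul_left_dvd]
    refine dvd_add (dvd_mul_left _ _) ?_
    have e : sc (k1 (h • D) a b) (Q * R) = sc (k1 (h • D) a b) Q * sc (k1 (h • D) a b) R := by
      unfold sc
      rw [mul_comp]
    rw [e]
    exact ⟨C (k1 (h • D) a b ^ Q.natDegree) * (C h * sc (k1 (h • D) a b) R), by ring⟩

/-- The local residue. -/
private lemma ric_local {V : DVal F} {h : F} (hh : h ≠ 0) (hV : LD V (h • D)) {a b : F}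
    (hk : k1 D a b ≠ 0) {Q : F[X]} (hQ : Q.Monic) (hd : 1 ≤ Q.natDegree)
    (hdvd : Q ∣ dx D (ric D a b) Q) :
    ∃ q : ℚ, 0 ≤ q ∧ V.D 1 (h * (k1 D a b * Q.coeff (Q.natDegree - 1)) - (q : F)) ∧
      (V.v (a ^ 3 / dl a b) < 0 → 0 < q) := by
  obtain ⟨Q1, hQ1, hdeg, hco, hdvd1⟩ := dbx_scale hh hk hQ hdvd
  have hk' : k1 (h • D) a b ≠ 0 := by
    rw [k1_smul]
    exact mul_ne_zero hh hk
  obtain ⟨r1, r2, hr1, hr2, hnu, hmu, hpos⟩ := hV.nu_mu hk'
  obtain ⟨m1, m2, hm, hc⟩ := hV.dbx_coeff hnu hmu hQ1 (by rw [hdeg]; exact hd) hdvd1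
  refine ⟨m1 * r1 + m2 * r2, by positivity, ?_, ?_⟩
  · rw [hdeg, hco hd] at hc
    rwa [← mul_assoc]
  · intro hv
    obtain ⟨h1, h2⟩ := hpos hv
    rw [hdeg] at hm
    rcases Nat.eq_zero_or_pos m1 with h0 | h0
    · have : 0 < m2 := by omega
      have h3 : (0 : ℚ) < m2 := by exact_mod_cast this
      have : 0 < (m2 : ℚ) * r2 := mul_pos h3 h2
      have : 0 ≤ (m1 : ℚ) * r1 := by positivity
      linarith
    · have h3 : (0 : ℚ) < m1 := by exact_mod_cast h0
      have : 0 < (m1 : ℚ) * r1 := mul_pos h3 h1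
      have : 0 ≤ (m2 : ℚ) * r2 := by positivity
      linarith

/-- Associated primes have the same valuation. -/
private lemma ric_assoc (hφ : IsFrac φ) {π π' : K[X]} (hπ : Prime π) (hπ' : Prime π')
    (ha : Associated π π') {f : K[X]} (hf : f ≠ 0) :
    (primeVal hφ hπ).v (φ f) = (primeVal hφ hπ').v (φ f) := by
  have hf0 : φ f ≠ 0 := fun h0 => hf (hφ.inj (by rw [h0, map_zero]))
  have key : ∀ k : ℕ, (k : ℤ) ≤ (primeVal hφ hπ).v (φ f) ↔
      (k : ℤ) ≤ (primeVal hφ hπ').v (φ f) := by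
    intro k
    rw [← DVal.D_iff hf0, ← DVal.D_iff hf0, primeVal_D, primeVal_D]
    exact (ha.pow_pow (n := k)).dvd_iff_dvd_left
  have h1 : (0 : ℤ) ≤ (primeVal hφ hπ).v (φ f) := by
    rw [← DVal.D_iff hf0]
    exact (primeVal_D hφ hπ 0 f).2 (by simp)
  have h2 := (key 0).1 (by simpa using h1)
  have h3 := (key ((primeVal hφ hπ).v (φ f)).toNat).1 (by rw [Int.toNat_of_nonneg h1])
  have h4 := (key ((primeVal hφ hπ').v (φ f)).toNat).2
    (by rw [Int.toNat_of_nonneg (by simpa using h2)])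
  rw [Int.toNat_of_nonneg h1] at h3
  rw [Int.toNat_of_nonneg (by simpa using h2)] at h4
  exact le_antisymm h3 h4

/-- THEOREM R: the Riccati polynomial has no Darboux polynomial. PROOF. Let `Q` be one, `M` its
degree, `S = k1 * Q.coeff (M - 1)`. At a place `(V, h D)` (`ld_prime`: `h = φ π / φ π'`; `ld_inf`:
`h = -φ X`), `dbx_scale`, `LD.nu_mu` (for `h • D`, with `k1_smul`), `LD.dbx_coeff`: there is a
rational `q = m1 r1 + m2 r2 ≥ 0` with `h S = q` mod `m`, and `q > 0` if `V.v J < 0`,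
`J = (φ a)^3 / dl` (`m1 + m2 = M ≥ 1`). `RF1.residues`: all `q` vanish (choose `q π` by cases).
But `D J ≠ 0` (`wr_eq`), so `J` has a pole (`exists_pole`; replace `π` by its monic associate, or
note that `dx`-free: the pole of `J = φ(a^3)/φ(dl)` at `π`): contradiction. -/
theorem RF1.riccati (h : RF1 φ D) {a b : K[X]} (hk : k1 D (φ a) (φ b) ≠ 0) :
    NoDbx D (ric D (φ a) (φ b)) := by
  classical
  intro Q hQ hd hdvd
  set S : F := k1 D (φ a) (φ b) * Q.coeff (Q.natDegree - 1) with hS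
  have hX : φ X ≠ 0 := h.ne X_ne_zero
  obtain ⟨q0, hq00, hq0, hq0p⟩ := ric_local (neg_ne_zero.2 hX) h.ld_inf hk hQ hd hdvd
  have hex : ∀ (π : K[X]) (hπ : Prime π), ∃ q : ℚ, 0 ≤ q ∧
      (primeVal h.frac hπ).D 1 (φ π / φ (derivative π) * S - (q : F)) ∧
      ((primeVal h.frac hπ).v (φ a ^ 3 / dl (φ a) (φ b)) < 0 → 0 < q) := by
    intro π hπ
    exact ric_local (div_ne_zero (h.ne hπ.ne_zero) (h.ne (prime_not_dvd_derivative hπ).1))
      (h.ld_prime hπ) hk hQ hd hdvd
  choose q1 hq1 hq2 hq3 using hex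
  let q : K[X] → ℚ := fun π => if hπ : Prime π then q1 π hπ else 0
  have hqe : ∀ (π : K[X]) (hπ : Prime π), q π = q1 π hπ := fun π hπ => dif_pos hπ
  obtain ⟨hz0, hz⟩ := h.residues (S := S) (q := q) (q0 := q0)
    (fun π hπ _ => by rw [hqe π hπ]; exact hq2 π hπ) hq0 hq00
    (fun π hπ _ => by rw [hqe π hπ]; exact hq1 π hπ)
  have hJ := (wr_eq D hk).2
  obtain ⟨hdl, -, ha0, -⟩ := ne_of_k1 D hk
  rcases h.exists_pole hJ with ⟨π, hπ, hv⟩ | hv
  · -- the monic associate
    have hass : Associated π (normalize π) := (normalize_associated π).symm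
    have hπ' : Prime (normalize π) := hass.prime hπ
    have hmon : (normalize π).Monic := monic_normalize hπ.ne_zero
    have e1 : dl (φ a) (φ b) = φ (4 * a ^ 3 + 27 * b ^ 2) := by
      unfold dl
      rw [map_add, map_mul, map_mul, map_pow, map_pow, map_ofNat, map_ofNat]
    have e2 : φ a ^ 3 = φ (a ^ 3) := by simp
    have hn1 : a ^ 3 ≠ 0 := pow_ne_zero 3 fun h0 => ha0 (by rw [h0, map_zero])
    have hn2 : 4 * a ^ 3 + 27 * b ^ 2 ≠ 0 := fun h0 => hdl (by rw [e1, h0, map_zero])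
    have hv' : (primeVal h.frac hπ').v (φ a ^ 3 / dl (φ a) (φ b)) < 0 := by
      rw [e1, e2, DVal.v_div (h.ne hn1) (h.ne hn2)] at hv ⊢
      rwa [← ric_assoc h.frac hπ hπ' hass hn1, ← ric_assoc h.frac hπ hπ' hass hn2]
    have h1 := hq3 _ hπ' hv'
    rw [← hqe _ hπ', hz _ hπ' hmon] at h1
    exact lt_irrefl _ h1
  · exact (hq0p hv).ne' hz0

end Pool.Agent.Lib.MP_3550b5_nt.SV
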