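import Mathlib
import Pool.Agent.Lib.MP_3550b5_nt.SV.MB
import Pool.Agent.Lib.MP_3550b5_nt.SV.Sum

/-!
Project SV, part M: scaling, and the global theorem M2.
-/

namespace Pool.Agent.Lib.MP_3550b5_nt.SV

open G Polynomial

section Scale

variable {F : Type*} [Field F] [CharZero F] (D : Derivation ℤ F F) {a b x y z ze u : F}

omit [CharZero F] in
private lemma Glo_pow (n : ℕ) : D (u ^ (n + 1)) = (n + 1 : ℕ) * u ^ n * D u := by
  rw [Derivation.leibniz_pow, Nat.add_sub_cancel, nsmul_eq_mul, smul_eq_mul]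
  ring

omit [CharZero F] in
private lemma Glo_dl : dl (u ^ 4 * a) (u ^ 6 * b) = u ^ 12 * dl a b := by
  unfold dl
  ring

private lemma Glo_wr : wr D (u ^ 4 * a) (u ^ 6 * b) = u ^ 10 * wr D a b := by
  unfold wr
  rw [Derivation.leibniz, Derivation.leibniz, Glo_pow D 3, Glo_pow D 5]
  simp only [smul_eq_mul]
  push_cast
  ring

/-- Scaling by `u`: `wr` is multiplied by `u^10`, `dl` by `u^12`. -/
lemma k1_scale (hu : u ≠ 0) : k1 D (u ^ 4 * a) (u ^ 6 * b) = k1 D a b / u ^ 2 := by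
  unfold k1
  rw [Glo_wr, Glo_dl]
  by_cases h : dl a b = 0
  · rw [h]
    simp
  · field_simp

lemma g1_scale (hu : u ≠ 0) (hΔ : dl a b ≠ 0) :
    g1 D (u ^ 4 * a) (u ^ 6 * b) = g1 D a b + D u / u := by
  unfold g1
  rw [Glo_dl, Derivation.leibniz, Glo_pow D 11]
  simp only [smul_eq_mul]
  push_cast
  field_simp

lemma om_scale (hu : u ≠ 0) (hΔ : dl a b ≠ 0) :
    om D (u ^ 4 * a) (u ^ 6 * b) (u ^ 2 * x) (u ^ 3 * y) = om D a b x y / u := by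
  unfold om
  rw [k1_scale D hu, g1_scale D hu hΔ, Derivation.leibniz, Glo_pow D 1]
  simp only [smul_eq_mul]
  by_cases hy : y = 0
  · rw [hy]
    simp
  push_cast
  field_simp
  ring

lemma sys_scale (hu : u ≠ 0) (hΔ : dl a b ≠ 0) (h : Sys D a b x y z ze) :
    Sys D (u ^ 4 * a) (u ^ 6 * b) (u ^ 2 * x) (u ^ 3 * y) (z / u) (u * ze) := by
  obtain ⟨h1, h2⟩ := h
  refine ⟨?_, ?_⟩
  · rw [k1_scale D hu, g1_scale D hu hΔ, om_scale D hu hΔ, Derivation.leibniz_div, h1]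
    simp only [smul_eq_mul]
    field_simp
    ring
  · rw [k1_scale D hu, g1_scale D hu hΔ, om_scale D hu hΔ, Derivation.leibniz, h2]
    simp only [smul_eq_mul]
    field_simp
    ring

lemma Ee_scale (hu : u ≠ 0) (hΔ : dl a b ≠ 0) :
    Ee D (u ^ 4 * a) (u ^ 6 * b) (u ^ 2 * x) (u ^ 3 * y) (z / u) (u * ze) =
      Ee D a b x y z ze - D u / u := by
  unfold Ee
  rw [k1_scale D hu, g1_scale D hu hΔ, om_scale D hu hΔ]
  field_simp
  ring

private lemma Glo_k1 (h0 : F) : k1 (h0 • D) a b = h0 * k1 D a b := by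
  unfold k1 wr
  rw [Derivation.smul_apply, Derivation.smul_apply, smul_eq_mul, smul_eq_mul]
  ring

private lemma Glo_g1 (h0 : F) : g1 (h0 • D) a b = h0 * g1 D a b := by
  unfold g1
  rw [Derivation.smul_apply, smul_eq_mul]
  ring

private lemma Glo_om (h0 : F) : om (h0 • D) a b x y = h0 * om D a b x y := by
  unfold om
  rw [Glo_k1, Glo_g1, Derivation.smul_apply, smul_eq_mul]
  ring

lemma sys_smul (h0 : F) (h : Sys D a b x y z ze) : Sys (h0 • D) a b x y z ze := by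
  obtain ⟨h1, h2⟩ := h
  refine ⟨?_, ?_⟩
  · rw [Glo_k1, Glo_g1, Glo_om, Derivation.smul_apply, h1, smul_eq_mul]
    ring
  · rw [Glo_k1, Glo_g1, Glo_om, Derivation.smul_apply, h2, smul_eq_mul]
    ring

lemma Ee_smul (h0 : F) : Ee (h0 • D) a b x y z ze = h0 * Ee D a b x y z ze := by
  unfold Ee
  rw [Glo_k1, Glo_g1, Glo_om]
  ring

end Scale

variable {K F : Type*} [Field K] [CharZero K] [Field F] [CharZero F] {φ : K[X] →+* F}
  {D : Derivation ℤ F F}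

/-- THE GLOBAL THEOREM M2. PROOF. Let `S = Ee D (φ a) (φ b) x y z ze`. At a prime `π`:
`δ = (φ π / φ π') • D` (`RF1.ld_prime`), `sys_smul`, `LC` for `φ a`, `φ b` (`hmin`, `primeVal_D`;
`k1_smul`), `LC.main`: `(φ π / φ π') S = n` mod `m` with `n : ℕ` (`Ee_smul`). At infinity:
`u = (φ X ^ d)⁻¹`, the scaled curve `u^4 φ a = φ a / φ X ^ (4 d)`, ... (`sys_scale`), then
`δ = (-φ X) • D` (`RF1.ld_inf`), `LC` by `ha`, `hb`, `hmin'` and `infVal_v`, `LC.main`: there is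
`n : ℕ` with `-X (S - D u / u) = n` mod `m`, `D u / u = - d / X`, so `-X S = n + d` mod `m`.
`RF1.residues` with `q0 = n + d > 0`: contradiction. -/
theorem RF1.no_sys (h : RF1 φ D) {d : ℕ} (hd : 1 ≤ d) {a b : K[X]}
    (ha : a.natDegree ≤ 4 * d) (hb : b.natDegree ≤ 6 * d) (hk : k1 D (φ a) (φ b) ≠ 0)
    (hmin : ∀ π : K[X], Prime π → ¬ (π ^ 4 ∣ a ∧ π ^ 6 ∣ b))
    (hmin' : ¬ (a.natDegree + 4 ≤ 4 * d ∧ b.natDegree + 6 ≤ 6 * d))
    {x y z ze : F} (hxy : y ^ 2 = x ^ 3 + φ a * x + φ b) (hy : y ≠ 0)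
    (hns : ∀ (π : K[X]) (hπ : Prime π), ¬ (primeVal h.frac hπ).Sing (φ a) x y)
    (hns' : ¬ (infVal h.frac).Sing (φ a / φ X ^ (4 * d)) (x / φ X ^ (2 * d))
      (y / φ X ^ (3 * d))) :
    ¬ Sys D (φ a) (φ b) x y z ze := by
  classical
  intro hS
  obtain ⟨hΔ, -, ha0, hb0⟩ := ne_of_k1 D hk
  have hX : φ X ≠ 0 := h.ne X_ne_zero
  have hXd : φ X ^ d ≠ 0 := pow_ne_zero d hX
  have ha0' : a ≠ 0 := fun h0 => ha0 (by rw [h0, map_zero])
  have hb0' : b ≠ 0 := fun h0 => hb0 (by rw [h0, map_zero])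
  -- the finite places
  have hfin : ∀ (π : K[X]) (hπ : Prime π), ∃ n : ℕ, (primeVal h.frac hπ).D 1
      (φ π / φ (derivative π) * Ee D (φ a) (φ b) x y z ze - (n : F)) := by
    intro π hπ
    have hh : φ π / φ (derivative π) ≠ 0 :=
      div_ne_zero (h.ne hπ.ne_zero) (h.ne (prime_not_dvd_derivative hπ).1)
    have hLC : LC (primeVal h.frac hπ) ((φ π / φ (derivative π)) • D) (φ a) (φ b) := by
      refine ⟨h.ld_prime hπ, ?_, ?_, ?_, ?_⟩
      · exact (primeVal_D h.frac hπ 0 a).2 (by rw [pow_zero]; exact one_dvd a)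
      · exact (primeVal_D h.frac hπ 0 b).2 (by rw [pow_zero]; exact one_dvd b)
      · rintro ⟨h4, h6⟩
        exact hmin π hπ ⟨(primeVal_D h.frac hπ 4 a).1 h4, (primeVal_D h.frac hπ 6 b).1 h6⟩
      · rw [k1_smul]
        exact mul_ne_zero hh hk
    obtain ⟨n, hn⟩ := hLC.main hxy hy (hns π hπ) (sys_smul D (φ π / φ (derivative π)) hS)
    rw [Ee_smul] at hn
    exact ⟨n, hn⟩
  choose n hn using hfin
  -- infinity
  have hu : (φ X ^ d)⁻¹ ≠ 0 := inv_ne_zero hXd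
  have hDu : D ((φ X ^ d)⁻¹) / (φ X ^ d)⁻¹ = -((d : F) / φ X) := by
    obtain ⟨e, rfl⟩ : ∃ e, d = e + 1 := ⟨d - 1, by omega⟩
    rw [Derivation.leibniz_inv, Derivation.leibniz_pow, h.map_X]
    simp only [smul_eq_mul, mul_one, nsmul_eq_mul, Nat.add_sub_cancel]
    field_simp
    ring
  have ea : ((φ X ^ d)⁻¹) ^ 4 * φ a = φ a / φ (X ^ (4 * d)) := by
    rw [map_pow, mul_comm 4 d, pow_mul, inv_pow, div_eq_mul_inv, mul_comm]
  have eb : ((φ X ^ d)⁻¹) ^ 6 * φ b = φ b / φ (X ^ (6 * d)) := by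
    rw [map_pow, mul_comm 6 d, pow_mul, inv_pow, div_eq_mul_inv, mul_comm]
  have ex : ((φ X ^ d)⁻¹) ^ 2 * x = x / φ X ^ (2 * d) := by
    rw [mul_comm 2 d, pow_mul, inv_pow, div_eq_mul_inv, mul_comm]
  have ey : ((φ X ^ d)⁻¹) ^ 3 * y = y / φ X ^ (3 * d) := by
    rw [mul_comm 3 d, pow_mul, inv_pow, div_eq_mul_inv, mul_comm]
  have va : (infVal h.frac).v (φ a / φ (X ^ (4 * d))) = ((4 * d : ℕ) : ℤ) - a.natDegree := by
    rw [infVal_v h.frac ha0' (pow_ne_zero _ X_ne_zero), natDegree_X_pow]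
  have vb : (infVal h.frac).v (φ b / φ (X ^ (6 * d))) = ((6 * d : ℕ) : ℤ) - b.natDegree := by
    rw [infVal_v h.frac hb0' (pow_ne_zero _ X_ne_zero), natDegree_X_pow]
  have na : φ a / φ (X ^ (4 * d)) ≠ 0 := div_ne_zero ha0 (h.ne (pow_ne_zero _ X_ne_zero))
  have nb : φ b / φ (X ^ (6 * d)) ≠ 0 := div_ne_zero hb0 (h.ne (pow_ne_zero _ X_ne_zero))
  have hLC : LC (infVal h.frac) ((-φ X) • D) (((φ X ^ d)⁻¹) ^ 4 * φ a)
      (((φ X ^ d)⁻¹) ^ 6 * φ b) := by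
    refine ⟨h.ld_inf, ?_, ?_, ?_, ?_⟩
    · rw [ea, DVal.D_iff na, va]
      omega
    · rw [eb, DVal.D_iff nb, vb]
      omega
    · rw [ea, eb, DVal.D_iff na, DVal.D_iff nb, va, vb]
      rintro ⟨h4, h6⟩
      exact hmin' ⟨by omega, by omega⟩
    · rw [k1_smul, k1_scale D hu]
      exact mul_ne_zero (neg_ne_zero.2 hX) (div_ne_zero hk (pow_ne_zero 2 hu))
  have hxy' : (((φ X ^ d)⁻¹) ^ 3 * y) ^ 2 = (((φ X ^ d)⁻¹) ^ 2 * x) ^ 3 +
      ((φ X ^ d)⁻¹) ^ 4 * φ a * (((φ X ^ d)⁻¹) ^ 2 * x) + ((φ X ^ d)⁻¹) ^ 6 * φ b := by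
    linear_combination ((φ X ^ d)⁻¹) ^ 6 * hxy
  have hns2 : ¬ (infVal h.frac).Sing (((φ X ^ d)⁻¹) ^ 4 * φ a) (((φ X ^ d)⁻¹) ^ 2 * x)
      (((φ X ^ d)⁻¹) ^ 3 * y) := by
    rw [ea, ex, ey, map_pow]
    exact hns'
  obtain ⟨n0, hn0⟩ := hLC.main hxy' (mul_ne_zero (pow_ne_zero 3 hu) hy) hns2
    (sys_smul D (-φ X) (sys_scale D hu hΔ hS))
  rw [Ee_smul, Ee_scale D hu hΔ, hDu] at hn0
  let q : K[X] → ℚ := fun π => if hπ : Prime π then (n π hπ : ℚ) else 0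
  have hqe : ∀ (π : K[X]) (hπ : Prime π), q π = (n π hπ : ℚ) := fun π hπ => dif_pos hπ
  obtain ⟨hz0, -⟩ := h.residues (S := Ee D (φ a) (φ b) x y z ze) (q := q)
    (q0 := ((n0 + d : ℕ) : ℚ))
    (fun π hπ _ => by
      rw [hqe π hπ, Rat.cast_natCast]
      exact hn π hπ)
    (by
      rw [Rat.cast_natCast]
      have e1 : -φ X * Ee D (φ a) (φ b) x y z ze - ((n0 + d : ℕ) : F) =
          -φ X * (Ee D (φ a) (φ b) x y z ze - -((d : F) / φ X)) - (n0 : F) := by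
        push_cast
        field_simp
        ring
      rw [e1]
      exact hn0)
    (Nat.cast_nonneg _)
    (fun π hπ _ => by
      rw [hqe π hπ]
      exact Nat.cast_nonneg _)
  have hz1 : n0 + d = 0 := by exact_mod_cast hz0
  omega

end Pool.Agent.Lib.MP_3550b5_nt.SV
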