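import Mathlib
import Pool.Agent.Lib.MP_3550b5_nt.G.Coord

/-!
Project SV, part M: the scaling isomorphism of short Weierstrass curves along a field homomorphism.
-/

namespace Pool.Agent.Lib.MP_3550b5_nt.SV

open G WeierstrassCurve.Affine

section ScHom

variable {E₀ E : Type*} [Field E₀] [Field E] (f : E₀ →+* E) {u : E}

private lemma sc_ns (hu : u ≠ 0) {a₀ b₀ x y : E₀} (h : (scurve a₀ b₀).Nonsingular x y) :
    (scurve (u ^ 4 * f a₀) (u ^ 6 * f b₀)).Nonsingular (u ^ 2 * f x) (u ^ 3 * f y) := by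
  rw [nonsing_iff] at h ⊢
  obtain ⟨h1, h2⟩ := h
  refine ⟨?_, ?_⟩
  · have h3 : f y ^ 2 = f x ^ 3 + f a₀ * f x + f b₀ := by
      rw [← map_pow, h1, map_add, map_add, map_mul, map_pow]
    linear_combination u ^ 6 * h3
  · rcases h2 with h2 | h2
    · left
      have h4 : (2 : E) * (u ^ 3 * f y) = u ^ 3 * f (2 * y) := by
        rw [map_mul, map_ofNat]
        ring
      rw [h4]
      exact mul_ne_zero (pow_ne_zero 3 hu) ((map_ne_zero f).2 h2)
    · right
      have h4 : 3 * (u ^ 2 * f x) ^ 2 + u ^ 4 * f a₀ = u ^ 4 * f (3 * x ^ 2 + a₀) := by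
        rw [map_add, map_mul, map_pow, map_ofNat]
        ring
      rw [h4]
      exact mul_ne_zero (pow_ne_zero 4 hu) ((map_ne_zero f).2 h2)

private def scJ (hu : u ≠ 0) {a₀ b₀ : E₀} :
    (scurve a₀ b₀).Point → (scurve (u ^ 4 * f a₀) (u ^ 6 * f b₀)).Point
  | 0 => 0
  | .some x y h => .some (u ^ 2 * f x) (u ^ 3 * f y) (sc_ns f hu h)

private lemma scJ_some (hu : u ≠ 0) {a₀ b₀ x y : E₀} (h : (scurve a₀ b₀).Nonsingular x y) :
    scJ f hu (.some x y h : (scurve a₀ b₀).Point) =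
      .some (u ^ 2 * f x) (u ^ 3 * f y) (sc_ns f hu h) := rfl

private lemma scJ_zero (hu : u ≠ 0) {a₀ b₀ : E₀} :
    scJ f hu (0 : (scurve a₀ b₀).Point) = 0 := rfl

private lemma sc_pt {a b x y x' y' : E} (h : (scurve a b).Nonsingular x y)
    (h' : (scurve a b).Nonsingular x' y') (hx : x = x') (hy : y = y') :
    (Point.some x y h : (scurve a b).Point) = Point.some x' y' h' := by
  subst hx hy
  rfl

private lemma scJ_neg (hu : u ≠ 0) {a₀ b₀ : E₀} (P : (scurve a₀ b₀).Point) :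
    scJ f hu (-P) = -scJ f hu P := by
  rcases P with _ | ⟨x, y, h⟩
  · rfl
  · obtain ⟨h1, e1⟩ := neg_coord h
    obtain ⟨h2, e2⟩ := neg_coord (sc_ns f hu h)
    rw [e1, scJ_some, scJ_some, e2]
    refine sc_pt _ _ rfl ?_
    rw [map_neg]
    ring

variable [DecidableEq E₀] [DecidableEq E]

private lemma scJ_add (hu : u ≠ 0) {a₀ b₀ : E₀} (P Q : (scurve a₀ b₀).Point) :
    scJ f hu (P + Q) = scJ f hu P + scJ f hu Q := by
  rcases P with _ | ⟨x1, y1, h1⟩
  · change scJ f hu (0 + Q) = 0 + scJ f hu Q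
    rw [zero_add, zero_add]
  rcases Q with _ | ⟨x2, y2, h2⟩
  · change scJ f hu (_ + 0) = _ + 0
    rw [add_zero, add_zero]
  by_cases hx : x1 = x2
  · rcases eq_or_neg_of_x h1 h2 hx with hPQ | hPQ
    · rw [hPQ]
      by_cases hy : 2 * y2 = 0
      · have hy' : 2 * (u ^ 3 * f y2) = 0 := by
          have h4 : (2 : E) * (u ^ 3 * f y2) = u ^ 3 * f (2 * y2) := by
            rw [map_mul, map_ofNat]
            ring
          rw [h4, hy, map_zero, mul_zero]
        rw [dbl_eq_zero h2 hy, scJ_some, dbl_eq_zero (sc_ns f hu h2) hy', scJ_zero]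
      · have h4 : (2 : E) * (u ^ 3 * f y2) = u ^ 3 * f (2 * y2) := by
          rw [map_mul, map_ofNat]
          ring
        have hy' : 2 * (u ^ 3 * f y2) ≠ 0 := by
          rw [h4]
          exact mul_ne_zero (pow_ne_zero 3 hu) ((map_ne_zero f).2 hy)
        obtain ⟨l, x3, y3, h3, e1, e2, e3, e4⟩ := dbl_coord h2 hy
        obtain ⟨l', x3', y3', h3', e1', e2', e3', e4'⟩ := dbl_coord (sc_ns f hu h2) hy'
        have g1 : 2 * f y2 * f l = 3 * f x2 ^ 2 + f a₀ := by
          have := congrArg f e1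
          simpa only [map_mul, map_add, map_pow, map_ofNat] using this
        have g2 : f x3 = f l ^ 2 - 2 * f x2 := by
          rw [e2, map_sub, map_pow, map_mul, map_ofNat]
        have g3 : f y3 = -f y2 - f l * (f x3 - f x2) := by
          rw [e3, map_sub, map_neg, map_mul, map_sub]
        have hl : l' = u * f l := by
          apply mul_left_cancel₀ hy'
          rw [e1']
          linear_combination (-u ^ 4) * g1
        rw [e4, scJ_some, scJ_some, e4']
        refine sc_pt _ _ ?_ ?_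
        · rw [e2', hl, g2]
          ring
        · rw [e3', e2', hl, g3, g2]
          ring
    · rw [hPQ, neg_add_cancel, scJ_neg, neg_add_cancel, scJ_zero]
  · have hx' : u ^ 2 * f x1 ≠ u ^ 2 * f x2 := fun h =>
      hx (f.injective (mul_left_cancel₀ (pow_ne_zero 2 hu) h))
    obtain ⟨l, x3, y3, h3, e1, e2, e3, e4⟩ := add_coord h1 h2 hx
    obtain ⟨l', x3', y3', h3', e1', e2', e3', e4'⟩ :=
      add_coord (sc_ns f hu h1) (sc_ns f hu h2) hx'
    have g1 : f l * (f x1 - f x2) = f y1 - f y2 := by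
      rw [← map_sub, ← map_mul, e1, map_sub]
    have g2 : f x3 = f l ^ 2 - f x1 - f x2 := by
      rw [e2, map_sub, map_sub, map_pow]
    have g3 : f y3 = -f y1 - f l * (f x3 - f x1) := by
      rw [e3, map_sub, map_neg, map_mul, map_sub]
    have hl : l' = u * f l := by
      apply mul_right_cancel₀ (sub_ne_zero.2 hx')
      rw [e1']
      linear_combination (-u ^ 3) * g1
    rw [e4, scJ_some, scJ_some, scJ_some, e4']
    refine sc_pt _ _ ?_ ?_
    · rw [e2', hl, g2]
      ring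
    · rw [e3', e2', hl, g3, g2]
      ring

theorem scHom_exists (hu : u ≠ 0) (a₀ b₀ : E₀) :
    ∃ J : (scurve a₀ b₀).Point →+ (scurve (u ^ 4 * f a₀) (u ^ 6 * f b₀)).Point,
      ∀ (x y : E₀) (h : (scurve a₀ b₀).Nonsingular x y),
        ∃ h' : (scurve (u ^ 4 * f a₀) (u ^ 6 * f b₀)).Nonsingular (u ^ 2 * f x) (u ^ 3 * f y),
          J (.some x y h) = .some _ _ h' :=
  ⟨{ toFun := scJ f hu
     map_zero' := scJ_zero f hu
     map_add' := scJ_add f hu }, fun _ _ h => ⟨sc_ns f hu h, rfl⟩⟩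

end ScHom

end Pool.Agent.Lib.MP_3550b5_nt.SV
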