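import Mathlib
import Pool.Agent.Lib.MP_3550b5_nt.SV.Glo
import Pool.Agent.Lib.MP_3550b5_nt.SV.Add
import Pool.Agent.Lib.MP_3550b5_nt.SV.DescX
import Pool.Agent.Lib.MP_3550b5_nt.SV.ScHom
import Pool.Agent.Lib.MP_3550b5_nt.G.Index
import Pool.Agent.Lib.MP_3550b5_nt.SV.DescPoles

/-!
Project SV, part M: descent of linear systems from `K(t)` to `ℚ(t)`, THEOREM M4.
-/

namespace Pool.Agent.Lib.MP_3550b5_nt.SV

open G Polynomial WeierstrassCurve.Affine

variable {K F F₀ : Type*} [Field K] [CharZero K] [Field F] [CharZero F] [Field F₀] [CharZero F₀]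
  {φ : K[X] →+* F} {D : Derivation ℤ F F} {φ₀ : ℚ[X] →+* F₀} {D₀ : Derivation ℤ F₀ F₀}

/-- A `ℚ`-linear functional on the coefficients. -/
lemma exists_functional {κ : K} (hκ : κ ≠ 0) : ∃ ψ : K →ₗ[ℚ] ℚ, ψ κ ≠ 0 :=
  descX_functional hκ

/-- Coefficientwise application of a functional: compatible with multiplication by rational
polynomials and with the derivative. PROOF. `Ψ f = ∑ i, monomial i (ψ (f.coeff i))`
(`Polynomial.sum`; additive, coefficient formula as for `cw`). -/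
lemma exists_poly_functional (ψ : K →ₗ[ℚ] ℚ) : ∃ Ψ : K[X] →+ ℚ[X],
    (∀ (f : ℚ[X]) (g : K[X]), Ψ (f.map (algebraMap ℚ K) * g) = f * Ψ g) ∧
    (∀ g, Ψ (derivative g) = derivative (Ψ g)) ∧ ∀ c : K, Ψ (C c) = C (ψ c) :=
  descX_poly_functional ψ

/-- DESCENT. PROOF. `q₀ ∈ ℚ[X]`, `q₀ ≠ 0`, a common denominator of `G, H, A, T i`; `q` its image in
`K[X]`. `RF1.poles` (over `K`, `T = ∑ φ (C κ_i) ι (T i)`): `z = φ f / φ q^N`, `Ph = φ g / φ q^N`.
Multiply the two equations by `φ q^(N+1)`: with `G' = q₀ G`, ... in `ℚ[X]`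
`q f' - N q' f = -G' f - H' g`, `q g' - N q' g = G' g - A' f + q^N ∑ κ_i T'_i` in `K[X]`
(`RF1.D_map`, injectivity of `φ`). Apply `Ψ` (`exists_functional` for `κ i₀`,
`exists_poly_functional`): the same equations over `ℚ` with `Ψ f`, `Ψ g`, `ψ (κ i)`. So
`z' = φ₀ (Ψ f) / φ₀ q₀^N`, `Ph'` solve the system over `F₀` with the rational numbers `ψ (κ i)`, not
all zero; multiply by a common denominator. -/
theorem descend (h0 : RF1 φ₀ D₀) (h : RF1 φ D) (ι : F₀ →+* F)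
    (hι : ∀ f, ι (φ₀ f) = φ (f.map (algebraMap ℚ K))) {r : ℕ} (G H A : F₀) (T : Fin r → F₀)
    (κ : Fin r → K) (hκ : κ ≠ 0) {z Ph : F}
    (h1 : D z = -ι G * z - ι H * Ph)
    (h2 : D Ph = ι G * Ph - ι A * z + ∑ i, φ (C (κ i)) * ι (T i)) :
    ∃ (κ' : Fin r → ℤ) (z' Ph' : F₀), κ' ≠ 0 ∧ D₀ z' = -G * z' - H * Ph' ∧
      D₀ Ph' = G * Ph' - A * z' + ∑ i, (κ' i : F₀) * T i := by
  obtain ⟨q1, hq1, hT⟩ := descX_denom h0.frac T
  obtain ⟨q2, hq2, hS⟩ := descX_denom h0.frac ![G, H, A]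
  choose T' hT' using hT
  obtain ⟨G', hG'⟩ := hS 0
  obtain ⟨H', hH'⟩ := hS 1
  obtain ⟨A', hA'⟩ := hS 2
  simp only [Matrix.cons_val] at hG' hH' hA'
  have hq : q1 * q2 ≠ 0 := mul_ne_zero hq1 hq2
  have hG : φ₀ (q1 * q2) * G = φ₀ (q1 * G') := by rw [map_mul, map_mul, ← hG', mul_assoc]
  have hH : φ₀ (q1 * q2) * H = φ₀ (q1 * H') := by rw [map_mul, map_mul, ← hH', mul_assoc]
  have hA : φ₀ (q1 * q2) * A = φ₀ (q1 * A') := by rw [map_mul, map_mul, ← hA', mul_assoc]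
  have hT : ∀ i, φ₀ (q1 * q2) * T i = φ₀ (q2 * T' i) := fun i => by
    rw [map_mul, map_mul, ← hT' i]
    ring
  have hup : ∀ {x : F₀} {u : ℚ[X]}, φ₀ (q1 * q2) * x = φ₀ u →
      φ ((q1 * q2).map (algebraMap ℚ K)) * ι x = φ (u.map (algebraMap ℚ K)) := by
    intro x u hx
    rw [← hι, ← hι, ← map_mul, hx]
  have hq' : (q1 * q2).map (algebraMap ℚ K) ≠ 0 :=
    (Polynomial.map_ne_zero_iff (algebraMap ℚ K).injective).2 hq
  obtain ⟨N, f, g, hf, hg⟩ := h.poles hq' ⟨_, hup hG⟩ ⟨_, hup hH⟩ ⟨_, hup hA⟩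
    (T := ∑ i, φ (C (κ i)) * ι (T i))
    ⟨∑ i, (q2 * T' i).map (algebraMap ℚ K) * C (κ i), by
      rw [Finset.mul_sum, map_sum]
      refine Finset.sum_congr rfl fun i _ => ?_
      rw [map_mul, ← hup (hT i)]
      ring⟩ h1 h2
  exact descX_main h0 h ι hι hq hG hH hA hT κ hκ hf hg h1 h2

/-- The scaling isomorphism, also along a field homomorphism. PROOF. Define `J 0 = 0`,
`J (x, y) = (u^2 f x, u^3 f y)`; nonsingular by `nonsing_iff`. Additivity: cases `P = 0`, `Q = 0`,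
`P + Q = 0` (`neg_coord`; or `2 y = 0`: `dbl_eq_zero`), chord (`add_coord` on both sides, the slope
is multiplied by `u`), tangent (`dbl_coord`, `eq_or_neg_of_x`). -/
theorem exists_scaleHom {E₀ E : Type*} [Field E₀] [Field E] [DecidableEq E₀] [DecidableEq E]
    (f : E₀ →+* E) {u : E} (hu : u ≠ 0) (h2 : (2 : E) ≠ 0) (a₀ b₀ : E₀) :
    ∃ J : (scurve a₀ b₀).Point →+ (scurve (u ^ 4 * f a₀) (u ^ 6 * f b₀)).Point,
      ∀ (x y : E₀) (h : (scurve a₀ b₀).Nonsingular x y),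
        ∃ h' : (scurve (u ^ 4 * f a₀) (u ^ 6 * f b₀)).Nonsingular (u ^ 2 * f x) (u ^ 3 * f y),
          J (.some x y h) = .some _ _ h' :=
  scHom_exists f hu a₀ b₀

/-- A multiple is nonsingular at all places. PROOF. Finite places: `G.exists_ns_all`
(a prime does not divide `2`, `3`: units). Infinity: `exists_scaleHom` with `f = id`,
`u = (φ X ^ d)⁻¹`, and `exists_ns_additive`, `exists_ns_mult` (see the proof of
`G.exists_ns_prime`) for `V = infVal` and the scaled curve (`V.D 0` of the coefficients by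
`infVal_v`, minimal by `hmin'`). Take the product of the two multiples, `DVal.NS_nsmul`. -/
theorem RF1.exists_ns [DecidableEq F] (h : RF1 φ D) {d : ℕ} {a b : K[X]}
    (ha : a.natDegree ≤ 4 * d) (hb : b.natDegree ≤ 6 * d) (hk : k1 D (φ a) (φ b) ≠ 0)
    (hmin : ∀ π : K[X], Prime π → ¬ (π ^ 4 ∣ a ∧ π ^ 6 ∣ b))
    (hmin' : ¬ (a.natDegree + 4 ≤ 4 * d ∧ b.natDegree + 6 ≤ 6 * d))
    (P : (scurve (φ a) (φ b)).Point) :
    ∃ m : ℕ, 1 ≤ m ∧ (∀ (π : K[X]) (hπ : Prime π), (primeVal h.frac hπ).NS (m • P)) ∧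
      ∀ x y hh, m • P = Point.some x y hh →
        ¬ (infVal h.frac).Sing (φ a / φ X ^ (4 * d)) (x / φ X ^ (2 * d)) (y / φ X ^ (3 * d)) := by
  obtain ⟨hΔ, hwr, -⟩ := ne_of_k1 D hk
  have hX : φ X ≠ 0 := h.ne X_ne_zero
  -- `d = 0` is impossible
  have hd : 1 ≤ d := by
    by_contra hd
    have hd0 : d = 0 := by omega
    subst hd0
    apply hwr
    rw [eq_C_of_natDegree_eq_zero (show a.natDegree = 0 by omega),
      eq_C_of_natDegree_eq_zero (show b.natDegree = 0 by omega)]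
    unfold wr
    rw [h.map_C, h.map_C, mul_zero, mul_zero, sub_zero]
  -- finite places
  have hu : ∀ (n : ℕ), n ≠ 0 → ∀ π : K[X], Prime π → ¬ π ∣ (n : K[X]) := by
    intro n hn π hπ hd
    refine hπ.not_isUnit (isUnit_of_dvd_unit hd ?_)
    rw [← C_eq_natCast]
    exact isUnit_C.2 (isUnit_iff_ne_zero.2 (Nat.cast_ne_zero.2 hn))
  have hΔ' : 4 * a ^ 3 + 27 * b ^ 2 ≠ 0 := by
    intro h0
    apply hΔ
    have h1 := congrArg φ h0
    rw [map_zero, map_add, map_mul, map_mul, map_pow, map_pow, map_ofNat, map_ofNat] at h1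
    exact h1
  obtain ⟨m1, hm1, hns1⟩ := exists_ns_all h.frac (fun π hπ => by exact_mod_cast hu 2 (by norm_num) π hπ)
    (fun π hπ => by exact_mod_cast hu 3 (by norm_num) π hπ) hmin hΔ' P
  -- the place at infinity
  obtain ⟨V, hV⟩ : ∃ V, V = infVal h.frac := ⟨_, rfl⟩
  obtain ⟨u, hud⟩ : ∃ u, u = (φ X ^ d)⁻¹ := ⟨_, rfl⟩
  have hu0 : u ≠ 0 := by
    rw [hud]
    exact inv_ne_zero (pow_ne_zero d hX)
  have hpow : ∀ (k : ℕ) (w : F), u ^ k * w = w / φ X ^ (k * d) := by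
    intro k w
    rw [hud, inv_pow, ← pow_mul, mul_comm d k, div_eq_inv_mul]
  have hD : ∀ (k : ℕ) (f : K[X]) (j : ℕ), V.D (j : ℤ) (u ^ k * φ f) ↔
      (f = 0 ∨ f.natDegree + j ≤ k * d) := by
    intro k f j
    rw [hpow]
    by_cases hf : f = 0
    · rw [hf, map_zero, zero_div]
      exact ⟨fun _ => Or.inl rfl, fun _ => DVal.D_zero _⟩
    · have hne : φ f / φ X ^ (k * d) ≠ 0 := div_ne_zero (h.ne hf) (pow_ne_zero _ hX)
      rw [DVal.D_iff hne, ← map_pow, hV, infVal_v h.frac hf (pow_ne_zero _ X_ne_zero),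
        natDegree_X_pow]
      constructor
      · intro h1
        right
        omega
      · rintro (h1 | h1)
        · exact absurd h1 hf
        · omega
  have hnat : ∀ n : ℕ, n ≠ 0 → ¬ V.D 1 (n : F) := by
    intro n hn h1
    have h2 := h.ld_inf.nat (n : ℤ) (Int.natCast_ne_zero.2 hn)
    rw [Int.cast_natCast, ← hV] at h2
    exact h2 h1
  have hscale : ∃ J : (scurve (φ a) (φ b)).Point →+
      (scurve (u ^ 4 * φ a) (u ^ 6 * φ b)).Point,
      ∀ (x y : F) (hh : (scurve (φ a) (φ b)).Nonsingular x y),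
        ∃ h' : (scurve (u ^ 4 * φ a) (u ^ 6 * φ b)).Nonsingular (u ^ 2 * x) (u ^ 3 * y),
          J (.some x y hh) = .some _ _ h' :=
    exists_scaleHom (RingHom.id F) hu0 two_ne_zero (φ a) (φ b)
  obtain ⟨J, hJ⟩ := hscale
  have h2' : ¬ V.D 1 (2 : F) := by exact_mod_cast hnat 2 (by norm_num)
  have h3' : ¬ V.D 1 (3 : F) := by exact_mod_cast hnat 3 (by norm_num)
  obtain ⟨m2, hm2, hns2⟩ : ∃ m : ℕ, 1 ≤ m ∧ V.NS (m • J P) := by
    by_cases ha1 : V.D 1 (u ^ 4 * φ a)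
    · refine exists_ns_additive h2' h3' ha1 ?_ (J P)
      rintro ⟨h4, h6⟩
      apply hmin'
      have e4 := (hD 4 a 4).1 (by exact_mod_cast h4)
      have e6 := (hD 6 b 6).1 (by exact_mod_cast h6)
      refine ⟨?_, ?_⟩
      · rcases e4 with rfl | e4
        · rw [natDegree_zero]
          omega
        · exact e4
      · rcases e6 with rfl | e6
        · rw [natDegree_zero]
          omega
        · exact e6
    · refine exists_ns_mult h2' h3' ha1 ?_ ?_ (J P)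
      · exact_mod_cast (hD 4 a 0).2 (Or.inr ha)
      · intro h0
        apply hΔ
        have h1 : u ^ 12 * dl (φ a) (φ b) = 0 := by
          rw [← h0]
          unfold dl
          ring
        exact (mul_eq_zero.1 h1).resolve_left (pow_ne_zero 12 hu0)
  refine ⟨m1 * m2, Nat.mul_pos hm1 hm2, fun π hπ => ?_, fun x y hh hxy => ?_⟩
  · rw [mul_comm, mul_smul]
    exact DVal.NS_nsmul (hns1 π hπ) m2
  · have h1 : V.NS ((m1 * m2) • J P) := by
      rw [mul_smul]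
      exact DVal.NS_nsmul hns2 m1
    obtain ⟨h', hJx⟩ := hJ x y hh
    rw [← map_nsmul, hxy, hJx, DVal.NS_some] at h1
    rw [← hV, ← hpow, ← hpow, ← hpow]
    exact h1

/-- THEOREM M4. PROOF. Suppose `κ ≠ 0`. `descend`: `κ' ∈ ℤ^r`, `κ' ≠ 0`, `z'`, `Ph'`. Let
`R = ∑ κ' i • P i ≠ 0`, `m` from `exists_ns`, `m • R = (x, y)` (`≠ 0`, and `y ≠ 0`, since otherwise
`2 m R = 0`: `dbl_eq_zero`, linear independence). `tauP_sum` for `κ'` and `m κ'`:
`tau (x, y) = m ∑ κ'_i tauP (P i)`. So `(m z', m Ph')` solves the system with `tau (x,y)`, and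
`(m z', m Ph' + om / k1)` solves `Sys` (definition of `tau`): contradiction to `RF1.no_sys`. -/
theorem no_sol [DecidableEq F₀] (h0 : RF1 φ₀ D₀) (h : RF1 φ D) (ι : F₀ →+* F)
    (hι : ∀ f, ι (φ₀ f) = φ (f.map (algebraMap ℚ K))) {d : ℕ} (hd : 1 ≤ d) {a b : ℚ[X]}
    (ha : a.natDegree ≤ 4 * d) (hb : b.natDegree ≤ 6 * d) (hk : k1 D₀ (φ₀ a) (φ₀ b) ≠ 0)
    (hmin : ∀ π : ℚ[X], Prime π → ¬ (π ^ 4 ∣ a ∧ π ^ 6 ∣ b))
    (hmin' : ¬ (a.natDegree + 4 ≤ 4 * d ∧ b.natDegree + 6 ≤ 6 * d))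
    {r : ℕ} (P : Fin r → (scurve (φ₀ a) (φ₀ b)).Point) (hP : LinearIndependent ℤ P)
    (κ : Fin r → K) {z Ph : F}
    (h1 : D z = -ι (g1 D₀ (φ₀ a) (φ₀ b)) * z - ι (k1 D₀ (φ₀ a) (φ₀ b)) * Ph)
    (h2 : D Ph = ι (g1 D₀ (φ₀ a) (φ₀ b)) * Ph - ι (k1 D₀ (φ₀ a) (φ₀ b) * φ₀ a / 3) * z +
      ∑ i, φ (C (κ i)) * ι (tauP D₀ (P i))) : κ = 0 := by
  by_contra hκ
  obtain ⟨κ', z', Ph', hκ', e1, e2⟩ := descend h0 h ι hι (g1 D₀ (φ₀ a) (φ₀ b))
    (k1 D₀ (φ₀ a) (φ₀ b)) (k1 D₀ (φ₀ a) (φ₀ b) * φ₀ a / 3) (fun i => tauP D₀ (P i)) κ hκ h1 h2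
  obtain ⟨m, hm, hns, hns'⟩ := h0.exists_ns ha hb hk hmin hmin' (∑ i, κ' i • P i)
  have hlin : ∀ c : ℤ, c ≠ 0 → c • (∑ i, κ' i • P i) ≠ 0 := by
    intro c hc h3
    apply hκ'
    have h4 : ∑ i, (c * κ' i) • P i = 0 := by
      rw [← h3, Finset.smul_sum]
      exact Finset.sum_congr rfl fun i _ => mul_smul _ _ _
    have h5 := Fintype.linearIndependent_iff.1 hP (fun i => c * κ' i) h4
    funext i
    exact (mul_eq_zero.1 (h5 i)).resolve_left hc
  have hm0 : (m : ℤ) ≠ 0 := by omega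
  have hmR : m • (∑ i, κ' i • P i) = ∑ i, ((m : ℤ) * κ' i) • P i := by
    rw [← natCast_zsmul, Finset.smul_sum]
    exact Finset.sum_congr rfl fun i _ => (mul_smul _ _ _).symm
  have htau := tauP_sum D₀ hk P hP (fun i => (m : ℤ) * κ' i)
  rw [← hmR] at htau
  have hne : m • (∑ i, κ' i • P i) ≠ 0 := by
    rw [← natCast_zsmul]
    exact hlin _ hm0
  have hne2 : m • (∑ i, κ' i • P i) + m • (∑ i, κ' i • P i) ≠ 0 := by
    rw [← two_zsmul, ← natCast_zsmul, ← mul_smul]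
    exact hlin _ (mul_ne_zero two_ne_zero hm0)
  generalize m • (∑ i, κ' i • P i) = Q at hns hns' htau hne hne2
  rcases Q with _ | ⟨x, y, hh⟩
  · exact hne rfl
  · have hy : y ≠ 0 := by
      rintro rfl
      exact hne2 (dbl_eq_zero hh (mul_zero 2))
    have hxy : y ^ 2 = x ^ 3 + φ₀ a * x + φ₀ b := (nonsing_iff.1 hh).1
    refine h0.no_sys hd ha hb hk hmin hmin' hxy hy (fun π hπ => DVal.NS_some.1 (hns π hπ))
      (hns' x y hh rfl) (z := m * z')
      (ze := m * Ph' + om D₀ (φ₀ a) (φ₀ b) x y / k1 D₀ (φ₀ a) (φ₀ b)) ?_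
    have htau2 : tau D₀ (φ₀ a) (φ₀ b) x y = (m : F₀) * ∑ i, (κ' i : F₀) * tauP D₀ (P i) := by
      have h3 : tauP D₀ (Point.some x y hh : (scurve (φ₀ a) (φ₀ b)).Point) =
          tau D₀ (φ₀ a) (φ₀ b) x y := rfl
      rw [← h3]
      refine htau.trans ?_
      rw [Finset.mul_sum]
      refine Finset.sum_congr rfl fun i _ => ?_
      push_cast
      ring
    unfold tau at htau2
    have hDm : ∀ w : F₀, D₀ ((m : F₀) * w) = m * D₀ w := by
      intro w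
      rw [Derivation.leibniz, smul_eq_mul, smul_eq_mul, Derivation.map_natCast, mul_zero,
        add_zero]
    constructor
    · rw [hDm, e1]
      field_simp
      ring
    · rw [map_add, hDm, e2]
      linear_combination -htau2

end Pool.Agent.Lib.MP_3550b5_nt.SV
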