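import Mathlib
import Pool.Agent.Lib.MP_3550b5_nt.SRes
import Pool.Agent.Lib.MP_3550b5_nt.SV.Plc
import Pool.Agent.Lib.MP_3550b5_nt.SV.CmpFr

/-!
Project SV, part F: the field `ℚ(t)` and the nonvanishing of `k1` (auxiliary lemmas for
`FForm.lean`).
-/

namespace Pool.Agent.Lib.MP_3550b5_nt.SV

open Polynomial

/-- A derivation of the rational functions. -/
theorem fformX_exists_RF1 : ∃ (F₀ : Type) (_ : Field F₀) (_ : CharZero F₀)
    (φ₀ : Polynomial ℚ →+* F₀) (D₀ : Derivation ℤ F₀ F₀), RF1 φ₀ D₀ := by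
  have hinj : Function.Injective (algebraMap ℚ[X] (FractionRing ℚ[X])) :=
    IsFractionRing.injective _ _
  have hch : CharZero (FractionRing ℚ[X]) :=
    charZero_of_injective_ringHom
      (f := (algebraMap ℚ[X] (FractionRing ℚ[X])).comp (Polynomial.C (R := ℚ)))
      (hinj.comp Polynomial.C_injective)
  obtain ⟨f, h1, h2⟩ := exists_fracDer_add (R := ℚ[X])
    (Derivation.mk' (AddMonoidHom.toIntLinearMap
      (Polynomial.derivative (R := ℚ)).toAddMonoidHom) (by
        intro x y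
        change derivative (x * y) = x * derivative y + y * derivative x
        rw [derivative_mul]
        ring))
  have h3 : ∀ x : ℚ[X], f (algebraMap ℚ[X] (FractionRing ℚ[X]) x) =
      algebraMap ℚ[X] (FractionRing ℚ[X]) (derivative x) := h2
  have key : ∀ (F₀ : Type) (i1 : Field F₀) (i2 : CharZero F₀) (φ₀ : Polynomial ℚ →+* F₀)
      (f : F₀ →+ F₀), Function.Injective φ₀ → (∀ x : F₀, ∃ u v : ℚ[X], v ≠ 0 ∧ x = φ₀ u / φ₀ v) →
      (∀ x y, f (x * y) = x * f y + y * f x) → (∀ x, f (φ₀ x) = φ₀ (derivative x)) →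
      ∃ (F₀ : Type) (_ : Field F₀) (_ : CharZero F₀)
        (φ₀ : Polynomial ℚ →+* F₀) (D₀ : Derivation ℤ F₀ F₀), RF1 φ₀ D₀ := by
    intro F₀ i1 i2 φ₀ f hi hs hm hd
    refine ⟨F₀, i1, i2, φ₀, Derivation.mk' f.toIntLinearMap hm, ⟨⟨hi, hs⟩, ?_, ?_⟩⟩
    · change f (φ₀ X) = 1
      rw [hd, derivative_X, map_one]
    · intro c
      change f (φ₀ (C c)) = 0
      rw [hd, derivative_C, map_zero]
  refine key (FractionRing ℚ[X]) inferInstance hch (algebraMap ℚ[X] (FractionRing ℚ[X])) f hinj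
    ?_ h1 h3
  intro x
  obtain ⟨a, b, hb, hab⟩ := IsFractionRing.div_surjective (A := ℚ[X]) x
  exact ⟨a, b, nonZeroDivisors.ne_zero hb, hab.symm⟩

/-- Dehomogenisation is injective on forms. -/
lemma fformX_dehom_zero {F : MvPolynomial (Fin 2) ℤ} {e : ℕ} (hF : F.IsHomogeneous e)
    (h : dehom F = 0) : F = 0 := by
  have h1 : ∀ x : ℚ, MvPolynomial.aeval ![x, 1] F = 0 := by
    intro x
    rw [← dehom_eval F x, h, Polynomial.map_zero, Polynomial.eval_zero]
  have h2 : F * MvPolynomial.X 1 = 0 := by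
    apply MvPolynomial.funext
    intro x
    rw [map_mul, MvPolynomial.eval_X, map_zero]
    by_cases hx : x 1 = 0
    · rw [hx, mul_zero]
    · have h3 := aeval_hom (F := F) (e := e) hF (x 0) hx
      rw [h1, mul_zero] at h3
      have h4 : x = ![x 0, x 1] := by
        funext i
        fin_cases i <;> rfl
      rw [h4]
      have h5 : MvPolynomial.eval ![x 0, x 1] F = 0 := by exact_mod_cast h3
      rw [h5, zero_mul]
  exact (mul_eq_zero.1 h2).resolve_right (MvPolynomial.X_ne_zero _)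

/-- Proportional if the Wronskian vanishes. -/
lemma fformX_wronskian {f g : ℚ[X]} (hg : g ≠ 0)
    (h : derivative f * g = f * derivative g) :
    ∃ u v : ℚ, v ≠ 0 ∧ C v * f = C u * g := by
  obtain ⟨h0, f1, g1, hcop, hf, hg'⟩ : ∃ h0 f1 g1 : ℚ[X], IsCoprime f1 g1 ∧ f = h0 * f1 ∧
      g = h0 * g1 := by
    have hne : gcd f g ≠ 0 := fun h0 => hg ((gcd_eq_zero_iff _ _).1 h0).2
    obtain ⟨f1, hf1⟩ := gcd_dvd_left f g
    obtain ⟨g1, hg1⟩ := gcd_dvd_right f g
    refine ⟨gcd f g, f1, g1, ?_, hf1, hg1⟩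
    have h3 := isCoprime_div_gcd_div_gcd (p := f) (q := g) hg
    rwa [← EuclideanDomain.eq_div_of_mul_eq_right hne hf1.symm,
      ← EuclideanDomain.eq_div_of_mul_eq_right hne hg1.symm] at h3
  have hh0 : h0 ≠ 0 := by
    rintro rfl
    exact hg (by rw [hg', zero_mul])
  have hg1 : g1 ≠ 0 := by
    rintro rfl
    exact hg (by rw [hg', mul_zero])
  have hw : wronskian f1 g1 = 0 := by
    have h1 : h0 ^ 2 * wronskian f1 g1 = 0 := by
      unfold wronskian
      rw [hf, hg', derivative_mul, derivative_mul] at h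
      linear_combination -h
    exact (mul_eq_zero.1 h1).resolve_left (pow_ne_zero 2 hh0)
  obtain ⟨h1, h2⟩ := hcop.wronskian_eq_zero_iff.1 hw
  have e1 := eq_C_of_derivative_eq_zero h1
  have e2 := eq_C_of_derivative_eq_zero h2
  refine ⟨f1.coeff 0, g1.coeff 0, ?_, ?_⟩
  · intro h3
    rw [h3, map_zero] at e2
    exact hg1 e2
  · rw [hf, hg', ← e1, ← e2]
    ring

/-- `k1 ≠ 0` if `a^3`, `b^2` are not proportional. -/
theorem fformX_k1 {F₀ : Type*} [Field F₀] [CharZero F₀] {φ₀ : Polynomial ℚ →+* F₀}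
    {D₀ : Derivation ℤ F₀ F₀} (h0 : RF1 φ₀ D₀) {d : ℕ} {a b : MvPolynomial (Fin 2) ℤ}
    (ha : a.IsHomogeneous (4 * d)) (hb : b.IsHomogeneous (6 * d))
    (hj : ∀ c e : ℤ, MvPolynomial.C c * a ^ 3 = MvPolynomial.C e * b ^ 2 → c = 0 ∧ e = 0) :
    k1 D₀ (φ₀ ((dehom a).map (Int.castRingHom ℚ))) (φ₀ ((dehom b).map (Int.castRingHom ℚ))) ≠ 0 := by
  obtain ⟨A, hA⟩ : ∃ A, A = (dehom a).map (Int.castRingHom ℚ) := ⟨_, rfl⟩
  obtain ⟨B, hB⟩ : ∃ B, B = (dehom b).map (Int.castRingHom ℚ) := ⟨_, rfl⟩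
  have ha3 : (a ^ 3).IsHomogeneous (12 * d) := by
    have := ha.pow 3
    rwa [show 4 * d * 3 = 12 * d by ring] at this
  have hb2 : (b ^ 2).IsHomogeneous (12 * d) := by
    have := hb.pow 2
    rwa [show 6 * d * 2 = 12 * d by ring] at this
  have hC : ∀ (c : ℤ) {F : MvPolynomial (Fin 2) ℤ}, F.IsHomogeneous (12 * d) →
      (MvPolynomial.C c * F).IsHomogeneous (12 * d) := by
    intro c F hF
    have := (MvPolynomial.isHomogeneous_C (Fin 2) c).mul hF
    rwa [zero_add] at this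
  have hdC : ∀ c : ℤ, dehom (MvPolynomial.C c) = C c := by
    intro c
    unfold dehom
    rw [MvPolynomial.aeval_C]
    rfl
  have hdm : ∀ F G : MvPolynomial (Fin 2) ℤ, dehom (F * G) = dehom F * dehom G := fun F G =>
    map_mul _ F G
  have hdp : ∀ (F : MvPolynomial (Fin 2) ℤ) (n : ℕ), dehom (F ^ n) = dehom F ^ n := fun F n =>
    map_pow _ F n
  have hda : ∀ F G : MvPolynomial (Fin 2) ℤ, dehom (F + G) = dehom F + dehom G := fun F G =>
    map_add _ F G
  have hds : ∀ F G : MvPolynomial (Fin 2) ℤ, dehom (F - G) = dehom F - dehom G := fun F G =>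
    map_sub _ F G
  -- a relation between the cube and the square
  have hrel : ∀ c e : ℤ, C (c : ℚ) * A ^ 3 = C (e : ℚ) * B ^ 2 → c = 0 ∧ e = 0 := by
    intro c e hce
    apply hj
    have h1 : dehom (MvPolynomial.C c * a ^ 3 - MvPolynomial.C e * b ^ 2) = 0 := by
      apply Polynomial.map_injective (Int.castRingHom ℚ) Int.cast_injective
      rw [hds, hdm, hdm, hdp, hdp, hdC, hdC, Polynomial.map_sub, Polynomial.map_mul,
        Polynomial.map_mul, Polynomial.map_pow, Polynomial.map_pow, Polynomial.map_C,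
        Polynomial.map_C, ← hA, ← hB, Polynomial.map_zero]
      exact sub_eq_zero.2 hce
    exact sub_eq_zero.1 (fformX_dehom_zero ((hC c ha3).sub (hC e hb2)) h1)
  rw [← hA, ← hB]
  have hdl : dl (φ₀ A) (φ₀ B) ≠ 0 := by
    intro h1
    have h2 : φ₀ (C ((4 : ℤ) : ℚ) * A ^ 3 - C ((-27 : ℤ) : ℚ) * B ^ 2) = 0 := by
      rw [← h1]
      unfold dl
      simp only [map_sub, map_mul, map_pow, Int.cast_neg, Int.cast_ofNat, map_neg, map_ofNat]
      ring
    have h3 := hrel 4 (-27) (sub_eq_zero.1 (h0.frac.inj (h2.trans (map_zero φ₀).symm)))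
    exact absurd h3.1 (by norm_num)
  have hwr : wr D₀ (φ₀ A) (φ₀ B) ≠ 0 := by
    intro h1
    have h2 : φ₀ (3 * B * derivative A - 2 * A * derivative B) = 0 := by
      rw [← h1]
      unfold wr
      rw [h0.D_map, h0.D_map]
      simp only [map_sub, map_mul, map_ofNat]
    have h3 : 3 * B * derivative A - 2 * A * derivative B = 0 :=
      h0.frac.inj (h2.trans (map_zero φ₀).symm)
    by_cases hB0 : B = 0
    · have h4 := hrel 0 1 (by
        rw [hB0]
        simp)
      exact absurd h4.2 one_ne_zero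
    · obtain ⟨u, v, hv, huv⟩ := fformX_wronskian (f := A ^ 3) (g := B ^ 2) (pow_ne_zero 2 hB0) (by
        rw [derivative_pow, derivative_pow]
        simp only [Nat.cast_ofNat, map_ofNat, Nat.add_one_sub_one, pow_one]
        linear_combination A ^ 2 * B * h3)
      have h5 := hrel (v.num * u.den) (u.num * v.den) (by
        have e1 : ((v.num * u.den : ℤ) : ℚ) = v * (u.den * v.den) := by
          push_cast
          nth_rewrite 2 [← Rat.num_div_den v]
          field_simp
        have e2 : ((u.num * v.den : ℤ) : ℚ) = u * (u.den * v.den) := by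
          push_cast
          nth_rewrite 2 [← Rat.num_div_den u]
          field_simp
        rw [e1, e2]
        simp only [C_mul]
        linear_combination (C (u.den : ℚ) * C (v.den : ℚ)) * huv)
      have h6 := h5.1
      rw [mul_eq_zero] at h6
      rcases h6 with h6 | h6
      · exact hv (Rat.num_eq_zero.1 h6)
      · exact u.den_nz (by exact_mod_cast h6)
  unfold k1
  exact div_ne_zero (mul_ne_zero three_ne_zero hwr) (mul_ne_zero two_ne_zero hdl)

end Pool.Agent.Lib.MP_3550b5_nt.SV
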