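import Mathlib
import Pool.Agent.Lib.MP_3550b5_nt.UIndex
import Pool.Agent.Lib.MP_3550b5_nt.SFinal2
import Pool.Agent.Lib.MP_3550b5_nt.STors

/-!
Project SV, part F: helper file of `FLoc` (`ht_unit`, `rep_comp`).
-/

namespace Pool.Agent.Lib.MP_3550b5_nt.SV

open PowerSeries

variable {p : ℕ} [hp : Fact p.Prime]

/-- `ht_unit` for sigma data. -/
theorem ht_unitH (hp5 : 5 ≤ p) {a b A B D : ℤ} {Q : (curve a b).Point} (hQ : IsRep a b A B D Q)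
    (hcop : IsCoprime (2 * B) (3 * A ^ 2 + a * D ^ 4)) (hdvd : (p : ℤ) ∣ D)
    (hord : GoodOrdinary p a b) {Bh : (curve a b).Point → (curve a b).Point → ℚ_[p]}
    (hB : IsCanonicalHeight p a b Bh) {c : ℤ_[p]} {W V Om S Z : ℤ_[p]⟦X⟧}
    (hS : SigmaData p (a : ℤ_[p]) (b : ℤ_[p]) c W V Om S Z) {Bi : ℤ_[p]}
    (hBi : (B : ℤ_[p]) * Bi = 1) :
    Bh Q Q = ulog (-((A : ℤ_[p]) * Bi * ev S (-((A : ℤ_[p]) * (D : ℤ_[p]) * Bi)))) := by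
  obtain ⟨q, hpq⟩ : ∃ q, p = 2 * q + 1 := hp.out.odd_of_ne_two (by omega)
  have hq : 1 ≤ q := by omega
  have hA := hasse_of_goodOrdinary hpq hq hord
  obtain ⟨σ, hσ, hform⟩ := hB.formula
  obtain ⟨c', W', V', Om', S', Z', hσS, hS'⟩ := sigmaData_of_sigma hσ
  have hBeq := hQ.eqn
  obtain ⟨hD0, hh', e'⟩ := hQ
  have hpZ : Prime (p : ℤ) := Nat.prime_iff_prime_int.mp hp.out
  have hAn : ¬ (p : ℤ) ∣ A := by
    intro hd
    have h1 : (p : ℤ) ∣ B ^ 2 := by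
      rw [hBeq]
      exact dvd_add (dvd_add (dvd_pow hd (by norm_num))
        (Dvd.dvd.mul_left (dvd_pow hdvd (by norm_num)) _))
        (Dvd.dvd.mul_left (dvd_pow hdvd (by norm_num)) _)
    have h2 : (p : ℤ) ∣ 2 * B := Dvd.dvd.mul_left (hpZ.dvd_of_dvd_pow h1) _
    have h3 : (p : ℤ) ∣ 3 * A ^ 2 + a * D ^ 4 :=
      dvd_add (Dvd.dvd.mul_left (dvd_pow hd (by norm_num)) _)
        (Dvd.dvd.mul_left (dvd_pow hdvd (by norm_num)) _)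
    exact hpZ.not_isUnit (hcop.isUnit_of_dvd' h2 h3)
  have hf := hform A B D hh' hD0 hdvd hcop
  rw [← e'] at hf
  rw [hf]
  have hBi' : ((B : ℤ_[p]) : ℚ_[p]) * ((Bi : ℤ_[p]) : ℚ_[p]) = 1 := by
    exact_mod_cast congrArg (fun z : ℤ_[p] => (z : ℚ_[p])) hBi
  have hBm0 : (B : ℚ_[p]) ≠ 0 := by
    intro h
    rw [PadicInt.coe_intCast, h, zero_mul] at hBi'
    exact zero_ne_one hBi'
  have hDp0 : (D : ℚ_[p]) ≠ 0 := by exact_mod_cast hD0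
  have hDn : ‖(D : ℤ_[p])‖ < 1 := (PadicInt.norm_int_lt_one_iff_dvd D).mpr hdvd
  have ht : ‖-((A : ℤ_[p]) * (D : ℤ_[p]) * Bi)‖ < 1 := by
    rw [norm_neg, norm_mul, norm_mul]
    calc ‖(A : ℤ_[p])‖ * ‖(D : ℤ_[p])‖ * ‖Bi‖ ≤ 1 * ‖(D : ℤ_[p])‖ * 1 := by
          gcongr
          · exact PadicInt.norm_le_one _
          · exact PadicInt.norm_le_one _
      _ = ‖(D : ℤ_[p])‖ := by ring
      _ < 1 := hDn
  have harg : -((A : ℚ_[p]) * (D : ℚ_[p])) / (B : ℚ_[p]) =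
      ((-((A : ℤ_[p]) * (D : ℤ_[p]) * Bi) : ℤ_[p]) : ℚ_[p]) := by
    push_cast
    rw [div_eq_iff hBm0]
    rw [PadicInt.coe_intCast] at hBi'
    linear_combination (A : ℚ_[p]) * (D : ℚ_[p]) * hBi'
  rw [harg, seriesVal_coe σ ht, hσS, ev_mul _ _ ht, ev_X]
  set t : ℤ_[p] := -((A : ℤ_[p]) * (D : ℤ_[p]) * Bi) with htdef
  have hval : ev S' t = ev S t := by
    have key : ∀ k : ℕ, ‖ev S' t - ev S t‖ ≤ ((p : ℝ)⁻¹) ^ k := by
      intro k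
      have := ev_S_close hpq hq k hS hS' rfl rfl hA ht
      rwa [zpow_neg, zpow_natCast, ← inv_pow] at this
    have hp1 : ((p : ℝ)⁻¹) < 1 := by
      apply inv_lt_one_of_one_lt₀
      exact_mod_cast (Fact.out : p.Prime).one_lt
    have h0 := ge_of_tendsto' (tendsto_pow_atTop_nhds_zero_of_lt_one (by positivity) hp1) key
    exact sub_eq_zero.mp (norm_le_zero_iff.mp h0)
  rw [hval]
  have hu : (((t * ev S t : ℤ_[p]) : ℚ_[p]) / (D : ℚ_[p])) =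
      ((-((A : ℤ_[p]) * Bi * ev S t) : ℤ_[p]) : ℚ_[p]) := by
    rw [div_eq_iff hDp0, htdef]
    push_cast
    ring
  rw [hu]
  have hunit : IsUnit ((A : ℤ_[p]) * Bi * ev S t) := by
    have h1 : IsUnit (A : ℤ_[p]) := isUnit_intCast hAn
    have h2 : IsUnit Bi := IsUnit.of_mul_eq_one _ (by rw [mul_comm]; exact hBi)
    have h3 : IsUnit (ev S t) := ev_isUnit hS.S0 ht
    exact (h1.mul h2).mul h3
  rw [iwasawaLog_coe hunit.neg]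

/-- `rep_comp`. -/
theorem rep_compH {a b A B D A₁ B₁ D₁ : ℤ} {Q : (curve a b).Point} (h : IsRep a b A B D Q)
    (h1 : IsRep a b A₁ B₁ D₁ Q) (hcop : IsCoprime (2 * B₁) (3 * A₁ ^ 2 + a * D₁ ^ 4)) :
    ∃ G : ℤ, G ≠ 0 ∧ A = G ^ 2 * A₁ ∧ B = G ^ 3 * B₁ ∧ D = G * D₁ ∧ G ^ 3 ∣ 2 * B ∧
      G ^ 3 ∣ 3 * A ^ 2 + a * D ^ 4 := by
  have heq1 := h1.eqn
  obtain ⟨hD, hh, e⟩ := h
  obtain ⟨hD1, hh1, e1⟩ := h1
  rw [e] at e1
  rw [WeierstrassCurve.Affine.Point.some.injEq] at e1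
  obtain ⟨ex, ey⟩ := e1
  have hDq : (D : ℚ) ≠ 0 := by exact_mod_cast hD
  have hD1q : (D₁ : ℚ) ≠ 0 := by exact_mod_cast hD1
  have hx : A * D₁ ^ 2 = A₁ * D ^ 2 := by
    rw [div_eq_div_iff (by positivity) (by positivity)] at ex
    exact_mod_cast ex
  have hy : B * D₁ ^ 3 = B₁ * D ^ 3 := by
    rw [div_eq_div_iff (pow_ne_zero 3 hDq) (pow_ne_zero 3 hD1q)] at ey
    exact_mod_cast ey
  -- `A₁` and `D₁` are coprime
  have hAD : IsCoprime A₁ D₁ := by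
    apply isCoprime_of_prime_dvd
    · rintro ⟨-, h0⟩
      exact hD1 h0
    · intro l hl hA hDl
      have h2 : l ∣ B₁ ^ 2 := by
        rw [heq1]
        exact dvd_add (dvd_add (dvd_pow hA (by norm_num))
          (Dvd.dvd.mul_left (dvd_pow hDl (by norm_num)) _))
          (Dvd.dvd.mul_left (dvd_pow hDl (by norm_num)) _)
      have h3 : l ∣ 2 * B₁ := Dvd.dvd.mul_left (hl.dvd_of_dvd_pow h2) _
      have h4 : l ∣ 3 * A₁ ^ 2 + a * D₁ ^ 4 :=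
        dvd_add (Dvd.dvd.mul_left (dvd_pow hA (by norm_num)) _)
          (Dvd.dvd.mul_left (dvd_pow hDl (by norm_num)) _)
      exact hl.not_isUnit (hcop.isUnit_of_dvd' h3 h4)
  have hdv : D₁ ^ 2 ∣ D ^ 2 := by
    have h2 : D₁ ^ 2 ∣ A₁ * D ^ 2 := ⟨A, by rw [← hx]; ring⟩
    exact (IsCoprime.pow_left (hAD.symm)).dvd_of_dvd_mul_left h2
  obtain ⟨G, hG⟩ : D₁ ∣ D := (Int.pow_dvd_pow_iff (by norm_num)).mp hdv
  have hG0 : G ≠ 0 := by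
    rintro rfl
    exact hD (by rw [hG, mul_zero])
  have hA : A = G ^ 2 * A₁ := by
    apply mul_right_cancel₀ (pow_ne_zero 2 hD1)
    rw [hx, hG]; ring
  have hBe : B = G ^ 3 * B₁ := by
    apply mul_right_cancel₀ (pow_ne_zero 3 hD1)
    rw [hy, hG]; ring
  refine ⟨G, hG0, hA, hBe, by rw [hG]; ring, ⟨2 * B₁, by rw [hBe]; ring⟩,
    ⟨G * (3 * A₁ ^ 2 + a * D₁ ^ 4), by rw [hA, hG]; ring⟩⟩

end Pool.Agent.Lib.MP_3550b5_nt.SV
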