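import Mathlib
import Pool.Agent.Lib.MP_3550b5_nt.STors
import Pool.Agent.Lib.MP_3550b5_nt.G.Coord

/-!
Project SV, part F: the proofs of `ker_of_congr` and `tors_bound`.
-/

namespace Pool.Agent.Lib.MP_3550b5_nt.SV

open WeierstrassCurve.Affine

variable {p : ℕ} [hp : Fact p.Prime]

private lemma flocK_toZMod_iff (z : ℤ_[p]) : PadicInt.toZMod z = 0 ↔ ‖z‖ < 1 := by
  rw [PadicInt.norm_lt_one_iff_dvd, ← RingHom.mem_ker, PadicInt.ker_toZMod,
    PadicInt.maximalIdeal_eq_span_p, Ideal.mem_span_singleton]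

private lemma flocK_core (hp5 : 5 ≤ p) {a b : ℤ} (hΔ : ¬ (p : ℤ) ∣ 4 * a ^ 3 + 27 * b ^ 2)
    {x1 x2 x3 x4 : ℤ_[p]} (h : ‖x1 - x2‖ < 1)
    (e1 : (x1 - x2) ^ 2 * (x3 + x4) = 2 * ((x1 + x2) * (x1 * x2 + a) + 2 * b))
    (e2 : (x1 - x2) ^ 2 * (x3 * x4) = (x1 * x2 - a) ^ 2 - 4 * b * (x1 + x2)) : False := by
  have h1 : PadicInt.toZMod x1 = PadicInt.toZMod x2 := by
    have h2 := (flocK_toZMod_iff _).2 h
    rw [map_sub] at h2
    exact sub_eq_zero.1 h2
  have e1' := congrArg (fun z => PadicInt.toZMod z) e1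
  have e2' := congrArg (fun z => PadicInt.toZMod z) e2
  simp only [map_mul, map_add, map_sub, map_pow, map_intCast, map_ofNat, h1, sub_self] at e1' e2'
  have h4 : (4 : ZMod p) ≠ 0 := by
    have h5 : ((4 : ℕ) : ZMod p) ≠ 0 := by
      rw [Ne, ZMod.natCast_eq_zero_iff]
      intro h6
      have := Nat.le_of_dvd (by norm_num) h6
      omega
    exact_mod_cast h5
  obtain ⟨x, hx⟩ : ∃ x, x = PadicInt.toZMod x2 := ⟨_, rfl⟩
  rw [← hx] at e1' e2'
  have h5 : x ^ 3 + (a : ZMod p) * x + b = 0 := by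
    have h6 : 4 * (x ^ 3 + (a : ZMod p) * x + b) = 0 := by
      linear_combination -e1'
    exact (mul_eq_zero.1 h6).resolve_left h4
  have h6 : (4 * (a : ZMod p) ^ 3 + 27 * (b : ZMod p) ^ 2) = 0 := by
    linear_combination (-(3 * x ^ 2 + 4 * (a : ZMod p))) * e2' -
      (3 * x ^ 3 - 5 * (a : ZMod p) * x - 27 * b) * h5
  apply hΔ
  rw [← ZMod.intCast_zmod_eq_zero_iff_dvd]
  push_cast
  exact h6

/-- proof of `ker_of_congr` -/
theorem flocK_ker_of_congr (hp5 : 5 ≤ p) {a b : ℤ} (hΔ : ¬ (p : ℤ) ∣ 4 * a ^ 3 + 27 * b ^ 2)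
    {P Q : (curve a b).Point} (hP0 : P ≠ 0) (hQ0 : Q ≠ 0)
    (hP : ‖((ptX P : ℚ) : ℚ_[p])‖ ≤ 1) (hQ : ‖((ptX Q : ℚ) : ℚ_[p])‖ ≤ 1)
    (h : ‖((ptX P : ℚ) : ℚ_[p]) - ((ptX Q : ℚ) : ℚ_[p])‖ < 1) :
    P + Q = 0 ∨ P - Q = 0 ∨ 1 < ‖((ptX (P + Q) : ℚ) : ℚ_[p])‖ ∨
      1 < ‖((ptX (P - Q) : ℚ) : ℚ_[p])‖ := by
  match P, Q, hP0, hQ0, hP, hQ, h with
  | .zero, _, hP0, _, _, _, _ => exact absurd rfl hP0
  | .some _ _ _, .zero, _, hQ0, _, _, _ => exact absurd rfl hQ0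
  | .some x1 y1 h1, .some x2 y2 h2, _, _, hP, hQ, h =>
    rw [ptX_some] at hP hQ
    rw [ptX_some, ptX_some] at h
    by_cases hx : x1 = x2
    · rcases G.eq_or_neg_of_x (a := (a : ℚ)) (b := (b : ℚ)) h1 h2 hx with h3 | h3
      · right
        left
        exact sub_eq_zero.2 h3
      · left
        exact add_eq_zero_iff_eq_neg.2 h3
    · right
      right
      obtain ⟨x3, y3, h3, x4, y4, h4, f3, f4, e1, e2⟩ :=
        G.add_sub_coord (a := (a : ℚ)) (b := (b : ℚ)) h1 h2 hx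
      by_contra hcon
      push Not at hcon
      obtain ⟨g3, g4⟩ := hcon
      have f3' : ((ptX ((Point.some x1 y1 h1 : (curve a b).Point) + Point.some x2 y2 h2) : ℚ)) =
          x3 := congrArg ptX f3
      have f4' : ((ptX ((Point.some x1 y1 h1 : (curve a b).Point) - Point.some x2 y2 h2) : ℚ)) =
          x4 := congrArg ptX f4
      rw [f3'] at g3
      rw [f4'] at g4
      have e1' := congrArg (fun z : ℚ => (z : ℚ_[p])) e1
      have e2' := congrArg (fun z : ℚ => (z : ℚ_[p])) e2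
      push_cast at e1' e2'
      refine flocK_core hp5 hΔ (x1 := ⟨(x1 : ℚ_[p]), hP⟩) (x2 := ⟨(x2 : ℚ_[p]), hQ⟩)
        (x3 := ⟨(x3 : ℚ_[p]), g3⟩) (x4 := ⟨(x4 : ℚ_[p]), g4⟩) h ?_ ?_
      · apply Subtype.ext
        push_cast
        exact e1'
      · apply Subtype.ext
        push_cast
        exact e2'

/-- proof of `tors_bound` -/
theorem flocK_tors_bound (hp5 : 5 ≤ p) {a b : ℤ} (hΔ : ¬ (p : ℤ) ∣ 4 * a ^ 3 + 27 * b ^ 2)
    {P : (curve a b).Point} (h : IsOfFinAddOrder P) : ∃ n, 1 ≤ n ∧ n ≤ 2 * p + 1 ∧ n • P = 0 := by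
  by_contra hcon
  push Not at hcon
  have hint : ∀ n : ℕ, ‖((ptX (n • P) : ℚ) : ℚ_[p])‖ ≤ 1 := by
    intro n
    by_contra hn
    rw [not_le] at hn
    exact ker_not_torsion hn h.nsmul
  let X : ℕ → ℤ_[p] := fun n => ⟨((ptX (n • P) : ℚ) : ℚ_[p]), hint n⟩
  let φ : Fin (p + 1) → ZMod p := fun j => PadicInt.toZMod (X (j.val + 1))
  obtain ⟨i, j, hij, heq⟩ := Fintype.exists_ne_map_eq_of_card_lt φ (by
    rw [ZMod.card, Fintype.card_fin]
    omega)
  have key : ∀ i j : Fin (p + 1), i.val < j.val → φ i = φ j → False := by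
    intro i j hlt he
    have hi := i.2
    have hj := j.2
    have h1 : ‖((ptX ((j.val + 1) • P) : ℚ) : ℚ_[p]) - ((ptX ((i.val + 1) • P) : ℚ) : ℚ_[p])‖ <
        1 := by
      have h2 : PadicInt.toZMod (X (j.val + 1) - X (i.val + 1)) = 0 := by
        rw [map_sub, sub_eq_zero]
        exact he.symm
      exact (flocK_toZMod_iff _).1 h2
    have e1 : (j.val + 1) • P + (i.val + 1) • P = (i.val + j.val + 2) • P := by
      rw [← add_smul]
      congr 1
      omega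
    have e2 : (j.val + 1) • P - (i.val + 1) • P = (j.val - i.val) • P := by
      rw [sub_eq_iff_eq_add, ← add_smul]
      congr 1
      omega
    have h3 := flocK_ker_of_congr hp5 hΔ (hcon (j.val + 1) (by omega) (by omega))
      (hcon (i.val + 1) (by omega) (by omega)) (hint _) (hint _) h1
    rw [e1, e2] at h3
    rcases h3 with h3 | h3 | h3 | h3
    · exact hcon (i.val + j.val + 2) (by omega) (by omega) h3
    · exact hcon (j.val - i.val) (by omega) (by omega) h3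
    · exact absurd (hint (i.val + j.val + 2)) (not_le.2 h3)
    · exact absurd (hint (j.val - i.val)) (not_le.2 h3)
  rcases lt_or_gt_of_ne (fun h5 => hij (Fin.ext h5) : i.val ≠ j.val) with h5 | h5
  · exact key i j h5 heq
  · exact key j i h5 heq.symm

end Pool.Agent.Lib.MP_3550b5_nt.SV
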