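import Mathlib
import Pool.Agent.Lib.MP_3550b5_nt.SV.DT

/-!
Project SV, part F: proofs of the parity of `S` and of the scaling of the sigma data.
-/

namespace Pool.Agent.Lib.MP_3550b5_nt.SV

open PowerSeries

lemma rescale_X_aux {R : Type*} [CommRing R] (u : R) :
    rescale u (X : R⟦X⟧) = C u * X := by
  ext n
  rw [coeff_rescale, coeff_X, coeff_C_mul, coeff_X]
  split_ifs with h
  · rw [h, pow_one]
  · rw [mul_zero, mul_zero]

lemma rescale_C_aux {R : Type*} [CommRing R] (u r : R) :
    rescale u (C r : R⟦X⟧) = C r := by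
  ext n
  rw [coeff_rescale, coeff_C]
  split_ifs with h
  · rw [h, pow_zero, one_mul]
  · rw [mul_zero]

/-- `T d/dT` commutes with scaling. -/
lemma rescale_X_derivative {R : Type*} [CommRing R] (u : R) (f : R⟦X⟧) :
    rescale u (X * derivative R f) = X * derivative R (rescale u f) := by
  ext n
  rw [coeff_rescale]
  cases n with
  | zero => rw [coeff_zero_X_mul, coeff_zero_X_mul, mul_zero]
  | succ n =>
    rw [coeff_succ_X_mul, coeff_succ_X_mul, coeff_derivative, coeff_derivative, coeff_rescale,
      mul_assoc]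

theorem SD_scale_aux {R : Type*} [CommRing R] {a b c : R} {W V Om S Z : R⟦X⟧}
    (h : SD a b c W V Om S Z) (u : R) :
    SD (u ^ 4 * a) (u ^ 6 * b) (u ^ 2 * c) (rescale u W) (rescale u V) (rescale u Om)
      (rescale u S) (C u * rescale u Z) where
  hW := by
    have h1 := congrArg (rescale u) h.hW
    simp only [map_add, map_mul, map_pow, map_one, rescale_X_aux, rescale_C_aux] at h1 ⊢
    linear_combination h1
  hV := by
    rw [← map_mul, h.hV, map_one]
  hOm := by
    have h1 := congrArg (rescale u) h.hOm
    simp only [map_add, map_mul, rescale_X_aux, map_ofNat] at h1 ⊢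
    rw [← rescale_X_derivative u W, map_mul, rescale_X_aux]
    exact h1
  S0 := by
    rw [← coeff_zero_eq_constantCoeff_apply, coeff_rescale, pow_zero, one_mul,
      coeff_zero_eq_constantCoeff_apply, h.S0]
  S1 := by
    rw [coeff_rescale, h.S1, mul_zero]
  E1 := by
    have h1 := congrArg (rescale u) h.E1
    rw [map_add, rescale_X_derivative] at h1
    simp only [map_sub, map_mul, rescale_X_aux] at h1
    linear_combination h1
  E2 := by
    have h1 : X * W * (X * derivative R Z) = W - Om - C c * X ^ 2 * W * Om := by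
      rw [← h.E2]; ring
    have h2 := congrArg (rescale u) h1
    simp only [map_sub, map_mul, map_pow, rescale_C_aux, rescale_X_aux] at h2
    have h3 := rescale_X_derivative u Z
    rw [map_mul, rescale_X_aux] at h3
    have h4 : derivative R (C u * rescale u Z) = C u * derivative R (rescale u Z) := by
      rw [Derivation.leibniz, derivative_C, smul_zero, add_zero, smul_eq_mul]
    rw [h4]
    simp only [map_mul, map_pow]
    linear_combination h2 - (C u * X * rescale u W) * h3

variable {p : ℕ} [hp : Fact p.Prime]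

lemma coeff_eq_zero_of_rescale {f : ℤ_[p]⟦X⟧} (hf : rescale (-1) f = f) {n : ℕ} (hn : Odd n) :
    coeff n f = 0 := by
  have h1 := congrArg (coeff n) hf
  rw [coeff_rescale, hn.neg_one_pow] at h1
  have h2 : (2 : ℤ_[p]) * coeff n f = 0 := by linear_combination -h1
  exact (mul_eq_zero.mp h2).resolve_left two_ne_zero

/-- Uniqueness for `T D' = G D` when `G` has no constant term and `D` neither. -/
lemma ode_zero {G D : ℤ_[p]⟦X⟧} (hG : constantCoeff G = 0) (hD : constantCoeff D = 0)
    (h : X * derivative ℤ_[p] D = G * D) : D = 0 := by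
  ext n
  rw [map_zero]
  induction n using Nat.strong_induction_on with
  | _ n ih =>
    cases n with
    | zero => rw [coeff_zero_eq_constantCoeff_apply, hD]
    | succ n =>
      have h1 := congrArg (coeff (n + 1)) h
      rw [coeff_succ_X_mul, coeff_derivative, coeff_mul] at h1
      have h2 : ∑ x ∈ Finset.HasAntidiagonal.antidiagonal (n + 1), coeff x.1 G * coeff x.2 D = 0 := by
        refine Finset.sum_eq_zero fun x hx => ?_
        have hx' := Finset.HasAntidiagonal.mem_antidiagonal.mp hx
        rcases Nat.eq_zero_or_pos x.1 with h0 | h0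
        · rw [h0, coeff_zero_eq_constantCoeff_apply, hG, zero_mul]
        · rw [ih x.2 (by omega), mul_zero]
      rw [h2] at h1
      have h3 : ((n : ℤ_[p]) + 1) ≠ 0 := by exact_mod_cast Nat.succ_ne_zero n
      exact (mul_eq_zero.mp h1).resolve_right h3

theorem sigmaData_of_SD_aux {a b c : ℤ_[p]} {W V Om S Z : ℤ_[p]⟦X⟧} (h : SD a b c W V Om S Z) :
    SigmaData p a b c W V Om S Z := by
  have hX : rescale (-1 : ℤ_[p]) (X : ℤ_[p]⟦X⟧) = -X := by
    rw [rescale_X_aux, map_neg, map_one, neg_one_mul]
  have hVW : V * W = 1 := by rw [mul_comm]; exact h.hV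
  -- `W` is even
  have hW : rescale (-1 : ℤ_[p]) W = W := by
    refine W_unique (a := a) (b := b) ?_ h.hW
    have h1 := congrArg (rescale (-1 : ℤ_[p])) h.hW
    simp only [map_add, map_mul, map_pow, map_one, hX, rescale_C_aux] at h1
    linear_combination h1
  have hV : rescale (-1 : ℤ_[p]) V = V := by
    have h1 := congrArg (rescale (-1 : ℤ_[p])) h.hV
    rw [map_mul, map_one, hW] at h1
    linear_combination V * h1 - (rescale (-1 : ℤ_[p]) V) * h.hV
  have hOm : rescale (-1 : ℤ_[p]) Om = Om := by
    have h1 := congrArg (rescale (-1 : ℤ_[p])) h.hOm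
    rw [map_add, rescale_X_derivative, map_mul, map_mul, map_ofNat, hW] at h1
    have h2 : (2 : ℤ_[p]⟦X⟧) * (rescale (-1 : ℤ_[p]) Om - Om) = 0 := by
      linear_combination V * h1 - V * h.hOm - 2 * (rescale (-1 : ℤ_[p]) Om - Om) * h.hV
    have h3 : (2 : ℤ_[p]⟦X⟧) ≠ 0 := by
      intro h4
      have h5 := congrArg constantCoeff h4
      rw [map_ofNat, map_zero] at h5
      exact two_ne_zero h5
    exact sub_eq_zero.mp ((mul_eq_zero.mp h2).resolve_left h3)
  -- constant coefficients
  have hWc : constantCoeff W = 1 := by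
    have := congrArg constantCoeff h.hW
    simpa using this
  have hOmc : constantCoeff Om = 1 := by
    have := congrArg constantCoeff h.hOm
    simp only [map_mul, map_add, hWc, constantCoeff_X, zero_mul, add_zero, mul_one,
      map_ofNat] at this
    apply mul_left_cancel₀ (two_ne_zero (α := ℤ_[p]))
    rw [this, mul_one]
  have hOm1 : coeff 1 Om = 0 := coeff_eq_zero_of_rescale hOm (by decide)
  -- `Z` has no constant term
  have hZ0 : constantCoeff Z = 0 := by
    have h1 := congrArg (coeff 1) h.E1
    rw [mul_assoc, mul_assoc, map_add, map_sub, show (1 : ℕ) = 0 + 1 from rfl, coeff_succ_X_mul,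
      coeff_succ_X_mul, coeff_derivative] at h1
    simp only [coeff_zero_eq_constantCoeff_apply, map_mul, zero_add, h.S1, h.S0, hOmc,
      one_mul, zero_mul, add_zero, zero_sub] at h1
    rw [h1, coeff_mul]
    have hs : ∑ x ∈ Finset.HasAntidiagonal.antidiagonal (0 + 1), coeff x.1 Om * coeff x.2 S = 0 := by
      refine Finset.sum_eq_zero fun x hx => ?_
      have hx' := Finset.HasAntidiagonal.mem_antidiagonal.mp hx
      rcases Nat.eq_zero_or_pos x.1 with h0 | h0
      · rw [show x.2 = 1 by omega, h.S1, mul_zero]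
      · rw [show x.1 = 1 by omega, hOm1, zero_mul]
    rw [hs, neg_zero]
  -- `Z` is odd
  have hZ : rescale (-1 : ℤ_[p]) Z = -Z := by
    have h1 : X * (X * derivative ℤ_[p] Z) = 1 - V * Om - C c * X ^ 2 * Om := by
      linear_combination V * h.E2 +
        (-(X ^ 2 * derivative ℤ_[p] Z) + 1 - C c * X ^ 2 * Om) * h.hV
    have h2 := congrArg (rescale (-1 : ℤ_[p])) h1
    rw [map_mul, rescale_X_derivative] at h2
    simp only [map_sub, map_mul, map_pow, map_one, rescale_C_aux, hX, hV, hOm] at h2
    have h3 : X * (X * derivative ℤ_[p] (rescale (-1 : ℤ_[p]) Z + Z)) = 0 := by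
      rw [map_add]
      linear_combination h1 - h2
    have h4 := (mul_eq_zero.mp ((mul_eq_zero.mp h3).resolve_left X_ne_zero)).resolve_left X_ne_zero
    have h5 : rescale (-1 : ℤ_[p]) Z + Z = 0 := by
      ext n
      rw [map_zero]
      cases n with
      | zero =>
        rw [map_add, coeff_rescale, coeff_zero_eq_constantCoeff_apply, hZ0, mul_zero, add_zero]
      | succ n =>
        have h6 := congrArg (coeff n) h4
        rw [coeff_derivative, map_zero] at h6
        have h7 : ((n : ℤ_[p]) + 1) ≠ 0 := by exact_mod_cast Nat.succ_ne_zero n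
        exact (mul_eq_zero.mp h6).resolve_right h7
    exact eq_neg_of_add_eq_zero_left h5
  -- `S` is even
  have hS : rescale (-1 : ℤ_[p]) S = S := by
    have h1 := congrArg (rescale (-1 : ℤ_[p])) h.E1
    rw [map_add, rescale_X_derivative] at h1
    simp only [map_sub, map_mul, hX, hOm, hZ] at h1
    refine sub_eq_zero.mp (ode_zero (G := Om * (1 + X * Z) - 1) ?_ ?_ ?_)
    · simp [hOmc]
    · rw [map_sub, ← coeff_zero_eq_constantCoeff_apply, ← coeff_zero_eq_constantCoeff_apply,
        coeff_rescale, pow_zero, one_mul, sub_self]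
    · rw [map_sub]
      linear_combination h.E1 - h1
  exact ⟨h.hW, h.hV, h.hOm, h.S0, h.S1, fun n hn => coeff_eq_zero_of_rescale hS hn, h.E1, h.E2⟩

lemma ev_rescale_aux (S : ℤ_[p]⟦X⟧) (u t : ℤ_[p]) : ev (rescale u S) t = ev S (u * t) := by
  unfold ev
  refine tsum_congr fun n => ?_
  rw [coeff_rescale, mul_pow]
  ring

end Pool.Agent.Lib.MP_3550b5_nt.SV
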