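import Mathlib
import Pool.Agent.Lib.MP_3550b5_nt.UIndex
import Pool.Agent.Lib.MP_3550b5_nt.SFinal2
import Pool.Agent.Lib.MP_3550b5_nt.STors
import Pool.Agent.Lib.MP_3550b5_nt.SV.FLocK
import Pool.Agent.Lib.MP_3550b5_nt.SV.DT
import Pool.Agent.Lib.MP_3550b5_nt.SV.FLocX
import Pool.Agent.Lib.MP_3550b5_nt.SV.FLocH

/-!
Project SV, part F: one fibre. Good multiples, torsion, the height in terms of the sigma function,
scaling.
-/

namespace Pool.Agent.Lib.MP_3550b5_nt.SV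

open PowerSeries

variable {p : ℕ} [hp : Fact p.Prime]

/-- PARITY of `S` over `ℤ_[p]` from the other conditions. PROOF. `W(-T) = W(T)` by uniqueness
(`W_unique` for `rescale (-1) W`, or `evalNegHom`), so `V` and `Om` are even. `E2` divided by `W`:
`T^2 Z_T = 1 - V Om - c T^2 Om` is even, so `n z_n = 0` for even `n ≥ 2`; `z_0 = 0` by `E1` in degree
`1` (`S1`). So `Z` is odd. `E1`: `T S_T = (Om (1 + T Z) - 1) S` with `Om (1 + T Z) - 1` even and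
without constant term, so by strong induction `n s_n = 0` for odd `n`. -/
theorem sigmaData_of_SD {a b c : ℤ_[p]} {W V Om S Z : ℤ_[p]⟦X⟧} (h : SD a b c W V Om S Z) :
    SigmaData p a b c W V Om S Z :=
  sigmaData_of_SD_aux h

lemma SD_of_sigmaData {a b c : ℤ_[p]} {W V Om S Z : ℤ_[p]⟦X⟧}
    (h : SigmaData p a b c W V Om S Z) : SD a b c W V Om S Z :=
  ⟨h.hW, h.hV, h.hOm, h.S0, h.S1, h.E1, h.E2⟩

/-- SCALING. (`rescale u` is a ring homomorphism; `T d/dT` commutes with it.) -/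
theorem SD.scale {R : Type*} [CommRing R] {a b c : R} {W V Om S Z : R⟦X⟧}
    (h : SD a b c W V Om S Z) (u : R) :
    SD (u ^ 4 * a) (u ^ 6 * b) (u ^ 2 * c) (rescale u W) (rescale u V) (rescale u Om)
      (rescale u S) (C u * rescale u Z) :=
  SD_scale_aux h u

lemma ev_rescale (S : ℤ_[p]⟦X⟧) (u t : ℤ_[p]) : ev (rescale u S) t = ev S (u * t) :=
  ev_rescale_aux S u t

/-- Two integral points with congruent `x`-coordinates: `P + Q` or `P - Q` is `0` or in the kernel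
of reduction. PROOF. If `x1 = x2`: `Q = ± P`. Otherwise `G.add_sub_coord` (the coordinates `x3`, `x4`
of `P ± Q`): `(x1-x2)^2 (x3+x4) = 2((x1+x2)(x1 x2 + a) + 2b)`,
`(x1-x2)^2 x3 x4 = (x1 x2 - a)^2 - 4 b (x1+x2)`. If `x3`, `x4` are integral, then modulo `p`, with
`x = x1 = x2`: `4 (x^3 + a x + b) = 0` and
`x^4 - 2 a x^2 - 8 b x + a^2 = (3x^2+a)^2 - 8x (x^3+ax+b) = 0`, so `x^3 + a x + b = 0 = 3 x^2 + a`,
and `p` divides `4a^3 + 27b^2`. -/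
theorem ker_of_congr (hp5 : 5 ≤ p) {a b : ℤ} (hΔ : ¬ (p : ℤ) ∣ 4 * a ^ 3 + 27 * b ^ 2)
    {P Q : (curve a b).Point} (hP0 : P ≠ 0) (hQ0 : Q ≠ 0)
    (hP : ‖((ptX P : ℚ) : ℚ_[p])‖ ≤ 1) (hQ : ‖((ptX Q : ℚ) : ℚ_[p])‖ ≤ 1)
    (h : ‖((ptX P : ℚ) : ℚ_[p]) - ((ptX Q : ℚ) : ℚ_[p])‖ < 1) :
    P + Q = 0 ∨ P - Q = 0 ∨ 1 < ‖((ptX (P + Q) : ℚ) : ℚ_[p])‖ ∨
      1 < ‖((ptX (P - Q) : ℚ) : ℚ_[p])‖ :=
  flocK_ker_of_congr hp5 hΔ hP0 hQ0 hP hQ h

/-- TORSION. PROOF. Suppose `n • P ≠ 0` for `1 ≤ n ≤ 2 p + 1`. All these points are torsion, so their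
`x`-coordinates are integral (`ker_not_torsion`). Two of `x(P), ..., x((p+1) P)` are congruent modulo
`p` (pigeonhole, residues in `ZMod p`); `ker_of_congr` for `j • P`, `i • P`, `i < j`:
`(i+j) • P`, `(j-i) • P` are not `0` and one of them is in the kernel of reduction: contradiction. -/
theorem tors_bound (hp5 : 5 ≤ p) {a b : ℤ} (hΔ : ¬ (p : ℤ) ∣ 4 * a ^ 3 + 27 * b ^ 2)
    {P : (curve a b).Point} (h : IsOfFinAddOrder P) : ∃ n, 1 ≤ n ∧ n ≤ 2 * p + 1 ∧ n • P = 0 :=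
  flocK_tors_bound hp5 hΔ h

private theorem good_pow {l : ℕ} (hl : l.Prime) {Δ : ℤ} {B0 : ℕ} (h : ¬ (l : ℤ) ^ B0 ∣ Δ) :
    ¬ (l : ℤ) ^ (B0 + 2) ∣ 4 * Δ := by
  intro hd
  apply h
  by_cases h2 : l = 2
  · subst h2
    have e : ((2 : ℕ) : ℤ) ^ (B0 + 2) = 4 * ((2 : ℕ) : ℤ) ^ B0 := by
      rw [pow_add]
      push_cast
      ring
    rw [e] at hd
    exact (mul_dvd_mul_iff_left (by norm_num)).1 hd
  · have hc : IsCoprime ((l : ℤ) ^ (B0 + 2)) 4 := by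
      have h3 : Nat.Coprime l 2 := (Nat.coprime_primes hl Nat.prime_two).2 h2
      have h4 : IsCoprime (l : ℤ) 2 := by exact_mod_cast Nat.isCoprime_iff_coprime.2 h3
      have h5 := h4.pow (m := B0 + 2) (n := 2)
      have e4 : (2 : ℤ) ^ 2 = 4 := by norm_num
      rwa [e4] at h5
    exact (pow_dvd_pow _ (by omega)).trans (hc.dvd_of_dvd_mul_left hd)

/-- a small multiple in the kernel of reduction -/
private theorem good_ker (hp5 : 5 ≤ p) {a b : ℤ} (hΔ : ¬ (p : ℤ) ∣ 4 * a ^ 3 + 27 * b ^ 2)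
    {P : (curve a b).Point} (htor : ¬ IsOfFinAddOrder P) :
    ∃ n, 1 ≤ n ∧ n ≤ 2 * p + 1 ∧ 1 < ‖((ptX (n • P) : ℚ) : ℚ_[p])‖ := by
  by_contra hcon
  push Not at hcon
  have hne : ∀ n, 1 ≤ n → n • P ≠ 0 := fun n hn => nsmul_ne_of_not_tor htor n (by omega)
  let f : Fin (p + 1) → ZMod p := fun i =>
    PadicInt.toZMod ⟨((ptX ((i.val + 1) • P) : ℚ) : ℚ_[p]), hcon (i.val + 1) (by omega) (by omega)⟩
  obtain ⟨i, j, hij, hee⟩ := Fintype.exists_ne_map_eq_of_card_lt f (by simp [ZMod.card])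
  wlog hlt : i.val < j.val generalizing i j with H
  · exact H j i hij.symm hee.symm (by
      have : i.val ≠ j.val := fun hh => hij (Fin.ext hh)
      omega)
  have hee' : PadicInt.toZMod
        (⟨((ptX ((j.val + 1) • P) : ℚ) : ℚ_[p]), hcon (j.val + 1) (by omega) (by omega)⟩ -
          ⟨((ptX ((i.val + 1) • P) : ℚ) : ℚ_[p]), hcon (i.val + 1) (by omega) (by omega)⟩) = 0 := by
    rw [map_sub, sub_eq_zero]
    exact hee.symm
  rw [← RingHom.mem_ker, PadicInt.ker_toZMod, IsLocalRing.mem_maximalIdeal,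
    PadicInt.mem_nonunits] at hee'
  have h3 := ker_of_congr hp5 hΔ (hne (j.val + 1) (by omega)) (hne (i.val + 1) (by omega))
    (hcon (j.val + 1) (by omega) (by omega)) (hcon (i.val + 1) (by omega) (by omega)) hee'
  have e1 : (j.val + 1) • P + (i.val + 1) • P = (j.val + 1 + (i.val + 1)) • P := (add_smul _ _ _).symm
  have e2 : (j.val + 1) • P - (i.val + 1) • P = (j.val - i.val) • P := by
    rw [sub_eq_iff_eq_add, ← add_smul]
    congr 1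
    omega
  rw [e1, e2] at h3
  rcases h3 with h3 | h3 | h3 | h3
  · exact hne _ (by omega) h3
  · exact hne _ (by omega) h3
  · exact absurd (hcon _ (by omega) (by omega)) (not_le.2 h3)
  · exact absurd (hcon _ (by omega) (by omega)) (not_le.2 h3)

/-- GOOD MULTIPLES. PROOF. `P` has infinite order: otherwise `tors_bound` gives `n • P = 0` with
`n ∣ M`. `exists_good_multiple_c` with `c = M`: for a prime `l` dividing `2 B` and `3 A^2 + a D^4` we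
have `l ∈ 𝓛`, `l^(B0+2) ∤ 4 (4a^3+27b^2)` (`l = 2`: cancel `4`), `exists_nonsing` gives
`n ≤ l^(2(B0+2)) + 1`, so `n ∣ M`. Last, `p ∣ D₁`: the proof of `exists_apparition`
(or `IsRep`-versions in SCl.lean/UCancel.lean) gives `n ≤ 2p+1` with `p ∣ Dn a A B D n`, so
`p ∣ Dn a A B D M` (divisibility `Dn n ∣ Dn M`; or: `n • P` is in the kernel of reduction, hence
`M • P`: `ker_mult`), and `p ∤ G` because `p ∤ 4a^3+27b^2`. Alternatively: by pigeonhole as in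
`tors_bound` some `n • P`, `n ≤ 2p+1`, is in the kernel of reduction, `M • P = (M/n) • (n • P)` too
(`ker_mult`, `ker_add`), and `A₁/D₁^2` in lowest terms is not integral at `p`. -/
theorem good_mult (hp5 : 5 ≤ p) {a b A B D : ℤ} {P : (curve a b).Point} (hP : IsRep a b A B D P)
    (hΔ : ¬ (p : ℤ) ∣ 4 * a ^ 3 + 27 * b ^ 2) {𝓛 : Finset ℕ} {B0 M : ℕ}
    (hL : ∀ l : ℕ, l.Prime → (l : ℤ) ∣ 2 * B → (l : ℤ) ∣ 3 * A ^ 2 + a * D ^ 4 → l ∈ 𝓛)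
    (hB0 : ∀ l ∈ 𝓛, ¬ (l : ℤ) ^ B0 ∣ 4 * a ^ 3 + 27 * b ^ 2) (hM0 : 1 ≤ M)
    (hM1 : ∀ l ∈ 𝓛, ∀ n, 1 ≤ n → n ≤ l ^ (2 * (B0 + 2)) + 1 → n ∣ M)
    (hM2 : ∀ n, 1 ≤ n → n ≤ 2 * p + 1 → n ∣ M) (hMP : M • P ≠ 0) :
    ∃ A₁ B₁ D₁ : ℤ, IsRep a b A₁ B₁ D₁ (M • P) ∧
      IsCoprime (2 * B₁) (3 * A₁ ^ 2 + a * D₁ ^ 4) ∧ (p : ℤ) ∣ D₁ := by
  have htor : ¬ IsOfFinAddOrder P := by
    intro h
    obtain ⟨n, hn1, hn2, hn3⟩ := tors_bound hp5 hΔ h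
    obtain ⟨k, rfl⟩ := hM2 n hn1 hn2
    apply hMP
    rw [mul_comm, mul_smul, hn3, nsmul_zero]
  obtain ⟨G, A₁, B₁, D₁, -, hrep, hcop, -, -⟩ := exists_good_multiple_c hP htor hM0
    (fun l hl h1 h2 => by
      have hl𝓛 := hL l hl.out h1 h2
      obtain ⟨n, hn1, hn2, hn3⟩ := exists_nonsing (l := l) htor (good_pow hl.out (hB0 l hl𝓛))
      exact ⟨n, hn1, hM1 l hl𝓛 n hn1 hn2, hn3⟩)
  refine ⟨A₁, B₁, D₁, hrep, hcop, ?_⟩
  obtain ⟨n, hn1, hn2, hn3⟩ := good_ker hp5 hΔ htor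
  obtain ⟨k, rfl⟩ := hM2 n hn1 hn2
  have hk : 1 ≤ k := by
    rcases Nat.eq_zero_or_pos k with h0 | h0
    · rw [h0, mul_zero] at hM0
      omega
    · exact h0
  obtain ⟨h1, -⟩ := ker_mult hn3 (N := k + 1) (fun m hm _ => by
    rw [← mul_smul]
    exact nsmul_ne_of_not_tor htor _ (Nat.mul_pos hm hn1)) k hk (Nat.lt_succ_self k)
  rw [← mul_smul, mul_comm k n, hrep.ptX_eq] at h1
  by_contra hd
  have hDn : ‖(D₁ : ℚ_[p])‖ = 1 := by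
    refine le_antisymm (Padic.norm_int_le_one D₁) ?_
    by_contra hlt
    exact hd (Padic.norm_intCast_lt_one_iff.mp (not_le.mp hlt))
  push_cast at h1
  rw [norm_div, norm_pow, hDn, one_pow, div_one] at h1
  exact absurd (Padic.norm_int_le_one A₁) (not_le.2 h1)

/-- THE HEIGHT. PROOF. As in `ht_of_rep` (with `m = 1`): `hB.formula` gives `σ`,
`sigmaData_of_sigma` its data `S'`, and `B(Q,Q) = ulog(A B⁻¹ S'(T))`, `T = -A D B⁻¹`. `S'(T) = S(T)`: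
`ev_S_close` for all `k` (`sigmaData_of_SD`; `p = 2 q + 1`; the Hasse coefficient is not zero by
`GoodOrdinary`: see Hasse.lean). `ulog (-u) = ulog u` (`(-1)^(p-1) = 1`). -/
theorem ht_unit (hp5 : 5 ≤ p) {a b A B D : ℤ} {Q : (curve a b).Point} (hQ : IsRep a b A B D Q)
    (hcop : IsCoprime (2 * B) (3 * A ^ 2 + a * D ^ 4)) (hpD : (p : ℤ) ∣ D)
    (hord : GoodOrdinary p a b) {Bh : (curve a b).Point → (curve a b).Point → ℚ_[p]}
    (hB : IsCanonicalHeight p a b Bh) {c : ℤ_[p]} {W V Om S Z : ℤ_[p]⟦X⟧}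
    (hS : SD (a : ℤ_[p]) (b : ℤ_[p]) c W V Om S Z) {Bi : ℤ_[p]} (hBi : (B : ℤ_[p]) * Bi = 1) :
    Bh Q Q = ulog (-((A : ℤ_[p]) * Bi * ev S (-((A : ℤ_[p]) * (D : ℤ_[p]) * Bi)))) :=
  ht_unitH hp5 hQ hcop hpD hord hB (sigmaData_of_SD hS) hBi

/-- Comparison of two representations. PROOF. `A D₁^2 = A₁ D^2`, `gcd(A₁, D₁) = 1` (a common prime
divisor divides `B₁`), so `D₁ ∣ D`, `G = D / D₁`. `G^3 ∣ 2 B`, `G^4 ∣ 3 A^2 + a D^4`. -/
theorem rep_comp {a b A B D A₁ B₁ D₁ : ℤ} {Q : (curve a b).Point} (h : IsRep a b A B D Q)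
    (h1 : IsRep a b A₁ B₁ D₁ Q) (hcop : IsCoprime (2 * B₁) (3 * A₁ ^ 2 + a * D₁ ^ 4)) :
    ∃ G : ℤ, G ≠ 0 ∧ A = G ^ 2 * A₁ ∧ B = G ^ 3 * B₁ ∧ D = G * D₁ ∧ G ^ 3 ∣ 2 * B ∧
      G ^ 3 ∣ 3 * A ^ 2 + a * D ^ 4 :=
  rep_compH h h1 hcop

end Pool.Agent.Lib.MP_3550b5_nt.SV
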