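import Mathlib
import Pool.Agent.Lib.MP_3550b5_nt.SV.Base

/-!
Project SV, part I: subfields of a differential field `E`, adjunction of one element.
-/

namespace Pool.Agent.Lib.MP_3550b5_nt.SV

open Polynomial

variable {E : Type*} [Field E] [CharZero E] (D : Derivation ℤ E E)

/-- `L` is closed under `D`. -/
def Cl (L : Subfield E) : Prop := ∀ x ∈ L, D x ∈ L

/-- The restriction of `D` to a closed subfield. -/
noncomputable def resD (L : Subfield E) (hL : Cl D L) : Derivation ℤ L L :=
  Derivation.mk' ((D.toLinearMap.toAddMonoidHom.comp L.subtype.toAddMonoidHom).codRestrict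
    L.toAddSubgroup (fun x => hL x x.2)).toIntLinearMap (by
      intro x y
      apply Subtype.ext
      change D ((x : E) * y) = (x : E) * D y + (y : E) * D x
      rw [Derivation.leibniz, smul_eq_mul, smul_eq_mul])

lemma resD_coe {L : Subfield E} (hL : Cl D L) (x : L) : ((resD D L hL x : L) : E) = D x := rfl

/-- `L(w)`. -/
def adj (L : Subfield E) (w : E) : Subfield E := Subfield.closure ((L : Set E) ∪ {w})

lemma le_adj (L : Subfield E) (w : E) : L ≤ adj L w := fun x hx =>
  Subfield.subset_closure (Or.inl hx)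

lemma mem_adj_self (L : Subfield E) (w : E) : w ∈ adj L w :=
  Subfield.subset_closure (Or.inr rfl)

private lemma isub_aeval_mem {L : Subfield E} (w : E) (N : L[X]) : aeval w N ∈ adj L w := by
  rw [aeval_eq_sum_range]
  refine Subfield.sum_mem _ fun i _ => ?_
  rw [Algebra.smul_def]
  exact mul_mem (le_adj L w (N.coeff i).2) (pow_mem (mem_adj_self L w) i)

/-- PROOF. The quotients form a subfield which contains `L` and `w` (`Subfield.closure_le`, or
`Subfield.closure_induction`); conversely `aeval w N ∈ adj L w` (`Polynomial.induction_on'`). -/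
lemma mem_adj {L : Subfield E} {w x : E} : x ∈ adj L w ↔
    ∃ N Q : L[X], aeval w Q ≠ 0 ∧ x = aeval w N / aeval w Q := by
  constructor
  · intro hx
    induction hx using Subfield.closure_induction with
    | mem x hx =>
      rcases hx with hx | hx
      · refine ⟨C ⟨x, hx⟩, 1, ?_, ?_⟩
        · rw [map_one]
          exact one_ne_zero
        · rw [map_one, div_one, aeval_C]
          rfl
      · refine ⟨X, 1, ?_, ?_⟩
        · rw [map_one]
          exact one_ne_zero
        · rw [map_one, div_one, aeval_X]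
          exact hx
    | one =>
      refine ⟨1, 1, ?_, ?_⟩
      · rw [map_one]
        exact one_ne_zero
      · rw [map_one, div_one]
    | add x y _ _ hx hy =>
      obtain ⟨N₁, Q₁, h₁, rfl⟩ := hx
      obtain ⟨N₂, Q₂, h₂, rfl⟩ := hy
      refine ⟨N₁ * Q₂ + Q₁ * N₂, Q₁ * Q₂, ?_, ?_⟩
      · rw [map_mul]
        exact mul_ne_zero h₁ h₂
      · rw [map_add, map_mul, map_mul, map_mul, div_add_div _ _ h₁ h₂]
    | neg x _ hx =>
      obtain ⟨N, Q, h, rfl⟩ := hx
      refine ⟨-N, Q, h, ?_⟩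
      rw [map_neg, neg_div]
    | inv x _ hx =>
      obtain ⟨N, Q, h, rfl⟩ := hx
      by_cases hN : aeval w N = 0
      · refine ⟨0, 1, ?_, ?_⟩
        · rw [map_one]
          exact one_ne_zero
        · rw [hN, zero_div, inv_zero, map_zero, zero_div]
      · refine ⟨Q, N, hN, ?_⟩
        rw [inv_div]
    | mul x y _ _ hx hy =>
      obtain ⟨N₁, Q₁, h₁, rfl⟩ := hx
      obtain ⟨N₂, Q₂, h₂, rfl⟩ := hy
      refine ⟨N₁ * N₂, Q₁ * Q₂, ?_, ?_⟩
      · rw [map_mul]
        exact mul_ne_zero h₁ h₂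
      · rw [map_mul, map_mul, div_mul_div_comm]
  · rintro ⟨N, Q, _, rfl⟩
    exact div_mem (isub_aeval_mem w N) (isub_aeval_mem w Q)

lemma aeval_mem_adj {L : Subfield E} (w : E) (N : L[X]) : aeval w N ∈ adj L w :=
  isub_aeval_mem w N

/-- The derivative of a value (`D_eval₂` with `resD`). -/
lemma D_aeval {L : Subfield E} (hL : Cl D L) {w : E} {P : L[X]} (hw : D w = aeval w P)
    (Q : L[X]) : D (aeval w Q) = aeval w (dx (resD D L hL) P Q) :=
  D_eval₂ (resD D L hL) D (algebraMap L E) (fun _ => rfl) hw Q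

private lemma isub_D_div (a b : E) (hb : b ≠ 0) : D (a / b) = (D a * b - a * D b) / b ^ 2 := by
  rw [Derivation.leibniz_div, smul_eq_mul, smul_eq_mul, smul_eq_mul]
  field_simp

lemma adj_cl {L : Subfield E} (hL : Cl D L) {w : E} {P : L[X]} (hw : D w = aeval w P) :
    Cl D (adj L w) := by
  intro x hx
  obtain ⟨N, Q, hQ, rfl⟩ := mem_adj.1 hx
  rw [isub_D_div D _ _ hQ, D_aeval D hL hw, D_aeval D hL hw]
  exact div_mem (sub_mem (mul_mem (aeval_mem_adj w _) (aeval_mem_adj w _))
    (mul_mem (aeval_mem_adj w _) (aeval_mem_adj w _))) (pow_mem (aeval_mem_adj w _) 2)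

/-- LEMMA I1, first part. PROOF. Otherwise `Q = minpoly L w` (monic, positive degree) satisfies
`aeval w (dx .. Q) = D 0 = 0`, so `Q ∣ dx .. Q` (`minpoly.dvd`). -/
theorem transc_of_noDbx {L : Subfield E} (hL : Cl D L) {w : E} {P : L[X]}
    (hw : D w = aeval w P) (h : NoDbx (resD D L hL) P) : Transcendental L w := by
  intro halg
  have hint : IsIntegral L w := isAlgebraic_iff_isIntegral.1 halg
  refine h (minpoly L w) (minpoly.monic hint) (minpoly.natDegree_pos hint) ?_
  apply minpoly.dvd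
  rw [← D_aeval D hL hw, minpoly.aeval, map_zero]

/-- coprime numerator and denominator -/
private lemma isub_coprime {L : Subfield E} {w x : E} (hx : x ∈ adj L w) : ∃ N Q : L[X], Q.Monic ∧ IsCoprime N Q ∧ x * aeval w Q = aeval w N := by
  classical
  obtain ⟨N, Q, hQ, rfl⟩ := mem_adj.1 hx
  have hQ0 : Q ≠ 0 := by
    rintro rfl
    exact hQ (map_zero _)
  have hg : GCDMonoid.gcd N Q ≠ 0 := gcd_ne_zero_of_right hQ0
  have h1 : GCDMonoid.gcd N Q * (N / GCDMonoid.gcd N Q) = N :=
    EuclideanDomain.mul_div_cancel' hg (GCDMonoid.gcd_dvd_left N Q)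
  have h2 : GCDMonoid.gcd N Q * (Q / GCDMonoid.gcd N Q) = Q :=
    EuclideanDomain.mul_div_cancel' hg (GCDMonoid.gcd_dvd_right N Q)
  have h3 : IsCoprime (N / GCDMonoid.gcd N Q) (Q / GCDMonoid.gcd N Q) :=
    isCoprime_div_gcd_div_gcd hQ0
  set g := GCDMonoid.gcd N Q
  set N' := N / g
  set Q' := Q / g
  have hQ' : Q' ≠ 0 := by
    intro h0
    apply hQ0
    rw [← h2, h0, mul_zero]
  have hl : Q'.leadingCoeff ≠ 0 := leadingCoeff_ne_zero.2 hQ'
  have hu : IsUnit (C (Q'.leadingCoeff)⁻¹) :=
    isUnit_C.2 (isUnit_iff_ne_zero.2 (inv_ne_zero hl))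
  refine ⟨N' * C (Q'.leadingCoeff)⁻¹, Q' * C (Q'.leadingCoeff)⁻¹,
    monic_mul_leadingCoeff_inv hQ', ?_, ?_⟩
  · exact (isCoprime_mul_unit_right hu _ _).2 h3
  · have hgw : aeval w g ≠ 0 := by
      intro h0
      apply hQ
      rw [← h2, map_mul, h0, zero_mul]
    have e1 : aeval w N = aeval w g * aeval w N' := by rw [← map_mul, h1]
    have e2 : aeval w Q = aeval w g * aeval w Q' := by rw [← map_mul, h2]
    have hQw : aeval w Q' ≠ 0 := by
      intro h0
      apply hQ
      rw [e2, h0, mul_zero]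
    rw [map_mul, map_mul, e1, e2]
    field_simp

/-- LEMMA I1, second part. PROOF. `x = aeval w N / aeval w Q` with `N`, `Q` coprime, `Q` monic
(divide by the gcd and the leading coefficient). `D x = α x + β` gives, `w` being transcendental,
`dx N * Q - N * dx Q = α N Q + β Q^2` in `L[X]`, so `Q ∣ N * dx Q`, `Q ∣ dx Q`, `Q = 1` by
`NoDbx`. -/
theorem poly_of_mem_adj {L : Subfield E} (hL : Cl D L) {w : E} {P : L[X]}
    (hw : D w = aeval w P) (h : NoDbx (resD D L hL) P) {x : E} (hx : x ∈ adj L w) {α β : L[X]}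
    (hD : D x = aeval w α * x + aeval w β) : ∃ G : L[X], x = aeval w G := by
  have ht := transc_of_noDbx D hL hw h
  have hinj := transcendental_iff_injective.1 ht
  obtain ⟨N, Q, hQm, hcop, hxQ⟩ := isub_coprime hx
  set d : L[X] → L[X] := dx (resD D L hL) P with hd
  -- differentiate `x * Q(w) = N(w)`
  have h1 : aeval w (d N) = x * aeval w (d Q) + aeval w Q * D x := by
    rw [hd, ← D_aeval D hL hw, ← D_aeval D hL hw, ← hxQ, Derivation.leibniz, smul_eq_mul,
      smul_eq_mul]
  have h2 : aeval w (Q * d N) = aeval w (N * d Q + Q * (α * N + Q * β)) := by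
    simp only [map_add, map_mul]
    rw [h1, hD, ← hxQ]
    ring
  have h3 : Q * d N = N * d Q + Q * (α * N + Q * β) := hinj h2
  have h4 : Q ∣ N * d Q := ⟨d N - (α * N + Q * β), by linear_combination -h3⟩
  have h5 : Q ∣ d Q := hcop.symm.dvd_of_dvd_mul_left h4
  have h6 : Q.natDegree = 0 := by
    by_contra hne
    exact h Q hQm (Nat.one_le_iff_ne_zero.2 hne) h5
  have h7 : Q = 1 := hQm.natDegree_eq_zero.1 h6
  refine ⟨N, ?_⟩
  rw [← hxQ, h7, map_one, mul_one]

end Pool.Agent.Lib.MP_3550b5_nt.SV
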