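import Mathlib
import Pool.Agent.Lib.MP_3550b5_nt.SV.Plc
import Pool.Agent.Lib.MP_3550b5_nt.SV.Cmp
import Pool.Agent.Lib.MP_3550b5_nt.SV.ISub

/-!
Project SV, part E: the fields of a disc.
-/

namespace Pool.Agent.Lib.MP_3550b5_nt.SV

open G Polynomial

/-- The derivation of the image of a polynomial ring. -/
private lemma edf_D_map {K E : Type*} [Field K] [Field E] {D : Derivation ℤ E E}
    {Φ : K[X] →+* E} (hX : D (Φ X) = 1) (hC : ∀ c : K, D (Φ (C c)) = 0) (f : K[X]) :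
    D (Φ f) = Φ (derivative f) := by
  induction f using Polynomial.induction_on' with
  | add p q hp hq => rw [map_add, map_add, hp, hq, derivative_add, map_add]
  | monomial n c =>
    rw [← C_mul_X_pow_eq_monomial, map_mul, map_pow, Derivation.leibniz, Derivation.leibniz_pow,
      hC, hX]
    simp only [smul_eq_mul, mul_one, mul_zero, add_zero, nsmul_eq_mul]
    rw [derivative_C_mul_X_pow]
    simp only [map_mul, map_pow, C_mul, map_natCast]
    ring

/-- The subfield of the quotients. -/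
theorem edf_subfield {K E : Type*} [Field K] [CharZero K] [Field E] [CharZero E]
    (D : Derivation ℤ E E) (Φ : K[X] →+* E) (hinj : Function.Injective Φ) (hX : D (Φ X) = 1)
    (hC : ∀ c : K, D (Φ (C c)) = 0) :
    ∃ (k : Subfield E) (hk : Cl D k) (φ : K[X] →+* k), RF1 φ (resD D k hk) ∧
      ∀ f, ((φ f : k) : E) = Φ f := by
  set L : FractionRing K[X] →+* E := IsFractionRing.lift hinj with hL
  have hLa : ∀ f : K[X], L (algebraMap K[X] (FractionRing K[X]) f) = Φ f := fun f =>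
    IsFractionRing.lift_algebraMap hinj f
  have hmem : ∀ f : K[X], Φ f ∈ L.fieldRange := fun f =>
    RingHom.mem_fieldRange.2 ⟨algebraMap K[X] (FractionRing K[X]) f, hLa f⟩
  have hq : ∀ x ∈ L.fieldRange, ∃ f g : K[X], g ≠ 0 ∧ x = Φ f / Φ g := by
    intro x hx
    obtain ⟨y, rfl⟩ := RingHom.mem_fieldRange.1 hx
    obtain ⟨f, g, hg, rfl⟩ := IsFractionRing.div_surjective (A := K[X]) y
    exact ⟨f, g, nonZeroDivisors.ne_zero hg, by rw [map_div₀, hLa, hLa]⟩
  have hk : Cl D L.fieldRange := by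
    intro x hx
    obtain ⟨f, g, hg, hfg⟩ := hq x hx
    have hg0 : Φ g ≠ 0 := fun h => hg (hinj (by rw [h, map_zero]))
    have h1 : x * Φ g = Φ f := by rw [hfg, div_mul_cancel₀ _ hg0]
    have h2 : D (x * Φ g) = D (Φ f) := by rw [h1]
    rw [Derivation.leibniz, smul_eq_mul, smul_eq_mul, edf_D_map hX hC, edf_D_map hX hC] at h2
    have h3 : D x = (Φ (derivative f) - x * Φ (derivative g)) / Φ g := by
      rw [eq_div_iff hg0]
      linear_combination h2
    rw [h3]
    exact div_mem (sub_mem (hmem _) (mul_mem hx (hmem _))) (hmem _)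
  refine ⟨L.fieldRange, hk, Φ.codRestrict L.fieldRange hmem, ⟨⟨?_, ?_⟩, ?_, ?_⟩, fun f => rfl⟩
  · intro f g hfg
    exact hinj (congrArg Subtype.val hfg)
  · intro x
    obtain ⟨f, g, hg, hfg⟩ := hq x x.2
    exact ⟨f, g, hg, Subtype.ext hfg⟩
  · apply Subtype.ext
    rw [resD_coe]
    exact hX
  · intro c
    apply Subtype.ext
    rw [resD_coe]
    exact hC c

/-- A fraction field. -/
private theorem edf_isFrac {A K : Type*} [CommRing A] [IsDomain A] [Field K] {φ : A →+* K}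
    (h : IsFrac φ) : @IsFractionRing A _ K _ φ.toAlgebra := by
  letI := φ.toAlgebra
  have h0 : ∀ {a : A}, a ≠ 0 → φ a ≠ 0 := fun {a} ha h1 => ha (h.inj (by rw [h1, map_zero]))
  refine { map_units := ?_, surj := ?_, exists_of_eq := ?_ }
  · intro y
    exact isUnit_iff_ne_zero.2 (h0 (nonZeroDivisors.ne_zero y.2))
  · intro z
    obtain ⟨f, g, hg, hz⟩ := h.surj z
    refine ⟨(f, ⟨g, mem_nonZeroDivisors_of_ne_zero hg⟩), ?_⟩
    show z * φ g = φ f
    rw [hz, div_mul_cancel₀ _ (h0 hg)]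
  · intro x y hxy
    exact ⟨1, by rw [h.inj hxy]⟩

/-- The extension of a homomorphism of constants. -/
theorem edf_ext {K₀ K F₀ F : Type*} [Field K₀] [CharZero K₀] [Field K] [CharZero K] [Field F₀]
    [CharZero F₀] [Field F] [CharZero F] {φ₀ : K₀[X] →+* F₀} {D₀ : Derivation ℤ F₀ F₀}
    (h0 : RF1 φ₀ D₀) {φ : K[X] →+* F} {D : Derivation ℤ F F} (h1 : RF1 φ D) (σ : K₀ →+* K) :
    ∃ ι : F₀ →+* F, (∀ f, ι (φ₀ f) = φ (f.map σ)) ∧ ∀ x, ι (D₀ x) = D (ι x) := by
  letI : Algebra K₀[X] F₀ := φ₀.toAlgebra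
  haveI : IsFractionRing K₀[X] F₀ := edf_isFrac h0.frac
  have hinj : Function.Injective (φ.comp (mapRingHom σ)) :=
    h1.frac.inj.comp (Polynomial.map_injective σ σ.injective)
  set ι : F₀ →+* F := IsFractionRing.lift hinj with hι
  have e1 : ∀ f, ι (φ₀ f) = φ (f.map σ) := fun f => IsFractionRing.lift_algebraMap hinj f
  refine ⟨ι, e1, fun x => ?_⟩
  obtain ⟨f, g, hg, hx⟩ := h0.frac.surj x
  have hg0 : φ₀ g ≠ 0 := h0.ne hg
  have hg1 : φ (g.map σ) ≠ 0 := h1.ne ((Polynomial.map_ne_zero_iff σ.injective).2 hg)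
  have h2 : x * φ₀ g = φ₀ f := by rw [hx, div_mul_cancel₀ _ hg0]
  have h3 : D₀ (x * φ₀ g) = D₀ (φ₀ f) := by rw [h2]
  rw [Derivation.leibniz, smul_eq_mul, smul_eq_mul, h0.D_map, h0.D_map] at h3
  have h4 := congrArg ι h3
  rw [map_add, map_mul, map_mul, e1, e1, e1] at h4
  have h5 : ι x * φ (g.map σ) = φ (f.map σ) := by rw [← e1, ← e1, ← map_mul, h2]
  have h6 : D (ι x * φ (g.map σ)) = D (φ (f.map σ)) := by rw [h5]
  rw [Derivation.leibniz, smul_eq_mul, smul_eq_mul, h1.D_map, h1.D_map, derivative_map,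
    derivative_map] at h6
  have h7 : (ι (D₀ x) - D (ι x)) * φ (g.map σ) = 0 := by
    linear_combination h4 - h6
  exact sub_eq_zero.1 ((mul_eq_zero.1 h7).resolve_right hg1)

variable {p : ℕ} [hp : Fact p.Prime]

/-- The fields of the disc `t = t0 + g s`. -/
theorem disc_fldX {t0 g : ℤ_[p]} {tay : ℤ_[p][X] →+* Hz p} {rs : Hz p →+* PowerSeries ℤ_[p]}
    (tC : ∀ x : ℤ_[p], ((tay (C x) : Hz p) : PowerSeries ℚ_[p]) = PowerSeries.C (x : ℚ_[p]))
    (tX : ((tay X : Hz p) : PowerSeries ℚ_[p]) = PowerSeries.C (t0 : ℚ_[p]) + PowerSeries.X)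
    (rsc : ∀ f n, ((PowerSeries.coeff n (rs f) : ℤ_[p]) : ℚ_[p]) =
      PowerSeries.coeff n (f : PowerSeries ℚ_[p]) * (g : ℚ_[p]) ^ n) (hg0 : g ≠ 0) {D : Dr (EE p)}
    (hD : ∀ f : PowerSeries ℚ_[p], D (algebraMap _ _ f) =
      algebraMap _ _ (PowerSeries.C (g : ℚ_[p])⁻¹ * PowerSeries.derivative ℚ_[p] f))
    {F₀ : Type*} [Field F₀] [CharZero F₀] {φ₀ : ℚ[X] →+* F₀} {D₀ : Derivation ℤ F₀ F₀}
    (h0 : RF1 φ₀ D₀) :
    ∃ (k : Subfield (EE p)) (hk : Cl D k) (φ : ℚ_[p][X] →+* k) (ι : F₀ →+* k),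
      RF1 φ (resD D k hk) ∧ (∀ f, ι (φ₀ f) = φ (f.map (algebraMap ℚ ℚ_[p]))) ∧
      (∀ f : ℤ_[p][X], ((φ (f.map (PadicInt.Coe.ringHom (p := p))) : k) : EE p) =
        jE p (rs (tay f))) ∧
      (∀ x, ((ι (D₀ x) : k) : EE p) = D ((ι x : k) : EE p)) ∧
      ∀ c : ℚ_[p], ((φ (C c) : k) : EE p) = cE p c := by
  have hg : (g : ℚ_[p]) ≠ 0 := by
    intro h
    exact hg0 (Subtype.ext h)
  set q : ℚ_[p][X] := C (t0 : ℚ_[p]) + C (g : ℚ_[p]) * X with hq
  set ψ : ℚ_[p][X] →+* PowerSeries ℚ_[p] := (Polynomial.coeToPowerSeries.ringHom).comp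
    (Polynomial.compRingHom q) with hψ
  have hψf : ∀ f, ψ f = ((f.comp q : ℚ_[p][X]) : PowerSeries ℚ_[p]) := fun f => rfl
  have hψC : ∀ c, ψ (C c) = PowerSeries.C c := fun c => by
    rw [hψf, C_comp, Polynomial.coe_C]
  have hψX : ψ X = PowerSeries.C (t0 : ℚ_[p]) + PowerSeries.C (g : ℚ_[p]) * PowerSeries.X := by
    rw [hψf, X_comp, hq, Polynomial.coe_add, Polynomial.coe_mul, Polynomial.coe_C, Polynomial.coe_C,
      Polynomial.coe_X]
  have hq1 : q.coeff 1 = (g : ℚ_[p]) := by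
    rw [hq, coeff_add, coeff_C_mul, coeff_X_one, coeff_C, if_neg one_ne_zero, zero_add, mul_one]
  have hψinj : Function.Injective ψ := by
    rw [injective_iff_map_eq_zero]
    intro f hf
    rw [hψf, Polynomial.coe_eq_zero_iff, Polynomial.comp_eq_zero_iff] at hf
    rcases hf with hf | ⟨-, hf⟩
    · exact hf
    · exfalso
      rw [hf, coeff_C, if_neg one_ne_zero] at hq1
      exact hg hq1.symm
  have hainj : Function.Injective (algebraMap (PowerSeries ℚ_[p]) (EE p)) :=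
    IsFractionRing.injective _ _
  set Φ : ℚ_[p][X] →+* EE p := (algebraMap (PowerSeries ℚ_[p]) (EE p)).comp ψ with hΦ
  have hΦf : ∀ f, Φ f = algebraMap (PowerSeries ℚ_[p]) (EE p) (ψ f) := fun f => rfl
  have hDX : D (Φ X) = 1 := by
    rw [hΦf, hD, hψX, map_add, PowerSeries.derivative_C, zero_add, Derivation.leibniz,
      PowerSeries.derivative_C, PowerSeries.derivative_X, smul_zero, add_zero, smul_eq_mul, mul_one,
      ← map_mul, inv_mul_cancel₀ hg, map_one, map_one]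
  have hDC : ∀ c : ℚ_[p], D (Φ (C c)) = 0 := by
    intro c
    rw [hΦf, hD, hψC, PowerSeries.derivative_C, mul_zero, map_zero]
  obtain ⟨k, hk, φ, hφ, hφΦ⟩ := edf_subfield D Φ (hainj.comp hψinj) hDX hDC
  obtain ⟨ι, e1, e2⟩ := edf_ext h0 hφ (algebraMap ℚ ℚ_[p])
  refine ⟨k, hk, φ, ι, hφ, e1, fun f => ?_, fun x => ?_, fun c => ?_⟩
  · rw [hφΦ]
    have h2 : (Φ.comp (mapRingHom (PadicInt.Coe.ringHom (p := p)))) =
        ((jE p).comp rs).comp tay := by
      apply Polynomial.ringHom_ext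
      · intro x
        show Φ ((C x).map (PadicInt.Coe.ringHom (p := p))) = jE p (rs (tay (C x)))
        rw [map_C, hΦf, hψC]
        show _ = algebraMap _ _ (PowerSeries.map (PadicInt.Coe.ringHom (p := p)) (rs (tay (C x))))
        congr 1
        ext n
        rw [PowerSeries.coeff_map]
        show _ = ((PowerSeries.coeff n (rs (tay (C x))) : ℤ_[p]) : ℚ_[p])
        rw [rsc, tC, PowerSeries.coeff_C]
        split_ifs with hn
        · rw [hn, pow_zero, mul_one]
          rw [PowerSeries.coeff_C, if_pos rfl]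
          rfl
        · rw [PowerSeries.coeff_C, if_neg hn, zero_mul]
      · show Φ (X.map (PadicInt.Coe.ringHom (p := p))) = jE p (rs (tay X))
        rw [map_X, hΦf, hψX]
        show _ = algebraMap _ _ (PowerSeries.map (PadicInt.Coe.ringHom (p := p)) (rs (tay X)))
        congr 1
        ext n
        rw [PowerSeries.coeff_map]
        show _ = ((PowerSeries.coeff n (rs (tay X)) : ℤ_[p]) : ℚ_[p])
        rw [rsc, tX, map_add, map_add, PowerSeries.coeff_C, PowerSeries.coeff_C_mul,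
          PowerSeries.coeff_X]
        rcases n with _ | _ | n
        · simp
        · simp
        · simp
    exact congrArg (fun s : ℤ_[p][X] →+* EE p => s f) h2
  · rw [e2, resD_coe]
  · rw [hφΦ, hΦf, hψC]
    rfl

end Pool.Agent.Lib.MP_3550b5_nt.SV
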