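import Mathlib
import Pool.Agent.Lib.MP_3550b5_nt.SV.Cmp
import Pool.Agent.Lib.MP_3550b5_nt.SV.Base

/-!
Project SV, part E: `k1`, `g1` along a section and the value of `W` (used in `ESec`).
-/

namespace Pool.Agent.Lib.MP_3550b5_nt.SV

open PowerSeries

section Alg

variable {F : Type*} [Field F] [CharZero F] (D : Derivation ℤ F F)

theorem esecK_kg {A B K G H : F} (h3 : 3 * H = 1) (hA : D A = 4 * G * A + 6 * K * B)
    (hB : D B = 6 * G * B - 4 * H * K * A ^ 2) (hd : 4 * A ^ 3 + 27 * B ^ 2 ≠ 0) :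
    k1 D A B = K ∧ g1 D A B = G := by
  have hw : 3 * wr D A B = 2 * (4 * A ^ 3 + 27 * B ^ 2) * K := by
    unfold wr
    rw [hA, hB]
    linear_combination 8 * K * A ^ 3 * h3
  have h4 : D (4 : F) = 0 := D.map_natCast 4
  have h27 : D (27 : F) = 0 := D.map_natCast 27
  have hdl : D (dl A B) = 12 * (4 * A ^ 3 + 27 * B ^ 2) * G := by
    unfold dl
    simp only [map_add, Derivation.leibniz, Derivation.leibniz_pow, smul_eq_mul, h4, h27, hA, hB,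
      nsmul_eq_mul]
    push_cast
    linear_combination -72 * K * A ^ 2 * B * h3
  constructor
  · unfold k1 dl
    rw [hw]
    field_simp
  · unfold g1
    rw [hdl]
    unfold dl
    field_simp

end Alg

variable {p : ℕ} [hp : Fact p.Prime]

theorem esecK_D {g0 : ℤ_[p]} (hg0 : g0 ≠ 0) {rs : Hz p →+* ℤ_[p]⟦X⟧}
    (hrs : ∀ f, derivative ℤ_[p] (rs f) = C g0 * rs (dH p f)) {D : Dr (EE p)}
    (hD : ∀ f : ℤ_[p]⟦X⟧, jE p (C g0) * D (jE p f) = jE p (derivative ℤ_[p] f)) (f : Hz p) :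
    D (jE p (rs f)) = jE p (rs (dH p f)) := by
  have h0 : jE p (C g0) ≠ 0 := by
    intro h
    rw [← map_zero (jE p)] at h
    have h1 := jE_inj h
    rw [← map_zero (C (R := ℤ_[p]))] at h1
    exact hg0 (C_injective h1)
  refine mul_left_cancel₀ h0 ?_
  rw [hD, hrs, map_mul]

/-- Uniqueness of the solution of `w = 1 + a T^4 w^2 + b T^6 w^3` if `T` is divisible by `p`. -/
theorem esecK_uniq {a b T w w' : ℤ_[p]⟦X⟧} (hT : C (p : ℤ_[p]) ∣ T)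
    (h : w = 1 + a * T ^ 4 * w ^ 2 + b * T ^ 6 * w ^ 3)
    (h' : w' = 1 + a * T ^ 4 * w' ^ 2 + b * T ^ 6 * w' ^ 3) : w = w' := by
  have h1 : (w - w') * (1 - T * (a * T ^ 3 * (w + w') + b * T ^ 5 * (w ^ 2 + w * w' + w' ^ 2))) =
      0 := by
    linear_combination h - h'
  rcases mul_eq_zero.1 h1 with h2 | h2
  · exact sub_eq_zero.1 h2
  · exfalso
    have h3 : IsUnit T := IsUnit.of_mul_eq_one _ (sub_eq_zero.1 h2).symm
    have h4 : IsUnit (C (p : ℤ_[p])) := isUnit_of_dvd_unit hT h3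
    have h5 : IsUnit (p : ℤ_[p]) := by
      have := h4.map (constantCoeff (R := ℤ_[p]))
      rwa [constantCoeff_C] at this
    exact PadicInt.p_nonunit h5

theorem esecK_W {rs : Hz p →+* ℤ_[p]⟦X⟧} {a b : Hz p} {W V : (Hz p)⟦X⟧}
    (hW : W = 1 + C a * X ^ 4 * W ^ 2 + C b * X ^ 6 * W ^ 3) (hV : W * V = 1)
    {x y v xi yi : ℤ_[p]⟦X⟧} (heq : y ^ 2 = x ^ 3 + rs a * x * v ^ 4 + rs b * v ^ 6)
    (hx : x * xi = 1) (hy : y * yi = 1) (hv : C (p : ℤ_[p]) ∣ v)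
    {cmp : ℤ_[p]⟦X⟧⟦X⟧ →+* ℤ_[p]⟦X⟧} (h1 : ∀ f, cmp (C f) = f)
    (h2 : cmp X = -(x * v * yi)) :
    cmp (W.map rs) = y ^ 2 * xi ^ 3 ∧ cmp (V.map rs) = x ^ 3 * yi ^ 2 := by
  have hT : C (p : ℤ_[p]) ∣ -(x * v * yi) := by
    rw [dvd_neg]
    exact dvd_mul_of_dvd_left (dvd_mul_of_dvd_right hv x) yi
  have e1 : cmp (W.map rs) = 1 + rs a * (-(x * v * yi)) ^ 4 * cmp (W.map rs) ^ 2 +
      rs b * (-(x * v * yi)) ^ 6 * cmp (W.map rs) ^ 3 := by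
    have h := congrArg (fun f => cmp (PowerSeries.map rs f)) hW
    simp only [map_add, map_mul, map_pow, map_one, PowerSeries.map_C, PowerSeries.map_X, h1, h2] at h
    exact h
  have e2 : y ^ 2 * xi ^ 3 = 1 + rs a * (-(x * v * yi)) ^ 4 * (y ^ 2 * xi ^ 3) ^ 2 +
      rs b * (-(x * v * yi)) ^ 6 * (y ^ 2 * xi ^ 3) ^ 3 := by
    have f1 : (-(x * v * yi)) ^ 4 * (y ^ 2 * xi ^ 3) ^ 2 = v ^ 4 * xi ^ 2 * (x * xi) ^ 4 * (y * yi) ^ 4 := by
      ring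
    have f2 : (-(x * v * yi)) ^ 6 * (y ^ 2 * xi ^ 3) ^ 3 = v ^ 6 * xi ^ 3 * (x * xi) ^ 6 * (y * yi) ^ 6 := by
      ring
    rw [mul_assoc (rs a), mul_assoc (rs b), f1, f2, hx, hy, heq]
    simp only [one_pow, mul_one]
    have f3 : x ^ 3 * xi ^ 3 = 1 := by rw [← mul_pow, hx, one_pow]
    linear_combination f3 + rs a * v ^ 4 * xi ^ 2 * hx
  have hw := esecK_uniq hT e1 e2
  refine ⟨hw, ?_⟩
  have h3 : cmp (W.map rs) * cmp (V.map rs) = 1 := by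
    rw [← map_mul, ← map_mul, hV, map_one, map_one]
  rw [hw] at h3
  have f4 : (x ^ 3 * yi ^ 2) * (y ^ 2 * xi ^ 3) = 1 := by
    have : (x ^ 3 * yi ^ 2) * (y ^ 2 * xi ^ 3) = (x * xi) ^ 3 * (y * yi) ^ 2 := by ring
    rw [this, hx, hy]
    ring
  linear_combination (x ^ 3 * yi ^ 2) * h3 - cmp (V.map rs) * f4

end Pool.Agent.Lib.MP_3550b5_nt.SV
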