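import Mathlib
import Pool.Agent.Lib.MP_3550b5_nt.SV.Cmp

/-!
Project SV, part E: auxiliary lemmas for the sigma function along a section (chain rule in `EE p`,
series which are constant modulo `p`, logarithms). Proofs: see the docstrings.
-/

namespace Pool.Agent.Lib.MP_3550b5_nt.SV

open PowerSeries

variable {p : ℕ} [hp : Fact p.Prime]

/-- The product rule (with the instance fixed by `Dr`). -/
theorem sx_leib {R : Type*} [CommRing R] (D : Dr R) (a b : R) : D (a * b) = a * D b + b * D a := by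
  rw [Derivation.leibniz, smul_eq_mul, smul_eq_mul]

/-- The chain rule of `cmp_rs` in the field `EE p`, divided by `g0`. -/
theorem sx_chain {g0 : ℤ_[p]} (hg0 : g0 ≠ 0) {rs : Hz p →+* ℤ_[p]⟦X⟧}
    (hrs : ∀ f, derivative ℤ_[p] (rs f) = C g0 * rs (dH p f)) {D : Dr (EE p)}
    (hD : ∀ f : ℤ_[p]⟦X⟧, jE p (C g0) * D (jE p f) = jE p (derivative ℤ_[p] f))
    {T : ℤ_[p]⟦X⟧} {cmp : ℤ_[p]⟦X⟧⟦X⟧ →+* ℤ_[p]⟦X⟧} (h1 : ∀ f, cmp (C f) = f)
    (h3 : ∀ F, derivative ℤ_[p] (cmp F) =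
      cmp (cD (ds p) F) + cmp (derivative _ F) * derivative ℤ_[p] T) (F : (Hz p)⟦X⟧) :
    D (jE p (cmp (F.map rs))) = jE p (cmp ((cD (dH p) F).map rs)) +
      jE p (cmp ((derivative _ F).map rs)) * D (jE p T) := by
  have hne : jE p (C g0) ≠ 0 := by
    rw [Ne, map_eq_zero_iff _ jE_inj]
    intro h
    exact hg0 (by simpa using congrArg constantCoeff h)
  refine mul_left_cancel₀ hne ?_
  rw [hD, cmp_rs h1 h3 hrs, map_add, map_mul, map_mul, ← hD T]
  ring

/-- The derivation `D` on quotients: logarithmic derivatives. -/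
theorem sx_log {g0 : ℤ_[p]} (hg0 : g0 ≠ 0) {D : Dr (EE p)}
    (hD : ∀ f : ℤ_[p]⟦X⟧, jE p (C g0) * D (jE p f) = jE p (derivative ℤ_[p] f))
    {L u : ℤ_[p]⟦X⟧} (h : derivative ℤ_[p] L * u = derivative ℤ_[p] u) :
    D (jE p L) * jE p u = D (jE p u) := by
  have hne : jE p (C g0) ≠ 0 := by
    rw [Ne, map_eq_zero_iff _ jE_inj]
    intro h
    exact hg0 (by simpa using congrArg constantCoeff h)
  refine mul_left_cancel₀ hne ?_
  rw [← mul_assoc, hD, hD, ← map_mul, h]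

private lemma sx_const {x : ℤ_[p]⟦X⟧} (x1 : ∀ n, 1 ≤ n → (p : ℤ_[p]) ∣ coeff n x) :
    ∃ q : ℤ_[p]⟦X⟧, x = C (constantCoeff x) + C (p : ℤ_[p]) * q := by
  choose q hq using x1
  refine ⟨PowerSeries.mk fun n => if h : 1 ≤ n then q n h else 0, ?_⟩
  ext n
  rw [map_add, coeff_C_mul, coeff_mk, coeff_C]
  rcases Nat.eq_zero_or_pos n with rfl | hn
  · simp
  · rw [if_neg hn.ne', dif_pos (show 1 ≤ n from hn), zero_add]
    exact hq n hn

private lemma sx_inv {y yi : ℤ_[p]⟦X⟧} (hy : y * yi = 1)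
    (y1 : ∀ n, 1 ≤ n → (p : ℤ_[p]) ∣ coeff n y) :
    ∃ q : ℤ_[p]⟦X⟧, yi = C (constantCoeff yi) + C (p : ℤ_[p]) * q := by
  obtain ⟨q, hq⟩ := sx_const y1
  have h0 : C (constantCoeff y) * C (constantCoeff yi) = (1 : ℤ_[p]⟦X⟧) := by
    rw [← map_mul, ← map_mul, hy, map_one, map_one]
  refine ⟨-(C (constantCoeff yi) * q * yi), ?_⟩
  have h1 : (C (constantCoeff y) + C (p : ℤ_[p]) * q) * yi = 1 := by
    rw [← hq, hy]
  linear_combination (-yi) * h0 + C (constantCoeff yi) * h1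

/-- The unit of the section is constant modulo `p`. -/
theorem sx_unit {x xi y yi m q : ℤ_[p]⟦X⟧} (hx : x * xi = 1) (hy : y * yi = 1)
    (x1 : ∀ n, 1 ≤ n → (p : ℤ_[p]) ∣ coeff n x) (y1 : ∀ n, 1 ≤ n → (p : ℤ_[p]) ∣ coeff n y)
    (hm : m = 1 + C (p : ℤ_[p]) * q) :
    IsUnit (constantCoeff (-(x * yi) * m)) ∧
      ∀ n, 1 ≤ n → (p : ℤ_[p]) ∣ coeff n (-(x * yi) * m) := by
  constructor
  · rw [map_mul, map_neg, map_mul, hm, map_add, map_mul, map_one]
    refine IsUnit.mul (IsUnit.neg (IsUnit.mul ?_ ?_)) ?_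
    · exact IsUnit.of_mul_eq_one (constantCoeff xi) (by rw [← map_mul, hx, map_one])
    · exact IsUnit.of_mul_eq_one (constantCoeff y) (by rw [← map_mul, mul_comm, hy, map_one])
    · have h1 : constantCoeff (C (p : ℤ_[p])) * constantCoeff q = (p : ℤ_[p]) * constantCoeff q := by
        simp
      rw [h1]
      have h2 := IsLocalRing.isUnit_one_sub_self_of_mem_nonunits
        (-((p : ℤ_[p]) * constantCoeff q)) (by
          rw [PadicInt.mem_nonunits, norm_neg, norm_mul]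
          calc ‖(p : ℤ_[p])‖ * ‖constantCoeff q‖ ≤ ‖(p : ℤ_[p])‖ * 1 :=
                mul_le_mul_of_nonneg_left (PadicInt.norm_le_one _) (norm_nonneg _)
            _ < 1 := by
                rw [mul_one]
                rw [PadicInt.norm_p]
                exact inv_p_lt_one)
      rwa [sub_neg_eq_add] at h2
  · obtain ⟨g, hg⟩ := sx_const x1
    obtain ⟨h, hh⟩ := sx_inv hy y1
    have key : ∃ G : ℤ_[p]⟦X⟧, -(x * yi) * m =
        C (-(constantCoeff x * constantCoeff yi)) + C (p : ℤ_[p]) * G := by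
      refine ⟨-(C (constantCoeff x) * h + g * C (constantCoeff yi) + C (p : ℤ_[p]) * g * h +
        x * yi * q), ?_⟩
      rw [map_neg, map_mul, hm]
      have e1 : x * yi = (C (constantCoeff x) + C (p : ℤ_[p]) * g) *
          (C (constantCoeff yi) + C (p : ℤ_[p]) * h) := by
        rw [← hg, ← hh]
      linear_combination (-1 : ℤ_[p]⟦X⟧) * e1
    obtain ⟨G, hG⟩ := key
    intro n hn
    rw [hG, map_add, coeff_C_mul, coeff_C, if_neg (by omega), zero_add]
    exact dvd_mul_right _ _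

end Pool.Agent.Lib.MP_3550b5_nt.SV
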