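import Mathlib
import Pool.Agent.Lib.MP_3550b5_nt.SV.Cmp
import Pool.Agent.Lib.MP_3550b5_nt.SV.ESecX
import Pool.Agent.Lib.MP_3550b5_nt.SV.Base
import Pool.Agent.Lib.MP_3550b5_nt.SV.ESecK

/-!
Project SV, part E: the sigma function along a section.
-/

namespace Pool.Agent.Lib.MP_3550b5_nt.SV

section Alg

variable {F : Type*} [Field F] [CharZero F] (D : Derivation ℤ F F)
  {a b x y T V W Vt VT Om Te k g c Z Zc ZT o M Mc MT R : F}

/-- `om = Om0 + Om_T T'`, where `Te = T Om0`. (`D x = Vt/T^2 + (VT/T^2 - 2V/T^3) D T`.) -/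
theorem alg_om (hk : k = k1 D a b) (hg : g = g1 D a b) (hT : T ≠ 0) (hV : W * V = 1)
    (hx : x = V / T ^ 2) (hy : y = -(V / T ^ 3)) (hDV : D V = Vt + VT * D T)
    (hOm : 2 * Om = 2 - T * VT * W)
    (hTe : Te = k * V + g * T ^ 2 - T ^ 2 * W * Vt / 2 + 2 / 3 * k * a * T ^ 4 * W) :
    om D a b x y = Te / T + Om * D T := by
  have hV0 : V ≠ 0 := by
    rintro rfl
    rw [mul_zero] at hV
    exact zero_ne_one hV
  have hx' : T ^ 2 * x = V := by
    rw [hx]
    field_simp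
  have hX : T ^ 2 * D x = Vt + VT * D T - 2 * T * x * D T := by
    have h1 := congrArg D hx'
    rw [D.leibniz, D.leibniz_pow, hDV] at h1
    simp only [smul_eq_mul, nsmul_eq_mul, Nat.cast_ofNat, Nat.add_one_sub_one, pow_one] at h1
    linear_combination h1
  have hy' : -(T ^ 3 * W / 2) * (2 * y) = 1 := by
    rw [hy]
    field_simp
    linear_combination hV
  have hy0 : 2 * y ≠ 0 := by
    intro h
    rw [h, mul_zero] at hy'
    exact zero_ne_one hy'
  have key : -(T ^ 4 * W / 2) * (D x - 2 * k * x ^ 2 - 2 * g * x - 4 * k * a / 3) =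
      Te + T * Om * D T := by
    linear_combination (-(T ^ 2 * W / 2)) * hX + (k * W * (T ^ 2 * x + V) + g * W * T ^ 2 +
      T * W * D T) * hx' + (k * V + g * T ^ 2 + T * D T) * hV - T * D T / 2 * hOm - hTe
  rw [om, ← hk, ← hg, div_eq_iff hy0]
  have h2 : (Te / T + Om * D T) * T = Te + T * Om * D T := by
    field_simp
  have h3 : (D x - 2 * k * x ^ 2 - 2 * g * x - 4 * k * a / 3) * T =
      (Te / T + Om * D T) * (2 * y) * T := by
    linear_combination (-(D x - 2 * k * x ^ 2 - 2 * g * x - 4 * k * a / 3) * T) * hy' +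
      2 * y * key - 2 * y * h2
  exact mul_right_cancel₀ hT h3

/-- (E1). -/
theorem alg_Z (hT : T ≠ 0) (hV : W * V = 1) (hx : x = V / T ^ 2) (hy : y = -(V / T ^ 3))
    (ho : o = Te / T + Om * D T) (hDZ : D Z = Zc + ZT * D T)
    (hN : T ^ 3 * (Zc - (k * c + g) * Z) = (k * c + g) * T ^ 2 - (V + c * T ^ 2) * Te + k * V)
    (E2 : T ^ 2 * W * ZT = W - Om - c * T ^ 2 * W * Om) :
    D (1 / T + Z) = (k * c + g) * (1 / T + Z) - (x + c) * o - k * y := by
  have h1 : D (1 / T) = -(D T / T ^ 2) := by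
    have h2 : T * (1 / T) = 1 := by
      field_simp
    have h3 := congrArg D h2
    rw [D.leibniz, D.map_one_eq_zero] at h3
    simp only [smul_eq_mul] at h3
    have h4 : D (1 / T) * T = -(D T / T ^ 2) * T := by
      have h5 : D T / T ^ 2 * T = 1 / T * D T := by
        field_simp
      linear_combination h3 + h5
    exact mul_right_cancel₀ hT h4
  have hx' : T ^ 2 * x = V := by
    rw [hx]
    field_simp
  have hy' : T ^ 3 * y = -V := by
    rw [hy]
    field_simp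
  have h6 : T ^ 2 * ZT = 1 - V * Om - c * T ^ 2 * Om := by
    linear_combination V * E2 + (1 - c * T ^ 2 * Om - T ^ 2 * ZT) * hV
  rw [map_add, h1, hDZ, ho]
  have h7 : T ^ 3 * (-(D T / T ^ 2) + (Zc + ZT * D T)) = T ^ 3 * ((k * c + g) * (1 / T + Z) -
      (x + c) * (Te / T + Om * D T) - k * y) := by
    have e1 : T ^ 3 * (-(D T / T ^ 2) + (Zc + ZT * D T)) =
        -(T * D T) + T ^ 3 * (Zc + ZT * D T) := by
      field_simp
    have e2 : T ^ 3 * ((k * c + g) * (1 / T + Z) - (x + c) * (Te / T + Om * D T) - k * y) =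
        (k * c + g) * (T ^ 2 + T ^ 3 * Z) - (x + c) * (T ^ 2 * Te + T ^ 3 * (Om * D T)) -
          k * (T ^ 3 * y) := by
      field_simp
    rw [e1, e2]
    linear_combination hN + T * D T * h6 + (Te + T * (Om * D T)) * hx' + k * hy'
  exact mul_left_cancel₀ (pow_ne_zero 3 hT) h7

/-- (E2). -/
theorem alg_M (hT : T ≠ 0) (hM : M ≠ 0) (hx : x = V / T ^ 2)
    (ho : o = Te / T + Om * D T) (hDM : D M = M * R + MT * D T)
    (hR : T ^ 2 * R = -(k / 2 * (1 + T * Z) ^ 2) + Te * (1 + T * Z) - k / 2 * V - g * T ^ 2)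
    (E1 : T * Om * M * Z = M - Om * M + T * MT) :
    D (T * M) / (T * M) = -(k * (1 / T + Z) ^ 2 / 2) + o * (1 / T + Z) - k * x / 2 - g := by
  have hx' : T ^ 2 * x = V := by
    rw [hx]
    field_simp
  rw [div_eq_iff (mul_ne_zero hT hM), D.leibniz, hDM, ho, smul_eq_mul, smul_eq_mul]
  have h1 : T * (T * (M * R + MT * D T) + M * D T) =
      T * ((-(k * (1 / T + Z) ^ 2 / 2) + (Te / T + Om * D T) * (1 / T + Z) - k * x / 2 - g) *
        (T * M)) := by
    have e1 : T * ((-(k * (1 / T + Z) ^ 2 / 2) + (Te / T + Om * D T) * (1 / T + Z) - k * x / 2 - g) *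
        (T * M)) = M * (-(k * (1 + T * Z) ^ 2 / 2) + (Te + T * (Om * D T)) * (1 + T * Z) -
          k * (T ^ 2 * x) / 2 - g * T ^ 2) := by
      field_simp
    rw [e1]
    linear_combination M * hR - T * D T * E1 + M * k / 2 * hx'
  exact mul_left_cancel₀ hT h1

/-- `W = Z - om / k1`: its equation (definition of `tau`). -/
theorem alg_W (hk : k = k1 D a b) (hg : g = g1 D a b) (hk0 : k ≠ 0)
    (hZ : D Z = (k * c + g) * Z - (x + c) * om D a b x y - k * y) :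
    D (Z - om D a b x y / k) = (k * c + g) * (Z - om D a b x y / k) + tau D a b x y := by
  rw [tau, ← hk, ← hg, map_sub, hZ]
  have h1 : k * (om D a b x y / k) = om D a b x y := by
    field_simp
  linear_combination c * h1

/-- Completing the square. -/
theorem alg_L (hk0 : k ≠ 0) :
    -(k * Z ^ 2 / 2) + o * Z - k * x / 2 - g =
      -(k * (Z - o / k) ^ 2 / 2) + (o ^ 2 / (2 * k) - k * x / 2 - g) := by
  field_simp
  ring

end Alg

open PowerSeries

variable {p : ℕ} [hp : Fact p.Prime]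

/-- The result of the deformation (`deform`) over the Hurwitz series. -/
structure Dfm (a b c k g h2 h3 : Hz p) (W V Om S Z N R : (Hz p)⟦X⟧) : Prop where
  dr : DR (dH p) a b k g h2 h3
  sd : SD a b c W V Om S Z
  ric : dH p c = k * c ^ 2 + 2 * g * c - h3 * k * a
  hN : X ^ 3 * (X * N) = C (k * c + g) * X ^ 2 -
    (V + C c * X ^ 2) * TT (dH p) a k g h2 h3 W V + C k * V
  hZ : cD (dH p) Z = C (k * c + g) * Z + X * N
  hR : X ^ 2 * (X ^ 2 * R) = -(C (h2 * k) * (1 + X * Z) ^ 2) +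
    TT (dH p) a k g h2 h3 W V * (1 + X * Z) - C (h2 * k) * V - C g * X ^ 2
  hS : cD (dH p) S = S * (X ^ 2 * R)

/-- A section over `ℤ_[p]⟦s⟧` which reduces to the origin. -/
structure Sc (a b x y v xi yi : ℤ_[p]⟦X⟧) : Prop where
  eqn : y ^ 2 = x ^ 3 + a * x * v ^ 4 + b * v ^ 6
  hx : x * xi = 1
  hy : y * yi = 1
  hv : C (p : ℤ_[p]) ∣ v
  v_ne : v ≠ 0
  x1 : ∀ n, 1 ≤ n → (p : ℤ_[p]) ∣ coeff n x
  y1 : ∀ n, 1 ≤ n → (p : ℤ_[p]) ∣ coeff n y

/-- `k1`, `g1` in the field `EE p`. PROOF. `DR`: `3 b D a - 2 a D b = (2/3) k (4 a^3 + 27 b^2)` and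
`D dl = 12 g dl`. `D (jE (rs f)) = jE (rs (dH f))` (cancel `jE (C g0) ≠ 0`). -/
theorem sec_kg {g0 : ℤ_[p]} (hg0 : g0 ≠ 0) {rs : Hz p →+* ℤ_[p]⟦X⟧}
    (hrs : ∀ f, derivative ℤ_[p] (rs f) = C g0 * rs (dH p f)) {D : Dr (EE p)}
    (hD : ∀ f : ℤ_[p]⟦X⟧, jE p (C g0) * D (jE p f) = jE p (derivative ℤ_[p] f))
    {a b k g h2 h3 : Hz p} (hd : DR (dH p) a b k g h2 h3)
    (hΔ : 4 * rs a ^ 3 + 27 * rs b ^ 2 ≠ 0) :
    (∀ f, D (jE p (rs f)) = jE p (rs (dH p f))) ∧
      k1 D (jE p (rs a)) (jE p (rs b)) = jE p (rs k) ∧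
      g1 D (jE p (rs a)) (jE p (rs b)) = jE p (rs g) := by
  have hDr := esecK_D hg0 hrs hD
  refine ⟨hDr, esecK_kg D (H := jE p (rs h3)) ?_ ?_ ?_ ?_⟩
  · have h := congrArg (fun f => jE p (rs f)) hd.three
    simp only [map_mul, map_one, map_ofNat] at h
    exact h
  · rw [hDr, hd.Da]
    simp only [map_add, map_mul, map_ofNat]
  · rw [hDr, hd.Db]
    simp only [map_sub, map_mul, map_ofNat, map_pow]
  · intro h
    apply hΔ
    apply jE_inj (p := p)
    rw [map_zero, ← h]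
    simp only [map_add, map_mul, map_ofNat, map_pow]

/-- `cmp W = y^2 / x^3`. PROOF. Both sides are solutions of `w = 1 + a T^4 w^2 + b T^6 w^3`,
`T = -x v / y`; the difference times `1 - a T^4 (w + w') - b T^6 (w^2 + w w' + w'^2)` vanishes, and
this factor is `1` modulo `p`, hence not `0`. -/
theorem sec_W {rs : Hz p →+* ℤ_[p]⟦X⟧} {a b : Hz p} {W V : (Hz p)⟦X⟧}
    (hW : W = 1 + C a * X ^ 4 * W ^ 2 + C b * X ^ 6 * W ^ 3) (hV : W * V = 1)
    {x y v xi yi : ℤ_[p]⟦X⟧} (hs : Sc (rs a) (rs b) x y v xi yi)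
    {cmp : ℤ_[p]⟦X⟧⟦X⟧ →+* ℤ_[p]⟦X⟧} (h1 : ∀ f, cmp (C f) = f)
    (h2 : cmp X = -(x * v * yi)) :
    cmp (W.map rs) = y ^ 2 * xi ^ 3 ∧ cmp (V.map rs) = x ^ 3 * yi ^ 2 :=
  esecK_W hW hV hs.eqn hs.hx hs.hy hs.hv h1 h2

/-- THE SIGMA FUNCTION ALONG A SECTION. PROOF. `T₀ = -(x v yi)` is divisible by `p`; `exists_cmp`,
`cmp_rs`. In `EE p` put `T = jE T₀ ≠ 0`, `V = jE (cmp V)`, ... (all the data of `Dfm` mapped by `rs`,
`cmp`, `jE`); `x/v^2 = V/T^2`, `y/v^3 = -V/T^3` by `sec_W`. The chain rule `cmp_rs` gives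
`D (jE (cmp F)) = jE (cmp ((cD F).map rs)) + jE (cmp (F_T.map rs)) D T` (divide by `g0`). So
`alg_om`, `alg_Z`, `alg_M`, `alg_W`, `alg_L` apply, with `M = jE (cmp S)`. The power series
`u = -(x yi) cmp S` has unit constant coefficient and its other coefficients are divisible by `p`
(`cmp S = 1` modulo `p`: `S = 1 + T (..)`), `exists_logu` gives `L`, `D (jE L) = D u / u`, and
`jE u = T M / v` with `v = jE v`, so `D u / u = D (T M) / (T M) - D v / v`. The values: `exists_cmp`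
(evaluation), `ev_mul`. -/
theorem sec_main (hp5 : 5 ≤ p) {g0 : ℤ_[p]} (hg0 : g0 ≠ 0) {rs : Hz p →+* ℤ_[p]⟦X⟧}
    (hrs : ∀ f, derivative ℤ_[p] (rs f) = C g0 * rs (dH p f)) {D : Dr (EE p)}
    (hD : ∀ f : ℤ_[p]⟦X⟧, jE p (C g0) * D (jE p f) = jE p (derivative ℤ_[p] f))
    {a b c k g h2 h3 : Hz p} {W V Om S Z N R : (Hz p)⟦X⟧}
    (hd : Dfm a b c k g h2 h3 W V Om S Z N R) (hΔ : 4 * rs a ^ 3 + 27 * rs b ^ 2 ≠ 0)
    (hk : rs k ≠ 0) {x y v xi yi : ℤ_[p]⟦X⟧} (hs : Sc (rs a) (rs b) x y v xi yi) :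
    ∃ (L : ℤ_[p]⟦X⟧) (Wp : EE p),
      D Wp = (jE p (rs k) * jE p (rs c) + jE p (rs g)) * Wp +
        tau D (jE p (rs a)) (jE p (rs b)) (jE p x / jE p v ^ 2) (jE p y / jE p v ^ 3) ∧
      D (jE p L) = -(jE p (rs k) * Wp ^ 2 / 2) +
        (om D (jE p (rs a)) (jE p (rs b)) (jE p x / jE p v ^ 2) (jE p y / jE p v ^ 3) ^ 2 /
          (2 * jE p (rs k)) - jE p (rs k) * (jE p x / jE p v ^ 2) / 2 - jE p (rs g) -
          D (jE p v) / jE p v) ∧
      ∀ (s : ℤ_[p]) (e : ℤ_[p]⟦X⟧ →+* ℤ_[p]), ‖s‖ < 1 → (∀ f, e f = ev f s) →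
        ((ev L s : ℤ_[p]) : ℚ_[p]) = ulog (-(ev x s * ev yi s *
          ev ((S.map rs).map e) (-(ev x s * ev v s * ev yi s)))) := by
  classical
  have hp3 : 3 ≤ p := by omega
  obtain ⟨hDrs, hk1, hg1⟩ := sec_kg hg0 hrs hD hd.dr hΔ
  obtain ⟨v', hv'⟩ := hs.hv
  have hT : C (p : ℤ_[p]) ∣ -(x * v * yi) := ⟨-(x * v' * yi), by rw [hv']; ring⟩
  obtain ⟨cmp, hc1, hc2, hc3, hc4⟩ := exists_cmp hT
  obtain ⟨hWc, hVc⟩ := sec_W hd.sd.hW hd.sd.hV hs hc1 hc2
  -- the ring homomorphism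
  obtain ⟨φ, hφ⟩ : ∃ φ : (Hz p)⟦X⟧ →+* EE p, ∀ F, φ F = jE p (cmp (F.map rs)) :=
    ⟨(jE p).comp (cmp.comp (PowerSeries.map rs)), fun _ => rfl⟩
  have hφC : ∀ f, φ (C f) = jE p (rs f) := by
    intro f
    rw [hφ, map_C, hc1]
  have hφX : φ X = jE p (-(x * v * yi)) := by
    rw [hφ, map_X, hc2]
  have chain : ∀ F, D (φ F) = φ (cD (dH p) F) + φ (derivative _ F) * D (φ X) := by
    intro F
    rw [hφ, hφ, hφ, hφX]
    exact sx_chain hg0 hrs hD hc1 hc3 F
  -- nonzero elements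
  have hx0 : jE p x ≠ 0 := by
    intro h
    have h5 := congrArg (jE p) hs.hx
    rw [map_mul, h, zero_mul, map_one] at h5
    exact zero_ne_one h5
  have hyi0 : jE p yi ≠ 0 := by
    intro h
    have h5 := congrArg (jE p) hs.hy
    rw [map_mul, h, mul_zero, map_one] at h5
    exact zero_ne_one h5
  have hyy : jE p y * jE p yi = 1 := by rw [← map_mul, hs.hy, map_one]
  have hv0 : jE p v ≠ 0 := by
    rw [Ne, map_eq_zero_iff _ jE_inj]
    exact hs.v_ne
  have hk0 : jE p (rs k) ≠ 0 := by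
    rw [Ne, map_eq_zero_iff _ jE_inj]
    exact hk
  have hTX : φ X = -(jE p x * jE p v * jE p yi) := by
    rw [hφX, map_neg, map_mul, map_mul]
  have hT0 : φ X ≠ 0 := by
    rw [hTX]
    exact neg_ne_zero.2 (mul_ne_zero (mul_ne_zero hx0 hv0) hyi0)
  have hVφ : φ V = jE p x ^ 3 * jE p yi ^ 2 := by
    rw [hφ, hVc, map_mul, map_pow, map_pow]
  have hxT : jE p x / jE p v ^ 2 = φ V / φ X ^ 2 := by
    rw [hVφ, hTX]
    field_simp
  have hyT : jE p y / jE p v ^ 3 = -(φ V / φ X ^ 3) := by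
    have h5 : jE p y = (jE p yi)⁻¹ := eq_inv_of_mul_eq_one_left hyy
    rw [hVφ, hTX, h5]
    field_simp
  have hWV : φ W * φ V = 1 := by rw [← map_mul, hd.sd.hV, map_one]
  obtain ⟨-, -, -, -, hVT⟩ := dW (D := dH p) hd.sd.hW hd.sd.hV
  have e2 : φ (C h2) = 1 / 2 := by
    have h5 := congrArg (fun z : Hz p => φ (C z)) hd.dr.two
    simp only [map_mul, map_one, map_ofNat] at h5
    linear_combination h5 / 2
  have e3 : φ (C h3) = 1 / 3 := by
    have h5 := congrArg (fun z : Hz p => φ (C z)) hd.dr.three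
    simp only [map_mul, map_one, map_ofNat] at h5
    linear_combination h5 / 3
  have hOm : 2 * φ Om = 2 - φ X * φ (derivative _ V) * φ W := by
    have h5 := congrArg φ hd.sd.hOm
    have h6 := congrArg φ hVT
    simp only [map_add, map_mul, map_neg, map_pow, map_ofNat] at h5 h6
    linear_combination φ V * h5 - (2 * φ Om - 2 + φ X * φ (derivative _ W) * φ V) * hWV +
      φ X * φ W * h6
  have hTe : φ (TT (dH p) a k g h2 h3 W V) = jE p (rs k) * φ V + jE p (rs g) * φ X ^ 2 -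
      φ X ^ 2 * φ W * φ (cD (dH p) V) / 2 +
      2 / 3 * jE p (rs k) * jE p (rs a) * φ X ^ 4 * φ W := by
    rw [TT]
    simp only [map_add, map_sub, map_mul, map_pow, map_ofNat]
    rw [e2, e3, hφC, hφC, hφC]
    ring
  have ho := alg_om D (a := jE p (rs a)) (b := jE p (rs b)) (x := jE p x / jE p v ^ 2)
    (y := jE p y / jE p v ^ 3) (T := φ X) (V := φ V) (W := φ W) (Vt := φ (cD (dH p) V))
    (VT := φ (derivative _ V)) (Om := φ Om) (Te := φ (TT (dH p) a k g h2 h3 W V))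
    (k := jE p (rs k)) (g := jE p (rs g)) hk1.symm hg1.symm hT0 hWV hxT hyT (chain V) hOm hTe
  -- the equation of `Z`
  have hN : φ X ^ 3 * (φ (cD (dH p) Z) - (jE p (rs k) * jE p (rs c) + jE p (rs g)) * φ Z) =
      (jE p (rs k) * jE p (rs c) + jE p (rs g)) * φ X ^ 2 -
        (φ V + jE p (rs c) * φ X ^ 2) * φ (TT (dH p) a k g h2 h3 W V) + jE p (rs k) * φ V := by
    have h5 := congrArg φ hd.hN
    have h6 := congrArg φ hd.hZ
    simp only [map_add, map_sub, map_mul, map_pow] at h5 h6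
    simp only [hφC] at h5 h6
    linear_combination h5 + φ X ^ 3 * h6
  have hE2 : φ X ^ 2 * φ W * φ (derivative _ Z) =
      φ W - φ Om - jE p (rs c) * φ X ^ 2 * φ W * φ Om := by
    have h5 := congrArg φ hd.sd.E2
    simp only [map_sub, map_mul, map_pow] at h5
    simp only [hφC] at h5
    exact h5
  have hZ := alg_Z D (x := jE p x / jE p v ^ 2) (y := jE p y / jE p v ^ 3) (T := φ X)
    (V := φ V) (W := φ W) (Om := φ Om) (Te := φ (TT (dH p) a k g h2 h3 W V))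
    (k := jE p (rs k)) (g := jE p (rs g)) (c := jE p (rs c)) (Z := φ Z)
    (Zc := φ (cD (dH p) Z)) (ZT := φ (derivative _ Z))
    (o := om D (jE p (rs a)) (jE p (rs b)) (jE p x / jE p v ^ 2) (jE p y / jE p v ^ 3))
    hT0 hWV hxT hyT ho (chain Z) hN hE2
  have hWp := alg_W D (a := jE p (rs a)) (b := jE p (rs b)) (x := jE p x / jE p v ^ 2)
    (y := jE p y / jE p v ^ 3) (k := jE p (rs k)) (g := jE p (rs g)) (c := jE p (rs c))
    (Z := 1 / φ X + φ Z) hk1.symm hg1.symm hk0 hZ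
  -- the series `S`
  obtain ⟨S1, hS1⟩ : X ∣ S - 1 := by
    rw [X_dvd_iff, map_sub, hd.sd.S0, map_one, sub_self]
  have hm : cmp (S.map rs) = 1 + C (p : ℤ_[p]) * (-(x * v' * yi) * cmp (S1.map rs)) := by
    have h5 : S = 1 + X * S1 := by rw [← hS1]; ring
    rw [h5, map_add, map_mul, map_X, map_one, map_add, map_mul, hc2, map_one, hv']
    ring
  obtain ⟨hu, hu1⟩ := sx_unit hs.hx hs.hy hs.x1 hs.y1 hm
  obtain ⟨L, hL1, hL2⟩ := exists_logu hp3 hu hu1
  have hju : jE p (-(x * yi) * cmp (S.map rs)) = -(jE p x * jE p yi) * φ S := by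
    rw [map_mul, map_neg, map_mul, hφ]
  have hu0 : jE p (-(x * yi) * cmp (S.map rs)) ≠ 0 := by
    rw [Ne, map_eq_zero_iff _ jE_inj]
    intro h
    rw [h, map_zero] at hu
    exact not_isUnit_zero hu
  have hM0 : φ S ≠ 0 := by
    intro h
    apply hu0
    rw [hju, h, mul_zero]
  have hDM : D (φ S) = φ S * φ (X ^ 2 * R) + φ (derivative _ S) * D (φ X) := by
    rw [chain, hd.hS, map_mul]
  have hR : φ X ^ 2 * φ (X ^ 2 * R) = -(jE p (rs k) / 2 * (1 + φ X * φ Z) ^ 2) +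
      φ (TT (dH p) a k g h2 h3 W V) * (1 + φ X * φ Z) - jE p (rs k) / 2 * φ V -
      jE p (rs g) * φ X ^ 2 := by
    have h5 := congrArg φ hd.hR
    simp only [map_add, map_sub, map_mul, map_pow, map_neg, map_one] at h5
    rw [e2, hφC, hφC] at h5
    rw [map_mul, map_pow]
    linear_combination h5
  have hE1 : φ X * φ Om * φ S * φ Z = φ S - φ Om * φ S + φ X * φ (derivative _ S) := by
    have h5 := congrArg φ hd.sd.E1
    simpa only [map_add, map_sub, map_mul] using h5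
  have hMM := alg_M D (x := jE p x / jE p v ^ 2) (T := φ X) (V := φ V) (Om := φ Om)
    (Te := φ (TT (dH p) a k g h2 h3 W V)) (k := jE p (rs k)) (g := jE p (rs g)) (Z := φ Z)
    (o := om D (jE p (rs a)) (jE p (rs b)) (jE p x / jE p v ^ 2) (jE p y / jE p v ^ 3))
    (M := φ S) (MT := φ (derivative _ S)) (R := φ (X ^ 2 * R)) hT0 hM0 hxT ho hDM hR hE1
  refine ⟨L, 1 / φ X + φ Z -
    om D (jE p (rs a)) (jE p (rs b)) (jE p x / jE p v ^ 2) (jE p y / jE p v ^ 3) /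
      jE p (rs k), hWp, ?_, ?_⟩
  · rw [alg_L hk0] at hMM
    have h5 := sx_log hg0 hD hL1
    have h6 : φ X * φ S = jE p v * jE p (-(x * yi) * cmp (S.map rs)) := by
      rw [hju, hTX]
      ring
    have h7 : D (φ X * φ S) = jE p v * D (jE p (-(x * yi) * cmp (S.map rs))) +
        jE p (-(x * yi) * cmp (S.map rs)) * D (jE p v) := by
      rw [h6, sx_leib]
    have h8 : D (jE p L) = D (φ X * φ S) / (φ X * φ S) - D (jE p v) / jE p v := by
      rw [h7, h6, ← h5]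
      field_simp
      ring
    rw [h8, hMM]
    ring
  · intro s e hs1 he
    rw [hL2 s hs1]
    have h5 : ev (-(x * yi) * cmp (S.map rs)) s = -(ev x s * ev yi s *
        ev ((S.map rs).map e) (-(ev x s * ev v s * ev yi s))) := by
      have h6 := hc4 (S.map rs) s e hs1 he
      have h7 : ev (-(x * v * yi)) s = -(ev x s * ev v s * ev yi s) := by
        rw [← he, ← he, ← he, ← he, map_neg, map_mul, map_mul]
      rw [h7] at h6
      rw [← h6, ← he, ← he, ← he, ← he, map_mul, map_neg, map_mul]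
      ring
    rw [h5]

end Pool.Agent.Lib.MP_3550b5_nt.SV
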