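import Mathlib
import Pool.Agent.Lib.MP_3550b5_nt.SV.ISub

/-!
Project SV, part I: the derivative of a polynomial in several elements, and THEOREM I5.
-/

namespace Pool.Agent.Lib.MP_3550b5_nt.SV

variable {E : Type*} [Field E] [CharZero E] {D : Derivation ℤ E E} {K L : Subfield E}

/-- The coefficientwise image. -/
private noncomputable def iostxC {n : ℕ} (d : L →+ L) (G : MvPolynomial (Fin n) L) :
    MvPolynomial (Fin n) L :=
  ∑ J ∈ G.support, MvPolynomial.monomial J (d (MvPolynomial.coeff J G))

omit [CharZero E] in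
private lemma iostx_coeff {n : ℕ} (d : L →+ L) (G : MvPolynomial (Fin n) L) (J : Fin n →₀ ℕ) :
    MvPolynomial.coeff J (iostxC d G) = d (MvPolynomial.coeff J G) := by
  classical
  unfold iostxC
  rw [MvPolynomial.coeff_sum]
  simp only [MvPolynomial.coeff_monomial]
  rw [Finset.sum_ite_eq']
  by_cases h : J ∈ G.support
  · rw [if_pos h]
  · rw [if_neg h, MvPolynomial.notMem_support_iff.1 h, map_zero]

omit [CharZero E] in
private lemma iostx_C {n : ℕ} (d : L →+ L) (a : L) :
    iostxC d (MvPolynomial.C a : MvPolynomial (Fin n) L) = MvPolynomial.C (d a) := by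
  classical
  ext1 J
  rw [iostx_coeff, MvPolynomial.coeff_C, MvPolynomial.coeff_C]
  split_ifs
  · rfl
  · rw [map_zero]

omit [CharZero E] in
private lemma iostx_add {n : ℕ} (d : L →+ L) (p q : MvPolynomial (Fin n) L) :
    iostxC d (p + q) = iostxC d p + iostxC d q := by
  ext1 J
  rw [iostx_coeff, MvPolynomial.coeff_add, map_add, MvPolynomial.coeff_add, iostx_coeff,
    iostx_coeff]

omit [CharZero E] in
private lemma iostx_mul {n : ℕ} (d : L →+ L) (p : MvPolynomial (Fin n) L) (i : Fin n) :
    iostxC d (p * MvPolynomial.X i) = iostxC d p * MvPolynomial.X i := by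
  classical
  ext1 J
  rw [iostx_coeff, MvPolynomial.coeff_mul_X', MvPolynomial.coeff_mul_X']
  split_ifs
  · rw [iostx_coeff]
  · rw [map_zero]

omit [CharZero E] in
private lemma iostx_D (hL : Cl D L) {n : ℕ} (F : Fin n → E) (f : Fin n → L)
    (hf : ∀ i, D (F i) = f i) (G : MvPolynomial (Fin n) L) :
    D (MvPolynomial.aeval F G) =
      MvPolynomial.aeval F (iostxC (resD D L hL : L →+ L) G) +
        ∑ i, MvPolynomial.aeval F (MvPolynomial.pderiv i G) * (f i : E) := by
  classical
  induction G using MvPolynomial.induction_on with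
  | C a =>
    rw [iostx_C, MvPolynomial.aeval_C, MvPolynomial.aeval_C]
    have h : ∑ i, MvPolynomial.aeval F (MvPolynomial.pderiv i
        (MvPolynomial.C a : MvPolynomial (Fin n) L)) * (f i : E) = 0 :=
      Finset.sum_eq_zero fun i _ => by rw [MvPolynomial.pderiv_C, map_zero, zero_mul]
    rw [h, add_zero]
    rfl
  | add p q hp hq =>
    rw [iostx_add, map_add, map_add, hp, hq, map_add]
    simp only [map_add, add_mul]
    rw [Finset.sum_add_distrib]
    ring
  | mul_X p j hp =>
    rw [iostx_mul, map_mul, MvPolynomial.aeval_X, Derivation.leibniz, smul_eq_mul, smul_eq_mul,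
      hp, hf, map_mul, MvPolynomial.aeval_X]
    have h : ∀ i, MvPolynomial.aeval F (MvPolynomial.pderiv i (p * MvPolynomial.X j)) * (f i : E) =
        MvPolynomial.aeval F (MvPolynomial.pderiv i p) * (f i : E) * F j +
          (if i = j then MvPolynomial.aeval F p * (f i : E) else 0) := by
      intro i
      rw [MvPolynomial.pderiv_mul, map_add, map_mul, map_mul, MvPolynomial.aeval_X]
      by_cases hij : i = j
      · subst hij
        rw [MvPolynomial.pderiv_X_self, if_pos rfl, map_one]
        ring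
      · rw [MvPolynomial.pderiv_X_of_ne (Ne.symm hij), if_neg hij, map_zero]
        ring
    rw [Finset.sum_congr rfl fun i _ => h i, Finset.sum_add_distrib, ← Finset.sum_mul,
      Finset.sum_ite_eq' Finset.univ j, if_pos (Finset.mem_univ j)]
    ring

omit [CharZero E] in
lemma iostx_mdx (hL : Cl D L) {n : ℕ} (F : Fin n → E) (f : Fin n → L)
    (hf : ∀ i, D (F i) = f i) (G : MvPolynomial (Fin n) L) :
    ∃ G' : MvPolynomial (Fin n) L, D (MvPolynomial.aeval F G) = MvPolynomial.aeval F G' ∧
      ∀ J : Fin n →₀ ℕ, ((MvPolynomial.coeff J G' : L) : E) =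
        D ((MvPolynomial.coeff J G : L) : E) +
          ∑ i, ((J i : E) + 1) * ((MvPolynomial.coeff (J + Finsupp.single i 1) G : L) : E) * f i := by
  refine ⟨iostxC (resD D L hL : L →+ L) G + ∑ i, MvPolynomial.pderiv i G * MvPolynomial.C (f i),
    ?_, fun J => ?_⟩
  · rw [iostx_D hL F f hf, map_add, map_sum]
    congr 1
    refine Finset.sum_congr rfl fun i _ => ?_
    rw [map_mul, MvPolynomial.aeval_C]
    rfl
  · rw [MvPolynomial.coeff_add, iostx_coeff, MvPolynomial.coeff_sum, Subfield.coe_add]
    congr 1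
    rw [← Subfield.coe_subtype, map_sum]
    refine Finset.sum_congr rfl fun i _ => ?_
    rw [mul_comm (MvPolynomial.pderiv i G), MvPolynomial.coeff_C_mul, MvPolynomial.coeff_pderiv,
      Subfield.coe_subtype]
    push_cast
    ring

theorem iostx_no_quad (hKL : K ≤ L) (hK : ∀ x, D x = 0 ↔ x ∈ K) (hL : Cl D L) {r : ℕ}
    {w : Fin r → E}
    (hw : ∀ i, D (w i) ∈ L) (hwt : AlgebraicIndependent L w) {e : E} (he : e ∈ L)
    (hind : ∀ (q : E) (κ : Fin r → E), q ∈ K → (∀ i, κ i ∈ K) →
      (∃ x ∈ L, D x = q * e + ∑ i, κ i * D (w i)) → q = 0 ∧ κ = 0)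
    (q : MvPolynomial (Fin r) K) (hq : q.IsHomogeneous 2) (H : MvPolynomial (Fin r) L)
    (hH : H.totalDegree ≤ 1) (G : MvPolynomial (Fin r) L)
    (h : D (MvPolynomial.aeval w G) = e * MvPolynomial.aeval w q + MvPolynomial.aeval w H) :
    q = 0 := by
  classical
  obtain ⟨G', h1, h2⟩ := iostx_mdx hL w (fun i => ⟨D (w i), hw i⟩) (fun i => rfl) G
  -- the coefficients
  have hqL : MvPolynomial.aeval w (MvPolynomial.map (Subfield.inclusion hKL) q) =
      MvPolynomial.aeval w q := by
    rw [MvPolynomial.aeval_def, MvPolynomial.aeval_def, MvPolynomial.eval₂_map]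
    rfl
  have h3 : G' = MvPolynomial.C (⟨e, he⟩ : L) *
      MvPolynomial.map (Subfield.inclusion hKL) q + H := by
    apply hwt
    rw [← h1, h, map_add, map_mul, MvPolynomial.aeval_C, hqL]
    rfl
  have h4 : ∀ J : Fin r →₀ ℕ, D ((MvPolynomial.coeff J G : L) : E) +
      ∑ i, ((J i : E) + 1) * ((MvPolynomial.coeff (J + Finsupp.single i 1) G : L) : E) * D (w i) =
        e * ((MvPolynomial.coeff J q : K) : E) + ((MvPolynomial.coeff J H : L) : E) := by
    intro J
    rw [← h2 J, h3, MvPolynomial.coeff_add, MvPolynomial.coeff_C_mul, MvPolynomial.coeff_map,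
      Subfield.coe_add, Subfield.coe_mul]
    rfl
  have hq0 : ∀ J : Fin r →₀ ℕ, J.degree ≠ 2 → MvPolynomial.coeff J q = 0 := fun J hJ =>
    hq.coeff_eq_zero hJ
  have hH0 : ∀ J : Fin r →₀ ℕ, 2 ≤ J.degree → MvPolynomial.coeff J H = 0 := by
    intro J hJ
    refine MvPolynomial.coeff_eq_zero_of_totalDegree_lt ?_
    rw [Finsupp.degree_apply] at hJ
    omega
  have hnat : ∀ n : ℕ, (n : E) ∈ K := fun n => natCast_mem K n
  have hdeg : ∀ (J : Fin r →₀ ℕ) (i : Fin r), (J + Finsupp.single i 1).degree = J.degree + 1 := by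
    intro J i
    rw [map_add, Finsupp.degree_single]
  -- the step
  have hstep : ∀ m : ℕ, 3 ≤ m → (∀ J : Fin r →₀ ℕ, m + 1 ≤ J.degree → MvPolynomial.coeff J G = 0) →
      ∀ J : Fin r →₀ ℕ, J.degree = m → ((MvPolynomial.coeff J G : L) : E) ∈ K := by
    intro m hm hv J hJ
    rw [← hK]
    have h5 := h4 J
    rw [Finset.sum_eq_zero fun i _ => by
      rw [hv _ (by rw [hdeg]; omega), Subfield.coe_zero, mul_zero, zero_mul], add_zero,
      hq0 J (by omega), hH0 J (by omega), Subfield.coe_zero, Subfield.coe_zero, mul_zero,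
      add_zero] at h5
    exact h5
  have hkap : ∀ m : ℕ, 3 ≤ m → (∀ J : Fin r →₀ ℕ, m + 1 ≤ J.degree → MvPolynomial.coeff J G = 0) →
      ∀ J : Fin r →₀ ℕ, J.degree + 1 = m →
        ((MvPolynomial.coeff J q : K) : E) = 0 ∧
          ∀ i, MvPolynomial.coeff (J + Finsupp.single i 1) G = 0 := by
    intro m hm hv J hJ
    have h5 := h4 J
    rw [hH0 J (by omega), Subfield.coe_zero, add_zero] at h5
    obtain ⟨h6, h7⟩ := hind ((MvPolynomial.coeff J q : K) : E)
      (fun i => -(((J i : E) + 1) * ((MvPolynomial.coeff (J + Finsupp.single i 1) G : L) : E)))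
      (MvPolynomial.coeff J q).2 (fun i => neg_mem (mul_mem (add_mem (hnat _) (one_mem K))
        (hstep m hm hv _ (by rw [hdeg]; omega))))
      ⟨_, (MvPolynomial.coeff J G).2, by
        simp only [neg_mul, Finset.sum_neg_distrib]
        rw [mul_comm _ e, ← h5]
        ring⟩
    refine ⟨h6, fun i => ?_⟩
    have h8 := congrFun h7 i
    simp only [Pi.zero_apply, neg_eq_zero] at h8
    rcases mul_eq_zero.1 h8 with h9 | h9
    · exact absurd h9 (by exact_mod_cast Nat.succ_ne_zero (J i))
    · exact Subtype.ext h9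
  -- descending induction
  have hdown : ∀ m : ℕ, 3 ≤ m → ∀ J : Fin r →₀ ℕ, m + 1 ≤ J.degree →
      MvPolynomial.coeff J G = 0 := by
    have hd : ∀ t m : ℕ, 3 ≤ m → G.totalDegree ≤ m + t → ∀ J : Fin r →₀ ℕ, m + 1 ≤ J.degree →
        MvPolynomial.coeff J G = 0 := by
      intro t
      induction t with
      | zero =>
        intro m _ h5 J hJ
        refine MvPolynomial.coeff_eq_zero_of_totalDegree_lt ?_
        rw [Finsupp.degree_apply] at hJ
        omega
      | succ t ih =>
        intro m hm h5 J hJ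
        have hv := ih (m + 1) (by omega) (by omega)
        rcases Nat.lt_or_ge (m + 1) J.degree with h6 | h6
        · exact hv J h6
        · have h7 : J.degree = m + 1 := by omega
          have h8 : J ≠ 0 := by
            rintro rfl
            rw [map_zero] at h7
            omega
          obtain ⟨i, hi⟩ := Finsupp.ne_iff.1 h8
          rw [Finsupp.coe_zero, Pi.zero_apply] at hi
          have h9 : J - Finsupp.single i 1 + Finsupp.single i 1 = J :=
            tsub_add_cancel_of_le (Finsupp.single_le_iff.2 (Nat.one_le_iff_ne_zero.2 hi))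
          have h10 := hdeg (J - Finsupp.single i 1) i
          rw [h9] at h10
          have h11 := (hkap (m + 1) (by omega) hv (J - Finsupp.single i 1) (by omega)).2 i
          rwa [h9] at h11
    intro m hm
    exact hd G.totalDegree m hm (by omega)
  have hv := hdown 3 le_rfl
  ext1 J
  rw [MvPolynomial.coeff_zero]
  by_cases hJ : J.degree = 2
  · exact Subtype.ext (hkap 3 le_rfl hv J (by omega)).1
  · exact hq0 J hJ

end Pool.Agent.Lib.MP_3550b5_nt.SV
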