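import Mathlib
import Pool.Agent.Lib.MP_3550b5_nt.SV.ISub

/-!
Project SV, part I: the step of the second part of Ostrowski's theorem.
-/

namespace Pool.Agent.Lib.MP_3550b5_nt.SV

open Polynomial

variable {E : Type*} [Field E] [CharZero E] {D : Derivation ℤ E E} {L : Subfield E}

/-- evaluation at `w` with values in `L(w)` -/
private noncomputable def psEv (L : Subfield E) (w : E) : L[X] →+* adj L w :=
  (aeval w : L[X] →ₐ[L] E).toRingHom.codRestrict (adj L w).toSubring fun N => aeval_mem_adj w N

private lemma psEv_coe (L : Subfield E) (w : E) (N : L[X]) : ((psEv L w N : adj L w) : E) = aeval w N :=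
  rfl

/-- a polynomial in `(w, F)` as a polynomial in `F` with coefficients in `L[w]` -/
private lemma ps_split {w : E} {n : ℕ} (F : Fin n → E) (H : MvPolynomial (Fin (n + 1)) L) :
    ∃ H' : MvPolynomial (Fin n) L[X],
      MvPolynomial.aeval (Fin.cons w F : Fin (n + 1) → E) H =
        MvPolynomial.aeval F (MvPolynomial.map (psEv L w) H') := by
  refine ⟨MvPolynomial.eval₂ (MvPolynomial.C.comp C)
    (Fin.cons (MvPolynomial.C X) MvPolynomial.X : Fin (n + 1) → MvPolynomial (Fin n) L[X]) H, ?_⟩
  induction H using MvPolynomial.induction_on with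
  | C c =>
    rw [MvPolynomial.eval₂_C, MvPolynomial.aeval_C]
    simp only [RingHom.comp_apply, MvPolynomial.map_C, MvPolynomial.aeval_C]
    change (c : E) = ((psEv L w (C c) : adj L w) : E)
    rw [psEv_coe, aeval_C]
    rfl
  | add p q hp hq =>
    rw [map_add, hp, hq, MvPolynomial.eval₂_add, map_add, map_add]
  | mul_X p i hp =>
    rw [map_mul, hp, MvPolynomial.eval₂_mul, map_mul, map_mul, MvPolynomial.eval₂_X,
      MvPolynomial.aeval_X]
    congr 1
    refine Fin.cases ?_ (fun i => ?_) i
    · rw [Fin.cons_zero, Fin.cons_zero, MvPolynomial.map_C, MvPolynomial.aeval_C]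
      change w = ((psEv L w X : adj L w) : E)
      rw [psEv_coe, aeval_X]
    · rw [Fin.cons_succ, Fin.cons_succ, MvPolynomial.map_X, MvPolynomial.aeval_X]

theorem polyStep_core (hL : Cl D L) {w : E} (hw : D w ∈ L)
    (hwt : NoDbx (resD D L hL) (C (⟨D w, hw⟩ : L))) {n : ℕ} {F : Fin n → E}
    (hF : ∀ i, D (F i) ∈ L) (hFt : AlgebraicIndependent (adj L w) F)
    (G G' : MvPolynomial (Fin n) (adj L w))
    (h1 : D (MvPolynomial.aeval F G) = MvPolynomial.aeval F G')
    (h2 : ∀ J : Fin n →₀ ℕ, ((MvPolynomial.coeff J G' : adj L w) : E) =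
        D ((MvPolynomial.coeff J G : adj L w) : E) +
          ∑ i, ((J i : E) + 1) * ((MvPolynomial.coeff (J + Finsupp.single i 1) G : adj L w) : E) *
            D (F i))
    (H : MvPolynomial (Fin (n + 1)) L)
    (hH : D (MvPolynomial.aeval F G) = MvPolynomial.aeval (Fin.cons w F : Fin (n + 1) → E) H) :
    ∃ H : MvPolynomial (Fin (n + 1)) L,
      MvPolynomial.aeval F G = MvPolynomial.aeval (Fin.cons w F : Fin (n + 1) → E) H := by
  obtain ⟨H', hH'⟩ := ps_split (w := w) F H
  have h3 : G' = MvPolynomial.map (psEv L w) H' := by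
    apply hFt
    rw [← h1, hH, hH']
  have hw' : D w = aeval w (C (⟨D w, hw⟩ : L)) := by
    rw [aeval_C]
    rfl
  -- all coefficients are polynomials in `w`
  have key : ∀ k : ℕ, ∀ J : Fin n →₀ ℕ, G.totalDegree < J.degree + k →
      ∃ g : L[X], ((MvPolynomial.coeff J G : adj L w) : E) = aeval w g := by
    intro k
    induction k with
    | zero =>
      intro J hJ
      refine ⟨0, ?_⟩
      rw [MvPolynomial.coeff_eq_zero_of_totalDegree_lt, map_zero]
      · rfl
      · rw [add_zero] at hJ
        exact hJ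
    | succ k ih =>
      intro J hJ
      have h4 : ∀ i, ∃ g : L[X],
          ((MvPolynomial.coeff (J + Finsupp.single i 1) G : adj L w) : E) = aeval w g := by
        intro i
        apply ih
        rw [map_add, Finsupp.degree_single]
        omega
      choose g hg using h4
      have h5 := h2 J
      rw [h3, MvPolynomial.coeff_map, psEv_coe] at h5
      refine poly_of_mem_adj D hL hw' hwt (MvPolynomial.coeff J G : adj L w).2 (α := 0)
        (β := MvPolynomial.coeff J H' - ∑ i, C ((J i : L) + 1) * g i * C (⟨D (F i), hF i⟩ : L)) ?_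
      rw [map_zero, zero_mul, zero_add, map_sub, map_sum, h5]
      have h6 : ∀ i, aeval w (C ((J i : L) + 1) * g i * C (⟨D (F i), hF i⟩ : L)) =
          ((J i : E) + 1) * ((MvPolynomial.coeff (J + Finsupp.single i 1) G : adj L w) : E) *
            D (F i) := by
        intro i
        rw [map_mul, map_mul, aeval_C, aeval_C, hg i, map_add, map_natCast, map_one]
        rfl
      rw [Finset.sum_congr rfl fun i _ => h6 i]
      ring
  -- assemble
  have hR : MvPolynomial.aeval F G ∈
      (MvPolynomial.aeval (Fin.cons w F : Fin (n + 1) → E) :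
        MvPolynomial (Fin (n + 1)) L →ₐ[L] E).range := by
    rw [MvPolynomial.aeval_def, MvPolynomial.eval₂_eq']
    refine Subalgebra.sum_mem _ fun J _ => Subalgebra.mul_mem _ ?_
      (Subalgebra.prod_mem _ fun i _ => Subalgebra.pow_mem _ ?_ _)
    · obtain ⟨g, hg⟩ := key (G.totalDegree + 1) J (by omega)
      change ((MvPolynomial.coeff J G : adj L w) : E) ∈ _
      rw [hg]
      refine ⟨aeval (MvPolynomial.X 0 : MvPolynomial (Fin (n + 1)) L) g, ?_⟩
      change MvPolynomial.aeval (Fin.cons w F : Fin (n + 1) → E)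
        (aeval (MvPolynomial.X 0 : MvPolynomial (Fin (n + 1)) L) g) = _
      rw [← Polynomial.aeval_algHom_apply, MvPolynomial.aeval_X, Fin.cons_zero]
    · exact ⟨MvPolynomial.X i.succ, by
        change MvPolynomial.aeval (Fin.cons w F : Fin (n + 1) → E) _ = _
        rw [MvPolynomial.aeval_X, Fin.cons_succ]⟩
  obtain ⟨Q, hQ⟩ := hR
  exact ⟨Q, hQ.symm⟩

end Pool.Agent.Lib.MP_3550b5_nt.SV
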