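import Mathlib
import Pool.Agent.Lib.MP_3550b5_nt.SV.ISub
import Pool.Agent.Lib.MP_3550b5_nt.SV.IOstX
import Pool.Agent.Lib.MP_3550b5_nt.SV.PolyStep

/-!
Project SV, part I: Ostrowski's theorem on algebraic independence of integrals.
-/

namespace Pool.Agent.Lib.MP_3550b5_nt.SV

open Polynomial

variable {E : Type*} [Field E] [CharZero E] (D : Derivation ℤ E E)

/-- No nontrivial combination of the `f i` with coefficients in `K` is a derivative of an element of
`L`. -/
def Ind (K L : Subfield E) {n : ℕ} (f : Fin n → E) : Prop :=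
  ∀ κ : Fin n → E, (∀ i, κ i ∈ K) → (∃ x ∈ L, D x = ∑ i, κ i * f i) → κ = 0

/-- `L(F)`. -/
def adjn (L : Subfield E) {n : ℕ} (F : Fin n → E) : Subfield E :=
  Subfield.closure ((L : Set E) ∪ Set.range F)

variable {D} {K L : Subfield E}

private lemma ios_coeff (hL : Cl D L) (f : L) (G : L[X]) (n : ℕ) :
    (((dx (resD D L hL) (C f) G).coeff n : L) : E) =
      D ((G.coeff n : L) : E) + (f : E) * (((G.coeff (n + 1) : L) : E) * ((n : E) + 1)) := by
  unfold dx
  rw [coeff_add, coeff_cw, coeff_C_mul, coeff_derivative, Subfield.coe_add, resD_coe,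
    Subfield.coe_mul, Subfield.coe_mul]
  norm_cast

/-- PROOF. Let `Q` be monic of degree `m ≥ 1` with `Q ∣ dx .. Q = cw Q + f Q'`; the right side has
degree `< m`, so it is `0`; the coefficient of `X^(m-1)` gives `D q + m f = 0` with `q ∈ L`. So
`κ = m` contradicts `h`. -/
theorem noDbx_const (hL : Cl D L) {f : E} (hf : f ∈ L)
    (h : ∀ κ ∈ K, (∃ x ∈ L, D x = κ * f) → κ = 0) :
    NoDbx (resD D L hL) (C (⟨f, hf⟩ : L)) := by
  intro Q hQm hQ1 hdvd
  obtain ⟨m, hm⟩ : ∃ m, Q.natDegree = m + 1 := ⟨Q.natDegree - 1, by omega⟩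
  have htop : ((Q.coeff (m + 1) : L) : E) = 1 := by
    rw [← hm, hQm.coeff_natDegree]
    rfl
  have hz : ∀ n, m + 1 < n → Q.coeff n = 0 := by
    intro n hn
    exact coeff_eq_zero_of_natDegree_lt (by omega)
  have hdeg : (dx (resD D L hL) (C (⟨f, hf⟩ : L)) Q).degree < Q.degree := by
    rw [degree_eq_natDegree hQm.ne_zero, hm, degree_lt_iff_coeff_zero]
    intro n hn
    apply Subtype.ext
    rw [ios_coeff, hz (n + 1) (by omega)]
    rcases Nat.eq_or_lt_of_le hn with hn | hn
    · rw [← hn, htop, Derivation.map_one_eq_zero]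
      simp
    · rw [hz n hn]
      simp
  have h0 := eq_zero_of_dvd_of_degree_lt hdvd hdeg
  have h1 := ios_coeff hL (⟨f, hf⟩ : L) Q m
  rw [h0, coeff_zero, htop] at h1
  have h2 : -((m : E) + 1) = 0 := by
    apply h
    · exact neg_mem (add_mem (natCast_mem K m) (one_mem K))
    · refine ⟨((Q.coeff m : L) : E), (Q.coeff m).2, ?_⟩
      have h3 : (0 : E) = D ((Q.coeff m : L) : E) + f * (1 * ((m : E) + 1)) := h1
      linear_combination -h3
  have h3 : (m : E) + 1 ≠ 0 := by exact_mod_cast Nat.succ_ne_zero m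
  exact h3 (neg_eq_zero.1 h2)

/-- Elements of `L[w]` with derivative in `L` (`D w ∈ L`, `w` transcendental over `L`). PROOF. `G` of
degree `m`. The coefficient of `w^m` in `D (G(w))` is `D g_m`; if `m ≥ 1` it vanishes, so `g_m ∈ K`.
If `m ≥ 2`, the coefficient of `w^(m-1)`: `D g_(m-1) + m g_m D w = 0`, so `m g_m = 0` by `h`:
contradiction. -/
theorem deg_le_one (hKL : K ≤ L) (hK : ∀ x, D x = 0 ↔ x ∈ K) (hL : Cl D L) {w : E}
    (hw : D w ∈ L) (hwt : Transcendental L w)
    (h : ∀ κ ∈ K, (∃ x ∈ L, D x = κ * D w) → κ = 0) {G : L[X]} (hG : D (aeval w G) ∈ L) :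
    ∃ κ ∈ K, ∃ g ∈ L, aeval w G = κ * w + g := by
  have hinj := transcendental_iff_injective.1 hwt
  have hwP : D w = aeval w (C (⟨D w, hw⟩ : L)) := by
    rw [aeval_C]
    rfl
  have h1 : dx (resD D L hL) (C (⟨D w, hw⟩ : L)) G = C ⟨D (aeval w G), hG⟩ := by
    apply hinj
    change aeval w (dx (resD D L hL) (C (⟨D w, hw⟩ : L)) G) =
      aeval w (C (⟨D (aeval w G), hG⟩ : L))
    rw [← D_aeval D hL hwP, aeval_C]
    rfl
  have h2 : ∀ n, 1 ≤ n → D ((G.coeff n : L) : E) +
      D w * (((G.coeff (n + 1) : L) : E) * ((n : E) + 1)) = 0 := by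
    intro n hn
    have h3 := ios_coeff hL (⟨D w, hw⟩ : L) G n
    rw [h1, coeff_C, if_neg (by omega)] at h3
    exact h3.symm
  have hdeg : G.natDegree ≤ 1 := by
    by_contra hcon
    obtain ⟨m, hm⟩ : ∃ m, G.natDegree = m + 1 := ⟨G.natDegree - 1, by omega⟩
    have hz : G.coeff (m + 1 + 1) = 0 := coeff_eq_zero_of_natDegree_lt (by omega)
    have h3 := h2 (m + 1) (by omega)
    rw [hz] at h3
    have h4 : ((G.coeff (m + 1) : L) : E) ∈ K := by
      rw [← hK, ← h3]
      simp
    have h5 := h2 m (by omega)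
    have h6 : -(((G.coeff (m + 1) : L) : E) * ((m : E) + 1)) = 0 := by
      apply h
      · exact neg_mem (mul_mem h4 (add_mem (natCast_mem K m) (one_mem K)))
      · exact ⟨((G.coeff m : L) : E), (G.coeff m).2, by linear_combination h5⟩
    have h7 : (m : E) + 1 ≠ 0 := by exact_mod_cast Nat.succ_ne_zero m
    have h8 : ((G.coeff (m + 1) : L) : E) = 0 :=
      (mul_eq_zero.1 (neg_eq_zero.1 h6)).resolve_right h7
    have h9 : G.coeff G.natDegree = 0 := by
      rw [hm]
      exact Subtype.ext h8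
    have h10 : G = 0 := leadingCoeff_eq_zero.1 h9
    rw [h10, natDegree_zero] at hm
    omega
  have hz : G.coeff (1 + 1) = 0 := coeff_eq_zero_of_natDegree_lt (by omega)
  have h3 := h2 1 le_rfl
  rw [hz] at h3
  have h4 : ((G.coeff 1 : L) : E) ∈ K := by
    rw [← hK, ← h3]
    simp
  refine ⟨((G.coeff 1 : L) : E), h4, ((G.coeff 0 : L) : E), (G.coeff 0).2, ?_⟩
  conv_lhs => rw [eq_X_add_C_of_natDegree_le_one hdeg]
  rw [map_add, map_mul, aeval_C, aeval_C, aeval_X]
  rfl

private lemma ios_one {n : ℕ} {w : E} {f : Fin n → E}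
    (h : Ind D K L (Fin.cons (D w) f : Fin (n + 1) → E)) :
    ∀ κ ∈ K, (∃ x ∈ L, D x = κ * D w) → κ = 0 := by
  rintro κ hκ ⟨x, hx, hD⟩
  have h1 := h (Fin.cons κ (fun _ => 0)) (by
    intro i
    refine Fin.cases ?_ (fun j => ?_) i
    · rw [Fin.cons_zero]
      exact hκ
    · rw [Fin.cons_succ]
      exact zero_mem K) ⟨x, hx, by
    rw [hD, Fin.sum_univ_succ]
    simp only [Fin.cons_zero, Fin.cons_succ, zero_mul, Finset.sum_const_zero, add_zero]⟩
  have h2 := congrFun h1 0
  rwa [Fin.cons_zero] at h2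

/-- The hypothesis passes to `L(w)`. PROOF. `x ∈ L(w)`, `D x = ∑ κ i f i ∈ L`. By `noDbx_const`,
`poly_of_mem_adj`: `x = G(w)`; `deg_le_one`: `x = κ₀ w + g`, so `D g = -κ₀ D w + ∑ κ i f i`, and
`h` gives `κ = 0`. -/
theorem ind_step (hKL : K ≤ L) (hK : ∀ x, D x = 0 ↔ x ∈ K) (hL : Cl D L) {w : E}
    (hw : D w ∈ L) {n : ℕ} {f : Fin n → E} (hf : ∀ i, f i ∈ L)
    (h : Ind D K L (Fin.cons (D w) f : Fin (n + 1) → E)) : Ind D K (adj L w) f := by
  rintro κ hκ ⟨x, hx, hDx⟩
  have h1 := ios_one h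
  have hno := noDbx_const (K := K) hL hw h1
  have hwP : D w = aeval w (C (⟨D w, hw⟩ : L)) := by
    rw [aeval_C]
    rfl
  have ht := transc_of_noDbx D hL hwP hno
  have hmem : ∑ i, κ i * f i ∈ L := sum_mem fun i _ => mul_mem (hKL (hκ i)) (hf i)
  obtain ⟨G, rfl⟩ := poly_of_mem_adj D hL hwP hno hx (α := 0)
    (β := C (⟨∑ i, κ i * f i, hmem⟩ : L)) (by
      rw [map_zero, zero_mul, zero_add, aeval_C, hDx]
      rfl)
  have hG : D (aeval w G) ∈ L := by
    rw [hDx]
    exact hmem
  obtain ⟨κ₀, hκ₀, g, hg, he⟩ := deg_le_one hKL hK hL hw ht h1 hG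
  rw [he, map_add, Derivation.leibniz, (hK κ₀).2 hκ₀, smul_zero, add_zero, smul_eq_mul] at hDx
  have h2 := h (Fin.cons (-κ₀) κ) (by
    intro i
    refine Fin.cases ?_ (fun j => ?_) i
    · rw [Fin.cons_zero]
      exact neg_mem hκ₀
    · rw [Fin.cons_succ]
      exact hκ j) ⟨g, hg, by
    rw [Fin.sum_univ_succ]
    simp only [Fin.cons_zero, Fin.cons_succ]
    rw [← hDx]
    ring⟩
  funext i
  have h3 := congrFun h2 i.succ
  rwa [Fin.cons_succ] at h3

/-- Transitivity of algebraic independence. (For instance: a relation over `L` for `(w, F)` is, with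
coefficients sorted by monomials in `F`, a relation over `L(w)` for `F`; so all the coefficients,
polynomials in `w` over `L`, vanish at `w`, hence are zero. Mathlib has
`AlgebraicIndependent.option_iff_transcendental`, `MvPolynomial.finSuccEquiv`, ...) -/
theorem algInd_cons {w : E} {n : ℕ} {F : Fin n → E} (hw : Transcendental L w)
    (hF : AlgebraicIndependent (adj L w) F) :
    AlgebraicIndependent L (Fin.cons w F : Fin (n + 1) → E) := by
  letI : Algebra L (adj L w) := (Subfield.inclusion (le_adj L w)).toAlgebra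
  haveI : IsScalarTower L (adj L w) E := IsScalarTower.of_algebraMap_eq fun _ => rfl
  have hx : AlgebraicIndependent L (fun _ : Unit => w) :=
    algebraicIndependent_unique_type_iff.2 hw
  have hxS : Set.range (fun _ : Unit => w) ⊆ Set.range (algebraMap (adj L w) E) := by
    rintro _ ⟨_, rfl⟩
    exact ⟨⟨w, mem_adj_self L w⟩, rfl⟩
  have h1 := hx.sumElim_of_tower hxS hF
  have hinj : Function.Injective (Fin.cons (Sum.inr ()) Sum.inl : Fin (n + 1) → Fin n ⊕ Unit) := by
    rw [Fin.cons_injective_iff]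
    refine ⟨?_, Sum.inl_injective⟩
    rintro ⟨i, hi⟩
    exact Sum.inl_ne_inr hi
  have h2 := h1.comp _ hinj
  have h3 : (Sum.elim F (fun _ : Unit => w)) ∘
      (Fin.cons (Sum.inr ()) Sum.inl : Fin (n + 1) → Fin n ⊕ Unit) = Fin.cons w F := by
    funext i
    refine Fin.cases ?_ (fun j => ?_) i
    · rfl
    · rfl
  rwa [h3] at h2

/-- OSTROWSKI, first part. PROOF. Induction on `n`, for all `L`. `n = 0` is trivial
(`algebraMap L E` is injective). Step: `F = Fin.cons w F'`; `noDbx_const` and `transc_of_noDbx`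
give `Transcendental L w` (`D w = aeval w (C _)`); `adj_cl`; `ind_step`; induction for
`(adj L w, F')`; `algInd_cons`. -/
theorem ostrowski_A (hKL : K ≤ L) (hK : ∀ x, D x = 0 ↔ x ∈ K) (hL : Cl D L) {n : ℕ}
    (F : Fin n → E) (hF : ∀ i, D (F i) ∈ L) (h : Ind D K L (fun i => D (F i))) :
    AlgebraicIndependent L F := by
  induction n generalizing L with
  | zero =>
    exact algebraicIndependent_empty_type_iff.2 (algebraMap L E).injective
  | succ n ih =>
    set w : E := F 0 with hwdef
    have hFc : (Fin.cons w (Fin.tail F) : Fin (n + 1) → E) = F := Fin.cons_self_tail F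
    have hw : D w ∈ L := hF 0
    have hwP : D w = aeval w (C (⟨D w, hw⟩ : L)) := by
      rw [aeval_C]
      rfl
    have hone : ∀ κ ∈ K, (∃ x ∈ L, D x = κ * D w) → κ = 0 := by
      rintro κ hκ ⟨x, hx, hxD⟩
      have h1 := h (Fin.cons κ 0) (by
        intro i
        refine Fin.cases ?_ (fun j => ?_) i
        · exact hκ
        · exact K.zero_mem) ⟨x, hx, by
          rw [Fin.sum_univ_succ]
          simp [hxD, hwdef]⟩
      have h2 := congrFun h1 0
      exact h2
    have htr : Transcendental L w :=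
      transc_of_noDbx D hL hwP (noDbx_const (K := K) hL hw hone)
    have hI : Ind D K (adj L w) (fun i => D (Fin.tail F i)) := by
      refine ind_step hKL hK hL hw (fun i => hF i.succ) ?_
      have e : (Fin.cons (D w) (fun i => D (Fin.tail F i)) : Fin (n + 1) → E) =
          fun i => D (F i) := by
        funext i
        refine Fin.cases ?_ (fun j => ?_) i
        · rfl
        · rfl
      rw [e]
      exact h
    have h3 := ih (hKL.trans (le_adj L w)) (adj_cl D hL hwP) (Fin.tail F)
      (fun i => le_adj L w (hF i.succ)) hI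
    rw [← hFc]
    exact algInd_cons htr h3

/-- The same for a finite index type (reindex by `Fintype.equivFin`,
`algebraicIndependent_equiv`). -/
theorem ostrowski_fintype (hKL : K ≤ L) (hK : ∀ x, D x = 0 ↔ x ∈ K) (hL : Cl D L)
    {ι : Type*} [Fintype ι] (F : ι → E) (hF : ∀ i, D (F i) ∈ L)
    (h : ∀ κ : ι → E, (∀ i, κ i ∈ K) → (∃ x ∈ L, D x = ∑ i, κ i * D (F i)) → κ = 0) :
    AlgebraicIndependent L F := by
  have e := Fintype.equivFin ι
  refine (algebraicIndependent_equiv e.symm).1 ?_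
  refine ostrowski_A hKL hK hL _ (fun i => hF _) ?_
  rintro κ hκ ⟨x, hx, hxD⟩
  have h1 := h (fun i => κ (e i)) (fun i => hκ _) ⟨x, hx, by
    rw [hxD, ← Equiv.sum_comp e]
    simp⟩
  funext j
  have h2 := congrFun h1 (e.symm j)
  simpa using h2

/-- The derivative of a polynomial in the `F i`: coefficientwise derivative plus partial
derivatives. `cwm D G` has coefficients `D (coeff J G)`. -/
lemma exists_mdx (hL : Cl D L) {n : ℕ} (F : Fin n → E) (f : Fin n → L)
    (hf : ∀ i, D (F i) = f i) (G : MvPolynomial (Fin n) L) :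
    ∃ G' : MvPolynomial (Fin n) L, D (MvPolynomial.aeval F G) = MvPolynomial.aeval F G' ∧
      ∀ J : Fin n →₀ ℕ, ((MvPolynomial.coeff J G' : L) : E) =
        D ((MvPolynomial.coeff J G : L) : E) +
          ∑ i, ((J i : E) + 1) * ((MvPolynomial.coeff (J + Finsupp.single i 1) G : L) : E) * f i :=
  iostx_mdx hL F f hf G

/-- OSTROWSKI, second part, the step. PROOF. Let `c J ∈ L(w)` be the coefficients of `G`. Write the
given `H` as a polynomial in `F` with coefficients `h J ∈ L[w]`. By `exists_mdx` over `adj L w` and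
the independence of `F` over `adj L w`:
`D (c J) + ∑ i, (J i + 1) c (J + e_i) D (F i) = h J (w)`. By descending induction on the degree of
`J` all `c J ∈ L[w]`: then `D (c J) ∈ L[w]` and `poly_of_mem_adj` (`α = 0`) applies. So
`aeval F G` is a polynomial in `(w, F)` over `L`. -/
theorem poly_step (hL : Cl D L) {w : E} (hw : D w ∈ L)
    (hwt : NoDbx (resD D L hL) (C (⟨D w, hw⟩ : L))) {n : ℕ} {F : Fin n → E}
    (hF : ∀ i, D (F i) ∈ L) (hFt : AlgebraicIndependent (adj L w) F)
    (G : MvPolynomial (Fin n) (adj L w))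
    (hG : ∃ H : MvPolynomial (Fin (n + 1)) L,
      D (MvPolynomial.aeval F G) = MvPolynomial.aeval (Fin.cons w F : Fin (n + 1) → E) H) :
    ∃ H : MvPolynomial (Fin (n + 1)) L,
      MvPolynomial.aeval F G = MvPolynomial.aeval (Fin.cons w F : Fin (n + 1) → E) H := by
  obtain ⟨H, hH⟩ := hG
  have hw' : D w = aeval w (C (⟨D w, hw⟩ : L)) := by
    rw [aeval_C]
    rfl
  obtain ⟨G', h1, h2⟩ := exists_mdx (adj_cl D hL hw') F (fun i => ⟨D (F i), le_adj L w (hF i)⟩)
    (fun _ => rfl) G
  exact polyStep_core hL hw hwt hF hFt G G' h1 h2 H hH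

/-- OSTROWSKI, second part. PROOF. Induction on `n`, for all `L`; `n = 0`: `adjn L F = L`. Step:
`adjn L (cons w F) = adjn (adj L w) F`; the hypothesis `D x = aeval (cons w F) H` is also a
polynomial in `F` over `adj L w`, so by induction `x = aeval F G` with `G` over `adj L w`
(`ind_step`); then `poly_step` (`ostrowski_A` for `F` over `adj L w`, `noDbx_const`). -/
theorem ostrowski_B (hKL : K ≤ L) (hK : ∀ x, D x = 0 ↔ x ∈ K) (hL : Cl D L) {n : ℕ}
    (F : Fin n → E) (hF : ∀ i, D (F i) ∈ L) (h : Ind D K L (fun i => D (F i))) {x : E}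
    (hx : x ∈ adjn L F) (hD : ∃ H : MvPolynomial (Fin n) L, D x = MvPolynomial.aeval F H) :
    ∃ G : MvPolynomial (Fin n) L, x = MvPolynomial.aeval F G := by
  induction n generalizing L x with
  | zero =>
    have h1 : x ∈ L := by
      have h2 : adjn L F ≤ L := by
        refine Subfield.closure_le.2 (Set.union_subset (fun y hy => hy) ?_)
        rintro _ ⟨i, rfl⟩
        exact i.elim0
      exact h2 hx
    refine ⟨MvPolynomial.C ⟨x, h1⟩, ?_⟩
    rw [MvPolynomial.aeval_C]
    rfl
  | succ n ih =>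
    obtain ⟨w, hw0⟩ : ∃ w, w = F 0 := ⟨_, rfl⟩
    obtain ⟨F', hF'0⟩ : ∃ F' : Fin n → E, F' = fun i => F i.succ := ⟨_, rfl⟩
    have hcons : F = (Fin.cons w F' : Fin (n + 1) → E) := by
      rw [hw0, hF'0]
      exact (Fin.cons_self_tail F).symm
    have hw : D w ∈ L := by
      rw [hw0]
      exact hF 0
    have hF'L : ∀ i, D (F' i) ∈ L := fun i => by
      rw [hF'0]
      exact hF i.succ
    have hP : D w = aeval w (C (⟨D w, hw⟩ : L)) := by
      rw [aeval_C]
      rfl
    have h1 : ∀ κ ∈ K, (∃ x ∈ L, D x = κ * D w) → κ = 0 := by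
      intro κ hκ hx'
      obtain ⟨z, hz, hzD⟩ := hx'
      have h2 := h (Fin.cons κ 0 : Fin (n + 1) → E) (by
        intro i
        refine Fin.cases ?_ (fun j => ?_) i
        · exact hκ
        · exact K.zero_mem) ⟨z, hz, by
          rw [hzD, Fin.sum_univ_succ, Fin.cons_zero, hw0]
          simp only [Fin.cons_succ, Pi.zero_apply, zero_mul, Finset.sum_const_zero, add_zero]⟩
      exact congrFun h2 0
    have hno : NoDbx (resD D L hL) (C (⟨D w, hw⟩ : L)) := noDbx_const hL hw h1
    have hL' : Cl D (adj L w) := adj_cl D hL hP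
    have hind : Ind D K L (Fin.cons (D w) (fun i => D (F' i)) : Fin (n + 1) → E) := by
      have e : (Fin.cons (D w) (fun i => D (F' i)) : Fin (n + 1) → E) = fun i => D (F i) := by
        funext i
        refine Fin.cases ?_ (fun j => ?_) i
        · rw [Fin.cons_zero, hw0]
        · rw [Fin.cons_succ, hF'0]
      rw [e]
      exact h
    have hind' : Ind D K (adj L w) (fun i => D (F' i)) := ind_step hKL hK hL hw hF'L hind
    have hKL' : K ≤ adj L w := hKL.trans (le_adj L w)
    have hF' : ∀ i, D (F' i) ∈ adj L w := fun i => le_adj L w (hF'L i)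
    have hx' : x ∈ adjn (adj L w) F' := by
      have h2 : adjn L F ≤ adjn (adj L w) F' := by
        refine Subfield.closure_le.2 (Set.union_subset (fun y hy => ?_) ?_)
        · exact Subfield.subset_closure (Or.inl (le_adj L w hy))
        · rintro _ ⟨i, rfl⟩
          refine Fin.cases ?_ (fun j => ?_) i
          · rw [← hw0]
            exact Subfield.subset_closure (Or.inl (mem_adj_self L w))
          · refine Subfield.subset_closure (Or.inr ⟨j, ?_⟩)
            rw [hF'0]
      exact h2 hx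
    obtain ⟨H, hH⟩ := hD
    have hD' : ∃ H' : MvPolynomial (Fin n) (adj L w), D x = MvPolynomial.aeval F' H' := by
      let φ : MvPolynomial (Fin (n + 1)) L →+* MvPolynomial (Fin n) (adj L w) :=
        MvPolynomial.eval₂Hom (MvPolynomial.C.comp (Subfield.inclusion (le_adj L w)))
          (Fin.cons (MvPolynomial.C ⟨w, mem_adj_self L w⟩) MvPolynomial.X)
      refine ⟨φ H, ?_⟩
      have h2 : ((MvPolynomial.aeval F' : MvPolynomial (Fin n) (adj L w) →ₐ[adj L w] E) :
          MvPolynomial (Fin n) (adj L w) →+* E).comp φ =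
          ((MvPolynomial.aeval F : MvPolynomial (Fin (n + 1)) L →ₐ[L] E) :
            MvPolynomial (Fin (n + 1)) L →+* E) := by
        refine MvPolynomial.ringHom_ext (fun a => ?_) fun i => ?_
        · rw [RingHom.comp_apply, MvPolynomial.eval₂Hom_C]
          change MvPolynomial.aeval F' (MvPolynomial.C _) = MvPolynomial.aeval F (MvPolynomial.C a)
          rw [MvPolynomial.aeval_C, MvPolynomial.aeval_C]
          rfl
        · rw [RingHom.comp_apply, MvPolynomial.eval₂Hom_X']
          refine Fin.cases ?_ (fun j => ?_) i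
          · rw [Fin.cons_zero]
            change MvPolynomial.aeval F' (MvPolynomial.C _) = MvPolynomial.aeval F (MvPolynomial.X 0)
            rw [MvPolynomial.aeval_C, MvPolynomial.aeval_X, ← hw0]
            rfl
          · rw [Fin.cons_succ]
            change MvPolynomial.aeval F' (MvPolynomial.X j) =
              MvPolynomial.aeval F (MvPolynomial.X j.succ)
            rw [MvPolynomial.aeval_X, MvPolynomial.aeval_X, hF'0]
      rw [hH]
      exact (congrArg (fun g : MvPolynomial (Fin (n + 1)) L →+* E => g H) h2).symm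
    obtain ⟨G, hG⟩ := ih hKL' hL' F' hF' hind' hx' hD'
    have hFt : AlgebraicIndependent (adj L w) F' := ostrowski_A hKL' hK hL' F' hF' hind'
    obtain ⟨H', hH'⟩ := poly_step hL hw hno hF'L hFt G ⟨H, by rw [← hG, hH, hcons]⟩
    refine ⟨H', ?_⟩
    rw [hG, hH', hcons]

/-- THEOREM I5. PROOF. Suppose `q ≠ 0`... Let `c J = coeff J G`. By `exists_mdx` and the
independence of `w` over `L`, comparing the coefficients of `w^J` (degree `|J|`):
`D (c J) + ∑ i, (J i + 1) c (J + e_i) D (w i) = e * coeff J q + coeff J H`. (a) By descending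
induction `c J = 0` for `|J| ≥ 4`: let `m = G.totalDegree`, suppose `m ≥ 4`. For `|J| = m`:
`D (c J) = 0`, so `c J ∈ K`; for `|J| = m - 1 ≥ 3` the right side is `0`, so
`D (c J) = - ∑ (J i + 1) c (J + e_i) D (w i)` and `hind` gives `c (J + e_i) = 0`. Every monomial of
degree `m` is some `J + e_i`: contradiction. (b) So `c J ∈ K` for `|J| = 3`, and for `|J| = 2`:
`D (c J) = e * coeff J q - ∑ (J i + 1) c (J + e_i) D (w i)`, so `coeff J q = 0` by `hind`. -/
theorem no_quad (hKL : K ≤ L) (hK : ∀ x, D x = 0 ↔ x ∈ K) (hL : Cl D L) {r : ℕ} {w : Fin r → E}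
    (hw : ∀ i, D (w i) ∈ L) (hwt : AlgebraicIndependent L w) {e : E} (he : e ∈ L)
    (hind : ∀ (q : E) (κ : Fin r → E), q ∈ K → (∀ i, κ i ∈ K) →
      (∃ x ∈ L, D x = q * e + ∑ i, κ i * D (w i)) → q = 0 ∧ κ = 0)
    (q : MvPolynomial (Fin r) K) (hq : q.IsHomogeneous 2) (H : MvPolynomial (Fin r) L)
    (hH : H.totalDegree ≤ 1) (G : MvPolynomial (Fin r) L)
    (h : D (MvPolynomial.aeval w G) = e * MvPolynomial.aeval w q + MvPolynomial.aeval w H) :
    q = 0 :=
  iostx_no_quad hKL hK hL hw hwt he hind q hq H hH G h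

end Pool.Agent.Lib.MP_3550b5_nt.SV
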