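import Mathlib
import Pool.Agent.Lib.MP_3550b5_nt.SV.ISub

/-!
Project SV, part I: the adjunction of `lam` with `D lam = h lam`.
-/

namespace Pool.Agent.Lib.MP_3550b5_nt.SV

open Polynomial

section gen

variable {L : Type*} [Field L] (R : Derivation ℤ L L)

lemma isx_coeff (h : L) (Q : L[X]) (n : ℕ) :
    (dx R (C h * X) Q).coeff n = R (Q.coeff n) + n * h * Q.coeff n := by
  unfold dx
  rw [coeff_add, coeff_cw, mul_assoc, coeff_C_mul]
  cases n with
  | zero =>
    rw [coeff_X_mul_zero, Nat.cast_zero]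
    ring
  | succ n =>
    rw [coeff_X_mul, coeff_derivative, Nat.cast_succ]
    ring

/-- A monic polynomial `Q` which divides its derivative has degree `0` if the constant coefficient is
not zero. -/
lemma isx_dvd (h : L) (H : ∀ j : ℤ, j ≠ 0 → ∀ q : L, R q = j * h * q → q = 0) {Q : L[X]}
    (hQ : Q.Monic) (hd : Q ∣ dx R (C h * X) Q) (h0 : Q.coeff 0 ≠ 0) : Q.natDegree = 0 := by
  by_contra hm
  have h1 : dx R (C h * X) Q - C ((Q.natDegree : L) * h) * Q = 0 := by
    have hdeg : (dx R (C h * X) Q - C ((Q.natDegree : L) * h) * Q).degree < Q.degree := by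
      rw [degree_eq_natDegree hQ.ne_zero, degree_lt_iff_coeff_zero]
      intro n hn
      rw [coeff_sub, isx_coeff, coeff_C_mul]
      rcases hn.eq_or_lt with rfl | hlt
      · rw [hQ.coeff_natDegree, R.map_one_eq_zero]
        ring
      · rw [coeff_eq_zero_of_natDegree_lt hlt, map_zero]
        ring
    exact eq_zero_of_dvd_of_degree_lt (dvd_sub hd (dvd_mul_left _ _)) hdeg
  have h2 := congrArg (fun T => coeff T 0) h1
  simp only [coeff_sub, isx_coeff, coeff_C_mul, coeff_zero] at h2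
  refine h0 (H (Q.natDegree : ℤ) (by exact_mod_cast hm) _ ?_)
  rw [Int.cast_natCast]
  rw [Nat.cast_zero] at h2
  linear_combination h2

end gen

variable {E : Type*} [Field E] [CharZero E] (D : Derivation ℤ E E)

private lemma isx_H {L : Subfield E} (hL : Cl D L) (h : L)
    (H : ∀ j : ℤ, j ≠ 0 → ∀ q ∈ L, D q = j * h * q → q = 0) :
    ∀ j : ℤ, j ≠ 0 → ∀ q : L, resD D L hL q = j * h * q → q = 0 := by
  intro j hj q hq
  have h1 := congrArg (fun t : L => (t : E)) hq
  have h2 : D (q : E) = j * h * q := by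
    have h3 : ((resD D L hL q : L) : E) = ((j * h * q : L) : E) := h1
    rw [resD_coe] at h3
    rw [h3]
    push_cast
    rfl
  exact Subtype.ext (H j hj q q.2 h2)

/-- `lam` is transcendental. -/
theorem isx_tr {L : Subfield E} (hL : Cl D L) (h : L) {lam : E} (hl : lam ≠ 0)
    (hlD : D lam = h * lam) (H : ∀ j : ℤ, j ≠ 0 → ∀ q ∈ L, D q = j * h * q → q = 0) :
    Transcendental L lam := by
  intro halg
  have hint : IsIntegral L lam := isAlgebraic_iff_isIntegral.1 halg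
  have hw : D lam = aeval lam (C h * X : L[X]) := by
    rw [map_mul, aeval_C, aeval_X, hlD]
    rfl
  have h1 : minpoly L lam ∣ dx (resD D L hL) (C h * X) (minpoly L lam) := by
    apply minpoly.dvd
    rw [← D_aeval D hL hw, minpoly.aeval, map_zero]
  have h2 := isx_dvd (resD D L hL) h (isx_H D hL h H) (minpoly.monic hint) h1
    (minpoly.coeff_zero_ne_zero hint hl)
  exact absurd h2 (minpoly.natDegree_pos hint).ne'

/-- coprime numerator and denominator -/
private lemma isx_coprime {L : Subfield E} {w x : E} (hx : x ∈ adj L w) :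
    ∃ N Q : L[X], Q.Monic ∧ IsCoprime N Q ∧ x * aeval w Q = aeval w N := by
  classical
  obtain ⟨N, Q, hQ, rfl⟩ := mem_adj.1 hx
  have hQ0 : Q ≠ 0 := by
    rintro rfl
    exact hQ (map_zero _)
  have hg : GCDMonoid.gcd N Q ≠ 0 := gcd_ne_zero_of_right hQ0
  have h1 : GCDMonoid.gcd N Q * (N / GCDMonoid.gcd N Q) = N :=
    EuclideanDomain.mul_div_cancel' hg (GCDMonoid.gcd_dvd_left N Q)
  have h2 : GCDMonoid.gcd N Q * (Q / GCDMonoid.gcd N Q) = Q :=
    EuclideanDomain.mul_div_cancel' hg (GCDMonoid.gcd_dvd_right N Q)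
  have h3 : IsCoprime (N / GCDMonoid.gcd N Q) (Q / GCDMonoid.gcd N Q) :=
    isCoprime_div_gcd_div_gcd hQ0
  set g := GCDMonoid.gcd N Q
  set N' := N / g
  set Q' := Q / g
  have hQ' : Q' ≠ 0 := by
    intro h0
    apply hQ0
    rw [← h2, h0, mul_zero]
  have hl : Q'.leadingCoeff ≠ 0 := leadingCoeff_ne_zero.2 hQ'
  have hu : IsUnit (C (Q'.leadingCoeff)⁻¹) :=
    isUnit_C.2 (isUnit_iff_ne_zero.2 (inv_ne_zero hl))
  refine ⟨N' * C (Q'.leadingCoeff)⁻¹, Q' * C (Q'.leadingCoeff)⁻¹,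
    monic_mul_leadingCoeff_inv hQ', ?_, ?_⟩
  · exact (isCoprime_mul_unit_right hu _ _).2 h3
  · have hgw : aeval w g ≠ 0 := by
      intro h0
      apply hQ
      rw [← h2, map_mul, h0, zero_mul]
    have e1 : aeval w N = aeval w g * aeval w N' := by rw [← map_mul, h1]
    have e2 : aeval w Q = aeval w g * aeval w Q' := by rw [← map_mul, h2]
    have hQw : aeval w Q' ≠ 0 := by
      intro h0
      apply hQ
      rw [e2, h0, mul_zero]
    rw [map_mul, map_mul, e1, e2]
    field_simp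

/-- Elements of `L(lam)` whose derivative is a Laurent polynomial are Laurent polynomials. -/
theorem isx_laurent {L : Subfield E} (hL : Cl D L) (h : L) {lam : E} (hl : lam ≠ 0)
    (hlD : D lam = h * lam) (H : ∀ j : ℤ, j ≠ 0 → ∀ q ∈ L, D q = j * h * q → q = 0) {x : E}
    (hx : x ∈ adj L lam) (hD : ∃ (n : ℕ) (P : L[X]), D x * lam ^ n = aeval lam P) :
    ∃ (n : ℕ) (P : L[X]), x * lam ^ n = aeval lam P := by
  obtain ⟨n, P, hP⟩ := hD
  have ht := isx_tr D hL h hl hlD H
  have hinj := transcendental_iff_injective.1 ht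
  have hw : D lam = aeval lam (C h * X : L[X]) := by
    rw [map_mul, aeval_C, aeval_X, hlD]
    rfl
  obtain ⟨N, Q, hQm, hcop, hxQ⟩ := isx_coprime hx
  set d : L[X] → L[X] := dx (resD D L hL) (C h * X) with hd
  have h1 : aeval lam (d N) = x * aeval lam (d Q) + aeval lam Q * D x := by
    rw [hd, ← D_aeval D hL hw, ← D_aeval D hL hw, ← hxQ, Derivation.leibniz, smul_eq_mul,
      smul_eq_mul]
  have h2 : aeval lam (X ^ n * d N * Q) = aeval lam (X ^ n * N * d Q + P * Q ^ 2) := by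
    simp only [map_add, map_mul, map_pow, aeval_X]
    rw [h1, ← hP, ← hxQ]
    ring
  have h3 : X ^ n * d N * Q = X ^ n * N * d Q + P * Q ^ 2 := hinj h2
  obtain ⟨Q₁, hQ₁, hX⟩ := exists_eq_pow_rootMultiplicity_mul_and_not_dvd Q hQm.ne_zero 0
  rw [C_0, sub_zero] at hQ₁ hX
  set s := rootMultiplicity 0 Q
  have hcX : IsCoprime Q₁ (X : L[X]) :=
    ((irreducible_X.coprime_iff_not_dvd).2 hX).symm
  have h4 : Q ∣ X ^ n * N * d Q := ⟨X ^ n * d N - P * Q, by linear_combination -h3⟩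
  have h5 : Q ∣ X ^ n * d Q := by
    have h6 : Q ∣ N * (X ^ n * d Q) := by
      have h7 : N * (X ^ n * d Q) = X ^ n * N * d Q := by ring
      rw [h7]
      exact h4
    exact hcop.symm.dvd_of_dvd_mul_left h6
  have h6 : Q₁ ∣ Q := ⟨X ^ s, by rw [mul_comm]; exact hQ₁⟩
  have h7 : Q₁ ∣ d Q := (hcX.pow_right).dvd_of_dvd_mul_left (h6.trans h5)
  have h8 : d Q = d (X ^ s) * Q₁ + X ^ s * d Q₁ := by
    have h9 := dx_mul (resD D L hL) (C h * X) (X ^ s) Q₁
    rw [← hQ₁] at h9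
    exact h9
  have h9 : Q₁ ∣ X ^ s * d Q₁ := by
    rw [h8] at h7
    exact (dvd_add_right (dvd_mul_left _ _)).1 h7
  have h10 : Q₁ ∣ d Q₁ := (hcX.pow_right).dvd_of_dvd_mul_left h9
  have hQ₁m : Q₁.Monic := Monic.of_mul_monic_left (monic_X_pow s) (hQ₁ ▸ hQm)
  have h11 : Q₁.coeff 0 ≠ 0 := fun h12 => hX (X_dvd_iff.2 h12)
  have h12 := isx_dvd (resD D L hL) h (isx_H D hL h H) hQ₁m h10 h11
  have h13 : Q₁ = 1 := hQ₁m.natDegree_eq_zero.1 h12
  refine ⟨s, N, ?_⟩
  rw [← hxQ, hQ₁, h13, mul_one, map_pow, aeval_X]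

end Pool.Agent.Lib.MP_3550b5_nt.SV
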