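import Mathlib
import Pool.Agent.Lib.MP_3550b5_nt.SV.IOst
import Pool.Agent.Lib.MP_3550b5_nt.SV.ISetX

/-!
Project SV, part I: the set-up of THEOREM I, the fields `K0 = k(c)` and `L = K0(lam)`.
-/

namespace Pool.Agent.Lib.MP_3550b5_nt.SV

open Polynomial

variable {E : Type*} [Field E] [CharZero E]

/-- The set-up: `c' = k1 c^2 + 2 g1 c - a3` (`a3 = k1 a / 3`), `lam' = (k1 c + g1) lam`. -/
structure ISetup (D : Derivation ℤ E E) (K k : Subfield E) (r : ℕ) (k1 g1 a3 c lam : E)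
    (τ : Fin r → E) : Prop where
  K_le : K ≤ k
  const : ∀ x, D x = 0 ↔ x ∈ K
  cl : Cl D k
  k1_mem : k1 ∈ k
  g1_mem : g1 ∈ k
  a3_mem : a3 ∈ k
  τ_mem : ∀ i, τ i ∈ k
  k1_ne : k1 ≠ 0
  c_D : D c = k1 * c ^ 2 + 2 * g1 * c - a3
  lam_ne : lam ≠ 0
  lam_D : D lam = (k1 * c + g1) * lam
  dbx : ∀ h : Cl D k, NoDbx (resD D k h) (C (⟨k1, k1_mem⟩ : k) * X ^ 2 +
    C (2 * (⟨g1, g1_mem⟩ : k)) * X - C (⟨a3, a3_mem⟩ : k))
  ml : ∀ κ : Fin r → E, (∀ i, κ i ∈ K) → ∀ z ∈ k, ∀ Ph ∈ k, D z = -g1 * z - k1 * Ph →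
    D Ph = g1 * Ph - a3 * z + ∑ i, κ i * τ i → κ = 0

variable {D : Derivation ℤ E E} {K k : Subfield E} {r : ℕ} {k1 g1 a3 c lam : E} {τ : Fin r → E}

/-- The polynomial of the equation of `c`. -/
private noncomputable def ricP (k : Subfield E) (K1 G1 A3 : k) : k[X] :=
  C K1 * X ^ 2 + C (2 * G1) * X - C A3

omit [CharZero E] in
private lemma iset_hw (h : ISetup D K k r k1 g1 a3 c lam τ) :
    D c = aeval c (ricP k ⟨k1, h.k1_mem⟩ ⟨g1, h.g1_mem⟩ ⟨a3, h.a3_mem⟩) := by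
  rw [h.c_D, ricP, map_sub, map_add, map_mul, map_mul, map_pow, aeval_X, aeval_C, aeval_C,
    aeval_C]
  rfl

omit [CharZero E] in
private lemma iset_coeff_zero {k : Subfield E} (d : Derivation ℤ k k) (K1 G1 A3 : k) (G : k[X]) :
    (dx d (ricP k K1 G1 A3) G).coeff 0 = d (G.coeff 0) - A3 * G.coeff 1 := by
  rw [dx, coeff_add, coeff_cw, ricP, sub_mul, add_mul, coeff_sub, coeff_add, mul_assoc, mul_assoc,
    coeff_C_mul, coeff_C_mul, coeff_C_mul, mul_coeff_zero (X ^ 2), mul_coeff_zero X, coeff_derivative,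
    coeff_X_zero, zero_mul, mul_zero, coeff_X_pow, if_neg (by norm_num), zero_mul, mul_zero,
    Nat.cast_zero, zero_add, zero_add]
  ring

omit [CharZero E] in
private lemma iset_coeff_succ {k : Subfield E} (d : Derivation ℤ k k) (K1 G1 A3 : k) (G : k[X])
    (j : ℕ) : (dx d (ricP k K1 G1 A3) G).coeff (j + 1) = d (G.coeff (j + 1)) +
      K1 * (j * G.coeff j) + 2 * G1 * ((j + 1) * G.coeff (j + 1)) -
        A3 * ((j + 2) * G.coeff (j + 2)) := by
  have h1 : (X ^ 2 * derivative G).coeff (j + 1) = j * G.coeff j := by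
    rcases j with _ | j
    · rw [pow_two, mul_assoc, coeff_X_mul, mul_coeff_zero, coeff_X_zero, zero_mul, Nat.cast_zero,
        zero_mul]
    · rw [coeff_X_pow_mul', if_pos (by omega), coeff_derivative]
      have e1 : j + 1 + 1 - 2 = j := by omega
      rw [e1]
      push_cast
      ring
  rw [dx, coeff_add, coeff_cw, ricP, sub_mul, add_mul, coeff_sub, coeff_add, mul_assoc, mul_assoc,
    coeff_C_mul, coeff_C_mul, coeff_C_mul, h1, coeff_X_mul, coeff_derivative, coeff_derivative]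
  push_cast
  ring

/-- `c` is transcendental over `k`, `k(c)` is closed. (`transc_of_noDbx`, `adj_cl`.) -/
lemma ISetup.c_tr (h : ISetup D K k r k1 g1 a3 c lam τ) :
    Transcendental k c ∧ Cl D (adj k c) := by
  exact ⟨transc_of_noDbx D h.cl (iset_hw h) (h.dbx h.cl), adj_cl D h.cl (iset_hw h)⟩

/-- An element `x` of `k(c)` with `D x = α(c) x + β(c)`, `α, β ∈ k[X]`, is in `k[c]`.
(`poly_of_mem_adj`, `dbx`.) -/
lemma ISetup.poly (h : ISetup D K k r k1 g1 a3 c lam τ) {x : E} (hx : x ∈ adj k c)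
    {α β : k[X]} (hD : D x = aeval c α * x + aeval c β) : ∃ G : k[X], x = aeval c G := by
  exact poly_of_mem_adj D h.cl (iset_hw h) (h.dbx h.cl) hx hD

/-- (H). PROOF. Suppose `q ≠ 0`. `ISetup.poly` for `q` (`α = j (k1 X + g1)`) and for `q⁻¹`
(`D q⁻¹ = -j h q⁻¹`): `q = G(c)`, `q⁻¹ = G'(c)`, `G G' = 1` by transcendence, so `G` is a constant
`q ∈ k`, `D q = j (k1 c + g1) q`, an equation of degree `1` in `c` over `k`: `j k1 q = 0`. -/
theorem ISetup.H (h : ISetup D K k r k1 g1 a3 c lam τ) {j : ℤ} (hj : j ≠ 0) {q : E}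
    (hq : q ∈ adj k c) (hD : D q = j * (k1 * c + g1) * q) : q = 0 := by
  by_contra hq0
  have hinj := transcendental_iff_injective.1 h.c_tr.1
  have hα : ∀ i : ℤ, aeval c (C (i : k) * (C (⟨k1, h.k1_mem⟩ : k) * X + C (⟨g1, h.g1_mem⟩ : k))) =
      (i : E) * (k1 * c + g1) := by
    intro i
    rw [map_mul, map_add, map_mul, aeval_X, aeval_C, aeval_C, aeval_C, map_intCast]
    rfl
  obtain ⟨G, hG⟩ := h.poly hq (α := C (j : k) * (C (⟨k1, h.k1_mem⟩ : k) * X +
    C (⟨g1, h.g1_mem⟩ : k))) (β := 0) (by rw [hα, map_zero, add_zero, hD])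
  obtain ⟨G', hG'⟩ := h.poly (inv_mem hq) (α := C ((-j : ℤ) : k) * (C (⟨k1, h.k1_mem⟩ : k) * X +
    C (⟨g1, h.g1_mem⟩ : k))) (β := 0) (by
      rw [hα, map_zero, add_zero, Derivation.leibniz_inv, hD, smul_eq_mul]
      push_cast
      field_simp)
  have h1 : G * G' = 1 := hinj (by
    rw [map_mul, ← hG, ← hG', map_one, mul_inv_cancel₀ hq0])
  have h2 : G.natDegree = 0 := natDegree_eq_zero_of_isUnit (IsUnit.of_mul_eq_one G' h1)
  obtain ⟨a, ha⟩ := natDegree_eq_zero.1 h2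
  have hqa : q = (a : E) := by
    rw [hG, ← ha, aeval_C]
    rfl
  have ha0 : a ≠ 0 := by
    rintro rfl
    exact hq0 hqa
  have h3 : C (resD D k h.cl a) = C (j : k) * (C (⟨k1, h.k1_mem⟩ : k) * X +
      C (⟨g1, h.g1_mem⟩ : k)) * C a := hinj (by
    rw [map_mul, hα, aeval_C, aeval_C]
    change D (a : E) = _ * (a : E)
    rw [← hqa, hD])
  have h4 := congrArg (fun p : k[X] => p.coeff 1) h3
  simp only [coeff_C_mul, coeff_mul_C, coeff_add, coeff_X_one, coeff_C_succ, mul_one, add_zero]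
    at h4
  have hj' : (j : k) ≠ 0 := Int.cast_ne_zero.2 hj
  have hk1 : (⟨k1, h.k1_mem⟩ : k) ≠ 0 := fun h5 => h.k1_ne (congrArg Subtype.val h5)
  exact mul_ne_zero (mul_ne_zero hj' hk1) ha0 h4.symm

/-- (Q2). PROOF. `A = G(c)`. If `G ≠ 0` has degree `m` and leading coefficient `α`, the coefficient
of `c^(m+1)` in `D A + 2 h A` is `(m + 2) k1 α ≠ 0`, but that of `κ k1` is `0`. So `A = 0`. -/
theorem ISetup.Q2 (h : ISetup D K k r k1 g1 a3 c lam τ) {A κ : E} (hA : A ∈ adj k c)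
    (hκ : κ ∈ K) (hD : D A + 2 * (k1 * c + g1) * A = κ * k1) : κ = 0 := by
  have hinj := transcendental_iff_injective.1 h.c_tr.1
  have hα : aeval c (C (⟨k1, h.k1_mem⟩ : k) * X + C (⟨g1, h.g1_mem⟩ : k)) = k1 * c + g1 := by
    rw [map_add, map_mul, aeval_X, aeval_C, aeval_C]
    rfl
  have hβ : aeval c (C ((⟨κ, h.K_le hκ⟩ : k) * (⟨k1, h.k1_mem⟩ : k)) : k[X]) = κ * k1 := by
    rw [aeval_C]
    rfl
  obtain ⟨G, hG⟩ := h.poly hA (α := -2 * (C (⟨k1, h.k1_mem⟩ : k) * X + C (⟨g1, h.g1_mem⟩ : k)))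
    (β := C ((⟨κ, h.K_le hκ⟩ : k) * (⟨k1, h.k1_mem⟩ : k))) (by
      rw [hβ, map_mul, hα, map_neg, map_ofNat, ← hD]
      ring)
  have h1 : dx (resD D k h.cl) (ricP k ⟨k1, h.k1_mem⟩ ⟨g1, h.g1_mem⟩ ⟨a3, h.a3_mem⟩) G +
      2 * (C (⟨k1, h.k1_mem⟩ : k) * X + C (⟨g1, h.g1_mem⟩ : k)) * G =
        C ((⟨κ, h.K_le hκ⟩ : k) * (⟨k1, h.k1_mem⟩ : k)) := hinj (by
    rw [map_add, ← D_aeval D h.cl (iset_hw h), map_mul, map_mul, hα, hβ, ← hG, map_ofNat, hD])
  have hk1 : (⟨k1, h.k1_mem⟩ : k) ≠ 0 := fun h5 => h.k1_ne (congrArg Subtype.val h5)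
  have hG0 : G = 0 := by
    by_contra hne
    have h2 := congrArg (fun p : k[X] => p.coeff (G.natDegree + 1)) h1
    have h3 : (2 * (C (⟨k1, h.k1_mem⟩ : k) * X + C (⟨g1, h.g1_mem⟩ : k)) * G).coeff
        (G.natDegree + 1) = 2 * (⟨k1, h.k1_mem⟩ : k) * G.coeff G.natDegree +
          2 * (⟨g1, h.g1_mem⟩ : k) * G.coeff (G.natDegree + 1) := by
      have e1 : 2 * (C (⟨k1, h.k1_mem⟩ : k) * X + C (⟨g1, h.g1_mem⟩ : k)) * G =
          C (2 * (⟨k1, h.k1_mem⟩ : k)) * (X * G) + C (2 * (⟨g1, h.g1_mem⟩ : k)) * G := by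
        rw [C_mul, C_mul, C_ofNat]
        ring
      rw [e1, coeff_add, coeff_C_mul, coeff_C_mul, coeff_X_mul]
    change (dx (resD D k h.cl) (ricP k ⟨k1, h.k1_mem⟩ ⟨g1, h.g1_mem⟩ ⟨a3, h.a3_mem⟩) G +
      2 * (C (⟨k1, h.k1_mem⟩ : k) * X + C (⟨g1, h.g1_mem⟩ : k)) * G).coeff (G.natDegree + 1) =
        (C ((⟨κ, h.K_le hκ⟩ : k) * (⟨k1, h.k1_mem⟩ : k)) : k[X]).coeff (G.natDegree + 1) at h2
    rw [coeff_add, h3, iset_coeff_succ, coeff_C_succ,
      coeff_eq_zero_of_natDegree_lt (Nat.lt_succ_self _),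
      coeff_eq_zero_of_natDegree_lt (show G.natDegree < G.natDegree + 2 by omega), map_zero] at h2
    have h4 : ((G.natDegree : k) + 2) * ((⟨k1, h.k1_mem⟩ : k) * G.coeff G.natDegree) = 0 := by
      linear_combination h2
    have h5 : G.coeff G.natDegree ≠ 0 := leadingCoeff_ne_zero.2 hne
    have h6 : ((G.natDegree : k) + 2) ≠ 0 := by
      have : ((G.natDegree + 2 : ℕ) : k) ≠ 0 := Nat.cast_ne_zero.2 (by omega)
      push_cast at this
      exact this
    exact mul_ne_zero h6 (mul_ne_zero hk1 h5) h4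
  rw [hG0, map_zero] at hG
  rw [hG, map_zero, mul_zero, add_zero] at hD
  exact (mul_eq_zero.1 hD.symm).resolve_right h.k1_ne

/-- (ML). PROOF. `R = G(c)`, of degree `m`, leading coefficient `α`; the coefficient of `c^(m+1)`
of `D R - h R` is `(m - 1) k1 α`. So `G = 0` or `m = 1` (`m = 0` gives `-k1 α = 0`). Write
`R = α c + β`. The coefficients of `c` and `1` give
`D α = -g1 α + k1 β`, `D β = g1 β + a3 α + ∑ κ i τ i`; apply `ml` to `z = -α`, `Ph = β`. -/
theorem ISetup.ML (h : ISetup D K k r k1 g1 a3 c lam τ) {R : E} (hR : R ∈ adj k c)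
    {κ : Fin r → E} (hκ : ∀ i, κ i ∈ K)
    (hD : D R = (k1 * c + g1) * R + ∑ i, κ i * τ i) : κ = 0 := by
  have hinj := transcendental_iff_injective.1 h.c_tr.1
  have hα : aeval c (C (⟨k1, h.k1_mem⟩ : k) * X + C (⟨g1, h.g1_mem⟩ : k)) = k1 * c + g1 := by
    rw [map_add, map_mul, aeval_X, aeval_C, aeval_C]
    rfl
  have hs : ∑ i, κ i * τ i ∈ k := Subfield.sum_mem _ fun i _ =>
    mul_mem (h.K_le (hκ i)) (h.τ_mem i)
  have hβ : aeval c (C (⟨∑ i, κ i * τ i, hs⟩ : k) : k[X]) = ∑ i, κ i * τ i := by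
    rw [aeval_C]
    rfl
  obtain ⟨G, hG⟩ := h.poly hR (α := C (⟨k1, h.k1_mem⟩ : k) * X + C (⟨g1, h.g1_mem⟩ : k))
    (β := C (⟨∑ i, κ i * τ i, hs⟩ : k)) (by rw [hβ, hα, hD])
  have h1 : dx (resD D k h.cl) (ricP k ⟨k1, h.k1_mem⟩ ⟨g1, h.g1_mem⟩ ⟨a3, h.a3_mem⟩) G =
      (C (⟨k1, h.k1_mem⟩ : k) * X + C (⟨g1, h.g1_mem⟩ : k)) * G +
        C (⟨∑ i, κ i * τ i, hs⟩ : k) := hinj (by
    rw [← D_aeval D h.cl (iset_hw h), map_add, map_mul, hα, hβ, ← hG, hD])
  have hc0 : ((C (⟨k1, h.k1_mem⟩ : k) * X + C (⟨g1, h.g1_mem⟩ : k)) * G +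
        C (⟨∑ i, κ i * τ i, hs⟩ : k)).coeff 0 =
      (⟨g1, h.g1_mem⟩ : k) * G.coeff 0 + (⟨∑ i, κ i * τ i, hs⟩ : k) := by
    rw [coeff_add, add_mul, coeff_add, mul_assoc, coeff_C_mul, coeff_C_mul, mul_coeff_zero X,
      coeff_X_zero, zero_mul, mul_zero, zero_add, coeff_C_zero]
  have hcs : ∀ j, ((C (⟨k1, h.k1_mem⟩ : k) * X + C (⟨g1, h.g1_mem⟩ : k)) * G +
        C (⟨∑ i, κ i * τ i, hs⟩ : k)).coeff (j + 1) =
      (⟨k1, h.k1_mem⟩ : k) * G.coeff j + (⟨g1, h.g1_mem⟩ : k) * G.coeff (j + 1) := by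
    intro j
    rw [coeff_add, add_mul, coeff_add, mul_assoc, coeff_C_mul, coeff_C_mul, coeff_X_mul,
      coeff_C_succ, add_zero]
  have hk1 : (⟨k1, h.k1_mem⟩ : k) ≠ 0 := fun h5 => h.k1_ne (congrArg Subtype.val h5)
  have hdeg : G.natDegree ≤ 1 := by
    by_contra hne
    rw [not_le] at hne
    have h2 := congrArg (fun p : k[X] => p.coeff (G.natDegree + 1)) h1
    change (dx (resD D k h.cl) (ricP k ⟨k1, h.k1_mem⟩ ⟨g1, h.g1_mem⟩ ⟨a3, h.a3_mem⟩) G).coeff
      (G.natDegree + 1) = ((C (⟨k1, h.k1_mem⟩ : k) * X + C (⟨g1, h.g1_mem⟩ : k)) * G +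
        C (⟨∑ i, κ i * τ i, hs⟩ : k)).coeff (G.natDegree + 1) at h2
    rw [hcs, iset_coeff_succ, coeff_eq_zero_of_natDegree_lt (Nat.lt_succ_self _),
      coeff_eq_zero_of_natDegree_lt (show G.natDegree < G.natDegree + 2 by omega), map_zero] at h2
    have h4 : ((G.natDegree : k) - 1) * ((⟨k1, h.k1_mem⟩ : k) * G.coeff G.natDegree) = 0 := by
      linear_combination h2
    have hG0 : G ≠ 0 := by
      rintro rfl
      rw [natDegree_zero] at hne
      omega
    have h5 : G.coeff G.natDegree ≠ 0 := leadingCoeff_ne_zero.2 hG0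
    have h6 : ((G.natDegree : k) - 1) ≠ 0 := by
      rw [sub_ne_zero]
      intro h7
      have h8 : ((G.natDegree : ℕ) : k) = ((1 : ℕ) : k) := by rw [h7, Nat.cast_one]
      have := Nat.cast_injective h8
      omega
    exact mul_ne_zero h6 (mul_ne_zero hk1 h5) h4
  have hG2 : G.coeff 2 = 0 := coeff_eq_zero_of_natDegree_lt (by omega)
  have e0 := congrArg (fun p : k[X] => p.coeff 0) h1
  have e1 := congrArg (fun p : k[X] => p.coeff 1) h1
  change (dx (resD D k h.cl) (ricP k ⟨k1, h.k1_mem⟩ ⟨g1, h.g1_mem⟩ ⟨a3, h.a3_mem⟩) G).coeff 0 =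
    ((C (⟨k1, h.k1_mem⟩ : k) * X + C (⟨g1, h.g1_mem⟩ : k)) * G +
        C (⟨∑ i, κ i * τ i, hs⟩ : k)).coeff 0 at e0
  change (dx (resD D k h.cl) (ricP k ⟨k1, h.k1_mem⟩ ⟨g1, h.g1_mem⟩ ⟨a3, h.a3_mem⟩) G).coeff
    (0 + 1) = ((C (⟨k1, h.k1_mem⟩ : k) * X + C (⟨g1, h.g1_mem⟩ : k)) * G +
        C (⟨∑ i, κ i * τ i, hs⟩ : k)).coeff (0 + 1) at e1
  rw [hc0, iset_coeff_zero] at e0
  rw [hcs, iset_coeff_succ, zero_add, zero_add, hG2] at e1
  have f0 : D ((G.coeff 0 : k) : E) - a3 * ((G.coeff 1 : k) : E) =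
      g1 * ((G.coeff 0 : k) : E) + ∑ i, κ i * τ i := congrArg Subtype.val e0
  have f1 : D ((G.coeff 1 : k) : E) + k1 * (((0 : ℕ) : E) * ((G.coeff 0 : k) : E)) +
      2 * g1 * ((((0 : ℕ) : E) + 1) * ((G.coeff 1 : k) : E)) - a3 * ((((0 : ℕ) : E) + 2) * 0) =
      k1 * ((G.coeff 0 : k) : E) + g1 * ((G.coeff 1 : k) : E) := congrArg Subtype.val e1
  rw [Nat.cast_zero] at f1
  refine h.ml κ hκ (-((G.coeff 1 : k) : E)) (neg_mem (G.coeff 1).2) ((G.coeff 0 : k) : E)
    (G.coeff 0).2 ?_ ?_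
  · rw [map_neg]
    linear_combination -f1
  · linear_combination f0

/-- `lam` is transcendental over `K0 = k(c)`. PROOF. Otherwise let `Q` be its minimal polynomial
over `K0`, of degree `m ≥ 1`, constant coefficient `q₀ ≠ 0` (as `lam ≠ 0` and `Q` is irreducible).
With `P = C h * X`: `aeval lam (dx .. P Q) = 0`, and `dx .. P Q - m h Q` has degree `< m`, so it is
`0`; its constant coefficient: `D q₀ = m h q₀`, against (H). -/
theorem ISetup.lam_tr (h : ISetup D K k r k1 g1 a3 c lam τ) : Transcendental (adj k c) lam :=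
  isx_tr D h.c_tr.2 ⟨k1 * c + g1, add_mem (mul_mem (le_adj k c h.k1_mem) (mem_adj_self k c))
    (le_adj k c h.g1_mem)⟩ h.lam_ne h.lam_D fun _ hj _ hq hD => h.H hj hq hD

/-- Elements of `K0(lam)` whose derivative is a Laurent polynomial in `lam` are Laurent polynomials.
PROOF. `x = N(lam)/Q(lam)`, coprime, `Q` monic, `Q = X^s Q1`, `X ∤ Q1`. `P = C h * X`. From
`D x lam^n = P'(lam)` and transcendence: `X^n (dx N Q - N dx Q) = P' Q^2` in `K0[X]`, so
`Q ∣ X^n N dx Q`, `Q1 ∣ dx Q = s h X^s Q1 + X^s dx Q1`, `Q1 ∣ dx Q1`; degrees: `dx Q1 = m h Q1`,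
`m = deg Q1`; the constant coefficient `q₀ ≠ 0` of `Q1` satisfies `D q₀ = m h q₀`, so `m = 0` by
(H), `Q = X^s`. -/
theorem ISetup.laurent (h : ISetup D K k r k1 g1 a3 c lam τ) {x : E}
    (hx : x ∈ adj (adj k c) lam)
    (hD : ∃ (n : ℕ) (P : (adj k c)[X]), D x * lam ^ n = aeval lam P) :
    ∃ (n : ℕ) (P : (adj k c)[X]), x * lam ^ n = aeval lam P :=
  isx_laurent D h.c_tr.2 ⟨k1 * c + g1, add_mem (mul_mem (le_adj k c h.k1_mem) (mem_adj_self k c))
    (le_adj k c h.g1_mem)⟩ h.lam_ne h.lam_D (fun _ hj _ hq hD => h.H hj hq hD) hx hD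

private lemma ISet_coeff_X_mul {R : Type*} [CommRing R] (Q : R[X]) (j : ℕ) :
    (X * derivative Q).coeff j = j * Q.coeff j := by
  cases j with
  | zero => rw [coeff_X_mul_zero, Nat.cast_zero, zero_mul]
  | succ j =>
    rw [coeff_X_mul, coeff_derivative]
    push_cast
    ring

/-- (Ind). PROOF. `laurent`: `x lam^n = P(lam)`, and we may take `n ≥ 1` (multiply by `lam`). With
`p_j` the coefficients of `P`: `D x lam^n = ∑ (D p_j + (j - n) h p_j) lam^j`
`= q k1 lam^(n+2) + (∑ κ i τ i) lam^(n-1)`. Coefficient of `lam^(n+2)`: (Q2) gives `q = 0`;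
coefficient of `lam^(n-1)`: `D p = h p + ∑ κ i τ i` with `p = p_(n-1)`, (ML) gives `κ = 0`. -/
theorem ISetup.ind (h : ISetup D K k r k1 g1 a3 c lam τ) {q : E} {κ : Fin r → E}
    (hq : q ∈ K) (hκ : ∀ i, κ i ∈ K)
    (hx : ∃ x ∈ adj (adj k c) lam, D x = q * (k1 * lam ^ 2) + ∑ i, κ i * (τ i / lam)) :
    q = 0 ∧ κ = 0 := by
  obtain ⟨x, hxL, hxD⟩ := hx
  have hcl := h.c_tr.2
  have hle := le_adj k c
  have hhh : k1 * c + g1 ∈ adj k c :=
    add_mem (mul_mem (hle h.k1_mem) (mem_adj_self k c)) (hle h.g1_mem)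
  have hqk : q * k1 ∈ adj k c := mul_mem (hle (h.K_le hq)) (hle h.k1_mem)
  have hS : ∑ i, κ i * τ i ∈ adj k c :=
    sum_mem fun i _ => mul_mem (hle (h.K_le (hκ i))) (hle (h.τ_mem i))
  have hsum : (∑ i, κ i * (τ i / lam)) * lam = ∑ i, κ i * τ i := by
    rw [Finset.sum_mul]
    refine Finset.sum_congr rfl fun i _ => ?_
    rw [mul_assoc, div_mul_cancel₀ _ h.lam_ne]
  obtain ⟨n, P, hP⟩ := h.laurent hxL ⟨1, C (⟨q * k1, hqk⟩ : adj k c) * X ^ 3 +
    C (⟨∑ i, κ i * τ i, hS⟩ : adj k c), by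
      rw [hxD, pow_one, add_mul, hsum, map_add, map_mul, aeval_C, aeval_C, map_pow, aeval_X]
      change q * (k1 * lam ^ 2) * lam + _ = q * k1 * lam ^ 3 + _
      rw [show q * (k1 * lam ^ 2) * lam = q * k1 * lam ^ 3 by ring]
      rfl⟩
  have hw : D lam = aeval lam (C (⟨k1 * c + g1, hhh⟩ : adj k c) * X) := by
    rw [h.lam_D, map_mul, aeval_C, aeval_X]
    rfl
  have hP1 : x * lam ^ (n + 1) = aeval lam (P * X) := by
    rw [map_mul, aeval_X, ← hP, pow_succ, mul_assoc]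
  have hD1 := D_aeval D hcl hw (P * X)
  have hlp : D (lam ^ (n + 1)) = (n + 1) * (k1 * c + g1) * lam ^ (n + 1) := by
    rw [Derivation.leibniz_pow, h.lam_D]
    simp only [Nat.add_sub_cancel, smul_eq_mul, nsmul_eq_mul]
    push_cast
    ring
  have key : dx (resD D (adj k c) hcl) (C (⟨k1 * c + g1, hhh⟩ : adj k c) * X) (P * X) =
      C (⟨q * k1, hqk⟩ : adj k c) * X ^ (n + 3) + C (⟨∑ i, κ i * τ i, hS⟩ : adj k c) * X ^ n +
        C ((n + 1) * (⟨k1 * c + g1, hhh⟩ : adj k c)) * (P * X) := by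
    refine transcendental_iff_injective.1 h.lam_tr ?_
    rw [← hD1, ← hP1, Derivation.leibniz, hxD, hlp, smul_eq_mul, smul_eq_mul, map_add, map_add,
      map_mul, map_mul, map_mul (aeval lam) (C _) (P * X), ← hP1, aeval_C, aeval_C, aeval_C,
      map_pow, map_pow, aeval_X]
    change x * ((n + 1) * (k1 * c + g1) * lam ^ (n + 1)) +
      lam ^ (n + 1) * (q * (k1 * lam ^ 2) + ∑ i, κ i * (τ i / lam)) =
      q * k1 * lam ^ (n + 3) + (∑ i, κ i * τ i) * lam ^ n +
        ((((n + 1) * (⟨k1 * c + g1, hhh⟩ : adj k c) : adj k c) : E)) * (x * lam ^ (n + 1))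
    rw [← hsum]
    push_cast
    ring
  have hco : ∀ j : ℕ, D (((P * X).coeff j : adj k c) : E) +
      (k1 * c + g1) * (j * (((P * X).coeff j : adj k c) : E)) =
      (if j = n + 3 then q * k1 else 0) + (if j = n then ∑ i, κ i * τ i else 0) +
        (n + 1) * (k1 * c + g1) * (((P * X).coeff j : adj k c) : E) := by
    intro j
    have h1 := congrArg (fun Q => ((Q.coeff j : adj k c) : E)) key
    simp only [dx, coeff_add, coeff_cw, coeff_C_mul, coeff_X_pow, mul_assoc,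
      ISet_coeff_X_mul] at h1
    push_cast at h1
    rw [resD_coe] at h1
    split_ifs at h1 ⊢ <;> push_cast at h1 <;> linear_combination h1
  have hq0 : q = 0 := by
    have h1 := hco (n + 3)
    rw [if_pos rfl, if_neg (by omega)] at h1
    refine h.Q2 (A := (((P * X).coeff (n + 3) : adj k c) : E)) (SetLike.coe_mem _) hq ?_
    push_cast at h1
    linear_combination h1
  refine ⟨hq0, ?_⟩
  have h1 := hco n
  rw [if_neg (by omega), if_pos rfl] at h1
  refine h.ML (R := (((P * X).coeff n : adj k c) : E)) (SetLike.coe_mem _) hκ ?_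
  linear_combination h1

/-- The pairs `(i, j)` with `i ≤ j`. -/
abbrev Pr (r : ℕ) : Type := {e : Fin r × Fin r // e.1 ≤ e.2}

/-- `τ_i` for the pair `(i, i)`, `τ_i - τ_j` for `(i, j)`, `i < j`. -/
def prs {r : ℕ} {M : Type*} [AddCommGroup M] (τ : Fin r → M) (e : Pr r) : M :=
  if e.1.1 = e.1.2 then τ e.1.1 else τ e.1.1 - τ e.1.2

private lemma ISet_prs_add {M : Type*} [AddCommGroup M] (v w : Fin r → M) (e : Pr r) :
    prs (v + w) e = prs v e + prs w e := by
  unfold prs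
  split_ifs
  · rfl
  · simp only [Pi.add_apply]
    abel

/-- The forms `X_i^2`, `(X_i - X_j)^2` (`i < j`) are linearly independent. PROOF. The coefficient of
`X_i X_j`, `i < j`, is `-2 x_(i,j)`, so these vanish; then that of `X_i^2`. -/
lemma prs_sq_indep {K : Type*} [Field K] [CharZero K] {r : ℕ} (x : Pr r → K)
    (h : ∑ e, MvPolynomial.C (x e) * prs (fun i => (MvPolynomial.X i : MvPolynomial (Fin r) K)) e ^ 2
      = 0) : x = 0 := by
  have h1 : ∀ v : Fin r → K, ∑ e, x e * prs v e ^ 2 = 0 := by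
    intro v
    have h2 := congrArg (MvPolynomial.eval v) h
    rw [map_sum, map_zero] at h2
    rw [← h2]
    refine Finset.sum_congr rfl fun e _ => ?_
    rw [map_mul, MvPolynomial.eval_C, map_pow]
    congr 2
    unfold prs
    split_ifs
    · rw [MvPolynomial.eval_X]
    · rw [map_sub, MvPolynomial.eval_X, MvPolynomial.eval_X]
  have h2 : ∀ v w : Fin r → K, ∑ e, x e * (prs v e * prs w e) = 0 := by
    intro v w
    have h3 := h1 (v + w)
    have h4 : ∑ e, x e * prs (v + w) e ^ 2 =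
        ∑ e, x e * prs v e ^ 2 + ∑ e, x e * prs w e ^ 2 + 2 * ∑ e, x e * (prs v e * prs w e) := by
      rw [Finset.mul_sum, ← Finset.sum_add_distrib, ← Finset.sum_add_distrib]
      refine Finset.sum_congr rfl fun e _ => ?_
      rw [ISet_prs_add]
      ring
    rw [h4, h1, h1, add_zero, zero_add] at h3
    exact (mul_eq_zero.1 h3).resolve_left two_ne_zero
  have h3 : ∀ e : Pr r, e.1.1 ≠ e.1.2 → x e = 0 := by
    intro e he
    have hlt : e.1.1 < e.1.2 := lt_of_le_of_ne e.2 he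
    have h4 := h2 (Pi.single e.1.1 1) (Pi.single e.1.2 1)
    rw [Finset.sum_eq_single e] at h4
    · have h5 : prs (Pi.single e.1.1 (1 : K)) e = 1 := by
        unfold prs
        rw [if_neg he, Pi.single_eq_same, Pi.single_eq_of_ne he.symm, sub_zero]
      have h6 : prs (Pi.single e.1.2 (1 : K)) e = -1 := by
        unfold prs
        rw [if_neg he, Pi.single_eq_same, Pi.single_eq_of_ne he, zero_sub]
      rw [h5, h6] at h4
      simpa using h4
    · intro f _ hfe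
      have h5 : prs (Pi.single e.1.1 (1 : K)) f * prs (Pi.single e.1.2 (1 : K)) f = 0 := by
        have hf := f.2
        have h7 : ¬ (f.1.1 = e.1.1 ∧ f.1.2 = e.1.2) := fun h8 =>
          hfe (Subtype.ext (Prod.ext h8.1 h8.2))
        unfold prs
        simp only [Pi.single_apply]
        by_cases ha : f.1.1 = e.1.1
        · have hb : f.1.2 ≠ e.1.2 := fun hb => h7 ⟨ha, hb⟩
          have hc : f.1.1 ≠ e.1.2 := by
            rw [ha]
            exact he
          rw [if_neg hb, if_neg hc]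
          simp
        · by_cases hb : f.1.2 = e.1.1
          · have hc : f.1.2 ≠ e.1.2 := by
              rw [hb]
              exact he
            have hd : f.1.1 ≠ e.1.2 := by
              rintro hd
              rw [hd, hb] at hf
              exact absurd hlt (not_lt.2 hf)
            rw [if_neg hc, if_neg hd]
            simp
          · rw [if_neg ha, if_neg hb]
            simp
      rw [h5, mul_zero]
    · intro h5
      exact absurd (Finset.mem_univ e) h5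
  funext e
  by_cases he : e.1.1 = e.1.2
  · have h4 := h2 (Pi.single e.1.1 1) (Pi.single e.1.1 1)
    rw [Finset.sum_eq_single e] at h4
    · have h5 : prs (Pi.single e.1.1 (1 : K)) e = 1 := by
        unfold prs
        rw [if_pos he, Pi.single_eq_same]
      rw [h5, mul_one, mul_one] at h4
      exact h4
    · intro f _ hfe
      by_cases hf : f.1.1 = f.1.2
      · have h5 : prs (Pi.single e.1.1 (1 : K)) f = 0 := by
          unfold prs
          rw [if_pos hf, Pi.single_eq_of_ne]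
          intro h6
          exact hfe (Subtype.ext (Prod.ext h6 (by rw [← hf, h6, he])))
        rw [h5, zero_mul, mul_zero]
      · rw [h3 f hf, zero_mul]
    · intro h5
      exact absurd (Finset.mem_univ e) h5
  · exact h3 e he

omit [CharZero E] in
private lemma iset_aeval_incl {K L : Subfield E} (hKL : K ≤ L) {ι : Type*} (w : ι → E)
    (q : MvPolynomial ι K) :
    MvPolynomial.aeval w (MvPolynomial.map (Subfield.inclusion hKL) q) = MvPolynomial.aeval w q := by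
  rw [MvPolynomial.aeval_def, MvPolynomial.aeval_def, MvPolynomial.eval₂_map]
  rfl

omit [CharZero E] in
private lemma iset_algInd_res {K L : Subfield E} (hKL : K ≤ L) {ι : Type*} {w : ι → E}
    (h : AlgebraicIndependent L w) : AlgebraicIndependent K w := by
  rw [algebraicIndependent_iff] at h ⊢
  intro p hp
  have h1 := h (MvPolynomial.map (Subfield.inclusion hKL) p) (by rw [iset_aeval_incl, hp])
  have h2 : Function.Injective (Subfield.inclusion hKL) := (Subfield.inclusion hKL).injective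
  exact MvPolynomial.map_injective _ h2 (by rw [h1, map_zero])

omit [CharZero E] in
private lemma iset_le_adjn (L : Subfield E) {n : ℕ} (F : Fin n → E) : L ≤ adjn L F :=
  fun _ hx => Subfield.subset_closure (Or.inl hx)

omit [CharZero E] in
private lemma iset_mem_adjn (L : Subfield E) {n : ℕ} (F : Fin n → E) (i : Fin n) :
    F i ∈ adjn L F := Subfield.subset_closure (Or.inr ⟨i, rfl⟩)

omit [CharZero E] in
private lemma iset_adjn_cl {L : Subfield E} (hL : Cl D L) {n : ℕ} {F : Fin n → E}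
    (hF : ∀ i, D (F i) ∈ L) : Cl D (adjn L F) := by
  intro x hx
  induction hx using Subfield.closure_induction with
  | mem x hx =>
    rcases hx with hx | ⟨i, rfl⟩
    · exact iset_le_adjn L F (hL x hx)
    · exact iset_le_adjn L F (hF i)
  | one =>
    rw [D.map_one_eq_zero]
    exact zero_mem _
  | add x y _ _ hx hy =>
    rw [map_add]
    exact add_mem hx hy
  | neg x _ hx =>
    rw [map_neg]
    exact neg_mem hx
  | inv x hx' hx =>
    rw [Derivation.leibniz_inv, smul_eq_mul]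
    exact mul_mem (neg_mem (pow_mem (inv_mem hx') 2)) hx
  | mul x y hx' hy' hx hy =>
    rw [Derivation.leibniz, smul_eq_mul, smul_eq_mul]
    exact add_mem (mul_mem hx' hy) (mul_mem hy' hx)

omit [CharZero E] in
private lemma iset_D_prs (w : Fin r → E) (e : Pr r) : D (prs w e) = prs (fun i => D (w i)) e := by
  unfold prs
  split_ifs
  · rfl
  · rw [map_sub]

omit [CharZero E] in
private lemma iset_prs_div (τ : Fin r → E) (l : E) (e : Pr r) :
    prs (fun i => τ i / l) e = prs τ e / l := by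
  unfold prs
  split_ifs
  · rfl
  · rw [sub_div]

private lemma iset_aeval_prs {R A : Type*} [CommRing R] [CommRing A] [Algebra R A] (w : Fin r → A)
    (e : Pr r) : MvPolynomial.aeval w (prs (fun i => (MvPolynomial.X i : MvPolynomial (Fin r) R)) e) =
      prs w e := by
  unfold prs
  split_ifs
  · rw [MvPolynomial.aeval_X]
  · rw [map_sub, MvPolynomial.aeval_X, MvPolynomial.aeval_X]

private lemma iset_prs_hom {R : Type*} [CommRing R] (e : Pr r) :
    (prs (fun i => (MvPolynomial.X i : MvPolynomial (Fin r) R)) e).IsHomogeneous 1 := by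
  unfold prs
  split_ifs
  · exact MvPolynomial.isHomogeneous_X _ _
  · exact (MvPolynomial.isHomogeneous_X _ _).sub (MvPolynomial.isHomogeneous_X _ _)

omit [CharZero E] in
private lemma iset_prs_mem {L : Subfield E} {w : Fin r → E} (hw : ∀ i, w i ∈ L) (e : Pr r) :
    prs w e ∈ L := by
  unfold prs
  split_ifs
  · exact hw _
  · exact sub_mem (hw _) (hw _)

/-- THEOREM I. PROOF. `L = adj (adj k c) lam` is closed (`adj_cl`, `D lam = aeval lam (C h * X)`).
`w i = W (i,i) / lam`, `D (w i) = τ i / lam ∈ L`. `ind` with `q = 0` and `ostrowski_A`: `w` is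
algebraically independent over `L`. For `e = (i, j)`, `i < j`: `D (W e / lam) = (τ i - τ j)/lam`, so
`W e / lam = w i - w j + u e` with `u e ∈ K` (`const`); put `u e = 0` for `i = j`. So
`D (Λ e) = -(1/2) (k1 lam^2) (prs w e + u e)^2 + ρ e`. Let `L1 = adjn L w`, closed under `D`.
`ostrowski_fintype` for `Λ` over `L1`: suppose `x ∈ L1`, `D x = ∑ κ e * D (Λ e)`, `κ e ∈ K`. This is
a polynomial in `w` over `L`: `ostrowski_B`: `x = aeval w G`, and with `e = k1 lam^2`,
`q = -(1/2) ∑ κ e (prs X e)^2` (over `K`, homogeneous of degree `2`) and `H` of degree `≤ 1`,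
`no_quad` gives `q = 0`, `prs_sq_indep`: `κ = 0`. So `Λ` is algebraically independent over `L1`,
hence over `K ≤ L1` (restrict scalars: `AlgebraicIndependent.restrictScalars`, or a relation over
`K` is a relation over `L1`). -/
theorem ISetup.main (h : ISetup D K k r k1 g1 a3 c lam τ) {W Λ ρ : Pr r → E}
    (hW : ∀ e, D (W e) = (k1 * c + g1) * W e + prs τ e) (hρ : ∀ e, ρ e ∈ k)
    (hΛ : ∀ e, D (Λ e) = -(k1 * W e ^ 2 / 2) + ρ e) : AlgebraicIndependent K Λ := by
  classical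
  -- the field `L = k(c, lam)`
  have hh0 : k1 * c + g1 ∈ adj k c :=
    add_mem (mul_mem (le_adj k c h.k1_mem) (mem_adj_self k c)) (le_adj k c h.g1_mem)
  have hlD : D lam = aeval lam (C (⟨k1 * c + g1, hh0⟩ : adj k c) * X) := by
    rw [map_mul, aeval_C, aeval_X, h.lam_D]
    rfl
  obtain ⟨L, hLdef⟩ : ∃ L : Subfield E, L = adj (adj k c) lam := ⟨_, rfl⟩
  have hLcl : Cl D L := by
    rw [hLdef]
    exact adj_cl D h.c_tr.2 hlD
  have hkL : k ≤ L := by
    rw [hLdef]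
    exact (le_adj k c).trans (le_adj _ lam)
  have hKL : K ≤ L := h.K_le.trans hkL
  have hlam : lam ∈ L := by
    rw [hLdef]
    exact mem_adj_self _ lam
  have he0 : k1 * lam ^ 2 ∈ L := mul_mem (hkL h.k1_mem) (pow_mem hlam 2)
  -- the elements `w i`
  have hDq : ∀ e, D (W e / lam) = prs τ e / lam := by
    intro e
    have hl := h.lam_ne
    rw [Derivation.leibniz_div, smul_eq_mul, smul_eq_mul, smul_eq_mul, hW, h.lam_D]
    field_simp
    ring
  let w : Fin r → E := fun i => W ⟨(i, i), le_rfl⟩ / lam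
  have hDw : ∀ i, D (w i) = τ i / lam := by
    intro i
    have h1 := hDq ⟨(i, i), le_rfl⟩
    have h2 : prs τ (⟨(i, i), le_rfl⟩ : Pr r) = τ i := by
      unfold prs
      rw [if_pos rfl]
    rw [h2] at h1
    exact h1
  have hDwL : ∀ i, D (w i) ∈ L := by
    intro i
    rw [hDw]
    exact div_mem (hkL (h.τ_mem i)) hlam
  have hind : ∀ (q : E) (κ : Fin r → E), q ∈ K → (∀ i, κ i ∈ K) →
      (∃ x ∈ L, D x = q * (k1 * lam ^ 2) + ∑ i, κ i * D (w i)) → q = 0 ∧ κ = 0 := by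
    intro q κ hq hκ hx
    refine h.ind hq hκ ?_
    simp only [hDw] at hx
    rw [hLdef] at hx
    exact hx
  have hInd : Ind D K L (fun i => D (w i)) := by
    intro κ hκ hx
    refine (hind 0 κ (zero_mem K) hκ ?_).2
    obtain ⟨x, hx, hDx⟩ := hx
    exact ⟨x, hx, by rw [hDx, zero_mul, zero_add]⟩
  have hwt : AlgebraicIndependent L w := ostrowski_A hKL h.const hLcl w hDwL hInd
  -- the constants `u e`
  obtain ⟨u, hu⟩ : ∃ u : Pr r → E, ∀ e, u e = W e / lam - prs w e := ⟨_, fun _ => rfl⟩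
  have huK : ∀ e, u e ∈ K := by
    intro e
    rw [← h.const, hu, map_sub, hDq, iset_D_prs]
    simp only [hDw]
    rw [iset_prs_div, sub_self]
  have hWe : ∀ e, W e = lam * (prs w e + u e) := by
    intro e
    rw [hu, add_sub_cancel, mul_div_cancel₀ _ h.lam_ne]
  -- the field `L1 = L(w)`
  have hL1cl : Cl D (adjn L w) := iset_adjn_cl hLcl hDwL
  have hLL1 : L ≤ adjn L w := iset_le_adjn L w
  have hΛL1 : ∀ e, D (Λ e) ∈ adjn L w := by
    intro e
    rw [hΛ, hWe]
    have h2 : (2 : E) ∈ adjn L w := by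
      have := natCast_mem (adjn L w) 2
      exact_mod_cast this
    exact add_mem (neg_mem (div_mem (mul_mem (hLL1 (hkL h.k1_mem)) (pow_mem (mul_mem (hLL1 hlam)
      (add_mem (iset_prs_mem (iset_mem_adjn L w) e) (hLL1 (hKL (huK e))))) 2)) h2))
      (hLL1 (hkL (hρ e)))
  refine iset_algInd_res (hKL.trans hLL1) (ostrowski_fintype (hKL.trans hLL1) h.const hL1cl Λ
    hΛL1 ?_)
  rintro κ hκ ⟨x, hx, hDx⟩
  -- the quadratic form and the linear rest
  have h2K : (2 : E) ∈ K := by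
    have := natCast_mem K 2
    exact_mod_cast this
  have hκ2 : ∀ e, -(κ e) / 2 ∈ K := fun e => div_mem (neg_mem (hκ e)) h2K
  let q : MvPolynomial (Fin r) K := ∑ e : Pr r, MvPolynomial.C (⟨-(κ e) / 2, hκ2 e⟩ : K) *
    prs (fun i => (MvPolynomial.X i : MvPolynomial (Fin r) K)) e ^ 2
  have hs1 : ∀ e, -(k1 * lam ^ 2 * κ e * u e) ∈ L := fun e =>
    neg_mem (mul_mem (mul_mem he0 (hKL (hκ e))) (hKL (huK e)))
  have hs2 : ∀ e, -(k1 * lam ^ 2 * κ e * u e ^ 2 / 2) + κ e * ρ e ∈ L := fun e =>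
    add_mem (neg_mem (div_mem (mul_mem (mul_mem he0 (hKL (hκ e))) (pow_mem (hKL (huK e)) 2))
      (hKL h2K))) (mul_mem (hKL (hκ e)) (hkL (hρ e)))
  let H : MvPolynomial (Fin r) L := ∑ e : Pr r,
    (MvPolynomial.C (⟨-(k1 * lam ^ 2 * κ e * u e), hs1 e⟩ : L) *
      prs (fun i => (MvPolynomial.X i : MvPolynomial (Fin r) L)) e +
      MvPolynomial.C (⟨-(k1 * lam ^ 2 * κ e * u e ^ 2 / 2) + κ e * ρ e, hs2 e⟩ : L))
  have hq2 : q.IsHomogeneous 2 := by
    refine MvPolynomial.IsHomogeneous.sum _ _ _ fun e _ => ?_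
    have h1 := (MvPolynomial.isHomogeneous_C (Fin r) (⟨-(κ e) / 2, hκ2 e⟩ : K)).mul
      ((iset_prs_hom (R := K) e).pow 2)
    simpa using h1
  have hH1 : H.totalDegree ≤ 1 := by
    refine MvPolynomial.totalDegree_finsetSum_le fun e _ => ?_
    refine (MvPolynomial.totalDegree_add _ _).trans (max_le ?_ ?_)
    · refine (MvPolynomial.totalDegree_mul _ _).trans ?_
      rw [MvPolynomial.totalDegree_C, zero_add]
      exact (iset_prs_hom (R := L) e).totalDegree_le
    · rw [MvPolynomial.totalDegree_C]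
      exact zero_le_one
  have hkey : D x = k1 * lam ^ 2 * MvPolynomial.aeval w q + MvPolynomial.aeval w H := by
    rw [hDx]
    simp only [q, H]
    rw [map_sum, map_sum, Finset.mul_sum, ← Finset.sum_add_distrib]
    refine Finset.sum_congr rfl fun e _ => ?_
    rw [map_mul, map_pow, map_add, map_mul, MvPolynomial.aeval_C, MvPolynomial.aeval_C,
      MvPolynomial.aeval_C, iset_aeval_prs, iset_aeval_prs, hΛ, hWe]
    change κ e * (-(k1 * (lam * (prs w e + u e)) ^ 2 / 2) + ρ e) = k1 * lam ^ 2 *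
      (-(κ e) / 2 * prs w e ^ 2) + (-(k1 * lam ^ 2 * κ e * u e) * prs w e +
        (-(k1 * lam ^ 2 * κ e * u e ^ 2 / 2) + κ e * ρ e))
    ring
  obtain ⟨G, hG⟩ := ostrowski_B hKL h.const hLcl w hDwL hInd hx
    ⟨MvPolynomial.C (⟨k1 * lam ^ 2, he0⟩ : L) * MvPolynomial.map (Subfield.inclusion hKL) q + H, by
      rw [hkey, map_add, map_mul, MvPolynomial.aeval_C, iset_aeval_incl]
      rfl⟩
  have hq0 : q = 0 := no_quad hKL h.const hLcl hDwL hwt he0 hind q hq2 H hH1 G (by rw [← hG, hkey])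
  have h3 := prs_sq_indep (fun e => (⟨-(κ e) / 2, hκ2 e⟩ : K)) hq0
  funext e
  have h4 := congrArg Subtype.val (congrFun h3 e)
  have h5 : -(κ e) / 2 = 0 := h4
  have h6 : κ e = 0 := by
    have h7 : (2 : E) ≠ 0 := two_ne_zero
    have := (div_eq_zero_iff.1 h5).resolve_right h7
    exact neg_eq_zero.1 this
  rw [h6]
  rfl

end Pool.Agent.Lib.MP_3550b5_nt.SV
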