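import Mathlib
import Pool.Agent.Lib.MP_3550b5_nt.SV.ESec
import Pool.Agent.Lib.MP_3550b5_nt.SV.ISet
import Pool.Agent.Lib.MP_3550b5_nt.SV.Desc

/-!
Project SV, part E: auxiliary lemmas for the assembly of the theorem on one disc.
-/

namespace Pool.Agent.Lib.MP_3550b5_nt.SV

open Polynomial

variable {p : ℕ} [hp : Fact p.Prime]

/-- The value of an integral polynomial. -/
lemma edm_eval (f : ℤ[X]) (t : ℤ_[p]) :
    (f.map (Int.castRingHom ℤ_[p])).eval t = aeval t f := by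
  rw [aeval_def, eval₂_eq_eval_map]
  congr 2

/-- The equation of a point with polynomial coordinates. -/
lemma edm_eqn {F₀ : Type*} [Field F₀] {φ₀ : ℚ[X] →+* F₀} (hφ : Function.Injective φ₀)
    {a b x y w : ℤ[X]} (hw : w ≠ 0)
    (hh : (scurve (φ₀ (a.map (Int.castRingHom ℚ))) (φ₀ (b.map (Int.castRingHom ℚ)))).Nonsingular
      (φ₀ (x.map (Int.castRingHom ℚ)) / φ₀ (w.map (Int.castRingHom ℚ)) ^ 2)
      (φ₀ (y.map (Int.castRingHom ℚ)) / φ₀ (w.map (Int.castRingHom ℚ)) ^ 3)) :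
    y ^ 2 = x ^ 3 + a * x * w ^ 4 + b * w ^ 6 := by
  have hinj : Function.Injective (Polynomial.map (Int.castRingHom ℚ)) :=
    Polynomial.map_injective _ (RingHom.injective_int _)
  have hw0 : φ₀ (w.map (Int.castRingHom ℚ)) ≠ 0 := by
    intro h0
    apply hw
    apply hinj
    apply hφ
    rw [h0, Polynomial.map_zero, map_zero]
  have h1 := scurve_eq hh
  apply hinj
  apply hφ
  simp only [Polynomial.map_add, Polynomial.map_mul, Polynomial.map_pow, map_add, map_mul, map_pow]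
  field_simp at h1
  linear_combination h1

/-- Constants. -/
lemma edm_C {e : PowerSeries ℤ_[p] →+* ℤ_[p]} {s : ℤ_[p]} (he : ∀ f, e f = ev f s) (x : ℤ_[p]) :
    e (PowerSeries.C x) = x := by
  rw [he]
  unfold ev
  rw [tsum_eq_single 0]
  · simp
  · intro n hn
    rw [PowerSeries.coeff_C, if_neg hn, zero_mul]

/-- Cancelling a power of `p` in the values. -/
lemma edm_val {e : PowerSeries ℤ_[p] →+* ℤ_[p]} {s : ℤ_[p]} (he : ∀ f, e f = ev f s) {n : ℕ}
    {F xs : PowerSeries ℤ_[p]} (h : F = PowerSeries.C ((p : ℤ_[p]) ^ n) * xs) {v xt : ℤ_[p]}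
    (hF : ev F s = v) (hv : v = (p : ℤ_[p]) ^ n * xt) : ev xs s = xt := by
  have hp0 : (p : ℤ_[p]) ^ n ≠ 0 := pow_ne_zero _ (Nat.cast_ne_zero.2 hp.out.ne_zero)
  apply mul_left_cancel₀ hp0
  rw [← hv, ← hF, ← he, ← he, h, map_mul, edm_C he]

/-- The derivation `D` on `jE`. -/
lemma edm_D {g : ℤ_[p]} (hg0 : g ≠ 0) {D : Dr (EE p)}
    (hD : ∀ f : PowerSeries ℚ_[p], D (algebraMap _ _ f) =
      algebraMap _ _ (PowerSeries.C (g : ℚ_[p])⁻¹ * PowerSeries.derivative ℚ_[p] f))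
    (f : PowerSeries ℤ_[p]) :
    jE p (PowerSeries.C g) * D (jE p f) = jE p (PowerSeries.derivative ℤ_[p] f) := by
  have hg1 : (g : ℚ_[p]) ≠ 0 := by
    rw [Ne, PadicInt.coe_eq_zero]
    exact hg0
  have h1 : ∀ f, jE p f = algebraMap (PowerSeries ℚ_[p]) (EE p)
      (PowerSeries.map (PadicInt.Coe.ringHom (p := p)) f) := fun _ => rfl
  rw [h1, h1, hD, ← map_mul, h1]
  congr 1
  rw [PowerSeries.map_C, ← mul_assoc, ← map_mul, PadicInt.Coe.ringHom_apply,
    mul_inv_cancel₀ hg1, map_one, one_mul]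
  ext n
  rw [PowerSeries.coeff_derivative, PowerSeries.coeff_map, PowerSeries.coeff_map,
    PowerSeries.coeff_derivative]
  simp

/-- `jE` of a constant. -/
lemma edm_cE (c : ℤ_[p]) : jE p (PowerSeries.C c) = cE p (c : ℚ_[p]) := by
  change algebraMap (PowerSeries ℚ_[p]) (EE p)
      (PowerSeries.map (PadicInt.Coe.ringHom (p := p)) (PowerSeries.C c)) =
    algebraMap (PowerSeries ℚ_[p]) (EE p) (PowerSeries.C (c : ℚ_[p]))
  rw [PowerSeries.map_C]
  rfl

lemma edm_cE_ne {n : ℕ} : jE p (PowerSeries.C ((p : ℤ_[p]) ^ n)) ≠ 0 := by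
  rw [Ne, map_eq_zero_iff _ jE_inj]
  intro h
  have h1 := congrArg (PowerSeries.constantCoeff (R := ℤ_[p])) h
  rw [PowerSeries.constantCoeff_C, map_zero] at h1
  exact pow_ne_zero n (Nat.cast_ne_zero.2 hp.out.ne_zero) h1

/-- The constant coefficient of the expansion of a polynomial. -/
lemma edm_const {t0 g : ℤ_[p]} {tay : ℤ_[p][X] →+* Hz p} {rs : Hz p →+* PowerSeries ℤ_[p]}
    (h1 : ∀ f n, ((PowerSeries.coeff n (rs f) : ℤ_[p]) : ℚ_[p]) =
      PowerSeries.coeff n (f : PowerSeries ℚ_[p]) * (g : ℚ_[p]) ^ n)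
    (h2 : ∀ f, εH p (tay f) = f.eval t0) (f : ℤ_[p][X]) :
    PowerSeries.coeff 0 (rs (tay f)) = f.eval t0 := by
  apply Subtype.ext
  rw [h1, pow_zero, mul_one, ← h2, εH_coe, PowerSeries.coeff_zero_eq_constantCoeff_apply]

end Pool.Agent.Lib.MP_3550b5_nt.SV
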