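import Mathlib

/-!
Project SV, part E: the normalisation of a section on the disc `t = t0 + g s`, for a general
homomorphism `X ↦ t0 + g s` from polynomials to power series.
-/

namespace Pool.Agent.Lib.MP_3550b5_nt.SV

open Polynomial

variable {R : Type*} [CommRing R] {θ : R[X] →+* PowerSeries R} {t0 g : R}

theorem discN_expand (h1 : ∀ x, θ (C x) = PowerSeries.C x)
    (h2 : θ X = PowerSeries.C t0 + PowerSeries.C g * PowerSeries.X) (f : R[X]) :
    ∃ F : PowerSeries R,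
      θ f = PowerSeries.C (f.eval t0) + PowerSeries.C g * (PowerSeries.X * F) := by
  obtain ⟨q, hq⟩ := X_sub_C_dvd_sub_C_eval (a := t0) (p := f)
  refine ⟨θ q, ?_⟩
  have h3 : θ (f - C (f.eval t0)) = θ ((X - C t0) * q) := congrArg _ hq
  rw [map_sub, map_mul, map_sub, h1, h1, h2] at h3
  linear_combination h3

theorem discN_ne [IsDomain R] (h1 : ∀ x, θ (C x) = PowerSeries.C x)
    (h2 : θ X = PowerSeries.C t0 + PowerSeries.C g * PowerSeries.X) (hg : g ≠ 0) {f : R[X]}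
    (hf : f ≠ 0) : θ f ≠ 0 := by
  intro h0
  have h3 : θ = (Polynomial.coeToPowerSeries.ringHom).comp
      (Polynomial.compRingHom (C t0 + C g * X)) := by
    refine Polynomial.ringHom_ext (fun x => ?_) ?_
    · rw [h1, RingHom.comp_apply, Polynomial.coe_compRingHom_apply, C_comp,
        Polynomial.coeToPowerSeries.ringHom_apply, Polynomial.coe_C]
    · rw [h2, RingHom.comp_apply, Polynomial.coe_compRingHom_apply, X_comp,
        Polynomial.coeToPowerSeries.ringHom_apply, Polynomial.coe_add, Polynomial.coe_mul,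
        Polynomial.coe_C, Polynomial.coe_C, Polynomial.coe_X]
  rw [h3, RingHom.comp_apply, Polynomial.coe_compRingHom_apply,
    Polynomial.coeToPowerSeries.ringHom_apply, Polynomial.coe_eq_zero_iff,
    Polynomial.comp_eq_zero_iff] at h0
  rcases h0 with h0 | ⟨_, h0⟩
  · exact hf h0
  · have h4 := congrArg (fun q : R[X] => q.coeff 1) h0
    simp at h4
    exact hg h4

/-- the normalisation -/
theorem discN_main [IsDomain R] {π : R} (hπ : π ≠ 0) (h1 : ∀ x, θ (C x) = PowerSeries.C x)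
    (h2 : θ X = PowerSeries.C t0 + PowerSeries.C g * PowerSeries.X) (hg : g ≠ 0)
    {a b x y w : R[X]} (eqn : y ^ 2 = x ^ 3 + a * x * w ^ 4 + b * w ^ 6) (hw : w ≠ 0) {γ : ℕ}
    {x0 y0 w0 : R} (hx : x.eval t0 = π ^ (2 * γ) * x0) (hx0 : IsUnit x0)
    (hy : y.eval t0 = π ^ (3 * γ) * y0) (hy0 : IsUnit y0)
    (hw' : w.eval t0 = π ^ (γ + 1) * w0) (hγ : π ^ (3 * γ + 1) ∣ g) :
    ∃ xs ys vs xi yi : PowerSeries R,
      θ x = PowerSeries.C (π ^ (2 * γ)) * xs ∧ θ y = PowerSeries.C (π ^ (3 * γ)) * ys ∧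
      θ w = PowerSeries.C (π ^ γ) * vs ∧
      ys ^ 2 = xs ^ 3 + θ a * xs * vs ^ 4 + θ b * vs ^ 6 ∧ xs * xi = 1 ∧ ys * yi = 1 ∧
      PowerSeries.C π ∣ vs ∧ vs ≠ 0 ∧ (∀ n, 1 ≤ n → π ∣ PowerSeries.coeff n xs) ∧
      ∀ n, 1 ≤ n → π ∣ PowerSeries.coeff n ys := by
  obtain ⟨g', rfl⟩ := hγ
  obtain ⟨qx, ex⟩ := discN_expand h1 h2 x
  obtain ⟨qy, ey⟩ := discN_expand h1 h2 y
  obtain ⟨qw, ew⟩ := discN_expand h1 h2 w
  rw [hx] at ex
  rw [hy] at ey
  rw [hw'] at ew
  obtain ⟨P, hP⟩ : ∃ P : PowerSeries R, P = PowerSeries.C (π ^ γ) := ⟨_, rfl⟩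
  have hP0 : P ≠ 0 := by
    rw [hP, Ne, map_eq_zero_iff _ PowerSeries.C_injective]
    exact pow_ne_zero _ hπ
  have hP2 : PowerSeries.C (π ^ (2 * γ)) = P ^ 2 := by
    rw [hP, ← map_pow, ← pow_mul, mul_comm]
  have hP3 : PowerSeries.C (π ^ (3 * γ)) = P ^ 3 := by
    rw [hP, ← map_pow, ← pow_mul, mul_comm]
  have hP31 : PowerSeries.C (π ^ (3 * γ + 1) * g') =
      P ^ 3 * (PowerSeries.C π * PowerSeries.C g') := by
    rw [← hP3, ← map_mul, ← map_mul, pow_succ]
    ring_nf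
  have hP1 : PowerSeries.C (π ^ (γ + 1) * w0) =
      P * (PowerSeries.C π * PowerSeries.C w0) := by
    rw [hP, ← map_mul, ← map_mul, pow_succ]
    ring_nf
  have hcoef : ∀ (c : R) (q F : PowerSeries R) (n : ℕ), 1 ≤ n →
      π ∣ PowerSeries.coeff n (PowerSeries.C c + PowerSeries.C π * F) := by
    intro c q F n hn
    rw [map_add, PowerSeries.coeff_C, if_neg (by omega), zero_add, PowerSeries.coeff_C_mul]
    exact dvd_mul_right _ _
  obtain ⟨xs, hxs⟩ : ∃ xs : PowerSeries R, xs = PowerSeries.C x0 +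
      PowerSeries.C π * (P * (PowerSeries.C g' * (PowerSeries.X * qx))) := ⟨_, rfl⟩
  obtain ⟨ys, hys⟩ : ∃ ys : PowerSeries R, ys = PowerSeries.C y0 +
      PowerSeries.C π * (PowerSeries.C g' * (PowerSeries.X * qy)) := ⟨_, rfl⟩
  obtain ⟨vs, hvs⟩ : ∃ vs : PowerSeries R, vs = PowerSeries.C π * (PowerSeries.C w0 +
      P ^ 2 * (PowerSeries.C g' * (PowerSeries.X * qw))) := ⟨_, rfl⟩
  have fx : θ x = P ^ 2 * xs := by
    rw [ex, hP31, map_mul, hP2, hxs]
    ring
  have fy : θ y = P ^ 3 * ys := by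
    rw [ey, hP31, map_mul, hP3, hys]
    ring
  have fw : θ w = P * vs := by
    rw [ew, hP31, hP1, hvs]
    ring
  have ux : IsUnit xs := by
    rw [PowerSeries.isUnit_iff_constantCoeff, hxs]
    simp only [map_add, map_mul, PowerSeries.constantCoeff_C, PowerSeries.constantCoeff_X,
      zero_mul, mul_zero, add_zero]
    exact hx0
  have uy : IsUnit ys := by
    rw [PowerSeries.isUnit_iff_constantCoeff, hys]
    simp only [map_add, map_mul, PowerSeries.constantCoeff_C, PowerSeries.constantCoeff_X,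
      zero_mul, mul_zero, add_zero]
    exact hy0
  obtain ⟨xi, hxi⟩ := ux.exists_right_inv
  obtain ⟨yi, hyi⟩ := uy.exists_right_inv
  refine ⟨xs, ys, vs, xi, yi, by rw [hP2, fx], by rw [hP3, fy], by rw [← hP, fw], ?_, hxi, hyi,
    ?_, ?_, ?_, ?_⟩
  · have h3 := congrArg θ eqn
    simp only [map_add, map_mul, map_pow] at h3
    rw [fx, fy, fw] at h3
    refine mul_left_cancel₀ (pow_ne_zero 6 hP0) ?_
    linear_combination h3
  · rw [hvs]
    exact dvd_mul_right _ _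
  · rintro rfl
    rw [mul_zero] at fw
    exact discN_ne h1 h2 hg hw fw
  · intro n hn
    rw [hxs]
    exact hcoef x0 qx _ n hn
  · intro n hn
    rw [hys]
    exact hcoef y0 qy _ n hn

end Pool.Agent.Lib.MP_3550b5_nt.SV
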