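import Mathlib
import Pool.Agent.Lib.MP_3550b5_nt.SV.ESec
import Pool.Agent.Lib.MP_3550b5_nt.SV.ISet
import Pool.Agent.Lib.MP_3550b5_nt.SV.Desc

/-!
Project SV, parts D, E: the set-up of THEOREM I on the disc (proof of `disc_setup`).
-/

namespace Pool.Agent.Lib.MP_3550b5_nt.SV

open Polynomial

private lemma eds_map {F F' : Type*} [Field F] [Field F'] {D : Derivation ℤ F F}
    {D' : Derivation ℤ F' F'} (f : F →+* F') (hf : ∀ x, f (D x) = D' (f x)) (a b : F) :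
    f (k1 D a b) = k1 D' (f a) (f b) ∧ f (g1 D a b) = g1 D' (f a) (f b) := by
  have h1 : f (wr D a b) = wr D' (f a) (f b) := by
    unfold wr
    rw [map_sub, map_mul, map_mul, map_mul, map_mul, hf, hf, map_ofNat, map_ofNat]
  have h2 : f (dl a b) = dl (f a) (f b) := by
    unfold dl
    rw [map_add, map_mul, map_mul, map_pow, map_pow, map_ofNat, map_ofNat]
  constructor
  · unfold k1
    rw [map_div₀, map_mul, map_mul, h1, h2, map_ofNat, map_ofNat]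
  · unfold g1
    rw [map_div₀, hf, map_mul, h2, map_ofNat]

/-- the set-up over an abstract field -/
private theorem eds_setup {E K' F₀ : Type*} [Field E] [CharZero E] [Field K'] [CharZero K']
    [Field F₀] [CharZero F₀] [DecidableEq F₀] {D : Derivation ℤ E E} {j : K' →+* E}
    (hconst : ∀ x, D x = 0 ↔ ∃ c, x = j c) {φ₀ : ℚ[X] →+* F₀} {D₀ : Derivation ℤ F₀ F₀}
    (h0 : RF1 φ₀ D₀) {d : ℕ} (hd : 1 ≤ d) {a b : ℚ[X]} (ha : a.natDegree ≤ 4 * d)
    (hb : b.natDegree ≤ 6 * d) (hk : k1 D₀ (φ₀ a) (φ₀ b) ≠ 0)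
    (hmin : ∀ π : ℚ[X], Prime π → ¬ (π ^ 4 ∣ a ∧ π ^ 6 ∣ b))
    (hmin' : ¬ (a.natDegree + 4 ≤ 4 * d ∧ b.natDegree + 6 ≤ 6 * d)) {r : ℕ}
    (P : Fin r → (scurve (φ₀ a) (φ₀ b)).Point) (hP : LinearIndependent ℤ P) {k : Subfield E}
    {hc : Cl D k} {φ : K'[X] →+* k} {ι : F₀ →+* k} (f1 : RF1 φ (resD D k hc))
    (f2 : ∀ f, ι (φ₀ f) = φ (f.map (algebraMap ℚ K')))
    (f4 : ∀ x, ((ι (D₀ x) : k) : E) = D ((ι x : k) : E))
    (f5 : ∀ c : K', ((φ (C c) : k) : E) = j c) {x y z c lam : E}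
    (hx : x = ((ι (k1 D₀ (φ₀ a) (φ₀ b)) : k) : E)) (hy : y = ((ι (g1 D₀ (φ₀ a) (φ₀ b)) : k) : E))
    (hz : z = ((ι (k1 D₀ (φ₀ a) (φ₀ b) * φ₀ a / 3) : k) : E))
    (hcD : D c = x * c ^ 2 + 2 * y * c - z) (hlam : lam ≠ 0)
    (hlamD : D lam = (x * c + y) * lam) :
    ISetup D j.fieldRange k r x y z c lam (fun i => ((ι (tauP D₀ (P i)) : k) : E)) := by
  have hmapk := eds_map (D := D₀) (D' := resD D k hc) ι (fun x => Subtype.ext (f4 x))
  subst hx
  subst hy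
  subst hz
  refine
    { K_le := ?_
      const := ?_
      cl := hc
      k1_mem := (ι _).2
      g1_mem := (ι _).2
      a3_mem := (ι _).2
      τ_mem := fun i => (ι _).2
      k1_ne := ?_
      c_D := hcD
      lam_ne := hlam
      lam_D := hlamD
      dbx := ?_
      ml := ?_ }
  · rintro x ⟨y, rfl⟩
    rw [← f5]
    exact (φ (C y)).2
  · intro x
    rw [hconst, RingHom.mem_fieldRange]
    exact ⟨fun ⟨y, hy⟩ => ⟨y, hy.symm⟩, fun ⟨y, hy⟩ => ⟨y, hy.symm⟩⟩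
  · intro h
    refine hk (ι.injective (Subtype.ext ?_))
    rw [h, map_zero]
    rfl
  · intro h
    have h4 : k1 (resD D k hc) (φ (a.map (algebraMap ℚ K'))) (φ (b.map (algebraMap ℚ K'))) ≠ 0 := by
      rw [← f2, ← f2, ← (hmapk _ _).1]
      intro h5
      exact hk (ι.injective (by rw [h5, map_zero]))
    have h5 := f1.riccati h4
    rw [← f2, ← f2, ric, ← (hmapk _ _).1, ← (hmapk _ _).2] at h5
    have h6 : ι (k1 D₀ (φ₀ a) (φ₀ b) * φ₀ a / 3) =
        ι (k1 D₀ (φ₀ a) (φ₀ b)) * ι (φ₀ a) / 3 := by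
      rw [map_div₀, map_mul, map_ofNat]
    rw [← h6] at h5
    exact h5
  · intro κ hκ z hz Ph hPh hDz hDPh
    have hκ' : ∀ i, ∃ y, j y = κ i := fun i => RingHom.mem_fieldRange.1 (hκ i)
    choose κ' hκ' using hκ'
    have h4 := no_sol h0 f1 ι f2 hd ha hb hk hmin hmin' P hP κ' (z := ⟨z, hz⟩) (Ph := ⟨Ph, hPh⟩)
      (Subtype.ext hDz) ?_
    · funext i
      rw [← hκ', h4]
      exact map_zero _
    · apply Subtype.ext
      have h5 : ((∑ i, φ (C (κ' i)) * ι (tauP D₀ (P i)) : k) : E) =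
          ∑ i, κ i * ((ι (tauP D₀ (P i)) : k) : E) := by
        rw [AddSubmonoidClass.coe_finsetSum]
        refine Finset.sum_congr rfl fun i _ => ?_
        rw [← hκ', ← f5]
        rfl
      rw [← h5] at hDPh
      exact hDPh

variable {p : ℕ} [hp : Fact p.Prime]

private lemma eds_der {g : ℤ_[p]} (hg0 : g ≠ 0) {D : Dr (EE p)}
    (hD : ∀ f : PowerSeries ℚ_[p], D (algebraMap _ _ f) =
      algebraMap _ _ (PowerSeries.C (g : ℚ_[p])⁻¹ * PowerSeries.derivative ℚ_[p] f))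
    (f : PowerSeries ℤ_[p]) : jE p (PowerSeries.C g) * D (jE p f) =
      jE p (PowerSeries.derivative ℤ_[p] f) := by
  have hg : (g : ℚ_[p]) ≠ 0 := by
    intro h
    exact hg0 (Subtype.ext h)
  unfold jE
  simp only [RingHom.comp_apply]
  rw [hD, ← map_mul]
  congr 1
  rw [PowerSeries.map_C, ← mul_assoc, ← map_mul]
  change PowerSeries.C ((g : ℚ_[p]) * (g : ℚ_[p])⁻¹) * _ = _
  rw [mul_inv_cancel₀ hg, map_one, one_mul]
  ext n
  rw [PowerSeries.coeff_derivative, PowerSeries.coeff_map, PowerSeries.coeff_map,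
    PowerSeries.coeff_derivative, map_mul, map_add, map_natCast, map_one]

theorem disc_setupX {g : ℤ_[p]} {tay : ℤ_[p][X] →+* Hz p} {rs : Hz p →+* PowerSeries ℤ_[p]}
    (rs_coeff : ∀ f n, ((PowerSeries.coeff n (rs f) : ℤ_[p]) : ℚ_[p]) =
      PowerSeries.coeff n (f : PowerSeries ℚ_[p]) * (g : ℚ_[p]) ^ n)
    (rs_D : ∀ f, PowerSeries.derivative ℤ_[p] (rs f) = PowerSeries.C g * rs (dH p f))
    (hg0 : g ≠ 0) {D : Dr (EE p)}
    (hD : ∀ f : PowerSeries ℚ_[p], D (algebraMap _ _ f) =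
      algebraMap _ _ (PowerSeries.C (g : ℚ_[p])⁻¹ * PowerSeries.derivative ℚ_[p] f))
    (hconst : ∀ x, D x = 0 ↔ ∃ c : ℚ_[p], x = cE p c) {F₀ : Type*} [Field F₀] [CharZero F₀]
    [DecidableEq F₀] {φ₀ : ℚ[X] →+* F₀} {D₀ : Derivation ℤ F₀ F₀} (h0 : RF1 φ₀ D₀) {d : ℕ}
    (hd : 1 ≤ d) {a b : ℤ[X]} (ha : a.natDegree ≤ 4 * d) (hb : b.natDegree ≤ 6 * d)
    (hk : k1 D₀ (φ₀ (a.map (Int.castRingHom ℚ))) (φ₀ (b.map (Int.castRingHom ℚ))) ≠ 0)
    (hmin : ∀ π : ℚ[X], Prime π →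
      ¬ (π ^ 4 ∣ a.map (Int.castRingHom ℚ) ∧ π ^ 6 ∣ b.map (Int.castRingHom ℚ)))
    (hmin' : ¬ (a.natDegree + 4 ≤ 4 * d ∧ b.natDegree + 6 ≤ 6 * d)) {r : ℕ}
    (P : Fin r → (scurve (φ₀ (a.map (Int.castRingHom ℚ)))
      (φ₀ (b.map (Int.castRingHom ℚ)))).Point) (hP : LinearIndependent ℤ P)
    {k : Subfield (EE p)} {hc : Cl D k} {φ : ℚ_[p][X] →+* k} {ι : F₀ →+* k}
    (f1 : RF1 φ (resD D k hc)) (f2 : ∀ f, ι (φ₀ f) = φ (f.map (algebraMap ℚ ℚ_[p])))
    (f3 : ∀ f : ℤ_[p][X], ((φ (f.map (PadicInt.Coe.ringHom (p := p))) : k) : EE p) =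
      jE p (rs (tay f)))
    (f4 : ∀ x, ((ι (D₀ x) : k) : EE p) = D ((ι x : k) : EE p))
    (f5 : ∀ c : ℚ_[p], ((φ (C c) : k) : EE p) = cE p c)
    {c kk g' h2 h3 : Hz p}
    (hdr : DR (dH p) (tay (a.map (Int.castRingHom ℤ_[p]))) (tay (b.map (Int.castRingHom ℤ_[p])))
      kk g' h2 h3)
    (hric : dH p c = kk * c ^ 2 + 2 * g' * c - h3 * kk * tay (a.map (Int.castRingHom ℤ_[p]))) :
    jE p (rs kk) = k1 D (jE p (rs (tay (a.map (Int.castRingHom ℤ_[p])))))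
        (jE p (rs (tay (b.map (Int.castRingHom ℤ_[p]))))) ∧
      jE p (rs g') = g1 D (jE p (rs (tay (a.map (Int.castRingHom ℤ_[p])))))
        (jE p (rs (tay (b.map (Int.castRingHom ℤ_[p]))))) ∧
    ∃ l : Hz p, ISetup D (cE p).fieldRange k r (jE p (rs kk)) (jE p (rs g'))
      (jE p (rs (h3 * kk * tay (a.map (Int.castRingHom ℤ_[p]))))) (jE p (rs c)) (jE p (rs l))
      (fun i => ((ι (tauP D₀ (P i)) : k) : EE p)) := by
  -- the images of `a`, `b`
  have e1 : ∀ f : ℤ[X], (f.map (Int.castRingHom ℚ)).map (algebraMap ℚ ℚ_[p]) =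
      (f.map (Int.castRingHom ℤ_[p])).map (PadicInt.Coe.ringHom (p := p)) := by
    intro f
    rw [Polynomial.map_map, Polynomial.map_map,
      RingHom.ext_int ((algebraMap ℚ ℚ_[p]).comp (Int.castRingHom ℚ))
        ((PadicInt.Coe.ringHom (p := p)).comp (Int.castRingHom ℤ_[p]))]
  have e2 : ∀ f : ℤ[X], ((ι (φ₀ (f.map (Int.castRingHom ℚ))) : k) : EE p) =
      jE p (rs (tay (f.map (Int.castRingHom ℤ_[p])))) := by
    intro f
    rw [f2, e1, f3]
  have ea := e2 a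
  have eb := e2 b
  have hinj : Function.Injective (k.subtype.comp ι) := (k.subtype.comp ι).injective
  have hmapE := eds_map (D := D₀) (D' := D) (k.subtype.comp ι) f4
  -- `k1`, `g1`
  have hΔ : 4 * rs (tay (a.map (Int.castRingHom ℤ_[p]))) ^ 3 +
      27 * rs (tay (b.map (Int.castRingHom ℤ_[p]))) ^ 2 ≠ 0 := by
    intro h
    have h1 := congrArg (jE p) h
    rw [map_add, map_mul, map_mul, map_pow, map_pow, map_ofNat, map_ofNat, map_zero, ← ea,
      ← eb] at h1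
    apply (ne_of_k1 D₀ hk).1
    apply hinj
    rw [map_zero]
    unfold dl
    rw [map_add, map_mul, map_mul, map_pow, map_pow, map_ofNat, map_ofNat]
    exact h1
  obtain ⟨hDr, hk1, hg1⟩ := sec_kg hg0 rs_D (eds_der hg0 hD) hdr hΔ
  have k1e : jE p (rs kk) = ((ι (k1 D₀ (φ₀ (a.map (Int.castRingHom ℚ)))
      (φ₀ (b.map (Int.castRingHom ℚ)))) : k) : EE p) := by
    rw [← hk1, ← ea, ← eb]
    exact ((hmapE _ _).1).symm
  have g1e : jE p (rs g') = ((ι (g1 D₀ (φ₀ (a.map (Int.castRingHom ℚ)))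
      (φ₀ (b.map (Int.castRingHom ℚ)))) : k) : EE p) := by
    rw [← hg1, ← ea, ← eb]
    exact ((hmapE _ _).2).symm
  have h3e : jE p (rs h3) * 3 = 1 := by
    have h := congrArg (fun f => jE p (rs f)) hdr.three
    simp only [map_mul, map_one, map_ofNat] at h
    rw [mul_comm]
    exact h
  have a3e : jE p (rs (h3 * kk * tay (a.map (Int.castRingHom ℤ_[p])))) =
      ((ι (k1 D₀ (φ₀ (a.map (Int.castRingHom ℚ))) (φ₀ (b.map (Int.castRingHom ℚ))) *
        φ₀ (a.map (Int.castRingHom ℚ)) / 3) : k) : EE p) := by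
    rw [map_mul, map_mul, map_mul, map_mul, k1e, ← ea, map_div₀, map_mul, map_ofNat]
    change _ = _ * _ / (3 : EE p)
    rw [eq_div_iff (by norm_num)]
    linear_combination (((ι (k1 D₀ (φ₀ (a.map (Int.castRingHom ℚ)))
      (φ₀ (b.map (Int.castRingHom ℚ)))) : k) : EE p) *
        ((ι (φ₀ (a.map (Int.castRingHom ℚ))) : k) : EE p)) * h3e
  refine ⟨hk1.symm, hg1.symm, ?_⟩
  obtain ⟨l, hl, hl1⟩ := (defRing_Hz (p := p)).ode (kk * c + g') 0 (1 : ℤ_[p])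
  refine ⟨l, ?_⟩
  have hda : (a.map (Int.castRingHom ℚ)).natDegree = a.natDegree :=
    natDegree_map_eq_of_injective (Int.castRingHom ℚ).injective_int a
  have hdb : (b.map (Int.castRingHom ℚ)).natDegree = b.natDegree :=
    natDegree_map_eq_of_injective (Int.castRingHom ℚ).injective_int b
  have c_D : D (jE p (rs c)) = jE p (rs kk) * jE p (rs c) ^ 2 + 2 * jE p (rs g') * jE p (rs c) -
      jE p (rs (h3 * kk * tay (a.map (Int.castRingHom ℤ_[p])))) := by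
    rw [hDr, hric]
    simp only [map_sub, map_add, map_mul, map_pow, map_ofNat]
  have lam_ne : jE p (rs l) ≠ 0 := by
    intro h
    rw [← map_zero (jE p)] at h
    have h1 := jE_inj h
    have h4 := rs_coeff l 0
    rw [h1, pow_zero, mul_one, map_zero] at h4
    have h5 := congrArg (fun x : ℤ_[p] => (x : ℚ_[p])) hl1
    rw [εH_coe, ← PowerSeries.coeff_zero_eq_constantCoeff_apply, ← h4] at h5
    simp at h5
  have lam_D : D (jE p (rs l)) = (jE p (rs kk) * jE p (rs c) + jE p (rs g')) * jE p (rs l) := by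
    rw [hDr, hl, add_zero]
    simp only [map_add, map_mul]
  exact eds_setup hconst h0 hd (by rw [hda]; exact ha) (by rw [hdb]; exact hb) hk hmin
    (by rw [hda, hdb]; exact hmin') P hP f1 f2 f4 f5 k1e g1e a3e c_D lam_ne lam_D

end Pool.Agent.Lib.MP_3550b5_nt.SV
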