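import Mathlib
import Pool.Agent.Lib.MP_3550b5_nt.SV.ESec
import Pool.Agent.Lib.MP_3550b5_nt.SV.ISet
import Pool.Agent.Lib.MP_3550b5_nt.SV.Add

/-!
Project SV, parts D, E: three lemmas for the theorem on one disc.
-/

namespace Pool.Agent.Lib.MP_3550b5_nt.SV

variable {p : ℕ} [hp : Fact p.Prime]

lemma discY_prs_tauP {F : Type*} [Field F] [CharZero F] [DecidableEq F] (D : Derivation ℤ F F)
    {a b : F} (hk : k1 D a b ≠ 0) {r : ℕ} (P : Fin r → (scurve a b).Point)
    (hP : LinearIndependent ℤ P) (e : Pr r) :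
    tauP D (prs P e) = prs (fun i => tauP D (P i)) e := by
  classical
  unfold prs
  by_cases h : e.1.1 = e.1.2
  · rw [if_pos h, if_pos h]
  · rw [if_neg h, if_neg h]
    have h1 := tauP_sum D hk P hP (Pi.single e.1.1 1 - Pi.single e.1.2 1)
    have e1 : ∑ i, (Pi.single e.1.1 1 - Pi.single e.1.2 1 : Fin r → ℤ) i • P i =
        P e.1.1 - P e.1.2 := by
      have h2 : ∀ k : Fin r, ∑ i, (Pi.single k 1 : Fin r → ℤ) i • P i = P k := by
        intro k
        rw [Finset.sum_eq_single k]
        · rw [Pi.single_eq_same, one_smul]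
        · intro i _ hi
          rw [Pi.single_eq_of_ne hi, zero_smul]
        · intro hk'
          exact absurd (Finset.mem_univ k) hk'
      rw [← h2 e.1.1, ← h2 e.1.2, ← Finset.sum_sub_distrib]
      exact Finset.sum_congr rfl fun i _ => by rw [Pi.sub_apply, sub_smul]
    have e2 : ∑ i, (((Pi.single e.1.1 1 - Pi.single e.1.2 1 : Fin r → ℤ) i : ℤ) : F) *
        tauP D (P i) = tauP D (P e.1.1) - tauP D (P e.1.2) := by
      have h2 : ∀ k : Fin r, ∑ i, (((Pi.single k 1 : Fin r → ℤ) i : ℤ) : F) * tauP D (P i) =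
          tauP D (P k) := by
        intro k
        rw [Finset.sum_eq_single k]
        · rw [Pi.single_eq_same, Int.cast_one, one_mul]
        · intro i _ hi
          rw [Pi.single_eq_of_ne hi, Int.cast_zero, zero_mul]
        · intro hk'
          exact absurd (Finset.mem_univ k) hk'
      rw [← h2 e.1.1, ← h2 e.1.2, ← Finset.sum_sub_distrib]
      exact Finset.sum_congr rfl fun i _ => by rw [Pi.sub_apply, Int.cast_sub, sub_mul]
    rw [e1, e2] at h1
    exact h1

lemma discY_map_all {F F' : Type*} [Field F] [Field F'] {D : Derivation ℤ F F}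
    {D' : Derivation ℤ F' F'} (f : F →+* F') (hf : ∀ x, f (D x) = D' (f x)) (a b x y : F) :
    f (k1 D a b) = k1 D' (f a) (f b) ∧ f (g1 D a b) = g1 D' (f a) (f b) ∧
      f (om D a b x y) = om D' (f a) (f b) (f x) (f y) ∧
      f (tau D a b x y) = tau D' (f a) (f b) (f x) (f y) := by
  have hk : f (k1 D a b) = k1 D' (f a) (f b) := by
    unfold k1 wr dl
    simp only [map_div₀, map_mul, map_add, map_sub, map_pow, map_ofNat, hf]
  have hg : f (g1 D a b) = g1 D' (f a) (f b) := by
    unfold g1 dl
    simp only [map_div₀, map_mul, hf]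
    simp only [map_mul, map_add, map_pow, map_ofNat]
  have ho : f (om D a b x y) = om D' (f a) (f b) (f x) (f y) := by
    unfold om
    simp only [map_div₀, map_mul, map_sub, map_pow, map_ofNat, hf, hk, hg]
  refine ⟨hk, hg, ho, ?_⟩
  unfold tau
  simp only [map_sub, map_mul, map_div₀, hf, hk, hg, ho]

lemma discY_algInd_K {σ : Type*} (L : σ → PowerSeries ℤ_[p])
    (h : AlgebraicIndependent (cE p).fieldRange (fun e => jE p (L e))) :
    AlgebraicIndependent ℚ_[p] (fun e => (L e).map (PadicInt.Coe.ringHom (p := p))) := by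
  rw [algebraicIndependent_iff] at h ⊢
  intro P hP
  have h1 := h (P.map (cE p).rangeRestrictField) (by
    rw [MvPolynomial.aeval_def, MvPolynomial.eval₂_map]
    have e1 : (algebraMap (cE p).fieldRange (EE p)).comp (cE p).rangeRestrictField =
        (algebraMap (PowerSeries ℚ_[p]) (EE p)).comp
          (algebraMap ℚ_[p] (PowerSeries ℚ_[p])) := rfl
    have e2 : (fun e => jE p (L e)) = (algebraMap (PowerSeries ℚ_[p]) (EE p)) ∘
        (fun e => (L e).map (PadicInt.Coe.ringHom (p := p))) := rfl
    rw [e1, e2, ← MvPolynomial.eval₂_comp_left, ← MvPolynomial.aeval_def, hP, map_zero])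
  exact MvPolynomial.map_injective _ (RingHom.injective _) (by rw [h1, map_zero])

end Pool.Agent.Lib.MP_3550b5_nt.SV
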