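import Mathlib
import Pool.Agent.Lib.MP_3550b5_nt.SV.ESec
import Pool.Agent.Lib.MP_3550b5_nt.SV.EDiscF
import Pool.Agent.Lib.MP_3550b5_nt.SV.ISet
import Pool.Agent.Lib.MP_3550b5_nt.SV.Desc
import Pool.Agent.Lib.MP_3550b5_nt.SV.EDiscS
import Pool.Agent.Lib.MP_3550b5_nt.SV.EDiscM
import Pool.Agent.Lib.MP_3550b5_nt.SV.EDiscY
import Pool.Agent.Lib.MP_3550b5_nt.SV.EDiscN

/-!
Project SV, parts D, E: the theorem on one disc `t = t0 + g s`.
-/

namespace Pool.Agent.Lib.MP_3550b5_nt.SV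

open Polynomial

variable {p : ℕ} [hp : Fact p.Prime]

/-- The maps `tay` (Taylor expansion at `t0`) and `rs` (rescaling by `g`). -/
structure TR (t0 g : ℤ_[p]) (tay : ℤ_[p][X] →+* Hz p) (rs : Hz p →+* PowerSeries ℤ_[p]) :
    Prop where
  tay_C : ∀ x : ℤ_[p], ((tay (C x) : Hz p) : PowerSeries ℚ_[p]) = PowerSeries.C (x : ℚ_[p])
  tay_X : ((tay X : Hz p) : PowerSeries ℚ_[p]) = PowerSeries.C (t0 : ℚ_[p]) + PowerSeries.X
  tay_D : ∀ f, dH p (tay f) = tay (derivative f)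
  tay_ε : ∀ f, εH p (tay f) = f.eval t0
  rs_coeff : ∀ f n, ((PowerSeries.coeff n (rs f) : ℤ_[p]) : ℚ_[p]) =
    PowerSeries.coeff n (f : PowerSeries ℚ_[p]) * (g : ℚ_[p]) ^ n
  rs_D : ∀ f, PowerSeries.derivative ℤ_[p] (rs f) = PowerSeries.C g * rs (dH p f)

/-- `exists_tay`, `exists_rs`. -/
lemma exists_TR (hp5 : 5 ≤ p) (t0 : ℤ_[p]) {g : ℤ_[p]} (hg : ‖g‖ < 1) :
    ∃ tay rs, TR (p := p) t0 g tay rs := by
  obtain ⟨tay, h1, h2, h3, h4⟩ := exists_tay p t0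
  obtain ⟨rs, h5, h6⟩ := exists_rs p (by omega) hg
  exact ⟨tay, rs, h1, h2, h3, h4, h5, h6⟩

variable {t0 g : ℤ_[p]} {tay : ℤ_[p][X] →+* Hz p} {rs : Hz p →+* PowerSeries ℤ_[p]}

/-- THE DEFORMATION of the sigma function at `t0`. PROOF. `h2 = tay (C (1/2))`, `h3 = tay (C (1/3))`
(`2`, `3` are units of `ℤ_[p]`, `p ≥ 5`), `Δ = 4 (tay a)^3 + 27 (tay b)^2` is a unit (`Hz_isUnit`,
`tay_ε`), `k = 3 h2 Δ⁻¹ (3 b a' - 2 a b')`, `g = h2^2 h3 Δ⁻¹ Δ'` (`1/12`); `DR` is checked by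
`linear_combination`. `deform` with `defRing_Hz`. -/
theorem disc_dfm (hp5 : 5 ≤ p) (ht : TR t0 g tay rs) {a b : ℤ_[p][X]}
    (hΔ : IsUnit (4 * a.eval t0 ^ 3 + 27 * b.eval t0 ^ 2)) {c0 : ℤ_[p]}
    {W0 V0 Om0 S0 Z0 : PowerSeries ℤ_[p]} (h : SD (a.eval t0) (b.eval t0) c0 W0 V0 Om0 S0 Z0) :
    ∃ (c k g' h2 h3 : Hz p) (W V Om S Z N R : PowerSeries (Hz p)),
      Dfm (tay a) (tay b) c k g' h2 h3 W V Om S Z N R := by
  have hunit : ∀ n : ℕ, 0 < n → n < p → IsUnit (n : ℤ_[p]) := by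
    intro n h0 h1
    rw [PadicInt.isUnit_iff]
    by_contra hn
    have h2 : ‖((n : ℤ) : ℤ_[p])‖ < 1 := by
      rw [Int.cast_natCast]
      exact lt_of_le_of_ne (PadicInt.norm_le_one _) hn
    rw [PadicInt.norm_int_lt_one_iff_dvd] at h2
    have h3 := Nat.le_of_dvd h0 (Int.natCast_dvd_natCast.1 h2)
    omega
  obtain ⟨i2, hi2⟩ := (hunit 2 (by omega) (by omega)).exists_right_inv
  obtain ⟨i3, hi3⟩ := (hunit 3 (by omega) (by omega)).exists_right_inv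
  have two : 2 * tay (C i2) = 1 := by
    have h1 := congrArg (tay.comp C) hi2
    rw [map_mul, map_natCast, map_one] at h1
    exact_mod_cast h1
  have three : 3 * tay (C i3) = 1 := by
    have h1 := congrArg (tay.comp C) hi3
    rw [map_mul, map_natCast, map_one] at h1
    exact_mod_cast h1
  have hDu : IsUnit (4 * tay a ^ 3 + 27 * tay b ^ 2) := by
    refine Hz_isUnit p ?_
    rw [map_add, map_mul, map_mul, map_pow, map_pow, ht.tay_ε, ht.tay_ε, map_ofNat, map_ofNat]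
    exact hΔ
  obtain ⟨u, hu⟩ := hDu.exists_right_inv
  set h2 := tay (C i2) with hh2
  set h3 := tay (C i3) with hh3
  have hP : (2 * h2) ^ 2 * (3 * h3) = 1 := by
    rw [two, three]
    ring
  have hQ : 3 * h3 * (2 * h2) = 1 := by
    rw [two, three]
    ring
  have hd : DR (dH p) (tay a) (tay b)
      (3 * h2 * u * (3 * tay b * dH p (tay a) - 2 * tay a * dH p (tay b)))
      (h2 ^ 2 * h3 * u * (12 * tay a ^ 2 * dH p (tay a) + 54 * tay b * dH p (tay b))) h2 h3 := by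
    refine ⟨two, three, ?_, ?_⟩
    · linear_combination (-(dH p (tay a))) * hu -
        (4 * tay a ^ 3 * dH p (tay a) * u + 18 * tay a * tay b * dH p (tay b) * u) * hP -
        (27 * dH p (tay a) * tay b ^ 2 * u - 18 * tay a * tay b * dH p (tay b) * u) * two
    · linear_combination (-(dH p (tay b))) * hu -
        (6 * tay a ^ 2 * tay b * dH p (tay a) * u + 27 * tay b ^ 2 * dH p (tay b) * u) * hP +
        (6 * tay a ^ 2 * tay b * dH p (tay a) * u - 4 * tay a ^ 3 * dH p (tay b) * u) * hQ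
  have hsd : SD (εH p (tay a)) (εH p (tay b)) c0 W0 V0 Om0 S0 Z0 := by
    rw [ht.tay_ε, ht.tay_ε]
    exact h
  obtain ⟨c, W, V, Om, S, Z, N, R, k1, k2, k3, k4, k5, k6, k7⟩ := deform (defRing_Hz p) hd hsd
  exact ⟨c, _, _, h2, h3, W, V, Om, S, Z, N, R, hd, k1, k3, k4, k5, k6, k7⟩

/-- NORMALISATION of a section on the disc. PROOF. The coefficient of `s^n` in `rs (tay f)` is
`g^n` times an integer (the Taylor coefficients are integral), so for `n ≥ 1` it is divisible by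
`p^(3γ+1)`. Divide. `xs`, `ys` have unit constant coefficients, hence inverses; the other
coefficients are divisible by `p` (`3γ + 1 - 2γ ≥ 1`, `3γ + 1 - 3γ ≥ 1`), and all coefficients of
`vs` are. The equation: `rs (tay ..)` of `eqn`, cancel `p^(6γ)`. `vs ≠ 0`: `w ≠ 0`, `tay`, `rs` are
injective (`g ≠ 0`). -/
theorem disc_sc (ht : TR t0 g tay rs) (hg0 : g ≠ 0) {a b x y w : ℤ_[p][X]}
    (eqn : y ^ 2 = x ^ 3 + a * x * w ^ 4 + b * w ^ 6) (hw : w ≠ 0) {γ : ℕ} {x0 y0 w0 : ℤ_[p]}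
    (hx : x.eval t0 = (p : ℤ_[p]) ^ (2 * γ) * x0) (hx0 : IsUnit x0)
    (hy : y.eval t0 = (p : ℤ_[p]) ^ (3 * γ) * y0) (hy0 : IsUnit y0)
    (hw' : w.eval t0 = (p : ℤ_[p]) ^ (γ + 1) * w0) (hγ : (p : ℤ_[p]) ^ (3 * γ + 1) ∣ g) :
    ∃ xs ys vs xi yi : PowerSeries ℤ_[p],
      rs (tay x) = PowerSeries.C ((p : ℤ_[p]) ^ (2 * γ)) * xs ∧
      rs (tay y) = PowerSeries.C ((p : ℤ_[p]) ^ (3 * γ)) * ys ∧
      rs (tay w) = PowerSeries.C ((p : ℤ_[p]) ^ γ) * vs ∧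
      Sc (rs (tay a)) (rs (tay b)) xs ys vs xi yi := by
  have h1 : ∀ x : ℤ_[p], (rs.comp tay) (C x) = PowerSeries.C x := by
    intro x
    ext n
    apply Subtype.ext
    rw [RingHom.comp_apply, ht.rs_coeff, ht.tay_C, PowerSeries.coeff_C, PowerSeries.coeff_C]
    split_ifs with hn
    · rw [hn, pow_zero, mul_one]
    · rw [zero_mul]
      rfl
  have h2 : (rs.comp tay) X = PowerSeries.C t0 + PowerSeries.C g * PowerSeries.X := by
    ext n
    apply Subtype.ext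
    rw [RingHom.comp_apply, ht.rs_coeff, ht.tay_X, map_add, map_add, PowerSeries.coeff_C,
      PowerSeries.coeff_C, PowerSeries.coeff_C_mul, PowerSeries.coeff_X, PowerSeries.coeff_X]
    rcases Nat.lt_trichotomy n 1 with hn | hn | hn
    · obtain rfl : n = 0 := by omega
      simp
    · subst hn
      simp
    · rw [if_neg (by omega), if_neg (by omega), if_neg (by omega), if_neg (by omega)]
      simp
  have hp0 : (p : ℤ_[p]) ≠ 0 := by exact_mod_cast hp.out.ne_zero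
  obtain ⟨xs, ys, vs, xi, yi, ex, ey, ew, e1, e2, e3, e4, e5, e6, e7⟩ :=
    discN_main hp0 h1 h2 hg0 eqn hw hx hx0 hy hy0 hw' hγ
  exact ⟨xs, ys, vs, xi, yi, ex, ey, ew, ⟨e1, e2, e3, e4, e5, e6, e7⟩⟩

/-- THE FIELDS. PROOF. `φ' : ℚ_[p][X] →+* EE p`, `X ↦ cE t0 + cE g * X`, constants by `cE`; it is
injective (`g ≠ 0`; the image of `X` is transcendental over the constants: a polynomial
`f (t0 + g s) = 0` in `ℚ_[p]⟦s⟧` has `f = 0`). `k` = the subfield of the quotients `φ' f / φ' g`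
(closure of the range). Closed under `D` as `D (φ' X) = 1`, `D (cE c) = 0`. `RF1`. On
`ℤ_[p][X]`, `φ' (f) = jE (rs (tay f))` (ring homomorphisms, agree on `C x` and `X`: `rs_coeff`,
`tay_C`, `tay_X`). `ι`: `F₀` is the fraction field of `ℚ[X]`, so `f ↦ φ (f.map)` (injective) extends
(`IsFrac`: choose representatives, or `IsFractionRing`-like lift). `ι` commutes with the
derivations: on polynomials by `RF1.D_map`, then quotients. -/
theorem disc_fld (ht : TR t0 g tay rs) (hg0 : g ≠ 0) {D : Dr (EE p)}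
    (hD : ∀ f : PowerSeries ℚ_[p], D (algebraMap _ _ f) =
      algebraMap _ _ (PowerSeries.C (g : ℚ_[p])⁻¹ * PowerSeries.derivative ℚ_[p] f))
    {F₀ : Type*} [Field F₀] [CharZero F₀] {φ₀ : ℚ[X] →+* F₀} {D₀ : Derivation ℤ F₀ F₀}
    (h0 : RF1 φ₀ D₀) :
    ∃ (k : Subfield (EE p)) (hk : Cl D k) (φ : ℚ_[p][X] →+* k) (ι : F₀ →+* k),
      RF1 φ (resD D k hk) ∧ (∀ f, ι (φ₀ f) = φ (f.map (algebraMap ℚ ℚ_[p]))) ∧
      (∀ f : ℤ_[p][X], ((φ (f.map (PadicInt.Coe.ringHom (p := p))) : k) : EE p) =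
        jE p (rs (tay f))) ∧
      (∀ x, ((ι (D₀ x) : k) : EE p) = D ((ι x : k) : EE p)) ∧
      ∀ c : ℚ_[p], ((φ (C c) : k) : EE p) = cE p c := by
  exact disc_fldX ht.tay_C ht.tay_X ht.rs_coeff hg0 hD h0

/-- `tauP` of the points `prs P e`. PROOF. `tauP_sum` for `κ = Pi.single i 1` and
`κ = Pi.single i 1 - Pi.single j 1` (`i ≠ j`). -/
lemma prs_tauP {F : Type*} [Field F] [CharZero F] [DecidableEq F] (D : Derivation ℤ F F) {a b : F}
    (hk : k1 D a b ≠ 0) {r : ℕ} (P : Fin r → (scurve a b).Point) (hP : LinearIndependent ℤ P)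
    (e : Pr r) : tauP D (prs P e) = prs (fun i => tauP D (P i)) e :=
  discY_prs_tauP D hk P hP e

/-- A homomorphism of differential fields maps `k1`, `g1`, `om`, `tau` to `k1`, `g1`, `om`,
`tau`. -/
lemma map_all {F F' : Type*} [Field F] [Field F'] {D : Derivation ℤ F F} {D' : Derivation ℤ F' F'}
    (f : F →+* F') (hf : ∀ x, f (D x) = D' (f x)) (a b x y : F) :
    f (k1 D a b) = k1 D' (f a) (f b) ∧ f (g1 D a b) = g1 D' (f a) (f b) ∧
      f (om D a b x y) = om D' (f a) (f b) (f x) (f y) ∧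
      f (tau D a b x y) = tau D' (f a) (f b) (f x) (f y) :=
  discY_map_all f hf a b x y

/-- Algebraic independence over the subfield of constants. (`cE p` is injective; `jE p f` is the
image of `f.map coe` in the fraction field. `algebraicIndependent_iff`: a relation over `ℚ_[p]`
gives a relation over `(cE p).fieldRange`, by mapping the coefficients.) -/
lemma algInd_K {σ : Type*} (L : σ → PowerSeries ℤ_[p])
    (h : AlgebraicIndependent (cE p).fieldRange (fun e => jE p (L e))) :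
    AlgebraicIndependent ℚ_[p] (fun e => (L e).map (PadicInt.Coe.ringHom (p := p))) :=
  discY_algInd_K L h

/-- THE SET-UP OF THEOREM I on the disc. PROOF. `l` solves `dH l = (kk c + g') l`, `ε l = 1`
(`defRing_Hz.ode`), so `rs l ≠ 0`. `D (jE (rs f)) = jE (rs (dH f))` (`hD`, `rs_D`). `sec_kg`:
`jE (rs kk) = k1 D (jE (rs (tay a))) ..` (`k1`, `g1` in `EE p`), and `jE (rs (tay a)) = φ a = ι (φ₀ a)`,
so these are the images of `k1 D₀ ..`, `g1 D₀ ..` under `ι` (`map_all`), in particular in `k` and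
`kk ≠ 0`. `const`: `hconst`. `dbx`: `RF1.riccati` for `φ` (`F = k`), rewriting the polynomial `ric`
(its coefficients as elements of `k`). `ml`: `κ i = cE (κ' i)`; `no_sol` with
`z, Ph` as elements of `k`. -/
theorem disc_setup (hp5 : 5 ≤ p) (ht : TR t0 g tay rs) (hg0 : g ≠ 0) {D : Dr (EE p)}
    (hD : ∀ f : PowerSeries ℚ_[p], D (algebraMap _ _ f) =
      algebraMap _ _ (PowerSeries.C (g : ℚ_[p])⁻¹ * PowerSeries.derivative ℚ_[p] f))
    (hconst : ∀ x, D x = 0 ↔ ∃ c : ℚ_[p], x = cE p c) {F₀ : Type*} [Field F₀] [CharZero F₀]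
    [DecidableEq F₀] {φ₀ : ℚ[X] →+* F₀} {D₀ : Derivation ℤ F₀ F₀} (h0 : RF1 φ₀ D₀) {d : ℕ}
    (hd : 1 ≤ d) {a b : ℤ[X]} (ha : a.natDegree ≤ 4 * d) (hb : b.natDegree ≤ 6 * d)
    (hk : k1 D₀ (φ₀ (a.map (Int.castRingHom ℚ))) (φ₀ (b.map (Int.castRingHom ℚ))) ≠ 0)
    (hmin : ∀ π : ℚ[X], Prime π →
      ¬ (π ^ 4 ∣ a.map (Int.castRingHom ℚ) ∧ π ^ 6 ∣ b.map (Int.castRingHom ℚ)))
    (hmin' : ¬ (a.natDegree + 4 ≤ 4 * d ∧ b.natDegree + 6 ≤ 6 * d)) {r : ℕ}
    (P : Fin r → (scurve (φ₀ (a.map (Int.castRingHom ℚ)))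
      (φ₀ (b.map (Int.castRingHom ℚ)))).Point) (hP : LinearIndependent ℤ P)
    {k : Subfield (EE p)} {hc : Cl D k} {φ : ℚ_[p][X] →+* k} {ι : F₀ →+* k}
    (f1 : RF1 φ (resD D k hc)) (f2 : ∀ f, ι (φ₀ f) = φ (f.map (algebraMap ℚ ℚ_[p])))
    (f3 : ∀ f : ℤ_[p][X], ((φ (f.map (PadicInt.Coe.ringHom (p := p))) : k) : EE p) =
      jE p (rs (tay f)))
    (f4 : ∀ x, ((ι (D₀ x) : k) : EE p) = D ((ι x : k) : EE p))
    (f5 : ∀ c : ℚ_[p], ((φ (C c) : k) : EE p) = cE p c)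
    {c kk g' h2 h3 : Hz p}
    (hdr : DR (dH p) (tay (a.map (Int.castRingHom ℤ_[p]))) (tay (b.map (Int.castRingHom ℤ_[p])))
      kk g' h2 h3)
    (hric : dH p c = kk * c ^ 2 + 2 * g' * c - h3 * kk * tay (a.map (Int.castRingHom ℤ_[p]))) :
    jE p (rs kk) = k1 D (jE p (rs (tay (a.map (Int.castRingHom ℤ_[p])))))
        (jE p (rs (tay (b.map (Int.castRingHom ℤ_[p]))))) ∧
      jE p (rs g') = g1 D (jE p (rs (tay (a.map (Int.castRingHom ℤ_[p])))))
        (jE p (rs (tay (b.map (Int.castRingHom ℤ_[p]))))) ∧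
    ∃ l : Hz p, ISetup D (cE p).fieldRange k r (jE p (rs kk)) (jE p (rs g'))
      (jE p (rs (h3 * kk * tay (a.map (Int.castRingHom ℤ_[p]))))) (jE p (rs c)) (jE p (rs l))
      (fun i => ((ι (tauP D₀ (P i)) : k) : EE p)) := by
  exact disc_setupX ht.rs_coeff ht.rs_D hg0 hD hconst h0 hd ha hb hk hmin hmin' P hP f1 f2 f3 f4
    f5 hdr hric

/-- THE DISC. PROOF. `exists_TR`; `a'`, `b'` = the images in `ℤ_[p][X]`; `disc_dfm`;
`disc_sc` for every `e` (`eqn` from `prs P e` being a point: `scurve_eq`, clear denominators,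
injectivity of `φ₀`, `Int.cast` to `ℤ_[p][X]`); `exists_DE`, `disc_fld`; `sec_kg` (so `k1`, `g1`
of `EE p` are `jE (rs k)`, `jE (rs g')`; `k1 ≠ 0` because `ι` maps `k1 D₀ ..` to it); `sec_main`
gives `L e`, `W e`. Apply `ISetup.main` to `disc_setup` (`prs τ e = ι (tauP D₀ (prs P e))` by
`prs_tauP`, and `tau D (jE ..) (jE ..) (xs/vs^2) (ys/vs^3) = ι (tau D₀ ..)` by `map_all`, as
`xs/vs^2 = x/w^2`). `ρ e ∈ k` (it is a rational expression in `k1`, `g1`, `x/w^2`, `om`,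
`D vs / vs = D w / w`). `algInd_K`. For `s`: the homomorphism `e = ev · s` (`exists_evR`);
`SD.map` for `rs` and for `e` from `Dfm.sd`; `ev_rs_tay` gives the values of `a`, `b`;
`ev (L e) s` by `sec_main`, with `ev xs s = xt` (cancel `p^(2γ)`), ..., `ev (yi series) s = yi`. -/
theorem disc_main (hp5 : 5 ≤ p) {F₀ : Type*} [Field F₀] [CharZero F₀] [DecidableEq F₀]
    {φ₀ : ℚ[X] →+* F₀} {D₀ : Derivation ℤ F₀ F₀} (h0 : RF1 φ₀ D₀) {d : ℕ} (hd : 1 ≤ d)
    {a b : ℤ[X]} (ha : a.natDegree ≤ 4 * d) (hb : b.natDegree ≤ 6 * d)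
    (hk : k1 D₀ (φ₀ (a.map (Int.castRingHom ℚ))) (φ₀ (b.map (Int.castRingHom ℚ))) ≠ 0)
    (hmin : ∀ π : ℚ[X], Prime π →
      ¬ (π ^ 4 ∣ a.map (Int.castRingHom ℚ) ∧ π ^ 6 ∣ b.map (Int.castRingHom ℚ)))
    (hmin' : ¬ (a.natDegree + 4 ≤ 4 * d ∧ b.natDegree + 6 ≤ 6 * d)) {r : ℕ}
    (P : Fin r → (scurve (φ₀ (a.map (Int.castRingHom ℚ)))
      (φ₀ (b.map (Int.castRingHom ℚ)))).Point) (hP : LinearIndependent ℤ P)
    {x y w : Pr r → ℤ[X]} (hw : ∀ e, w e ≠ 0)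
    (hxy : ∀ e, ∃ h, prs P e = WeierstrassCurve.Affine.Point.some
      (φ₀ ((x e).map (Int.castRingHom ℚ)) / φ₀ ((w e).map (Int.castRingHom ℚ)) ^ 2)
      (φ₀ ((y e).map (Int.castRingHom ℚ)) / φ₀ ((w e).map (Int.castRingHom ℚ)) ^ 3) h)
    {t0 g : ℤ_[p]} (hg : ‖g‖ < 1) (hg0 : g ≠ 0)
    (hΔ : IsUnit (4 * aeval t0 a ^ 3 + 27 * aeval t0 b ^ 2)) {c0 : ℤ_[p]}
    {W0 V0 Om0 S0 Z0 : PowerSeries ℤ_[p]} (hsd : SD (aeval t0 a) (aeval t0 b) c0 W0 V0 Om0 S0 Z0)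
    (γ : Pr r → ℕ) (hγ : ∀ e, (p : ℤ_[p]) ^ (3 * γ e + 1) ∣ g)
    (hx : ∀ e, ∃ x0 y0 w0 : ℤ_[p], IsUnit x0 ∧ IsUnit y0 ∧
      aeval t0 (x e) = (p : ℤ_[p]) ^ (2 * γ e) * x0 ∧
      aeval t0 (y e) = (p : ℤ_[p]) ^ (3 * γ e) * y0 ∧
      aeval t0 (w e) = (p : ℤ_[p]) ^ (γ e + 1) * w0) :
    ∃ L : Pr r → PowerSeries ℤ_[p],
      AlgebraicIndependent ℚ_[p] (fun e => (L e).map (PadicInt.Coe.ringHom (p := p))) ∧
      ∀ s : ℤ_[p], ‖s‖ < 1 → ∃ (c : ℤ_[p]) (W V Om S Z : PowerSeries ℤ_[p]),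
        SD (aeval (t0 + g * s) a) (aeval (t0 + g * s) b) c W V Om S Z ∧
        ∀ (e : Pr r) (xt yt wt yi : ℤ_[p]),
          aeval (t0 + g * s) (x e) = (p : ℤ_[p]) ^ (2 * γ e) * xt →
          aeval (t0 + g * s) (y e) = (p : ℤ_[p]) ^ (3 * γ e) * yt →
          aeval (t0 + g * s) (w e) = (p : ℤ_[p]) ^ γ e * wt → yt * yi = 1 →
          ((ev (L e) s : ℤ_[p]) : ℚ_[p]) = ulog (-(xt * yi * ev S (-(xt * wt * yi)))) := by
  classical
  obtain ⟨tay, rs, ht⟩ := exists_TR hp5 t0 hg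
  have hinjZ : Function.Injective (Polynomial.map (Int.castRingHom ℤ_[p])) :=
    Polynomial.map_injective _ (RingHom.injective_int _)
  have hsd1 : SD ((a.map (Int.castRingHom ℤ_[p])).eval t0) ((b.map (Int.castRingHom ℤ_[p])).eval t0)
      c0 W0 V0 Om0 S0 Z0 := by
    rw [edm_eval, edm_eval]
    exact hsd
  have hΔ1 : IsUnit (4 * (a.map (Int.castRingHom ℤ_[p])).eval t0 ^ 3 +
      27 * (b.map (Int.castRingHom ℤ_[p])).eval t0 ^ 2) := by
    rw [edm_eval, edm_eval]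
    exact hΔ
  obtain ⟨c, kk, g', h2, h3, W, V, Om, S, Z, N, R, hd1⟩ := disc_dfm hp5 ht hΔ1 hsd1
  -- the sections
  have hsec : ∀ e, ∃ xs ys vs xi yi : PowerSeries ℤ_[p],
      rs (tay ((x e).map (Int.castRingHom ℤ_[p]))) =
        PowerSeries.C ((p : ℤ_[p]) ^ (2 * γ e)) * xs ∧
      rs (tay ((y e).map (Int.castRingHom ℤ_[p]))) =
        PowerSeries.C ((p : ℤ_[p]) ^ (3 * γ e)) * ys ∧
      rs (tay ((w e).map (Int.castRingHom ℤ_[p]))) = PowerSeries.C ((p : ℤ_[p]) ^ γ e) * vs ∧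
      Sc (rs (tay (a.map (Int.castRingHom ℤ_[p])))) (rs (tay (b.map (Int.castRingHom ℤ_[p]))))
        xs ys vs xi yi := by
    intro e
    obtain ⟨hh, -⟩ := hxy e
    obtain ⟨x0, y0, w0, hx0, hy0, ex, ey, ew⟩ := hx e
    have eqn := congrArg (Polynomial.map (Int.castRingHom ℤ_[p])) (edm_eqn h0.frac.inj (hw e) hh)
    simp only [Polynomial.map_add, Polynomial.map_mul, Polynomial.map_pow] at eqn
    have hw' : (w e).map (Int.castRingHom ℤ_[p]) ≠ 0 := by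
      intro h
      apply hw e
      apply hinjZ
      rw [h, Polynomial.map_zero]
    exact disc_sc ht hg0 eqn hw' (by rw [edm_eval]; exact ex) hx0 (by rw [edm_eval]; exact ey) hy0
      (by rw [edm_eval]; exact ew) (hγ e)
  choose xs ys vs xi yi hxs hys hvs hSc using hsec
  -- the fields
  have hg1 : (g : ℚ_[p]) ≠ 0 := by
    rw [Ne, PadicInt.coe_eq_zero]
    exact hg0
  obtain ⟨D, hD, hconst⟩ := exists_DE (p := p) hg1
  obtain ⟨k, hcl, φ, ι, f1, f2, f3, f4, f5⟩ := disc_fld ht hg0 hD h0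
  obtain ⟨hkk, hgg, l, hI⟩ := disc_setup hp5 ht hg0 hD hconst h0 hd ha hb hk hmin hmin' P hP
    f1 f2 f3 f4 f5 hd1.dr hd1.ric
  have hΔ2 : 4 * rs (tay (a.map (Int.castRingHom ℤ_[p]))) ^ 3 +
      27 * rs (tay (b.map (Int.castRingHom ℤ_[p]))) ^ 2 ≠ 0 := by
    intro h
    have e1 : rs (tay (4 * a.map (Int.castRingHom ℤ_[p]) ^ 3 +
        27 * b.map (Int.castRingHom ℤ_[p]) ^ 2)) = 0 := by
      rw [← h]
      simp only [map_add, map_mul, map_pow, map_ofNat]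
    have e2 := edm_const ht.rs_coeff ht.tay_ε (4 * a.map (Int.castRingHom ℤ_[p]) ^ 3 +
        27 * b.map (Int.castRingHom ℤ_[p]) ^ 2)
    rw [e1, map_zero] at e2
    simp only [eval_add, eval_mul, eval_pow, eval_ofNat] at e2
    rw [← e2] at hΔ1
    exact not_isUnit_zero hΔ1
  have hk2 : rs kk ≠ 0 := fun h => hI.k1_ne (by rw [h, map_zero])
  choose L Wp hL1 hL2 hL3 using fun e => sec_main hp5 hg0 ht.rs_D (edm_D hg0 hD) hd1 hΔ2 hk2 (hSc e)
  refine ⟨L, ?_, ?_⟩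
  · refine algInd_K L ?_
    -- the homomorphism to `EE p`
    obtain ⟨J, hJ⟩ : ∃ J : F₀ →+* EE p, ∀ x, J x = ((ι x : k) : EE p) :=
      ⟨k.subtype.comp ι, fun _ => rfl⟩
    have hJD : ∀ x, J (D₀ x) = D (J x) := fun x => by rw [hJ, hJ, f4]
    have hJk : ∀ x, J x ∈ k := fun x => by rw [hJ]; exact SetLike.coe_mem _
    have hJp : ∀ F : ℤ[X], J (φ₀ (F.map (Int.castRingHom ℚ))) =
        jE p (rs (tay (F.map (Int.castRingHom ℤ_[p])))) := by
      intro F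
      rw [hJ, f2, ← f3, Polynomial.map_map, Polynomial.map_map]
      congr 4
    have hxe : ∀ e, jE p (xs e) / jE p (vs e) ^ 2 = J (φ₀ ((x e).map (Int.castRingHom ℚ)) /
        φ₀ ((w e).map (Int.castRingHom ℚ)) ^ 2) := by
      intro e
      have h1 : jE p (PowerSeries.C ((p : ℤ_[p]) ^ γ e)) ≠ 0 := edm_cE_ne
      rw [map_div₀, map_pow, hJp, hJp, hxs, hvs, map_mul, map_mul, mul_comm 2 (γ e), pow_mul,
        map_pow, map_pow]
      field_simp
    have hye : ∀ e, jE p (ys e) / jE p (vs e) ^ 3 = J (φ₀ ((y e).map (Int.castRingHom ℚ)) /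
        φ₀ ((w e).map (Int.castRingHom ℚ)) ^ 3) := by
      intro e
      have h1 : jE p (PowerSeries.C ((p : ℤ_[p]) ^ γ e)) ≠ 0 := edm_cE_ne
      rw [map_div₀, map_pow, hJp, hJp, hys, hvs, map_mul, map_mul, mul_comm 3 (γ e), pow_mul,
        map_pow, map_pow]
      field_simp
    have hall := fun e => map_all (D := D₀) (D' := D) J hJD (φ₀ (a.map (Int.castRingHom ℚ)))
      (φ₀ (b.map (Int.castRingHom ℚ)))
      (φ₀ ((x e).map (Int.castRingHom ℚ)) / φ₀ ((w e).map (Int.castRingHom ℚ)) ^ 2)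
      (φ₀ ((y e).map (Int.castRingHom ℚ)) / φ₀ ((w e).map (Int.castRingHom ℚ)) ^ 3)
    have hvk : ∀ e, jE p (vs e) ∈ k := by
      intro e
      have h1 : jE p (PowerSeries.C ((p : ℤ_[p]) ^ γ e)) ≠ 0 := edm_cE_ne
      have h2 : jE p (PowerSeries.C ((p : ℤ_[p]) ^ γ e)) ∈ k := by
        rw [edm_cE, ← f5]
        exact SetLike.coe_mem _
      have h3 : jE p (rs (tay ((w e).map (Int.castRingHom ℤ_[p])))) ∈ k := by
        rw [← hJp]
        exact hJk _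
      have h4 : jE p (vs e) = jE p (rs (tay ((w e).map (Int.castRingHom ℤ_[p])))) /
          jE p (PowerSeries.C ((p : ℤ_[p]) ^ γ e)) := by
        rw [hvs, map_mul]
        field_simp
      rw [h4]
      exact div_mem h3 h2
    refine hI.main (W := Wp) (ρ := fun e => _) ?_ ?_ hL2
    · intro e
      rw [hL1 e]
      congr 1
      obtain ⟨-, -, -, h5⟩ := hall e
      rw [hJp, hJp, ← hxe, ← hye] at h5
      rw [← h5]
      obtain ⟨hh, hPe⟩ := hxy e
      have h6 : tau D₀ (φ₀ (a.map (Int.castRingHom ℚ))) (φ₀ (b.map (Int.castRingHom ℚ)))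
          (φ₀ ((x e).map (Int.castRingHom ℚ)) / φ₀ ((w e).map (Int.castRingHom ℚ)) ^ 2)
          (φ₀ ((y e).map (Int.castRingHom ℚ)) / φ₀ ((w e).map (Int.castRingHom ℚ)) ^ 3) =
          tauP D₀ (prs P e) := by
        rw [hPe, tauP_some]
      rw [h6, prs_tauP D₀ hk P hP e]
      unfold prs
      split_ifs
      · exact hJ _
      · rw [map_sub, hJ, hJ]
    · intro e
      obtain ⟨-, -, h5, -⟩ := hall e
      rw [hJp, hJp, ← hxe, ← hye] at h5
      have hom : om D (jE p (rs (tay (a.map (Int.castRingHom ℤ_[p])))))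
          (jE p (rs (tay (b.map (Int.castRingHom ℤ_[p]))))) (jE p (xs e) / jE p (vs e) ^ 2)
          (jE p (ys e) / jE p (vs e) ^ 3) ∈ k := by
        rw [← h5]
        exact hJk _
      have hxk : jE p (xs e) / jE p (vs e) ^ 2 ∈ k := by
        rw [hxe]
        exact hJk _
      have h2k : (2 : EE p) ∈ k := by
        have := natCast_mem k 2
        exact_mod_cast this
      exact sub_mem (sub_mem (sub_mem (div_mem (pow_mem hom 2) (mul_mem h2k hI.k1_mem))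
        (div_mem (mul_mem hI.k1_mem hxk) h2k)) hI.g1_mem) (div_mem (hcl _ (hvk e)) (hvk e))
  · intro s hs
    obtain ⟨e1, he1⟩ := exists_evR p hs
    have hval : ∀ F : ℤ[X], ev (rs (tay (F.map (Int.castRingHom ℤ_[p])))) s =
        aeval (t0 + g * s) F := by
      intro F
      rw [ev_rs_tay p hs ht.tay_C ht.tay_X ht.rs_coeff, edm_eval]
    refine ⟨e1 (rs c), (W.map rs).map e1, (V.map rs).map e1, (Om.map rs).map e1,
      (S.map rs).map e1, (Z.map rs).map e1, ?_, ?_⟩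
    · have h1 := (hd1.sd.map rs).map e1
      rw [he1 (rs (tay _)), he1 (rs (tay _)), hval, hval] at h1
      exact h1
    · intro e xt yt wt yi' ex ey ew hyi
      have vx := edm_val he1 (hxs e) (hval _) ex
      have vy := edm_val he1 (hys e) (hval _) ey
      have vw := edm_val he1 (hvs e) (hval _) ew
      have vyi : ev (yi e) s = yi' := by
        have h1 := congrArg e1 (hSc e).hy
        rw [map_mul, map_one, he1, he1, vy] at h1
        have h2 : yt * ev (yi e) s * yi' = yt * yi' * yi' := by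
          rw [h1, hyi]
        calc ev (yi e) s = (yt * yi') * ev (yi e) s := by rw [hyi, one_mul]
          _ = yt * yi' * yi' := by rw [← h2]; ring
          _ = yi' := by rw [hyi, one_mul]
      rw [hL3 e s e1 hs he1, vx, vw, vyi]

end Pool.Agent.Lib.MP_3550b5_nt.SV
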