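import Mathlib

/-!
Project SV, part F: residue classes.
-/

namespace Pool.Agent.Lib.MP_3550b5_nt.SV

/-- If every set of elements of `P` with pairwise incongruent `f t` modulo `m` has at most `lam`
elements, then the `f t` lie in at most `lam` residue classes. -/
lemma exists_cover {α : Type*} (P : α → Prop) (f : α → ℤ) {m lam : ℕ} (hm : 0 < m)
    (h : ∀ T : Finset α, (∀ t ∈ T, P t) →
      (∀ t ∈ T, ∀ t' ∈ T, t ≠ t' → ¬ (m : ℤ) ∣ f t - f t') → T.card ≤ lam) :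
    ∃ A : Finset ℤ, A.card ≤ lam ∧ ∀ t, P t → ∃ u ∈ A, (m : ℤ) ∣ f t - u := by
  classical
  have hmZ : (0 : ℤ) < m := by exact_mod_cast hm
  set S : Finset ℤ := (Finset.Ico (0 : ℤ) m).filter (fun ρ => ∃ t, P t ∧ f t % (m : ℤ) = ρ) with hS
  have hrep : ∀ ρ : S, ∃ t, P t ∧ f t % (m : ℤ) = ρ.1 := fun ρ => (Finset.mem_filter.mp ρ.2).2
  choose g hg1 hg2 using hrep
  have hinj : Function.Injective g := by
    intro ρ ρ' he
    apply Subtype.ext
    rw [← hg2 ρ, ← hg2 ρ', he]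
  have hcard : ((Finset.univ : Finset S).image g).card ≤ lam := by
    apply h
    · intro t ht
      obtain ⟨ρ, -, rfl⟩ := Finset.mem_image.mp ht
      exact hg1 ρ
    · intro t ht t' ht' hne hd
      obtain ⟨ρ, -, rfl⟩ := Finset.mem_image.mp ht
      obtain ⟨ρ', -, rfl⟩ := Finset.mem_image.mp ht'
      apply hne
      have h3 : f (g ρ) % (m : ℤ) = f (g ρ') % (m : ℤ) :=
        Int.emod_eq_emod_iff_emod_sub_eq_zero.mpr (Int.emod_eq_zero_of_dvd hd)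
      rw [hg2, hg2] at h3
      rw [Subtype.ext h3]
  rw [Finset.card_image_of_injective _ hinj] at hcard
  refine ⟨(Finset.univ : Finset S).image (fun ρ => f (g ρ)),
    Finset.card_image_le.trans hcard, fun t ht => ?_⟩
  have hmem : f t % (m : ℤ) ∈ S := by
    rw [hS, Finset.mem_filter, Finset.mem_Ico]
    exact ⟨⟨Int.emod_nonneg _ hmZ.ne', Int.emod_lt_of_pos _ hmZ⟩, t, ht, rfl⟩
  refine ⟨f (g ⟨_, hmem⟩), Finset.mem_image.mpr ⟨⟨_, hmem⟩, Finset.mem_univ _, rfl⟩, ?_⟩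
  have h4 := hg2 ⟨_, hmem⟩
  exact Int.dvd_of_emod_eq_zero (Int.emod_eq_emod_iff_emod_sub_eq_zero.mp h4.symm)

/-- A finite set of integers lying in at most `C` residue classes modulo every power of `p`. -/
lemma card_of_cover {p C : ℕ} (hp : 1 < p) (T : Finset ℤ)
    (h : ∀ e : ℕ, ∃ A : Finset ℤ, A.card ≤ C ∧ ∀ t ∈ T, ∃ u ∈ A, (p : ℤ) ^ e ∣ t - u) :
    T.card ≤ C := by
  classical
  set N : ℕ := ∑ t ∈ T, t.natAbs with hN
  have hle : ∀ t ∈ T, t.natAbs ≤ N := fun t ht =>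
    Finset.single_le_sum (f := fun t : ℤ => t.natAbs) (fun _ _ => Nat.zero_le _) ht
  obtain ⟨A, hA, hT⟩ := h (2 * N + 1)
  choose! f hf1 hf2 using hT
  refine (Finset.card_le_card_of_injOn f hf1 ?_).trans hA
  intro t ht t' ht' he
  by_contra hne
  have h1 : (p : ℤ) ^ (2 * N + 1) ∣ t - t' := by
    have h2 := dvd_sub (hf2 t ht) (hf2 t' ht')
    rw [he] at h2
    simpa using h2
  have h3 := Int.le_of_dvd (Int.natCast_pos.mpr (Int.natAbs_pos.mpr (sub_ne_zero.mpr hne)))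
    (Int.dvd_natAbs.mpr h1)
  have h4 : p ^ (2 * N + 1) ≤ (t - t').natAbs := by exact_mod_cast h3
  have h5 : (t - t').natAbs ≤ t.natAbs + t'.natAbs := Int.natAbs_sub_le t t'
  have h6 := hle t ht
  have h7 := hle t' ht'
  have h8 : 2 * N + 1 < p ^ (2 * N + 1) := Nat.lt_pow_self hp
  omega

/-- The class of the rational number `t` modulo `p^(j+1)`. -/
noncomputable def cls (p j : ℕ) (t : ℚ) : ZMod (p ^ (j + 1)) :=
  (t.num : ZMod (p ^ (j + 1))) * (t.den : ZMod (p ^ (j + 1)))⁻¹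

lemma cls_dvd {p : ℕ} (hp : p.Prime) {j : ℕ} {t t₀ : ℚ} (ht : ¬ p ∣ t.den)
    (ht₀ : ¬ p ∣ t₀.den) (h : cls p j t = cls p j t₀) :
    (p : ℤ) ^ (j + 1) ∣ t.num * t₀.den - t₀.num * t.den := by
  have h1 : (t.den : ZMod (p ^ (j + 1))) * (t.den : ZMod (p ^ (j + 1)))⁻¹ = 1 :=
    ZMod.coe_mul_inv_eq_one _ (((hp.coprime_iff_not_dvd.mpr ht).symm).pow_right _)
  have h2 : (t₀.den : ZMod (p ^ (j + 1))) * (t₀.den : ZMod (p ^ (j + 1)))⁻¹ = 1 :=
    ZMod.coe_mul_inv_eq_one _ (((hp.coprime_iff_not_dvd.mpr ht₀).symm).pow_right _)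
  have h3 : ((p ^ (j + 1) : ℕ) : ℤ) ∣ t.num * t₀.den - t₀.num * t.den := by
    rw [← ZMod.intCast_zmod_eq_zero_iff_dvd]
    push_cast
    unfold cls at h
    calc (t.num : ZMod (p ^ (j + 1))) * t₀.den - t₀.num * t.den
        = (t.num : ZMod (p ^ (j + 1))) * t₀.den * (t.den * (t.den : ZMod (p ^ (j + 1)))⁻¹) -
          t₀.num * t.den * (t₀.den * (t₀.den : ZMod (p ^ (j + 1)))⁻¹) := by rw [h1, h2]; ring
      _ = t.den * t₀.den * (t.num * (t.den : ZMod (p ^ (j + 1)))⁻¹ -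
          t₀.num * (t₀.den : ZMod (p ^ (j + 1)))⁻¹) := by ring
      _ = 0 := by rw [h, sub_self, mul_zero]
  exact_mod_cast h3

end Pool.Agent.Lib.MP_3550b5_nt.SV
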