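import Mathlib
import Pool.Agent.Lib.MP_3550b5_nt.SRes

/-!
Project SV, part F: the dehomogenisation of a nonzero form is not zero.
-/

namespace Pool.Agent.Lib.MP_3550b5_nt.SV

open MvPolynomial

lemma dehom_ne {k : ℕ} {F : MvPolynomial (Fin 2) ℤ} (hF : F.IsHomogeneous k) (h0 : F ≠ 0) :
    dehom F ≠ 0 := by
  obtain ⟨m, hm⟩ := MvPolynomial.exists_coeff_ne_zero h0
  intro h
  apply hm
  have hdeg : ∀ e : Fin 2 →₀ ℕ, coeff e F ≠ 0 → e 0 + e 1 = k := by
    intro e he
    have h1 := hF he
    rw [Finsupp.weight_apply, Finsupp.sum_fintype _ _ (by simp), Fin.sum_univ_two] at h1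
    simpa using h1
  have h2 : (dehom F).coeff (m 0) = coeff m F := by
    rw [dehom, MvPolynomial.aeval_def, MvPolynomial.eval₂_eq', Polynomial.finsetSum_coeff,
      Finset.sum_eq_single m]
    · rw [Fin.prod_univ_two]
      simp
    · intro e he hem
      rw [Fin.prod_univ_two]
      have h3 : e 0 ≠ m 0 := by
        intro h4
        apply hem
        have h5 := hdeg e (MvPolynomial.mem_support_iff.1 he)
        have h6 := hdeg m hm
        ext i
        fin_cases i
        · exact h4
        · show e 1 = m 1
          omega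
      simp only [Matrix.cons_val_zero, Matrix.cons_val_one, one_pow, mul_one,
        algebraMap_int_eq, eq_intCast]
      rw [Polynomial.coeff_intCast_mul, Polynomial.coeff_X_pow, if_neg (fun h => h3 h.symm), mul_zero]
    · intro he
      rw [MvPolynomial.notMem_support_iff] at he
      exact absurd he hm
  rw [← h2, h, Polynomial.coeff_zero]

end Pool.Agent.Lib.MP_3550b5_nt.SV
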