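import Mathlib

/-!
Project SV, part S: counting integers in few residue classes (`card_classes` of `SV/Gram.lean`).
-/

namespace Pool.Agent.Lib.MP_3550b5_nt.SV

/-- The number of integers of absolute value `≤ N` in a residue class modulo `q`. -/
private lemma gc_fibre {q N : ℕ} (hq : 1 ≤ q) (T : Finset ℤ) (hT : ∀ m ∈ T, |m| ≤ N) (c : ℤ)
    (hc : ∀ m ∈ T, m % q = c) : (T.card : ℝ) ≤ 2 * N / q + 1 := by
  have hq' : (0 : ℝ) < q := by exact_mod_cast hq
  have hqz : (q : ℤ) ≠ 0 := by exact_mod_cast (by omega : q ≠ 0)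
  have hdiv : ∀ m ∈ T, m = c + q * (m / q) := fun m hm => by
    have h := Int.emod_add_mul_ediv m q
    rw [hc m hm] at h
    exact h.symm
  have hinj : Set.InjOn (fun m : ℤ => m / q) T := by
    intro m hm m' hm' h
    have h1 : m / q = m' / q := h
    rw [hdiv m hm, hdiv m' hm', h1]
  have hsub : T.image (fun m : ℤ => m / q) ⊆
      Finset.Icc ⌈((-N - c : ℤ) : ℝ) / q⌉ ⌊((N - c : ℤ) : ℝ) / q⌋ := by
    intro k hk
    obtain ⟨m, hm, rfl⟩ := Finset.mem_image.1 hk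
    have h1 := abs_le.1 (hT m hm)
    have h2 := hdiv m hm
    rw [Finset.mem_Icc]
    constructor
    · apply Int.ceil_le.2
      rw [div_le_iff₀ hq']
      have h3 : -(N : ℤ) - c ≤ (m / q) * q := by
        rw [mul_comm]
        linarith [h1.1]
      exact_mod_cast h3
    · apply Int.le_floor.2
      rw [le_div_iff₀ hq']
      have h3 : (m / q) * q ≤ (N : ℤ) - c := by
        rw [mul_comm]
        linarith [h1.2]
      exact_mod_cast h3
  rw [← Finset.card_image_of_injOn hinj]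
  have h1 : ((T.image (fun m : ℤ => m / q)).card : ℝ) ≤
      ((Finset.Icc ⌈((-N - c : ℤ) : ℝ) / q⌉ ⌊((N - c : ℤ) : ℝ) / q⌋).card : ℝ) := by
    exact_mod_cast Finset.card_le_card hsub
  refine h1.trans ?_
  rw [Int.card_Icc]
  have h2 : (⌊((N - c : ℤ) : ℝ) / q⌋ : ℝ) ≤ ((N - c : ℤ) : ℝ) / q := Int.floor_le _
  have h3 : ((-N - c : ℤ) : ℝ) / q ≤ (⌈((-N - c : ℤ) : ℝ) / q⌉ : ℝ) := Int.le_ceil _
  have h4 : ((N - c : ℤ) : ℝ) / q - ((-N - c : ℤ) : ℝ) / q = 2 * N / q := by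
    push_cast
    ring
  rcases le_total 0 (⌊((N - c : ℤ) : ℝ) / q⌋ + 1 - ⌈((-N - c : ℤ) : ℝ) / q⌉) with h | h
  · have h5 : (((⌊((N - c : ℤ) : ℝ) / q⌋ + 1 - ⌈((-N - c : ℤ) : ℝ) / q⌉).toNat : ℤ) : ℝ) =
        ((⌊((N - c : ℤ) : ℝ) / q⌋ + 1 - ⌈((-N - c : ℤ) : ℝ) / q⌉ : ℤ) : ℝ) := by
      rw [Int.toNat_of_nonneg h]
    rw [Int.cast_natCast] at h5
    rw [h5, Int.cast_sub, Int.cast_add, Int.cast_one]
    linarith
  · rw [Int.toNat_of_nonpos h, Nat.cast_zero]
    positivity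

/-- COUNTING, the proof of `card_classes`. -/
lemma card_classesX {lam q N : ℕ} (hq : 1 ≤ q) (T : Finset ℤ) (hT : ∀ m ∈ T, |m| ≤ N)
    (h : ∀ T' ⊆ T, (∀ m ∈ T', ∀ m' ∈ T', m ≠ m' → ¬ (q : ℤ) ∣ m - m') → T'.card ≤ lam) :
    (T.card : ℝ) ≤ lam * (2 * N / q + 1) := by
  classical
  have hpos : (0 : ℝ) ≤ 2 * N / q + 1 := by positivity
  -- representatives
  have hex : ∀ c ∈ T.image (fun m : ℤ => m % q), ∃ m ∈ T, m % q = c := fun c hc => by
    obtain ⟨m, hm, h1⟩ := Finset.mem_image.1 hc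
    exact ⟨m, hm, h1⟩
  choose! g hg1 hg2 using hex
  have hI : (T.image (fun m : ℤ => m % q)).card ≤ lam := by
    have hinj : Set.InjOn g (T.image (fun m : ℤ => m % q)) := by
      intro c hc c' hc' h1
      rw [← hg2 c hc, ← hg2 c' hc', h1]
    rw [← Finset.card_image_of_injOn hinj]
    refine h _ ?_ ?_
    · intro m hm
      obtain ⟨c, hc, rfl⟩ := Finset.mem_image.1 hm
      exact hg1 c hc
    · intro m hm m' hm' hne hd
      obtain ⟨c, hc, rfl⟩ := Finset.mem_image.1 hm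
      obtain ⟨c', hc', rfl⟩ := Finset.mem_image.1 hm'
      apply hne
      have h1 : g c % q = g c' % q :=
        Int.emod_eq_emod_iff_emod_sub_eq_zero.2 (Int.emod_eq_zero_of_dvd hd)
      rw [hg2 c hc, hg2 c' hc'] at h1
      rw [h1]
  rw [Finset.card_eq_sum_card_image (fun m : ℤ => m % q) T, Nat.cast_sum]
  calc ∑ c ∈ T.image (fun m : ℤ => m % q), ((T.filter (fun m : ℤ => m % q = c)).card : ℝ)
      ≤ ∑ c ∈ T.image (fun m : ℤ => m % q), (2 * N / q + 1 : ℝ) := by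
        refine Finset.sum_le_sum fun c _ => gc_fibre hq _ (fun m hm => ?_) c fun m hm => ?_
        · exact hT m (Finset.mem_filter.1 hm).1
        · exact (Finset.mem_filter.1 hm).2
    _ = (T.image (fun m : ℤ => m % q)).card * (2 * N / q + 1 : ℝ) := by
        rw [Finset.sum_const, nsmul_eq_mul]
    _ ≤ lam * (2 * N / q + 1) := by
        refine mul_le_mul_of_nonneg_right ?_ hpos
        exact_mod_cast hI

end Pool.Agent.Lib.MP_3550b5_nt.SV
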