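import Mathlib

/-!
Project SV, part S: the top part of a product of linear polynomials (for `gram_disc`).
-/

namespace Pool.Agent.Lib.MP_3550b5_nt.SV

/-- All monomials have degree `< n`. -/
def DegLT {σ K : Type*} [Field K] (n : ℕ) (P : MvPolynomial σ K) : Prop :=
  ∀ J : σ →₀ ℕ, n ≤ J.degree → MvPolynomial.coeff J P = 0

variable {σ K : Type*} [Field K]

lemma DegLT.add {n : ℕ} {P Q : MvPolynomial σ K} (hP : DegLT n P) (hQ : DegLT n Q) :
    DegLT n (P + Q) := by
  intro J hJ
  rw [MvPolynomial.coeff_add, hP J hJ, hQ J hJ, add_zero]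

lemma DegLT.sum {ι : Type*} (s : Finset ι) {n : ℕ} {P : ι → MvPolynomial σ K}
    (hP : ∀ i ∈ s, DegLT n (P i)) : DegLT n (∑ i ∈ s, P i) := by
  intro J hJ
  rw [MvPolynomial.coeff_sum]
  exact Finset.sum_eq_zero fun i hi => hP i hi J hJ

lemma DegLT.mul {a b : ℕ} {P Q : MvPolynomial σ K} (hP : DegLT (a + 1) P) (hQ : DegLT b Q) :
    DegLT (a + b) (P * Q) := by
  classical
  intro J hJ
  rw [MvPolynomial.coeff_mul]
  refine Finset.sum_eq_zero fun x hx => ?_
  rw [Finset.HasAntidiagonal.mem_antidiagonal] at hx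
  have h1 : x.1.degree + x.2.degree = J.degree := by rw [← hx, map_add]
  by_cases h : a + 1 ≤ x.1.degree
  · rw [hP _ h, zero_mul]
  · rw [hQ _ (by omega), mul_zero]

lemma degLT_homog {n : ℕ} {P : MvPolynomial σ K} (hP : P.IsHomogeneous n) : DegLT (n + 1) P :=
  fun J hJ => hP.coeff_eq_zero (by omega)

lemma degLT_C (c : K) : DegLT 1 (MvPolynomial.C c : MvPolynomial σ K) :=
  degLT_homog (MvPolynomial.isHomogeneous_C σ c)

/-- The product of `l i + c i` is the product of the `l i` up to terms of lower degree. -/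
lemma degLT_prod {ι : Type*} [DecidableEq ι] (s : Finset ι) (l : ι → MvPolynomial σ K) (c : ι → K)
    (hl : ∀ i, (l i).IsHomogeneous 1) :
    DegLT s.card (∏ i ∈ s, (l i + MvPolynomial.C (c i)) - ∏ i ∈ s, l i) := by
  induction s using Finset.induction_on with
  | empty =>
    intro J _
    simp
  | insert i s hi ih =>
    rw [Finset.prod_insert hi, Finset.prod_insert hi, Finset.card_insert_of_notMem hi]
    have h1 : (l i + MvPolynomial.C (c i)) * ∏ j ∈ s, (l j + MvPolynomial.C (c j)) -
        l i * ∏ j ∈ s, l j =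
        (l i + MvPolynomial.C (c i)) *
          (∏ j ∈ s, (l j + MvPolynomial.C (c j)) - ∏ j ∈ s, l j) +
        MvPolynomial.C (c i) * ∏ j ∈ s, l j := by ring
    rw [h1]
    refine DegLT.add ?_ ?_
    · rw [add_comm s.card 1]
      refine DegLT.mul (DegLT.add (degLT_homog (hl i)) ?_) ih
      intro J hJ
      exact degLT_C (c i) J (by omega)
    · have h2 : (∏ j ∈ s, l j).IsHomogeneous s.card := by
        have h3 := MvPolynomial.IsHomogeneous.prod s l (fun _ => 1) (fun j _ => hl j)
        rwa [Finset.sum_const, smul_eq_mul, mul_one] at h3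
      have h4 := DegLT.mul (a := 0) (degLT_C (σ := σ) (c i)) (degLT_homog h2)
      rwa [zero_add] at h4

/-- The determinant of a matrix of linear forms is homogeneous. -/
lemma det_homog {r : ℕ} (M : Matrix (Fin r) (Fin r) (MvPolynomial σ K))
    (hM : ∀ i j, (M i j).IsHomogeneous 1) : M.det.IsHomogeneous r := by
  rw [Matrix.det_apply']
  refine MvPolynomial.IsHomogeneous.sum _ _ _ fun s _ => ?_
  have h1 : ((Equiv.Perm.sign s : ℤ) : MvPolynomial σ K) =
      MvPolynomial.C ((Equiv.Perm.sign s : ℤ) : K) := (map_intCast (MvPolynomial.C : K →+* MvPolynomial σ K) _).symm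
  rw [h1]
  have h2 := MvPolynomial.IsHomogeneous.prod Finset.univ (fun i => M (s i) i) (fun _ => 1)
    (fun i _ => hM (s i) i)
  rw [Finset.sum_const, smul_eq_mul, mul_one, Finset.card_univ, Fintype.card_fin] at h2
  have h3 := (MvPolynomial.isHomogeneous_C σ ((Equiv.Perm.sign s : ℤ) : K)).mul h2
  rwa [zero_add] at h3

/-- The determinant of `M + N`, `N` constant, is that of `M` up to terms of lower degree. -/
lemma degLT_det {r : ℕ} (M : Matrix (Fin r) (Fin r) (MvPolynomial σ K)) (N : Fin r → Fin r → K)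
    (hM : ∀ i j, (M i j).IsHomogeneous 1) :
    DegLT r ((Matrix.of fun i j => M i j + MvPolynomial.C (N i j)).det - M.det) := by
  rw [Matrix.det_apply', Matrix.det_apply', ← Finset.sum_sub_distrib]
  refine DegLT.sum _ fun s _ => ?_
  rw [← mul_sub]
  have h1 : ((Equiv.Perm.sign s : ℤ) : MvPolynomial σ K) =
      MvPolynomial.C ((Equiv.Perm.sign s : ℤ) : K) := (map_intCast (MvPolynomial.C : K →+* MvPolynomial σ K) _).symm
  rw [h1]
  have h2 := degLT_prod Finset.univ (fun i => M (s i) i) (fun i => N (s i) i)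
    (fun i => hM (s i) i)
  rw [Finset.card_univ, Fintype.card_fin] at h2
  have h3 := DegLT.mul (a := 0) (degLT_C (σ := σ) ((Equiv.Perm.sign s : ℤ) : K)) h2
  rw [zero_add] at h3
  exact h3

end Pool.Agent.Lib.MP_3550b5_nt.SV
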