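import Mathlib
import Pool.Agent.Lib.MP_3550b5_nt.Eval

/-!
Project SV, part S: divided differences of a power series with integral coefficients.
-/

namespace Pool.Agent.Lib.MP_3550b5_nt.SV

open Polynomial

variable {p : ℕ} [hp : Fact p.Prime]

/-- the coefficient of `X ^ m` of the remainder of `X ^ n` modulo `∏ (X - s i)` -/
private noncomputable def hn {m : ℕ} (s : Fin (m + 1) → ℤ_[p]) (n : ℕ) : ℤ_[p] :=
  ((X ^ n : ℤ_[p][X]) %ₘ Lagrange.nodal Finset.univ s).coeff m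

private theorem hn_eq {m : ℕ} (s : Fin (m + 1) → ℤ_[p]) (hinj : Function.Injective s) (n : ℕ) :
    ∑ i, (s i : ℚ_[p]) ^ n / ∏ j ∈ Finset.univ.erase i, ((s i : ℚ_[p]) - (s j : ℚ_[p])) =
      (hn s n : ℚ_[p]) := by
  classical
  set M : ℤ_[p][X] := Lagrange.nodal Finset.univ s with hM
  have hMm : M.Monic := Lagrange.nodal_monic
  have hMd : M.degree = ((m + 1 : ℕ) : WithBot ℕ) := by
    rw [hM, Lagrange.degree_nodal, Finset.card_univ, Fintype.card_fin]
  set R : ℤ_[p][X] := (X ^ n : ℤ_[p][X]) %ₘ M with hR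
  have hRd : R.degree < ((m + 1 : ℕ) : WithBot ℕ) := by
    rw [← hMd]
    exact degree_modByMonic_lt _ hMm
  have hRe : ∀ i, R.eval (s i) = s i ^ n := by
    intro i
    have h0 : aeval (s i) M = 0 := by
      rw [coe_aeval_eq_eval]
      exact Lagrange.eval_nodal_at_node (Finset.mem_univ i)
    have h1 := aeval_modByMonic_eq_self_of_root (p := (X ^ n : ℤ_[p][X])) h0
    rw [← hR, coe_aeval_eq_eval] at h1
    rw [h1]
    simp
  have hv : Set.InjOn (fun i => (s i : ℚ_[p])) (Finset.univ : Finset (Fin (m + 1))) := by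
    intro i _ j _ hij
    exact hinj (Subtype.coe_injective hij)
  have hRq : (R.map (PadicInt.Coe.ringHom (p := p))).degree < (Finset.univ :
      Finset (Fin (m + 1))).card := by
    rw [Finset.card_univ, Fintype.card_fin]
    exact degree_map_le.trans_lt hRd
  have h2 := Lagrange.coeff_eq_sum hv hRq
  rw [Finset.card_univ, Fintype.card_fin, Nat.add_sub_cancel, coeff_map] at h2
  have h3 : (PadicInt.Coe.ringHom (p := p)) (R.coeff m) = (hn s n : ℚ_[p]) := rfl
  rw [← h3, h2]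
  refine Finset.sum_congr rfl fun i _ => ?_
  have h4 : (R.map (PadicInt.Coe.ringHom (p := p))).eval (s i : ℚ_[p]) =
      ((R.eval (s i) : ℤ_[p]) : ℚ_[p]) := by
    have := eval_map_apply (PadicInt.Coe.ringHom (p := p)) (p := R) (s i)
    exact this
  rw [h4, hRe]
  push_cast
  rfl

private theorem hn_lt {m : ℕ} (s : Fin (m + 1) → ℤ_[p]) {n : ℕ} (h : n < m) : hn s n = 0 := by
  have hMm : (Lagrange.nodal Finset.univ s).Monic := Lagrange.nodal_monic
  unfold hn
  rw [(modByMonic_eq_self_iff hMm).2, coeff_X_pow, if_neg (by omega)]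
  rw [Lagrange.degree_nodal, Finset.card_univ, Fintype.card_fin]
  refine (degree_X_pow_le n).trans_lt ?_
  exact_mod_cast (by omega : n < m + 1)

private theorem hn_self {m : ℕ} (s : Fin (m + 1) → ℤ_[p]) : hn s m = 1 := by
  have hMm : (Lagrange.nodal Finset.univ s).Monic := Lagrange.nodal_monic
  unfold hn
  rw [(modByMonic_eq_self_iff hMm).2, coeff_X_pow, if_pos rfl]
  rw [Lagrange.degree_nodal, Finset.card_univ, Fintype.card_fin]
  refine (degree_X_pow_le m).trans_lt ?_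
  exact_mod_cast (by omega : m < m + 1)

private theorem hn_gt {m : ℕ} (s : Fin (m + 1) → ℤ_[p]) (hs : ∀ i, ‖s i‖ < 1) {n : ℕ}
    (h : m < n) : ‖hn s n‖ ≤ (p : ℝ) ^ (-1 : ℤ) := by
  have hMm : (Lagrange.nodal Finset.univ s).Monic := Lagrange.nodal_monic
  have hres : ∀ x : ℤ_[p], IsLocalRing.residue ℤ_[p] x = 0 ↔ ‖x‖ < 1 := by
    intro x
    rw [IsLocalRing.residue_eq_zero_iff, IsLocalRing.mem_maximalIdeal, PadicInt.mem_nonunits]
  have h1 : (Lagrange.nodal Finset.univ s).map (IsLocalRing.residue ℤ_[p]) = X ^ (m + 1) := by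
    rw [Lagrange.nodal_eq, Polynomial.map_prod]
    have : ∀ i ∈ (Finset.univ : Finset (Fin (m + 1))),
        (X - C (s i)).map (IsLocalRing.residue ℤ_[p]) = X := by
      intro i _
      rw [Polynomial.map_sub, map_X, map_C, (hres _).2 (hs i), C_0, sub_zero]
    rw [Finset.prod_congr rfl this, Finset.prod_const, Finset.card_univ, Fintype.card_fin]
  have h2 : ((X ^ n : ℤ_[p][X]) %ₘ Lagrange.nodal Finset.univ s).map
      (IsLocalRing.residue ℤ_[p]) = 0 := by
    rw [map_modByMonic _ hMm, h1, Polynomial.map_pow, map_X,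
      (modByMonic_eq_zero_iff_dvd (monic_X_pow _))]
    exact pow_dvd_pow _ (by omega)
  have h3 : IsLocalRing.residue ℤ_[p] (hn s n) = 0 := by
    have := congrArg (fun q => coeff q m) h2
    simpa [coeff_map, hn] using this
  rw [PadicInt.norm_le_pow_iff_norm_lt_pow_add_one]
  have h4 : (p : ℝ) ^ ((-1 : ℤ) + 1) = 1 := by norm_num
  rw [h4]
  exact (hres _).1 h3

private theorem norm_hasSum_le {g : ℕ → ℚ_[p]} {A : ℚ_[p]} {r : ℝ} (hr : 0 ≤ r) (hg : HasSum g A)
    (h : ∀ n, ‖g n‖ ≤ r) : ‖A‖ ≤ r := by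
  have h1 : ∀ s : Finset ℕ, ‖∑ n ∈ s, g n‖ ≤ r := by
    intro s
    induction s using Finset.induction_on with
    | empty => simpa using hr
    | insert a s ha ih =>
      rw [Finset.sum_insert ha]
      exact (Padic.nonarchimedean _ _).trans (max_le (h a) ih)
  exact le_of_tendsto hg.norm (Filter.Eventually.of_forall h1)

theorem div_diff_aux {m : ℕ} (f : PowerSeries ℤ_[p])
    (hf : ∀ n, ‖PowerSeries.coeff n f‖ ≤ ‖PowerSeries.coeff m f‖)
    (s : Fin (m + 1) → ℤ_[p]) (hs : ∀ i, ‖s i‖ < 1) (hinj : Function.Injective s) :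
    ‖∑ i, ((ev f (s i) : ℤ_[p]) : ℚ_[p]) /
      ∏ j ∈ Finset.univ.erase i, ((s i : ℚ_[p]) - (s j : ℚ_[p]))‖ = ‖PowerSeries.coeff m f‖ := by
  classical
  set A : ℚ_[p] := ∑ i, ((ev f (s i) : ℤ_[p]) : ℚ_[p]) /
      ∏ j ∈ Finset.univ.erase i, ((s i : ℚ_[p]) - (s j : ℚ_[p])) with hA
  have h1 : ∀ i, HasSum (fun n => ((PowerSeries.coeff n f : ℤ_[p]) : ℚ_[p]) * (s i : ℚ_[p]) ^ n)
      ((ev f (s i) : ℤ_[p]) : ℚ_[p]) := by
    intro i
    have h2 : HasSum (fun n => PowerSeries.coeff n f * s i ^ n) (ev f (s i)) :=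
      (ev_summable f (hs i)).hasSum
    have h3 := h2.map (PadicInt.Coe.ringHom (p := p)) continuous_subtype_val
    have h4 : (⇑(PadicInt.Coe.ringHom (p := p)) ∘ fun n => PowerSeries.coeff n f * s i ^ n) =
        fun n => ((PowerSeries.coeff n f : ℤ_[p]) : ℚ_[p]) * (s i : ℚ_[p]) ^ n := by
      funext n
      rw [Function.comp_apply, map_mul, map_pow]
      rfl
    rw [h4] at h3
    exact h3
  have h4 : HasSum (fun n => ((PowerSeries.coeff n f : ℤ_[p]) : ℚ_[p]) * (hn s n : ℚ_[p])) A := by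
    have h5 := hasSum_sum (s := Finset.univ) fun i _ =>
      (h1 i).div_const (∏ j ∈ Finset.univ.erase i, ((s i : ℚ_[p]) - (s j : ℚ_[p])))
    have h6 : (fun n => ((PowerSeries.coeff n f : ℤ_[p]) : ℚ_[p]) * (hn s n : ℚ_[p])) =
        fun n => ∑ i, ((PowerSeries.coeff n f : ℤ_[p]) : ℚ_[p]) * (s i : ℚ_[p]) ^ n /
          ∏ j ∈ Finset.univ.erase i, ((s i : ℚ_[p]) - (s j : ℚ_[p])) := by
      funext n
      rw [← hn_eq s hinj, Finset.mul_sum]
      exact Finset.sum_congr rfl fun i _ => (mul_div_assoc _ _ _).symm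
    rw [h6]
    exact h5
  have h5 : HasSum (fun n => if n = m then ((PowerSeries.coeff m f : ℤ_[p]) : ℚ_[p]) else 0)
      ((PowerSeries.coeff m f : ℤ_[p]) : ℚ_[p]) := hasSum_ite_eq m _
  have hp0 : (0 : ℝ) < p := by exact_mod_cast hp.out.pos
  have hp1 : (p : ℝ) ^ (-1 : ℤ) < 1 := by
    rw [zpow_neg_one]
    exact inv_lt_one_of_one_lt₀ (by exact_mod_cast hp.out.one_lt)
  have hq0 : 0 ≤ (p : ℝ) ^ (-1 : ℤ) := (zpow_pos hp0 _).le
  have h6 : ‖A - ((PowerSeries.coeff m f : ℤ_[p]) : ℚ_[p])‖ ≤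
      ‖PowerSeries.coeff m f‖ * (p : ℝ) ^ (-1 : ℤ) := by
    refine norm_hasSum_le (mul_nonneg (norm_nonneg _) hq0) (h4.sub h5) fun n => ?_
    rcases lt_trichotomy n m with h | h | h
    · rw [hn_lt s h, if_neg h.ne]
      simpa using mul_nonneg (norm_nonneg (PowerSeries.coeff m f)) (inv_nonneg.2 hp0.le)
    · subst h
      rw [hn_self, if_pos rfl, PadicInt.coe_one, mul_one, sub_self, norm_zero]
      exact mul_nonneg (norm_nonneg _) hq0
    · rw [if_neg h.ne', sub_zero, norm_mul]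
      exact mul_le_mul (hf n) (hn_gt s hs h) (norm_nonneg _) (norm_nonneg _)
  by_cases h0 : ‖PowerSeries.coeff m f‖ = 0
  · rw [h0, zero_mul] at h6
    have h7 : A = ((PowerSeries.coeff m f : ℤ_[p]) : ℚ_[p]) :=
      sub_eq_zero.1 (norm_eq_zero.1 (le_antisymm h6 (norm_nonneg _)))
    rw [h7]
    rfl
  · have h7 : ‖A - ((PowerSeries.coeff m f : ℤ_[p]) : ℚ_[p])‖ <
        ‖((PowerSeries.coeff m f : ℤ_[p]) : ℚ_[p])‖ := by
      refine h6.trans_lt ?_
      have h8 : 0 < ‖PowerSeries.coeff m f‖ := lt_of_le_of_ne (norm_nonneg _) (Ne.symm h0)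
      exact mul_lt_of_lt_one_right h8 hp1
    exact Padic.norm_eq_of_norm_sub_lt_right h7

end Pool.Agent.Lib.MP_3550b5_nt.SV
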