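import Mathlib
import Pool.Agent.Lib.MP_3550b5_nt.Eval

/-!
Project SV, part S: from the uniform bound for small vectors to vectors which are not small and to
polynomials in algebraically independent series.
-/

namespace Pool.Agent.Lib.MP_3550b5_nt.SV

open PowerSeries

universe u

variable {p : ℕ} [hp : Fact p.Prime]

private theorem strY_zero {K : ℤ} {x : ℚ_[p]} (h : (p : ℝ) ^ K ≤ ‖x‖) : x ≠ 0 := by
  have hp0 : (0 : ℝ) < p := by exact_mod_cast hp.out.pos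
  intro h0
  rw [h0, norm_zero] at h
  exact absurd h (not_le.2 (zpow_pos hp0 _))

/-- `str_uniform'` from `str_uniform`. -/
theorem strY_uniform' {ι : Type*} [Fintype ι] (f : ι → ℤ_[p]⟦X⟧)
    (hU : ∃ lam A : ℕ, ∀ x : ι → ℤ_[p], (∃ i, ‖x i‖ = 1) → ∀ e K : ℕ, A + lam * e ≤ K →
      ∀ T : Finset ℤ_[p], (∀ s ∈ T, ‖s‖ < 1) →
        (∀ s ∈ T, ∀ s' ∈ T, s ≠ s' → (p : ℝ) ^ (-(e : ℤ)) < ‖s - s'‖) →
        (∀ s ∈ T, ‖∑ i, x i * ev (f i) s‖ ≤ (p : ℝ) ^ (-(K : ℤ))) → T.card ≤ lam) (A₀ : ℕ) :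
    ∃ lam A : ℕ, ∀ x : ι → ℚ_[p], (∃ i, (p : ℝ) ^ (-(A₀ : ℤ)) ≤ ‖x i‖) → ∀ e K : ℕ,
      A + lam * e ≤ K → ∀ T : Finset ℤ_[p], (∀ s ∈ T, ‖s‖ < 1) →
        (∀ s ∈ T, ∀ s' ∈ T, s ≠ s' → (p : ℝ) ^ (-(e : ℤ)) < ‖s - s'‖) →
        (∀ s ∈ T, ‖∑ i, x i * ((ev (f i) s : ℤ_[p]) : ℚ_[p])‖ ≤ (p : ℝ) ^ (-(K : ℤ))) →
        T.card ≤ lam := by
  have hp0 : (0 : ℝ) < p := by exact_mod_cast hp.out.pos
  obtain ⟨lam, A, h⟩ := hU
  refine ⟨lam, A + A₀, fun x hx e K hK T hT hd hv => ?_⟩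
  obtain ⟨i1, hi1⟩ := hx
  have : Nonempty ι := ⟨i1⟩
  obtain ⟨i₀, hi₀⟩ := Finite.exists_max fun i => ‖x i‖
  have hx0 : (p : ℝ) ^ (-(A₀ : ℤ)) ≤ ‖x i₀‖ := hi1.trans (hi₀ i1)
  have hne : x i₀ ≠ 0 := strY_zero hx0
  have hpos : 0 < ‖x i₀‖ := norm_pos_iff.2 hne
  have hy : ∀ i, ‖x i / x i₀‖ ≤ 1 := by
    intro i
    rw [norm_div, div_le_one hpos]
    exact hi₀ i
  have hcast : ((K - A₀ : ℕ) : ℤ) = (K : ℤ) - A₀ := by
    rw [Nat.cast_sub]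
    omega
  obtain ⟨y, hyx⟩ : ∃ y : ι → ℤ_[p], ∀ i, (y i : ℚ_[p]) = x i / x i₀ :=
    ⟨fun i => ⟨x i / x i₀, hy i⟩, fun i => rfl⟩
  refine h y ⟨i₀, ?_⟩ e (K - A₀) (by omega) T hT hd fun s hs => ?_
  · rw [PadicInt.norm_def, hyx, div_self hne, norm_one]
  · have h1 : ((∑ i, y i * ev (f i) s : ℤ_[p]) : ℚ_[p]) =
        (∑ i, x i * ((ev (f i) s : ℤ_[p]) : ℚ_[p])) / x i₀ := by
      rw [PadicInt.coe_sum, Finset.sum_div]
      refine Finset.sum_congr rfl fun i _ => ?_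
      rw [PadicInt.coe_mul, hyx]
      ring
    rw [PadicInt.norm_def, h1, norm_div, div_le_iff₀ hpos]
    refine (hv s hs).trans ?_
    calc (p : ℝ) ^ (-(K : ℤ)) = (p : ℝ) ^ (-((K - A₀ : ℕ) : ℤ)) * (p : ℝ) ^ (-(A₀ : ℤ)) := by
          rw [← zpow_add₀ hp0.ne', hcast]
          congr 1
          ring
      _ ≤ (p : ℝ) ^ (-((K - A₀ : ℕ) : ℤ)) * ‖x i₀‖ :=
          mul_le_mul_of_nonneg_left hx0 (zpow_pos hp0 _).le

private theorem strY_ev_pow (f : ℤ_[p]⟦X⟧) {t : ℤ_[p]} (ht : ‖t‖ < 1) (n : ℕ) :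
    ev (f ^ n) t = ev f t ^ n := by
  induction n with
  | zero => rw [pow_zero, pow_zero, ev_one]
  | succ n ih => rw [pow_succ, pow_succ, ev_mul _ _ ht, ih]

private theorem strY_ev_prod {σ : Type*} (S : Finset σ) (f : σ → ℤ_[p]⟦X⟧) {t : ℤ_[p]}
    (ht : ‖t‖ < 1) : ev (∏ e ∈ S, f e) t = ∏ e ∈ S, ev (f e) t := by
  classical
  induction S using Finset.induction_on with
  | empty => rw [Finset.prod_empty, Finset.prod_empty, ev_one]
  | insert a S ha ih => rw [Finset.prod_insert ha, Finset.prod_insert ha, ev_mul _ _ ht, ih]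

/-- a norm which is not `0` is at least `p ^ (-A₀)` -/
private theorem strY_exists {x : ℚ_[p]} (hx : x ≠ 0) :
    ∃ A₀ : ℕ, (p : ℝ) ^ (-(A₀ : ℤ)) ≤ ‖x‖ := by
  have hp1 : (1 : ℝ) < p := by exact_mod_cast hp.out.one_lt
  have hp0 : (0 : ℝ) < p := zero_lt_one.trans hp1
  obtain ⟨n, hn⟩ := exists_pow_lt_of_lt_one (norm_pos_iff.2 hx) (inv_lt_one_of_one_lt₀ hp1)
  refine ⟨n, ?_⟩
  rw [zpow_neg, zpow_natCast, ← inv_pow]
  exact hn.le

/-- The monomials of degree at most `r` in algebraically independent series are linearly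
independent. -/
private theorem strY_indep {σ : Type*} [Fintype σ] (L : σ → ℤ_[p]⟦X⟧)
    (hL : AlgebraicIndependent ℚ_[p] (fun e => (L e).map (PadicInt.Coe.ringHom (p := p))))
    (r : ℕ) : LinearIndependent ℚ_[p] (fun J : {J : σ →₀ ℕ // J.degree ≤ r} =>
      (∏ e, L e ^ (J : σ →₀ ℕ) e : ℤ_[p]⟦X⟧).map (PadicInt.Coe.ringHom (p := p))) := by
  have h1 : LinearIndependent ℚ_[p] fun J : σ →₀ ℕ =>
      MvPolynomial.aeval (fun e => (L e).map (PadicInt.Coe.ringHom (p := p)))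
        (MvPolynomial.monomial J (1 : ℚ_[p])) := by
    have h2 := (MvPolynomial.basisMonomials σ ℚ_[p]).linearIndependent
    have h3 := h2.map' (MvPolynomial.aeval (R := ℚ_[p])
      (fun e => (L e).map (PadicInt.Coe.ringHom (p := p)))).toLinearMap
      (LinearMap.ker_eq_bot.2 hL)
    have e : (fun J : σ →₀ ℕ =>
        MvPolynomial.aeval (fun e => (L e).map (PadicInt.Coe.ringHom (p := p)))
        (MvPolynomial.monomial J (1 : ℚ_[p]))) =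
        (MvPolynomial.aeval (R := ℚ_[p])
          (fun e => (L e).map (PadicInt.Coe.ringHom (p := p)))).toLinearMap ∘
          (MvPolynomial.basisMonomials σ ℚ_[p]) := by
      funext J
      simp
    rw [e]
    exact h3
  have h4 := h1.comp (fun J : {J : σ →₀ ℕ // J.degree ≤ r} => (J : σ →₀ ℕ))
    Subtype.val_injective
  have e : (fun J : {J : σ →₀ ℕ // J.degree ≤ r} =>
      (∏ e, L e ^ (J : σ →₀ ℕ) e : ℤ_[p]⟦X⟧).map (PadicInt.Coe.ringHom (p := p))) =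
      (fun J : σ →₀ ℕ =>
        MvPolynomial.aeval (fun e => (L e).map (PadicInt.Coe.ringHom (p := p)))
        (MvPolynomial.monomial J (1 : ℚ_[p]))) ∘
        (fun J : {J : σ →₀ ℕ // J.degree ≤ r} => (J : σ →₀ ℕ)) := by
    funext J
    simp only [Function.comp_apply]
    rw [MvPolynomial.aeval_monomial, map_one, one_mul, Finsupp.prod_fintype _ _ fun i => pow_zero _,
      map_prod]
    simp only [map_pow]
  rw [e]
  exact h4

/-- `str_poly` from `str_uniform`. -/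
theorem strY_poly {σ : Type u} [Fintype σ] (L : σ → ℤ_[p]⟦X⟧)
    (hL : AlgebraicIndependent ℚ_[p] (fun e => (L e).map (PadicInt.Coe.ringHom (p := p)))) {r : ℕ}
    {Q : MvPolynomial σ ℚ_[p]} (hQ : Q.IsHomogeneous r) (hQ0 : Q ≠ 0)
    (hU : ∀ (ι : Type u) [Fintype ι] (f : ι → ℤ_[p]⟦X⟧),
      LinearIndependent ℚ_[p] (fun i => (f i).map (PadicInt.Coe.ringHom (p := p))) →
      ∃ lam A : ℕ, ∀ x : ι → ℤ_[p], (∃ i, ‖x i‖ = 1) → ∀ e K : ℕ, A + lam * e ≤ K →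
      ∀ T : Finset ℤ_[p], (∀ s ∈ T, ‖s‖ < 1) →
        (∀ s ∈ T, ∀ s' ∈ T, s ≠ s' → (p : ℝ) ^ (-(e : ℤ)) < ‖s - s'‖) →
        (∀ s ∈ T, ‖∑ i, x i * ev (f i) s‖ ≤ (p : ℝ) ^ (-(K : ℤ))) → T.card ≤ lam) :
    ∃ lam A : ℕ, ∀ P : MvPolynomial σ ℚ_[p], P.totalDegree ≤ r →
      (∀ J, J.degree = r → MvPolynomial.coeff J P = MvPolynomial.coeff J Q) → ∀ e K : ℕ,
      A + lam * e ≤ K → ∀ T : Finset ℤ_[p], (∀ s ∈ T, ‖s‖ < 1) →
        (∀ s ∈ T, ∀ s' ∈ T, s ≠ s' → (p : ℝ) ^ (-(e : ℤ)) < ‖s - s'‖) →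
        (∀ s ∈ T, ‖MvPolynomial.eval (fun e => ((ev (L e) s : ℤ_[p]) : ℚ_[p])) P‖ ≤
          (p : ℝ) ^ (-(K : ℤ))) → T.card ≤ lam := by
  classical
  obtain ⟨J₀, hJ₀⟩ := MvPolynomial.ne_zero_iff.1 hQ0
  have hd₀ : J₀.degree = r := by
    by_contra h
    exact hJ₀ (hQ.coeff_eq_zero h)
  obtain ⟨A₀, hA₀⟩ := strY_exists hJ₀
  have : Fintype {J : σ →₀ ℕ // J.degree ≤ r} := (Finsupp.finite_of_degree_le r).fintype
  obtain ⟨lam, A, h⟩ := strY_uniform' (fun J : {J : σ →₀ ℕ // J.degree ≤ r} =>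
    (∏ e, L e ^ (J : σ →₀ ℕ) e : ℤ_[p]⟦X⟧)) (hU _ _ (strY_indep L hL r)) A₀
  refine ⟨lam, A, fun P hP hPQ e K hK T hT hd hv => ?_⟩
  refine h (fun J => MvPolynomial.coeff (J : σ →₀ ℕ) P) ⟨⟨J₀, hd₀.le⟩, ?_⟩ e K hK T hT hd
    fun s hs => ?_
  · show (p : ℝ) ^ (-(A₀ : ℤ)) ≤ ‖MvPolynomial.coeff J₀ P‖
    rw [hPQ J₀ hd₀]
    exact hA₀
  · have h1 : ∑ J : {J : σ →₀ ℕ // J.degree ≤ r}, MvPolynomial.coeff (J : σ →₀ ℕ) P *
        ((ev (∏ e, L e ^ (J : σ →₀ ℕ) e : ℤ_[p]⟦X⟧) s : ℤ_[p]) : ℚ_[p]) =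
        MvPolynomial.eval (fun e => ((ev (L e) s : ℤ_[p]) : ℚ_[p])) P := by
      rw [MvPolynomial.eval_eq']
      have h2 : ∀ J : σ →₀ ℕ, ((ev (∏ e, L e ^ J e : ℤ_[p]⟦X⟧) s : ℤ_[p]) : ℚ_[p]) =
          ∏ e, ((ev (L e) s : ℤ_[p]) : ℚ_[p]) ^ J e := by
        intro J
        rw [strY_ev_prod _ _ (hT s hs)]
        refine (map_prod (PadicInt.Coe.ringHom (p := p)) _ _).trans
          (Finset.prod_congr rfl fun e _ => ?_)
        show ((ev (L e ^ J e) s : ℤ_[p]) : ℚ_[p]) = _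
        rw [strY_ev_pow _ (hT s hs), PadicInt.coe_pow]
      have h3 : ∀ J ∈ P.support, J.degree ≤ r := by
        intro J hJ
        refine le_trans ?_ hP
        exact MvPolynomial.le_totalDegree hJ
      symm
      refine Finset.sum_of_injOn (fun J => if hJ : J.degree ≤ r then
        (⟨J, hJ⟩ : {J : σ →₀ ℕ // J.degree ≤ r}) else ⟨J₀, hd₀.le⟩) ?_ ?_ ?_ ?_
      · intro J hJ J' hJ' hJJ
        have hJ1 := h3 J hJ
        have hJ2 := h3 J' hJ'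
        simp only [dif_pos hJ1, dif_pos hJ2, Subtype.mk.injEq] at hJJ
        exact hJJ
      · intro J _
        exact Finset.mem_coe.2 (Finset.mem_univ _)
      · intro J _ hJ
        have h4 : (J : σ →₀ ℕ) ∉ P.support := by
          intro h5
          refine hJ ⟨J, h5, ?_⟩
          simp only [dif_pos J.2]
        rw [MvPolynomial.notMem_support_iff.1 h4, zero_mul]
      · intro J hJ
        have hJ1 := h3 J hJ
        simp only [dif_pos hJ1]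
        rw [h2]
    rw [h1]
    exact hv s hs

end Pool.Agent.Lib.MP_3550b5_nt.SV
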