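import Mathlib
import Pool.Agent.Lib.MP_3550b5_nt.Eval

/-!
Project SV, part S: uniform Strassmann bounds, compactness.
-/

namespace Pool.Agent.Lib.MP_3550b5_nt.SV

open PowerSeries Topology

variable {p : ℕ} [hp : Fact p.Prime]

/-- the combination with coefficients `x i` -/
noncomputable def strC {ι : Type*} [Fintype ι] (f : ι → ℤ_[p]⟦X⟧) (x : ι → ℤ_[p]) : ℤ_[p]⟦X⟧ :=
  ∑ i, C (x i) * f i

theorem coeff_strC {ι : Type*} [Fintype ι] (f : ι → ℤ_[p]⟦X⟧) (x : ι → ℤ_[p]) (n : ℕ) :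
    coeff n (strC f x) = ∑ i, x i * coeff n (f i) := by
  unfold strC
  rw [map_sum]
  exact Finset.sum_congr rfl fun i _ => coeff_C_mul _ _ _

theorem ev_strC {ι : Type*} [Fintype ι] (f : ι → ℤ_[p]⟦X⟧) (x : ι → ℤ_[p]) {s : ℤ_[p]}
    (hs : ‖s‖ < 1) : ev (strC f x) s = ∑ i, x i * ev (f i) s := by
  unfold ev
  have h1 : ∀ i, x i * ∑' n, coeff n (f i) * s ^ n = ∑' n, x i * (coeff n (f i) * s ^ n) :=
    fun i => ((ev_summable (f i) hs).tsum_mul_left (x i)).symm
  rw [Finset.sum_congr rfl fun i _ => h1 i,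
    ← Summable.tsum_finsetSum fun i _ => (ev_summable (f i) hs).mul_left (x i)]
  refine tsum_congr fun n => ?_
  rw [coeff_strC, Finset.sum_mul]
  exact Finset.sum_congr rfl fun i _ => mul_assoc _ _ _

private theorem strX_max {g : ℤ_[p]⟦X⟧} (hg : g ≠ 0) :
    ∃ m, coeff m g ≠ 0 ∧ ∀ n, ‖coeff n g‖ ≤ ‖coeff m g‖ := by
  obtain ⟨n0, hn0⟩ : ∃ n, coeff n g ≠ 0 := by
    by_contra hcon
    push Not at hcon
    exact hg (PowerSeries.ext fun n => by rw [hcon n, map_zero])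
  obtain ⟨m, hm, hmin⟩ := (measure fun n => (coeff n g).valuation).wf.has_min
    {n | coeff n g ≠ 0} ⟨n0, hn0⟩
  refine ⟨m, hm, fun n => ?_⟩
  by_cases hn : coeff n g = 0
  · rw [hn, norm_zero]
    exact norm_nonneg _
  · have h1 : ¬ (coeff n g).valuation < (coeff m g).valuation := hmin n hn
    rw [PadicInt.norm_eq_zpow_neg_valuation hn, PadicInt.norm_eq_zpow_neg_valuation hm]
    refine zpow_le_zpow_right₀ ?_ (by omega)
    exact_mod_cast hp.out.one_le

private theorem strX_sub {ι : Type*} [Fintype ι] (f : ι → ℤ_[p]⟦X⟧) {x y : ι → ℤ_[p]} {r : ℝ}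
    (hr : 0 < r) (h : ∀ i, ‖y i - x i‖ < r) (n : ℕ) :
    ‖coeff n (strC f y) - coeff n (strC f x)‖ < r := by
  rw [coeff_strC, coeff_strC, ← Finset.sum_sub_distrib]
  have h1 : ∀ s : Finset ι, ‖∑ i ∈ s, (y i * coeff n (f i) - x i * coeff n (f i))‖ < r := by
    classical
    intro s
    induction s using Finset.induction_on with
    | empty => simpa using hr
    | insert a s ha ih =>
      rw [Finset.sum_insert ha]
      refine (PadicInt.nonarchimedean _ _).trans_lt (max_lt ?_ ih)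
      rw [← sub_mul, norm_mul]
      exact (mul_le_of_le_one_right (norm_nonneg _) (PadicInt.norm_le_one _)).trans_lt (h a)
  exact h1 Finset.univ

private theorem strX_norm_eq {a b : ℤ_[p]} (h : ‖b - a‖ < ‖a‖) : ‖b‖ = ‖a‖ := by
  have h1 : ‖a‖ ≤ ‖b‖ := by
    by_contra hcon
    push Not at hcon
    have h2 := PadicInt.nonarchimedean b (-(b - a))
    rw [norm_neg, add_comm, neg_sub, sub_add_cancel] at h2
    exact absurd (max_lt hcon h) (not_lt.2 h2)
  refine le_antisymm ?_ h1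
  have h2 := PadicInt.nonarchimedean a (b - a)
  rw [add_sub_cancel] at h2
  exact h2.trans (max_le le_rfl h.le)

theorem strX_good {ι : Type*} [Fintype ι] (f : ι → ℤ_[p]⟦X⟧)
    (hf : LinearIndependent ℚ_[p] (fun i => (f i).map (PadicInt.Coe.ringHom (p := p)))) :
    ∃ lam A : ℕ, ∀ x : ι → ℤ_[p], (∃ i, ‖x i‖ = 1) → ∃ m ≤ lam, ∃ A' ≤ A,
      (∀ n, ‖coeff n (strC f x)‖ ≤ ‖coeff m (strC f x)‖) ∧
        (p : ℝ) ^ (-(A' : ℤ)) ≤ ‖coeff m (strC f x)‖ := by
  have hcomp : IsCompact {x : ι → ℤ_[p] | ∃ i, ‖x i‖ = 1} := by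
    apply IsClosed.isCompact
    have h1 : {x : ι → ℤ_[p] | ∃ i, ‖x i‖ = 1} = ⋃ i, {x : ι → ℤ_[p] | ‖x i‖ = 1} := by
      ext x
      simp
    rw [h1]
    exact isClosed_iUnion_of_finite fun i =>
      isClosed_eq ((continuous_apply i).norm) continuous_const
  have key : ∀ x : ι → ℤ_[p], (∃ i, ‖x i‖ = 1) → strC f x ≠ 0 := by
    rintro x ⟨i, hi⟩ h0
    have h1 := Fintype.linearIndependent_iff.1 hf (fun i => (x i : ℚ_[p])) (by
      ext n
      have h2 := congrArg (coeff n) h0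
      rw [coeff_strC, map_zero] at h2
      rw [map_sum, map_zero]
      have h3 := congrArg (fun z : ℤ_[p] => (z : ℚ_[p])) h2
      simp only [PadicInt.coe_sum, PadicInt.coe_mul, PadicInt.coe_zero] at h3
      rw [← h3]
      refine Finset.sum_congr rfl fun j _ => ?_
      rw [coeff_smul, coeff_map, smul_eq_mul]
      rfl) i
    have h2 : x i = 0 := Subtype.ext h1
    rw [h2, norm_zero] at hi
    exact zero_ne_one hi
  have main : ∃ lam A : ℕ, ∀ x ∈ {x : ι → ℤ_[p] | ∃ i, ‖x i‖ = 1}, ∃ m ≤ lam, ∃ A' ≤ A,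
      (∀ n, ‖coeff n (strC f x)‖ ≤ ‖coeff m (strC f x)‖) ∧
        (p : ℝ) ^ (-(A' : ℤ)) ≤ ‖coeff m (strC f x)‖ := by
    refine hcomp.induction_on (p := fun S => ∃ lam A : ℕ, ∀ x ∈ S, ∃ m ≤ lam, ∃ A' ≤ A,
      (∀ n, ‖coeff n (strC f x)‖ ≤ ‖coeff m (strC f x)‖) ∧
        (p : ℝ) ^ (-(A' : ℤ)) ≤ ‖coeff m (strC f x)‖) ?_ ?_ ?_ ?_
    · exact ⟨0, 0, fun x hx => absurd hx (Set.notMem_empty x)⟩
    · rintro S T hST ⟨lam, A, h⟩
      exact ⟨lam, A, fun x hx => h x (hST hx)⟩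
    · rintro S T ⟨lam, A, h⟩ ⟨lam', A', h'⟩
      refine ⟨max lam lam', max A A', ?_⟩
      rintro x (hx | hx)
      · obtain ⟨m, hm, B, hB, h1, h2⟩ := h x hx
        exact ⟨m, hm.trans (le_max_left _ _), B, hB.trans (le_max_left _ _), h1, h2⟩
      · obtain ⟨m, hm, B, hB, h1, h2⟩ := h' x hx
        exact ⟨m, hm.trans (le_max_right _ _), B, hB.trans (le_max_right _ _), h1, h2⟩
    · intro x hx
      obtain ⟨m, hm, hmax⟩ := strX_max (key x hx)
      have hpos : 0 < ‖coeff m (strC f x)‖ := norm_pos_iff.2 hm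
      refine ⟨{y | ∀ i, ‖y i - x i‖ < ‖coeff m (strC f x)‖}, mem_nhdsWithin_of_mem_nhds ?_, m,
        (coeff m (strC f x)).valuation, ?_⟩
      · have h1 : {y : ι → ℤ_[p] | ∀ i, ‖y i - x i‖ < ‖coeff m (strC f x)‖} =
            ⋂ i, {y : ι → ℤ_[p] | ‖y i - x i‖ < ‖coeff m (strC f x)‖} := by
          ext y
          simp
        rw [h1]
        refine (isOpen_iInter_of_finite fun i => ?_).mem_nhds ?_
        · exact isOpen_lt (((continuous_apply i).sub continuous_const).norm) continuous_const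
        · rw [Set.mem_iInter]
          intro i
          change ‖x i - x i‖ < _
          rw [sub_self, norm_zero]
          exact hpos
      · intro y hy
        have h2 := strX_sub f hpos hy
        have h3 : ‖coeff m (strC f y)‖ = ‖coeff m (strC f x)‖ := strX_norm_eq (h2 m)
        refine ⟨m, le_rfl, _, le_rfl, fun n => ?_, ?_⟩
        · rw [h3]
          have h4 := PadicInt.nonarchimedean (coeff n (strC f x))
            (coeff n (strC f y) - coeff n (strC f x))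
          rw [add_sub_cancel] at h4
          exact h4.trans (max_le (hmax n) (h2 n).le)
        · rw [h3, PadicInt.norm_eq_zpow_neg_valuation hm]
  obtain ⟨lam, A, h⟩ := main
  exact ⟨lam, A, fun x hx => h x hx⟩

end Pool.Agent.Lib.MP_3550b5_nt.SV
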