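import Mathlib
import Pool.Agent.Lib.MP_3550b5_nt.SV.StrPoly
import Pool.Agent.Lib.MP_3550b5_nt.Eval
import Pool.Agent.Lib.MP_3550b5_nt.SV.StrX
import Pool.Agent.Lib.MP_3550b5_nt.SV.StrDD

/-!
Project SV, part S: uniform Strassmann bounds.
-/

namespace Pool.Agent.Lib.MP_3550b5_nt.SV

open PowerSeries

variable {p : ℕ} [hp : Fact p.Prime]

/-- DIVIDED DIFFERENCES. Let `s 0, ..., s m` be distinct points of the open disc and `f` a power
series with integral coefficients such that `‖f_n‖ ≤ ‖f_m‖` for all `n`. Then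
`∑ i, f(s_i) / ∏_(j ≠ i) (s_i - s_j)` has norm `‖f_m‖`. PROOF. The sum is
`∑_n f_n ∑_i s_i^n / ∏_(j ≠ i) (s_i - s_j)`, and the inner sum is `0` for `n < m`, `1` for `n = m`,
and the complete symmetric polynomial of degree `n - m` in the `s_i` for `n > m`: an integral
polynomial without constant term, of norm `≤ p^-1`. (Lean: prove by induction on `m` that for every
`n` the divided difference of `X^n` is the value of a complete homogeneous symmetric polynomial; or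
use `Lagrange.sum_basis`-type results (`Lagrange.interpolate`: the divided difference is the
coefficient of `X^m` of the interpolation polynomial, and `X^n` modulo the monic integral polynomial
`∏ (X - s_i)` has integral coefficients; modulo `p` it is `X^n` modulo `X^(m+1)`, whose coefficient
of `X^m` is `0` for `n > m`). Continuity of the finite sum of evaluations.) -/
theorem div_diff {m : ℕ} (f : ℤ_[p]⟦X⟧) (hf : ∀ n, ‖coeff n f‖ ≤ ‖coeff m f‖)
    (s : Fin (m + 1) → ℤ_[p]) (hs : ∀ i, ‖s i‖ < 1) (hinj : Function.Injective s) :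
    ‖∑ i, ((ev f (s i) : ℤ_[p]) : ℚ_[p]) /
      ∏ j ∈ Finset.univ.erase i, ((s i : ℚ_[p]) - (s j : ℚ_[p]))‖ = ‖coeff m f‖ := div_diff_aux f hf s hs hinj

/-- One series. PROOF. Otherwise there are `m + 1` points in `T`; `div_diff`: the norm of the sum is
`‖f_m‖ ≥ p^-A`, but every term has norm `≤ p^-K (p^e)^m` with a strict inequality somewhere:
`‖s_i - s_j‖ > p^-e` means `‖s_i - s_j‖⁻¹ < p^e`; so (for `m ≥ 1`) the norm is `< p^(e m - K)`,
`≤ p^-A`. For `m = 0`: `‖f(s)‖ = ‖f_0‖ ≥ p^-A > p^-K`, as `A < K`. -/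
theorem str_one {m A e K : ℕ} {f : ℤ_[p]⟦X⟧} (hf : ∀ n, ‖coeff n f‖ ≤ ‖coeff m f‖)
    (hA : (p : ℝ) ^ (-(A : ℤ)) ≤ ‖coeff m f‖) (hK : A + m * e < K) (T : Finset ℤ_[p])
    (hT : ∀ s ∈ T, ‖s‖ < 1)
    (hd : ∀ s ∈ T, ∀ s' ∈ T, s ≠ s' → (p : ℝ) ^ (-(e : ℤ)) < ‖s - s'‖)
    (hv : ∀ s ∈ T, ‖ev f s‖ ≤ (p : ℝ) ^ (-(K : ℤ))) : T.card ≤ m := by
  by_contra hcon
  push Not at hcon
  have hp1 : (1 : ℝ) < p := by exact_mod_cast hp.out.one_lt
  have hp0 : (0 : ℝ) < p := zero_lt_one.trans hp1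
  obtain ⟨emb⟩ : Nonempty (Fin (m + 1) ↪ T) :=
    Function.Embedding.nonempty_of_card_le (by
      rw [Fintype.card_fin, Fintype.card_coe]
      exact hcon)
  let s : Fin (m + 1) → ℤ_[p] := fun i => (emb i : ℤ_[p])
  have hs : ∀ i, s i ∈ T := fun i => (emb i).2
  have hinj : Function.Injective s := fun i j hij => emb.injective (Subtype.ext hij)
  have h1 := div_diff f hf s (fun i => hT _ (hs i)) hinj
  have h2 : ‖∑ i, ((ev f (s i) : ℤ_[p]) : ℚ_[p]) /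
      ∏ j ∈ Finset.univ.erase i, ((s i : ℚ_[p]) - (s j : ℚ_[p]))‖ ≤
      (p : ℝ) ^ (-(K : ℤ) + (m * e : ℕ)) := by
    refine IsUltrametricDist.norm_sum_le_of_forall_le_of_nonneg (by positivity) fun i _ => ?_
    rw [norm_div, norm_prod]
    have h3 : (p : ℝ) ^ (-((m * e : ℕ) : ℤ)) ≤
        ∏ j ∈ Finset.univ.erase i, ‖(s i : ℚ_[p]) - (s j : ℚ_[p])‖ := by
      have h4 : (p : ℝ) ^ (-((m * e : ℕ) : ℤ)) =
          ∏ _j ∈ Finset.univ.erase i, (p : ℝ) ^ (-(e : ℤ)) := by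
        rw [Finset.prod_const, Finset.card_erase_of_mem (Finset.mem_univ i), Finset.card_univ,
          Fintype.card_fin, Nat.add_sub_cancel, ← zpow_natCast, ← zpow_mul]
        congr 1
        push_cast
        ring
      rw [h4]
      refine Finset.prod_le_prod (fun _ _ => by positivity) fun j hj => ?_
      have h5 := hd _ (hs i) _ (hs j) fun h => (Finset.ne_of_mem_erase hj) (hinj h).symm
      rw [PadicInt.norm_def, PadicInt.coe_sub] at h5
      exact h5.le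
    have h6 : (0 : ℝ) < (p : ℝ) ^ (-((m * e : ℕ) : ℤ)) := by positivity
    have h7 := hv _ (hs i)
    rw [PadicInt.norm_def] at h7
    calc ‖((ev f (s i) : ℤ_[p]) : ℚ_[p])‖ /
          ∏ j ∈ Finset.univ.erase i, ‖(s i : ℚ_[p]) - (s j : ℚ_[p])‖
        ≤ (p : ℝ) ^ (-(K : ℤ)) / (p : ℝ) ^ (-((m * e : ℕ) : ℤ)) :=
          div_le_div₀ (by positivity) h7 h6 h3
      _ = (p : ℝ) ^ (-(K : ℤ) + (m * e : ℕ)) := by
          rw [← zpow_sub₀ hp0.ne', sub_neg_eq_add]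
  rw [h1] at h2
  have h3 := hA.trans h2
  have h4 : -(A : ℤ) ≤ -(K : ℤ) + (m * e : ℕ) := (zpow_le_zpow_iff_right₀ hp1).1 h3
  omega

/-- UNIFORMITY. PROOF. For `x` in the unit sphere `Σ = {x | ∀ i, ‖x i‖ ≤ 1, ∃ i, ‖x i‖ = 1}` of
`ι → ℤ_[p]` (compact) the series `f_x = ∑ x i f i` is not `0` (linear independence). Its
coefficients have a maximal norm (the values of the norm are powers of `p`), attained at an index
`m`, equal to `p^-A`. For `x'` with `‖x' i - x i‖ < p^-A` for all `i`, the coefficients of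
`f_x' - f_x` have norm `< p^-A`, so the pair `(m, A)` is good for `x'`, too. By compactness finitely
many pairs suffice; let `lam` and `A` be the maxima (plus one). `str_one`. -/
theorem str_uniform {ι : Type*} [Fintype ι] (f : ι → ℤ_[p]⟦X⟧)
    (hf : LinearIndependent ℚ_[p] (fun i => (f i).map (PadicInt.Coe.ringHom (p := p)))) :
    ∃ lam A : ℕ, ∀ x : ι → ℤ_[p], (∃ i, ‖x i‖ = 1) → ∀ e K : ℕ, A + lam * e ≤ K →
      ∀ T : Finset ℤ_[p], (∀ s ∈ T, ‖s‖ < 1) →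
        (∀ s ∈ T, ∀ s' ∈ T, s ≠ s' → (p : ℝ) ^ (-(e : ℤ)) < ‖s - s'‖) →
        (∀ s ∈ T, ‖∑ i, x i * ev (f i) s‖ ≤ (p : ℝ) ^ (-(K : ℤ))) → T.card ≤ lam := by
  obtain ⟨lam, A, h⟩ := strX_good f hf
  refine ⟨lam, A + 1, fun x hx e K hK T hT hd hv => ?_⟩
  obtain ⟨m, hm, A', hA', h1, h2⟩ := h x hx
  have h3 : m * e ≤ lam * e := Nat.mul_le_mul_right e hm
  refine (str_one (f := strC f x) h1 h2 (K := K) (e := e) (by omega) T hT hd fun s hs => ?_).trans
    hm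
  rw [ev_strC f x (hT s hs)]
  exact hv s hs

/-- The same for vectors which are not small. PROOF. Let `ρ = max ‖x i‖ ≥ p^-A₀`, attained at `i₀`;
apply `str_uniform` to `x / x i₀` and `K - A₀`. -/
theorem str_uniform' {ι : Type*} [Fintype ι] (f : ι → ℤ_[p]⟦X⟧)
    (hf : LinearIndependent ℚ_[p] (fun i => (f i).map (PadicInt.Coe.ringHom (p := p)))) (A₀ : ℕ) :
    ∃ lam A : ℕ, ∀ x : ι → ℚ_[p], (∃ i, (p : ℝ) ^ (-(A₀ : ℤ)) ≤ ‖x i‖) → ∀ e K : ℕ,
      A + lam * e ≤ K → ∀ T : Finset ℤ_[p], (∀ s ∈ T, ‖s‖ < 1) →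
        (∀ s ∈ T, ∀ s' ∈ T, s ≠ s' → (p : ℝ) ^ (-(e : ℤ)) < ‖s - s'‖) →
        (∀ s ∈ T, ‖∑ i, x i * ((ev (f i) s : ℤ_[p]) : ℚ_[p])‖ ≤ (p : ℝ) ^ (-(K : ℤ))) →
        T.card ≤ lam :=
  strY_uniform' f (str_uniform f hf) A₀

/-- POLYNOMIALS in algebraically independent series. `P` ranges over the polynomials of degree
`≤ r` with a fixed homogeneous part `Q ≠ 0` of degree `r`. PROOF. The index set `ι` of the monomials
`J` of degree `≤ r` is finite; `f J = ∏ (L e)^(J e)` are linearly independent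
(`AlgebraicIndependent`, `MvPolynomial` monomials), `ev (f J) s = ∏ (ev (L e) s)^(J e)` (`ev_mul`).
`x J = coeff J P`; some coefficient of `Q` is not `0`, of norm `≥ p^-A₀`. `str_uniform'`. -/
theorem str_poly {σ : Type*} [Fintype σ] (L : σ → ℤ_[p]⟦X⟧)
    (hL : AlgebraicIndependent ℚ_[p] (fun e => (L e).map (PadicInt.Coe.ringHom (p := p)))) {r : ℕ}
    {Q : MvPolynomial σ ℚ_[p]} (hQ : Q.IsHomogeneous r) (hQ0 : Q ≠ 0) :
    ∃ lam A : ℕ, ∀ P : MvPolynomial σ ℚ_[p], P.totalDegree ≤ r →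
      (∀ J, J.degree = r → MvPolynomial.coeff J P = MvPolynomial.coeff J Q) → ∀ e K : ℕ,
      A + lam * e ≤ K → ∀ T : Finset ℤ_[p], (∀ s ∈ T, ‖s‖ < 1) →
        (∀ s ∈ T, ∀ s' ∈ T, s ≠ s' → (p : ℝ) ^ (-(e : ℤ)) < ‖s - s'‖) →
        (∀ s ∈ T, ‖MvPolynomial.eval (fun e => ((ev (L e) s : ℤ_[p]) : ℚ_[p])) P‖ ≤
          (p : ℝ) ^ (-(K : ℤ))) → T.card ≤ lam :=
  strY_poly L hL hQ hQ0 fun _ _ f hf => str_uniform f hf

end Pool.Agent.Lib.MP_3550b5_nt.SV
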