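import Mathlib
import Pool.Agent.Lib.MP_3550b5_nt.SV.Str
import Pool.Agent.Lib.MP_3550b5_nt.SV.ISet
import Pool.Agent.Lib.MP_3550b5_nt.SV.GramC
import Pool.Agent.Lib.MP_3550b5_nt.SV.GramX

/-!
Project SV, part S: the Gram determinant as a polynomial in the heights of the points `P_i`,
`P_i - P_j`.
-/

namespace Pool.Agent.Lib.MP_3550b5_nt.SV

open PowerSeries

/-- The pair `(min i j, max i j)`. -/
def pr {r : ℕ} (i j : Fin r) : Pr r := ⟨(min i j, max i j), min_le_max⟩

/-- The Gram matrix with `h (i,i)` the height of `P_i` and `h (i,j)` that of `P_i - P_j`, where the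
height of `P` is `B(P,P)`. -/
def gram {r : ℕ} {K : Type*} [Field K] (h : Pr r → K) : Matrix (Fin r) (Fin r) K :=
  Matrix.of fun i j => if i = j then h (pr i i) else (h (pr i i) + h (pr j j) - h (pr i j)) / 2

/-- The Gram determinant as a polynomial. -/
noncomputable def gramP (r : ℕ) (K : Type*) [Field K] : MvPolynomial (Pr r) K :=
  (Matrix.of fun i j : Fin r => if i = j then (MvPolynomial.X (pr i i) : MvPolynomial (Pr r) K) else
    MvPolynomial.C (1 / 2 : K) *
      (MvPolynomial.X (pr i i) + MvPolynomial.X (pr j j) - MvPolynomial.X (pr i j))).det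

/-- `RingHom.map_det`. -/
lemma gramP_eval {r : ℕ} {K : Type*} [Field K] (h : Pr r → K) :
    MvPolynomial.eval h (gramP r K) = (gram h).det := by
  unfold gramP
  rw [RingHom.map_det]
  congr 1
  ext i j
  rw [RingHom.mapMatrix_apply, Matrix.map_apply, Matrix.of_apply, gram, Matrix.of_apply]
  by_cases hij : i = j
  · rw [if_pos hij, if_pos hij, MvPolynomial.eval_X]
  · rw [if_neg hij, if_neg hij, map_mul, map_sub, map_add, MvPolynomial.eval_X,
      MvPolynomial.eval_X, MvPolynomial.eval_X, MvPolynomial.eval_C]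
    ring

private lemma gramP_entry (r : ℕ) (K : Type*) [Field K] (i j : Fin r) :
    ((Matrix.of fun i j : Fin r => if i = j then
      (MvPolynomial.X (pr i i) : MvPolynomial (Pr r) K) else
      MvPolynomial.C (1 / 2 : K) *
        (MvPolynomial.X (pr i i) + MvPolynomial.X (pr j j) - MvPolynomial.X (pr i j))) i
          j).IsHomogeneous 1 := by
  rw [Matrix.of_apply]
  by_cases hij : i = j
  · rw [if_pos hij]
    exact MvPolynomial.isHomogeneous_X K _
  · rw [if_neg hij]
    have h1 := (MvPolynomial.isHomogeneous_C (Pr r) (1 / 2 : K)).mul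
      (((MvPolynomial.isHomogeneous_X K (pr i i)).add (MvPolynomial.isHomogeneous_X K
        (pr j j))).sub (MvPolynomial.isHomogeneous_X K (pr i j)))
    rwa [zero_add] at h1

/-- Homogeneous of degree `r` (sum over permutations of products of `r` linear forms) and not `0`
(its value is `1` for `h (i,i) = 1`, `h (i,j) = 2`, when `gram h = 1`). -/
lemma gramP_hom (r : ℕ) (K : Type*) [Field K] [CharZero K] :
    (gramP r K).IsHomogeneous r ∧ gramP r K ≠ 0 := by
  refine ⟨?_, ?_⟩
  · unfold gramP
    exact det_homog _ (gramP_entry r K)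
  · intro h0
    have h1 := gramP_eval (r := r) (K := K) (fun e => if e.1.1 = e.1.2 then 1 else 2)
    rw [h0, map_zero] at h1
    have h2 : gram (r := r) (K := K) (fun e => if e.1.1 = e.1.2 then 1 else 2) = 1 := by
      ext i j
      rw [gram, Matrix.of_apply]
      by_cases hij : i = j
      · rw [if_pos hij, hij, Matrix.one_apply_eq]
        exact if_pos rfl
      · rw [if_neg hij, Matrix.one_apply_ne hij]
        have e1 : (if (pr i i).1.1 = (pr i i).1.2 then (1 : K) else 2) = 1 := if_pos rfl
        have e2 : (if (pr j j).1.1 = (pr j j).1.2 then (1 : K) else 2) = 1 := if_pos rfl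
        have e3 : (if (pr i j).1.1 = (pr i j).1.2 then (1 : K) else 2) = 2 := by
          refine if_neg ?_
          change ¬ min i j = max i j
          intro h3
          exact hij (le_antisymm ((le_max_left i j).trans (h3.ge.trans (min_le_right i j)))
            ((le_max_right i j).trans (h3.ge.trans (min_le_left i j))))
        rw [e1, e2, e3]
        norm_num
    rw [h2, Matrix.det_one] at h1
    exact zero_ne_one h1

variable {p : ℕ} [hp : Fact p.Prime]

/-- THE DISC. Small balls for the Gram determinant, uniformly in the constants `κ` and `v`. PROOF.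
`str_poly` for `Q = gramP r ℚ_[p]`. For given `κ`, `v` take
`P = gramP(X + κ) - C v` (`MvPolynomial.bind₁ (fun e => X e + C (κ e))`): degree `≤ r`, the same
part of degree `r` if `r ≥ 1` (a homogeneous polynomial: `Q(X + κ) - Q(X)` has degree `< r`, e.g. by
induction on monomials or for the product formula of the determinant), `gramP_eval`. -/
theorem gram_disc {r : ℕ} (hr : 1 ≤ r) (L : Pr r → ℤ_[p]⟦X⟧)
    (hL : AlgebraicIndependent ℚ_[p] (fun e => (L e).map (PadicInt.Coe.ringHom (p := p)))) :
    ∃ lam A : ℕ, ∀ (κ : Pr r → ℚ_[p]) (v : ℚ_[p]) (e K : ℕ), A + lam * e ≤ K →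
      ∀ T : Finset ℤ_[p], (∀ s ∈ T, ‖s‖ < 1) →
        (∀ s ∈ T, ∀ s' ∈ T, s ≠ s' → (p : ℝ) ^ (-(e : ℤ)) < ‖s - s'‖) →
        (∀ s ∈ T, ‖(gram (fun i => ((ev (L i) s : ℤ_[p]) : ℚ_[p]) + κ i)).det - v‖ ≤
          (p : ℝ) ^ (-(K : ℤ))) → T.card ≤ lam := by
  classical
  obtain ⟨hQ, hQ0⟩ := gramP_hom r ℚ_[p]
  obtain ⟨lam, A, H⟩ := str_poly L hL hQ hQ0
  refine ⟨lam, A, fun κ v e K hK T hT hd hv => ?_⟩
  -- the matrix of linear forms and the constant matrix
  set M : Matrix (Fin r) (Fin r) (MvPolynomial (Pr r) ℚ_[p]) :=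
    Matrix.of fun i j : Fin r => if i = j then
      (MvPolynomial.X (pr i i) : MvPolynomial (Pr r) ℚ_[p]) else
      MvPolynomial.C (1 / 2 : ℚ_[p]) *
        (MvPolynomial.X (pr i i) + MvPolynomial.X (pr j j) - MvPolynomial.X (pr i j)) with hM
  set P : MvPolynomial (Pr r) ℚ_[p] :=
    (Matrix.of fun i j => M i j + MvPolynomial.C (gram κ i j)).det - MvPolynomial.C v with hP
  have hGM : gramP r ℚ_[p] = M.det := rfl
  have hdiff := degLT_det M (fun i j => gram κ i j) (gramP_entry r ℚ_[p])
  have hPe : P = gramP r ℚ_[p] +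
      (((Matrix.of fun i j => M i j + MvPolynomial.C (gram κ i j)).det - M.det) +
        MvPolynomial.C (-v)) := by
    rw [hP, hGM, map_neg]
    ring
  have hlow : DegLT r (((Matrix.of fun i j => M i j + MvPolynomial.C (gram κ i j)).det - M.det) +
      MvPolynomial.C (-v)) := by
    refine DegLT.add hdiff ?_
    intro J hJ
    exact degLT_C (-v) J (by omega)
  have hcoeff : ∀ J : Pr r →₀ ℕ, J.degree = r →
      MvPolynomial.coeff J P = MvPolynomial.coeff J (gramP r ℚ_[p]) := by
    intro J hJ
    rw [hPe, MvPolynomial.coeff_add, hlow J hJ.ge, add_zero]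
  have hdeg : P.totalDegree ≤ r := by
    unfold MvPolynomial.totalDegree
    refine Finset.sup_le fun J hJ => ?_
    rw [MvPolynomial.mem_support_iff] at hJ
    by_contra hlt
    apply hJ
    have h1 : J.degree = J.sum fun _ e => e := rfl
    have h2 : r < J.degree := by rw [h1]; exact not_le.1 hlt
    rw [hPe, MvPolynomial.coeff_add, hlow J h2.le, add_zero]
    exact hQ.coeff_eq_zero h2.ne'
  have heval : ∀ x : Pr r → ℚ_[p], MvPolynomial.eval x P =
      (gram (fun i => x i + κ i)).det - v := by
    intro x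
    rw [hP, map_sub, MvPolynomial.eval_C, RingHom.map_det]
    congr 2
    ext i j
    rw [RingHom.mapMatrix_apply, Matrix.map_apply, Matrix.of_apply, hM, Matrix.of_apply, gram,
      gram, Matrix.of_apply, Matrix.of_apply, map_add, MvPolynomial.eval_C]
    by_cases hij : i = j
    · rw [if_pos hij, if_pos hij, if_pos hij, MvPolynomial.eval_X]
    · rw [if_neg hij, if_neg hij, if_neg hij, map_mul, map_sub, map_add, MvPolynomial.eval_X,
        MvPolynomial.eval_X, MvPolynomial.eval_X, MvPolynomial.eval_C]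
      ring
  refine H P hdeg hcoeff e K hK T hT hd fun s hs => ?_
  rw [heval]
  exact hv s hs

/-- COUNTING. A finite set of integers of absolute value `≤ N` in which every subset of pairwise
incongruent elements modulo `q` has at most `lam` elements. PROOF. At most `lam` residue classes
occur, and each contains at most `2 N / q + 1` integers of absolute value `≤ N`. -/
theorem card_classes {lam q N : ℕ} (hq : 1 ≤ q) (T : Finset ℤ) (hT : ∀ m ∈ T, |m| ≤ N)
    (h : ∀ T' ⊆ T, (∀ m ∈ T', ∀ m' ∈ T', m ≠ m' → ¬ (q : ℤ) ∣ m - m') → T'.card ≤ lam) :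
    (T.card : ℝ) ≤ lam * (2 * N / q + 1) :=
  card_classesX hq T hT h

end Pool.Agent.Lib.MP_3550b5_nt.SV
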