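import Mathlib
import Pool.Agent.Lib.MP_3550b5_nt.SV.FLoc
import Pool.Agent.Lib.MP_3550b5_nt.SV.Gram

/-!
Project SV, part F: the height of a value of a section on a disc.
-/

namespace Pool.Agent.Lib.MP_3550b5_nt.SV

open MvPolynomial

variable {p : ℕ} [hp : Fact p.Prime]

private lemma ffib_hom {A : Type*} [CommRing A] {F : MvPolynomial (Fin 2) ℤ} {k : ℕ}
    (hF : F.IsHomogeneous k) (n : A) (y : Fin 2 → A) :
    MvPolynomial.aeval (fun i => n * y i) F = n ^ k * MvPolynomial.aeval y F := by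
  rw [MvPolynomial.aeval_def, MvPolynomial.aeval_def, MvPolynomial.eval₂_eq,
    MvPolynomial.eval₂_eq, Finset.mul_sum]
  refine Finset.sum_congr rfl fun u hu => ?_
  have h1 : ∏ i ∈ u.support, (n * y i) ^ u i = n ^ k * ∏ i ∈ u.support, y i ^ u i := by
    simp only [mul_pow]
    rw [Finset.prod_mul_distrib, Finset.prod_pow_eq_pow_sum]
    congr 2
    have h2 := hF (mem_support_iff.1 hu)
    rw [← h2]
    simp [Finsupp.weight_apply, Finsupp.sum]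
  rw [h1]
  ring

private lemma ffib_unit {c : ℤ} (h : ¬ (p : ℤ) ∣ c) : IsUnit (c : ℤ_[p]) := by
  rw [PadicInt.isUnit_iff]
  by_contra h1
  exact h ((PadicInt.norm_int_lt_one_iff_dvd c).1
    (lt_of_le_of_ne (PadicInt.norm_le_one _) h1))

private lemma ffib_unit_add {x : ℤ_[p]} (hx : IsUnit x) (c : ℤ_[p]) :
    IsUnit (x + (p : ℤ_[p]) * c) := by
  by_contra h
  have h1 : x + (p : ℤ_[p]) * c ∈ IsLocalRing.maximalIdeal ℤ_[p] :=
    (IsLocalRing.mem_maximalIdeal _).2 h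
  have h2 : (p : ℤ_[p]) * c ∈ IsLocalRing.maximalIdeal ℤ_[p] :=
    Ideal.mul_mem_right _ _ (by
      rw [PadicInt.maximalIdeal_eq_span_p]
      exact Ideal.mem_span_singleton_self _)
  have h3 := Ideal.sub_mem _ h1 h2
  rw [add_sub_cancel_right] at h3
  exact (IsLocalRing.mem_maximalIdeal _).1 h3 hx

private lemma ffib_sub (f : Polynomial ℤ) (a b : ℤ_[p]) :
    ∃ c, Polynomial.aeval (a + b) f = Polynomial.aeval a f + b * c := by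
  have h := Polynomial.sub_dvd_eval_sub (a + b) a (f.map (Int.castRingHom ℤ_[p]))
  rw [add_sub_cancel_left] at h
  obtain ⟨c, hc⟩ := h
  refine ⟨c, ?_⟩
  rw [Polynomial.aeval_def, Polynomial.aeval_def, Polynomial.eval₂_eq_eval_map,
    Polynomial.eval₂_eq_eval_map]
  have h1 : algebraMap ℤ ℤ_[p] = Int.castRingHom ℤ_[p] := rfl
  rw [h1, ← hc]
  ring

/-- The rational number `t` as a `p`-adic integer. -/
lemma exists_tau {t : ℚ} (h : ¬ p ∣ t.den) :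
    ∃ τ : ℤ_[p], τ * (t.den : ℤ_[p]) = (t.num : ℤ_[p]) ∧ IsUnit (t.den : ℤ_[p]) := by
  have h1 : IsUnit (t.den : ℤ_[p]) := by
    have h2 : ¬ (p : ℤ) ∣ (t.den : ℤ) := fun h3 => h (Int.natCast_dvd_natCast.1 h3)
    have h3 := ffib_unit (p := p) h2
    rwa [Int.cast_natCast] at h3
  obtain ⟨u, hu⟩ := h1
  refine ⟨(t.num : ℤ_[p]) * ((u⁻¹ : ℤ_[p]ˣ) : ℤ_[p]), ?_, ⟨u, hu⟩⟩
  rw [← hu, mul_assoc, Units.inv_mul, mul_one]

/-- A form at `pair t`. (See `aeval_hom` in SRes.lean.) -/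
lemma eval_pair {F : MvPolynomial (Fin 2) ℤ} {k : ℕ} (hF : F.IsHomogeneous k) {t : ℚ} {τ : ℤ_[p]}
    (hτ : τ * (t.den : ℤ_[p]) = (t.num : ℤ_[p])) :
    ((eval (pair t) F : ℤ) : ℤ_[p]) =
      (t.den : ℤ_[p]) ^ k * Polynomial.aeval τ (dehom F) := by
  have h1 : ((eval (pair t) F : ℤ) : ℤ_[p]) =
      MvPolynomial.aeval (fun i => (t.den : ℤ_[p]) * ![τ, 1] i) F := by
    have h2 := MvPolynomial.aeval_algebraMap_apply ℤ_[p] (pair t) F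
    have h3 : (algebraMap ℤ ℤ_[p]) (MvPolynomial.aeval (pair t) F) =
        ((eval (pair t) F : ℤ) : ℤ_[p]) := rfl
    rw [← h3, ← h2]
    congr 2
    funext i
    fin_cases i
    · simp only [Function.comp, pair]
      change ((t.num : ℤ) : ℤ_[p]) = (t.den : ℤ_[p]) * τ
      rw [← hτ, mul_comm]
    · simp only [Function.comp, pair]
      change (((t.den : ℕ) : ℤ) : ℤ_[p]) = (t.den : ℤ_[p]) * 1
      rw [mul_one, Int.cast_natCast]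
  have h4 : Polynomial.aeval τ (dehom F) = MvPolynomial.aeval ![τ, 1] F := by
    unfold dehom
    rw [MvPolynomial.comp_aeval_apply]
    congr 2
    funext i
    fin_cases i
    · exact Polynomial.aeval_X τ
    · exact map_one _
  rw [h1, h4, ffib_hom hF]

/-- Normal form at an exceptional point. PROOF. `γ = v_p(G)`, `eval_pair`, divide by the unit
`t.den ^ k`. -/
theorem norm_form {d w' : ℕ} {x y w : MvPolynomial (Fin 2) ℤ}
    (hx : x.IsHomogeneous (2 * (d + w'))) (hy : y.IsHomogeneous (3 * (d + w')))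
    (hw : w.IsHomogeneous w') {t : ℚ} {τ : ℤ_[p]}
    (hτ : τ * (t.den : ℤ_[p]) = (t.num : ℤ_[p])) (hden : IsUnit (t.den : ℤ_[p]))
    {A₁ B₁ D₁ G : ℤ} (hG : G ≠ 0) (e1 : eval (pair t) x = G ^ 2 * A₁)
    (e2 : eval (pair t) y = G ^ 3 * B₁) (e3 : eval (pair t) w = G * D₁)
    (hA : ¬ (p : ℤ) ∣ A₁) (hB : ¬ (p : ℤ) ∣ B₁) (hD : (p : ℤ) ∣ D₁) :
    ∃ γ : ℕ, (p : ℤ) ^ γ ∣ G ∧ ∃ x0 y0 w0 : ℤ_[p], IsUnit x0 ∧ IsUnit y0 ∧
      Polynomial.aeval τ (dehom x) = (p : ℤ_[p]) ^ (2 * γ) * x0 ∧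
      Polynomial.aeval τ (dehom y) = (p : ℤ_[p]) ^ (3 * γ) * y0 ∧
      Polynomial.aeval τ (dehom w) = (p : ℤ_[p]) ^ (γ + 1) * w0 := by
  obtain ⟨γ, G', hG', rfl⟩ := WfDvdMonoid.max_power_factor hG
    (Nat.prime_iff_prime_int.1 hp.out).irreducible
  obtain ⟨u, hu⟩ := hden
  obtain ⟨D', rfl⟩ := hD
  have hi : (t.den : ℤ_[p]) * ((u⁻¹ : ℤ_[p]ˣ) : ℤ_[p]) = 1 := by rw [← hu, Units.mul_inv]
  have hpi : ∀ k : ℕ, (t.den : ℤ_[p]) ^ k * ((u⁻¹ : ℤ_[p]ˣ) : ℤ_[p]) ^ k = 1 := fun k => by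
    rw [← mul_pow, hi, one_pow]
  have g1 := eval_pair (p := p) hx hτ
  have g2 := eval_pair (p := p) hy hτ
  have g3 := eval_pair (p := p) hw hτ
  rw [e1] at g1
  rw [e2] at g2
  rw [e3] at g3
  push_cast at g1 g2 g3
  have hGu : IsUnit (G' : ℤ_[p]) := ffib_unit hG'
  refine ⟨γ, Dvd.intro _ rfl,
    (G' : ℤ_[p]) ^ 2 * A₁ * ((u⁻¹ : ℤ_[p]ˣ) : ℤ_[p]) ^ (2 * (d + w')),
    (G' : ℤ_[p]) ^ 3 * B₁ * ((u⁻¹ : ℤ_[p]ˣ) : ℤ_[p]) ^ (3 * (d + w')),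
    (G' : ℤ_[p]) * D' * ((u⁻¹ : ℤ_[p]ˣ) : ℤ_[p]) ^ w',
    ((hGu.pow 2).mul (ffib_unit hA)).mul ((u⁻¹).isUnit.pow _),
    ((hGu.pow 3).mul (ffib_unit hB)).mul ((u⁻¹).isUnit.pow _), ?_, ?_, ?_⟩
  · linear_combination (-((u⁻¹ : ℤ_[p]ˣ) : ℤ_[p]) ^ (2 * (d + w'))) * g1 -
      (Polynomial.aeval τ (dehom x)) * hpi (2 * (d + w'))
  · linear_combination (-((u⁻¹ : ℤ_[p]ˣ) : ℤ_[p]) ^ (3 * (d + w'))) * g2 -
      (Polynomial.aeval τ (dehom y)) * hpi (3 * (d + w'))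
  · linear_combination (-((u⁻¹ : ℤ_[p]ˣ) : ℤ_[p]) ^ w') * g3 -
      (Polynomial.aeval τ (dehom w)) * hpi w'

/-- The normal form on the disc. PROOF. `aeval (t0 + g s) f - aeval t0 f` is divisible by `g`
(`Polynomial.aeval_sub`-type lemma: `sub_dvd_eval_sub`), hence by `p^(3γ+1)`. -/
theorem disc_transfer {x y w : Polynomial ℤ} {t0 g s : ℤ_[p]} {γ : ℕ}
    (hγ : (p : ℤ_[p]) ^ (3 * γ + 1) ∣ g)
    (hx : ∃ x0 y0 w0 : ℤ_[p], IsUnit x0 ∧ IsUnit y0 ∧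
      Polynomial.aeval t0 x = (p : ℤ_[p]) ^ (2 * γ) * x0 ∧
      Polynomial.aeval t0 y = (p : ℤ_[p]) ^ (3 * γ) * y0 ∧
      Polynomial.aeval t0 w = (p : ℤ_[p]) ^ (γ + 1) * w0) :
    ∃ xt yt wt yi : ℤ_[p], IsUnit xt ∧ yt * yi = 1 ∧
      Polynomial.aeval (t0 + g * s) x = (p : ℤ_[p]) ^ (2 * γ) * xt ∧
      Polynomial.aeval (t0 + g * s) y = (p : ℤ_[p]) ^ (3 * γ) * yt ∧
      Polynomial.aeval (t0 + g * s) w = (p : ℤ_[p]) ^ γ * wt ∧ (p : ℤ_[p]) ∣ wt := by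
  obtain ⟨g', rfl⟩ := hγ
  obtain ⟨x0, y0, w0, hx0, hy0, ex, ey, ew⟩ := hx
  obtain ⟨cx, hcx⟩ := ffib_sub x t0 ((p : ℤ_[p]) ^ (3 * γ + 1) * g' * s)
  obtain ⟨cy, hcy⟩ := ffib_sub y t0 ((p : ℤ_[p]) ^ (3 * γ + 1) * g' * s)
  obtain ⟨cw, hcw⟩ := ffib_sub w t0 ((p : ℤ_[p]) ^ (3 * γ + 1) * g' * s)
  obtain ⟨v, hv⟩ := ffib_unit_add hy0 (g' * s * cy)
  refine ⟨x0 + (p : ℤ_[p]) * ((p : ℤ_[p]) ^ γ * g' * s * cx),
    y0 + (p : ℤ_[p]) * (g' * s * cy),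
    (p : ℤ_[p]) * (w0 + (p : ℤ_[p]) ^ (2 * γ) * g' * s * cw), ((v⁻¹ : ℤ_[p]ˣ) : ℤ_[p]),
    ffib_unit_add hx0 _, by rw [← hv, Units.mul_inv], ?_, ?_, ?_, Dvd.intro _ rfl⟩
  · rw [hcx, ex]
    ring
  · rw [hcy, ey]
    ring
  · rw [hcw, ew]
    ring

private lemma ffib_ev_unit {S : PowerSeries ℤ_[p]} (h0 : PowerSeries.constantCoeff S = 1)
    {t : ℤ_[p]} (ht : (p : ℤ_[p]) ∣ t) : IsUnit (ev S t) := by
  have hpn : ‖(p : ℤ_[p])‖ < 1 := by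
    rw [PadicInt.norm_p]
    exact inv_lt_one_of_one_lt₀ (by exact_mod_cast hp.out.one_lt)
  have htn : ‖t‖ < 1 := by
    obtain ⟨c, rfl⟩ := ht
    rw [norm_mul]
    exact lt_of_le_of_lt (mul_le_of_le_one_right (norm_nonneg _) (PadicInt.norm_le_one _)) hpn
  have h1 := norm_ev_sub_le S htn (t' := 0) (by rw [norm_zero]; exact one_pos)
  have h2 : ev S (0 : ℤ_[p]) = 1 := by
    unfold ev
    rw [tsum_eq_single 0]
    · rw [pow_zero, mul_one, PowerSeries.coeff_zero_eq_constantCoeff_apply, h0]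
    · intro n hn
      rw [zero_pow hn, mul_zero]
  rw [h2, sub_zero] at h1
  have h3 : ‖ev S t - 1‖ < 1 := h1.trans_lt htn
  by_contra hcon
  have h4 : ‖ev S t‖ < 1 := PadicInt.mem_nonunits.1 hcon
  have h5 : ‖(1 : ℤ_[p])‖ ≤ max ‖ev S t‖ ‖-(ev S t - 1)‖ := by
    have h6 := PadicInt.nonarchimedean (ev S t) (-(ev S t - 1))
    rwa [show ev S t + -(ev S t - 1) = 1 by ring] at h6
  rw [norm_one, norm_neg] at h5
  exact absurd h5 (not_le.2 (max_lt h4 h3))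

private lemma ffib_unit_int {m : ℤ} (h : ¬ (p : ℤ) ∣ m) : IsUnit (m : ℤ_[p]) := by
  by_contra hcon
  exact h ((PadicInt.norm_int_lt_one_iff_dvd m).1 (PadicInt.mem_nonunits.1 hcon))

private lemma ffib_not_dvd {m : ℤ} (h : IsUnit (m : ℤ_[p])) : ¬ (p : ℤ) ∣ m := by
  intro hd
  have h1 := (PadicInt.norm_int_lt_one_iff_dvd m).2 hd
  rw [PadicInt.isUnit_iff.1 h] at h1
  exact lt_irrefl _ h1

/-- THE HEIGHT on a disc. PROOF. `rep_comp`: `G` with `x(z) = G^2 A₁`, `y(z) = G^3 B₁`,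
`w(z) = G D₁`, `z = pair t`, and `G ∣ G^3 ∣ R`. `p ∤ A₁, B₁` (as `p ∣ D₁`, `hcop` and the
equation). Put `n = t.den`, a unit, and `k = d + w'`. By `eval_pair`
`G^2 A₁ = n^(2k) p^(2γ) xt`, so `v_p(G) = γ`, `G = p^γ G'`, `p ∤ G'`, `G' ∣ R`, and
`A₁ B₁⁻¹ = G' n^(-k) xt yi`, `D₁ = n^(w') wt / G'`, so `A₁ D₁ B₁⁻¹ = n^(-d) xt wt yi`. `SD.scale` with
`u = n^d` is `SD` for `a(z)`, `b(z)` (`eval_pair`), with `rescale u S`; `ht_unit`, `ev_rescale`: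
`B(Q,Q) = ulog (-(G' n^(-k) xt yi ev S (-(xt wt yi))))`; `ulog_mul` (all factors are units; `ev S` of
an element of the maximal ideal is a unit as `S` has constant coefficient `1`). -/
theorem fibre_ht (hp5 : 5 ≤ p) {d w' : ℕ} {a b x y w : MvPolynomial (Fin 2) ℤ}
    (ha : a.IsHomogeneous (4 * d)) (hb : b.IsHomogeneous (6 * d))
    (hx : x.IsHomogeneous (2 * (d + w'))) (hy : y.IsHomogeneous (3 * (d + w')))
    (hw : w.IsHomogeneous w') {t : ℚ} {τ : ℤ_[p]}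
    (hτ : τ * (t.den : ℤ_[p]) = (t.num : ℤ_[p])) (hden : IsUnit (t.den : ℤ_[p]))
    {Q : (curve (eval (pair t) a) (eval (pair t) b)).Point}
    (hQ : IsRep _ _ (eval (pair t) x) (eval (pair t) y) (eval (pair t) w) Q) {A₁ B₁ D₁ : ℤ}
    (h1 : IsRep _ _ A₁ B₁ D₁ Q)
    (hcop : IsCoprime (2 * B₁) (3 * A₁ ^ 2 + eval (pair t) a * D₁ ^ 4)) (hpD : (p : ℤ) ∣ D₁)
    (hord : GoodOrdinary p (eval (pair t) a) (eval (pair t) b))
    {Bh : (curve (eval (pair t) a) (eval (pair t) b)).Point →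
      (curve (eval (pair t) a) (eval (pair t) b)).Point → ℚ_[p]}
    (hB : IsCanonicalHeight p (eval (pair t) a) (eval (pair t) b) Bh) {R : ℤ}
    (hR : ∀ D : ℤ, D ∣ 2 * eval (pair t) y →
      D ∣ 3 * eval (pair t) x ^ 2 + eval (pair t) a * eval (pair t) w ^ 4 → D ∣ R)
    {c : ℤ_[p]} {W V Om S Z : PowerSeries ℤ_[p]}
    (hS : SD (Polynomial.aeval τ (dehom a)) (Polynomial.aeval τ (dehom b)) c W V Om S Z) {γ : ℕ}
    {xt yt wt yi : ℤ_[p]} (hxt : IsUnit xt) (hyi : yt * yi = 1)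
    (f1 : Polynomial.aeval τ (dehom x) = (p : ℤ_[p]) ^ (2 * γ) * xt)
    (f2 : Polynomial.aeval τ (dehom y) = (p : ℤ_[p]) ^ (3 * γ) * yt)
    (f3 : Polynomial.aeval τ (dehom w) = (p : ℤ_[p]) ^ γ * wt) (hwt : (p : ℤ_[p]) ∣ wt) :
    ∃ G' : ℤ, G' ∣ R ∧ ¬ (p : ℤ) ∣ G' ∧
      Bh Q Q = ulog (-(xt * yi * ev S (-(xt * wt * yi)))) +
        (ulog (G' : ℤ_[p]) - ((d + w' : ℕ) : ℚ_[p]) * ulog (t.den : ℤ_[p])) := by
  obtain ⟨G, hG0, e1, e2, e3, hG1, hG2⟩ := rep_comp hQ h1 hcop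
  have hGR : G ∣ R := (dvd_pow_self G three_ne_zero).trans (hR _ hG1 hG2)
  have heq := h1.eqn
  have hpp : Prime (p : ℤ) := Nat.prime_iff_prime_int.1 hp.out
  have hnot : ¬ ((p : ℤ) ∣ A₁ ∧ (p : ℤ) ∣ B₁) := by
    rintro ⟨hA, hB'⟩
    have h5 : (p : ℤ) ∣ 2 * B₁ := dvd_mul_of_dvd_right hB' 2
    have h6 : (p : ℤ) ∣ 3 * A₁ ^ 2 + eval (pair t) a * D₁ ^ 4 :=
      dvd_add (dvd_mul_of_dvd_right (dvd_pow hA two_ne_zero) _)
        (dvd_mul_of_dvd_right (dvd_pow hpD (by norm_num)) _)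
    exact hpp.not_unit (hcop.isUnit_of_dvd' h5 h6)
  have hrest : (p : ℤ) ∣ eval (pair t) a * A₁ * D₁ ^ 4 + eval (pair t) b * D₁ ^ 6 :=
    dvd_add (dvd_mul_of_dvd_right (dvd_pow hpD (by norm_num)) _)
      (dvd_mul_of_dvd_right (dvd_pow hpD (by norm_num)) _)
  have hA : ¬ (p : ℤ) ∣ A₁ := fun hA => hnot ⟨hA, by
    have h5 : (p : ℤ) ∣ B₁ ^ 2 := by
      rw [heq, add_assoc]
      exact dvd_add (dvd_pow hA three_ne_zero) hrest
    exact hpp.dvd_of_dvd_pow h5⟩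
  have hB1 : ¬ (p : ℤ) ∣ B₁ := fun hB' => hnot ⟨by
    have h5 : (p : ℤ) ∣ A₁ ^ 3 := by
      have e : A₁ ^ 3 = B₁ ^ 2 -
          (eval (pair t) a * A₁ * D₁ ^ 4 + eval (pair t) b * D₁ ^ 6) := by
        rw [heq]
        ring
      rw [e]
      exact dvd_sub (dvd_pow hB' two_ne_zero) hrest
    exact hpp.dvd_of_dvd_pow h5, hB'⟩
  have hAu : IsUnit (A₁ : ℤ_[p]) := ffib_unit_int hA
  have hBu : IsUnit (B₁ : ℤ_[p]) := ffib_unit_int hB1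
  obtain ⟨Ai, hAi⟩ := hAu.exists_right_inv
  obtain ⟨n, hn⟩ : ∃ n : ℤ_[p], n = (t.den : ℤ_[p]) := ⟨_, rfl⟩
  rw [← hn] at hden
  obtain ⟨ni, hni⟩ := hden.exists_right_inv
  have hniU : IsUnit ni := IsUnit.of_mul_eq_one n (by rw [mul_comm]; exact hni)
  have hp0 : (p : ℤ_[p]) ≠ 0 := by exact_mod_cast hp.out.ne_zero
  have q1 : (G : ℤ_[p]) ^ 2 * (A₁ : ℤ_[p]) =
      n ^ (2 * (d + w')) * ((p : ℤ_[p]) ^ (2 * γ) * xt) := by
    rw [← f1, hn, ← eval_pair hx hτ, e1]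
    push_cast
    rfl
  have q2 : (G : ℤ_[p]) ^ 3 * (B₁ : ℤ_[p]) =
      n ^ (3 * (d + w')) * ((p : ℤ_[p]) ^ (3 * γ) * yt) := by
    rw [← f2, hn, ← eval_pair hy hτ, e2]
    push_cast
    rfl
  have q3 : (G : ℤ_[p]) * (D₁ : ℤ_[p]) = n ^ w' * ((p : ℤ_[p]) ^ γ * wt) := by
    rw [← f3, hn, ← eval_pair hw hτ, e3]
    push_cast
    rfl
  have hdiv : (p : ℤ) ^ γ ∣ G := by
    have h5 : (p : ℤ_[p]) ^ (2 * γ) ∣ ((G ^ 2 : ℤ) : ℤ_[p]) := by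
      refine ⟨n ^ (2 * (d + w')) * xt * Ai, ?_⟩
      push_cast
      linear_combination Ai * q1 - (G : ℤ_[p]) ^ 2 * hAi
    rw [PadicInt.pow_p_dvd_int_iff] at h5
    have h6 : ((p : ℤ) ^ γ) ^ 2 ∣ G ^ 2 := by
      rw [← pow_mul, mul_comm γ 2]
      exact_mod_cast h5
    exact (Int.pow_dvd_pow_iff two_ne_zero).1 h6
  obtain ⟨G', rfl⟩ := hdiv
  obtain ⟨g, hg⟩ : ∃ g : ℤ_[p], g = (G' : ℤ_[p]) := ⟨_, rfl⟩
  push_cast at q1 q2 q3
  rw [← hg] at q1 q2 q3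
  have r1 : g ^ 2 * (A₁ : ℤ_[p]) = n ^ (2 * (d + w')) * xt := by
    apply mul_left_cancel₀ (pow_ne_zero (2 * γ) hp0)
    linear_combination q1
  have r2 : g ^ 3 * (B₁ : ℤ_[p]) = n ^ (3 * (d + w')) * yt := by
    apply mul_left_cancel₀ (pow_ne_zero (3 * γ) hp0)
    linear_combination q2
  have r3 : g * (D₁ : ℤ_[p]) = n ^ w' * wt := by
    apply mul_left_cancel₀ (pow_ne_zero γ hp0)
    linear_combination q3
  have hgU : IsUnit g := by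
    have h5 : IsUnit (g ^ 2 * (A₁ : ℤ_[p])) := by
      rw [r1]
      exact (hden.pow _).mul hxt
    exact isUnit_of_mul_isUnit_left (by
      rw [sq, mul_assoc] at h5
      exact h5)
  have hnk : ∀ m : ℕ, n ^ m * ni ^ m = 1 := fun m => by rw [← mul_pow, hni, one_pow]
  have hBi : (B₁ : ℤ_[p]) * (g ^ 3 * ni ^ (3 * (d + w')) * yi) = 1 := by
    calc (B₁ : ℤ_[p]) * (g ^ 3 * ni ^ (3 * (d + w')) * yi)
        = (g ^ 3 * (B₁ : ℤ_[p])) * ni ^ (3 * (d + w')) * yi := by ring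
      _ = n ^ (3 * (d + w')) * yt * ni ^ (3 * (d + w')) * yi := by rw [r2]
      _ = (n ^ (3 * (d + w')) * ni ^ (3 * (d + w'))) * (yt * yi) := by ring
      _ = 1 := by rw [hnk, hyi, one_mul]
  have hAB : (A₁ : ℤ_[p]) * (g ^ 3 * ni ^ (3 * (d + w')) * yi) =
      g * ni ^ (d + w') * (xt * yi) := by
    calc (A₁ : ℤ_[p]) * (g ^ 3 * ni ^ (3 * (d + w')) * yi)
        = (g ^ 2 * (A₁ : ℤ_[p])) * g * ni ^ (3 * (d + w')) * yi := by ring
      _ = n ^ (2 * (d + w')) * xt * g * ni ^ (3 * (d + w')) * yi := by rw [r1]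
      _ = (n ^ (2 * (d + w')) * ni ^ (2 * (d + w'))) * (g * ni ^ (d + w') * (xt * yi)) := by ring
      _ = _ := by rw [hnk, one_mul]
  have hADB : (A₁ : ℤ_[p]) * (D₁ : ℤ_[p]) * (g ^ 3 * ni ^ (3 * (d + w')) * yi) =
      ni ^ d * (xt * wt * yi) := by
    calc (A₁ : ℤ_[p]) * (D₁ : ℤ_[p]) * (g ^ 3 * ni ^ (3 * (d + w')) * yi)
        = ((A₁ : ℤ_[p]) * (g ^ 3 * ni ^ (3 * (d + w')) * yi)) * (D₁ : ℤ_[p]) := by ring
      _ = g * ni ^ (d + w') * (xt * yi) * (D₁ : ℤ_[p]) := by rw [hAB]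
      _ = (g * (D₁ : ℤ_[p])) * ni ^ (d + w') * (xt * yi) := by ring
      _ = n ^ w' * wt * ni ^ (d + w') * (xt * yi) := by rw [r3]
      _ = (n ^ w' * ni ^ w') * (ni ^ d * (xt * wt * yi)) := by ring
      _ = _ := by rw [hnk, one_mul]
  have hS' := hS.scale (n ^ d)
  have ea : (n ^ d) ^ 4 * Polynomial.aeval τ (dehom a) =
      ((eval (pair t) a : ℤ) : ℤ_[p]) := by
    rw [eval_pair ha hτ, hn]
    ring
  have eb : (n ^ d) ^ 6 * Polynomial.aeval τ (dehom b) =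
      ((eval (pair t) b : ℤ) : ℤ_[p]) := by
    rw [eval_pair hb hτ, hn]
    ring
  rw [ea, eb] at hS'
  have hht := ht_unit hp5 h1 hcop hpD hord hB hS' hBi
  have harg : n ^ d * -(ni ^ d * (xt * wt * yi)) = -(xt * wt * yi) := by
    calc n ^ d * -(ni ^ d * (xt * wt * yi)) = -((n ^ d * ni ^ d) * (xt * wt * yi)) := by ring
      _ = _ := by rw [hnk, one_mul]
  rw [hAB, hADB, ev_rescale, harg] at hht
  refine ⟨G', (Dvd.intro_left _ rfl).trans hGR, ffib_not_dvd (by rw [← hg]; exact hgU), ?_⟩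
  obtain ⟨E, hE⟩ : ∃ E : ℤ_[p], E = ev S (-(xt * wt * yi)) := ⟨_, rfl⟩
  have hEU : IsUnit E := by
    rw [hE]
    exact ffib_ev_unit hS.S0 ((hwt.mul_left xt).mul_right yi).neg_right
  have hyiU : IsUnit yi := IsUnit.of_mul_eq_one yt (by rw [mul_comm]; exact hyi)
  rw [← hE] at hht ⊢
  have hfac : -(g * ni ^ (d + w') * (xt * yi) * E) =
      (g * ni ^ (d + w')) * (-(xt * yi * E)) := by ring
  rw [hht, hfac, ulog_mul (hgU.mul (hniU.pow _)) ((hxt.mul hyiU).mul hEU).neg,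
    ulog_mul hgU (hniU.pow _), ulog_pow hniU, ← hg, ← hn]
  have hni' : ulog n + ulog ni = 0 := by rw [← ulog_mul hden hniU, hni, ulog_one]
  linear_combination ((d + w' : ℕ) : ℚ_[p]) * hni'

/-- The regulator as a Gram determinant (`symm`, `add`, bilinearity: `B(P_i,P_j) =
(B(P_i,P_i) + B(P_j,P_j) - B(P_i-P_j,P_i-P_j))/2`). -/
theorem reg_gram {a b : ℤ} {Bh : (curve a b).Point → (curve a b).Point → ℚ_[p]}
    (hB : IsCanonicalHeight p a b Bh) {r : ℕ} (Q : Fin r → (curve a b).Point) :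
    regulator Bh Q = (gram (fun e => Bh (prs Q e) (prs Q e))).det := by
  have hprs : ∀ i j : Fin r, prs Q (pr i j) =
      if min i j = max i j then Q (min i j) else Q (min i j) - Q (max i j) := fun _ _ => rfl
  have hd : ∀ i : Fin r, prs Q (pr i i) = Q i := by
    intro i
    rw [hprs, min_self, max_self, if_pos rfl]
  have ho : ∀ i j : Fin r, i ≠ j → Bh (prs Q (pr i j)) (prs Q (pr i j)) =
      Bh (Q i) (Q i) + Bh (Q j) (Q j) - 2 * Bh (Q i) (Q j) := by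
    intro i j hij
    rcases le_total i j with hle | hle
    · have e : prs Q (pr i j) = Q i - Q j := by
        rw [hprs, min_eq_left hle, max_eq_right hle, if_neg hij]
      rw [e, hB.sub_self]
      ring
    · have e : prs Q (pr i j) = Q j - Q i := by
        rw [hprs, min_eq_right hle, max_eq_left hle, if_neg hij.symm]
      rw [e, hB.sub_self, hB.symm (Q j) (Q i)]
      ring
  unfold regulator
  congr 1
  ext i j
  rw [Matrix.of_apply, gram, Matrix.of_apply]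
  by_cases hij : i = j
  · rw [if_pos hij, hij, hd]
  · rw [if_neg hij, hd, hd, ho i j hij]
    ring

end Pool.Agent.Lib.MP_3550b5_nt.SV
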