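import Mathlib
import Pool.Agent.Lib.MP_3550b5_nt.SV.FFib
import Pool.Agent.Lib.MP_3550b5_nt.G.FinalD

/-!
Project SV, part F: auxiliary lemmas for the count on one disc (`SVD.disc_count`).
-/

namespace Pool.Agent.Lib.MP_3550b5_nt.SV

open MvPolynomial

variable {p : ℕ} [hp : Fact p.Prime]

/-- `p` does not divide the numerators of a point in the kernel of reduction. -/
lemma fdisc_ndvd {a b A₁ B₁ D₁ : ℤ} {Q : (curve a b).Point} (h1 : IsRep a b A₁ B₁ D₁ Q)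
    (hcop : IsCoprime (2 * B₁) (3 * A₁ ^ 2 + a * D₁ ^ 4)) (hpD : (p : ℤ) ∣ D₁) :
    ¬ (p : ℤ) ∣ A₁ ∧ ¬ (p : ℤ) ∣ B₁ := by
  have hpp : Prime (p : ℤ) := Nat.prime_iff_prime_int.mp hp.out
  have heq := h1.eqn
  have key : ¬ ((p : ℤ) ∣ A₁ ∧ (p : ℤ) ∣ B₁) := by
    rintro ⟨hA, hB⟩
    have h2 : (p : ℤ) ∣ 3 * A₁ ^ 2 + a * D₁ ^ 4 :=
      dvd_add ((dvd_pow hA (by norm_num)).mul_left _) ((dvd_pow hpD (by norm_num)).mul_left _)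
    have h3 : (p : ℤ) ∣ 2 * B₁ := hB.mul_left _
    exact hpp.not_isUnit (hcop.isUnit_of_dvd' h3 h2)
  constructor
  · intro hA
    refine key ⟨hA, ?_⟩
    have h4 : (p : ℤ) ∣ B₁ ^ 2 := by
      rw [heq]
      exact dvd_add (dvd_add (dvd_pow hA (by norm_num)) ((hA.mul_left _).mul_right _))
        ((dvd_pow hpD (by norm_num)).mul_left _)
    exact hpp.dvd_of_dvd_pow h4
  · intro hB
    refine key ⟨?_, hB⟩
    have h4 : (p : ℤ) ∣ A₁ ^ 3 := by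
      have e : A₁ ^ 3 = B₁ ^ 2 - a * A₁ * D₁ ^ 4 - b * D₁ ^ 6 := by linear_combination -heq
      rw [e]
      exact dvd_sub (dvd_sub (dvd_pow hB (by norm_num)) ((dvd_pow hpD (by norm_num)).mul_left _))
        ((dvd_pow hpD (by norm_num)).mul_left _)
    exact hpp.dvd_of_dvd_pow h4

/-- The normal form at the centre. -/
lemma fdisc_centre {d w' : ℕ} {a b x y w : MvPolynomial (Fin 2) ℤ} {t : ℚ} {τ : ℤ_[p]}
    (hs : SecForm d a b w' x y w)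
    (hτ : τ * (t.den : ℤ_[p]) = (t.num : ℤ_[p])) (hden : IsUnit (t.den : ℤ_[p]))
    {Q : (curve (eval (pair t) a) (eval (pair t) b)).Point}
    (hQ : IsRep _ _ (eval (pair t) x) (eval (pair t) y) (eval (pair t) w) Q) {A₁ B₁ D₁ : ℤ}
    (h1 : IsRep _ _ A₁ B₁ D₁ Q)
    (hcop : IsCoprime (2 * B₁) (3 * A₁ ^ 2 + eval (pair t) a * D₁ ^ 4)) (hpD : (p : ℤ) ∣ D₁)
    {R : ℤ} (hR : ∀ D : ℤ, D ∣ 2 * eval (pair t) y →
      D ∣ 3 * eval (pair t) x ^ 2 + eval (pair t) a * eval (pair t) w ^ 4 → D ∣ R)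
    {j : ℕ} (hj : ∀ γ : ℕ, (p : ℤ) ^ γ ∣ R → γ < j) :
    ∃ γ : ℕ, 3 * γ < j ∧ ∃ x0 y0 w0 : ℤ_[p], IsUnit x0 ∧ IsUnit y0 ∧
      Polynomial.aeval τ (dehom x) = (p : ℤ_[p]) ^ (2 * γ) * x0 ∧
      Polynomial.aeval τ (dehom y) = (p : ℤ_[p]) ^ (3 * γ) * y0 ∧
      Polynomial.aeval τ (dehom w) = (p : ℤ_[p]) ^ (γ + 1) * w0 := by
  obtain ⟨hA, hB⟩ := fdisc_ndvd h1 hcop hpD
  obtain ⟨G, hG, e1, e2, e3, d1, d2⟩ := rep_comp hQ h1 hcop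
  obtain ⟨γ, hγ, x0, y0, w0, u1, u2, f1, f2, f3⟩ :=
    norm_form hs.homX hs.homY hs.homW hτ hden hG e1 e2 e3 hA hB hpD
  refine ⟨γ, hj _ ?_, x0, y0, w0, u1, u2, f1, f2, f3⟩
  have h2 : (p : ℤ) ^ (3 * γ) ∣ G ^ 3 := by
    rw [mul_comm 3 γ, pow_mul]
    exact pow_dvd_pow_of_dvd hγ 3
  exact h2.trans (hR _ d1 d2)

/-- The sigma function at the centre. -/
lemma fdisc_SD {d : ℕ} {a b : MvPolynomial (Fin 2) ℤ} (ha : a.IsHomogeneous (4 * d))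
    (hb : b.IsHomogeneous (6 * d)) {t : ℚ} {τ : ℤ_[p]}
    (hτ : τ * (t.den : ℤ_[p]) = (t.num : ℤ_[p])) (hden : IsUnit (t.den : ℤ_[p]))
    {Bh : (curve (eval (pair t) a) (eval (pair t) b)).Point →
      (curve (eval (pair t) a) (eval (pair t) b)).Point → ℚ_[p]}
    (hB : IsCanonicalHeight p (eval (pair t) a) (eval (pair t) b) Bh) :
    ∃ (c : ℤ_[p]) (W V Om S Z : PowerSeries ℤ_[p]),
      SD (Polynomial.aeval τ (dehom a)) (Polynomial.aeval τ (dehom b)) c W V Om S Z := by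
  obtain ⟨σ, hσ, -⟩ := hB.formula
  obtain ⟨c, W, V, Om, S, Z, -, hSd⟩ := sigmaData_of_sigma hσ
  obtain ⟨u, hu⟩ := hden.exists_left_inv
  have h1 := (SD_of_sigmaData hSd).scale (u ^ d)
  have ea : (u ^ d) ^ 4 * ((eval (pair t) a : ℤ) : ℤ_[p]) = Polynomial.aeval τ (dehom a) := by
    rw [eval_pair ha hτ, ← mul_assoc, ← pow_mul, mul_comm d 4, ← mul_pow, hu, one_pow, one_mul]
  have eb : (u ^ d) ^ 6 * ((eval (pair t) b : ℤ) : ℤ_[p]) = Polynomial.aeval τ (dehom b) := by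
    rw [eval_pair hb hτ, ← mul_assoc, ← pow_mul, mul_comm d 6, ← mul_pow, hu, one_pow, one_mul]
  rw [ea, eb] at h1
  exact ⟨_, _, _, _, _, _, h1⟩

/-- The discriminant is a unit. -/
lemma fdisc_unit {d : ℕ} {a b : MvPolynomial (Fin 2) ℤ} (ha : a.IsHomogeneous (4 * d))
    (hb : b.IsHomogeneous (6 * d)) {t : ℚ} {τ : ℤ_[p]}
    (hτ : τ * (t.den : ℤ_[p]) = (t.num : ℤ_[p]))
    (hgo : GoodOrdinary p (eval (pair t) a) (eval (pair t) b)) :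
    IsUnit (4 * Polynomial.aeval τ (dehom a) ^ 3 + 27 * Polynomial.aeval τ (dehom b) ^ 2) := by
  have h1 : ((4 * eval (pair t) a ^ 3 + 27 * eval (pair t) b ^ 2 : ℤ) : ℤ_[p]) =
      (t.den : ℤ_[p]) ^ (12 * d) *
        (4 * Polynomial.aeval τ (dehom a) ^ 3 + 27 * Polynomial.aeval τ (dehom b) ^ 2) := by
    push_cast
    rw [eval_pair ha hτ, eval_pair hb hτ]
    ring
  have h2 : IsUnit ((4 * eval (pair t) a ^ 3 + 27 * eval (pair t) b ^ 2 : ℤ) : ℤ_[p]) := by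
    rw [PadicInt.isUnit_iff]
    refine le_antisymm (PadicInt.norm_le_one _) (not_lt.1 fun hlt => hgo.1 ?_)
    exact (PadicInt.norm_intCast_lt_one_iff).1 hlt
  rw [h1] at h2
  exact isUnit_of_mul_isUnit_right h2

/-- The parameter of a point of the disc. -/
lemma fdisc_s {t t₀ : ℚ} {τ τ₀ : ℤ_[p]} (hτ : τ * (t.den : ℤ_[p]) = (t.num : ℤ_[p]))
    (hden : IsUnit (t.den : ℤ_[p])) (hτ₀ : τ₀ * (t₀.den : ℤ_[p]) = (t₀.num : ℤ_[p]))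
    (hden₀ : IsUnit (t₀.den : ℤ_[p])) {j : ℕ}
    (h : (p : ℤ) ^ (j + 1) ∣ t.num * t₀.den - t₀.num * t.den) :
    ∃ s : ℤ_[p], ‖s‖ < 1 ∧ τ = τ₀ + (p : ℤ_[p]) ^ j * s := by
  obtain ⟨k, hk⟩ := h
  have hk' : (t.num : ℤ_[p]) * (t₀.den : ℤ_[p]) - (t₀.num : ℤ_[p]) * (t.den : ℤ_[p]) =
      (p : ℤ_[p]) ^ (j + 1) * (k : ℤ_[p]) := by
    exact_mod_cast congrArg (Int.cast : ℤ → ℤ_[p]) hk
  obtain ⟨u, hu⟩ := hden.exists_left_inv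
  obtain ⟨u₀, hu₀⟩ := hden₀.exists_left_inv
  refine ⟨(p : ℤ_[p]) * (k * u * u₀), ?_, ?_⟩
  · rw [norm_mul]
    calc ‖(p : ℤ_[p])‖ * ‖(k : ℤ_[p]) * u * u₀‖ ≤ ‖(p : ℤ_[p])‖ * 1 :=
          mul_le_mul_of_nonneg_left (PadicInt.norm_le_one _) (norm_nonneg _)
      _ < 1 := by
          rw [mul_one]
          rw [PadicInt.norm_p]
          exact inv_p_lt_one
  · have e1 : τ = (t.num : ℤ_[p]) * u := by
      rw [← hτ]
      linear_combination (-τ) * hu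
    have e2 : τ₀ = (t₀.num : ℤ_[p]) * u₀ := by
      rw [← hτ₀]
      linear_combination (-τ₀) * hu₀
    have e3 : τ - τ₀ = ((t.num : ℤ_[p]) * (t₀.den : ℤ_[p]) -
        (t₀.num : ℤ_[p]) * (t.den : ℤ_[p])) * (u * u₀) := by
      rw [e1, e2]
      linear_combination (-(t.num : ℤ_[p]) * u) * hu₀ + ((t₀.num : ℤ_[p]) * u₀) * hu
    rw [hk'] at e3
    rw [pow_succ] at e3
    linear_combination e3

/-- Separation of the parameters. -/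
lemma fdisc_sep {t t' : ℚ} {τ τ' τ₀ s s' : ℤ_[p]} (hτ : τ * (t.den : ℤ_[p]) = (t.num : ℤ_[p]))
    (hτ' : τ' * (t'.den : ℤ_[p]) = (t'.num : ℤ_[p])) (hd : t'.den = t.den) {j e : ℕ}
    (hs : τ = τ₀ + (p : ℤ_[p]) ^ j * s) (hs' : τ' = τ₀ + (p : ℤ_[p]) ^ j * s')
    (h : ¬ (p : ℤ) ^ (j + e) ∣ t.num - t'.num) : (p : ℝ) ^ (-(e : ℤ)) < ‖s - s'‖ := by
  by_contra hcon
  rw [not_lt] at hcon
  have h1 : (p : ℤ_[p]) ^ e ∣ s - s' := by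
    rw [← Ideal.mem_span_singleton]
    exact (PadicInt.norm_le_pow_iff_mem_span_pow _ _).1 hcon
  obtain ⟨k, hk⟩ := h1
  apply h
  rw [← PadicInt.pow_p_dvd_int_iff]
  refine ⟨k * (t.den : ℤ_[p]), ?_⟩
  push_cast
  rw [← hτ, ← hτ', hd, hs, hs', pow_add]
  linear_combination ((p : ℤ_[p]) ^ j * (t.den : ℤ_[p])) * hk

/-- The value of the Gram determinant at a point of the disc. -/
lemma fdisc_value (hp5 : 5 ≤ p) {r d : ℕ} {a b : MvPolynomial (Fin 2) ℤ}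
    (ha : a.IsHomogeneous (4 * d)) (hb : b.IsHomogeneous (6 * d)) {w' : Pr r → ℕ}
    {x y w : Pr r → MvPolynomial (Fin 2) ℤ} (hs : ∀ e, SecForm d a b (w' e) (x e) (y e) (w e))
    {t : ℚ} {τ : ℤ_[p]} (hτ : τ * (t.den : ℤ_[p]) = (t.num : ℤ_[p]))
    (hden : IsUnit (t.den : ℤ_[p])) {κ : ℕ}
    {A : Fin r → (curve (eval (pair t) a) (eval (pair t) b)).Point}
    (hrep : ∀ e, IsRep _ _ (eval (pair t) (x e)) (eval (pair t) (y e)) (eval (pair t) (w e))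
          (prs (fun i => κ • A i) e) ∧
        ∃ A₁ B₁ D₁ : ℤ, IsRep _ _ A₁ B₁ D₁ (prs (fun i => κ • A i) e) ∧
          IsCoprime (2 * B₁) (3 * A₁ ^ 2 + eval (pair t) a * D₁ ^ 4) ∧ (p : ℤ) ∣ D₁)
    (hord : GoodOrdinary p (eval (pair t) a) (eval (pair t) b))
    {Bh : (curve (eval (pair t) a) (eval (pair t) b)).Point →
      (curve (eval (pair t) a) (eval (pair t) b)).Point → ℚ_[p]}
    (hB : IsCanonicalHeight p (eval (pair t) a) (eval (pair t) b) Bh) {v : ℚ_[p]} {K : ℕ}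
    (hreg : ‖regulator Bh A - v‖ ≤ (p : ℝ) ^ (-(K : ℤ))) {R : ℤ}
    (hR : ∀ e, ∀ D : ℤ, D ∣ 2 * eval (pair t) (y e) →
      D ∣ 3 * eval (pair t) (x e) ^ 2 + eval (pair t) a * eval (pair t) (w e) ^ 4 → D ∣ R)
    {c : ℤ_[p]} {W V Om S Z : PowerSeries ℤ_[p]}
    (hS : SD (Polynomial.aeval τ (dehom a)) (Polynomial.aeval τ (dehom b)) c W V Om S Z)
    {γ : Pr r → ℕ} {L : Pr r → ℤ_[p]}
    (hL : ∀ (e : Pr r) (xt yt wt yi : ℤ_[p]),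
      Polynomial.aeval τ (dehom (x e)) = (p : ℤ_[p]) ^ (2 * γ e) * xt →
      Polynomial.aeval τ (dehom (y e)) = (p : ℤ_[p]) ^ (3 * γ e) * yt →
      Polynomial.aeval τ (dehom (w e)) = (p : ℤ_[p]) ^ γ e * wt → yt * yi = 1 →
      (L e : ℚ_[p]) = ulog (-(xt * yi * ev S (-(xt * wt * yi)))))
    (htr : ∀ e, ∃ xt yt wt yi : ℤ_[p], IsUnit xt ∧ yt * yi = 1 ∧
      Polynomial.aeval τ (dehom (x e)) = (p : ℤ_[p]) ^ (2 * γ e) * xt ∧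
      Polynomial.aeval τ (dehom (y e)) = (p : ℤ_[p]) ^ (3 * γ e) * yt ∧
      Polynomial.aeval τ (dehom (w e)) = (p : ℤ_[p]) ^ γ e * wt ∧ (p : ℤ_[p]) ∣ wt) :
    ∃ G' : Pr r → ℤ, (∀ e, G' e ∣ R) ∧
      ‖(gram (fun e => (L e : ℚ_[p]) + (ulog ((G' e : ℤ) : ℤ_[p]) -
        ((d + w' e : ℕ) : ℚ_[p]) * ulog (t.den : ℤ_[p])))).det - (κ : ℚ_[p]) ^ (2 * r) * v‖ ≤
        (p : ℝ) ^ (-(K : ℤ)) := by
  have h1 : ∀ e, ∃ G' : ℤ, G' ∣ R ∧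
      Bh (prs (fun i => κ • A i) e) (prs (fun i => κ • A i) e) = (L e : ℚ_[p]) +
        (ulog ((G' : ℤ) : ℤ_[p]) - ((d + w' e : ℕ) : ℚ_[p]) * ulog (t.den : ℤ_[p])) := by
    intro e
    obtain ⟨hQ, A₁, B₁, D₁, hQ1, hcop, hpD⟩ := hrep e
    obtain ⟨xt, yt, wt, yi, hxt, hyi, f1, f2, f3, hwt⟩ := htr e
    obtain ⟨G', hG, -, hval⟩ := fibre_ht hp5 ha hb (hs e).homX (hs e).homY (hs e).homW hτ hden hQ
      hQ1 hcop hpD hord hB (hR e) hS hxt hyi f1 f2 f3 hwt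
    exact ⟨G', hG, by rw [hval, hL e xt yt wt yi f1 f2 f3 hyi]⟩
  choose G' hG hval using h1
  refine ⟨G', hG, ?_⟩
  have h2 := reg_gram hB (fun i => κ • A i)
  rw [regulator_nsmul hB] at h2
  have h3 : (fun e => Bh (prs (fun i => κ • A i) e) (prs (fun i => κ • A i) e)) =
      (fun e => (L e : ℚ_[p]) + (ulog ((G' e : ℤ) : ℤ_[p]) -
        ((d + w' e : ℕ) : ℚ_[p]) * ulog (t.den : ℤ_[p]))) := funext hval
  rw [h3] at h2
  rw [← h2, ← mul_sub, norm_mul]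
  have h4 : ‖(κ : ℚ_[p]) ^ (2 * r)‖ ≤ 1 := by
    rw [norm_pow]
    exact pow_le_one₀ (norm_nonneg _) (by exact_mod_cast Padic.norm_int_le_one (p := p) (κ : ℤ))
  calc ‖(κ : ℚ_[p]) ^ (2 * r)‖ * ‖regulator Bh A - v‖ ≤ 1 * ‖regulator Bh A - v‖ :=
        mul_le_mul_of_nonneg_right h4 (norm_nonneg _)
    _ ≤ (p : ℝ) ^ (-(K : ℤ)) := by rw [one_mul]; exact hreg

end Pool.Agent.Lib.MP_3550b5_nt.SV
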