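import Mathlib
import Pool.Agent.Lib.MP_3550b5_nt.G.FinalD
import Pool.Agent.Lib.MP_3550b5_nt.SV.Gram

/-!
Project SV, part F: forms for all multiples of the sections (proof of `exists_forms`).
-/

namespace Pool.Agent.Lib.MP_3550b5_nt.SV

open WeierstrassCurve.Affine MvPolynomial G

section aux

variable {n : ℕ} {wt : Fin n → ℕ} {d : ℕ} {a b : MvPolynomial (Fin n) ℤ}

private lemma ffe_add {K : Type*} [Field K] [DecidableEq K]
    {φ : MvPolynomial (Fin n) ℚ →+* K} (hφ : IsFrac φ) {a' b' : MvPolynomial (Fin n) ℚ}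
    (ha : a'.IsWeightedHomogeneous wt (4 * d)) {P Q : (scurve (φ a') (φ b')).Point}
    (hP : P = 0 ∨ ∃ (e : ℕ) (X Y W : MvPolynomial (Fin n) ℚ), HRep φ wt d e X Y W P)
    (hQ : Q = 0 ∨ ∃ (e : ℕ) (X Y W : MvPolynomial (Fin n) ℚ), HRep φ wt d e X Y W Q) :
    P + Q = 0 ∨ ∃ (e : ℕ) (X Y W : MvPolynomial (Fin n) ℚ), HRep φ wt d e X Y W (P + Q) := by
  rcases hP with rfl | ⟨e1, X1, Y1, W1, h1⟩
  · rw [zero_add]
    exact hQ
  rcases hQ with rfl | ⟨e2, X2, Y2, W2, h2⟩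
  · rw [add_zero]
    exact Or.inr ⟨e1, X1, Y1, W1, h1⟩
  by_cases h0 : P + Q = 0
  · exact Or.inl h0
  · right
    by_cases hPQ : P = Q
    · subst hPQ
      exact HRep.dbl hφ ha h1 h0
    · refine HRep.add_ne hφ h1 h2 hPQ ?_
      intro h
      apply h0
      rw [h, neg_add_cancel]

private lemma ffe_nsmul {K : Type*} [Field K] [DecidableEq K]
    {φ : MvPolynomial (Fin n) ℚ →+* K} (hφ : IsFrac φ) {a' b' : MvPolynomial (Fin n) ℚ}
    (ha : a'.IsWeightedHomogeneous wt (4 * d)) {P : (scurve (φ a') (φ b')).Point}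
    (hP : P = 0 ∨ ∃ (e : ℕ) (X Y W : MvPolynomial (Fin n) ℚ), HRep φ wt d e X Y W P) (k : ℕ) :
    k • P = 0 ∨ ∃ (e : ℕ) (X Y W : MvPolynomial (Fin n) ℚ), HRep φ wt d e X Y W (k • P) := by
  induction k with
  | zero => exact Or.inl (zero_nsmul P)
  | succ k ih =>
    rw [succ_nsmul]
    exact ffe_add hφ ha ih hP

private lemma ffe_map {F : MvPolynomial (Fin n) ℤ} {k : ℕ}
    (h : F.IsWeightedHomogeneous wt k) :
    (F.map (Int.castRingHom ℚ)).IsWeightedHomogeneous wt k := by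
  intro s hs
  apply h
  intro h0
  apply hs
  rw [coeff_map, h0, map_zero]

/-- Forms for the multiples, over `scurve (toK ..) (toK ..)`. -/
private theorem ffe_toK (ha : a.IsWeightedHomogeneous wt (4 * d))
    (hΔ : 4 * a ^ 3 + 27 * b ^ 2 ≠ 0)
    (hmin : ∀ F : MvPolynomial (Fin n) ℚ, F ^ 4 ∣ a.map (Int.castRingHom ℚ) →
      F ^ 6 ∣ b.map (Int.castRingHom ℚ) → IsUnit F) {r : ℕ} [DecidableEq (RF n)]
    (P : Fin r → (scurve (toK n (a.map (Int.castRingHom ℚ)))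
      (toK n (b.map (Int.castRingHom ℚ)))).Point)
    (hind : ∀ v : Fin r → ℤ, ∑ i, v i • P i = 0 → v = 0)
    (hP : ∀ i, ∃ (e : ℕ) (X Y W : MvPolynomial (Fin n) ℤ), IRep wt d e X Y W (P i)) :
    ∃ m : ℕ, 1 ≤ m ∧ ∀ M : ℕ, 1 ≤ M → ∀ i j : Fin r,
      ∃ (e : ℕ) (X Y W : MvPolynomial (Fin n) ℤ), IRep wt d e X Y W
        (if i = j then (M * m) • P i else (M * m) • P i - (M * m) • P j) ∧ NarZ a X Y W := by
  classical
  have hφ : IsFrac (toK n) := isFrac_toK n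
  have hah : (a.map (Int.castRingHom ℚ)).IsWeightedHomogeneous wt (4 * d) := ffe_map ha
  have hΔ' : 4 * (a.map (Int.castRingHom ℚ)) ^ 3 + 27 * (b.map (Int.castRingHom ℚ)) ^ 2 ≠ 0 := by
    intro h0
    apply hΔ
    apply MvPolynomial.map_injective (Int.castRingHom ℚ) Int.cast_injective
    rw [map_zero, ← h0]
    simp only [map_add, map_mul, map_pow, map_ofNat]
  have hmin' : ∀ π : MvPolynomial (Fin n) ℚ, Prime π →
      ¬ (π ^ 4 ∣ a.map (Int.castRingHom ℚ) ∧ π ^ 6 ∣ b.map (Int.castRingHom ℚ)) :=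
    fun π hπ h => hπ.not_isUnit (hmin π h.1 h.2)
  obtain ⟨m₀, hm₀, hNS⟩ := exists_ns_family hφ not_dvd_two not_dvd_three hmin' hΔ' P
  refine ⟨m₀, hm₀, fun M hM => ?_⟩
  obtain ⟨m, hmM⟩ : ∃ m : ℕ, m = M * m₀ := ⟨_, rfl⟩
  rw [← hmM]
  have hm : 1 ≤ m := by
    rw [hmM]
    exact Nat.mul_pos hM hm₀
  have hm0 : (m : ℤ) ≠ 0 := by
    have : m ≠ 0 := by omega
    exact_mod_cast this
  have hmem : ∀ i, m • P i ∈ Lam hφ wt d (b := b.map (Int.castRingHom ℚ)) hah := by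
    intro i
    obtain ⟨e, X, Y, W, h⟩ := hP i
    rw [hmM, mul_smul]
    exact nsmul_mem (show m₀ • P i ∈ Lam hφ wt d (b := b.map (Int.castRingHom ℚ)) hah from
      ⟨ffe_nsmul hφ hah (Or.inr ⟨e, _, _, _, h.hrep⟩) m₀, hNS i⟩) M
  have hRmem : ∀ i j, (if i = j then m • P i else m • P i - m • P j) ∈
      Lam hφ wt d (b := b.map (Int.castRingHom ℚ)) hah := by
    intro i j
    split_ifs
    · exact hmem i
    · exact sub_mem (hmem i) (hmem j)
  have hR0 : ∀ i j, (if i = j then m • P i else m • P i - m • P j) ≠ 0 := by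
    intro i j
    split_ifs with hij
    · intro h0
      have h1 := hind (Pi.single i (m : ℤ)) (by
        rw [Finset.sum_eq_single i]
        · rw [Pi.single_eq_same, natCast_zsmul]
          exact h0
        · intro k _ hk
          rw [Pi.single_eq_of_ne hk, zero_zsmul]
        · intro h
          exact absurd (Finset.mem_univ i) h)
      have h2 := congrFun h1 i
      rw [Pi.single_eq_same, Pi.zero_apply] at h2
      exact hm0 h2
    · intro h0
      have h1 := hind (Pi.single i (m : ℤ) - Pi.single j (m : ℤ)) (by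
        have e1 : ∀ l : Fin r, ∑ k, (Pi.single l (m : ℤ) : Fin r → ℤ) k • P k = m • P l := by
          intro l
          rw [Finset.sum_eq_single l]
          · rw [Pi.single_eq_same, natCast_zsmul]
          · intro k _ hk
            rw [Pi.single_eq_of_ne hk, zero_zsmul]
          · intro h
            exact absurd (Finset.mem_univ l) h
        simp only [Pi.sub_apply, sub_smul, Finset.sum_sub_distrib]
        rw [e1, e1]
        exact h0)
      have h2 := congrFun h1 i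
      rw [Pi.sub_apply, Pi.single_eq_same, Pi.single_eq_of_ne hij, Pi.zero_apply, sub_zero] at h2
      exact hm0 h2
  intro i j
  obtain ⟨h1, h2⟩ := hRmem i j
  obtain ⟨e, X, Y, W, h3⟩ := h1.resolve_left (hR0 i j)
  obtain ⟨e', X', Y', W', h4, h5⟩ := h3.reduce hφ
  obtain ⟨X'', Y'', W'', h6, h7⟩ := exists_irep h4 h5 h2
  exact ⟨e', X'', Y'', W'', h6, h7⟩

private theorem ffe_alg (ha : a.IsWeightedHomogeneous wt (4 * d))
    (hΔ : 4 * a ^ 3 + 27 * b ^ 2 ≠ 0)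
    (hmin : ∀ F : MvPolynomial (Fin n) ℚ, F ^ 4 ∣ a.map (Int.castRingHom ℚ) →
      F ^ 6 ∣ b.map (Int.castRingHom ℚ) → IsUnit F) {r : ℕ} [DecidableEq (RF n)]
    (P : Fin r → (scurve (algebraMap (MvPolynomial (Fin n) ℤ) (RF n) a)
      (algebraMap (MvPolynomial (Fin n) ℤ) (RF n) b)).Point)
    (hind : ∀ v : Fin r → ℤ, ∑ i, v i • P i = 0 → v = 0)
    (hP : ∀ i, ∃ (e : ℕ) (X Y W : MvPolynomial (Fin n) ℤ), IRep wt d e X Y W (P i)) :
    ∃ m : ℕ, 1 ≤ m ∧ ∀ M : ℕ, 1 ≤ M → ∀ i j : Fin r,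
      ∃ (e : ℕ) (X Y W : MvPolynomial (Fin n) ℤ), IRep wt d e X Y W
        (if i = j then (M * m) • P i else (M * m) • P i - (M * m) • P j) ∧ NarZ a X Y W := by
  have key : ∀ (α β : RF n), α = toK n (a.map (Int.castRingHom ℚ)) →
      β = toK n (b.map (Int.castRingHom ℚ)) → ∀ (P : Fin r → (scurve α β).Point),
      (∀ v : Fin r → ℤ, ∑ i, v i • P i = 0 → v = 0) →
      (∀ i, ∃ (e : ℕ) (X Y W : MvPolynomial (Fin n) ℤ), IRep wt d e X Y W (P i)) →
      ∃ m : ℕ, 1 ≤ m ∧ ∀ M : ℕ, 1 ≤ M → ∀ i j : Fin r,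
      ∃ (e : ℕ) (X Y W : MvPolynomial (Fin n) ℤ), IRep wt d e X Y W
        (if i = j then (M * m) • P i else (M * m) • P i - (M * m) • P j) ∧ NarZ a X Y W := by
    rintro α β rfl rfl P h1 h2
    exact ffe_toK ha hΔ hmin P h1 h2
  exact key _ _ (toK_map a).symm (toK_map b).symm P hind hP

end aux

variable [DecidableEq (FractionRing (MvPolynomial (Fin 2) ℤ))]

/-- Forms for all multiples: the proof of `exists_forms`. -/
theorem exists_forms_aux {r : ℕ} {d : ℕ} {a b : MvPolynomial (Fin 2) ℤ}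
    (ha : a.IsHomogeneous (4 * d))
    (hΔ : 4 * a ^ 3 + 27 * b ^ 2 ≠ 0)
    (hmin : ∀ F : MvPolynomial (Fin 2) ℚ, F ^ 4 ∣ a.map (Int.castRingHom ℚ) →
      F ^ 6 ∣ b.map (Int.castRingHom ℚ) → IsUnit F)
    {P : Fin r → (genericCurve a b).Point} (hP : LinearIndependent ℤ P) {v : Fin r → ℕ}
    {X Y W : Fin r → MvPolynomial (Fin 2) ℤ}
    (hS : ∀ i, IsPointForm d a b (v i) (X i) (Y i) (W i) (P i)) :
    ∃ m : ℕ, 1 ≤ m ∧ ∀ M : ℕ, 1 ≤ M →
      ∃ (w' : Pr r → ℕ) (x y w : Pr r → MvPolynomial (Fin 2) ℤ), ∀ e,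
        IsPointForm d a b (w' e) (x e) (y e) (w e) (prs (fun i => (M * m) • P i) e) ∧
          SecForm d a b (w' e) (x e) (y e) (w e) := by
  have hind : ∀ v : Fin r → ℤ, ∑ i, v i • P i = 0 → v = 0 := by
    intro v hv
    funext i
    exact (Fintype.linearIndependent_iff.mp hP) v hv i
  have hP' : ∀ i, ∃ (e : ℕ) (X Y W : MvPolynomial (Fin 2) ℤ),
      IRep (n := 2) (1 : Fin 2 → ℕ) d (α := algebraMap _ _ a) (β := algebraMap _ _ b) e X Y W
        (P i) := by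
    intro i
    exact ⟨v i, X i, Y i, W i, (hS i).homX, (hS i).homY, (hS i).homW, (hS i).W_ne, (hS i).point⟩
  obtain ⟨m, hm, h⟩ := ffe_alg (n := 2) (wt := 1) ha hΔ hmin P hind hP'
  refine ⟨m, hm, fun M hM => ?_⟩
  choose w' x y w hw using h M hM
  refine ⟨fun e => w' e.1.1 e.1.2, fun e => x e.1.1 e.1.2, fun e => y e.1.1 e.1.2,
    fun e => w e.1.1 e.1.2, fun e => ?_⟩
  obtain ⟨h1, h2⟩ := hw e.1.1 e.1.2
  have hpt : IsPointForm d a b (w' e.1.1 e.1.2) (x e.1.1 e.1.2) (y e.1.1 e.1.2) (w e.1.1 e.1.2)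
      (prs (fun i => (M * m) • P i) e) := ⟨h1.homX, h1.homY, h1.homW, h1.W_ne, h1.point⟩
  have hF : (2 * y e.1.1 e.1.2).IsHomogeneous (3 * (d + w' e.1.1 e.1.2)) := by
    have := (isHomogeneous_C (Fin 2) (2 : ℤ)).mul hpt.homY
    rw [zero_add] at this
    exact this
  have hG : (3 * x e.1.1 e.1.2 ^ 2 + a * w e.1.1 e.1.2 ^ 4).IsHomogeneous
      (4 * (d + w' e.1.1 e.1.2)) := by
    have g1 := (isHomogeneous_C (Fin 2) (3 : ℤ)).mul (hpt.homX.pow 2)
    have g2 := ha.mul (hpt.homW.pow 4)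
    rw [show 0 + 2 * (d + w' e.1.1 e.1.2) * 2 = 4 * (d + w' e.1.1 e.1.2) by ring] at g1
    rw [show 4 * d + w' e.1.1 e.1.2 * 4 = 4 * (d + w' e.1.1 e.1.2) by ring] at g2
    exact g1.add g2
  have hsec : IsSection d a b (w' e.1.1 e.1.2) (x e.1.1 e.1.2) (y e.1.1 e.1.2) (w e.1.1 e.1.2)
      (prs (fun i => (M * m) • P i) e) :=
    ⟨hpt.homX, hpt.homY, hpt.homW, hpt.W_ne, hpt.point, no_common_zero hF hG (const_of_common h2)⟩
  exact ⟨hpt, hsec.secForm⟩

end Pool.Agent.Lib.MP_3550b5_nt.SV
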