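import Mathlib
import Pool.Agent.Lib.MP_3550b5_nt.SRes
import Pool.Agent.Lib.MP_3550b5_nt.Family
import Pool.Agent.Lib.MP_3550b5_nt.G.Forms
import Pool.Agent.Lib.MP_3550b5_nt.G.DefsD
import Pool.Agent.Lib.MP_3550b5_nt.SV.Plc
import Pool.Agent.Lib.MP_3550b5_nt.SV.ISet
import Pool.Agent.Lib.MP_3550b5_nt.SV.ScHom

/-!
Project SV, part F: the points over `ℚ(t)` (proof of `exists_one`).
-/

namespace Pool.Agent.Lib.MP_3550b5_nt.SV

open MvPolynomial G

section One

private noncomputable abbrev t0 : RF 2 := algebraMap (MvPolynomial (Fin 2) ℤ) (RF 2) (X 0)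

private noncomputable abbrev t1 : RF 2 := algebraMap (MvPolynomial (Fin 2) ℤ) (RF 2) (X 1)

private lemma t1_ne : t1 ≠ 0 := by
  intro h
  have h1 : (X 1 : MvPolynomial (Fin 2) ℤ) = 0 :=
    (IsFractionRing.injective (MvPolynomial (Fin 2) ℤ) (RF 2)) (h.trans (map_zero _).symm)
  exact X_ne_zero 1 h1

private noncomputable def gq : Polynomial ℚ →+* RF 2 :=
  Polynomial.eval₂RingHom (algebraMap ℚ (RF 2)) (t0 / t1)

private lemma aeval_t (F : MvPolynomial (Fin 2) ℤ) :
    MvPolynomial.eval₂ (Int.castRingHom (RF 2)) ![t0, t1] F =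
      algebraMap (MvPolynomial (Fin 2) ℤ) (RF 2) F := by
  have h : MvPolynomial.eval₂Hom (Int.castRingHom (RF 2)) ![t0, t1] =
      algebraMap (MvPolynomial (Fin 2) ℤ) (RF 2) := by
    refine MvPolynomial.ringHom_ext (fun r => ?_) (fun i => ?_)
    · rw [eq_intCast (C : ℤ →+* MvPolynomial (Fin 2) ℤ) r, map_intCast, map_intCast]
    · fin_cases i
      · simp
      · simp
  exact RingHom.congr_fun h F

private lemma dehom_eval₂ {A : Type*} [CommRing A] (F : MvPolynomial (Fin 2) ℤ) (x : A) :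
    ((dehom F).map (Int.castRingHom A)).eval x =
      MvPolynomial.eval₂ (Int.castRingHom A) ![x, 1] F := dehom_eval F x

private lemma gq_aeval (F : MvPolynomial (Fin 2) ℤ) :
    gq ((dehom F).map (Int.castRingHom ℚ)) =
      MvPolynomial.eval₂ (Int.castRingHom (RF 2)) ![t0 / t1, 1] F := by
  have h1 := dehom_eval₂ (A := RF 2) F (t0 / t1)
  rw [Polynomial.eval_map] at h1
  rw [gq, Polynomial.coe_eval₂RingHom, Polynomial.eval₂_map]
  rw [RingHom.ext_int ((algebraMap ℚ (RF 2)).comp (Int.castRingHom ℚ)) (Int.castRingHom (RF 2)), h1]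

private lemma gq_dehom {F : MvPolynomial (Fin 2) ℤ} {k : ℕ} (hF : F.IsHomogeneous k) :
    algebraMap (MvPolynomial (Fin 2) ℤ) (RF 2) F =
      t1 ^ k * gq ((dehom F).map (Int.castRingHom ℚ)) := by
  have h1 : (F.map (Int.castRingHom (RF 2))).IsWeightedHomogeneous 1 k := by
    intro d hd
    apply hF
    intro h0
    apply hd
    rw [MvPolynomial.coeff_map, h0, map_zero]
  have h2 := eval_scalV h1 t1 ![t0 / t1, 1]
  have h3 : scalV (1 : Fin 2 → ℕ) t1 ![t0 / t1, 1] = ![t0, t1] := by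
    funext i
    fin_cases i
    · simp [scalV, mul_div_cancel₀ _ t1_ne]
    · simp [scalV]
  rw [h3, MvPolynomial.eval_map, MvPolynomial.eval_map] at h2
  rw [gq_aeval, ← aeval_t]
  exact h2

private lemma exists_hom (P : Polynomial ℤ) :
    ∃ F : MvPolynomial (Fin 2) ℤ, F.IsHomogeneous P.natDegree ∧ dehom F = P := by
  refine ⟨∑ i ∈ Finset.range (P.natDegree + 1), C (P.coeff i) *
    (X 0 ^ i * X 1 ^ (P.natDegree - i)), ?_, ?_⟩
  · refine IsHomogeneous.sum _ _ _ fun i hi => ?_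
    have hi' : i ≤ P.natDegree := Nat.lt_succ_iff.1 (Finset.mem_range.1 hi)
    have h1 : ((X 0 : MvPolynomial (Fin 2) ℤ) ^ i * X 1 ^ (P.natDegree - i)).IsHomogeneous
        P.natDegree := by
      have h2 := (isHomogeneous_X_pow (R := ℤ) (0 : Fin 2) i).mul
        (isHomogeneous_X_pow (R := ℤ) (1 : Fin 2) (P.natDegree - i))
      rwa [Nat.add_sub_cancel' hi'] at h2
    exact h1.C_mul _
  · rw [dehom, map_sum]
    conv_rhs => rw [P.as_sum_range_C_mul_X_pow]
    refine Finset.sum_congr rfl fun i _ => ?_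
    rw [map_mul, map_mul, map_pow, map_pow, aeval_X, aeval_X]
    simp

private lemma gq_inj : Function.Injective gq := by
  rw [injective_iff_map_eq_zero]
  intro P hP
  obtain ⟨b, hbm, hb⟩ := IsLocalization.integerNormalization_spec (nonZeroDivisors ℤ) P
  set U := IsLocalization.integerNormalization (nonZeroDivisors ℤ) P
  have hb' : b ≠ 0 := nonZeroDivisors.ne_zero hbm
  have e1 : U.map (Int.castRingHom ℚ) = Polynomial.C ((b : ℤ) : ℚ) * P := by
    have h1 : U.map (algebraMap ℤ ℚ) = (b : ℤ) • P := hb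
    rw [show Int.castRingHom ℚ = algebraMap ℤ ℚ from rfl, h1, Algebra.smul_def]
    simp
  obtain ⟨F, hF, hFU⟩ := exists_hom U
  have h2 := gq_dehom hF
  rw [hFU, e1, map_mul, hP, mul_zero, mul_zero] at h2
  have h3 : F = 0 :=
    IsFractionRing.injective (MvPolynomial (Fin 2) ℤ) (RF 2) (by rw [h2, map_zero])
  have h4 : U = 0 := by rw [← hFU, h3, dehom, map_zero]
  rw [h4, Polynomial.map_zero] at e1
  refine (mul_eq_zero.1 e1.symm).resolve_left ?_
  rw [Polynomial.C_eq_zero]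
  exact_mod_cast hb'

private lemma exists_f {F₀ : Type*} [Field F₀] {φ₀ : Polynomial ℚ →+* F₀} (h0 : IsFrac φ₀) :
    ∃ f : F₀ →+* RF 2, ∀ P, f (φ₀ P) = gq P := by
  let _ : Algebra (Polynomial ℚ) F₀ := φ₀.toAlgebra
  have : FaithfulSMul (Polynomial ℚ) F₀ :=
    (faithfulSMul_iff_algebraMap_injective _ _).2 h0.inj
  have : IsFractionRing (Polynomial ℚ) F₀ := IsFractionRing.of_field _ _ fun z => by
    obtain ⟨f, g, _, h⟩ := h0.surj z
    exact ⟨f, g, h⟩
  exact ⟨IsFractionRing.lift gq_inj, fun P => IsFractionRing.lift_algebraMap gq_inj P⟩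

private lemma one_pt {E : Type*} [Field E] {A B x y x' y' : E} (h : (scurve A B).Nonsingular x y)
    (h' : (scurve A B).Nonsingular x' y') (hx : x = x') (hy : y = y') :
    (WeierstrassCurve.Affine.Point.some x y h : (scurve A B).Point) =
      WeierstrassCurve.Affine.Point.some x' y' h' := by
  subst hx hy
  rfl

private lemma one_abs {E₀ E : Type*} [Field E₀] [Field E] [DecidableEq E₀] [DecidableEq E]
    (f : E₀ →+* E) {u : E} (hu : u ≠ 0) {a₀ b₀ : E₀} {A B : E} (hA : u ^ 4 * f a₀ = A)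
    (hB : u ^ 6 * f b₀ = B) {r : ℕ} {P' : Fin r → (scurve A B).Point}
    (hP' : LinearIndependent ℤ P') {x y : Pr r → E₀}
    (h : ∀ e, ∃ h, prs P' e =
      WeierstrassCurve.Affine.Point.some (u ^ 2 * f (x e)) (u ^ 3 * f (y e)) h) :
    ∃ P1 : Fin r → (scurve a₀ b₀).Point, LinearIndependent ℤ P1 ∧
      ∀ e, ∃ h, prs P1 e = WeierstrassCurve.Affine.Point.some (x e) (y e) h := by
  subst hA hB
  obtain ⟨J, hJ⟩ := scHom_exists f hu a₀ b₀
  have hns : ∀ e, (scurve a₀ b₀).Nonsingular (x e) (y e) := by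
    intro e
    obtain ⟨h1, -⟩ := h e
    rw [nonsing_iff] at h1 ⊢
    obtain ⟨h2, h3⟩ := h1
    refine ⟨?_, ?_⟩
    · apply f.injective
      apply mul_left_cancel₀ (pow_ne_zero 6 hu)
      rw [map_pow, map_add, map_add, map_mul, map_pow]
      linear_combination h2
    · rcases h3 with h3 | h3
      · left
        intro h4
        apply h3
        have h5 := congrArg f h4
        rw [map_mul, map_ofNat, map_zero] at h5
        linear_combination u ^ 3 * h5
      · right
        intro h4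
        apply h3
        have h5 := congrArg f h4
        rw [map_add, map_mul, map_pow, map_ofNat, map_zero] at h5
        linear_combination u ^ 4 * h5
  have hJi : Function.Injective J := by
    rw [injective_iff_map_eq_zero]
    intro P hP
    rcases P with _ | ⟨x, y, h⟩
    · rfl
    · obtain ⟨h', e⟩ := hJ x y h
      rw [e] at hP
      exact absurd hP (WeierstrassCurve.Affine.Point.some_ne_zero _)
  let P1 : Fin r → (scurve a₀ b₀).Point :=
    fun i => WeierstrassCurve.Affine.Point.some _ _ (hns ⟨(i, i), le_rfl⟩)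
  have hJP : ∀ i, J (P1 i) = P' i := by
    intro i
    obtain ⟨h1, e1⟩ := h ⟨(i, i), le_rfl⟩
    obtain ⟨h2, e2⟩ := hJ _ _ (hns ⟨(i, i), le_rfl⟩)
    have e3 : prs P' ⟨(i, i), le_rfl⟩ = P' i := by
      rw [prs, if_pos rfl]
    rw [← e3, e1]
    exact e2
  refine ⟨P1, ?_, fun e => ⟨hns e, ?_⟩⟩
  · refine LinearIndependent.of_comp J.toIntLinearMap ?_
    have h1 : J.toIntLinearMap ∘ P1 = P' := funext hJP
    rw [h1]
    exact hP'
  · apply hJi
    have e1 : J (prs P1 e) = prs P' e := by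
      unfold prs
      split_ifs
      · exact hJP _
      · rw [map_sub, hJP, hJP]
    obtain ⟨h1, e2⟩ := h e
    obtain ⟨h2, e3⟩ := hJ _ _ (hns e)
    rw [e1, e2, e3]

/-- The points over `ℚ(t)`. -/
theorem exists_one_aux [DecidableEq (RF 2)] {F₀ : Type*} [Field F₀] [DecidableEq F₀]
    {φ₀ : Polynomial ℚ →+* F₀} (h0 : IsFrac φ₀) {d : ℕ}
    {a b : MvPolynomial (Fin 2) ℤ} (ha : a.IsHomogeneous (4 * d)) (hb : b.IsHomogeneous (6 * d))
    {r : ℕ} {P' : Fin r → (genericCurve a b).Point}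
    (hP' : LinearIndependent ℤ P') {w' : Pr r → ℕ} {x y w : Pr r → MvPolynomial (Fin 2) ℤ}
    (h : ∀ e, IsPointForm d a b (w' e) (x e) (y e) (w e) (prs P' e)) :
    ∃ P1 : Fin r → (scurve (φ₀ ((dehom a).map (Int.castRingHom ℚ)))
        (φ₀ ((dehom b).map (Int.castRingHom ℚ)))).Point, LinearIndependent ℤ P1 ∧
      ∀ e, ∃ h, prs P1 e = WeierstrassCurve.Affine.Point.some
        (φ₀ ((dehom (x e)).map (Int.castRingHom ℚ)) /
          φ₀ ((dehom (w e)).map (Int.castRingHom ℚ)) ^ 2)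
        (φ₀ ((dehom (y e)).map (Int.castRingHom ℚ)) /
          φ₀ ((dehom (w e)).map (Int.castRingHom ℚ)) ^ 3) h := by
  obtain ⟨f, hf⟩ := exists_f h0
  have hu : t1 ^ d ≠ 0 := pow_ne_zero d t1_ne
  refine one_abs f hu (A := algebraMap (MvPolynomial (Fin 2) ℤ) (RF 2) a)
    (B := algebraMap (MvPolynomial (Fin 2) ℤ) (RF 2) b) ?_ ?_ hP' fun e => ?_
  · rw [hf, gq_dehom ha, ← pow_mul, mul_comm d 4]
  · rw [hf, gq_dehom hb, ← pow_mul, mul_comm d 6]
  · obtain ⟨hX, hY, hW, hne, h1, e1⟩ := h e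
    have hw : gq ((dehom (w e)).map (Int.castRingHom ℚ)) ≠ 0 := by
      intro h2
      have h3 := gq_dehom hW
      rw [h2, mul_zero] at h3
      exact hne (IsFractionRing.injective (MvPolynomial (Fin 2) ℤ) (RF 2) (by rw [h3, map_zero]))
    have ex : algebraMap (MvPolynomial (Fin 2) ℤ) (RF 2) (x e) /
        algebraMap (MvPolynomial (Fin 2) ℤ) (RF 2) (w e) ^ 2 =
        (t1 ^ d) ^ 2 * f (φ₀ ((dehom (x e)).map (Int.castRingHom ℚ)) /
          φ₀ ((dehom (w e)).map (Int.castRingHom ℚ)) ^ 2) := by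
      have ht := t1_ne
      rw [map_div₀, map_pow, hf, hf, gq_dehom hX, gq_dehom hW]
      field_simp
      ring
    have ey : algebraMap (MvPolynomial (Fin 2) ℤ) (RF 2) (y e) /
        algebraMap (MvPolynomial (Fin 2) ℤ) (RF 2) (w e) ^ 3 =
        (t1 ^ d) ^ 3 * f (φ₀ ((dehom (y e)).map (Int.castRingHom ℚ)) /
          φ₀ ((dehom (w e)).map (Int.castRingHom ℚ)) ^ 3) := by
      have ht := t1_ne
      rw [map_div₀, map_pow, hf, hf, gq_dehom hY, gq_dehom hW]
      field_simp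
      ring
    have h2 := h1
    rw [ex, ey] at h2
    exact ⟨h2, e1.trans (one_pt _ _ ex ey)⟩

end One

end Pool.Agent.Lib.MP_3550b5_nt.SV
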