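import Mathlib
import Pool.Agent.Lib.MP_3550b5_nt.G.FinalD
import Pool.Agent.Lib.MP_3550b5_nt.SV.Gram
import Pool.Agent.Lib.MP_3550b5_nt.SV.Desc
import Pool.Agent.Lib.MP_3550b5_nt.SV.FFormE
import Pool.Agent.Lib.MP_3550b5_nt.SV.FFormX
import Pool.Agent.Lib.MP_3550b5_nt.SV.FFormOne

/-!
Project SV, part F: forms for multiples of the sections, and the curve over `ℚ(t)`.
-/

namespace Pool.Agent.Lib.MP_3550b5_nt.SV

open MvPolynomial

/-- The field `ℚ(t)` with `d/dt`. PROOF. `FractionRing ℚ[X]`, `algebraMap`, `exists_fracDer` (of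
Cmp.lean; or `RatFunc ℚ`) for the derivative of polynomials. (The existential hides the instances, so
that `Derivation ℤ F₀ F₀` has the generic instance.) -/
theorem exists_RF1 : ∃ (F₀ : Type) (_ : Field F₀) (_ : CharZero F₀)
    (φ₀ : Polynomial ℚ →+* F₀) (D₀ : Derivation ℤ F₀ F₀), RF1 φ₀ D₀ :=
  fformX_exists_RF1

/-- The dehomogenisation of a form has small degree. -/
private lemma hmin_natDegree {k : ℕ} {a : MvPolynomial (Fin 2) ℤ} (ha : a.IsHomogeneous k) :
    (dehom a).natDegree ≤ k := by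
  classical
  unfold dehom
  rw [a.as_sum, map_sum]
  refine Polynomial.natDegree_sum_le_of_forall_le _ _ fun m hm => ?_
  have h1 : m.degree = k := by
    have h2 := ha (mem_support_iff.1 hm)
    rw [Finsupp.degree_eq_weight_one]
    exact h2
  have h3 : m 0 ≤ k := h1 ▸ Finsupp.le_degree 0 m
  rw [aeval_monomial, Finsupp.prod_fintype _ _ (fun i => pow_zero _), Fin.prod_univ_two]
  have h4 : (![Polynomial.X, 1] : Fin 2 → Polynomial ℤ) 0 = Polynomial.X := rfl
  have h5 : (![Polynomial.X, 1] : Fin 2 → Polynomial ℤ) 1 = 1 := rfl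
  rw [h4, h5, one_pow, mul_one]
  exact (Polynomial.natDegree_C_mul_X_pow_le _ _).trans h3

/-- Homogenisation of the dehomogenisation. -/
private lemma hmin_homog {k : ℕ} {a : MvPolynomial (Fin 2) ℤ} (ha : a.IsHomogeneous k) :
    ((dehom a).map (Int.castRingHom ℚ)).homogenize k = a.map (Int.castRingHom ℚ) := by
  rw [Polynomial.homogenize_map, Polynomial.homogenize_eq_of_isHomogeneous (p := dehom a) ha rfl]

/-- Homogenisation of a power. -/
private lemma hmin_pow (p : Polynomial ℚ) (k : ℕ) :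
    (p ^ k).homogenize (k * p.natDegree) = (p.homogenize p.natDegree) ^ k := by
  induction k with
  | zero => simp
  | succ k ih =>
    rw [pow_succ, Nat.succ_mul, Polynomial.homogenize_mul _ _ Polynomial.natDegree_pow_le le_rfl,
      ih, pow_succ]

/-- Homogenisation of a multiple of a power. -/
private lemma hmin_dvd {p A : Polynomial ℚ} {k N : ℕ} (hp : p ≠ 0) (hA : A.natDegree ≤ N)
    (h : p ^ k ∣ A) : (p.homogenize p.natDegree) ^ k ∣ A.homogenize N := by
  obtain ⟨q, rfl⟩ := h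
  by_cases hq : q = 0
  · rw [hq, mul_zero, Polynomial.homogenize_zero]
    exact dvd_zero _
  · rw [Polynomial.natDegree_mul (pow_ne_zero k hp) hq, Polynomial.natDegree_pow] at hA
    have h1 : N = k * p.natDegree + (N - k * p.natDegree) := by omega
    rw [h1, Polynomial.homogenize_mul _ _ Polynomial.natDegree_pow_le (by omega), hmin_pow]
    exact dvd_mul_right _ _

/-- The power of the last variable. -/
private lemma hmin_dvd' {A : Polynomial ℚ} {k N : ℕ} (hA : A.natDegree + k ≤ N) :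
    (X 1 : MvPolynomial (Fin 2) ℚ) ^ k ∣ A.homogenize N := by
  have h1 : N = (N - k) + k := by omega
  have h2 : A = A * 1 := (mul_one A).symm
  rw [h2, h1, Polynomial.homogenize_mul _ _ (by omega) (by simp), Polynomial.homogenize_one]
  exact dvd_mul_left _ _

/-- DEHOMOGENISATION of the minimality. PROOF. `dehom F = F(X, 1)`; for a form `F` of degree `k`,
`natDegree (dehom F) ≤ k` and `F` is divisible by `Z^(k - natDegree)`, `Z = X 1`. If
`π^4 ∣ dehom a`, `π^6 ∣ dehom b` over `ℚ`, let `Π` be the homogenisation of `π` (degree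
`natDegree π ≥ 1`): `Π^4 ∣ a`, `Π^6 ∣ b` over `ℚ` (homogenise the quotients), so `Π` is a unit:
contradiction. Second claim: `Z^4 ∣ a`, `Z^6 ∣ b`. -/
theorem hmin_one {d : ℕ} {a b : MvPolynomial (Fin 2) ℤ} (ha : a.IsHomogeneous (4 * d))
    (hb : b.IsHomogeneous (6 * d))
    (hmin : ∀ F : MvPolynomial (Fin 2) ℚ, F ^ 4 ∣ a.map (Int.castRingHom ℚ) →
      F ^ 6 ∣ b.map (Int.castRingHom ℚ) → IsUnit F) :
    (dehom a).natDegree ≤ 4 * d ∧ (dehom b).natDegree ≤ 6 * d ∧
    (∀ π : Polynomial ℚ, Prime π → ¬ (π ^ 4 ∣ (dehom a).map (Int.castRingHom ℚ) ∧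
      π ^ 6 ∣ (dehom b).map (Int.castRingHom ℚ))) ∧
    ¬ ((dehom a).natDegree + 4 ≤ 4 * d ∧ (dehom b).natDegree + 6 ≤ 6 * d) := by
  have h1 := hmin_natDegree ha
  have h2 := hmin_natDegree hb
  have h3 : ((dehom a).map (Int.castRingHom ℚ)).natDegree ≤ (dehom a).natDegree :=
    Polynomial.natDegree_map_le
  have h4 : ((dehom b).map (Int.castRingHom ℚ)).natDegree ≤ (dehom b).natDegree :=
    Polynomial.natDegree_map_le
  refine ⟨h1, h2, fun π hπ h => ?_, fun h => ?_⟩
  · have h5 := hmin (π.homogenize π.natDegree)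
      (by rw [← hmin_homog ha]; exact hmin_dvd hπ.ne_zero (h3.trans h1) h.1)
      (by rw [← hmin_homog hb]; exact hmin_dvd hπ.ne_zero (h4.trans h2) h.2)
    have h6 := h5.map (aeval (![Polynomial.X, 1] : Fin 2 → Polynomial ℚ))
    rw [Polynomial.aeval_homogenize_X_one _ le_rfl] at h6
    exact hπ.not_isUnit h6
  · have h5 := hmin (X 1)
      (by rw [← hmin_homog ha]; exact hmin_dvd' (by omega))
      (by rw [← hmin_homog hb]; exact hmin_dvd' (by omega))
    have h6 := h5.map (eval (0 : Fin 2 → ℚ))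
    rw [eval_X] at h6
    exact not_isUnit_zero h6

/-- `k1 ≠ 0` if `a^3`, `b^2` are not proportional. PROOF. Let `A = dehom a`, `B = dehom b` over `ℚ`.
`dl ≠ 0` (it is `dehom` of the nonzero form `4a^3+27b^2`). If `wr = 0` then `3 B A' = 2 A B'`,
so `(A^3)' B^2 = A^3 (B^2)'`, `A^3 / B^2` is constant if `B ≠ 0`: `c A^3 = e B^2` with integers not
both `0` (also if `B = 0`), and the same for the forms (injectivity of `dehom` on forms of
degree `12 d`). -/
theorem k1_one {F₀ : Type*} [Field F₀] [CharZero F₀] {φ₀ : Polynomial ℚ →+* F₀}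
    {D₀ : Derivation ℤ F₀ F₀} (h0 : RF1 φ₀ D₀) {d : ℕ} {a b : MvPolynomial (Fin 2) ℤ}
    (ha : a.IsHomogeneous (4 * d)) (hb : b.IsHomogeneous (6 * d))
    (hΔ : 4 * a ^ 3 + 27 * b ^ 2 ≠ 0)
    (hj : ∀ c e : ℤ, C c * a ^ 3 = C e * b ^ 2 → c = 0 ∧ e = 0) :
    k1 D₀ (φ₀ ((dehom a).map (Int.castRingHom ℚ))) (φ₀ ((dehom b).map (Int.castRingHom ℚ))) ≠ 0 :=
  fformX_k1 h0 ha hb hj

variable [DecidableEq (FractionRing (MvPolynomial (Fin 2) ℤ))]

/-- FORMS for all multiples. PROOF. As `G.exists_narrow_aux` and the beginning of `fibres_all`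
(G/FinalD.lean): `m` from `G.exists_ns_family`; then `(M m) • P i` is nonsingular at all primes, too
(`NS_nsmul`), so is `prs (fun i => (M m) • P i) e` (`NS_sub`), it is not zero by independence, has an
`HRep` in lowest terms and hence (`exists_irep`) integral forms with `NarZ`; `SecForm` from
`no_common_zero`, `const_of_common`, `IsSection.secForm`. -/
theorem exists_forms {r : ℕ} {d : ℕ} (hd : 1 ≤ d) {a b : MvPolynomial (Fin 2) ℤ}
    (ha : a.IsHomogeneous (4 * d)) (hb : b.IsHomogeneous (6 * d))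
    (hΔ : 4 * a ^ 3 + 27 * b ^ 2 ≠ 0)
    (hmin : ∀ F : MvPolynomial (Fin 2) ℚ, F ^ 4 ∣ a.map (Int.castRingHom ℚ) →
      F ^ 6 ∣ b.map (Int.castRingHom ℚ) → IsUnit F)
    {P : Fin r → (genericCurve a b).Point} (hP : LinearIndependent ℤ P) {v : Fin r → ℕ}
    {X Y W : Fin r → MvPolynomial (Fin 2) ℤ}
    (hS : ∀ i, IsPointForm d a b (v i) (X i) (Y i) (W i) (P i)) :
    ∃ m : ℕ, 1 ≤ m ∧ ∀ M : ℕ, 1 ≤ M →
      ∃ (w' : Pr r → ℕ) (x y w : Pr r → MvPolynomial (Fin 2) ℤ), ∀ e,
        IsPointForm d a b (w' e) (x e) (y e) (w e) (prs (fun i => (M * m) • P i) e) ∧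
          SecForm d a b (w' e) (x e) (y e) (w e) :=
  exists_forms_aux ha hΔ hmin hP hS

/-- THE POINTS OVER `ℚ(t)`. PROOF. `f : F₀ →+* RF 2`, `t ↦ X₀/X₁` (extend the injective map
`ℚ[X] → RF 2`), `u = X₁^d`. For a form `F` of degree `k`, `X₁^k f(φ₀ (dehom F)) = F`. So
`u^4 f(φ₀ (dehom a)) = a`, and `exists_scaleHom` (file ScHom.lean) is a homomorphism `J` from the
points over `F₀` to those of `genericCurve a b = scurve a b` (transport along the equality of the
coefficients), injective. `P1 i` = the point with the coordinates of the forms of `(i, i)`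
(`nonsing_of_eq`; the equation holds because it holds in `RF 2` and `f` is injective). `J (P1 i) =
P' i`, so `P1` is linearly independent; for `e = (i, j)` the point with the coordinates of the forms
of `e` is mapped to `prs P' e = J (prs P1 e)`, so it is `prs P1 e`. -/
theorem exists_one {F₀ : Type*} [Field F₀] [CharZero F₀] [DecidableEq F₀]
    {φ₀ : Polynomial ℚ →+* F₀} {D₀ : Derivation ℤ F₀ F₀} (h0 : RF1 φ₀ D₀) {d : ℕ}
    {a b : MvPolynomial (Fin 2) ℤ} (ha : a.IsHomogeneous (4 * d)) (hb : b.IsHomogeneous (6 * d))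
    (hΔ : 4 * a ^ 3 + 27 * b ^ 2 ≠ 0) {r : ℕ} {P' : Fin r → (genericCurve a b).Point}
    (hP' : LinearIndependent ℤ P') {w' : Pr r → ℕ} {x y w : Pr r → MvPolynomial (Fin 2) ℤ}
    (h : ∀ e, IsPointForm d a b (w' e) (x e) (y e) (w e) (prs P' e)) :
    ∃ P1 : Fin r → (scurve (φ₀ ((dehom a).map (Int.castRingHom ℚ)))
        (φ₀ ((dehom b).map (Int.castRingHom ℚ)))).Point, LinearIndependent ℤ P1 ∧
      ∀ e, ∃ h, prs P1 e = WeierstrassCurve.Affine.Point.some
        (φ₀ ((dehom (x e)).map (Int.castRingHom ℚ)) /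
          φ₀ ((dehom (w e)).map (Int.castRingHom ℚ)) ^ 2)
        (φ₀ ((dehom (y e)).map (Int.castRingHom ℚ)) /
          φ₀ ((dehom (w e)).map (Int.castRingHom ℚ)) ^ 3) h := by
  exact exists_one_aux h0.frac ha hb hP' h

end Pool.Agent.Lib.MP_3550b5_nt.SV
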