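import Mathlib
import Pool.Agent.Lib.MP_3550b5_nt.SFinal2
import Pool.Agent.Lib.MP_3550b5_nt.SV.ScHom

/-!
Project SV, part F: the two auxiliary statements `finite_bad` and `exists_J` of `FSpec.lean`.
-/

namespace Pool.Agent.Lib.MP_3550b5_nt.SV

open MvPolynomial

private lemma fsp_line (G : MvPolynomial (Fin 2) ℚ) (L : Fin 2 → Polynomial ℚ) {S : Set ℚ}
    (hS : S.Infinite) (h : ∀ s ∈ S, eval (fun i => (L i).eval s) G = 0) (s : ℚ) :
    eval (fun i => (L i).eval s) G = 0 := by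
  have h1 : ∀ s : ℚ, (aeval L G : Polynomial ℚ).eval s = eval (fun i => (L i).eval s) G := by
    intro s
    rw [← Polynomial.coe_evalRingHom, aeval_def, hom_eval₂]
    have h2 : (Polynomial.evalRingHom s).comp (algebraMap ℚ (Polynomial ℚ)) = RingHom.id ℚ := Subsingleton.elim _ _
    rw [h2]
    rfl
  have h2 : (aeval L G : Polynomial ℚ) = 0 := by
    apply Polynomial.eq_zero_of_infinite_isRoot
    refine hS.mono fun t ht => ?_
    change Polynomial.eval t _ = 0
    rw [h1]
    exact h t ht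
  rw [← h1, h2, Polynomial.eval_zero]

private lemma fsp_scale {n : ℕ} {F : MvPolynomial (Fin 2) ℤ} (hF : F.IsHomogeneous n) (c : ℤ)
    (z : Fin 2 → ℤ) : eval (fun i => c * z i) F = c ^ n * eval z F := by
  rw [eval_eq', eval_eq', Finset.mul_sum]
  refine Finset.sum_congr rfl fun m hm => ?_
  have h1 : m.degree = n := by
    rw [Finsupp.degree_eq_weight_one]
    exact hF (mem_support_iff.1 hm)
  have h2 : ∏ i, (c * z i) ^ m i = c ^ n * ∏ i, z i ^ m i := by
    simp only [mul_pow]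
    rw [Finset.prod_mul_distrib, Finset.prod_pow_eq_pow_sum, ← h1, Finsupp.degree_eq_sum]
  rw [h2]
  ring

/-- `finite_bad` of `FSpec.lean`. -/
theorem finite_badA {H : MvPolynomial (Fin 2) ℤ} (hH : H ≠ 0) :
    {t : ℚ | ∀ l : ℕ, 1 ≤ l → eval (fun i => (l : ℤ) * pair t i) H = 0}.Finite := by
  by_contra hinf
  have hinf : {t : ℚ | ∀ l : ℕ, 1 ≤ l → eval (fun i => (l : ℤ) * pair t i) H = 0}.Infinite := hinf
  apply hH
  apply MvPolynomial.map_injective (Int.castRingHom ℚ) Int.cast_injective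
  rw [map_zero]
  set G := MvPolynomial.map (Int.castRingHom ℚ) H with hG
  have key : ∀ z : Fin 2 → ℤ, eval (fun i => ((z i : ℤ) : ℚ)) G = ((eval z H : ℤ) : ℚ) := by
    intro z
    rw [hG, eval_map]
    have h1 := eval₂_comp_left (Int.castRingHom ℚ) (RingHom.id ℤ) z H
    rw [eval₂_id] at h1
    exact h1.symm
  have hpr : ∀ (t : ℚ) (l : ℕ), (fun i => ((((l : ℤ) * pair t i : ℤ)) : ℚ)) =
      ![(l : ℚ) * t.den * t, (l : ℚ) * t.den] := by
    intro t l
    have h1 : (t.den : ℚ) * t = t.num := by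
      rw [mul_comm]
      exact Rat.mul_den_eq_num t
    funext i
    fin_cases i
    · simp [pair, mul_assoc, h1]
    · simp [pair]
  -- the form vanishes on the lines through the pairs
  have st1 : ∀ t ∈ {t : ℚ | ∀ l : ℕ, 1 ≤ l → eval (fun i => (l : ℤ) * pair t i) H = 0}, ∀ s : ℚ,
      eval ![s * t, s] G = 0 := by
    intro t ht s
    have h1 := fsp_line G ![Polynomial.C t * Polynomial.X, Polynomial.X]
      (S := Set.range fun l : ℕ => ((l : ℚ) + 1) * t.den) ?_ ?_ s
    · have h2 : (fun i => ((![Polynomial.C t * Polynomial.X, Polynomial.X] :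
          Fin 2 → Polynomial ℚ) i).eval s) = ![s * t, s] := by
        funext i
        fin_cases i
        · simp
          ring
        · simp
      rw [h2] at h1
      exact h1
    · apply Set.infinite_range_of_injective
      intro m n hmn
      have h3 : (t.den : ℚ) ≠ 0 := by exact_mod_cast t.den_ne_zero
      have h4 := mul_right_cancel₀ h3 hmn
      have h5 : (m : ℚ) = n := by linarith
      exact_mod_cast h5
    · rintro _ ⟨l, rfl⟩
      have h2 : (fun i => ((![Polynomial.C t * Polynomial.X, Polynomial.X] :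
          Fin 2 → Polynomial ℚ) i).eval (((l : ℚ) + 1) * t.den)) =
          fun i => ((((((l + 1 : ℕ) : ℤ)) * pair t i : ℤ)) : ℚ) := by
        rw [hpr]
        funext i
        fin_cases i
        · simp
          ring
        · simp
      rw [h2, key, ht (l + 1) (by omega)]
      simp
  have st2 : ∀ s : ℚ, s ≠ 0 → ∀ x : ℚ, eval ![x, s] G = 0 := by
    intro s hs x
    have h1 := fsp_line G ![Polynomial.X, Polynomial.C s]
      (S := (fun t : ℚ => s * t) '' {t : ℚ | ∀ l : ℕ, 1 ≤ l →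
        eval (fun i => (l : ℤ) * pair t i) H = 0}) ?_ ?_ x
    · have h2 : (fun i => ((![Polynomial.X, Polynomial.C s] :
          Fin 2 → Polynomial ℚ) i).eval x) = ![x, s] := by
        funext i
        fin_cases i <;> simp
      rw [h2] at h1
      exact h1
    · exact hinf.image fun t _ t' _ h => mul_left_cancel₀ hs h
    · rintro _ ⟨t, ht, rfl⟩
      have h2 : (fun i => ((![Polynomial.X, Polynomial.C s] :
          Fin 2 → Polynomial ℚ) i).eval (s * t)) = ![s * t, s] := by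
        funext i
        fin_cases i <;> simp
      change eval (fun i => ((![Polynomial.X, Polynomial.C s] :
          Fin 2 → Polynomial ℚ) i).eval (s * t)) G = 0
      rw [h2]
      exact st1 t ht s
  have st3 : ∀ x s : ℚ, eval ![x, s] G = 0 := by
    intro x s
    have h1 := fsp_line G ![Polynomial.C x, Polynomial.X] (S := {s : ℚ | s ≠ 0}) ?_ ?_ s
    · have h2 : (fun i => ((![Polynomial.C x, Polynomial.X] :
          Fin 2 → Polynomial ℚ) i).eval s) = ![x, s] := by
        funext i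
        fin_cases i <;> simp
      rw [h2] at h1
      exact h1
    · have : ({s : ℚ | s ≠ 0} : Set ℚ) = ({0} : Set ℚ)ᶜ := by
        ext s
        simp
      rw [this]
      exact (Set.finite_singleton 0).infinite_compl
    · intro s' hs'
      have h2 : (fun i => ((![Polynomial.C x, Polynomial.X] :
          Fin 2 → Polynomial ℚ) i).eval s') = ![x, s'] := by
        funext i
        fin_cases i <;> simp
      rw [h2]
      exact st2 s' hs' x
  apply MvPolynomial.funext
  intro z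
  have h2 : z = ![z 0, z 1] := by
    funext i
    fin_cases i <;> simp
  rw [h2, st3, map_zero]

/-- `exists_J` of `FSpec.lean` over `ℚ`. -/
private lemma fsp_J {a₀ b₀ a₁ b₁ u : ℚ} (hu : u ≠ 0) (h1 : a₁ = u ^ 4 * a₀)
    (h2 : b₁ = u ^ 6 * b₀) :
    ∃ J : (scurve a₀ b₀).Point →+ (scurve a₁ b₁).Point, Function.Injective J ∧
      ∀ (x y : ℚ) (h : (scurve a₀ b₀).Nonsingular x y),
        ∃ h' : (scurve a₁ b₁).Nonsingular (u ^ 2 * x) (u ^ 3 * y), J (.some x y h) = .some _ _ h' := by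
  subst h1 h2
  obtain ⟨J, hJ⟩ := scHom_exists (RingHom.id ℚ) hu a₀ b₀
  refine ⟨J, ?_, hJ⟩
  rw [injective_iff_map_eq_zero]
  intro P hP
  rcases P with _ | ⟨x, y, h⟩
  · rfl
  · obtain ⟨h', e⟩ := hJ x y h
    rw [e] at hP
    exact absurd hP (WeierstrassCurve.Affine.Point.some_ne_zero h')

/-- `exists_J` of `FSpec.lean`. -/
theorem exists_JA {d : ℕ} {a b : MvPolynomial (Fin 2) ℤ} (ha : a.IsHomogeneous (4 * d))
    (hb : b.IsHomogeneous (6 * d)) (z : Fin 2 → ℤ) {l : ℕ} (hl : 1 ≤ l) :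
    ∃ J : (curve (eval z a) (eval z b)).Point →+
        (curve (eval (fun i => (l : ℤ) * z i) a) (eval (fun i => (l : ℤ) * z i) b)).Point,
      Function.Injective J ∧
      ∀ (w : ℕ) (X Y W : MvPolynomial (Fin 2) ℤ), X.IsHomogeneous (2 * (d + w)) →
        Y.IsHomogeneous (3 * (d + w)) → W.IsHomogeneous w →
        ∀ Q, IsRep (eval z a) (eval z b) (eval z X) (eval z Y) (eval z W) Q →
          IsRep (eval (fun i => (l : ℤ) * z i) a) (eval (fun i => (l : ℤ) * z i) b)
            (eval (fun i => (l : ℤ) * z i) X) (eval (fun i => (l : ℤ) * z i) Y)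
            (eval (fun i => (l : ℤ) * z i) W) (J Q) := by
  have hl0 : (l : ℚ) ≠ 0 := by
    have : l ≠ 0 := by omega
    exact_mod_cast this
  have hu : (l : ℚ) ^ d ≠ 0 := pow_ne_zero _ hl0
  have e1 : ((eval (fun i => (l : ℤ) * z i) a : ℤ) : ℚ) =
      ((l : ℚ) ^ d) ^ 4 * ((eval z a : ℤ) : ℚ) := by
    rw [fsp_scale ha]
    push_cast
    ring
  have e2 : ((eval (fun i => (l : ℤ) * z i) b : ℤ) : ℚ) =
      ((l : ℚ) ^ d) ^ 6 * ((eval z b : ℤ) : ℚ) := by
    rw [fsp_scale hb]
    push_cast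
    ring
  obtain ⟨J, hJ1, hJ2⟩ := fsp_J hu e1 e2
  refine ⟨J, hJ1, ?_⟩
  intro w X Y W hX hY hW Q hQ
  obtain ⟨hW0, h, rfl⟩ := hQ
  obtain ⟨h', e⟩ := hJ2 _ _ h
  have hW0' : ((eval z W : ℤ) : ℚ) ≠ 0 := by exact_mod_cast hW0
  have hlZ : (l : ℤ) ≠ 0 := by exact_mod_cast hl0
  refine ⟨?_, ?_⟩
  · rw [fsp_scale hW]
    exact mul_ne_zero (pow_ne_zero _ hlZ) hW0
  have f1 : ((eval (fun i => (l : ℤ) * z i) X : ℤ) : ℚ) /
      ((eval (fun i => (l : ℤ) * z i) W : ℤ) : ℚ) ^ 2 =
      ((l : ℚ) ^ d) ^ 2 * (((eval z X : ℤ) : ℚ) / ((eval z W : ℤ) : ℚ) ^ 2) := by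
    rw [fsp_scale hX, fsp_scale hW]
    push_cast
    field_simp
    ring
  have f2 : ((eval (fun i => (l : ℤ) * z i) Y : ℤ) : ℚ) /
      ((eval (fun i => (l : ℤ) * z i) W : ℤ) : ℚ) ^ 3 =
      ((l : ℚ) ^ d) ^ 3 * (((eval z Y : ℤ) : ℚ) / ((eval z W : ℤ) : ℚ) ^ 3) := by
    rw [fsp_scale hY, fsp_scale hW]
    push_cast
    field_simp
    ring
  rw [f1, f2]
  exact ⟨h', e⟩

end Pool.Agent.Lib.MP_3550b5_nt.SV
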