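import Mathlib
import Pool.Agent.Lib.MP_3550b5_nt.SFinal2
import Pool.Agent.Lib.MP_3550b5_nt.G.FinalD
import Pool.Agent.Lib.MP_3550b5_nt.SV.ScHom
import Pool.Agent.Lib.MP_3550b5_nt.SV.Gram
import Pool.Agent.Lib.MP_3550b5_nt.SV.FSpecA

/-!
Project SV, part F: specialisation of relations between sections at all but finitely many rational
numbers `t`. Points of the fibre at `t` are points of `curve (eval (pair t) a) (eval (pair t) b)`,
`pair t = ![t.num, t.den]`.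
-/

namespace Pool.Agent.Lib.MP_3550b5_nt.SV

open MvPolynomial

/-- PROOF. Let `H = ∑ H_j` (homogeneous components), `e = totalDegree H`, `H_e ≠ 0`.
`H (l z) = ∑ l^j H_j(z)` is a polynomial in `l` which vanishes for all `l ≥ 1`, so `H_e(pair t) = 0`:
`t` is a root of the polynomial `H_e(X, 1)`, which is not `0` as `H_e` is homogeneous and not `0`. -/
theorem finite_bad {H : MvPolynomial (Fin 2) ℤ} (hH : H ≠ 0) :
    {t : ℚ | ∀ l : ℕ, 1 ≤ l → eval (fun i => (l : ℤ) * pair t i) H = 0}.Finite :=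
  finite_badA hH

/-- SCALING of a fibre. PROOF. `exists_scaleHom` (file ScHom.lean) with `f = id`, `u = l^d`:
`(x, y) ↦ (l^(2d) x, l^(3d) y)`; `eval (l z) a = l^(4d) eval z a` and so on, so
`X(lz)/W(lz)^2 = l^(2d) X(z)/W(z)^2`. `curve a b = scurve a b` over `ℚ` (rfl); to transport along the
equality of the coefficients write the target with `eval (l z) a` and use `subst`/`cast`-free
generalisation (`obtain ⟨a', ha'⟩ : ∃ a', a' = ..`). Injective: the coordinates determine the point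
and `J P = 0` only for `P = 0`. -/
theorem exists_J {d : ℕ} {a b : MvPolynomial (Fin 2) ℤ} (ha : a.IsHomogeneous (4 * d))
    (hb : b.IsHomogeneous (6 * d)) (z : Fin 2 → ℤ) {l : ℕ} (hl : 1 ≤ l) :
    ∃ J : (curve (eval z a) (eval z b)).Point →+
        (curve (eval (fun i => (l : ℤ) * z i) a) (eval (fun i => (l : ℤ) * z i) b)).Point,
      Function.Injective J ∧
      ∀ (w : ℕ) (X Y W : MvPolynomial (Fin 2) ℤ), X.IsHomogeneous (2 * (d + w)) →
        Y.IsHomogeneous (3 * (d + w)) → W.IsHomogeneous w →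
        ∀ Q, IsRep (eval z a) (eval z b) (eval z X) (eval z Y) (eval z W) Q →
          IsRep (eval (fun i => (l : ℤ) * z i) a) (eval (fun i => (l : ℤ) * z i) b)
            (eval (fun i => (l : ℤ) * z i) X) (eval (fun i => (l : ℤ) * z i) Y)
            (eval (fun i => (l : ℤ) * z i) W) (J Q) :=
  exists_JA ha hb z hl

variable [DecidableEq (FractionRing (MvPolynomial (Fin 2) ℤ))]

/-- Differences. PROOF. `G.spec_sub` (or `exists_spec`): a polynomial `H ≠ 0` such that the relation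
holds at `z` if `H(z) ≠ 0`, the `W`'s do not vanish and the discriminant does not vanish. `T` = the
set of `finite_bad` for `H W1 W2 W3 (4a^3+27b^2)`. For `t ∉ T` there is `l ≥ 1` with
`H (l pair t) ≠ 0`, ...; the relation holds at `l * pair t` for the points `J Q_i` (two points with
the same `IsRep` are equal), and `J` is an injective homomorphism (`exists_J`). -/
theorem spec_sub_fin {d : ℕ} {a b : MvPolynomial (Fin 2) ℤ} (ha : a.IsHomogeneous (4 * d))
    (hb : b.IsHomogeneous (6 * d)) (hΔ : 4 * a ^ 3 + 27 * b ^ 2 ≠ 0) {w1 w2 w3 : ℕ}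
    {X1 Y1 W1 X2 Y2 W2 X3 Y3 W3 : MvPolynomial (Fin 2) ℤ} {R1 R2 : (genericCurve a b).Point}
    (h1 : IsPointForm d a b w1 X1 Y1 W1 R1) (h2 : IsPointForm d a b w2 X2 Y2 W2 R2)
    (h3 : IsPointForm d a b w3 X3 Y3 W3 (R1 - R2)) :
    ∃ T : Set ℚ, T.Finite ∧ ∀ t ∉ T,
      ∀ Q1 Q2 Q3 : (curve (eval (pair t) a) (eval (pair t) b)).Point,
        IsRep _ _ (eval (pair t) X1) (eval (pair t) Y1) (eval (pair t) W1) Q1 →
        IsRep _ _ (eval (pair t) X2) (eval (pair t) Y2) (eval (pair t) W2) Q2 →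
        IsRep _ _ (eval (pair t) X3) (eval (pair t) Y3) (eval (pair t) W3) Q3 → Q1 - Q2 = Q3 := by
  have p1 : G.PRep (n := 2) (α := algebraMap _ _ a) (β := algebraMap _ _ b) X1 Y1 W1 R1 :=
    ⟨h1.W_ne, h1.point⟩
  have p2 : G.PRep (n := 2) (α := algebraMap _ _ a) (β := algebraMap _ _ b) X2 Y2 W2 R2 :=
    ⟨h2.W_ne, h2.point⟩
  have p3 : G.PRep (n := 2) (α := algebraMap _ _ a) (β := algebraMap _ _ b) X3 Y3 W3
    (R1 - R2) := ⟨h3.W_ne, h3.point⟩
  obtain ⟨H, hH, hs⟩ := G.spec_sub (a := a) (b := b) p1 p2 p3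
  refine ⟨_, finite_bad hH, fun t ht Q1 Q2 Q3 q1 q2 q3 => ?_⟩
  rw [Set.mem_setOf_eq] at ht
  push Not at ht
  obtain ⟨l, hl, hne⟩ := ht
  obtain ⟨J, hJ, hJr⟩ := exists_J ha hb (pair t) hl
  obtain ⟨-, k1, e1⟩ := hJr w1 X1 Y1 W1 h1.homX h1.homY h1.homW Q1 q1
  obtain ⟨-, k2, e2⟩ := hJr w2 X2 Y2 W2 h2.homX h2.homY h2.homW Q2 q2
  obtain ⟨-, k3, e3⟩ := hJr w3 X3 Y3 W3 h3.homX h3.homY h3.homW Q3 q3
  have h4 := hs _ hne k1 k2 k3
  rw [← e1, ← e2, ← e3, ← map_sub] at h4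
  exact hJ h4

/-- Multiples. PROOF. The same with `G.spec_nsmul`. -/
theorem spec_nsmul_fin {d : ℕ} {a b : MvPolynomial (Fin 2) ℤ} (ha : a.IsHomogeneous (4 * d))
    (hb : b.IsHomogeneous (6 * d)) (hΔ : 4 * a ^ 3 + 27 * b ^ 2 ≠ 0) {w1 w3 : ℕ}
    {X1 Y1 W1 X3 Y3 W3 : MvPolynomial (Fin 2) ℤ} {R1 : (genericCurve a b).Point} {m : ℕ}
    (hm : 1 ≤ m) (hne : ∀ k : ℕ, 1 ≤ k → k • R1 ≠ 0)
    (h1 : IsPointForm d a b w1 X1 Y1 W1 R1)
    (h3 : IsPointForm d a b w3 X3 Y3 W3 (m • R1)) :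
    ∃ T : Set ℚ, T.Finite ∧ ∀ t ∉ T,
      ∀ Q1 Q3 : (curve (eval (pair t) a) (eval (pair t) b)).Point,
        IsRep _ _ (eval (pair t) X1) (eval (pair t) Y1) (eval (pair t) W1) Q1 →
        IsRep _ _ (eval (pair t) X3) (eval (pair t) Y3) (eval (pair t) W3) Q3 → m • Q1 = Q3 := by
  have p1 : G.PRep (n := 2) (α := algebraMap _ _ a) (β := algebraMap _ _ b) X1 Y1 W1 R1 :=
    ⟨h1.W_ne, h1.point⟩
  have p3 : G.PRep (n := 2) (α := algebraMap _ _ a) (β := algebraMap _ _ b) X3 Y3 W3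
    (m • R1) := ⟨h3.W_ne, h3.point⟩
  obtain ⟨H, hH, hs⟩ := G.spec_nsmul (a := a) (b := b) hΔ p1 m hm (fun k hk _ => hne k hk)
    X3 Y3 W3 p3
  refine ⟨_, finite_bad hH, fun t ht Q1 Q3 q1 q3 => ?_⟩
  rw [Set.mem_setOf_eq] at ht
  push Not at ht
  obtain ⟨l, hl, hn⟩ := ht
  obtain ⟨J, hJ, hJr⟩ := exists_J ha hb (pair t) hl
  obtain ⟨-, k1, e1⟩ := hJr w1 X1 Y1 W1 h1.homX h1.homY h1.homW Q1 q1
  obtain ⟨-, k3, e3⟩ := hJr w3 X3 Y3 W3 h3.homX h3.homY h3.homW Q3 q3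
  have h4 := hs _ hn k1 k3
  rw [← e1, ← e3, ← map_nsmul] at h4
  exact hJ h4

omit [DecidableEq (FractionRing (MvPolynomial (Fin 2) ℤ))] in
private lemma spec_homog {F : MvPolynomial (Fin 2) ℤ} {n : ℕ} (hF : F.IsHomogeneous n)
    (z : Fin 2 → ℤ) (l : ℤ) : eval (fun i => l * z i) F = l ^ n * eval z F := by
  rw [eval_eq', eval_eq', Finset.mul_sum]
  refine Finset.sum_congr rfl fun s hs => ?_
  have h1 : ∑ i, s i = n := by
    have h2 := hF (mem_support_iff.1 hs)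
    have h3 : Finsupp.degree s = n := by
      rw [Finsupp.degree_eq_weight_one (R := ℕ)]
      exact h2
    rw [← h3, Finsupp.degree_eq_sum]
  simp only [mul_pow, Finset.prod_mul_distrib]
  rw [Finset.prod_pow_eq_pow_sum, h1]
  ring

omit [DecidableEq (FractionRing (MvPolynomial (Fin 2) ℤ))] in
private lemma spec_zero_fin {F : MvPolynomial (Fin 2) ℤ} {n : ℕ} (hF : F.IsHomogeneous n)
    (h0 : F ≠ 0) : {t : ℚ | eval (pair t) F = 0}.Finite := by
  refine (finite_bad h0).subset fun t ht l _ => ?_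
  rw [spec_homog hF, show eval (pair t) F = 0 from ht, mul_zero]

/-- ALL POINTS `prs (κ P) e`. PROOF. `T` = the union of the sets of `spec_nsmul_fin` for `P i`,
`κ`, of `spec_sub_fin` for `κ P i`, `κ P j` (`i < j`) and of the `t` with
`(4a^3+27b^2) ∏ W_i ∏ w_e` zero at `pair t` (a homogeneous form: finite; or `finite_bad`). At
`t ∉ T` the value of `(x e, y e, w e)` is a point `Q e` (`nonsing_of_disc`, the equation by
`IsPointForm`), `IsRep .. (Q e)`, and `Q (i,i) = κ • A i`, `Q (i,j) = Q (i,i) - Q (j,j)`. -/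
theorem spec_all {d : ℕ} {a b : MvPolynomial (Fin 2) ℤ} (ha : a.IsHomogeneous (4 * d))
    (hb : b.IsHomogeneous (6 * d)) (hΔ : 4 * a ^ 3 + 27 * b ^ 2 ≠ 0) {r : ℕ}
    {P : Fin r → (genericCurve a b).Point} (hP : LinearIndependent ℤ P) {v : Fin r → ℕ}
    {X Y W : Fin r → MvPolynomial (Fin 2) ℤ}
    (hS : ∀ i, IsPointForm d a b (v i) (X i) (Y i) (W i) (P i)) {κ : ℕ} (hκ : 1 ≤ κ)
    {w' : Pr r → ℕ} {x y w : Pr r → MvPolynomial (Fin 2) ℤ}
    (h : ∀ e, IsPointForm d a b (w' e) (x e) (y e) (w e) (prs (fun i => κ • P i) e)) :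
    ∃ T : Set ℚ, T.Finite ∧ ∀ t ∉ T, eval (pair t) (4 * a ^ 3 + 27 * b ^ 2) ≠ 0 ∧
      (∀ i, eval (pair t) (W i) ≠ 0) ∧ (∀ e, eval (pair t) (w e) ≠ 0) ∧
      ∀ A : Fin r → (curve (eval (pair t) a) (eval (pair t) b)).Point,
        (∀ i, IsRep _ _ (eval (pair t) (X i)) (eval (pair t) (Y i)) (eval (pair t) (W i)) (A i)) →
        ∀ e, IsRep _ _ (eval (pair t) (x e)) (eval (pair t) (y e)) (eval (pair t) (w e))
          (prs (fun i => κ • A i) e) := by
  have hne : ∀ i : Fin r, ∀ k : ℕ, 1 ≤ k → k • P i ≠ 0 := by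
    intro i k hk h0
    have h1 := Fintype.linearIndependent_iff.1 hP (Pi.single i (k : ℤ)) (by
      rw [Fintype.sum_eq_single i]
      · rw [Pi.single_eq_same, natCast_zsmul, h0]
      · intro j hj
        rw [Pi.single_eq_of_ne hj, zero_smul]) i
    rw [Pi.single_eq_same] at h1
    omega
  obtain ⟨ii, hii⟩ : ∃ ii : Fin r → Pr r, ii = fun i => ⟨(i, i), le_rfl⟩ := ⟨_, rfl⟩
  have hpi : ∀ {M : Type} [AddCommGroup M] (τ : Fin r → M) (i : Fin r), prs τ (ii i) = τ i := by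
    intro M _ τ i
    rw [hii]
    unfold prs
    rw [if_pos rfl]
  have hpe : ∀ {M : Type} [AddCommGroup M] (τ : Fin r → M) (e : Pr r), e.1.1 ≠ e.1.2 →
      prs τ e = τ e.1.1 - τ e.1.2 := by
    intro M _ τ e he
    unfold prs
    rw [if_neg he]
  have h2 : ∀ i, IsPointForm d a b (w' (ii i)) (x (ii i)) (y (ii i)) (w (ii i)) (κ • P i) := by
    intro i
    have h3 := h (ii i)
    rwa [hpi] at h3
  have k1 := fun i => spec_nsmul_fin ha hb hΔ hκ (hne i) (hS i) (h2 i)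
  choose T1 hT1 k1 using k1
  have k2 : ∀ e : Pr r, ∃ T : Set ℚ, T.Finite ∧ ∀ t ∉ T, e.1.1 ≠ e.1.2 →
      ∀ Q1 Q2 Q3 : (curve (eval (pair t) a) (eval (pair t) b)).Point,
        IsRep _ _ (eval (pair t) (x (ii e.1.1))) (eval (pair t) (y (ii e.1.1)))
          (eval (pair t) (w (ii e.1.1))) Q1 →
        IsRep _ _ (eval (pair t) (x (ii e.1.2))) (eval (pair t) (y (ii e.1.2)))
          (eval (pair t) (w (ii e.1.2))) Q2 →
        IsRep _ _ (eval (pair t) (x e)) (eval (pair t) (y e)) (eval (pair t) (w e)) Q3 →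
          Q1 - Q2 = Q3 := by
    intro e
    by_cases he : e.1.1 = e.1.2
    · exact ⟨∅, Set.finite_empty, fun t _ h3 => absurd he h3⟩
    · have h3 := h e
      rw [hpe _ e he] at h3
      obtain ⟨T, hT, h4⟩ := spec_sub_fin ha hb hΔ (h2 e.1.1) (h2 e.1.2) h3
      exact ⟨T, hT, fun t ht _ => h4 t ht⟩
  choose T2 hT2 k2 using k2
  have hD : (4 * a ^ 3 + 27 * b ^ 2).IsHomogeneous (12 * d) := by
    have g1 := (isHomogeneous_C (Fin 2) (4 : ℤ)).mul (ha.pow 3)
    have g2 := (isHomogeneous_C (Fin 2) (27 : ℤ)).mul (hb.pow 2)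
    have e1 : 0 + 4 * d * 3 = 12 * d := by ring
    have e2 : 0 + 6 * d * 2 = 12 * d := by ring
    rw [e1] at g1
    rw [e2] at g2
    have e3 : (C 4 : MvPolynomial (Fin 2) ℤ) = 4 := map_ofNat C 4
    have e4 : (C 27 : MvPolynomial (Fin 2) ℤ) = 27 := map_ofNat C 27
    rw [e3] at g1
    rw [e4] at g2
    exact g1.add g2
  refine ⟨{t : ℚ | eval (pair t) (4 * a ^ 3 + 27 * b ^ 2) = 0} ∪
    (⋃ i, {t : ℚ | eval (pair t) (W i) = 0}) ∪ (⋃ e, {t : ℚ | eval (pair t) (w e) = 0}) ∪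
    (⋃ i, T1 i) ∪ ⋃ e, T2 e, ?_, ?_⟩
  · exact ((((spec_zero_fin hD hΔ).union
      (Set.finite_iUnion fun i => spec_zero_fin (hS i).homW (hS i).W_ne)).union
      (Set.finite_iUnion fun e => spec_zero_fin (h e).homW (h e).W_ne)).union
      (Set.finite_iUnion hT1)).union (Set.finite_iUnion hT2)
  · intro t ht
    simp only [Set.mem_union, Set.mem_iUnion, Set.mem_ofPred_eq, not_or, not_exists] at ht
    obtain ⟨⟨⟨⟨t1, t2⟩, t3⟩, t4⟩, t5⟩ := ht
    refine ⟨t1, t2, t3, fun A hA => ?_⟩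
    have hQ : ∀ e, ∃ Q : (curve (eval (pair t) a) (eval (pair t) b)).Point,
        IsRep (eval (pair t) a) (eval (pair t) b) (eval (pair t) (x e)) (eval (pair t) (y e))
          (eval (pair t) (w e)) Q := by
      intro e
      have h3 : G.PRep (n := 2) (α := algebraMap (MvPolynomial (Fin 2) ℤ) (G.RF 2) a)
          (β := algebraMap (MvPolynomial (Fin 2) ℤ) (G.RF 2) b) (x e) (y e) (w e)
          (prs (fun i => κ • P i) e) := ⟨(h e).W_ne, (h e).point⟩
      have h4 := h3.nonsing (t3 e) t1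
      exact ⟨.some _ _ h4, t3 e, h4, rfl⟩
    choose Q hQ using hQ
    have h3 : ∀ i, κ • A i = Q (ii i) := fun i => k1 i t (t4 i) (A i) (Q (ii i)) (hA i) (hQ (ii i))
    have h4 : ∀ e, prs (fun i => κ • A i) e = Q e := by
      intro e
      by_cases he : e.1.1 = e.1.2
      · have h5 : e = ii e.1.1 := by
          rw [hii]
          exact Subtype.ext (Prod.ext rfl he.symm)
        have h6 : prs (fun i => κ • A i) (ii e.1.1) = Q (ii e.1.1) := by
          rw [hpi, h3]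
        rwa [← h5] at h6
      · rw [hpe _ e he, h3, h3]
        exact k2 e t (t5 e) he _ _ _ (hQ _) (hQ _) (hQ e)
    intro e
    rw [h4 e]
    exact hQ e

end Pool.Agent.Lib.MP_3550b5_nt.SV
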