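import Mathlib
import Pool.Agent.Lib.MP_3550b5_nt.SV.FFib
import Pool.Agent.Lib.MP_3550b5_nt.SV.FSpec
import Pool.Agent.Lib.MP_3550b5_nt.SV.FForm
import Pool.Agent.Lib.MP_3550b5_nt.SV.EDisc
import Pool.Agent.Lib.MP_3550b5_nt.SV.FDiscX
import Pool.Agent.Lib.MP_3550b5_nt.SV.FDiscY

/-!
Project SV, part F: exceptional rational numbers on one disc.
-/

namespace Pool.Agent.Lib.MP_3550b5_nt.SV

open MvPolynomial

/-- The conclusion of `disc_main` for all discs: analytic functions `L e`, algebraically independent,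
whose values are the logarithms of the sigma function along the sections. -/
def DP (p : ℕ) [Fact p.Prime] {r : ℕ} (a b : Polynomial ℤ) (x y w : Pr r → Polynomial ℤ) : Prop :=
  ∀ (t0 g : ℤ_[p]), ‖g‖ < 1 → g ≠ 0 →
    IsUnit (4 * Polynomial.aeval t0 a ^ 3 + 27 * Polynomial.aeval t0 b ^ 2) →
    ∀ (c0 : ℤ_[p]) (W0 V0 Om0 S0 Z0 : PowerSeries ℤ_[p]),
      SD (Polynomial.aeval t0 a) (Polynomial.aeval t0 b) c0 W0 V0 Om0 S0 Z0 →
    ∀ γ : Pr r → ℕ, (∀ e, (p : ℤ_[p]) ^ (3 * γ e + 1) ∣ g) →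
      (∀ e, ∃ x0 y0 w0 : ℤ_[p], IsUnit x0 ∧ IsUnit y0 ∧
        Polynomial.aeval t0 (x e) = (p : ℤ_[p]) ^ (2 * γ e) * x0 ∧
        Polynomial.aeval t0 (y e) = (p : ℤ_[p]) ^ (3 * γ e) * y0 ∧
        Polynomial.aeval t0 (w e) = (p : ℤ_[p]) ^ (γ e + 1) * w0) →
    ∃ L : Pr r → PowerSeries ℤ_[p],
      AlgebraicIndependent ℚ_[p] (fun e => (L e).map (PadicInt.Coe.ringHom (p := p))) ∧
      ∀ s : ℤ_[p], ‖s‖ < 1 → ∃ (c : ℤ_[p]) (W V Om S Z : PowerSeries ℤ_[p]),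
        SD (Polynomial.aeval (t0 + g * s) a) (Polynomial.aeval (t0 + g * s) b) c W V Om S Z ∧
        ∀ (e : Pr r) (xt yt wt yi : ℤ_[p]),
          Polynomial.aeval (t0 + g * s) (x e) = (p : ℤ_[p]) ^ (2 * γ e) * xt →
          Polynomial.aeval (t0 + g * s) (y e) = (p : ℤ_[p]) ^ (3 * γ e) * yt →
          Polynomial.aeval (t0 + g * s) (w e) = (p : ℤ_[p]) ^ γ e * wt → yt * yi = 1 →
          ((ev (L e) s : ℤ_[p]) : ℚ_[p]) = ulog (-(xt * yi * ev S (-(xt * wt * yi))))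

private lemma fdisc_nsmul_prs {r : ℕ} {M : Type*} [AddCommGroup M] (n : ℕ) (P : Fin r → M)
    (e : Pr r) : n • prs P e = prs (fun i => n • P i) e := by
  unfold prs
  split_ifs
  · rfl
  · rw [nsmul_sub]

private lemma fdisc_indep {r : ℕ} {M : Type*} [AddCommGroup M] {P : Fin r → M}
    (hP : LinearIndependent ℤ P) {κ : ℕ} (hκ : 1 ≤ κ) :
    LinearIndependent ℤ (fun i => κ • P i) := by
  rw [linearIndependent_iff'] at hP ⊢
  intro s g hg i hi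
  have h1 : ∑ i ∈ s, (g i * (κ : ℤ)) • P i = 0 := by
    rw [← hg]
    refine Finset.sum_congr rfl fun j _ => ?_
    rw [mul_smul, natCast_zsmul]
  have h2 := hP s (fun i => g i * (κ : ℤ)) h1 i hi
  exact (mul_eq_zero.1 h2).resolve_right (by exact_mod_cast (by omega : κ ≠ 0))

variable [DecidableEq (FractionRing (MvPolynomial (Fin 2) ℤ))]

/-- PROOF. `exists_RF1`, `exists_one`, `hmin_one`, `k1_one`, `disc_main` (`dehom (w e) ≠ 0` as `w e`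
is a nonzero form). -/
theorem dp_global {p : ℕ} [Fact p.Prime] (hp5 : 5 ≤ p) {r d : ℕ} (hd : 1 ≤ d)
    {a b : MvPolynomial (Fin 2) ℤ} (ha : a.IsHomogeneous (4 * d)) (hb : b.IsHomogeneous (6 * d))
    (hΔ : 4 * a ^ 3 + 27 * b ^ 2 ≠ 0)
    (hmin : ∀ F : MvPolynomial (Fin 2) ℚ, F ^ 4 ∣ a.map (Int.castRingHom ℚ) →
      F ^ 6 ∣ b.map (Int.castRingHom ℚ) → IsUnit F)
    (hj : ∀ c e : ℤ, C c * a ^ 3 = C e * b ^ 2 → c = 0 ∧ e = 0)
    {P' : Fin r → (genericCurve a b).Point} (hP' : LinearIndependent ℤ P') {w' : Pr r → ℕ}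
    {x y w : Pr r → MvPolynomial (Fin 2) ℤ}
    (h : ∀ e, IsPointForm d a b (w' e) (x e) (y e) (w e) (prs P' e)) :
    DP p (dehom a) (dehom b) (fun e => dehom (x e)) (fun e => dehom (y e))
      (fun e => dehom (w e)) := by
  obtain ⟨F₀, iF, iC, φ₀, D₀, h0⟩ := exists_RF1
  let _ : DecidableEq F₀ := Classical.decEq F₀
  obtain ⟨ha1, hb1, hm1, hm2⟩ := hmin_one ha hb hmin
  have hk := k1_one h0 ha hb hΔ hj
  obtain ⟨P1, hP1, hxy⟩ := exists_one h0 ha hb hΔ hP' h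
  intro t0 g hg hg0 hU c0 W0 V0 Om0 S0 Z0 hsd γ hγ hx
  exact disc_main hp5 h0 hd ha1 hb1 hk hm1 hm2 P1 hP1
    (fun e => dehom_ne (h e).homW (h e).W_ne) hxy hg hg0 hU hsd γ hγ hx

/-- All the global data for a prime `p` and a bound `B`. -/
structure SVD (p : ℕ) [Fact p.Prime] (B r d : ℕ) (a b : MvPolynomial (Fin 2) ℤ)
    (X Y W : Fin r → MvPolynomial (Fin 2) ℤ) (𝓛 : Finset ℕ) (κ : ℕ) (w' : Pr r → ℕ)
    (x y w : Pr r → MvPolynomial (Fin 2) ℤ) (R : ℤ) (T : Set ℚ) : Prop where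
  ha : a.IsHomogeneous (4 * d)
  hb : b.IsHomogeneous (6 * d)
  sec : ∀ e, SecForm d a b (w' e) (x e) (y e) (w e)
  R_ne : R ≠ 0
  com : ∀ e, ∀ z : Fin 2 → ℤ, IsCoprime (z 0) (z 1) → ∀ D : ℤ, D ∣ 2 * eval z (y e) →
    D ∣ 3 * eval z (x e) ^ 2 + eval z a * eval z (w e) ^ 4 → D ∣ R
  fin : T.Finite
  disc : ∀ t ∉ T, eval (pair t) (4 * a ^ 3 + 27 * b ^ 2) ≠ 0
  den : ∀ t ∉ T, ∀ i, eval (pair t) (W i) ≠ 0
  eqn : ∀ i, Y i ^ 2 = X i ^ 3 + a * X i * W i ^ 4 + b * W i ^ 6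
  κ_ne : 1 ≤ κ
  reps : ∀ t ∉ T, (∀ l ∈ 𝓛, ¬ (l : ℤ) ^ B ∣ eval (pair t) (4 * a ^ 3 + 27 * b ^ 2)) →
    GoodOrdinary p (eval (pair t) a) (eval (pair t) b) →
    ∀ A : Fin r → (curve (eval (pair t) a) (eval (pair t) b)).Point,
      (∀ i, IsRep _ _ (eval (pair t) (X i)) (eval (pair t) (Y i)) (eval (pair t) (W i)) (A i)) →
      ∀ e, IsRep _ _ (eval (pair t) (x e)) (eval (pair t) (y e)) (eval (pair t) (w e))
          (prs (fun i => κ • A i) e) ∧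
        ∃ A₁ B₁ D₁ : ℤ, IsRep _ _ A₁ B₁ D₁ (prs (fun i => κ • A i) e) ∧
          IsCoprime (2 * B₁) (3 * A₁ ^ 2 + eval (pair t) a * D₁ ^ 4) ∧ (p : ℤ) ∣ D₁
  dp : DP p (dehom a) (dehom b) (fun e => dehom (x e)) (fun e => dehom (y e))
    (fun e => dehom (w e))

/-- EXISTENCE of the global data. PROOF. `exists_forms` gives `m`; `M = 1`: forms for
`prs (m • P)` with common bounds (`SecForm.common`), `R₀` their product over `e`,
`𝓛 = R₀.natAbs.primeFactors`. Given `p`, `B`: `M = (2p+1)! ∏_(l ∈ 𝓛) (l^(2(B+2)) + 1)!`,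
`κ = M m`, forms `x, y, w` for `M`, `R` the product of their common bounds, `T` the union of the
two sets of `spec_all` (for `1 * m` and `M * m`). `reps`: at `t ∉ T`, `prs (m • A) e` has the
representation by the forms of level `m`, `prs (κ • A) e = M • prs (m • A) e` (cases of `prs`), is
not zero as it has a representation (`IsRep` is a point `some`), so `good_mult` applies
(`pair_coprime`). `eqn` from `IsPointForm` (`PRep.eqn`). `dp_global` for `P' = κ • P`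
(linearly independent). -/
theorem exists_SVD {r d : ℕ} (hd : 1 ≤ d) {a b : MvPolynomial (Fin 2) ℤ}
    (ha : a.IsHomogeneous (4 * d)) (hb : b.IsHomogeneous (6 * d))
    (hΔ : 4 * a ^ 3 + 27 * b ^ 2 ≠ 0)
    (hmin : ∀ F : MvPolynomial (Fin 2) ℚ, F ^ 4 ∣ a.map (Int.castRingHom ℚ) →
      F ^ 6 ∣ b.map (Int.castRingHom ℚ) → IsUnit F)
    (hj : ∀ c e : ℤ, C c * a ^ 3 = C e * b ^ 2 → c = 0 ∧ e = 0)
    {P : Fin r → (genericCurve a b).Point} (hP : LinearIndependent ℤ P) {v : Fin r → ℕ}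
    {X Y W : Fin r → MvPolynomial (Fin 2) ℤ}
    (hS : ∀ i, IsPointForm d a b (v i) (X i) (Y i) (W i) (P i)) :
    ∃ 𝓛 : Finset ℕ, (∀ l ∈ 𝓛, l.Prime) ∧ ∀ (p : ℕ) [Fact p.Prime], 5 ≤ p → ∀ B : ℕ,
      ∃ (κ : ℕ) (w' : Pr r → ℕ) (x y w : Pr r → MvPolynomial (Fin 2) ℤ) (R : ℤ) (T : Set ℚ),
        SVD p B r d a b X Y W 𝓛 κ w' x y w R T := by
  classical
  obtain ⟨m, hm, hf⟩ := exists_forms hd ha hb hΔ hmin hP hS
  obtain ⟨w1, x1, y1, z1, h1⟩ := hf 1 le_rfl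
  choose R1 hR1 hc1 using fun e => (h1 e).2.common ha
  have hR0 : ∏ e, R1 e ≠ 0 := Finset.prod_ne_zero_iff.2 fun e _ => hR1 e
  obtain ⟨R₀, hR₀⟩ : ∃ R₀ : ℤ, R₀ = ∏ e, R1 e := ⟨_, rfl⟩
  rw [← hR₀] at hR0
  refine ⟨R₀.natAbs.primeFactors, fun l hl => Nat.prime_of_mem_primeFactors hl, ?_⟩
  intro p _ hp5 B
  obtain ⟨M, hM⟩ : ∃ M : ℕ, M = (2 * p + 1).factorial *
      ∏ l ∈ R₀.natAbs.primeFactors, (l ^ (2 * (B + 2)) + 1).factorial := ⟨_, rfl⟩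
  have hM1 : 1 ≤ M := by
    rw [hM]
    exact Nat.mul_pos (Nat.factorial_pos _) (Finset.prod_pos fun l _ => Nat.factorial_pos _)
  obtain ⟨w', x, y, w, h2⟩ := hf M hM1
  choose R2 hR2 hc2 using fun e => (h2 e).2.common ha
  have hκ : 1 ≤ M * m := Nat.mul_pos hM1 hm
  obtain ⟨T1, hT1, hs1⟩ := spec_all ha hb hΔ hP hS (κ := 1 * m) (by omega) (fun e => (h1 e).1)
  obtain ⟨T2, hT2, hs2⟩ := spec_all ha hb hΔ hP hS (κ := M * m) hκ (fun e => (h2 e).1)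
  refine ⟨M * m, w', x, y, w, ∏ e, R2 e, T1 ∪ T2, ?_⟩
  exact {
    ha := ha
    hb := hb
    sec := fun e => (h2 e).2
    R_ne := Finset.prod_ne_zero_iff.2 fun e _ => hR2 e
    com := fun e z hz D hD1 hD2 =>
      (hc2 e z hz D hD1 hD2).trans (Finset.dvd_prod_of_mem R2 (Finset.mem_univ e))
    fin := hT1.union hT2
    disc := fun t ht => (hs2 t fun h => ht (Or.inr h)).1
    den := fun t ht => (hs2 t fun h => ht (Or.inr h)).2.1
    eqn := fun i => by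
      have h3 : G.PRep (n := 2) (α := algebraMap _ _ a) (β := algebraMap _ _ b) (X i) (Y i) (W i)
        (P i) := ⟨(hS i).W_ne, (hS i).point⟩
      exact h3.eqn
    κ_ne := hκ
    reps := by
      intro t ht hB hord A hA e
      have q1 := (hs1 t fun h => ht (Or.inl h)).2.2.2 A hA e
      have q2 := (hs2 t fun h => ht (Or.inr h)).2.2.2 A hA e
      refine ⟨q2, ?_⟩
      have q3 : M • prs (fun i => (1 * m) • A i) e = prs (fun i => (M * m) • A i) e := by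
        rw [fdisc_nsmul_prs]
        congr 1
        funext i
        rw [one_mul, mul_smul]
      have hev : eval (pair t) (4 * a ^ 3 + 27 * b ^ 2) =
          4 * eval (pair t) a ^ 3 + 27 * eval (pair t) b ^ 2 := by
        simp
      rw [← q3]
      refine good_mult hp5 q1 ?_ (𝓛 := R₀.natAbs.primeFactors) (B0 := B) ?_ ?_ hM1 ?_ ?_ ?_
      · exact hord.1
      · intro l hl hl1 hl2
        have h3 := hc1 e (pair t) (pair_coprime t) l hl1 hl2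
        have h4 : (l : ℤ) ∣ R₀ := by
          rw [hR₀]
          exact h3.trans (Finset.dvd_prod_of_mem R1 (Finset.mem_univ e))
        exact Nat.mem_primeFactors.2 ⟨hl, Int.natCast_dvd.1 h4, Int.natAbs_ne_zero.2 hR0⟩
      · intro l hl
        rw [← hev]
        exact hB l hl
      · intro l hl n hn1 hn2
        rw [hM]
        exact Dvd.dvd.mul_left ((Nat.dvd_factorial hn1 hn2).trans
          (Finset.dvd_prod_of_mem (fun l => (l ^ (2 * (B + 2)) + 1).factorial) hl)) _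
      · intro n hn1 hn2
        rw [hM]
        exact Dvd.dvd.mul_right (Nat.dvd_factorial hn1 hn2) _
      · rw [q3]
        obtain ⟨-, h3, h4⟩ := q2
        rw [h4]
        exact WeierstrassCurve.Affine.Point.some_ne_zero _
    dp := dp_global hp5 hd ha hb hΔ hmin hj (fdisc_indep hP hκ) (fun e => (h2 e).1) }

omit [DecidableEq (FractionRing (MvPolynomial (Fin 2) ℤ))]

variable {p : ℕ} [hp : Fact p.Prime] {B r d : ℕ} {a b : MvPolynomial (Fin 2) ℤ}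
  {X Y W : Fin r → MvPolynomial (Fin 2) ℤ} {𝓛 : Finset ℕ} {κ : ℕ} {w' : Pr r → ℕ}
  {x y w : Pr r → MvPolynomial (Fin 2) ℤ} {R : ℤ} {T : Set ℚ}

/-- `t` is exceptional for `v`, `K`. -/
def Gd (p : ℕ) [Fact p.Prime] (B : ℕ) {r : ℕ} (a b : MvPolynomial (Fin 2) ℤ)
    (X Y W : Fin r → MvPolynomial (Fin 2) ℤ) (𝓛 : Finset ℕ) (T : Set ℚ) (v : ℚ_[p]) (K : ℕ)
    (t : ℚ) : Prop :=
  t ∉ T ∧ ¬ p ∣ t.den ∧ (∀ l ∈ 𝓛, ¬ (l : ℤ) ^ B ∣ eval (pair t) (4 * a ^ 3 + 27 * b ^ 2)) ∧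
    FibreNear p v K a b X Y W t

/-- An exceptional `t`. PROOF. `FibreNear` (`formVal F t = eval (pair t) F` by definition); the
values of the sections are points (`den`, `disc`, `eqn`, `nonsing_of_disc`); as in
`fibre_cases` (SFinal2.lean), in the second case of `FibreNear` `regulator_le_of_basis`. -/
theorem SVD.unpack (h : SVD p B r d a b X Y W 𝓛 κ w' x y w R T) {v : ℚ_[p]} {K : ℕ} {t : ℚ}
    (ht : Gd p B a b X Y W 𝓛 T v K t) :
    GoodOrdinary p (eval (pair t) a) (eval (pair t) b) ∧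
    ∃ (Bh : (curve (eval (pair t) a) (eval (pair t) b)).Point →
        (curve (eval (pair t) a) (eval (pair t) b)).Point → ℚ_[p])
      (A : Fin r → (curve (eval (pair t) a) (eval (pair t) b)).Point),
      IsCanonicalHeight p (eval (pair t) a) (eval (pair t) b) Bh ∧
      (∀ i, IsRep _ _ (eval (pair t) (X i)) (eval (pair t) (Y i)) (eval (pair t) (W i)) (A i)) ∧
      ‖regulator Bh A - v‖ ≤ (p : ℝ) ^ (-(K : ℤ)) := by
  obtain ⟨hT, -, -, hord, Bh, Q, hB, hcase⟩ := ht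
  have hord' : GoodOrdinary p (eval (pair t) a) (eval (pair t) b) := hord
  have hΔ := disc_ne_of_good hord'
  have hns : ∀ i, (curve (eval (pair t) a) (eval (pair t) b)).Nonsingular
      (((eval (pair t) (X i) : ℤ) : ℚ) / ((eval (pair t) (W i) : ℤ) : ℚ) ^ 2)
      (((eval (pair t) (Y i) : ℤ) : ℚ) / ((eval (pair t) (W i) : ℤ) : ℚ) ^ 3) := by
    intro i
    apply nonsing_of_disc (h.den t hT i) _ hΔ
    have h1 := congrArg (eval (pair t)) (h.eqn i)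
    simpa only [map_pow, map_add, map_mul] using h1
  rcases hcase with ⟨hval, hreg⟩ | ⟨hv, hMW, hreg⟩
  · refine ⟨hord', Bh, Q, hB, fun i => ?_, hreg⟩
    rcases hval i with ⟨h0, -⟩ | ⟨-, hh, he⟩
    · exact absurd h0 (h.den t hT i)
    · exact ⟨h.den t hT i, hh, he⟩
  · refine ⟨hord', Bh, fun i => .some _ _ (hns i), hB, fun i => ⟨h.den t hT i, hns i, rfl⟩, ?_⟩
    rw [hv, sub_zero]
    exact (regulator_le_of_basis hB hMW _).trans hreg

/-- ONE DISC. PROOF. Let `τ₀` be the `p`-adic integer of `t₀` (`exists_tau`), `g = p^j`. `unpack`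
for `t₀`: `reps`, `rep_comp`, `norm_form` give `γ e` with `p^(3 γ e) ∣ G^3 ∣ R`, so `3 γ e < j`. The
sigma function of the fibre at `t₀` (`hB.formula`, `sigmaData_of_sigma`), scaled by `u = den⁻ᵈ` (the
inverse in `ℤ_[p]`; `SD.scale`), gives `SD` at `τ₀` (`eval_pair`); the discriminant is a unit.
`h.dp` gives `L`; `gram_disc` gives `lam`, `A`. Let `t` be exceptional for `v`, `K`,
`den t = n₀`, congruent to `t₀` modulo `p^(j+1)`: `τ = τ₀ + g s` with `p ∣ s`; `h.dp` at `s` gives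
`SD` at `τ`; `disc_transfer`, `fibre_ht` for `Q = prs (κ • A) e`: `B(Q,Q) = ev (L e) s + κ' e` with
`κ' e = ulog G' - (d + w' e) ulog n₀`, `G' ∣ R`. `reg_gram`, `regulator_nsmul`:
`‖(gram ..).det - κ^(2r) v‖ ≤ p^-K`. For a fixed vector `(G' e)` (at most `(2|R|+1)^(#Pr)` of them)
the constants do not depend on `t`, and `gram_disc` bounds the number of the `t ∈ T'` with this
vector by `lam`: if `t ≠ t'` in `T'`, `s - s' = (num - num')/(n₀ g)` has norm `> p^-e` because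
`p^(j+e) ∤ num - num'` (`n₀` is a unit). So `T'.card ≤ lam (2|R|+1)^(#Pr)`. -/
theorem SVD.disc_count (h : SVD p B r d a b X Y W 𝓛 κ w' x y w R T) (hp5 : 5 ≤ p) (hr : 1 ≤ r)
    {j : ℕ} (hj1 : 1 ≤ j) (hj : ∀ γ : ℕ, (p : ℤ) ^ γ ∣ R → γ < j) {t₀ : ℚ} {v₀ : ℚ_[p]} {K₀ : ℕ}
    (h0 : Gd p B a b X Y W 𝓛 T v₀ K₀ t₀) :
    ∃ lam A : ℕ, ∀ (v : ℚ_[p]) (K n₀ e : ℕ), A + lam * e ≤ K → ∀ T' : Finset ℚ,
      (∀ t ∈ T', Gd p B a b X Y W 𝓛 T v K t ∧ t.den = n₀ ∧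
        (p : ℤ) ^ (j + 1) ∣ t.num * t₀.den - t₀.num * t.den) →
      (∀ t ∈ T', ∀ t' ∈ T', t ≠ t' → ¬ (p : ℤ) ^ (j + e) ∣ t.num - t'.num) →
      T'.card ≤ lam := by
  classical
  obtain ⟨hgo0, Bh0, A0, hB0, hrep0, -⟩ := h.unpack h0
  obtain ⟨hT0, hp0, hl0, -⟩ := h0
  obtain ⟨τ₀, hτ₀, hden₀⟩ := exists_tau (p := p) hp0
  have hr0 := h.reps t₀ hT0 hl0 hgo0 A0 hrep0
  have hc : ∀ e, ∃ γ : ℕ, 3 * γ < j ∧ ∃ x0 y0 w0 : ℤ_[p], IsUnit x0 ∧ IsUnit y0 ∧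
      Polynomial.aeval τ₀ (dehom (x e)) = (p : ℤ_[p]) ^ (2 * γ) * x0 ∧
      Polynomial.aeval τ₀ (dehom (y e)) = (p : ℤ_[p]) ^ (3 * γ) * y0 ∧
      Polynomial.aeval τ₀ (dehom (w e)) = (p : ℤ_[p]) ^ (γ + 1) * w0 := by
    intro e
    obtain ⟨hQ, A₁, B₁, D₁, h1, hcop, hpD⟩ := hr0 e
    exact fdisc_centre (h.sec e) hτ₀ hden₀ hQ h1 hcop hpD
      (h.com e (pair t₀) (pair_coprime t₀)) hj
  choose γ hγj hγ using hc
  have hγd : ∀ e, (p : ℤ_[p]) ^ (3 * γ e + 1) ∣ (p : ℤ_[p]) ^ j := fun e =>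
    pow_dvd_pow _ (hγj e)
  obtain ⟨c0, W0, V0, Om0, S0, Z0, hSD0⟩ := fdisc_SD h.ha h.hb hτ₀ hden₀ hB0
  have hg1 : ‖(p : ℤ_[p]) ^ j‖ < 1 := by
    rw [norm_pow]
    exact pow_lt_one₀ (norm_nonneg _) (by rw [PadicInt.norm_p]; exact inv_p_lt_one) (by omega)
  have hg0 : (p : ℤ_[p]) ^ j ≠ 0 := pow_ne_zero _ (by exact_mod_cast hp.out.ne_zero)
  obtain ⟨L, hLi, hL⟩ := h.dp τ₀ ((p : ℤ_[p]) ^ j) hg1 hg0 (fdisc_unit h.ha h.hb hτ₀ hgo0)
    c0 W0 V0 Om0 S0 Z0 hSD0 γ hγd hγ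
  obtain ⟨lam, A, hA⟩ := gram_disc hr L hLi
  set F : Finset (Pr r → ℤ) := Fintype.piFinset (fun _ => Finset.Icc (-|R|) |R|) with hF
  have hF1 : 1 ≤ F.card := by
    refine Finset.card_pos.2 ⟨fun _ => 0, ?_⟩
    rw [hF, Fintype.mem_piFinset]
    intro _
    rw [Finset.mem_Icc]
    exact ⟨neg_nonpos.2 (abs_nonneg R), abs_nonneg R⟩
  refine ⟨lam * F.card, A, fun v K n₀ e hK T' hT' hsep => ?_⟩
  have hK' : A + lam * e ≤ K := by
    have h3 : lam * e ≤ lam * F.card * e :=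
      Nat.mul_le_mul_right _ (Nat.le_mul_of_pos_right _ hF1)
    omega
  have hdat : ∀ t ∈ T', ∃ (s : ℤ_[p]) (G' : Pr r → ℤ), ‖s‖ < 1 ∧
      (τ₀ + (p : ℤ_[p]) ^ j * s) * (t.den : ℤ_[p]) = (t.num : ℤ_[p]) ∧ (∀ e, G' e ∣ R) ∧
      ‖(gram (fun e => ((ev (L e) s : ℤ_[p]) : ℚ_[p]) + (ulog ((G' e : ℤ) : ℤ_[p]) -
        ((d + w' e : ℕ) : ℚ_[p]) * ulog (n₀ : ℤ_[p])))).det - (κ : ℚ_[p]) ^ (2 * r) * v‖ ≤
        (p : ℝ) ^ (-(K : ℤ)) := by
    intro t ht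
    obtain ⟨hgd, hn, hdv⟩ := hT' t ht
    obtain ⟨hgo, Bh, A1, hB, hrep, hreg⟩ := h.unpack hgd
    obtain ⟨htT, hpt, hlt, -⟩ := hgd
    obtain ⟨τ, hτ, hden⟩ := exists_tau (p := p) hpt
    obtain ⟨s, hs1, hs⟩ := fdisc_s hτ hden hτ₀ hden₀ hdv
    subst hs
    obtain ⟨c, W, V, Om, S, Z, hSD, hval⟩ := hL s hs1
    obtain ⟨G', hG, hres⟩ := fdisc_value hp5 h.ha h.hb h.sec hτ hden
      (h.reps t htT hlt hgo A1 hrep) hgo hB hreg (fun e => h.com e (pair t) (pair_coprime t))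
      hSD (L := fun e => ev (L e) s) (γ := γ) hval (fun e => disc_transfer (hγd e) (hγ e))
    exact ⟨s, G', hs1, hτ, hG, by rw [← hn]; exact hres⟩
  choose! s G' hs1 hτs hG hval using hdat
  refine Finset.card_le_mul_card_image_of_maps_to (f := G') (t := F) ?_ lam ?_
  · intro t ht
    rw [hF, Fintype.mem_piFinset]
    intro e
    have h1 : |G' t e| ≤ |R| := by
      have h2 := Int.le_of_dvd (abs_pos.2 h.R_ne) ((dvd_abs _ _).2 (hG t ht e))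
      have h3 := Int.le_of_dvd (abs_pos.2 h.R_ne) ((dvd_abs _ _).2 (neg_dvd.2 (hG t ht e)))
      exact abs_le.2 ⟨by omega, h2⟩
    rw [Finset.mem_Icc]
    exact abs_le.1 h1
  · intro vec _
    have hsp : ∀ t ∈ T'.filter (fun t => G' t = vec), ∀ t' ∈ T'.filter (fun t => G' t = vec),
        t ≠ t' → (p : ℝ) ^ (-(e : ℤ)) < ‖s t - s t'‖ := by
      intro t ht t' ht' hne
      rw [Finset.mem_filter] at ht ht'
      exact fdisc_sep (hτs t ht.1) (hτs t' ht'.1)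
        (by rw [(hT' t ht.1).2.1, (hT' t' ht'.1).2.1]) rfl rfl (hsep t ht.1 t' ht'.1 hne)
    have hinj : Set.InjOn s (T'.filter (fun t => G' t = vec)) := by
      intro t ht t' ht' heq
      by_contra hne
      have h1 := hsp t (Finset.mem_coe.1 ht) t' (Finset.mem_coe.1 ht') hne
      rw [heq, sub_self, norm_zero] at h1
      exact absurd h1 (not_lt.2 (zpow_nonneg (Nat.cast_nonneg p) _))
    rw [← Finset.card_image_of_injOn hinj]
    refine hA (fun e => ulog ((vec e : ℤ) : ℤ_[p]) -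
        ((d + w' e : ℕ) : ℚ_[p]) * ulog (n₀ : ℤ_[p])) ((κ : ℚ_[p]) ^ (2 * r) * v) e K hK' _ ?_ ?_ ?_
    · intro s' hs'
      obtain ⟨t, ht, rfl⟩ := Finset.mem_image.1 hs'
      exact hs1 t (Finset.mem_filter.1 ht).1
    · intro s' hs' s'' hs'' hne
      obtain ⟨t, ht, rfl⟩ := Finset.mem_image.1 hs'
      obtain ⟨t', ht', rfl⟩ := Finset.mem_image.1 hs''
      exact hsp t ht t' ht' (fun he => hne (by rw [he]))
    · intro s' hs'
      obtain ⟨t, ht, rfl⟩ := Finset.mem_image.1 hs'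
      have h1 := hval t (Finset.mem_filter.1 ht).1
      rw [(Finset.mem_filter.1 ht).2] at h1
      exact h1

end Pool.Agent.Lib.MP_3550b5_nt.SV
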