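import Mathlib
import Pool.Agent.Lib.MP_3550b5_nt.SV.FCnt
import Pool.Agent.Lib.MP_3550b5_nt.SV.FDisc

/-!
Project SV: the final theorem.
-/

namespace Pool.Agent.Lib.MP_3550b5_nt.SV

open MvPolynomial

section
variable {p : ℕ} [hp : Fact p.Prime] {B r d : ℕ} {a b : MvPolynomial (Fin 2) ℤ}
  {X Y W : Fin r → MvPolynomial (Fin 2) ℤ} {𝓛 : Finset ℕ} {κ : ℕ} {w' : Pr r → ℕ}
  {x y w : Pr r → MvPolynomial (Fin 2) ℤ} {R : ℤ} {T : Set ℚ}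

/-- One class modulo `p^(j+1)`. -/
theorem SVD.cls_cover (h : SVD p B r d a b X Y W 𝓛 κ w' x y w R T) (hp5 : 5 ≤ p) (hr : 1 ≤ r)
    {j : ℕ} (hj1 : 1 ≤ j) (hj : ∀ γ : ℕ, (p : ℤ) ^ γ ∣ R → γ < j) (ζ : ZMod (p ^ (j + 1))) :
    ∃ C : ℕ, ∀ (v : ℚ_[p]) (K e n : ℕ), C * e ≤ K → ∃ A : Finset ℤ, A.card ≤ C ∧
      ∀ t : ℚ, Gd p B a b X Y W 𝓛 T v K t ∧ t.den = n ∧ cls p j t = ζ →
        ∃ m ∈ A, (p : ℤ) ^ e ∣ t.num - m := by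
  classical
  by_cases hex : ∃ (t₀ : ℚ) (v₀ : ℚ_[p]) (K₀ : ℕ), Gd p B a b X Y W 𝓛 T v₀ K₀ t₀ ∧
      cls p j t₀ = ζ
  · obtain ⟨t₀, v₀, K₀, h0, hζ⟩ := hex
    obtain ⟨lam, A, H⟩ := h.disc_count hp5 hr hj1 hj h0
    refine ⟨A + lam + 1, fun v K e n hK => ?_⟩
    rcases Nat.eq_zero_or_pos e with he | he
    · subst he
      refine ⟨{0}, ?_, fun t _ => ⟨0, Finset.mem_singleton_self _, ?_⟩⟩
      · rw [Finset.card_singleton]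
        omega
      · rw [pow_zero]
        exact one_dvd _
    · have hK' : A + lam * e ≤ K := by nlinarith
      have hpe : 0 < p ^ e := Nat.pow_pos hp.out.pos
      obtain ⟨A', hA', hc⟩ := exists_cover
        (fun t : ℚ => Gd p B a b X Y W 𝓛 T v K t ∧ t.den = n ∧ cls p j t = ζ)
        (fun t => t.num) (m := p ^ e) (lam := lam) hpe (by
          intro T' hT' hd
          apply H v K n e hK' T'
          · intro t ht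
            obtain ⟨h1, h2, h3⟩ := hT' t ht
            exact ⟨h1, h2, cls_dvd hp.out h1.2.1 h0.2.1 (h3.trans hζ.symm)⟩
          · intro t ht t' ht' hne hdv
            apply hd t ht t' ht' hne
            push_cast
            exact (pow_dvd_pow _ (Nat.le_add_left e j)).trans hdv)
      refine ⟨A', by omega, fun t ht => ?_⟩
      obtain ⟨m, hm, hd⟩ := hc t ht
      exact ⟨m, hm, by exact_mod_cast hd⟩
  · refine ⟨0, fun v K e n _ => ⟨∅, le_rfl, fun t ht => ?_⟩⟩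
    exact absurd ⟨t, v, K, ht.1, ht.2.2⟩ hex

/-- All classes. -/
theorem SVD.all_cover (h : SVD p B r d a b X Y W 𝓛 κ w' x y w R T) (hp5 : 5 ≤ p)
    (hr : 1 ≤ r) : ∃ C : ℕ, ∀ (v : ℚ_[p]) (K e n : ℕ), C * e ≤ K →
      ∃ A : Finset ℤ, A.card ≤ C ∧ ∀ t : ℚ, Gd p B a b X Y W 𝓛 T v K t ∧ t.den = n →
        ∃ m ∈ A, (p : ℤ) ^ e ∣ t.num - m := by
  classical
  have hj : ∀ γ : ℕ, (p : ℤ) ^ γ ∣ R → γ < R.natAbs + 1 := by
    intro γ hγ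
    have h1 := Int.le_of_dvd (Int.natCast_pos.mpr (Int.natAbs_pos.mpr h.R_ne))
      (Int.dvd_natAbs.mpr hγ)
    have h2 : p ^ γ ≤ R.natAbs := by exact_mod_cast h1
    have h3 : γ < p ^ γ := Nat.lt_pow_self hp.out.one_lt
    omega
  have hpj : NeZero (p ^ (R.natAbs + 1 + 1)) := ⟨(Nat.pow_pos hp.out.pos).ne'⟩
  choose Cf hC using fun ζ => h.cls_cover hp5 hr (j := R.natAbs + 1) (by omega) hj ζ
  refine ⟨∑ ζ, Cf ζ, fun v K e n hK => ?_⟩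
  have hle : ∀ ζ, Cf ζ * e ≤ K := fun ζ => (Nat.mul_le_mul_right e
    (Finset.single_le_sum (f := Cf) (fun _ _ => Nat.zero_le _) (Finset.mem_univ ζ))).trans hK
  choose Af hA1 hA2 using fun ζ => hC ζ v K e n (hle ζ)
  refine ⟨Finset.univ.biUnion Af, Finset.card_biUnion_le.trans
    (Finset.sum_le_sum fun ζ _ => hA1 ζ), fun t ht => ?_⟩
  obtain ⟨m, hm, hd⟩ := hA2 (cls p (R.natAbs + 1) t) t ⟨ht.1, ht.2, rfl⟩
  exact ⟨m, Finset.mem_biUnion.mpr ⟨_, Finset.mem_univ _, hm⟩, hd⟩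

end

/-- THE THEOREM. -/
theorem sv_main [DecidableEq (FractionRing (MvPolynomial (Fin 2) ℤ))] {r d : ℕ} (hr : 1 ≤ r)
    (hd : 1 ≤ d) {a b : MvPolynomial (Fin 2) ℤ}
    (ha : a.IsHomogeneous (4 * d)) (hb : b.IsHomogeneous (6 * d))
    (hΔ : 4 * a ^ 3 + 27 * b ^ 2 ≠ 0)
    (hmin : ∀ F : MvPolynomial (Fin 2) ℚ, F ^ 4 ∣ a.map (Int.castRingHom ℚ) →
      F ^ 6 ∣ b.map (Int.castRingHom ℚ) → IsUnit F)
    (hj : ∀ c e : ℤ, C c * a ^ 3 = C e * b ^ 2 → c = 0 ∧ e = 0)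
    {P : Fin r → (genericCurve a b).Point} (hP : LinearIndependent ℤ P) {w : Fin r → ℕ}
    {X Y W : Fin r → MvPolynomial (Fin 2) ℤ}
    (hS : ∀ i, IsPointForm d a b (w i) (X i) (Y i) (W i) (P i)) :
    ∃ 𝓛 : Finset ℕ, (∀ l ∈ 𝓛, l.Prime) ∧ ∀ (p : ℕ) [Fact p.Prime], 5 ≤ p → ∀ B : ℕ, ∃ C : ℕ,
      (∀ (v : ℚ_[p]) (e n : ℕ), ¬ p ∣ n → ∃ A : Finset ℤ, A.card ≤ C ∧
        ∀ t : ℚ, t.den = n → (∀ l ∈ 𝓛, ¬ (l : ℤ) ^ B ∣ formVal (4 * a ^ 3 + 27 * b ^ 2) t) →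
          FibreNear p v (C * e) a b X Y W t → ∃ m ∈ A, (p : ℤ) ^ e ∣ t.num - m) ∧
      ∀ (v : ℚ_[p]) (n : ℕ), ¬ p ∣ n → ∀ E : Finset ℚ,
        (∀ t ∈ E, t.den = n ∧ (∀ l ∈ 𝓛, ¬ (l : ℤ) ^ B ∣ formVal (4 * a ^ 3 + 27 * b ^ 2) t) ∧
          ∀ K, FibreNear p v K a b X Y W t) → E.card ≤ C := by
  classical
  obtain ⟨𝓛, h𝓛, H⟩ := exists_SVD hd ha hb hΔ hmin hj hP hS
  refine ⟨𝓛, h𝓛, fun p hp hp5 B => ?_⟩
  obtain ⟨κ, w', x, y, w, R, T, h⟩ := H p hp5 B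
  obtain ⟨C, hC⟩ := h.all_cover hp5 hr
  have h1 : ∀ (v : ℚ_[p]) (e n : ℕ), ¬ p ∣ n → ∃ A : Finset ℤ,
      A.card ≤ C + h.fin.toFinset.card ∧
        ∀ t : ℚ, t.den = n → (∀ l ∈ 𝓛, ¬ (l : ℤ) ^ B ∣ formVal (4 * a ^ 3 + 27 * b ^ 2) t) →
          FibreNear p v ((C + h.fin.toFinset.card) * e) a b X Y W t →
            ∃ m ∈ A, (p : ℤ) ^ e ∣ t.num - m := by
    intro v e n hn
    obtain ⟨A, hA1, hA2⟩ := hC v ((C + h.fin.toFinset.card) * e) e n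
      (Nat.mul_le_mul_right e (Nat.le_add_right _ _))
    refine ⟨A ∪ h.fin.toFinset.image (fun t => t.num), (Finset.card_union_le _ _).trans
      (Nat.add_le_add hA1 Finset.card_image_le), fun t ht hl hF => ?_⟩
    by_cases hT : t ∈ T
    · exact ⟨t.num, Finset.mem_union_right _ (Finset.mem_image.mpr
        ⟨t, h.fin.mem_toFinset.mpr hT, rfl⟩), by rw [sub_self]; exact dvd_zero _⟩
    · obtain ⟨m, hm, hd⟩ := hA2 t ⟨⟨hT, by rw [ht]; exact hn, hl, hF⟩, ht⟩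
      exact ⟨m, Finset.mem_union_left _ hm, hd⟩
  refine ⟨C + h.fin.toFinset.card, h1, fun v n hn E hE => ?_⟩
  have hinj : Set.InjOn (fun t : ℚ => t.num) (E : Set ℚ) := by
    intro t ht t' ht' he
    exact Rat.ext he ((hE t ht).1.trans (hE t' ht').1.symm)
  rw [← Finset.card_image_of_injOn hinj]
  apply card_of_cover hp.out.one_lt
  intro e
  obtain ⟨A, hA1, hA2⟩ := h1 v e n hn
  refine ⟨A, hA1, fun u hu => ?_⟩
  obtain ⟨t, ht, rfl⟩ := Finset.mem_image.mp hu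
  obtain ⟨g1, g2, g3⟩ := hE t ht
  exact hA2 t g1 g2 (g3 _)

end Pool.Agent.Lib.MP_3550b5_nt.SV
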